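import Pool.Agent.Lib.MP_1c0d65_gt.PW.Int
import Pool.Agent.Lib.MP_1c0d65_gt.PW.Plot

/-! Local equations of a curve, sites and the current of a curve: definitions. -/

set_option autoImplicit false

open scoped Manifold ContDiff Topology ComplexConjugate
open Set Filter

noncomputable section

namespace Pool.Agent.Lib.MP_1c0d65_gt.PW

variable {X : Type} [TopologicalSpace X] [ChartedSpace E X] [MeasurableSpace X] {c : Ctx X}
  {O : Orb c}

/-- The one-form `d arg P` on `X`. -/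
def dA (P : X → ℂ) (x : X) : E →L[ℝ] ℝ := Complex.imCLM.comp ((P x)⁻¹ • dfn P x)

omit [MeasurableSpace X] in
theorem dA_apply (P : X → ℂ) (x : X) (v : E) : dA P x v = (dfn P x v / P x).im := by
  simp [dA, div_eq_inv_mul]

/-- A closed bad set `B`; outside it the curve is embedded and parametrised by the complement of
the finite set `Z`. -/
structure Bad (C : OC O) where
  Z : Finset ℂ
  B : Set X
  closed : IsClosed B
  hL : (⋃ i, O.L i) ⊆ B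
  v0 : C.v 0 ∈ B
  hF : C.F ⊆ Z
  hZ : ∀ s ∉ C.F, C.u s ∈ B ↔ s ∈ Z
  inj : InjOn C.u (Z : Set ℂ)ᶜ
  imm : ∀ s ∉ Z, dif C.u s 1 ≠ 0

/-- `P` is a positively oriented local equation of `C` at `x` (a point on or off the curve). -/
structure Eqn (C : OC O) (P : X → ℂ) (x : X) : Prop where
  sm : ∀ᶠ y in 𝓝 x, FnAt ∞ P y
  zero : ∀ᶠ y in 𝓝 x, P y = 0 ↔ y ∈ C.img
  pos : x ∈ C.img → ∃ v, 0 < (conj (dfn P x v) * dfn P x (O.J x v)).im

/-- Local equations near the bad set, unique up to constants. -/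
structure Site {C : OC O} (D : Bad C) where
  V : Set X
  isOpen : IsOpen V
  sub : D.B ⊆ V
  P : X → X → ℂ
  eqn : ∀ x ∈ V, x ∉ D.B → Eqn C (P x) x
  cst : ∀ x ∈ V, x ∉ D.B → ∀ᶠ y in 𝓝 x, ∃ k : ℂ, k ≠ 0 ∧ ∀ᶠ w in 𝓝 y, P y w = k * P x w

/-- The form `η` and its singular potential `ψ`; near the bad set `η = 0` and `ψ` is `d arg` of
the equations of the site. -/
structure Cur {C : OC O} {D : Bad C} (S : Site D) where
  η : X → Bil E ℝ
  ψ : X → E →L[ℝ] ℝ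
  U : X → Set X
  P : X → X → ℂ
  a : X → X → E →L[ℝ] ℝ
  closed : Closed η
  isOpen : ∀ x, IsOpen (U x)
  mem : ∀ x ∉ D.B, x ∈ U x
  sub : ∀ x, U x ⊆ D.Bᶜ
  eqn : ∀ x, ∀ y ∈ U x, Eqn C (P x) y
  isD : ∀ x, IsD (U x) (a x) ((2 * Real.pi) • η)
  pot : ∀ x, ∀ y ∈ U x, y ∉ C.img → ψ y = dA (P x) y - a x y
  dpot : IsD (C.img ∪ D.B)ᶜ ψ (-(2 * Real.pi) • η)
  ratio : ∀ x x', ∀ y ∈ U x ∩ U x', ∃ g : X → ℂ, g y ≠ 0 ∧ ∀ᶠ w in 𝓝 y, FnAt ∞ g w ∧
    P x w = g w * P x' w ∧ a x w - a x' w = dA g w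
  V : Set X
  isOpenV : IsOpen V
  subV : D.B ⊆ V
  VV : V ⊆ S.V
  η0 : ∀ x ∈ V, η x = 0
  near : ∀ x ∈ V, U x ⊆ V ∧ P x = S.P x ∧ ∀ y ∈ U x, a x y = 0

end Pool.Agent.Lib.MP_1c0d65_gt.PW
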