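import Pool.Agent.Lib.MP_1c0d65_gt.PW.OCi
import Pool.Agent.Lib.MP_1c0d65_gt.PW.PlotD
import Pool.Agent.Lib.MP_1c0d65_gt.PW.Pair
import Pool.Agent.Lib.MP_1c0d65_gt.W.Pow
import Pool.Agent.Lib.MP_1c0d65_gt.E.Cur

/-! The integral of a form over an orbifold sphere as a sum of residues. -/

set_option autoImplicit false
set_option linter.unusedSectionVars false

open scoped Manifold ContDiff Topology
open Set MeasureTheory Filter Metric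
open scoped Real

noncomputable section

namespace Pool.Agent.Lib.MP_1c0d65_gt.PW

open W

variable {X : Type} [TopologicalSpace X] [ChartedSpace E X] [IsManifold 𝓘(ℝ, E) ∞ X]

theorem pull1_dA {V : Type} [NormedAddCommGroup V] [NormedSpace ℝ V] {P : X → ℂ} {f : V → X}
    {y : V} (hP : MDifferentiableAt 𝓘(ℝ, E) 𝓘(ℝ, ℂ) P (f y)) (hf : DfAt f y) :
    pull1 f (dA P) y = darg (P ∘ f) y := by
  refine ContinuousLinearMap.ext fun v => ?_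
  rw [darg_apply, fderiv_fn_comp hP hf]
  exact dA_apply P _ _

theorem ev_smAt {V : Type} [NormedAddCommGroup V] [NormedSpace ℝ V] {f : V → X} {y : V}
    (hf : SmAt ∞ f y) : ∀ᶠ z in 𝓝 y, SmAt 2 f z :=
  (contMDiffAt_iff_contMDiffAt_nhds (by simp)).1 (hf.of_le two_le)

/-- The residue at a smooth point. -/
theorem res_sm {u : ℂ → X} {a : ℂ} (hu : SmAt ∞ u a) {V : Set X} (hV : IsOpen V) (ha : u a ∈ V)
    {b ψ : X → E →L[ℝ] ℝ} (hb : Sm1 V b) {P : X → ℂ} {lam : ℝ} {k : ℤ}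
    (hP : ∀ᶠ s in 𝓝[≠] a, FnAt 1 P (u s) ∧
      ∀ v, ψ (u s) v = lam * (dfn P (u s) v / P (u s)).im - b (u s) v)
    (hk : HasIdx (fun s => P (u s)) a k) :
    Tendsto (cp (pull1 u ψ) a) (𝓝[>] 0) (𝓝 (lam * (2 * π * k))) := by
  have h1 : ContDiffAt ℝ ∞ (pull1 u b) a := hb.smooth hV hu ha
  have h2 : ∀ᶠ s in 𝓝[≠] a, SmAt 2 u s := (ev_smAt hu).filter_mono nhdsWithin_le_nhds
  have h3 : ∀ᶠ s in 𝓝[≠] a, ContDiffAt ℝ 1 (fun s => P (u s)) s := by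
    filter_upwards [hP, h2] with s h3 h4 using h3.1.comp_plot (h4.of_le one_le_two)
  have h4 : pull1 u ψ =ᶠ[𝓝[≠] a] fun s => lam • darg (fun s => P (u s)) s - pull1 u b s := by
    filter_upwards [hP, h2] with s h3 h4
    refine ContinuousLinearMap.ext fun v => ?_
    have := fderiv_fn_comp (h3.1.mdifferentiableAt one_ne_zero) (h4.dfAt two_ne_zero)
    rw [sub_apply, smul_apply, darg_apply, show (fun s => P (u s)) = P ∘ u from rfl, this]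
    exact h3.2 _
  refine Tendsto.congr' (cp_pn h4.symm) (hk.res_bdd ?_ ?_)
  · filter_upwards [h3, (end_pn a).ne_zero hk, nhdsWithin_le_nhds
      ((h1.of_le (m := 1) (by simp)).eventually (by simp))] with s h5 h6 h7
    exact ⟨h5, ((contDiffAt_darg (m := 0) h5 h6 (by simp)).continuousAt.const_smul lam).sub
      h7.continuousAt⟩
  · simpa using (h1.continuousAt.tendsto.isBigO_one ℝ).mono nhdsWithin_le_nhds

/-- No residue where the form is smooth. -/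
theorem res_zero {u : ℂ → X} {a : ℂ} (hu : SmAt ∞ u a) {V : Set X} (hV : IsOpen V) (ha : u a ∈ V)
    {ψ : X → E →L[ℝ] ℝ} (hψ : Sm1 V ψ) : Tendsto (cp (pull1 u ψ) a) (𝓝[>] 0) (𝓝 0) :=
  cp_cont (hψ.smooth hV hu ha).continuousAt

variable [T2Space X] [CompactSpace X] [MeasurableSpace X] [BorelSpace X] {c : Ctx X} {O : Orb c}

theorem OC.smv (C : OC O) : ∀ᶠ s in 𝓝 (0 : ℂ), SmAt ∞ C.v s := by
  obtain ⟨r, hr, hv⟩ := C.hv
  filter_upwards [ball_mem_nhds 0 hr] with s hs using hv.1.contMDiffAt (isOpen_ball.mem_nhds hs)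

theorem OC.dif_v (C : OC O) : ∀ᶠ s in 𝓝[≠] (0 : ℂ), s⁻¹ ∉ C.F ∧
    ∀ w, dif C.v s w = dif C.u s⁻¹ (-(s ^ 2)⁻¹ * w) := by
  have h0 : ∀ᶠ z in Bornology.cobounded ℂ, z ∉ C.F := C.F.finite_toSet.isBounded
  filter_upwards [tendsto_inv₀_nhdsNE_zero.eventually h0, self_mem_nhdsWithin] with s h1 h2
  refine ⟨h1, fun w => ?_⟩
  have e : C.v =ᶠ[𝓝 s] C.u ∘ fun t => t⁻¹ :=
    (eventually_ne_nhds h2).mono fun t ht => C.uv t ht
  rw [dif_congr e, brk_dif_hol (φ := fun t => t⁻¹) (C.cm h1) (hasDerivAt_inv h2)]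

theorem OC.pull1_v (C : OC O) (ψ : X → E →L[ℝ] ℝ) : ∀ᶠ s in 𝓝[≠] (0 : ℂ),
    ∀ w, pull1 C.v ψ s w = pull1 C.u ψ s⁻¹ (-(s ^ 2)⁻¹ * w) := by
  filter_upwards [C.dif_v, self_mem_nhdsWithin] with s h1 h2 w
  change ψ (C.v s) (dif C.v s w) = ψ (C.u s⁻¹) (dif C.u s⁻¹ _)
  rw [h1.2, C.uv s h2]

/-- The integral over the sphere, for any one-form along the sphere. -/
theorem OC.per_green (C : OC O) {η : X → Bil E ℝ} (hη : Form univ η) (ht : O.Test η ∨ η = c.om)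
    (Z : Finset ℂ) {θ θ' : ℂ → ℂ →L[ℝ] ℝ} {lam : ℝ}
    (h : ∀ s ∉ Z, ContDiffAt ℝ 1 θ s ∧ dd θ s = lam * pull2 C.u η s 1 .I)
    (h' : ∀ᶠ s in 𝓝[≠] (0 : ℂ), ∀ w, θ' s w = θ s⁻¹ (-(s ^ 2)⁻¹ * w)) {r : ℂ → ℝ} {r' : ℝ}
    (h0 : ∀ a ∈ Z, Tendsto (cp θ a) (𝓝[>] 0) (𝓝 (r a)))
    (h1 : Tendsto (cp θ' 0) (𝓝[>] 0) (𝓝 r')) : lam * per C.u η = -(r' + ∑ a ∈ Z, r a) := by
  have ae : (fun s => lam * pull2 C.u η s 1 .I) =ᵐ[volume] dd θ :=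
    (Z.finite_toSet.countable.ae_notMem volume).mono fun s hs => (h s hs).2.symm
  rw [← green_sphere Z (fun s hs => (h s hs).1) (((C.integrable hη ht).const_mul lam).congr ae)
    h0 h' h1, per, ← integral_const_mul]
  exact integral_congr_ae ae

/-- The integral over the sphere of a form that is exact off finitely many points. -/
theorem OC.per_res (C : OC O) {η : X → Bil E ℝ} (hη : Form univ η) (ht : O.Test η ∨ η = c.om)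
    {U : Set X} (hU : IsOpen U) {ψ : X → E →L[ℝ] ℝ} {lam : ℝ} (hd : IsD U ψ (lam • η))
    (Z : Finset ℂ) (hZ : ∀ s ∉ Z, s ∉ C.F ∧ C.u s ∈ U) {r : ℂ → ℝ} {r' : ℝ}
    (h0 : ∀ a ∈ Z, Tendsto (cp (pull1 C.u ψ) a) (𝓝[>] 0) (𝓝 (r a)))
    (h1 : Tendsto (cp (pull1 C.v ψ) 0) (𝓝[>] 0) (𝓝 r')) :
    lam * per C.u η = -(r' + ∑ a ∈ Z, r a) :=
  C.per_green hη ht Z (fun s hs => ⟨(hd.sm1.smooth hU (C.cm (hZ s hs).1) (hZ s hs).2).of_le
    (by simp), (congrArg (fun B : Bil ℂ ℝ => B 1 .I)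
      (hd.pull hU ((C.cm (hZ s hs).1).of_le two_le) (hZ s hs).2)).symm⟩) (C.pull1_v ψ) h0 h1

variable {C : OC O} {a : ℂ} {i : Fin O.n} {j : ℕ} {z : ℂ → E}

theorem OC.Br.evd (h : C.Br a i j z) : ∀ᶠ ζ in 𝓝[≠] (0 : ℂ), z ζ ∈ pb O.R ∧
    O.Pi i (z ζ) = C.u (a + ζ ^ O.N i) ∧ a + ζ ^ O.N i ∉ C.F ∧ ∀ w, dif (O.Pi i) (z ζ)
      (fderiv ℝ z ζ w) = dif C.u (a + ζ ^ O.N i) (O.N i * ζ ^ (O.N i - 1) * w) := by
  obtain ⟨r, hr, hd, -, H⟩ := h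
  filter_upwards [self_mem_nhdsWithin, nhdsWithin_le_nhds (ball_mem_nhds 0 hr),
    (tendsto_pow_pn (O.N_ne i) a).eventually (C.ev_F a)] with ζ h0 h1 h2
  have e : (C.u ∘ fun t => a + t ^ O.N i) =ᶠ[𝓝 ζ] O.Pi i ∘ z := by
    filter_upwards [isOpen_compl_singleton.mem_nhds h0, isOpen_ball.mem_nhds h1] with t t0 t1
    exact (H t t1 t0).2.1.symm
  refine ⟨(H ζ h1 h0).1, (H ζ h1 h0).2.1, h2, fun w => ?_⟩
  rw [← brk_dif_hol (φ := fun t => a + t ^ O.N i) (C.cm h2)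
    ((hasDerivAt_pow (O.N i) ζ).const_add a), dif_congr e,
    dif_comp (brk_md (O.Pi_cm i (H ζ h1 h0).1))
      ((hd.differentiableAt (isOpen_ball.mem_nhds h1)).restrictScalars ℝ)]
  rfl

theorem OC.Br.z0 (h : C.Br a i j z) : z 0 = 0 := by
  obtain ⟨-, -, -, h, -⟩ := h
  exact h

theorem OC.Br.tend (h : C.Br a i j z) : Tendsto z (𝓝[≠] 0) (𝓝[≠] 0) :=
  tendsto_nhdsWithin_iff.2 ⟨by
    simpa [h.z0] using h.analyticAt.continuousAt.tendsto.mono_left nhdsWithin_le_nhds,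
    h.evd.mono fun _ hζ => hζ.1.2⟩

/-- The residue at an orbifold puncture, read in the uniformising chart. -/
theorem OC.Br.res' (h : C.Br a i j z) {ψ : X → E →L[ℝ] ℝ}
    (hc : ∀ᶠ s in 𝓝[≠] a, ContinuousAt (pull1 C.u ψ) s) {r : ℝ}
    (h1 : Tendsto (cp (fun ζ => (pull1 (O.Pi i) ψ (z ζ)).comp (fderiv ℝ z ζ)) 0) (𝓝[>] 0) (𝓝 r)) :
    Tendsto (cp (pull1 C.u ψ) a) (𝓝[>] 0) (𝓝 (r / O.N i)) := by
  rw [div_eq_inv_mul]
  refine res_orb (O.N_ne i) hc (h.evd.mono fun ζ hζ w => ?_) h1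
  change ψ (O.Pi i (z ζ)) (dif (O.Pi i) (z ζ) (fderiv ℝ z ζ w)) = ψ (C.u _) (dif C.u _ _)
  rw [hζ.2.2.2, hζ.2.1]

theorem OC.Br.res (h : C.Br a i j z) {ψ : X → E →L[ℝ] ℝ}
    (hc : ∀ᶠ s in 𝓝[≠] a, ContinuousAt (pull1 C.u ψ) s) {P : E → ℂ} {b : E → E →L[ℝ] ℝ}
    (hb : ∀ᶠ w in 𝓝 (0 : E), ContinuousAt b w) {lam : ℝ} {n : ℤ}
    (hP : ∀ᶠ ζ in 𝓝[≠] (0 : ℂ), ContDiffAt ℝ 1 P (z ζ) ∧
      pull1 (O.Pi i) ψ (z ζ) = lam • darg P (z ζ) - b (z ζ))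
    (hn : HasIdx (fun ζ => P (z ζ)) 0 n) :
    Tendsto (cp (pull1 C.u ψ) a) (𝓝[>] 0) (𝓝 (lam * (2 * π * n) / O.N i)) := by
  refine h.res' hc ?_
  have h1 : ∀ᶠ ζ in 𝓝 (0 : ℂ), ContDiffAt ℝ 1 z ζ :=
    h.analyticAt.eventually_analyticAt.mono fun ζ hζ => hζ.contDiffAt.restrict_scalars ℝ
  have h2 : ∀ᶠ ζ in 𝓝 (0 : ℂ), ContinuousAt (fun ζ => (b (z ζ)).comp (fderiv ℝ z ζ)) ζ := by
    have := h.analyticAt.continuousAt.tendsto
    rw [h.z0] at this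
    filter_upwards [this.eventually hb, h1] with ζ h3 h4
    exact (h3.comp h4.continuousAt).clm_comp (h4.continuousAt_fderiv one_ne_zero)
  have h3 : ∀ᶠ ζ in 𝓝[≠] (0 : ℂ), ContDiffAt ℝ 1 (fun ζ => P (z ζ)) ζ := by
    filter_upwards [hP, nhdsWithin_le_nhds h1] with ζ h3 h4 using h3.1.comp ζ h4
  have h4 : (fun ζ => (pull1 (O.Pi i) ψ (z ζ)).comp (fderiv ℝ z ζ)) =ᶠ[𝓝[≠] 0] fun ζ =>
      lam • darg (fun ζ => P (z ζ)) ζ - (b (z ζ)).comp (fderiv ℝ z ζ) := by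
    filter_upwards [hP, nhdsWithin_le_nhds h1] with ζ h3 h4
    rw [h3.2, darg_comp (h3.1.differentiableAt one_ne_zero) (h4.differentiableAt one_ne_zero)]
    rfl
  refine Tendsto.congr' (cp_pn h4.symm) (hn.res_bdd ?_ ?_)
  · filter_upwards [h3, (end_pn 0).ne_zero hn, nhdsWithin_le_nhds h2] with s h5 h6 h7
    exact ⟨h5, ((contDiffAt_darg (m := 0) h5 h6 (by simp)).continuousAt.const_smul lam).sub h7⟩
  · simpa using (h2.self_of_nhds.tendsto.isBigO_one ℝ).mono nhdsWithin_le_nhds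

/-- The integral over a second curve does not depend on the choice of the dual form. -/
theorem OC.dual_indep {C C' : OC O} {η η' ξ : X → Bil E ℝ} (h : C.Dual η) (h' : C.Dual η')
    (hξ : C'.Dual ξ) : per C'.u η = per C'.u η' := by
  rw [← hξ.2.2.1 η h.1 h.2.1, ← hξ.2.2.1 η' h'.1 h'.2.1, Q_symm, Q_symm ξ,
    h.2.2.1 ξ hξ.1 hξ.2.1, h'.2.2.1 ξ hξ.1 hξ.2.1]

end Pool.Agent.Lib.MP_1c0d65_gt.PW
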