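import Pool.Agent.Lib.MP_1c0d65_gt.E.AdjL
import Pool.Agent.Lib.MP_1c0d65_gt.E.Per
import Pool.Agent.Lib.MP_1c0d65_gt.B.SphereA
import Pool.Agent.Lib.MP_1c0d65_gt.W.Sum

/-! The one-form along a curve whose derivative is the density of `η - κ ω`. -/

set_option autoImplicit false
set_option linter.unusedSectionVars false

open scoped Manifold ContDiff Topology ComplexConjugate
open Set Filter Metric Complex MeasureTheory

noncomputable section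

namespace Pool.Agent.Lib.MP_1c0d65_gt.PW.Adj

open W

variable {X : Type} [TopologicalSpace X] [ChartedSpace E X] [IsManifold 𝓘(ℝ, E) ∞ X]

theorem Pt.omega {J : X → E →L[ℝ] E} {P : X → ℂ} {Ω : X → Bil E ℂ} {u : ℂ → X} {s : ℂ}
    (h : Pt J P Ω u s) (z : ℂ) (v : E) :
    Ω (u s) (dif u s z) v = z * Ω (u s) (dif u s 1) v := by
  have : z = z.re • (1 : ℂ) + z.im • I := by simp [re_add_im]
  conv_lhs => rw [this]
  simp only [map_add, map_smul, add_apply, smul_apply, h.cr, h.tz]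
  simp only [real_smul]
  conv_rhs => rw [← re_add_im z]
  ring

variable [T2Space X] [CompactSpace X] [MeasurableSpace X] [BorelSpace X] {c : Ctx X} {O : Orb c}
  {C : OC O} {D : Bad C} {S : Site D}

/-- The data of the anticanonical bundle on the smooth part. -/
abbrev KD (O : Orb c) : Type := Chern O.W O.J ((2 * Real.pi * c.κ) • c.om)

theorem notF (D : Bad C) {s : ℂ} (hs : s ∉ D.Z) : s ∉ C.F := fun h => hs (D.hF h)

theorem ev_notZ (D : Bad C) {s : ℂ} (hs : s ∉ D.Z) : ∀ᶠ t in 𝓝 s, t ∉ D.Z :=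
  D.Z.finite_toSet.isClosed.isOpen_compl.mem_nhds hs

theorem ev_notZ' (D : Bad C) (a : ℂ) : ∀ᶠ s in 𝓝[≠] a, s ∉ D.Z := by
  have h : IsClosed ((D.Z : Set ℂ) \ {a}) := (D.Z.finite_toSet.subset sdiff_subset).isClosed
  filter_upwards [self_mem_nhdsWithin, nhdsWithin_le_nhds (h.isOpen_compl.mem_nhds
    (show a ∈ ((D.Z : Set ℂ) \ {a})ᶜ from fun h => h.2 rfl))] with s hs hs' hF
  exact hs' ⟨hF, hs⟩

theorem notB (D : Bad C) {s : ℂ} (hs : s ∉ D.Z) : C.u s ∉ D.B :=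
  fun h => hs ((D.hZ s (notF D hs)).1 h)

theorem ev_pt (K : KD O) (D : Bad C) {s : ℂ} (hs : s ∉ D.Z) {P : X → ℂ} (hP : Eqn C P (C.u s))
    {k : X} (hk : k ∈ O.W) (hU : C.u s ∈ K.U k) : ∀ᶠ t in 𝓝 s, Pt O.J P (K.Ω k) C.u t := by
  have hc : ContinuousAt C.u s := (C.cm (notF D hs)).continuousAt
  have hv : ∀ᶠ t in 𝓝 s, P (C.u t) = 0 := by
    filter_upwards [ev_notZ D hs, hc.eventually hP.zero] with t ht h
    exact h.2 (Or.inl ⟨t, notF D ht, rfl⟩)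
  filter_upwards [ev_notZ D hs, hc.eventually hP.sm, hv.eventually_nhds,
    hc.eventually ((K.op k hk).mem_nhds hU)] with t ht h1 h2 h3
  exact ⟨C.cm (notF D ht), C.hu.2 t (notF D ht), D.imm t ht, h1, h2,
    O.JJ (C.mu (notF D ht)), (K.form k hk).1 _ h3, K.tz k hk _ h3, K.ne k hk _ h3⟩

theorem cf_good (K : KD O) (D : Bad C) {s : ℂ} (hs : s ∉ D.Z) {P : X → ℂ} (hP : Eqn C P (C.u s))
    {k : X} (hk : k ∈ O.W) (hU : C.u s ∈ K.U k) :
    ContDiffAt ℝ ∞ (cf O.J P (K.Ω k) C.u) s ∧ cf O.J P (K.Ω k) C.u s ≠ 0 := by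
  have h := ev_pt K D hs hP hk hU
  refine ⟨cf_smooth (K.op k hk) hU (K.form k hk)
    (fun x => (O.tame.2 x).mono (dom_mono x (K.sub k hk))) h, fun h0 => ?_⟩
  obtain ⟨v, hv⟩ := hP.pos (Or.inl ⟨s, notF D hs, rfl⟩)
  have h1 := h.self_of_nhds.spec v
  rw [h0, zero_mul, lin_apply, div_eq_zero_iff, or_iff_left two_ne_zero, sub_eq_zero] at h1
  rw [h1] at hv
  simp only [map_mul, conj_I, mul_im, mul_re, neg_re, neg_im, I_re, I_im, conj_re, conj_im] at hv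
  nlinarith [mul_self_nonneg (dfn P (C.u s) (O.J (C.u s) v)).re,
    mul_self_nonneg (dfn P (C.u s) (O.J (C.u s) v)).im]

/-- The local form. -/
def th (K : KD O) (Λ : Cur S) (x k : X) (s : ℂ) : ℂ →L[ℝ] ℝ :=
  pull1 C.u (Λ.a x) s - darg (cf O.J (Λ.P x) (K.Ω k) C.u) s - pull1 C.u (K.a k) s

/-- The global form. -/
def theta (K : KD O) (Λ : Cur S) (s : ℂ) : ℂ →L[ℝ] ℝ := th K Λ (C.u s) (C.u s) s

theorem theta_loc (K : KD O) (Λ : Cur S) {s : ℂ} (hs : s ∉ D.Z) {x k : X} (hx : C.u s ∈ Λ.U x)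
    (hk : k ∈ O.W) (hU : C.u s ∈ K.U k) : theta K Λ s = th K Λ x k s := by
  have hW : C.u s ∈ O.W := C.mu (notF D hs)
  have hx' : C.u s ∈ Λ.U (C.u s) := Λ.mem _ (notB D hs)
  have hU' : C.u s ∈ K.U (C.u s) := K.mem _ hW
  have su : SmAt ∞ C.u s := C.cm (notF D hs)
  obtain ⟨g, g0, hg⟩ := Λ.ratio (C.u s) x (C.u s) ⟨hx', hx⟩
  have hn : K.U k ∩ K.U (C.u s) ∈ 𝓝 (C.u s) :=
    ((K.op k hk).inter (K.op _ hW)).mem_nhds ⟨hU, hU'⟩
  have hγ : FnAt ∞ (K.g k (C.u s)) (C.u s) := (K.sm k hk _ hW).contMDiffAt hn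
  have γ0 := K.g_ne hk hW ⟨hU, hU'⟩
  have e1 : cf O.J (Λ.P (C.u s)) (K.Ω (C.u s)) C.u =ᶠ[𝓝 s] fun t =>
      g (C.u t) * K.g k (C.u s) (C.u t) * cf O.J (Λ.P x) (K.Ω k) C.u t := by
    filter_upwards [ev_pt K D hs (Λ.eqn x _ hx) hk hU, ev_pt K D hs (Λ.eqn _ _ hx') hW hU',
      su.continuousAt.eventually hg.eventually_nhds, su.continuousAt.eventually hn]
      with t h1 h2 h3 h4
    exact h1.cf_change h2 h3.self_of_nhds.1 (h3.mono fun w hw => hw.2.1) (K.co k hk _ hW _ h4)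
  obtain ⟨c1, c0⟩ := cf_good K D hs (Λ.eqn x _ hx) hk hU
  have d1 : DifferentiableAt ℝ (fun t => g (C.u t)) s :=
    cd_diff (FnAt.comp_plot hg.self_of_nhds.1 su)
  have d2 : DifferentiableAt ℝ (fun t => K.g k (C.u s) (C.u t)) s := cd_diff (FnAt.comp_plot hγ su)
  refine ContinuousLinearMap.ext fun v => ?_
  have f1 := DFunLike.congr_fun hg.self_of_nhds.2.2 (dif C.u s v)
  have f2 := K.da k hk _ hW _ ⟨hU, hU'⟩ (dif C.u s v)
  rw [sub_apply, dA_apply] at f1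
  simp only [theta, th, sub_apply, pull1_apply]
  rw [darg_congr e1, darg_mul (d1.fun_mul d2) (cd_diff c1) (mul_ne_zero g0 γ0) c0,
    darg_mul d1 d2 g0 γ0, add_apply, add_apply, darg_plot hg.self_of_nhds.1 su, darg_plot hγ su]
  linarith

theorem theta_ev (K : KD O) (Λ : Cur S) {s : ℂ} (hs : s ∉ D.Z) :
    theta K Λ =ᶠ[𝓝 s] th K Λ (C.u s) (C.u s) := by
  have hW : C.u s ∈ O.W := C.mu (notF D hs)
  have hc : ContinuousAt C.u s := (C.cm (notF D hs)).continuousAt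
  filter_upwards [ev_notZ D hs, hc.eventually ((Λ.isOpen _).mem_nhds (Λ.mem _ (notB D hs))),
    hc.eventually ((K.op _ hW).mem_nhds (K.mem _ hW))] with t h1 h2 h3
  exact theta_loc K Λ h1 h2 hW h3

theorem theta_dd (K : KD O) (Λ : Cur S) {s : ℂ} (hs : s ∉ D.Z) :
    ContDiffAt ℝ ∞ (theta K Λ) s ∧ dd (theta K Λ) s = 2 * Real.pi * pull2 C.u Λ.η s 1 I -
      2 * Real.pi * c.κ * pull2 C.u c.om s 1 I := by
  have hW : C.u s ∈ O.W := C.mu (notF D hs)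
  have hx' : C.u s ∈ Λ.U (C.u s) := Λ.mem _ (notB D hs)
  have hU' : C.u s ∈ K.U (C.u s) := K.mem _ hW
  have su : SmAt ∞ C.u s := C.cm (notF D hs)
  obtain ⟨c1, c0⟩ := cf_good K D hs (Λ.eqn _ _ hx') hW hU'
  have a1 := (Λ.isD (C.u s)).sm1.smooth (Λ.isOpen _) su hx'
  have a2 := contDiffAt_darg c1 c0 top_le
  have a3 := (K.isD _ hW).sm1.smooth (K.op _ hW) su hU'
  refine ⟨((a1.sub a2).sub a3).congr_of_eventuallyEq (theta_ev K Λ hs), ?_⟩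
  have b1 := congrArg (fun B : Bil ℂ ℝ => B 1 I)
    ((Λ.isD (C.u s)).pull (Λ.isOpen _) (su.of_le two_le) hx')
  have b2 := dd_darg (c1.of_le two_le) c0
  have b3 := congrArg (fun B : Bil ℂ ℝ => B 1 I)
    ((K.isD _ hW).pull (K.op _ hW) (su.of_le two_le) hU')
  simp only [ext1_apply, pull2_apply, Pi.smul_apply, smul_apply, smul_eq_mul] at b1 b3
  rw [dd_congr (theta_ev K Λ hs)]
  unfold dd at b2 ⊢
  unfold th
  rw [fderiv_fun_sub ((cd_diff a1).fun_sub (cd_diff a2)) (cd_diff a3),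
    fderiv_fun_sub (cd_diff a1) (cd_diff a2)]
  simp only [sub_apply, pull2_apply]
  linarith

theorem test_eta (Λ : Cur S) : O.Test Λ.η := ⟨Λ.V, Λ.isOpenV, D.hL.trans Λ.subV, Λ.η0⟩

theorem theta_green (K : KD O) (Λ : Cur S) {φ : ℂ → ℂ →L[ℝ] ℝ} {r : ℂ → ℝ} {r' : ℝ}
    (h0 : ∀ a ∈ D.Z, Tendsto (cp (theta K Λ) a) (𝓝[>] 0) (𝓝 (r a)))
    (hφ : ∀ᶠ s in 𝓝[≠] (0 : ℂ), ∀ v, φ s v = theta K Λ s⁻¹ (-(s ^ 2)⁻¹ * v))
    (h1 : Tendsto (cp φ 0) (𝓝[>] 0) (𝓝 r')) :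
    2 * Real.pi * (per C.u Λ.η - C.c1) = -(r' + ∑ a ∈ D.Z, r a) := by
  have i1 := (C.integrable Λ.closed.1 (Or.inl (test_eta Λ))).const_mul (2 * Real.pi)
  have i2 := (C.integrable c.hom.1 (Or.inr rfl)).const_mul (2 * Real.pi * c.κ)
  have ae : (fun s => 2 * Real.pi * pull2 C.u Λ.η s 1 I -
      2 * Real.pi * c.κ * pull2 C.u c.om s 1 I) =ᵐ[volume] dd (theta K Λ) :=
    (D.Z.finite_toSet.countable.ae_notMem volume).mono fun s hs => (theta_dd K Λ hs).2.symm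
  rw [← green_sphere D.Z (fun s hs => (theta_dd K Λ hs).1.of_le (by simp))
    ((i1.sub i2).congr ae) h0 hφ h1, ← integral_congr_ae ae, integral_sub i1 i2,
    integral_const_mul, integral_const_mul, OC.c1, per, per]
  ring

/-- Near the bad set. -/
theorem theta_near (K : KD O) (Λ : Cur S) {s : ℂ} (hs : s ∉ D.Z) (hV : C.u s ∈ Λ.V) {k : X}
    (hk : k ∈ O.W) (hU : C.u s ∈ K.U k) : theta K Λ s =
      -darg (cf O.J (S.P (C.u s)) (K.Ω k) C.u) s - pull1 C.u (K.a k) s := by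
  have hx' : C.u s ∈ Λ.U (C.u s) := Λ.mem _ (notB D hs)
  obtain ⟨-, h2, h3⟩ := Λ.near _ hV
  rw [theta_loc K Λ hs hx' hk hU, th, h2, pull1, h3 _ hx', ContinuousLinearMap.zero_comp, zero_sub]

/-- The index of the coefficient along a reparametrised branch. -/
theorem idx_cf (K : KD O) (D : Bad C) {P : X → ℂ} {k : X} (hk : k ∈ O.W) {τ A : ℂ → ℂ} {a : ℂ}
    {e : ℤ} (hh : HasIdx (fun s => A (τ s)) a e)
    (H : ∀ᶠ s in 𝓝[≠] a, τ s ∉ D.Z ∧ ContinuousAt τ s ∧ Eqn C P (C.u (τ s)) ∧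
      C.u (τ s) ∈ K.U k ∧ ∀ v, ‖dfn P (C.u (τ s)) v -
        A (τ s) * K.Ω k (C.u (τ s)) (dif C.u (τ s) 1) v‖ ≤
          1 / 2 * ‖A (τ s) * K.Ω k (C.u (τ s)) (dif C.u (τ s) 1) v‖) :
    HasIdx (fun s => cf O.J P (K.Ω k) C.u (τ s)) a e := by
  refine (end_pn a).close hh ?_
  filter_upwards [H, (end_pn a).ne_zero hh] with s ⟨a1, a2, a4, a5, a6⟩ h0
  refine ⟨(cf_good K D a1 a4 hk a5).1.continuousAt.comp a2, ?_⟩
  have := (ev_pt K D a1 a4 hk a5).self_of_nhds.close a6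
  have h2 := norm_pos_iff.2 h0
  linarith

end Pool.Agent.Lib.MP_1c0d65_gt.PW.Adj
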