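import Pool.Agent.Lib.MP_1c0d65_gt.E.Desc

/-! Weierstrass function of a branch at a cyclic quotient singularity: the notions, the axis. -/

set_option autoImplicit false

open Filter Topology Asymptotics

namespace Pool.Agent.Lib.MP_1c0d65_gt.PW

open W

/-- A holomorphic branch through the origin with monodromy `j`. -/
structure Bra (N a j : ℕ) (z : ℂ → E) : Prop where
  an : AnalyticAt ℂ z 0
  zero : z 0 = 0
  mon : ∀ᶠ ζ in 𝓝 (0 : ℂ), z (eps N * ζ) = gen N a j (z ζ)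

/-- `P` is a reduced equation of the orbit of the branch `z`. -/
structure Wei (N a j : ℕ) (z : ℂ → E) (P : E → ℂ) : Prop where
  an : AnalyticAt ℂ P 0
  semi : ∀ m, ∀ᶠ w in 𝓝 (0 : E), P (gen N a m w) = eps N ^ (a * j * m) * P w
  van : ∀ᶠ ζ in 𝓝 (0 : ℂ), P (z ζ) = 0
  zeros : ∀ S ∈ 𝓝 (0 : ℂ), ∀ᶠ w in 𝓝 (0 : E), P w = 0 → ∃ m, ∃ ζ ∈ S, w = gen N a m (z ζ)
  pos : ∀ j' < N, ∀ z', Bra N a j' z' → (∃ᶠ ζ in 𝓝 (0 : ℂ), P (z' ζ) ≠ 0) →
    ∃ n k : ℕ, HasIdx (fun ζ => P (z' ζ)) 0 n ∧ (n : ℝ) = N * (k + mn N a j j')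
  adj : ∃ (h : ℂ → ℂ) (e : ℤ), HasIdx h 0 e ∧ SelfIdx N a j (((e : ℝ) - 1) / N + 1) ∧
    ∀ᶠ ζ in 𝓝[≠] (0 : ℂ), ∀ v : E,
      fderiv ℂ P (z ζ) v = h ζ * ((deriv z ζ).1 * v.2 - (deriv z ζ).2 * v.1)

variable {N a j : ℕ} {z : ℂ → E} {P : E → ℂ}

theorem Bra.t (h : Bra N a j z) : Tendsto z (𝓝 0) (𝓝 0) := by
  simpa [h.zero] using h.an.continuousAt.tendsto

theorem Bra.an1 (h : Bra N a j z) : AnalyticAt ℂ (fun ζ => (z ζ).1) 0 := analyticAt_fst.comp h.an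

theorem Bra.an2 (h : Bra N a j z) : AnalyticAt ℂ (fun ζ => (z ζ).2) 0 := analyticAt_snd.comp h.an

theorem Bra.mon1 (h : Bra N a j z) : ∀ᶠ ζ in 𝓝 0, (z (eps N * ζ)).1 = eps N ^ j * (z ζ).1 :=
  h.mon.mono fun _ e => congrArg Prod.fst e

theorem Bra.mon2 (h : Bra N a j z) :
    ∀ᶠ ζ in 𝓝 0, (z (eps N * ζ)).2 = eps N ^ (a * j) * (z ζ).2 :=
  h.mon.mono fun _ e => congrArg Prod.snd e

theorem wei_pos (hN : N ≠ 0) (an : AnalyticAt ℂ P 0)
    (semi : ∀ m, ∀ᶠ w in 𝓝 (0 : E), P (gen N a m w) = eps N ^ (a * j * m) * P w)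
    (bd : P =O[𝓝 0] fun w : E => ‖w.2‖ ^ j + ‖w.1‖ ^ (a * j % N)) {j' : ℕ} (hj' : j' < N)
    {z' : ℂ → E} (h : Bra N a j' z') (hne : ∃ᶠ ζ in 𝓝 (0 : ℂ), P (z' ζ) ≠ 0) :
    ∃ n k : ℕ, HasIdx (fun ζ => P (z' ζ)) 0 n ∧ (n : ℝ) = N * (k + mn N a j j') := by
  have h1 : AnalyticAt ℂ (fun ζ => P (z' ζ)) 0 :=
    AnalyticAt.comp (g := P) (by rw [h.zero]; exact an) h.an
  obtain ⟨n, g, g1, g0, g2⟩ := wei_ord h1 fun h => hne (h.mono fun _ e => not_not.2 e)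
  have h2 : n ≡ a * j * j' [MOD N] := (wei_modEq hN).1 (wei_mono g1.continuousAt g0 g2
    (by filter_upwards [h.mon, h.t.eventually (semi j')] with ζ e1 e2; rw [e1, e2])
    ((mon_prim hN).ne_zero hN)).1
  have b1 := wei_bigO hN h.an1 (by rw [h.zero]; rfl) h.mon1
  have b2 := wei_bigO hN h.an2 (by rw [h.zero]; rfl) h.mon2
  rw [Nat.mod_eq_of_lt hj'] at b1
  set m := min (j * (a * j' % N)) (j' * (a * j % N)) with hm
  have h3 : m ≤ n := by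
    refine wei_ord_le g1.continuousAt g0 g2 ((bd.comp_tendsto h.t).trans (IsBigO.add ?_ ?_))
    · refine (b2.norm_left.pow j).trans ?_
      simp only [← pow_mul]
      exact wei_pow_bigO (mul_comm j _ ▸ min_le_left _ _)
    · refine (b1.norm_left.pow (a * j % N)).trans ?_
      simp only [← pow_mul]
      exact wei_pow_bigO (min_le_right _ _)
  have h4 : m ≡ a * j * j' [MOD N] := by
    rcases min_choice (j * (a * j' % N)) (j' * (a * j % N)) with e | e <;> rw [hm, e]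
    · exact ((Nat.mod_modEq _ _).mul_left j).trans (by rw [mul_left_comm, mul_assoc])
    · exact ((Nat.mod_modEq _ _).mul_left j').trans (by rw [mul_comm])
  obtain ⟨k, hk⟩ := (Nat.modEq_iff_dvd' h3).1 (h4.trans h2.symm)
  refine ⟨n, k, wei_idx g1 g0 g2, ?_⟩
  have h5 : n = N * k + m := by omega
  have h6 : (N : ℝ) ≠ 0 := Nat.cast_ne_zero.2 hN
  rw [mn, ← hm, h5]
  push_cast
  field_simp

theorem wei_self (hN : N ≠ 0) {A B q : ℕ} (hA : 0 < A) (hB : 0 < B) (h1 : A ≡ j [MOD N])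
    (h2 : B ≡ a * j [MOD N])
    (h : ∀ g A' B' : ℕ, A = g * A' → B = g * B' → B' ≡ a * A' [MOD N] → g ≤ q + 1) {e : ℤ}
    (he : e - 1 = A * B - A - B + N * q) : SelfIdx N a j (((e : ℝ) - 1) / N + 1) := by
  have h6 : (N : ℝ) ≠ 0 := Nat.cast_ne_zero.2 hN
  have he' : (e : ℝ) - 1 = A * B - A - B + N * q := by exact_mod_cast he
  refine ⟨?_, A, B, hA, hB, h1, h2, fun g A' B' e1 e2 e3 => ?_⟩
  · obtain ⟨s, hs⟩ := h1.dvd
    obtain ⟨t, ht⟩ := (h2.trans (Nat.mod_modEq _ _).symm).dvd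
    have hs' : (j : ℝ) - A = N * s := by exact_mod_cast hs
    have ht' : ((a * j % N : ℕ) : ℝ) - B = N * t := by exact_mod_cast ht
    refine ⟨q + 1 - (A * t + s * B + N * s * t - s - t), ?_⟩
    rw [he', show (j : ℝ) = A + N * s by linarith,
      show ((a * j % N : ℕ) : ℝ) = B + N * t by linarith]
    push_cast
    field_simp
    ring
  · have : (g : ℝ) ≤ q + 1 := by exact_mod_cast h g A' B' e1 e2 e3
    rw [he', add_div, mul_div_cancel_left₀ _ h6]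
    linarith

theorem wei_tangent (an : AnalyticAt ℂ P 0) (h : Bra N a j z)
    (van : ∀ᶠ ζ in 𝓝 (0 : ℂ), P (z ζ) = 0) : ∀ᶠ ζ in 𝓝 (0 : ℂ),
      fderiv ℂ P (z ζ) (deriv z ζ) = 0 ∧ deriv (fun ζ => (z ζ).1) ζ = (deriv z ζ).1 ∧
        deriv (fun ζ => (z ζ).2) ζ = (deriv z ζ).2 := by
  filter_upwards [van.eventually_nhds, h.an.eventually_analyticAt,
    h.t.eventually an.eventually_analyticAt] with ζ h1 h2 h3
  have hd := h2.differentiableAt.hasDerivAt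
  refine ⟨?_, ((ContinuousLinearMap.fst ℂ ℂ ℂ).hasFDerivAt.comp_hasDerivAt ζ hd).deriv,
    ((ContinuousLinearMap.snd ℂ ℂ ℂ).hasFDerivAt.comp_hasDerivAt ζ hd).deriv⟩
  exact (h3.differentiableAt.hasFDerivAt.comp_hasDerivAt ζ hd).unique
    ((hasDerivAt_const ζ (0 : ℂ)).congr_of_eventuallyEq h1)

theorem wei_lin (L : E →L[ℂ] ℂ) (v : E) : L v = v.1 * L (1, 0) + v.2 * L (0, 1) := by
  rw [← smul_eq_mul, ← smul_eq_mul, ← map_smul, ← map_smul, ← map_add]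
  simp

theorem WPar.simple {A : ℕ} {f ξ σ : ℂ → ℂ} (h : WPar N A f ξ σ) (hN : N ≠ 0) {S : Set ℂ}
    (hS : S ∈ 𝓝[≠] (0 : ℂ))
    (simple : ∀ ζ ∈ S, ∀ ζ' ∈ S, ∀ m, z ζ' = gen N a m (z ζ) → ζ' ^ N = ζ ^ N) {θ : ℂ}
    (hθ : θ ≠ 0) {m : ℕ} (e : ∀ᶠ t in 𝓝 0, z (σ t) = gen N a m (z (σ (θ * t)))) : θ ^ N = 1 := by
  have h1 : Tendsto (fun t : ℂ => θ * t) (𝓝[≠] 0) (𝓝[≠] 0) :=
    tendsto_nhdsWithin_iff.2 ⟨(wei_mul θ).mono_left nhdsWithin_le_nhds,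
      eventually_nhdsWithin_of_forall fun t ht => mul_ne_zero hθ ht⟩
  refine h.root hN ?_
  filter_upwards [nhdsWithin_le_nhds e, h.tn'.eventually hS, (h.tn'.comp h1).eventually hS]
    with t t1 t2 t3
  exact (simple _ t3 _ t2 m t1).symm

theorem wei_eps_pow (hN : N ≠ 0) {A : ℕ} (hA : A ≠ 0) : eps (N * A) ^ A = eps N := by
  rw [eps, eps, ← Complex.exp_nat_mul]
  congr 1
  have h1 : (N : ℂ) ≠ 0 := Nat.cast_ne_zero.2 hN
  have h2 : (A : ℂ) ≠ 0 := Nat.cast_ne_zero.2 hA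
  push_cast
  field_simp

/-- The branch lies in the second axis. -/
theorem wei_axis (hz : Bra N a j z) (ha : a.Coprime N) (hj : j < N)
    {S : Set ℂ} (hS : S ∈ 𝓝[≠] (0 : ℂ))
    (simple : ∀ ζ ∈ S, ∀ ζ' ∈ S, ∀ m, z ζ' = gen N a m (z ζ) → ζ' ^ N = ζ ^ N)
    (h0 : ∀ᶠ ζ in 𝓝 0, (z ζ).1 = 0) : Wei N a j z Prod.fst := by
  have hN : N ≠ 0 := by omega
  have : NeZero N := ⟨hN⟩
  have he := mon_prim hN
  have h2 : ¬ ∀ᶠ ζ in 𝓝 0, (z ζ).2 = 0 := fun h2 => by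
    have hw : WPar N 1 id id id := ⟨analyticAt_id, analyticAt_id, idx_id _, rfl, rfl, by simp,
      by simp, by simp, by simp, by simp⟩
    have h3 : ∀ᶠ ζ in 𝓝 0, z ζ = 0 := (h0.and h2).mono fun ζ h => Prod.ext h.1 h.2
    have h4 := hw.simple hN hS simple (θ := 2) two_ne_zero (m := 0) (by
      filter_upwards [h3, (wei_mul 2).eventually h3] with t t1 t2
      rw [id, id, t1, t2, mon_gen_dvd hN a (dvd_zero N)])
    have h5 : 2 ^ N = 1 := by exact_mod_cast h4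
    exact hN (by simpa using h5)
  obtain ⟨B, g, g1, g0, g2⟩ := wei_ord hz.an2 h2
  have hB := wei_ord_pos g0 g2 (by rw [hz.zero]; rfl)
  obtain ⟨m1, m2⟩ := wei_mono g1.continuousAt g0 g2 hz.mon2 (he.ne_zero hN)
  obtain ⟨ξ, σ, hw⟩ := wei_param hB g1 g0 g2 m2
  have hσ : ∀ᶠ t in 𝓝 0, z (σ t) = (0, t ^ B) :=
    (hw.t'.eventually h0 |>.and hw.pw').mono fun t h => Prod.ext h.1 h.2
  obtain rfl : B = 1 := by
    obtain ⟨m, -, hm⟩ := (he.pow_of_coprime a ha).eq_pow_of_pow_eq_one (ξ := (eps N)⁻¹)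
      (by rw [inv_pow, he.pow_eq_one, inv_one])
    have hNB := mul_ne_zero hN hB
    have h4 := hw.simple hN hS simple ((mon_prim hNB).ne_zero hNB) (m := m) (by
      filter_upwards [hσ, (wei_mul (eps (N * B))).eventually hσ] with t t1 t2
      rw [t1, t2, gen, pow_mul, hm, mul_pow, wei_eps_pow hN hB, inv_mul_cancel_left₀ (he.ne_zero hN),
        mul_zero])
    have h5 := Nat.le_of_dvd (Nat.pos_of_ne_zero hN) ((mon_prim hNB).dvd_of_pow_eq_one _ h4)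
    have h6 : B ≤ 1 := Nat.le_of_mul_le_mul_left (by simpa using h5) (Nat.pos_of_ne_zero hN)
    omega
  have semi : ∀ m, ∀ᶠ w in 𝓝 (0 : E), (gen N a m w).1 = eps N ^ (a * j * m) * w.1 := fun m =>
    Eventually.of_forall fun w => by rw [pow_mul, ← m1, pow_one, gen]
  have hm : 1 ≡ a * j [MOD N] := (wei_modEq hN).1 m1
  have t1 : Tendsto (fun w : E => w.1) (𝓝 0) (𝓝 0) := continuous_fst.tendsto (0 : E)
  have t2 : Tendsto (fun w : E => w.2) (𝓝 0) (𝓝 0) := continuous_snd.tendsto (0 : E)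
  refine ⟨analyticAt_fst, semi, h0, fun T hT => ?_,
    fun j' hj' z' h1 h2 => wei_pos hN analyticAt_fst semi ?_ hj' h1 h2, ?_⟩
  · filter_upwards [t2.eventually hσ, t2.eventually (hw.t'.eventually hT)] with w w1 w2 w3
    refine ⟨0, _, w2, ?_⟩
    rw [w1, mon_gen_dvd hN a (dvd_zero N), pow_one, ← w3]
  · refine IsBigO.of_bound' ?_
    filter_upwards [t1.eventually (Metric.closedBall_mem_nhds 0 one_pos)] with w hw
    rw [Real.norm_of_nonneg (by positivity)]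
    have := pow_le_pow_of_le_one (norm_nonneg w.1) (mem_closedBall_zero_iff.1 hw)
      (show a * j % N ≤ 1 from hm ▸ Nat.mod_le 1 N)
    rw [pow_one] at this
    exact this.trans (le_add_of_nonneg_left (by positivity))
  · have d2 := wei_deriv one_ne_zero g1 g0 g2
    refine ⟨fun ζ => -(deriv (fun ζ => (z ζ).2) ζ)⁻¹, 0, ((end_pn 0).neg d2.inv).cast (by simp),
      wei_self hN (A := j + N) (B := 1) (q := 0) (by omega) one_pos (by simp [Nat.ModEq]) hm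
        (fun g A' B' _ e _ => Nat.le_of_dvd one_pos (Dvd.intro _ e.symm)) (by simp), ?_⟩
    filter_upwards [(end_pn 0).ne_zero d2, nhdsWithin_le_nhds (wei_tangent analyticAt_fst hz h0)]
      with ζ z1 ⟨z2, _, z3⟩ v
    rw [fderiv_fst] at z2 ⊢
    have z4 : (deriv z ζ).1 = 0 := z2
    rw [z4, ← z3]
    simp only [ContinuousLinearMap.coe_fst']
    field_simp
    ring

end Pool.Agent.Lib.MP_1c0d65_gt.PW
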