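import Pool.Agent.Lib.MP_1c0d65_gt.E.OSec
import Pool.Agent.Lib.MP_1c0d65_gt.E.WeiD
import Pool.Agent.Lib.MP_1c0d65_gt.E.Cur
import Pool.Agent.Lib.MP_1c0d65_gt.W.Arg

/-! The local equation of an orbifold curve at a singular point: the notion and its descent. -/

set_option autoImplicit false
set_option linter.unusedSectionVars false

open scoped Manifold ContDiff Topology ComplexConjugate
open Set Filter Metric

noncomputable section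

namespace Pool.Agent.Lib.MP_1c0d65_gt.PW

open W

variable {X : Type} [TopologicalSpace X] [ChartedSpace E X] [IsManifold 𝓘(ℝ, E) ∞ X]
  [T2Space X] [CompactSpace X] [MeasurableSpace X] [BorelSpace X] {c : Ctx X} {O : Orb c}

/-- `P` is a reduced equation of the preimage of `C` in the uniformising chart `i`. -/
structure OEq (C : OC O) (ι : C.F → Fin O.n) (j : C.F → ℕ) (i : Fin O.n) (r : ℝ) (P : E → ℂ) :
    Prop where
  hr : r ∈ Ioc 0 O.R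
  an : AnalyticOnNhd ℂ P (ball 0 r)
  semi : ∀ m, ∀ w ∈ ball (0 : E) r, P (gen (O.N i) (O.a i) m w) =
    eps (O.N i) ^ ((∑ s, if ι s = i then O.a i * j s else 0) * m) * P w
  zero : ∀ w ∈ pb r, P w = 0 ↔ O.Pi i w ∈ C.img
  reg : ∀ w ∈ pb r, P w = 0 → fderiv ℂ P w ≠ 0
  emb : ∀ w ∈ pb r, O.Pi i w ≠ C.v 0 ∧ ∀ t ∉ C.F, C.u t = O.Pi i w →
    dif C.u t 1 ≠ 0 ∧ ∀ t' ∉ C.F, C.u t' = O.Pi i w → t' = t
  pos : ∀ j' < O.N i, ∀ z', Bra (O.N i) (O.a i) j' z' → (∃ᶠ ζ in 𝓝 (0 : ℂ), P (z' ζ) ≠ 0) →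
    ∃ n k : ℕ, HasIdx (fun ζ => P (z' ζ)) 0 n ∧ (n : ℝ) = O.N i *
      (k + ∑ s, if ι s = i then mn (O.N i) (O.a i) (j s) j' else 0)
  adj : ∀ s, ι s = i → ∃ (z : ℂ → E) (h : ℂ → ℂ) (e : ℤ) (l : ℝ) (k : ℕ), C.Br s i (j s) z ∧
    HasIdx h 0 e ∧ SelfIdx (O.N i) (O.a i) (j s) l ∧ ((e : ℝ) - 1) / O.N i + 1 = l + k +
      (∑ s', if s ≠ s' ∧ ι s' = i then mn (O.N i) (O.a i) (j s) (j s') else 0) ∧
    ∀ᶠ ζ in 𝓝[≠] (0 : ℂ), ∀ v : E,
      fderiv ℂ P (z ζ) v = h ζ * ((deriv z ζ).1 * v.2 - (deriv z ζ).2 * v.1)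

variable {C C' : OC O} {ι : C.F → Fin O.n} {j : C.F → ℕ} {i : Fin O.n} {r r' : ℝ} {P : E → ℂ}

theorem OEq.mono (h : OEq C ι j i r P) (h0 : 0 < r') (h1 : r' ≤ r) : OEq C ι j i r' P :=
  ⟨⟨h0, h1.trans h.hr.2⟩, h.an.mono (ball_subset_ball h1),
    fun m w hw => h.semi m w (ball_subset_ball h1 hw), fun w hw => h.zero w (mon_pb_mono h1 hw),
    fun w hw => h.reg w (mon_pb_mono h1 hw), fun w hw => h.emb w (mon_pb_mono h1 hw), h.pos, h.adj⟩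

theorem OC.Br.bra {a : ℂ} {j : ℕ} {z : ℂ → E} (h : C.Br a i j z) : Bra (O.N i) (O.a i) j z := by
  refine ⟨h.analyticAt, h.zero, ?_⟩
  obtain ⟨r, hr, -, h0, H⟩ := h
  filter_upwards [ball_mem_nhds 0 hr] with ζ hζ
  by_cases e : ζ = 0
  · simp [e, h0, gen, Prod.ext_iff]
  · exact (H ζ hζ e).2.2

theorem OC.Br.ev_pb {a : ℂ} {j : ℕ} {z : ℂ → E} (h : C.Br a i j z) (hr : 0 < r) :
    ∀ᶠ ζ in 𝓝[≠] (0 : ℂ), z ζ ∈ pb r ∧ O.Pi i (z ζ) = C.u (a + ζ ^ O.N i) := by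
  filter_upwards [h.ev, nhdsWithin_le_nhds (h.bra.t.eventually (ball_mem_nhds 0 hr))] with ζ h1 h2
  exact ⟨⟨h2, h1.self_of_nhds.1.2⟩, h1.self_of_nhds.2⟩

/-- The index along a branch of another curve. -/
theorem OEq.pos_br (h : OEq C ι j i r P) {a' : ℂ} {j' : ℕ} {z' : ℂ → E} (hj : j' < O.N i)
    (hz : C'.Br a' i j' z') (hne : ∃ᶠ s in 𝓝[≠] a', C'.u s ∉ C.img) :
    ∃ n k : ℕ, HasIdx (fun ζ => P (z' ζ)) 0 n ∧ (n : ℝ) = O.N i *
      (k + ∑ s, if ι s = i then mn (O.N i) (O.a i) (j s) j' else 0) := by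
  refine h.pos j' hj z' hz.bra (Frequently.filter_mono ?_ (nhdsWithin_le_nhds (s := {0}ᶜ)))
  rw [← punct_map (O.N_ne i) a', frequently_map] at hne
  refine (hne.and_eventually (hz.ev_pb h.hr.1)).mono fun ζ ⟨h1, h2, h3⟩ e => h1 ?_
  rw [← h3]
  exact (h.zero _ h2).1 e

theorem OEq.cd (h : OEq C ι j i r P) {w : E} (hw : w ∈ pb r) : ContDiffAt ℝ ∞ P w :=
  ((h.an w hw.1).contDiffAt (n := ∞)).restrict_scalars ℝ

theorem OEq.fd (h : OEq C ι j i r P) {w : E} (hw : w ∈ pb r) (v : E) :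
    fderiv ℝ P w v = fderiv ℂ P w v := by
  rw [((h.an w hw.1).differentiableAt.hasFDerivAt.restrictScalars ℝ).fderiv]
  rfl

theorem oeq_pull_dA {V : Type} [NormedAddCommGroup V] [NormedSpace ℝ V] {g : X → ℂ} {f : V → X}
    {y : V} (hg : MDifferentiableAt 𝓘(ℝ, E) 𝓘(ℝ, ℂ) g (f y)) (hf : DfAt f y) :
    pull1 f (dA g) y = darg (g ∘ f) y := by
  ext v
  rw [pull1_apply, dA_apply, darg_apply, fderiv_fn_comp hg hf]
  rfl

theorem darg_cmul {V : Type} [NormedAddCommGroup V] [NormedSpace ℝ V] {f g : V → ℂ} {y : V}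
    {k : ℂ} (hk : k ≠ 0) (hg : DifferentiableAt ℝ g y) (h : ∀ᶠ w in 𝓝 y, f w = k * g w) :
    darg f y = darg g y := by
  rw [darg_congr h]
  ext v
  rw [darg_apply, darg_apply, fderiv_const_mul hg]
  simp [mul_div_mul_left _ _ hk]

theorem dA_cmul {f g : X → ℂ} {y : X} {k : ℂ} (hk : k ≠ 0)
    (hg : MDifferentiableAt 𝓘(ℝ, E) 𝓘(ℝ, ℂ) g y) (h : ∀ᶠ w in 𝓝 y, f w = k * g w) :
    dA f y = dA g y := by
  have h1 : f =ᶠ[𝓝 y] (fun t => k * t) ∘ g := h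
  refine ContinuousLinearMap.ext fun v => ?_
  rw [dA_apply, dA_apply, dfn_congr h1, dfn_comp (by fun_prop) hg, h.self_of_nhds,
    ContinuousLinearMap.comp_apply, brk_fderiv ((hasDerivAt_id' _).const_mul k), mul_one,
    mul_div_mul_left _ _ hk]

section
variable {e e' : OpenPartialHomeomorph X E}

theorem OEq.fn (h : OEq C ι j i r P) (he : IsChart e) (h2 : e.target ⊆ pb r) {y : X}
    (hy : y ∈ e.source) : FnAt ∞ (P ∘ e) y :=
  (h.cd (h2 (e.map_source hy))).contMDiffAt.comp y (he.fnAt hy)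

theorem OEq.dfn_eq (h : OEq C ι j i r P) (he : IsChart e) (h2 : e.target ⊆ pb r) {y : X}
    (hy : y ∈ e.source) (v : E) : dfn (P ∘ e) y v = fderiv ℂ P (e y) (dfn e y v) := by
  rw [dfn_comp (cd_diff (h.cd (h2 (e.map_source hy)))) ((he.fnAt hy).mdifferentiableAt (by simp)),
    ContinuousLinearMap.comp_apply, h.fd (h2 (e.map_source hy))]

theorem Orb.dfn_J (he : IsChart e) (hr : r ≤ O.R) (h2 : e.target ⊆ pb r)
    (h3 : (e.symm : E → X) = O.Pi i) {y : X} (hy : y ∈ e.source) (v : E) :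
    dfn e y (O.J y v) = Complex.I • dfn e y v := by
  have h4 : O.Pi i (e y) = y := h3 ▸ e.left_inv hy
  have h5 : ∀ v, dif (O.Pi i) (e y) (dfn e y v) = v := h3 ▸ he.dif_dfn hy
  have h6 := he.dfn_dif (e.map_source hy) (Complex.I • dfn e y v)
  rw [e.left_inv hy, h3, O.hol i _ (mon_pb_mono hr (h2 (e.map_source hy))), h5, h4] at h6
  exact h6

theorem OEq.eqn (h : OEq C ι j i r P) (he : IsChart e) (h2 : e.target ⊆ pb r)
    (h3 : (e.symm : E → X) = O.Pi i) {y : X} (hy : y ∈ e.source) : Eqn C (P ∘ e) y := by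
  have h4 : ∀ x ∈ e.source, (P ∘ e) x = 0 ↔ x ∈ C.img := fun x hx => by
    have := h.zero _ (h2 (e.map_source hx))
    rwa [← h3, e.left_inv hx] at this
  refine ⟨?_, ?_, fun hi => ?_⟩
  · filter_upwards [e.open_source.mem_nhds hy] with x hx using h.fn he h2 hx
  · filter_upwards [e.open_source.mem_nhds hy] with x hx using h4 x hx
  · obtain ⟨v, hv⟩ := DFunLike.ne_iff.1 (h.reg _ (h2 (e.map_source hy)) ((h4 y hy).2 hi))
    have h5 := he.dfn_dif (e.map_source hy) v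
    rw [e.left_inv hy] at h5
    refine ⟨dif e.symm (e y) v, ?_⟩
    rw [h.dfn_eq he h2 hy, h.dfn_eq he h2 hy, Orb.dfn_J he h.hr.2 h2 h3 hy, h5, map_smul,
      smul_eq_mul, mul_left_comm, ← Complex.normSq_eq_conj_mul_self]
    simpa using hv

end

theorem OEq.sec (h : OEq C ι j i r P) {T : Type} [TopologicalSpace T] {σ τ : T → E} {t : T}
    (hσ : ContinuousAt σ t) (hτ : ContinuousAt τ t) (h1 : σ t ∈ pb r) (h2 : τ t ∈ pb r)
    (e : ∀ᶠ s in 𝓝 t, O.Pi i (σ s) = O.Pi i (τ s)) :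
    ∃ k : ℂ, k ≠ 0 ∧ ∀ᶠ s in 𝓝 t, P (τ s) = k * P (σ s) := by
  obtain ⟨m, hm⟩ := O.sec_eq i hσ hτ (mon_pb_mono h.hr.2 h1) (mon_pb_mono h.hr.2 h2) e
  refine ⟨_, pow_ne_zero ((∑ s, if ι s = i then O.a i * j s else 0) * m)
    ((mon_prim (O.N_ne i)).ne_zero (O.N_ne i)), ?_⟩
  filter_upwards [hm, hσ.eventually (isOpen_ball.mem_nhds h1.1)] with s s1 s2
  rw [s1, h.semi m _ s2]

/-- The equations downstairs, in the shape of a site. -/
theorem OEq.exists_site (h : OEq C ι j i r P) : ∃ Q : X → X → ℂ,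
    (∀ x ∈ O.Pi i '' pb r, Eqn C (Q x) x ∧ (∀ v, dfn (Q x) x (O.J x v) = .I * dfn (Q x) x v) ∧
      ∀ᶠ y in 𝓝 x, ∃ k : ℂ, k ≠ 0 ∧ ∀ᶠ w in 𝓝 y, Q y w = k * Q x w) ∧
    ∀ w ∈ pb r, (∃ k : ℂ, k ≠ 0 ∧ ∀ᶠ w' in 𝓝 w, Q (O.Pi i w) (O.Pi i w') = k * P w') ∧
      pull1 (O.Pi i) (dA (Q (O.Pi i w))) w = darg P w := by
  have H : ∀ x : X, ∃ e : OpenPartialHomeomorph X E, x ∈ O.Pi i '' pb r → IsChart e ∧
      x ∈ e.source ∧ e.target ⊆ pb r ∧ (e.symm : E → X) = O.Pi i := fun x => by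
    by_cases hx : x ∈ O.Pi i '' pb r
    · obtain ⟨w, hw, rfl⟩ := hx
      obtain ⟨e, he, h1, h2, h3⟩ := O.exists_chart i h.hr.2 hw
      exact ⟨e, fun _ => ⟨he, h3 ▸ e.map_target h1, h2, h3⟩⟩
    · exact ⟨chartAt E x, fun h => absurd h hx⟩
  choose e he using H
  refine ⟨fun x => P ∘ e x, fun x hx => ?_, fun w hw => ?_⟩
  · obtain ⟨h1, h2, h3, h4⟩ := he x hx
    refine ⟨h.eqn h1 h3 h4 h2, fun v => ?_, ?_⟩
    · rw [h.dfn_eq h1 h3 h2, h.dfn_eq h1 h3 h2, Orb.dfn_J h1 h.hr.2 h3 h4 h2, map_smul, smul_eq_mul]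
    filter_upwards [(e x).open_source.mem_nhds h2, (O.isOpen_img i h.hr.2).mem_nhds hx] with y y1 y2
    obtain ⟨g1, g2, g3, g4⟩ := he y y2
    refine h.sec ((e x).continuousAt y1) ((e y).continuousAt g2) (h3 ((e x).map_source y1))
      (g3 ((e y).map_source g2)) ?_
    filter_upwards [(e x).open_source.mem_nhds y1, (e y).open_source.mem_nhds g2] with s s1 s2
    exact (h4 ▸ (e x).left_inv s1 : O.Pi i (e x s) = s).trans
      (g4 ▸ (e y).left_inv s2 : O.Pi i (e y s) = s).symm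
  · obtain ⟨h1, h2, h3, h4⟩ := he _ ⟨w, hw, rfl⟩
    have h5 := O.Pi_cm i (mon_pb_mono h.hr.2 hw)
    obtain ⟨k, hk, h6⟩ := h.sec (σ := id) (τ := fun s => e (O.Pi i w) (O.Pi i s)) continuousAt_id
      (((e _).continuousAt h2).comp h5.continuousAt) hw (h3 ((e _).map_source h2)) (by
        filter_upwards [h5.continuousAt.eventually ((e _).open_source.mem_nhds h2)] with s s1
        exact ((congrFun h4 _).symm.trans ((e _).left_inv s1)).symm)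
    refine ⟨⟨k, hk, h6⟩, ?_⟩
    rw [oeq_pull_dA ((h.fn h1 h3 h2).mdifferentiableAt (by simp)) (brk_md h5)]
    exact darg_cmul hk (cd_diff (h.cd hw)) h6

theorem OEq.isOpen_off (h : OEq C ι j i r P) : IsOpen (O.Pi i '' pb r \ C.img) := by
  rw [isOpen_iff_mem_nhds]
  rintro _ ⟨⟨w, hw, rfl⟩, h1⟩
  rw [← O.map_Pi i (mon_pb_mono h.hr.2 hw), mem_map]
  filter_upwards [(mon_isOpen_pb r).mem_nhds hw,
    (h.cd hw).continuousAt.eventually_ne (mt (h.zero w hw).1 h1)] with t t1 t2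
  exact ⟨⟨t, t1, rfl⟩, mt (h.zero t t1).2 t2⟩

/-- The form `d arg P` descends. -/
theorem OEq.exists_psi (h : OEq C ι j i r P) :
    ∃ ψ : X → E →L[ℝ] ℝ, (∀ w ∈ pb r, pull1 (O.Pi i) ψ w = darg P w) ∧
      IsD (O.Pi i '' pb r \ C.img) ψ 0 ∧
      ∀ (σ : X → E) (y : X), ContMDiffAt 𝓘(ℝ, E) 𝓘(ℝ, E) ∞ σ y →
        (∀ᶠ x in 𝓝 y, σ x ∈ pb r ∧ O.Pi i (σ x) = x) →
        ∀ v, ψ y v = (dfn (fun x => P (σ x)) y v / P (σ y)).im := by
  obtain ⟨Q, h1, h2⟩ := h.exists_site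
  have h3 : ∀ w ∈ pb r, pull1 (O.Pi i) (fun x => dA (Q x) x) w = darg P w := fun w hw => (h2 w hw).2
  have h4 : ∀ p ∈ O.Pi i '' pb r \ C.img, ∃ e : OpenPartialHomeomorph X E, IsChart e ∧
      p ∈ e.source ∧ e p ∈ pb r ∧ P (e p) ≠ 0 ∧
        pull1 e.symm (fun x => dA (Q x) x) =ᶠ[𝓝 (e p)] darg P := by
    rintro _ ⟨⟨w, hw, rfl⟩, hi⟩
    obtain ⟨e, he, g1, g2, g3⟩ := O.exists_chart i h.hr.2 hw
    have g4 : e (O.Pi i w) = w := g3 ▸ e.right_inv g1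
    refine ⟨e, he, g3 ▸ e.map_target g1, g4.symm ▸ hw, g4.symm ▸ mt (h.zero w hw).1 hi, ?_⟩
    rw [g4, g3]
    filter_upwards [(mon_isOpen_pb r).mem_nhds hw] with t ht using h3 t ht
  refine ⟨_, h3, isD_of_local (sm1_of_local fun p hp => ?_) h.isOpen_off fun p hp => ?_,
    fun σ y s1 s2 v => ?_⟩
  · obtain ⟨e, he, g1, g2, g3, g4⟩ := h4 p hp
    exact ⟨e, he, g1, (contDiffAt_darg (h.cd g2) g3 top_le).congr_of_eventuallyEq g4⟩
  · obtain ⟨e, he, g1, g2, g3, g4⟩ := h4 p hp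
    refine ⟨e, he, g1, ?_⟩
    rw [ext1_congr g4, pull2_zero]
    exact bil_ext fun v w => (sub_eq_zero.2 (darg_closed ((h.cd g2).of_le two_le) g3 v w)).symm
  · obtain ⟨g1, g2⟩ := s2.self_of_nhds
    obtain ⟨k, hk, g3⟩ := (h2 _ g1).1
    rw [g2] at g3
    rw [← dA_apply (fun x => P (σ x)), dA_cmul hk (g := fun x => P (σ x))
      (((h.cd g1).contMDiffAt.comp y s1).mdifferentiableAt (by simp))]
    filter_upwards [s1.continuousAt.eventually g3, s2] with x x1 x2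
    rwa [x2.2] at x1

end Pool.Agent.Lib.MP_1c0d65_gt.PW
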