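import Pool.Agent.Lib.MP_1c0d65_gt.E.AdjO
import Pool.Agent.Lib.MP_1c0d65_gt.E.AdjT
import Pool.Agent.Lib.MP_1c0d65_gt.E.OEqD

/-! The residue of the adjunction form at an orbifold puncture. -/

set_option autoImplicit false
set_option linter.unusedSectionVars false

open scoped Manifold ContDiff Topology Real
open Set Filter Metric Complex

noncomputable section

namespace Pool.Agent.Lib.MP_1c0d65_gt.PW.Adj

open W

variable {X : Type} [TopologicalSpace X] [ChartedSpace E X] [IsManifold 𝓘(ℝ, E) ∞ X]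
  [T2Space X] [CompactSpace X] [MeasurableSpace X] [BorelSpace X] {c : Ctx X} {O : Orb c}
  {cc : X → Bil E ℝ} {C : OC O}

theorem om_scal {J : E →L[ℝ] E} {Ω : Bil E ℂ} {L : ℂ →L[ℝ] E} (cr : L I = J (L 1))
    (tz : ∀ v w, Ω (J v) w = I * Ω v w) (d : ℂ) (w : E) : Ω (L d) w = d * Ω (L 1) w := by
  have : L d = d.re • L 1 + d.im • L I := by
    rw [← map_smul, ← map_smul, ← map_add]; congr 1; simp
  rw [this, cr, map_add, map_smul, map_smul, add_apply, smul_apply, smul_apply, tz, real_smul,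
    real_smul]
  conv_rhs => rw [← re_add_im d]
  ring

theorem pt_bad (D : Bad C) (K : Chern O.W O.J cc) {s : ℂ} (hs : s ∉ D.Z) {P : X → ℂ}
    (hP : Eqn C P (C.u s)) {k : X} (hk : k ∈ O.W) (hm : C.u s ∈ K.U k) :
    Pt O.J P (K.Ω k) C.u s :=
  have hF : s ∉ C.F := fun h => hs (D.hF h)
  ⟨C.cm hF, C.hu.2 s hF, D.imm s hs, hP.sm.self_of_nhds, by
    filter_upwards [(C.cm hF).continuousAt.eventually hP.zero, C.isOpen_F.mem_nhds hF] with t h1 h2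
    exact h1.2 (Or.inl ⟨t, h2, rfl⟩), O.JJ (C.mu hF), (K.form k hk).1 _ hm, K.tz k hk _ hm,
    K.ne k hk _ hm⟩

/-- The coefficient, read upstairs. -/
theorem cf_up (K : Chern O.W O.J cc) (i : Fin O.n) {P : X → ℂ} {k : X} {s d g : ℂ} {w w' : E}
    (hw : w ∈ pb O.R) (e : O.Pi i w = C.u s) (hd : dif (O.Pi i) w w' = dif C.u s d) (d0 : d ≠ 0)
    (pt : Pt O.J P (K.Ω k) C.u s) (hk : k ∈ O.W) (hm : C.u s ∈ K.U k)
    (hR : ∀ v, dfn P (C.u s) (dif (O.Pi i) w v) = g * (w'.1 * v.2 - w'.2 * v.1)) :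
    cf O.J P (K.Ω k) C.u s * fK K i k w = g * d := by
  obtain ⟨ν, hν⟩ := pt.nu
  obtain ⟨v, rfl⟩ : ∃ v, dif (O.Pi i) w v = ν := ⟨_, (O.Pi_inv i hw).self_apply_inverse ν⟩
  have h1 := pt.spec (dif (O.Pi i) w v)
  rw [lin_apply, ← e, ← O.hol i w hw, e, hR, hR] at h1
  have h2 := fK_det K i hk hw (e ▸ hm) w' v
  rw [hd, e, om_scal pt.cr pt.tz] at h2
  have h3 : w'.1 * v.2 - w'.2 * v.1 ≠ 0 := fun h => mul_ne_zero d0 hν (by rw [h2, h, mul_zero])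
  apply mul_right_cancel₀ h3
  simp only [Prod.smul_fst, Prod.smul_snd, smul_eq_mul] at h1
  linear_combination -cf O.J P (K.Ω k) C.u s * h2 - d * h1 -
    d * g * (w'.1 * v.2 - w'.2 * v.1) / 2 * I_mul_I

/-- The residue at a puncture, for any form given by the local formula. -/
theorem res_punct' {t : ℝ} (K : Chern O.W O.J (t • c.om)) {D : Bad C} {S : Site D} (L : Cur S)
    {ι : C.F → Fin O.n} {j : C.F → ℕ} {i : Fin O.n} {r : ℝ} {R : E → ℂ} (hR : OEq C ι j i r R)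
    (atL : ∀ z ∈ pb r, O.Pi i z ∉ D.B ∧
      ∃ k : ℂ, k ≠ 0 ∧ ∀ᶠ w in 𝓝 z, S.P (O.Pi i z) (O.Pi i w) = k * R w)
    {θ : ℂ → ℂ →L[ℝ] ℝ} (hθ : ∀ s ∉ D.Z, ContinuousAt θ s ∧ ∀ x, ∀ k ∈ O.W, C.u s ∈ L.U x →
      C.u s ∈ K.U k → θ s = darg (cf O.J (L.P x) (K.Ω k) C.u) s - pull1 C.u (L.a x) s +
        pull1 C.u (K.a k) s)
    {a : ℂ} {j' : ℕ} {z : ℂ → E} (hz : C.Br a i j' z) {h : ℂ → ℂ} {e : ℤ}
    (he : HasIdx h 0 e) (hd : ∀ᶠ ζ in 𝓝[≠] (0 : ℂ), ∀ v : E,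
      fderiv ℂ R (z ζ) v = h ζ * ((deriv z ζ).1 * v.2 - (deriv z ζ).2 * v.1)) :
    Tendsto (cp θ a) (𝓝[>] 0) (𝓝 (2 * π * (((e : ℝ) - 1) / O.N i + 1))) := by
  obtain ⟨φ, hφ, hK⟩ := exists_phi K i
  obtain ⟨r', hr', hV⟩ := O.small i L.V L.isOpenV
    (((subset_iUnion O.L i).trans D.hL).trans L.subV)
  have hN := O.N_ne i
  have hN' : (O.N i : ℂ) ≠ 0 := Nat.cast_ne_zero.2 hN
  obtain ⟨H, hH⟩ : ∃ H : ℂ → ℂ, H = fun ζ => h ζ * (O.N i * ζ ^ (O.N i - 1)) := ⟨_, rfl⟩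
  have iH : HasIdx H 0 (e + (O.N i - 1 : ℕ)) := hH ▸ (end_pn 0).mul he
    ((end_pn 0).const_mul (by simpa using idx_pow (𝓝[≠] 0) 0 (O.N i - 1)) hN')
  have an : ∀ᶠ ζ in 𝓝 (0 : ℂ), AnalyticAt ℂ z ζ := hz.analyticAt.eventually_analyticAt
  have G := (((hz.evd.and (hz.ev_pb hR.hr.1)).and ((hz.ev_pb hr'.1).and hd)).and
    ((an.filter_mono nhdsWithin_le_nhds).and
      (show ∀ᶠ ζ in 𝓝[≠] (0 : ℂ), ζ ≠ 0 from self_mem_nhdsWithin)))
  have key : ∀ᶠ ζ in 𝓝[≠] (0 : ℂ), ContDiffAt ℝ 1 H ζ ∧ ∀ v,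
      (darg H ζ + t • (O.lam i (z ζ)).comp (fderiv ℝ z ζ) + fderiv ℝ (φ ∘ z) ζ) v =
        θ (a + ζ ^ O.N i) (O.N i * ζ ^ (O.N i - 1) * v) := by
    filter_upwards [(end_pn 0).op G, (end_pn 0).ne_zero iH] with ζ hG H0
    obtain ⟨⟨⟨⟨g1, g2, g3, g4⟩, g5, -⟩, ⟨g6, -⟩, -⟩, g8, -⟩ := hG.self_of_nhds
    obtain ⟨hB, κ, κ0, hκ⟩ := atL _ g5
    set y := O.Pi i (z ζ) with hy
    have yW : y ∈ O.W := O.maps i g1
    obtain ⟨-, n2, n3⟩ := L.near y (hV ⟨_, g6, rfl⟩)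
    have zc : ContDiffAt ℝ ∞ z ζ := g8.contDiffAt.restrict_scalars ℝ
    have σc : ContDiffAt ℝ ∞ (fun ζ : ℂ => a + ζ ^ O.N i) ζ := by fun_prop
    have yU : C.u (a + ζ ^ O.N i) ∈ L.U y := g2 ▸ L.mem y hB
    have yK : C.u (a + ζ ^ O.N i) ∈ K.U y := g2 ▸ K.mem y yW
    have hZ : a + ζ ^ O.N i ∉ D.Z := fun hh => hB (g2 ▸ (D.hZ _ g3).2 hh)
    have uc := (C.cm g3).continuousAt
    have pt : ∀ᶠ s in 𝓝 (a + ζ ^ O.N i), Pt O.J (L.P y) (K.Ω y) C.u s ∧ C.u s ∈ K.U y := by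
      filter_upwards [uc.eventually ((L.isOpen y).mem_nhds yU),
        uc.eventually ((K.op y yW).mem_nhds yK),
        D.Z.finite_toSet.isClosed.isOpen_compl.mem_nhds hZ] with s h1 h2 h3
      exact ⟨pt_bad D K h3 (L.eqn y _ h1) yW h2, h2⟩
    have Ac : ContDiffAt ℝ ∞ (cf O.J (L.P y) (K.Ω y) C.u) (a + ζ ^ O.N i) :=
      cf_smooth (K.op y yW) yK (K.form y yW)
        (fun x => (O.tame.2 x).mono (dom_mono x (K.sub y yW))) (pt.mono fun _ hs => hs.1)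
    obtain ⟨f0, fc, hf⟩ := hK y yW _ g1 (K.mem y yW)
    have e1 : (fun ξ => κ * H ξ) =ᶠ[𝓝 ζ]
        fun ξ => cf O.J (L.P y) (K.Ω y) C.u (a + ξ ^ O.N i) * fK K i y (z ξ) := by
      filter_upwards [hG, σc.continuousAt.eventually pt,
        zc.continuousAt.eventually hκ.eventually_nhds] with ξ gξ pξ kξ
      obtain ⟨⟨⟨⟨m1, m2, m3, m4⟩, m5, -⟩, -, m7⟩, m8, m9⟩ := gξ
      have m10 : fderiv ℝ z ξ 1 = deriv z ξ := by
        rw [(m8.differentiableAt.hasDerivAt.hasFDerivAt.restrictScalars ℝ).fderiv]; simp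
      rw [cf_up K i (g := κ * h ξ) m1 m2 (m4 1) (by simp [hN, m9]) pξ.1 yW pξ.2 fun v => ?_, hH]
      · ring
      have d1 := fderiv_fn_comp (g := L.P y) (f := O.Pi i) (y := z ξ)
        (by rw [m2]; exact pξ.1.sP.mdifferentiableAt (by simp)) (brk_md (O.Pi_cm i m1))
      have d2 : L.P y ∘ O.Pi i =ᶠ[𝓝 (z ξ)] fun w => κ * R w := by rw [n2]; exact kξ
      have d3 := (hR.an _ m5.1).differentiableAt
      rw [d2.fderiv_eq, ((d3.hasFDerivAt.const_mul κ).restrictScalars ℝ).fderiv, m2] at d1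
      rw [m10, mul_assoc, ← m7 v]
      exact (DFunLike.congr_fun d1 v).symm
    have c1 := Ac.comp ζ σc
    have c2 := fc.comp ζ zc
    have Hc : ContDiffAt ℝ ∞ H ζ := by
      refine ((contDiffAt_const (c := κ⁻¹)).mul (c1.mul c2)).congr_of_eventuallyEq ?_
      filter_upwards [e1] with ξ hξ
      exact (inv_mul_cancel_left₀ κ0 _).symm.trans (congrArg (κ⁻¹ * ·) hξ)
    have A0 : cf O.J (L.P y) (K.Ω y) C.u (a + ζ ^ O.N i) ≠ 0 :=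
      left_ne_zero_of_mul (e1.self_of_nhds.symm.trans_ne (mul_ne_zero κ0 H0))
    have e2 := darg_congr e1
    rw [darg_mul (differentiableAt_const κ) (cd_diff Hc) κ0 H0, darg_const, zero_add,
      darg_mul (f := fun ξ => cf O.J (L.P y) (K.Ω y) C.u (a + ξ ^ O.N i))
        (g := fun ξ => fK K i y (z ξ)) (cd_diff c1) (cd_diff c2) A0 f0,
      darg_comp (u := fun ζ : ℂ => a + ζ ^ O.N i) (cd_diff Ac) (cd_diff σc),
      darg_comp (cd_diff fc) (cd_diff zc)] at e2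
    refine ⟨Hc.of_le (by simp), fun v => ?_⟩
    have e3 := DFunLike.congr_fun hf (fderiv ℝ z ζ v)
    rw [pull1_apply, g4, ← hy] at e3
    have e4 : ∀ w, pull1 C.u (L.a y) (a + ζ ^ O.N i) w = 0 := fun w => by
      rw [pull1_apply, n3 _ yU]; rfl
    rw [((hθ _ hZ).2 y y yW yU yK), e2, fderiv_comp ζ (cd_diff (hφ _ g1)) (cd_diff zc)]
    simp only [add_apply, sub_apply, smul_apply, ContinuousLinearMap.comp_apply, e4, pull1_apply,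
      brk_fderiv ((hasDerivAt_pow (O.N i) ζ).const_add a), ← g2] at e3 ⊢
    linarith
  rw [show 2 * π * (((e : ℝ) - 1) / O.N i + 1) = (O.N i : ℝ)⁻¹ •
      (1 * (2 * π * ((e + (O.N i - 1 : ℕ) : ℤ) : ℝ))) by
    have : (O.N i : ℝ) ≠ 0 := Nat.cast_ne_zero.2 hN
    rw [smul_eq_mul, Int.cast_add, Int.cast_natCast, Nat.cast_pred (Nat.pos_of_ne_zero hN)]
    field_simp
    ring]
  refine res_orb hN ((show ∀ᶠ s in 𝓝[≠] a, s ∉ D.Z from nhdsNE_le_cofinite a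
    D.Z.finite_toSet.compl_mem_cofinite).mono fun s hs => (hθ s hs).1)
    (key.mono fun _ hk => hk.2) ?_
  have h1 : ∀ᶠ ζ in 𝓝 (0 : ℂ), ContDiffAt ℝ 1 z ζ :=
    an.mono fun ζ hζ => hζ.contDiffAt.restrict_scalars ℝ
  have h2 : ∀ᶠ ζ in 𝓝 (0 : ℂ),
      ContinuousAt (fun ζ => t • (O.lam i (z ζ)).comp (fderiv ℝ z ζ)) ζ := by
    have := hz.analyticAt.continuousAt.tendsto
    rw [hz.z0] at this
    filter_upwards [this.eventually (ball_mem_nhds 0 O.hR), h1] with ζ h3 h4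
    exact ((((O.hlam i).1.contDiffAt (isOpen_ball.mem_nhds h3)).continuousAt.comp
      h4.continuousAt).clm_comp (h4.continuousAt_fderiv one_ne_zero)).const_smul t
  have h3 : ∀ᶠ ζ in 𝓝[≠] (0 : ℂ), ContDiffAt ℝ 1 H ζ ∧
      ContinuousAt (fun ζ => darg H ζ + t • (O.lam i (z ζ)).comp (fderiv ℝ z ζ)) ζ := by
    filter_upwards [key, (end_pn 0).ne_zero iH, nhdsWithin_le_nhds h2] with ζ h3 h4 h5
    exact ⟨h3.1, (contDiffAt_darg (m := 0) h3.1 h4 (by simp)).continuousAt.add h5⟩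
  have h4 : ∀ᶠ ζ in 𝓝[≠] (0 : ℂ), ContDiffAt ℝ 1 (φ ∘ z) ζ := by
    filter_upwards [hz.evd, nhdsWithin_le_nhds h1] with ζ h3 h4
    exact ((hφ _ h3.1).of_le (by simp)).comp ζ h4
  refine (iH.res_bdd (lam := 1) h3 ?_).congr' ?_
  · simpa using (h2.self_of_nhds.tendsto.isBigO_one ℝ).mono nhdsWithin_le_nhds
  · filter_upwards [rad_pn h3, rad_pn h4] with r h5 h6
    rw [cp_add (fun θ => (h5.2 θ).2) (fun θ => (h6.2 θ).continuousAt_fderiv one_ne_zero),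
      cp_fderiv h6.2, add_zero]

/-- The residue at a puncture. -/
theorem res_punct (K : KD O) {D : Bad C} {S : Site D} (Λ : Cur S)
    {ι : C.F → Fin O.n} {j : C.F → ℕ} {i : Fin O.n} {r : ℝ} {R : E → ℂ} (hR : OEq C ι j i r R)
    (atL : ∀ z ∈ pb r, O.Pi i z ∉ D.B ∧
      ∃ k : ℂ, k ≠ 0 ∧ ∀ᶠ w in 𝓝 z, S.P (O.Pi i z) (O.Pi i w) = k * R w)
    {a : ℂ} {z : ℂ → E} {h : ℂ → ℂ} {e : ℤ} {j₀ : ℕ} (hz : C.Br a i j₀ z) (_ha : a ∈ C.F)
    (hh : HasIdx h 0 e) (hd : ∀ᶠ ζ in 𝓝[≠] (0 : ℂ), ∀ v : E,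
      fderiv ℂ R (z ζ) v = h ζ * ((deriv z ζ).1 * v.2 - (deriv z ζ).2 * v.1)) :
    Tendsto (cp (theta K Λ) a) (𝓝[>] 0)
      (𝓝 (-(2 * Real.pi * (((e : ℝ) - 1) / O.N i + 1)))) := by
  refine (res_punct' K Λ hR atL (θ := fun s => (-1 : ℝ) • theta K Λ s) (fun s hs =>
    ⟨(theta_dd K Λ hs).1.continuousAt.const_smul (-1 : ℝ), fun x k hk h1 h2 => ?_⟩) hz hh hd).neg.congr
    fun ρ => by rw [cp_smul, smul_eq_mul, neg_one_mul, neg_neg]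
  rw [theta_loc K Λ hs h1 hk h2, th]
  refine ContinuousLinearMap.ext fun v => ?_
  simp only [add_apply, sub_apply, smul_apply, smul_eq_mul]
  ring

end Pool.Agent.Lib.MP_1c0d65_gt.PW.Adj
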