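import Pool.Agent.Lib.MP_1c0d65_gt.E.SiteD
import Pool.Agent.Lib.MP_1c0d65_gt.B.Punct

/-! A simple curve is embedded off a finite set; the count of the local terms. -/

set_option autoImplicit false
set_option linter.unusedSectionVars false

open scoped Manifold ContDiff Topology
open Set Filter Pool.Agent.Lib.MP_1c0d65_gt.B Pool.Agent.Lib.MP_1c0d65_gt.W

noncomputable section

namespace Pool.Agent.Lib.MP_1c0d65_gt.PW

variable {X : Type} [TopologicalSpace X] [ChartedSpace E X] [IsManifold 𝓘(ℝ, E) ∞ X]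
  [T2Space X] [CompactSpace X] [MeasurableSpace X] [BorelSpace X] {c : Ctx X} {O : Orb c}

/-- Off a finite set of points of `X` the curve is embedded. -/
theorem OC.exists_bad (C : OC O) (h : C.Simple) : ∃ B : Finset X, (B : Set X) ⊆ C.img ∧ C.v 0 ∈ B ∧
    ∀ s ∉ C.F, C.u s ∉ B → dif C.u s 1 ≠ 0 ∧ ∀ s' ∉ C.F, C.u s' = C.u s → s' = s := by
  obtain ⟨B, -, h⟩ := h
  have h1 : (insert (C.v 0) (C.u '' ((B \ C.F) ∪ {s | s ∉ C.F ∧ dif C.u s 1 = 0}))).Finite :=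
    (((B.finite_toSet.subset sdiff_subset).union C.crit_finite).image _).insert _
  refine ⟨h1.toFinset, ?_, h1.mem_toFinset.2 (mem_insert _ _), fun s hs h2 => ?_⟩
  · rw [h1.coe_toFinset]
    rintro _ (rfl | ⟨s, hs | hs, rfl⟩)
    exacts [Or.inr rfl, Or.inl ⟨s, hs.2, rfl⟩, Or.inl ⟨s, hs.1, rfl⟩]
  · rw [h1.mem_toFinset] at h2
    exact ⟨fun e => h2 (Or.inr ⟨s, Or.inr ⟨hs, e⟩, rfl⟩), fun s' hs' e =>
      h (fun m => h2 (Or.inr ⟨s', Or.inl ⟨m, hs'⟩, e⟩))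
        (fun m => h2 (Or.inr ⟨s, Or.inl ⟨m, hs⟩, rfl⟩)) e⟩

theorem OC.dif_ch (C : OC O) {a t : ℂ} (h : a + t ∉ C.F) :
    dif (fun s => C.U (ch a s)) t 1 = dif C.u (a + t) 1 :=
  (brk_dif_hol (φ := fun s => a + s) (C.holG_u h).cm ((hasDerivAt_id t).const_add a) 1).trans
    (by rw [one_mul])

theorem OC.nice_coe (C : OC O) {s : ℂ} (hs : s ∉ C.F) : C.Nice s ↔
    dif C.u s 1 ≠ 0 ∧ C.u s ≠ C.v 0 ∧ ∀ s' ∉ C.F, C.u s' = C.u s → s' = s := by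
  rw [OC.Nice, C.dif_ch (by rwa [add_zero]), add_zero]
  refine and_congr_right fun _ => ⟨fun h => ⟨fun e => ?_, fun s' hs' e => ?_⟩, fun h x hx e => ?_⟩
  · exact OnePoint.infty_ne_coe s (h _ C.infty_mem_D e.symm)
  · exact OnePoint.coe_injective (h _ ((C.coe_mem_D s').2 hs') e)
  · induction x using OnePoint.rec with
    | infty => exact absurd e.symm h.1
    | coe a => rw [h.2 a ((C.coe_mem_D a).1 hx) e]

theorem OC.nice_infty (C : OC O) : C.Nice OnePoint.infty ↔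
    dif C.v 0 1 ≠ 0 ∧ C.v 0 ∉ C.u '' (C.F : Set ℂ)ᶜ := by
  rw [OC.Nice, funext C.U_ch_infty]
  refine and_congr_right fun _ => ⟨fun h ⟨s, hs, e⟩ => ?_, fun h x hx e => ?_⟩
  · exact OnePoint.coe_ne_infty s (h _ ((C.coe_mem_D s).2 hs) e)
  · induction x using OnePoint.rec with
    | infty => rfl
    | coe a => exact absurd ⟨a, (C.coe_mem_D a).1 hx, e⟩ h

theorem OC.emb_iff (C : OC O) : C.Emb ↔ ∀ x ∈ C.D, C.Nice x := by
  refine ⟨fun h x hx => ?_, fun h => ?_⟩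
  · induction x using OnePoint.rec with
    | infty => exact C.nice_infty.2 ⟨h.2.2.2, h.2.1⟩
    | coe a =>
      have ha := (C.coe_mem_D a).1 hx
      exact (C.nice_coe ha).2 ⟨h.2.2.1 a ha, fun e => h.2.1 ⟨a, ha, e⟩, fun s hs e => h.1 hs ha e⟩
  · have h1 (s) (hs : s ∉ C.F) := (C.nice_coe hs).1 (h _ ((C.coe_mem_D s).2 hs))
    have h2 := C.nice_infty.1 (h _ C.infty_mem_D)
    exact ⟨fun s hs t ht e => (h1 t ht).2.2 s hs e, h2.2, fun s hs => (h1 s hs).1, h2.1⟩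

theorem OC.nice_of_good (C : OC O) {s : ℂ} (hs : s ∉ C.F) (h0 : C.u s ≠ C.v 0)
    (h1 : dif C.u s 1 ≠ 0) (h2 : ∀ s' ∉ C.F, C.u s' = C.u s → s' = s) : C.Nice s :=
  (C.nice_coe hs).2 ⟨h1, h0, h2⟩

/-- The count: `Z` is a saturated finite set of points of the sphere, all other points are nice. -/
theorem OC.sum_k (C : OC O) (Z : Finset (OnePoint ℂ)) (k : OnePoint ℂ → ℕ) (hZ : ∀ x ∈ Z, x ∈ C.D)
    (sat : ∀ x ∈ Z, ∀ x' ∈ C.D, C.U x' = C.U x → x' ∈ Z) (off : ∀ x ∈ C.D, x ∉ Z → C.Nice x)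
    (k0 : ∀ x ∈ Z, (k x = 0 ↔ C.Nice x))
    (k1 : ∀ x ∈ Z, k x = 1 → ∃ x' ∈ C.D, C.U x' = C.U x ∧ x' ≠ x) :
    ∑ x ∈ Z, k x ≠ 1 ∧ (∑ x ∈ Z, k x = 0 ↔ C.Emb) := by
  classical
  refine ⟨fun h => ?_, ?_⟩
  · obtain ⟨x, hx, h0⟩ := Finset.exists_ne_zero_of_sum_ne_zero (h.trans_ne one_ne_zero)
    rw [← Finset.add_sum_erase Z k hx] at h
    obtain ⟨x', h1, h2, h3⟩ := k1 x hx (by omega)
    have h4 := sat x hx x' h1 h2
    have h5 := Finset.single_le_sum (f := k) (fun _ _ => Nat.zero_le _) (Finset.mem_erase.2 ⟨h3, h4⟩)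
    exact h3 (((k0 x' h4).1 (by omega)).2 x (hZ x hx) h2.symm).symm
  · rw [Finset.sum_eq_zero_iff, C.emb_iff]
    exact ⟨fun h x hx => by_cases (fun m => (k0 x m).1 (h x m)) (off x hx),
      fun h x hx => (k0 x hx).2 (h x (hZ x hx))⟩

end Pool.Agent.Lib.MP_1c0d65_gt.PW
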