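import Pool.Agent.Lib.MP_1c0d65_gt.E.AdjS
import Pool.Agent.Lib.MP_1c0d65_gt.E.AdjP
import Pool.Agent.Lib.MP_1c0d65_gt.E.SiteB

/-! The adjunction formula for the form of a current. -/

set_option autoImplicit false
set_option linter.unusedSectionVars false

open scoped Manifold ContDiff Topology
open Set Filter Metric Complex

noncomputable section

namespace Pool.Agent.Lib.MP_1c0d65_gt.PW

open W

variable {X : Type} [TopologicalSpace X] [ChartedSpace E X] [IsManifold 𝓘(ℝ, E) ∞ X]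
  [T2Space X] [CompactSpace X] [MeasurableSpace X] [BorelSpace X] {c : Ctx X} {O : Orb c}

namespace Adj

variable {C : OC O} {ι : C.F → Fin O.n} {j : C.F → ℕ}

theorem canF (K : KD O) : CanF O K.Ω := fun b hb =>
  ⟨K.U b, K.op b hb, K.mem b hb, K.sub b hb, K.form b hb, fun y hy => ⟨K.ne b hb y hy, K.tz b hb y hy⟩⟩

theorem adj_core (K : KD O) (S : Sites C ι j K.Ω) (Λ : Cur S.S) :
    ∃ (k : ℕ) (l : C.F → ℝ), (∀ a, SelfIdx (O.N (ι a)) (O.a (ι a)) (j a) (l a)) ∧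
      per C.u Λ.η - C.c1 + 2 = k + ∑ a, l a + (∑ a, ∑ a', if a ≠ a' ∧ ι a = ι a' then
        mn (O.N (ι a)) (O.a (ι a)) (j a) (j a') else 0) ∧
      (C.F = ∅ → k ≠ 1 ∧ (k = 0 ↔ C.Emb)) := by
  classical
  choose z h e l k hz hh hl he hd using fun a : C.F => (S.orb (ι a)).adj a rfl
  have hTB : ∀ x ∈ O.W, x ∈ S.T ↔ x ∈ S.D.B := fun x hx => by
    rw [S.hB]; exact ⟨Or.inr, fun h => h.resolve_left hx⟩
  set k' : OnePoint ℂ → ℕ := fun x => if h : C.U x ∈ S.T then (S.q ⟨_, h⟩).k x else 0 with hk'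
  set Y : Finset (OnePoint ℂ) := insert OnePoint.infty ((S.D.Z \ C.F).image (↑)) with hY
  have hv : C.v 0 ∈ S.T := (hTB _ C.v0).2 S.D.v0
  have hYm : ∀ x, x ∈ Y ↔ x ∈ C.D ∧ C.U x ∈ S.T := fun x => by
    induction x using OnePoint.rec with
    | infty => simp [hY, hv, OC.D]
    | coe s =>
      have : (s : OnePoint ℂ) ∈ Y ↔ s ∈ S.D.Z ∧ s ∉ C.F := by simp [hY]
      rw [this, C.coe_mem_D, C.U_coe]
      exact ⟨fun h => ⟨h.2, (hTB _ (C.mu h.2)).2 ((S.D.hZ s h.2).2 h.1)⟩,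
        fun h => ⟨(S.D.hZ s h.1).1 ((hTB _ (C.mu h.1)).1 h.2), h.1⟩⟩
  obtain ⟨φ, hφ, hres⟩ := res_inf K Λ (S.q ⟨_, hv⟩) (S.atB ⟨_, hv⟩)
  set r : ℂ → ℝ := fun a => if h : a ∈ C.F then
    -(2 * Real.pi * (((e ⟨a, h⟩ : ℝ) - 1) / O.N (ι ⟨a, h⟩) + 1)) else -(2 * Real.pi * k' a) with hr
  have G := theta_green K Λ (r := r) (fun a ha => by
    by_cases hF : a ∈ C.F
    · simp only [hr, dif_pos hF]
      exact res_punct K Λ (S.orb _) (S.atL _) (hz ⟨a, hF⟩) hF (hh ⟨a, hF⟩) (hd ⟨a, hF⟩)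
    · have hB := (S.D.hZ a hF).2 ha
      have hT : C.U a ∈ S.T := (hTB _ (C.mu hF)).2 hB
      simp only [hr, dif_neg hF, hk', dif_pos hT]
      exact res_fin K Λ hF hB (S.q ⟨_, hT⟩) (S.atB ⟨_, hT⟩)) hφ hres
  have s1 : ∑ a ∈ S.D.Z \ C.F, r a = -(2 * Real.pi * ∑ a ∈ S.D.Z \ C.F, (k' a : ℝ)) := by
    rw [Finset.mul_sum, ← Finset.sum_neg_distrib]
    exact Finset.sum_congr rfl fun a ha => by simp only [hr, dif_neg (Finset.mem_sdiff.1 ha).2]
  have s2 : ∑ a ∈ C.F, r a = -(2 * Real.pi * ∑ a : C.F, (l a + k a + ∑ a', if a ≠ a' ∧ ι a = ι a'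
      then mn (O.N (ι a)) (O.a (ι a)) (j a) (j a') else 0)) := by
    rw [Finset.mul_sum, ← Finset.sum_neg_distrib, ← Finset.sum_coe_sort]
    refine Finset.sum_congr rfl fun a _ => ?_
    simp only [hr, dif_pos a.2, he a, eq_comm (a := ι a)]
  have s3 : ∑ x ∈ Y, k' x = k' OnePoint.infty + ∑ a ∈ S.D.Z \ C.F, k' a := by
    rw [hY, Finset.sum_insert (by simp), Finset.sum_image fun _ _ _ _ h => OnePoint.coe_injective h]
  have s4 : k' OnePoint.infty = (S.q ⟨_, hv⟩).k OnePoint.infty := by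
    simp only [hk']; exact dif_pos hv
  rw [← Finset.sum_sdiff S.D.hF, s1, s2, ← s4] at G
  refine ⟨∑ x ∈ Y, k' x + ∑ a, k a, l, hl, ?_, fun hF => ?_⟩
  · apply mul_left_cancel₀ (show 2 * Real.pi ≠ 0 by positivity)
    simp only [Finset.sum_add_distrib] at G
    rw [s3]
    push_cast
    linear_combination G
  · have : IsEmpty C.F := ⟨fun a => by simpa [hF] using a.2⟩
    rw [Finset.univ_eq_empty, Finset.sum_empty, add_zero]
    refine C.sum_k Y k' (fun x hx => ((hYm x).1 hx).1)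
      (fun x hx x' hx' h => (hYm x').2 ⟨hx', h ▸ ((hYm x).1 hx).2⟩) (fun x hx hn => ?_)
      (fun x hx => ?_) fun x hx => ?_
    · induction x using OnePoint.rec with
      | infty => exact absurd (Finset.mem_insert_self _ _) hn
      | coe s =>
        have hs := (C.coe_mem_D s).1 hx
        have hB : C.u s ∉ S.D.B := fun h => hn ((hYm s).2 ⟨hx, (hTB _ (C.mu hs)).2 h⟩)
        have hZ : s ∉ S.D.Z := fun h => hB ((S.D.hZ s hs).2 h)
        exact C.nice_of_good hs (fun h => hB (h ▸ S.D.v0)) (S.D.imm s hZ) fun s' hs' h =>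
          S.D.inj (fun h' => hB (h ▸ (S.D.hZ s' hs').2 h')) hZ h
    · obtain ⟨h1, h2⟩ := (hYm x).1 hx
      simp only [hk', dif_pos h2]
      exact (S.q ⟨_, h2⟩).k0 x h1 rfl
    · obtain ⟨h1, h2⟩ := (hYm x).1 hx
      simp only [hk', dif_pos h2]
      exact (S.q ⟨_, h2⟩).k1 x h1 rfl

end Adj

end Pool.Agent.Lib.MP_1c0d65_gt.PW
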