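import Pool.Agent.Lib.MP_1c0d65_gt.PW.PlotH
import Pool.Agent.Lib.MP_1c0d65_gt.PW.PlotD
import Pool.Agent.Lib.MP_1c0d65_gt.PW.PairA
import Pool.Agent.Lib.MP_1c0d65_gt.W.Arg

/-! The complex linear part of the differential of an equation along a holomorphic curve. -/

set_option autoImplicit false
set_option linter.unusedSectionVars false

open scoped Manifold ContDiff Topology
open Set Filter Metric Complex

noncomputable section

namespace Pool.Agent.Lib.MP_1c0d65_gt.PW.Adj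

open W

/-- The complex linear part of a real linear form. -/
def lin (J : E →L[ℝ] E) (A : E →L[ℝ] ℂ) : E →L[ℝ] ℂ := (1 / 2 : ℂ) • (A - I • A.comp J)

theorem lin_apply (J : E →L[ℝ] E) (A : E →L[ℝ] ℂ) (v : E) :
    lin J A v = (A v - I * A (J v)) / 2 := by
  simp only [lin, smul_apply, sub_apply, ContinuousLinearMap.comp_apply, smul_eq_mul]; ring

theorem lin_J {J : E →L[ℝ] E} (hJ : ∀ v, J (J v) = -v) (A : E →L[ℝ] ℂ) (v : E) :
    lin J A (J v) = I * lin J A v := by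
  rw [lin_apply, lin_apply, hJ, map_neg]
  linear_combination (A (J v) / 2) * I_mul_I

theorem clin_apply {l : E →L[ℝ] ℂ} (h : ∀ v, l (I • v) = I * l v) (v : E) :
    l v = v.1 * l (1, 0) + v.2 * l (0, 1) := by
  have h1 : l (I, 0) = I * l (1, 0) := by rw [← h]; simp
  have h2 : l (0, I) = I * l (0, 1) := by rw [← h]; simp
  conv_lhs => rw [decomp_E v]
  simp only [map_add, map_smul, h1, h2, real_smul]
  conv_rhs => rw [← re_add_im v.1, ← re_add_im v.2]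
  ring

/-- Two `J`-linear forms with a common nonzero vector in the kernel are proportional. -/
theorem prop_of_ker {J : E →L[ℝ] E} (hJ : ∀ v, J (J v) = -v) {l m : E →L[ℝ] ℂ}
    (hl : ∀ v, l (J v) = I * l v) (hm : ∀ v, m (J v) = I * m v) {w : E} (hw : w ≠ 0)
    (l0 : l w = 0) (m0 : m w = 0) (v ν : E) : l v * m ν = l ν * m v := by
  obtain ⟨A, hA⟩ := B.exists_coord (V := E) (by simp [Module.finrank_prod]) J hJ
  have key : ∀ {l : E →L[ℝ] ℂ}, (∀ v, l (J v) = I * l v) → ∀ v,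
      l v = (A v).1 * l (A.symm (1, 0)) + (A v).2 * l (A.symm (0, 1)) := fun {l} hl v => by
    have := clin_apply (l := l.comp (A.symm : E →L[ℝ] E)) (fun p => by
      have : A.symm (I • p) = J (A.symm p) := by
        rw [ContinuousLinearEquiv.symm_apply_eq, hA, A.apply_symm_apply]
      simp only [ContinuousLinearMap.comp_apply, ContinuousLinearEquiv.coe_coe, this, hl]) (A v)
    simpa using this
  rw [key hl w] at l0
  rw [key hm w] at m0
  rw [key hl v, key hl ν, key hm v, key hm ν]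
  have hd : l (A.symm (1, 0)) * m (A.symm (0, 1)) - l (A.symm (0, 1)) * m (A.symm (1, 0)) = 0 := by
    by_cases h1 : (A w).1 = 0
    · have h2 : (A w).2 ≠ 0 := fun h2 => hw (A.injective (by rw [map_zero]; exact Prod.ext h1 h2))
      apply mul_left_cancel₀ h2
      linear_combination l (A.symm (1, 0)) * m0 - m (A.symm (1, 0)) * l0
    · apply mul_left_cancel₀ h1
      linear_combination m (A.symm (0, 1)) * l0 - l (A.symm (0, 1)) * m0
  linear_combination ((A v).1 * (A ν).2 - (A v).2 * (A ν).1) * hd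

theorem two_zero_right {J : E →L[ℝ] E} {Ω : Bil E ℂ} (alt : ∀ v, Ω v v = 0)
    (hl : ∀ v w, Ω (J v) w = I * Ω v w) (v w : E) : Ω v (J w) = I * Ω v w := by
  rw [alt_swap alt (J w) v, hl, alt_swap alt w v]; ring

theorem exists_nu {J : E →L[ℝ] E} (hJ : ∀ v, J (J v) = -v) {Ω : Bil E ℂ} (alt : ∀ v, Ω v v = 0)
    (hl : ∀ v w, Ω (J v) w = I * Ω v w) (h0 : Ω ≠ 0) {w : E} (hw : w ≠ 0) : ∃ ν, Ω w ν ≠ 0 := by
  by_contra hc
  push Not at hc
  refine h0 (bil_ext fun v v' => ?_)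
  have h1 : ∀ v, Ω v w = 0 := fun v => by rw [alt_swap alt w v, hc, neg_zero]
  have h2 := prop_of_ker hJ (l := Ω v) (m := Ω v') (two_zero_right alt hl v)
    (two_zero_right alt hl v') hw (h1 v) (h1 v') v' v
  rw [alt v, zero_mul, alt_swap alt v v', mul_neg, neg_eq_zero, mul_self_eq_zero] at h2
  exact h2

/-- A form of type `(2,0)` on `ℂ²` is a multiple of the determinant. -/
theorem two_zero_det {Ω : Bil E ℂ} (alt : ∀ v, Ω v v = 0)
    (hl : ∀ v w, Ω (I • v) w = I * Ω v w) (v w : E) :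
    Ω v w = Ω (1, 0) (0, 1) * (v.1 * w.2 - v.2 * w.1) := by
  have h1 : ∀ w, Ω v w = v.1 * Ω (1, 0) w + v.2 * Ω (0, 1) w := fun w =>
    clin_apply (l := Ω.flip w) (fun v => hl v w) v
  have h2 : ∀ v, Ω v w = w.1 * Ω v (1, 0) + w.2 * Ω v (0, 1) := fun v =>
    clin_apply (l := Ω v) (fun w => by
      rw [alt_swap alt (I • w) v, hl, alt_swap alt w v]; ring) w
  rw [h1, h2 (1, 0), h2 (0, 1), alt, alt, alt_swap alt (1, 0) (0, 1)]
  ring

open Classical in
/-- The ratio of two proportional forms. -/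
def rat (l m : E →L[ℝ] ℂ) : ℂ := if h : ∃ ν, m ν ≠ 0 then l h.choose / m h.choose else 0

theorem rat_eq {l m : E →L[ℝ] ℂ} {t : ℂ} (h0 : ∃ ν, m ν ≠ 0) (h : ∀ v, l v = t * m v) :
    rat l m = t := by
  rw [rat, dif_pos h0, h, mul_div_cancel_right₀ _ h0.choose_spec]

variable {X : Type} [TopologicalSpace X] [ChartedSpace E X] [IsManifold 𝓘(ℝ, E) ∞ X]

/-- The data of `IsChern`. -/
structure Chern (U₀ : Set X) (J : X → E →L[ℝ] E) (cc : X → Bil E ℝ) where
  U : X → Set X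
  Ω : X → X → Bil E ℂ
  a : X → X → E →L[ℝ] ℝ
  g : X → X → X → ℂ
  op : ∀ i ∈ U₀, IsOpen (U i)
  mem : ∀ i ∈ U₀, i ∈ U i
  sub : ∀ i ∈ U₀, U i ⊆ U₀
  form : ∀ i ∈ U₀, Form (U i) (Ω i)
  isD : ∀ i ∈ U₀, IsD (U i) (a i) cc
  ne : ∀ i ∈ U₀, ∀ y ∈ U i, Ω i y ≠ 0
  tz : ∀ i ∈ U₀, ∀ y ∈ U i, ∀ v w, Ω i y (J y v) w = I * Ω i y v w
  sm : ∀ i ∈ U₀, ∀ k ∈ U₀, ContMDiffOn 𝓘(ℝ, E) 𝓘(ℝ, ℂ) ∞ (g i k) (U i ∩ U k)
  co : ∀ i ∈ U₀, ∀ k ∈ U₀, ∀ y ∈ U i ∩ U k, Ω i y = g i k y • Ω k y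
  da : ∀ i ∈ U₀, ∀ k ∈ U₀, ∀ y ∈ U i ∩ U k, ∀ v,
    a i y v - a k y v = (dfn (g i k) y v / g i k y).im

theorem exists_chern {U₀ : Set X} {J : X → E →L[ℝ] E} {cc : X → Bil E ℝ} (h : IsChern U₀ J cc) :
    Nonempty (Chern U₀ J cc) := by
  obtain ⟨U, Ω, a, g, h⟩ := h
  exact ⟨⟨U, Ω, a, g, fun i hi => (h i hi).1, fun i hi => (h i hi).2.1, fun i hi => (h i hi).2.2.1,
    fun i hi => (h i hi).2.2.2.1, fun i hi => (h i hi).2.2.2.2.1,
    fun i hi y hy => ((h i hi).2.2.2.2.2.1 y hy).1, fun i hi y hy => ((h i hi).2.2.2.2.2.1 y hy).2,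
    fun i hi k hk => ((h i hi).2.2.2.2.2.2 k hk).1,
    fun i hi k hk y hy => (((h i hi).2.2.2.2.2.2 k hk).2 y hy).1,
    fun i hi k hk y hy => (((h i hi).2.2.2.2.2.2 k hk).2 y hy).2⟩⟩

theorem Chern.g_ne {U₀ : Set X} {J : X → E →L[ℝ] E} {cc : X → Bil E ℝ} (K : Chern U₀ J cc)
    {i k y : X} (hi : i ∈ U₀) (hk : k ∈ U₀) (hy : y ∈ K.U i ∩ K.U k) : K.g i k y ≠ 0 := fun h =>
  K.ne i hi y hy.1 (bil_ext fun v w => by rw [K.co i hi k hk y hy, h]; simp)

/-- The pull-back of `d arg g`. -/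
theorem darg_plot {V : Type} [NormedAddCommGroup V] [NormedSpace ℝ V] {g : X → ℂ} {f : V → X}
    {y : V} (hg : FnAt ∞ g (f y)) (hf : SmAt ∞ f y) (v : V) :
    darg (fun z => g (f z)) y v = (dfn g (f y) (dif f y v) / g (f y)).im := by
  rw [darg_apply]
  have := fderiv_fn_comp (hg.mdifferentiableAt (by simp)) (hf.dfAt (by simp))
  rw [show (fun z => g (f z)) = g ∘ f from rfl, this]
  rfl

/-- The coefficient `h` in `lin dP = h Ω (u_s, ·)`. -/
def cf (J : X → E →L[ℝ] E) (P : X → ℂ) (Ω : X → Bil E ℂ) (u : ℂ → X) (s : ℂ) : ℂ :=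
  rat (lin (J (u s)) (dfn P (u s))) (Ω (u s) (dif u s 1))

/-- The hypotheses at an immersed point of a curve. -/
structure Pt (J : X → E →L[ℝ] E) (P : X → ℂ) (Ω : X → Bil E ℂ) (u : ℂ → X) (s : ℂ) : Prop where
  su : SmAt ∞ u s
  cr : dif u s I = J (u s) (dif u s 1)
  imm : dif u s 1 ≠ 0
  sP : FnAt ∞ P (u s)
  van : ∀ᶠ t in 𝓝 s, P (u t) = 0
  sq : ∀ v, J (u s) (J (u s) v) = -v
  alt : ∀ v, Ω (u s) v v = 0
  tz : ∀ v w, Ω (u s) (J (u s) v) w = I * Ω (u s) v w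
  ne : Ω (u s) ≠ 0

variable {J : X → E →L[ℝ] E} {P : X → ℂ} {Ω : X → Bil E ℂ} {u : ℂ → X} {s : ℂ}

theorem Pt.nu (h : Pt J P Ω u s) : ∃ ν, Ω (u s) (dif u s 1) ν ≠ 0 :=
  exists_nu h.sq h.alt h.tz h.ne h.imm

theorem Pt.kill (h : Pt J P Ω u s) (v : ℂ) : dfn P (u s) (dif u s v) = 0 := by
  have h1 := fderiv_fn_comp (h.sP.mdifferentiableAt (by simp)) (h.su.dfAt (by simp))
  have h2 : P ∘ u =ᶠ[𝓝 s] fun _ => 0 := h.van
  rw [h2.fderiv_eq, fderiv_fun_const] at h1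
  exact (DFunLike.congr_fun h1 v).symm

theorem Pt.spec (h : Pt J P Ω u s) (v : E) :
    lin (J (u s)) (dfn P (u s)) v = cf J P Ω u s * Ω (u s) (dif u s 1) v := by
  obtain ⟨ν, hν⟩ := h.nu
  have h1 : ∀ v, lin (J (u s)) (dfn P (u s)) v =
      lin (J (u s)) (dfn P (u s)) ν / Ω (u s) (dif u s 1) ν * Ω (u s) (dif u s 1) v := fun v => by
    have := prop_of_ker h.sq (lin_J h.sq (dfn P (u s))) (two_zero_right h.alt h.tz (dif u s 1))
      h.imm (by rw [lin_apply, ← h.cr, h.kill, h.kill]; simp) (h.alt _) v ν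
    field_simp
    linear_combination this
  rw [cf, rat_eq h.nu h1, h1]

theorem Pt.cf_eq (h : Pt J P Ω u s) {t : ℂ}
    (ht : ∀ v, lin (J (u s)) (dfn P (u s)) v = t * Ω (u s) (dif u s 1) v) : cf J P Ω u s = t :=
  rat_eq h.nu ht

/-- The linear part is close to any complex linear approximation. -/
theorem Pt.close (h : Pt J P Ω u s) {t : ℂ} {θ : ℝ} (ht : ∀ v,
    ‖dfn P (u s) v - t * Ω (u s) (dif u s 1) v‖ ≤ θ * ‖t * Ω (u s) (dif u s 1) v‖) :
    ‖cf J P Ω u s - t‖ ≤ θ * ‖t‖ := by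
  obtain ⟨ν, hν⟩ := h.nu
  have h1 := ht ν
  have h2 := ht (J (u s) ν)
  rw [two_zero_right h.alt h.tz] at h2
  have h3 := h.spec ν
  rw [lin_apply] at h3
  set q := Ω (u s) (dif u s 1) ν
  have h4 : (cf J P Ω u s - t) * q = ((dfn P (u s) ν - t * q) -
      I * (dfn P (u s) (J (u s) ν) - t * (I * q))) / 2 := by
    linear_combination -h3 - (t * q / 2) * I_mul_I
  have h5 : ‖(cf J P Ω u s - t) * q‖ ≤ θ * ‖t‖ * ‖q‖ := by
    rw [h4, norm_div, norm_ofNat]
    have := norm_sub_le (dfn P (u s) ν - t * q) (I * (dfn P (u s) (J (u s) ν) - t * (I * q)))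
    simp only [norm_mul, norm_I, one_mul] at this h1 h2
    nlinarith
  rw [norm_mul] at h5
  exact le_of_mul_le_mul_right h5 (norm_pos_iff.2 hν)

/-- Change of the equation and of the form. -/
theorem Pt.cf_change {P' g : X → ℂ} {Ω' : X → Bil E ℂ} {γ : ℂ} (h : Pt J P Ω u s)
    (h' : Pt J P' Ω' u s) (hg : FnAt ∞ g (u s)) (hP : ∀ᶠ y in 𝓝 (u s), P' y = g y * P y)
    (hΩ : Ω (u s) = γ • Ω' (u s)) : cf J P' Ω' u s = g (u s) * γ * cf J P Ω u s := by
  have h0 : P (u s) = 0 := h.van.self_of_nhds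
  have hd : ∀ v, dfn P' (u s) v = g (u s) * dfn P (u s) v := fun v => by
    have hx := mem_dom (U := univ) (mem_chart_source E (u s)) trivial
    have hp := par_smAt hx
    have e1 : ∀ {Q : X → ℂ}, FnAt ∞ Q (u s) → fderiv ℝ (Q ∘ par (u s)) (chartAt E (u s) (u s)) =
        dfn Q (u s) := fun {Q} hQ => by
      rw [fderiv_fn_comp (by rw [par_self]; exact hQ.mdifferentiableAt (by simp))
        (hp.dfAt (by simp)), dif_par_self, par_self]; rfl
    have e2 : ∀ {Q : X → ℂ}, FnAt ∞ Q (u s) →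
        DifferentiableAt ℝ (Q ∘ par (u s)) (chartAt E (u s) (u s)) := fun {Q} hQ =>
      cd_diff (FnAt.comp_plot (by rw [par_self]; exact hQ) hp)
    have e3 : P' ∘ par (u s) =ᶠ[𝓝 (chartAt E (u s) (u s))]
        fun y => (g ∘ par (u s)) y * (P ∘ par (u s)) y := by
      have := hp.continuousAt.tendsto
      rw [par_self] at this
      exact this.eventually hP
    rw [← e1 h'.sP, e3.fderiv_eq, fderiv_fun_mul (e2 hg) (e2 h.sP), e1 hg, e1 h.sP]
    simp [par_self, h0]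
  refine h'.cf_eq fun v => ?_
  have := h.spec v
  rw [lin_apply, hΩ] at this
  simp only [smul_apply, smul_eq_mul] at this
  rw [lin_apply, hd, hd]
  linear_combination g (u s) * this

/-- The coefficient is smooth. -/
theorem cf_smooth {U : Set X} (hU : IsOpen U) (hs : u s ∈ U) (hΩ : Form U Ω)
    (hJ : ∀ x, ContDiffOn ℝ ∞ (pullJ (par x) J) (dom x U)) (h : ∀ᶠ t in 𝓝 s, Pt J P Ω u t) :
    ContDiffAt ℝ ∞ (cf J P Ω u) s := by
  have h0 := h.self_of_nhds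
  set e := chartAt E (u s) with he'
  have he : IsChart e := isChart_chartAt (u s)
  have hx : u s ∈ e.source := mem_chart_source E (u s)
  have hy : e (u s) ∈ e.target := e.map_source hx
  obtain ⟨ν, hν⟩ := h0.nu
  have hw : ContDiffAt ℝ ∞ (e ∘ u) s := he.loc le_rfl h0.su hx
  have hsm := he.smAt hy
  have hl : e.symm (e (u s)) = u s := e.left_inv hx
  have a1 : ContDiffAt ℝ ∞ (fun t => pull2 e.symm Ω (e (u t)) (fderiv ℝ (e ∘ u) t 1) ν) s :=
    ((((hΩ.smooth hU hsm (hl.symm ▸ hs)).comp s hw).clm_apply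
      ((hw.fderiv_right top_le).clm_apply contDiffAt_const)).clm_apply contDiffAt_const)
  have a2 : ContDiffAt ℝ ∞ (fun t => fderiv ℝ (P ∘ e.symm) (e (u t))) s :=
    ((FnAt.comp_plot (hl.symm ▸ h0.sP) hsm).fderiv_right top_le).comp s hw
  have a3 : ContDiffAt ℝ ∞ (fun t => pullJ e.symm J (e (u t))) s :=
    ContDiffAt.comp (g := pullJ e.symm J) (f := e ∘ u) s
      (contDiffAt_pullJ hJ hU top_le le_rfl hsm (hl.symm ▸ hs) (he.inv hy)) hw
  have b1 : ∀ t, Pt J P Ω u t → u t ∈ e.source →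
      pull2 e.symm Ω (e (u t)) (fderiv ℝ (e ∘ u) t 1) ν =
        Ω (u t) (dif u t 1) (dif e.symm (e (u t)) ν) := fun t ht hx => by
    rw [pull2_apply, he.dif_loc (ht.su.dfAt (by simp)) hx, e.left_inv hx]; rfl
  have c1 : pull2 e.symm Ω (e (u s)) (fderiv ℝ (e ∘ u) s 1) ν ≠ 0 := by
    rw [b1 s h0 hx, show dif e.symm (e (u s)) = _ from dif_par_self (u s)]; exact hν
  refine ((((a2.clm_apply (contDiffAt_const (c := ν))).sub ((contDiffAt_const (c := I)).mul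
    (a2.clm_apply (a3.clm_apply (contDiffAt_const (c := ν)))))).div_const 2).mul
    (a1.inv c1)).congr_of_eventuallyEq ?_
  filter_upwards [h, h0.su.continuousAt.preimage_mem_nhds (e.open_source.mem_nhds hx),
    a1.continuousAt.eventually_ne c1] with t ht hx hne
  have hl : e.symm (e (u t)) = u t := e.left_inv hx
  have d1 := fderiv_fn_comp (g := P) (f := e.symm) (y := e (u t))
    (by rw [hl]; exact ht.sP.mdifferentiableAt (by simp))
    ((he.smAt (e.map_source hx)).dfAt (by simp))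
  have d2 := ht.spec (dif e.symm (e (u t)) ν)
  rw [lin_apply, ← b1 t ht hx] at d2
  rw [Pi.inv_apply, ← div_eq_mul_inv, eq_div_iff hne, ← d2, d1, hl, ContinuousLinearMap.comp_apply,
    ContinuousLinearMap.comp_apply, dif_pullJ (he.inv (e.map_source hx)), hl]

end Pool.Agent.Lib.MP_1c0d65_gt.PW.Adj
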