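import Pool.Agent.Lib.MP_1c0d65_gt.PW.PlotH
import Pool.Agent.Lib.MP_1c0d65_gt.PW.PlotA
import Pool.Agent.Lib.MP_1c0d65_gt.B.PunctA

/-! Local sections of the uniformising maps; the part of a curve near a singular point. -/

set_option autoImplicit false
set_option linter.unusedSectionVars false

open scoped Manifold ContDiff Topology
open Set Filter Metric

noncomputable section

namespace Pool.Agent.Lib.MP_1c0d65_gt.PW

variable {X : Type} [TopologicalSpace X] [ChartedSpace E X] [IsManifold 𝓘(ℝ, E) ∞ X]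
  [T2Space X] [CompactSpace X] [MeasurableSpace X] [BorelSpace X] {c : Ctx X} {O : Orb c}

theorem Orb.Pi_inv (O : Orb c) (i : Fin O.n) {w : E} (hw : w ∈ pb O.R) :
    (dif (O.Pi i) w).IsInvertible :=
  ⟨ContinuousLinearEquiv.ofBijective (dif (O.Pi i) w) (LinearMap.ker_eq_bot.2 (O.inj i w hw))
    (LinearMap.range_eq_top.2 ((LinearMap.injective_iff_surjective
      (f := (dif (O.Pi i) w : E →ₗ[ℝ] E))).1 (O.inj i w hw))), rfl⟩

/-- The uniformising map is locally the inverse of a chart. -/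
theorem Orb.exists_chart (O : Orb c) (i : Fin O.n) {r : ℝ} (hr : r ≤ O.R) {w : E}
    (hw : w ∈ pb r) : ∃ e : OpenPartialHomeomorph X E, IsChart e ∧ w ∈ e.target ∧
      e.target ⊆ pb r ∧ (e.symm : E → X) = O.Pi i :=
  exists_chart_of_plot ((mon_isOpen_pb r).mem_nhds hw)
    (fun _ hz => O.Pi_cm i (mon_pb_mono hr hz)) (O.Pi_inv i (mon_pb_mono hr hw))

theorem Orb.map_Pi (O : Orb c) (i : Fin O.n) {w : E} (hw : w ∈ pb O.R) :
    map (O.Pi i) (𝓝 w) = 𝓝 (O.Pi i w) :=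
  (map_nhds_etale ((O.Pi_cm i hw).of_le (by simp)) (O.Pi_inv i hw)).1

theorem Orb.isOpen_img (O : Orb c) (i : Fin O.n) {r : ℝ} (hr : r ≤ O.R) :
    IsOpen (O.Pi i '' pb r) :=
  isOpen_image_etale (mon_isOpen_pb r) fun _ hy =>
    ⟨(O.Pi_cm i (mon_pb_mono hr hy)).of_le (by simp), O.Pi_inv i (mon_pb_mono hr hy)⟩

/-- Local holomorphic sections of the uniformising map. -/
theorem Orb.exists_sec (O : Orb c) (i : Fin O.n) {r : ℝ} (hr : r ≤ O.R) {w : E} (hw : w ∈ pb r) :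
    ∃ (U : Set X) (σ : X → E), IsOpen U ∧ O.Pi i w ∈ U ∧ σ (O.Pi i w) = w ∧
      ContMDiffOn 𝓘(ℝ, E) 𝓘(ℝ, E) ∞ σ U ∧ ∀ y ∈ U, σ y ∈ pb r ∧ O.Pi i (σ y) = y ∧
        (∀ v, dif (O.Pi i) (σ y) (dfn σ y v) = v) ∧ (∀ v, dfn σ y (dif (O.Pi i) (σ y) v) = v) ∧
        ∀ v, dfn σ y (O.J y v) = Complex.I • dfn σ y v := by
  obtain ⟨e, he, h1, h2, h3⟩ := O.exists_chart i hr hw
  refine ⟨e.source, e, e.open_source, h3 ▸ e.map_target h1, h3 ▸ e.right_inv h1, he.sm,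
    fun y hy => ?_⟩
  have h4 : O.Pi i (e y) = y := h3 ▸ e.left_inv hy
  have h5 : ∀ v, dif (O.Pi i) (e y) (dfn e y v) = v := h3 ▸ he.dif_dfn hy
  have h6 : ∀ v, dfn e y (dif (O.Pi i) (e y) v) = v := fun v => by
    have := he.dfn_dif (e.map_source hy) v
    rwa [e.left_inv hy, h3] at this
  refine ⟨h2 (e.map_source hy), h4, h5, h6, fun v => ?_⟩
  have h7 := O.hol i _ (mon_pb_mono hr (h2 (e.map_source hy))) (dfn e y v)
  rw [h5, h4] at h7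
  rw [← h7, h6]

theorem osec_gen_gen (N a m k : ℕ) (z : E) : gen N a m (gen N a k z) = gen N a (m + k) z := by
  simp only [gen, mul_add, pow_add, mul_assoc]

theorem osec_gen_inv {N : ℕ} (hN : N ≠ 0) (a m : ℕ) (z : E) :
    gen N a ((N - 1) * m) (gen N a m z) = z := by
  obtain ⟨k, rfl⟩ := Nat.exists_eq_succ_of_ne_zero hN
  rw [osec_gen_gen]
  exact mon_gen_dvd hN a ⟨m, by simp [Nat.succ_mul]⟩ z

/-- Two continuous sections differ locally by one group element. -/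
theorem Orb.sec_eq (O : Orb c) (i : Fin O.n) {T : Type} [TopologicalSpace T] {σ τ : T → E} {t : T}
    (hσ : ContinuousAt σ t) (hτ : ContinuousAt τ t) (h1 : σ t ∈ pb O.R) (h2 : τ t ∈ pb O.R)
    (h : ∀ᶠ s in 𝓝 t, O.Pi i (σ s) = O.Pi i (τ s)) :
    ∃ m, ∀ᶠ s in 𝓝 t, τ s = gen (O.N i) (O.a i) m (σ s) := by
  obtain ⟨-, m, hm⟩ := (O.fibre i i _ h1 _ h2).1 h.self_of_nhds
  obtain ⟨D, hD, hi⟩ := (map_nhds_etale ((O.Pi_cm i h2).of_le (by simp)) (O.Pi_inv i h2)).2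
  have h3 : ContinuousAt (fun s => gen (O.N i) (O.a i) m (σ s)) t :=
    (mon_gen_diff _ _ m).continuous.continuousAt.comp hσ
  refine ⟨m, ?_⟩
  filter_upwards [h, hτ.eventually hD, h3.eventually (hm ▸ hD),
    hσ.eventually ((mon_isOpen_pb _).mem_nhds h1)] with s s1 s2 s3 s4
  exact hi s2 s3 (by rw [O.Pi_gen i s4, s1])

/-- Only the parameters near the punctures come near `L i`. -/
theorem OC.near_L (C : OC O) (i : Fin O.n) {V : Set ℂ} (hV : V ∈ 𝓝ˢ (C.F : Set ℂ)) :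
    ∃ r ∈ Ioc 0 O.R, C.v 0 ∉ O.Pi i '' pb r ∧ ∀ t ∉ C.F, C.u t ∈ O.Pi i '' pb r → t ∈ V := by
  obtain ⟨V', h1, h2, h3⟩ := mem_nhdsSet.1 hV
  have h0 : C.v 0 ∉ O.L i := fun h => C.v0 (mem_iUnion.2 ⟨i, h⟩)
  obtain ⟨A, B, hA, hB, hA', hB', hAB⟩ := normal_separation (O.closed i) isClosed_singleton
    (disjoint_singleton_right.2 h0)
  obtain ⟨ρ, hρ, hv⟩ := C.hv
  have h4 : ContinuousAt C.v 0 := hv.1.continuousOn.continuousAt (ball_mem_nhds 0 hρ)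
  obtain ⟨δ, hδ, h5⟩ := Metric.eventually_nhds_iff_ball.1 (h4.eventually (hB.mem_nhds (hB' rfl)))
  have hK : IsCompact (closedBall (0 : ℂ) δ⁻¹ \ V') := (isCompact_closedBall _ _).diff h2
  have h6 : closedBall (0 : ℂ) δ⁻¹ \ V' ⊆ (C.F : Set ℂ)ᶜ := fun t ht h => ht.2 (h3 h)
  have h7 := (hK.image_of_continuousOn (C.hu.1.continuousOn.mono h6)).isClosed
  obtain ⟨r, hr, h8⟩ := O.small i _ (hA.sdiff h7) fun x hx => ⟨hA' hx, by
    rintro ⟨t, ht, rfl⟩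
    exact C.mu (h6 ht) (mem_iUnion.2 ⟨i, hx⟩)⟩
  refine ⟨r, hr, fun h => hAB.notMem_of_mem_left (h8 h).1 (hB' rfl), fun t _ ht => h1 ?_⟩
  by_contra h9
  by_cases h10 : ‖t‖ ≤ δ⁻¹
  · exact (h8 ht).2 ⟨t, ⟨mem_closedBall_zero_iff.2 h10, h9⟩, rfl⟩
  · have h11 : 0 < ‖t‖ := (inv_pos.2 hδ).trans (not_le.1 h10)
    have h12 := h5 t⁻¹ (by
      rw [mem_ball_zero_iff, norm_inv]
      exact inv_lt_of_inv_lt₀ hδ (not_le.1 h10))
    rw [C.uv _ (inv_ne_zero (norm_pos_iff.1 h11)), inv_inv] at h12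
    exact hAB.notMem_of_mem_left (h8 ht).1 h12

end Pool.Agent.Lib.MP_1c0d65_gt.PW
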