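import Pool.Agent.Lib.MP_1c0d65_gt.E.AdjL
import Pool.Agent.Lib.MP_1c0d65_gt.E.OSec
import Pool.Agent.Lib.MP_1c0d65_gt.Top.Prim

/-! The connection form of the anticanonical bundle in a uniformising chart. -/

set_option autoImplicit false
set_option linter.unusedSectionVars false

open scoped Manifold ContDiff Topology
open Set Filter Metric Complex

noncomputable section

namespace Pool.Agent.Lib.MP_1c0d65_gt.PW.Adj

open W

variable {X : Type} [TopologicalSpace X] [ChartedSpace E X] [IsManifold 𝓘(ℝ, E) ∞ X]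
  [T2Space X] [CompactSpace X] [MeasurableSpace X] [BorelSpace X] {c : Ctx X} {O : Orb c}
  {cc : X → Bil E ℝ}

/-- The coefficient of the pull-back of `Ω k` against `dz₁ ∧ dz₂`. -/
def fK (K : Chern O.W O.J cc) (i : Fin O.n) (k : X) (z : E) : ℂ :=
  pull2 (O.Pi i) (K.Ω k) z (1, 0) (0, 1)

variable (K : Chern O.W O.J cc) (i : Fin O.n) {k l : X} {z : E}

theorem fK_det (hk : k ∈ O.W) (hz : z ∈ pb O.R) (hm : O.Pi i z ∈ K.U k) (v w : E) :
    K.Ω k (O.Pi i z) (dif (O.Pi i) z v) (dif (O.Pi i) z w) =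
      fK K i k z * (v.1 * w.2 - v.2 * w.1) :=
  two_zero_det (Ω := pull2 (O.Pi i) (K.Ω k) z) (fun _ => (K.form k hk).1 _ hm _)
    (fun v w => by rw [pull2_apply, pull2_apply, O.hol i z hz, K.tz k hk _ hm]) v w

theorem fK_ne (hk : k ∈ O.W) (hz : z ∈ pb O.R) (hm : O.Pi i z ∈ K.U k) : fK K i k z ≠ 0 :=
  fun h => K.ne k hk _ hm (bil_ext fun v w => by
    have hi := O.Pi_inv i hz
    rw [← hi.self_apply_inverse v, ← hi.self_apply_inverse w, fK_det K i hk hz hm, h, zero_mul]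
    rfl)

theorem fK_smooth (hk : k ∈ O.W) (hz : z ∈ pb O.R) (hm : O.Pi i z ∈ K.U k) :
    ContDiffAt ℝ ∞ (fK K i k) z :=
  (((K.form k hk).smooth (K.op k hk) (O.Pi_cm i hz) hm).clm_apply contDiffAt_const).clm_apply
    contDiffAt_const

theorem fK_ev (hk : k ∈ O.W) (hz : z ∈ pb O.R) (hm : O.Pi i z ∈ K.U k) :
    ∀ᶠ w in 𝓝 z, w ∈ pb O.R ∧ O.Pi i w ∈ K.U k :=
  (show ∀ᶠ w in 𝓝 z, w ∈ pb O.R from (mon_isOpen_pb _).mem_nhds hz).and
    ((O.Pi_cm i hz).continuousAt.eventually ((K.op k hk).mem_nhds hm))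

theorem fK_key (hk : k ∈ O.W) (hl : l ∈ O.W) (hz : z ∈ pb O.R) (hm : O.Pi i z ∈ K.U k)
    (hm' : O.Pi i z ∈ K.U l) : pull1 (O.Pi i) (K.a k) z - darg (fK K i k) z =
      pull1 (O.Pi i) (K.a l) z - darg (fK K i l) z := by
  have h1 : FnAt ∞ (K.g k l) (O.Pi i z) :=
    (K.sm k hk l hl).contMDiffAt (((K.op k hk).inter (K.op l hl)).mem_nhds ⟨hm, hm'⟩)
  have h2 : fK K i k =ᶠ[𝓝 z] fun w => K.g k l (O.Pi i w) * fK K i l w := by
    filter_upwards [fK_ev K i hk hz hm, fK_ev K i hl hz hm'] with w h h'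
    rw [fK, fK, pull2_apply, pull2_apply, K.co k hk l hl _ ⟨h.2, h'.2⟩]
    rfl
  rw [darg_congr h2, darg_mul (f := fun w => K.g k l (O.Pi i w))
    (cd_diff (h1.comp_plot (O.Pi_cm i hz))) (cd_diff (fK_smooth K i hl hz hm'))
    (K.g_ne hk hl ⟨hm, hm'⟩) (fK_ne K i hl hz hm')]
  refine ContinuousLinearMap.ext fun v => ?_
  have h3 := K.da k hk l hl _ ⟨hm, hm'⟩ (dif (O.Pi i) z v)
  rw [← darg_plot h1 (O.Pi_cm i hz)] at h3
  simp only [sub_apply, add_apply, pull1_apply]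
  linarith

/-- The connection form upstairs. -/
theorem exists_phi {t : ℝ} (K : Chern O.W O.J (t • c.om)) (i : Fin O.n) :
    ∃ φ : E → ℝ, (∀ z ∈ pb O.R, ContDiffAt ℝ ∞ φ z) ∧ ∀ k ∈ O.W, ∀ z ∈ pb O.R,
      O.Pi i z ∈ K.U k → fK K i k z ≠ 0 ∧ ContDiffAt ℝ ∞ (fK K i k) z ∧
        pull1 (O.Pi i) (K.a k) z =
          darg (fK K i k) z + t • O.lam i z + fderiv ℝ φ z := by
  obtain ⟨β, hβ⟩ : ∃ β : E → E →L[ℝ] ℝ, ∀ z, β z =
    pull1 (O.Pi i) (K.a (O.Pi i z)) z - darg (fK K i (O.Pi i z)) z - t • O.lam i z :=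
    ⟨_, fun _ => rfl⟩
  have hW : ∀ z ∈ pb O.R, O.Pi i z ∈ O.W := fun z hz => O.maps i hz
  have loc : ∀ z ∈ pb O.R, β =ᶠ[𝓝 z] pull1 (O.Pi i) (K.a (O.Pi i z)) +
      ((-1 : ℝ) • darg (fK K i (O.Pi i z)) + (-t) • O.lam i) := fun z hz => by
    filter_upwards [fK_ev K i (hW z hz) hz (K.mem _ (hW z hz))] with w hw
    rw [hβ, fK_key K i (hW w hw.1) (hW z hz) hw.1 (K.mem _ (hW w hw.1)) hw.2]
    refine ContinuousLinearMap.ext fun v => ?_
    simp only [Pi.add_apply, Pi.smul_apply, sub_apply, add_apply, smul_apply, smul_eq_mul]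
    ring
  have s1 : ∀ z ∈ pb O.R, ContDiffAt ℝ ∞ (pull1 (O.Pi i) (K.a (O.Pi i z))) z := fun z hz =>
    (K.isD _ (hW z hz)).sm1.smooth (K.op _ (hW z hz)) (O.Pi_cm i hz) (K.mem _ (hW z hz))
  have s2 : ∀ z ∈ pb O.R, ContDiffAt ℝ ∞ (darg (fK K i (O.Pi i z))) z := fun z hz =>
    contDiffAt_darg (fK_smooth K i (hW z hz) hz (K.mem _ (hW z hz)))
      (fK_ne K i (hW z hz) hz (K.mem _ (hW z hz))) top_le
  have s3 : ∀ z ∈ pb O.R, ContDiffAt ℝ ∞ (O.lam i) z := fun z hz =>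
    (O.hlam i).1.contDiffAt (isOpen_ball.mem_nhds hz.1)
  have s4 : ∀ z ∈ pb O.R, ContDiffAt ℝ ∞ β z := fun z hz =>
    ((s1 z hz).add (((s2 z hz).const_smul (-1 : ℝ)).add
      ((s3 z hz).const_smul (-t)))).congr_of_eventuallyEq (loc z hz)
  obtain ⟨φ, hφ⟩ : Top.HasPrim β (pb O.R) := Top.hasPrim_punctured
    (by rw [← Module.finrank_eq_rank]; simp [Module.finrank_prod]; norm_num) (convex_ball _ _) isOpen_ball
    (mem_ball_self O.hR) (fun z hz => (cd_diff (s4 z hz)).differentiableWithinAt) fun z hz v w => by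
      have h1 := ext1_congr (loc z hz)
      have h2 : ext1 (darg (fK K i (O.Pi i z))) z = 0 := bil_ext fun v w => sub_eq_zero.2
        (darg_closed ((fK_smooth K i (hW z hz) hz (K.mem _ (hW z hz))).of_le two_le)
          (fK_ne K i (hW z hz) hz (K.mem _ (hW z hz))) v w)
      rw [ext1_add (cd_diff (s1 z hz)) (((cd_diff (s2 z hz)).const_smul _).add
        ((cd_diff (s3 z hz)).const_smul _)), ext1_add ((cd_diff (s2 z hz)).const_smul _)
        ((cd_diff (s3 z hz)).const_smul _), ext1_smul _ (cd_diff (s2 z hz)),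
        ext1_smul _ (cd_diff (s3 z hz)), h2, ← (K.isD _ (hW z hz)).pull (K.op _ (hW z hz))
        ((O.Pi_cm i hz).of_le two_le) (K.mem _ (hW z hz)), ← (O.hlam i).2 z hz, pull2_smul] at h1
      exact sub_eq_zero.1 ((congrArg (fun B : Bil E ℝ => B v w) h1).trans (by simp))
  refine ⟨φ, fun z hz => (Top.contDiffOn_of_prim (n := ⊤) (mon_isOpen_pb _) hφ fun z hz =>
    (s4 z hz).contDiffWithinAt).contDiffAt ((mon_isOpen_pb _).mem_nhds hz), fun k hk z hz hm =>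
    ⟨fK_ne K i hk hz hm, fK_smooth K i hk hz hm, ?_⟩⟩
  rw [(hφ z hz).fderiv, hβ, fK_key K i (hW z hz) hk hz (K.mem _ (hW z hz)) hm]
  abel

end Pool.Agent.Lib.MP_1c0d65_gt.PW.Adj
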