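import Pool.Agent.Lib.MP_1c0d65_gt.B.SphereA
import Pool.Agent.Lib.MP_1c0d65_gt.PW.Plot
import Pool.Agent.Lib.MP_1c0d65_gt.W.Idx

/-! The local equation of a simple curve at a point of the smooth part: the structure. -/

set_option autoImplicit false

open scoped Manifold ContDiff Topology
open Set Filter Pool.Agent.Lib.MP_1c0d65_gt.B Pool.Agent.Lib.MP_1c0d65_gt.W

noncomputable section

namespace Pool.Agent.Lib.MP_1c0d65_gt.PW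

variable {X : Type} [TopologicalSpace X] [ChartedSpace E X] [MeasurableSpace X] {c : Ctx X}
  {O : Orb c}

/-- The branch of `C` at the point `x` of the sphere is immersed and no other point of the sphere
has the same image. -/
def OC.Nice (C : OC O) (x : OnePoint ℂ) : Prop :=
  dif (fun s => C.U (ch x s)) 0 1 ≠ 0 ∧ ∀ x' ∈ C.D, C.U x' = C.U x → x' = x

/-- `P` is an equation of `C` near `b`; `A` is the coefficient of its differential along `C`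
against `Ω (u_s, ·)`; `k x` is the local term of the branch `x` in the adjunction formula. -/
structure SEq (C : OC O) (Ω : X → Bil E ℂ) (b : X) where
  P : X → ℂ
  A : ℂ → ℂ
  k : OnePoint ℂ → ℕ
  sm : ∀ᶠ y in 𝓝[≠] b, ContMDiffAt 𝓘(ℝ, E) 𝓘(ℝ, ℂ) ∞ P y
  zero : ∀ᶠ y in 𝓝[≠] b, (P y = 0 ↔ y ∈ C.img)
  good : ∀ᶠ y in 𝓝[≠] b, y ≠ C.v 0 ∧ ∀ s ∉ C.F, C.u s = y →
    dif C.u s 1 ≠ 0 ∧ ∀ s' ∉ C.F, C.u s' = y → s' = s
  coef : ∀ᶠ y in 𝓝[≠] b, ∀ s ∉ C.F, C.u s = y → ContDiffAt ℝ ∞ A s ∧ A s ≠ 0 ∧ ∀ v,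
    ‖dfn P y v - A s * Ω y (dif C.u s 1) v‖ ≤ 1 / 2 * ‖A s * Ω y (dif C.u s 1) v‖
  pos : ∀ g z, HolG O.J g z → g z = b → (∃ᶠ s in 𝓝 z, g s ∉ C.img) →
    ∃ n : ℕ, HasIdx (fun s => P (g s)) z n ∧ (b ∈ C.img → 0 < n)
  idx : ∀ a ∉ C.F, C.u a = b → HasIdx A a (k a)
  idxv : C.v 0 = b → HasIdx (fun ζ => A ζ⁻¹) 0 ((k OnePoint.infty : ℤ) - 2)
  k0 : ∀ x ∈ C.D, C.U x = b → (k x = 0 ↔ C.Nice x)
  k1 : ∀ x ∈ C.D, C.U x = b → k x = 1 → ∃ x' ∈ C.D, C.U x' = b ∧ x' ≠ x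

end Pool.Agent.Lib.MP_1c0d65_gt.PW
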