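import Pool.Agent.Lib.MP_1c0d65_gt.E.Cur
import Pool.Agent.Lib.MP_1c0d65_gt.E.SiteD
import Pool.Agent.Lib.MP_1c0d65_gt.E.OEqD

/-! The sites of a simple curve with their index data. -/

set_option autoImplicit false
set_option linter.unusedSectionVars false

open scoped Manifold ContDiff Topology
open Set Filter Metric

noncomputable section

namespace Pool.Agent.Lib.MP_1c0d65_gt.PW

variable {X : Type} [TopologicalSpace X] [ChartedSpace E X] [MeasurableSpace X] {c : Ctx X}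
  {O : Orb c}

/-- `Ω b` is a nowhere zero form of type `(2,0)` near `b`, for every smooth point `b`. -/
def CanF (O : Orb c) (Ω : X → X → Bil E ℂ) : Prop := ∀ b ∈ O.W, ∃ U, IsOpen U ∧ b ∈ U ∧ U ⊆ O.W ∧
  Form U (Ω b) ∧ ∀ y ∈ U, Ω b y ≠ 0 ∧ ∀ v w, Ω b y (O.J y v) w = .I * Ω b y v w

/-- The sites: the bad set is the union of the `L i` and a finite set `T` of smooth points. -/
structure Sites (C : OC O) (ι : C.F → Fin O.n) (j : C.F → ℕ) (Ω : X → X → Bil E ℂ) where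
  T : Finset X
  hT : ∀ b ∈ T, b ∈ O.W
  D : Bad C
  hB : D.B = (⋃ i, O.L i) ∪ T
  S : Site D
  q : ∀ b : T, SEq C (Ω b) b
  atB : ∀ b : T, ∀ᶠ x in 𝓝[≠] (b : X), x ∉ D.B ∧ S.P x = (q b).P
  r : ℝ
  R : Fin O.n → E → ℂ
  orb : ∀ i, OEq C ι j i r (R i)
  atL : ∀ i, ∀ z ∈ pb r, O.Pi i z ∉ D.B ∧
    ∃ k : ℂ, k ≠ 0 ∧ ∀ᶠ w in 𝓝 z, S.P (O.Pi i z) (O.Pi i w) = k * R i w

end Pool.Agent.Lib.MP_1c0d65_gt.PW
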