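import Pool.Agent.Lib.MP_1c0d65_gt.E.AdjT
import Pool.Agent.Lib.MP_1c0d65_gt.E.Lel

/-! The residues of `theta` at the smooth bad points. -/

set_option autoImplicit false
set_option linter.unusedSectionVars false

open scoped Manifold ContDiff Topology
open Set Filter Metric Complex

noncomputable section

namespace Pool.Agent.Lib.MP_1c0d65_gt.PW.Adj

open W

variable {X : Type} [TopologicalSpace X] [ChartedSpace E X] [IsManifold 𝓘(ℝ, E) ∞ X]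
  [T2Space X] [CompactSpace X] [MeasurableSpace X] [BorelSpace X] {c : Ctx X} {O : Orb c}
  {C : OC O} {D : Bad C} {S : Site D}

/-- What holds along a branch that tends to a smooth bad point. -/
theorem along (K : KD O) (Λ : Cur S) {b : X} (hb : b ∈ O.W) (hB : b ∈ D.B) (q : SEq C (K.Ω b) b)
    (atB : ∀ᶠ x in 𝓝[≠] b, x ∉ D.B ∧ S.P x = q.P) {τ : ℂ → ℂ} {a : ℂ}
    (hτ : ∀ᶠ s in 𝓝[≠] a, τ s ∉ D.Z ∧ ContinuousAt τ s)
    (ht : Tendsto (fun s => C.u (τ s)) (𝓝[≠] a) (𝓝 b)) {e : ℤ}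
    (he : HasIdx (fun s => q.A (τ s)) a e) :
    HasIdx (fun s => cf O.J q.P (K.Ω b) C.u (τ s)) a e ∧ ∀ᶠ s in 𝓝[≠] a,
      ContDiffAt ℝ ∞ (cf O.J q.P (K.Ω b) C.u) (τ s) ∧ theta K Λ (τ s) =
        -darg (cf O.J q.P (K.Ω b) C.u) (τ s) - pull1 C.u (K.a b) (τ s) := by
  have ht' : Tendsto (fun s => C.u (τ s)) (𝓝[≠] a) (𝓝[≠] b) :=
    tendsto_nhdsWithin_iff.2 ⟨ht, hτ.mono fun s hs h => notB D hs.1 (by
      rw [mem_singleton_iff.1 h]; exact hB)⟩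
  have H : ∀ᶠ s in 𝓝[≠] a, (τ s ∉ D.Z ∧ ContinuousAt τ s) ∧ C.u (τ s) ∈ Λ.V ∧
      C.u (τ s) ∈ K.U b ∧ S.P (C.u (τ s)) = q.P ∧ Eqn C q.P (C.u (τ s)) := by
    filter_upwards [hτ, ht.eventually (Λ.isOpenV.mem_nhds (Λ.subV hB)),
      ht.eventually ((K.op b hb).mem_nhds (K.mem b hb)), ht'.eventually atB] with s h1 h2 h3 h4
    exact ⟨h1, h2, h3, h4.2, h4.2 ▸ S.eqn _ (Λ.VV h2) h4.1⟩
  refine ⟨idx_cf K D hb he ?_, ?_⟩
  · filter_upwards [H, ht'.eventually q.coef] with s ⟨h1, _, h3, _, h5⟩ h6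
    exact ⟨h1.1, h1.2, h5, h3, (h6 _ (notF D h1.1) rfl).2.2⟩
  · filter_upwards [H] with s ⟨h1, h2, h3, h4, h5⟩
    exact ⟨(cf_good K D h1.1 h5 hb h3).1, by rw [theta_near K Λ h1.1 h2 hb h3, h4]⟩

theorem res_fin (K : KD O) (Λ : Cur S) {a : ℂ} (ha : a ∉ C.F) (hB : C.u a ∈ D.B)
    (q : SEq C (K.Ω (C.u a)) (C.u a)) (atB : ∀ᶠ x in 𝓝[≠] (C.u a), x ∉ D.B ∧ S.P x = q.P) :
    Tendsto (cp (theta K Λ) a) (𝓝[>] 0) (𝓝 (-(2 * Real.pi * q.k a))) := by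
  have hW : C.u a ∈ O.W := C.mu ha
  obtain ⟨h1, h2⟩ := along K Λ hW hB q atB (τ := fun s => s) (a := a)
    ((ev_notZ' D a).mono fun s hs => ⟨hs, continuousAt_id⟩)
    ((C.cm ha).continuousAt.tendsto.mono_left nhdsWithin_le_nhds) (q.idx a ha rfl)
  have h3 : ContinuousAt (pull1 C.u (K.a (C.u a))) a :=
    ((K.isD _ hW).sm1.smooth (K.op _ hW) (C.cm ha) (K.mem _ hW)).continuousAt
  have := h1.res_bdd (ψ := theta K Λ) (lam := -1) (by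
    filter_upwards [h2, ev_notZ' D a] with s hs hz
    exact ⟨hs.1.of_le (by simp), (theta_dd K Λ hz).1.continuousAt⟩)
    (((h3.neg.tendsto.isBigO_one ℝ).mono nhdsWithin_le_nhds).congr'
      (h2.mono fun s hs => by simp only [hs.2, Pi.neg_apply]; module) EventuallyEq.rfl)
  simpa using this

theorem res_inf (K : KD O) (Λ : Cur S) (q : SEq C (K.Ω (C.v 0)) (C.v 0))
    (atB : ∀ᶠ x in 𝓝[≠] (C.v 0), x ∉ D.B ∧ S.P x = q.P) : ∃ φ : ℂ → ℂ →L[ℝ] ℝ,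
    (∀ᶠ s in 𝓝[≠] (0 : ℂ), ∀ v, φ s v = theta K Λ s⁻¹ (-(s ^ 2)⁻¹ * v)) ∧
      Tendsto (cp φ 0) (𝓝[>] 0) (𝓝 (-(2 * Real.pi * ((q.k OnePoint.infty : ℝ) - 2)))) := by
  have hW : C.v 0 ∈ O.W := C.v0
  have sv : SmAt ∞ C.v 0 := C.smv.self_of_nhds
  have hZ : ∀ᶠ s in 𝓝[≠] (0 : ℂ), s⁻¹ ∉ D.Z :=
    (tendsto_inv₀_nhdsNE_zero (α := ℂ)).eventually D.Z.finite_toSet.isBounded.compl
  obtain ⟨h1, h2⟩ := along K Λ hW D.v0 q atB (τ := fun s => s⁻¹) (a := 0)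
    (by filter_upwards [hZ, self_mem_nhdsWithin] with s hs h0 using ⟨hs, continuousAt_inv₀ h0⟩)
    ((sv.continuousAt.tendsto.mono_left nhdsWithin_le_nhds).congr'
      (by filter_upwards [self_mem_nhdsWithin] with s h0 using C.uv s h0)) (q.idxv rfl)
  set G := cf O.J q.P (K.Ω (C.v 0)) C.u with hG
  have h3 : ∀ᶠ s in 𝓝 (0 : ℂ), ContinuousAt (pull1 C.v (K.a (C.v 0))) s :=
    ((((K.isD _ hW).sm1.smooth (K.op _ hW) sv (K.mem _ hW)).of_le (m := 1) (by simp)).eventually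
      (by simp)).mono fun s hs => hs.continuousAt
  have h4 : ∀ᶠ s in 𝓝[≠] (0 : ℂ), ContDiffAt ℝ ∞ (fun t => G t⁻¹) s := by
    filter_upwards [h2, self_mem_nhdsWithin] with s hs h0
    exact hs.1.comp s ((contDiffAt_inv ℂ h0).restrict_scalars ℝ)
  refine ⟨fun s => -darg (fun t => G t⁻¹) s - pull1 C.v (K.a (C.v 0)) s, ?_, ?_⟩
  · filter_upwards [h2, C.pull1_v (K.a (C.v 0)), self_mem_nhdsWithin] with s hs h5 h0 v
    have hd : HasDerivAt (fun t : ℂ => t⁻¹) (-(s ^ 2)⁻¹) s := hasDerivAt_inv h0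
    rw [hs.2, sub_apply, sub_apply, h5, neg_apply, neg_apply,
      darg_comp (u := fun t : ℂ => t⁻¹) (cd_diff hs.1) (hd.differentiableAt.restrictScalars ℝ),
      ContinuousLinearMap.comp_apply, brk_fderiv hd]
  · have := h1.res_bdd (ψ := fun s => -darg (fun t => G t⁻¹) s - pull1 C.v (K.a (C.v 0)) s)
      (lam := -1) (by
        filter_upwards [h4, nhdsWithin_le_nhds h3, (end_pn 0).ne_zero h1] with s a1 a2 a3
        exact ⟨a1.of_le (by simp), (contDiffAt_darg a1 a3 top_le).continuousAt.neg.sub a2⟩)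
      (((h3.self_of_nhds.neg.tendsto.isBigO_one ℝ).mono nhdsWithin_le_nhds).congr'
        (Eventually.of_forall fun s => by simp only [Pi.neg_apply]; module) EventuallyEq.rfl)
    simpa using this

end Pool.Agent.Lib.MP_1c0d65_gt.PW.Adj
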