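import Pool.Agent.Lib.MP_1c0d65_gt.W.Arg
import Pool.Agent.Lib.MP_1c0d65_gt.Top.Prim
import Pool.Agent.Lib.MP_1c0d65_gt.PW.Mon
import Pool.Agent.Lib.MP_1c0d65_gt.PW.PlotA
import Pool.Agent.Lib.MP_1c0d65_gt.PW.Cay

/-! The connection on the canonical bundle, read in a uniformising chart. -/

set_option autoImplicit false

open scoped Manifold ContDiff Topology
open Set Filter Metric

noncomputable section

namespace Pool.Agent.Lib.MP_1c0d65_gt.PW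

open W

variable {X : Type} [TopologicalSpace X] [ChartedSpace E X]
  {V : Type} [NormedAddCommGroup V] [NormedSpace ℝ V]

/-- The data in the definition of `IsChern`. -/
def ChD (U₀ : Set X) (J : X → E →L[ℝ] E) (κ : X → Bil E ℝ) (U : X → Set X)
    (Ω : X → X → Bil E ℂ) (a : X → X → E →L[ℝ] ℝ) (g : X → X → X → ℂ) : Prop :=
  ∀ i ∈ U₀, IsOpen (U i) ∧ i ∈ U i ∧ U i ⊆ U₀ ∧ Form (U i) (Ω i) ∧ IsD (U i) (a i) κ ∧
    (∀ y ∈ U i, Ω i y ≠ 0 ∧ ∀ v w, Ω i y (J y v) w = .I * Ω i y v w) ∧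
    ∀ k ∈ U₀, ContMDiffOn 𝓘(ℝ, E) 𝓘(ℝ, ℂ) ∞ (g i k) (U i ∩ U k) ∧ ∀ y ∈ U i ∩ U k,
      Ω i y = g i k y • Ω k y ∧ ∀ v, a i y v - a k y v = (dfn (g i k) y v / g i k y).im

theorem c1_cancel {B : Bil E ℂ} (hB : B ≠ 0) {s t : ℂ} (h : s • B = t • B) : s = t := by
  by_contra hne
  refine hB (bil_ext fun v w => ?_)
  have : s * B v w = t * B v w := congrArg (fun C : Bil E ℂ => C v w) h
  exact (mul_eq_mul_right_iff.1 this).resolve_left hne

/-- An alternating form of type `(2,0)` is a multiple of the determinant. -/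
theorem c1_det {B : Bil E ℂ} (alt : ∀ v, B v v = 0)
    (h : ∀ v w, B (Complex.I • v) w = .I * B v w) (v w : E) :
    B v w = (v.1 * w.2 - v.2 * w.1) * B (1, 0) (0, 1) := by
  have h1 : ∀ (s : ℂ) v w, B (s • v) w = s * B v w := fun s v w => by
    have : s • v = s.re • v + s.im • (Complex.I • v) := by
      conv_lhs => rw [← Complex.re_add_im s]
      rw [add_smul, mul_smul]; rfl
    rw [this, map_add, map_smul, map_smul]
    simp only [add_apply, smul_apply, h, Complex.real_smul]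
    conv_rhs => rw [← Complex.re_add_im s]
    ring
  have h2 : ∀ (s : ℂ) v w, B v (s • w) = s * B v w := fun s v w => by
    rw [bil_skew alt, h1, bil_skew alt w, mul_neg, neg_neg]
  have e : ∀ v : E, v = v.1 • ((1, 0) : E) + v.2 • ((0, 1) : E) := fun v => by simp
  conv_lhs => rw [e v, e w]
  simp only [map_add, add_apply, h1, h2, alt, bil_skew alt (0, 1) (1, 0)]
  ring

theorem c1_indep {A B : V →L[ℝ] ℝ} {g h₁ h₂ : V → ℂ} {y : V} (e : A - B = darg g y)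
    (h : ∀ᶠ w in 𝓝 y, h₁ w = g w * h₂ w) (hg : DifferentiableAt ℝ g y)
    (h2 : DifferentiableAt ℝ h₂ y) (g0 : g y ≠ 0) (h0 : h₂ y ≠ 0) :
    A - darg h₁ y = B - darg h₂ y := by
  rw [darg_congr h, darg_mul hg h2 g0 h0, ← e]; abel

theorem c1_closed {A L β : V → V →L[ℝ] ℝ} {h : V → ℂ} {z : V} {t : ℝ} (hA : ContDiffAt ℝ ∞ A z)
    (hL : ContDiffAt ℝ ∞ L z) (hh : ContDiffAt ℝ ∞ h z) (h0 : h z ≠ 0)
    (e : ∀ᶠ w in 𝓝 z, β w = A w - darg h w - t • L w) (d : ext1 A z = t • ext1 L z) :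
    ContDiffAt ℝ ∞ β z ∧ ∀ v w, fderiv ℝ β z v w = fderiv ℝ β z w v := by
  have p2 : ContDiffAt ℝ ∞ (darg h) z := contDiffAt_darg hh h0 top_le
  refine ⟨((hA.sub p2).sub (hL.const_smul t)).congr_of_eventuallyEq e, fun v w => ?_⟩
  have h1 := (((cd_diff hA).hasFDerivAt.fun_sub (cd_diff p2).hasFDerivAt).fun_sub
    ((cd_diff hL).hasFDerivAt.fun_const_smul t)).congr_of_eventuallyEq e
  have h2 := darg_closed (hh.of_le two_le) h0 v w
  have h3 : ext1 A z v w = t * ext1 L z v w := congrArg (fun B : Bil V ℝ => B v w) d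
  rw [ext1_apply, ext1_apply] at h3
  simp only [h1.fderiv, sub_apply, smul_apply, smul_eq_mul]
  linarith

variable {U₀ : Set X} {J : X → E →L[ℝ] E} {κ : X → Bil E ℝ} {U : X → Set X}
  {Ω : X → X → Bil E ℂ} {a : X → X → E →L[ℝ] ℝ} {g : X → X → X → ℂ} {i j k y : X}

theorem ChD.one (h : ChD U₀ J κ U Ω a g) (hi : i ∈ U₀) (hy : y ∈ U i) : g i i y = 1 :=
  c1_cancel ((h i hi).2.2.2.2.2.1 y hy).1
    ((((h i hi).2.2.2.2.2.2 i hi).2 y ⟨hy, hy⟩).1.symm.trans (one_smul _ _).symm)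

theorem ChD.coc (h : ChD U₀ J κ U Ω a g) (hi : i ∈ U₀) (hj : j ∈ U₀) (hk : k ∈ U₀) (yi : y ∈ U i)
    (yj : y ∈ U j) (yk : y ∈ U k) : g i j y * g j k y = g i k y :=
  c1_cancel ((h k hk).2.2.2.2.2.1 y yk).1 (by
    rw [mul_smul, ← (((h j hj).2.2.2.2.2.2 k hk).2 y ⟨yj, yk⟩).1,
      ← (((h i hi).2.2.2.2.2.2 j hj).2 y ⟨yi, yj⟩).1,
      ← (((h i hi).2.2.2.2.2.2 k hk).2 y ⟨yi, yk⟩).1])

theorem ChD.ne (h : ChD U₀ J κ U Ω a g) (hi : i ∈ U₀) (hk : k ∈ U₀) (yi : y ∈ U i)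
    (yk : y ∈ U k) : g i k y ≠ 0 :=
  left_ne_zero_of_mul_eq_one ((h.coc hi hk hi yi yk yi).trans (h.one hi yi))

theorem ChD.pull (h : ChD U₀ J κ U Ω a g) (hi : i ∈ U₀) (hk : k ∈ U₀) {f : V → X} {z : V}
    (hf : SmAt ∞ f z) (yi : f z ∈ U i) (yk : f z ∈ U k) : ContDiffAt ℝ ∞ (g i k ∘ f) z ∧
      pull1 f (a i) z - pull1 f (a k) z = darg (g i k ∘ f) z := by
  have h1 : FnAt ∞ (g i k) (f z) := ((h i hi).2.2.2.2.2.2 k hk).1.contMDiffAt
    (((h i hi).1.inter (h k hk).1).mem_nhds ⟨yi, yk⟩)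
  refine ⟨h1.comp_plot hf, ContinuousLinearMap.ext fun v => ?_⟩
  rw [darg_apply, fderiv_fn_comp (h1.mdifferentiableAt (by simp)) (hf.dfAt (by simp))]
  exact (((h i hi).2.2.2.2.2.2 k hk).2 _ ⟨yi, yk⟩).2 _

/-- A power of the generator as a linear map. -/
def genL (N b j : ℕ) : E →L[ℝ] E := (eps N ^ j • ContinuousLinearMap.fst ℝ ℂ ℂ).prod
  (eps N ^ (b * j) • ContinuousLinearMap.snd ℝ ℂ ℂ)

variable [IsManifold 𝓘(ℝ, E) ∞ X] [T2Space X] [CompactSpace X] [MeasurableSpace X] [BorelSpace X]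
  {c : Ctx X} {O : Orb c}

/-- The coefficient of the form `Ω x` in the uniformising chart `n`. -/
def Orb.coef (O : Orb c) (n : Fin O.n) (Ω : X → X → Bil E ℂ) (x : X) (z : E) : ℂ :=
  pull2 (O.Pi n) (Ω x) z (1, 0) (0, 1)

theorem ChD.det (h : ChD O.W O.J κ U Ω a g) (n : Fin O.n) (hi : i ∈ O.W) {z : E}
    (hz : z ∈ pb O.R) (yi : O.Pi n z ∈ U i) (v w : E) :
    pull2 (O.Pi n) (Ω i) z v w = (v.1 * w.2 - v.2 * w.1) * O.coef n Ω i z :=
  c1_det (B := pull2 (O.Pi n) (Ω i) z) (fun v => (h i hi).2.2.2.1.1 _ yi _) (fun v w => by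
    rw [brk_pull2_apply, O.hol n z hz, ((h i hi).2.2.2.2.2.1 _ yi).2]; rfl) v w

theorem ChD.coef (h : ChD O.W O.J κ U Ω a g) (n : Fin O.n) (hi : i ∈ O.W) {z : E}
    (hz : z ∈ pb O.R) (yi : O.Pi n z ∈ U i) : ContDiffAt ℝ ∞ (O.coef n Ω i) z ∧
      O.coef n Ω i z ≠ 0 ∧ (∀ k ∈ O.W, O.Pi n z ∈ U k →
        O.coef n Ω i z = g i k (O.Pi n z) * O.coef n Ω k z) ∧ ∀ j, eps (O.N n) ^ ((1 + O.a n) * j) *
          O.coef n Ω i (gen (O.N n) (O.a n) j z) = O.coef n Ω i z := by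
  refine ⟨(((h i hi).2.2.2.1.smooth (h i hi).1 (O.Pi_cm n hz) yi).clm_apply
    contDiffAt_const).clm_apply contDiffAt_const, fun e => ?_, fun k hk yk => ?_, fun j => ?_⟩
  · refine ((h i hi).2.2.2.2.2.1 _ yi).1 (bil_ext fun v w => ?_)
    have hs := LinearMap.injective_iff_surjective (f := (dif (O.Pi n) z).toLinearMap).1
      (O.inj n z hz)
    obtain ⟨v, rfl⟩ := hs v
    obtain ⟨w, rfl⟩ := hs w
    exact (h.det n hi hz yi v w).trans (by rw [e, mul_zero]; rfl)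
  · rw [Orb.coef, brk_pull2_apply, (((h i hi).2.2.2.2.2.2 k hk).2 _ ⟨yi, yk⟩).1]; rfl
  · have h1 := mon_gen_pb (O.N_ne n) (O.a n) j hz
    have h2 : O.Pi n =ᶠ[𝓝 z] O.Pi n ∘ genL (O.N n) (O.a n) j := by
      filter_upwards [(mon_isOpen_pb _).mem_nhds hz] with w hw using (O.Pi_gen n hw j).symm
    have h3 := brk_pull2_comp (g := genL (O.N n) (O.a n) j) (y := z) (brk_md (O.Pi_cm n h1))
      (genL _ _ _).differentiableAt (Ω i) (1, 0) (0, 1)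
    rw [← brk_pull2_congr h2, ContinuousLinearMap.fderiv] at h3
    refine Eq.trans ?_ (h3.trans (h.det n hi h1 ((O.Pi_gen n hz j).symm ▸ yi) _ _)).symm
    simp [genL, add_mul, pow_add]

/-- The connection form in the trivialisation `d z₁ ∧ d z₂` of a uniformising chart. -/
theorem ChD.theta {t : ℝ} (h : ChD O.W O.J (t • c.om) U Ω a g) (n : Fin O.n) :
    ∃ φ : E → ℝ, ∀ z ∈ pb O.R, ContDiffAt ℝ ∞ φ z ∧ ∀ i ∈ O.W, O.Pi n z ∈ U i →
      pull1 (O.Pi n) (a i) z - darg (O.coef n Ω i) z = fderiv ℝ φ z + t • O.lam n z := by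
  let β : E → E →L[ℝ] ℝ := fun z => pull1 (O.Pi n) (a (O.Pi n z)) z -
    darg (O.coef n Ω (O.Pi n z)) z - t • O.lam n z
  have op := mon_isOpen_pb O.R
  have ev : ∀ i ∈ O.W, ∀ z ∈ pb O.R, O.Pi n z ∈ U i → ∀ᶠ w in 𝓝 z, w ∈ pb O.R ∧ O.Pi n w ∈ U i :=
    fun i hi z hz yi => (op.eventually_mem hz).and
      ((O.Pi_cm n hz).continuousAt.eventually_mem ((h i hi).1.mem_nhds yi))
  have e1 : ∀ i ∈ O.W, ∀ z ∈ pb O.R, O.Pi n z ∈ U i →
      β z = pull1 (O.Pi n) (a i) z - darg (O.coef n Ω i) z - t • O.lam n z := fun i hi z hz yi => by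
    have hk : O.Pi n z ∈ O.W := O.maps n hz
    have yk := (h _ hk).2.1
    obtain ⟨p1, p2⟩ := h.pull hk hi (O.Pi_cm n hz) yk yi
    refine congrArg (· - _) (c1_indep p2 ?_ (cd_diff p1) (cd_diff (h.coef n hi hz yi).1)
      (h.ne hk hi yk yi) (h.coef n hi hz yi).2.1)
    filter_upwards [ev _ hk z hz yk, ev i hi z hz yi] with w w1 w2
    exact (h.coef n hk w1.1 w1.2).2.2.1 i hi w2.2
  have e2 : ∀ z ∈ pb O.R, ContDiffAt ℝ ∞ β z ∧
      ∀ v w, fderiv ℝ β z v w = fderiv ℝ β z w v := fun z hz => by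
    have hk : O.Pi n z ∈ O.W := O.maps n hz
    have yk := (h _ hk).2.1
    have p0 := h.coef n hk hz yk
    refine c1_closed ((h _ hk).2.2.2.2.1.sm1.smooth (h _ hk).1 (O.Pi_cm n hz) yk)
      ((O.hlam n).1.contDiffAt (isOpen_ball.mem_nhds hz.1)) p0.1 p0.2.1
      ((ev _ hk z hz yk).mono fun w hw => e1 _ hk w hw.1 hw.2) ?_
    rw [← (h _ hk).2.2.2.2.1.pull (h _ hk).1 ((O.Pi_cm n hz).of_le two_le) yk, pull2_smul,
      Pi.smul_apply, (O.hlam n).2 z hz]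
  obtain ⟨φ, hφ⟩ := Top.hasPrim_punctured (β := β) (U := ball (0 : E) O.R) (by
      rw [← Module.finrank_eq_rank]; norm_num) (convex_ball _ _) isOpen_ball (mem_ball_self O.hR)
    (fun z hz => (cd_diff (e2 z hz).1).differentiableWithinAt) fun z hz => (e2 z hz).2
  refine ⟨φ, fun z hz => ⟨(Top.contDiffOn_of_prim (n := ⊤) op hφ
    fun w hw => (e2 w hw).1.contDiffWithinAt).contDiffAt (op.mem_nhds hz), fun i hi yi => ?_⟩⟩
  rw [(hφ z hz).fderiv, e1 i hi z hz yi, sub_add_cancel]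

end Pool.Agent.Lib.MP_1c0d65_gt.PW
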