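import Pool.Agent.Lib.MP_1c0d65_gt.E.C1A
import Pool.Agent.Lib.MP_1c0d65_gt.E.C1B
import Pool.Agent.Lib.MP_1c0d65_gt.W.Pow
import Pool.Agent.Lib.MP_1c0d65_gt.PW.NotSub

/-! The first Chern number of an orbifold sphere modulo the integers. -/

set_option autoImplicit false

open scoped Manifold ContDiff Topology
open Set Filter Metric MeasureTheory

noncomputable section

namespace Pool.Agent.Lib.MP_1c0d65_gt.PW

open W

variable {X : Type} [TopologicalSpace X] [ChartedSpace E X] [IsManifold 𝓘(ℝ, E) ∞ X]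
  [T2Space X] [CompactSpace X] [MeasurableSpace X] [BorelSpace X] {c : Ctx X} {O : Orb c}
  {U : X → Set X} {Ω : X → X → Bil E ℂ} {a : X → X → E →L[ℝ] ℝ} {g : X → X → X → ℂ}

theorem c1_res {G : ℂ → ℝ} {L : ℂ → ℂ →L[ℝ] ℝ} (hG : ∀ᶠ ζ in 𝓝[≠] (0 : ℂ), ContDiffAt ℝ ∞ G ζ)
    (hL : ∀ᶠ ζ in 𝓝 (0 : ℂ), ContinuousAt L ζ) (e : ℝ) :
    Tendsto (cp (fun ζ => fderiv ℝ G ζ + (L ζ + e • darg (fun w => w) ζ)) 0) (𝓝[>] 0)
      (𝓝 (e * (2 * Real.pi))) := by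
  have h1 : ∀ᶠ ζ in 𝓝[≠] (0 : ℂ), ContinuousAt (fun ζ => L ζ + e • darg (fun w => w) ζ) ζ := by
    filter_upwards [nhdsWithin_le_nhds hL, self_mem_nhdsWithin] with ζ h h0
    exact h.add ((contDiffAt_darg (m := 0) (n := 1) contDiffAt_id h0
      (by simp)).continuousAt.const_smul e)
  have h2 := HasIdx.res (lam := e) (idx_id (𝓝[≠] 0)) (h1.mono fun ζ h => ⟨contDiffAt_id, h⟩) (by
    simp only [add_sub_cancel_right]
    exact small_of_bdd ((hL.self_of_nhds.tendsto.isBigO_one ℝ).mono nhdsWithin_le_nhds))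
  rw [Int.cast_one, mul_one] at h2
  refine h2.congr' ?_
  filter_upwards [rad_pn (hG.and h1)] with r hr
  rw [cp_add (fun θ => (hr.2 θ).1.continuousAt_fderiv (by simp)) fun θ => (hr.2 θ).2,
    cp_fderiv fun θ => (hr.2 θ).1.of_le (by simp), zero_add]

theorem ChD.punct {t : ℝ} (h : ChD O.W O.J (t • c.om) U Ω a g) {C : OC O} {p : ℂ} {n : Fin O.n}
    {j : ℕ} {z : ℂ → E} (hb : C.Br p n j z) : ∃ f : X → ℂ → ℂ,
      (∀ᶠ s in 𝓝[≠] p, ∀ i ∈ O.W, C.u s ∈ U i → ContDiffAt ℝ ∞ (f i) s ∧ f i s ≠ 0 ∧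
        ∀ k ∈ O.W, C.u s ∈ U k → f i s = g i k (C.u s) * f k s) ∧
      ∀ φ : ℂ → ℂ →L[ℝ] ℝ, (∀ᶠ s in 𝓝[≠] p, ContinuousAt φ s ∧
        ∀ i ∈ O.W, C.u s ∈ U i → φ s = pull1 C.u (a i) s - darg (f i) s) →
        Tendsto (cp φ p) (𝓝[>] 0)
          (𝓝 (-(2 * Real.pi * (((1 + O.a n) * j : ℝ) / O.N n)))) := by
  classical
  have han := hb.analyticAt
  obtain ⟨r, hr, hd, z0, H⟩ := hb
  have hN := O.N_ne n
  obtain ⟨rt, r1, r2⟩ := oci_root hN p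
  obtain ⟨φ0, hφ0⟩ := h.theta n
  set e := (1 + O.a n) * j with he
  let T : X → ℂ → ℂ := fun i ζ =>
    if i ∈ O.W ∧ C.u (p + ζ ^ O.N n) ∈ U i then ζ ^ e * O.coef n Ω i (z ζ) else 0
  have H' : ∀ ζ : ℂ, ζ ≠ 0 → ‖ζ‖ < r → _ := fun ζ h0 h1 => H ζ (mem_ball_zero_iff.2 h1) h0
  have inv : ∀ i ζ, ζ ≠ 0 → ‖ζ‖ < r → T i (eps (O.N n) * ζ) = T i ζ := fun i ζ h0 h1 => by
    obtain ⟨a1, a2, a3⟩ := H' ζ h0 h1
    simp only [T, mul_pow, (mon_prim hN).pow_eq_one, one_mul]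
    split_ifs with hc
    · rw [a3, ← (h.coef n hc.1 a1 (a2 ▸ hc.2)).2.2.2 j]; ring
    · rfl
  have nb : ∀ ζ : ℂ, ζ ≠ 0 → ‖ζ‖ < r → ∀ᶠ w in 𝓝 ζ, w ≠ 0 ∧ ‖w‖ < r := fun ζ h0 h1 =>
    (eventually_ne_nhds h0).and ((isOpen_lt continuous_norm continuous_const).mem_nhds h1)
  have sz : ∀ ζ : ℂ, ‖ζ‖ < r → ContDiffAt ℝ ∞ z ζ := fun ζ h1 =>
    ((hd.analyticAt (isOpen_ball.mem_nhds (mem_ball_zero_iff.2 h1))).contDiffAt
      (n := ∞)).restrict_scalars ℝ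
  have loc : ∀ i ∈ O.W, ∀ ζ, ζ ≠ 0 → ‖ζ‖ < r → C.u (p + ζ ^ O.N n) ∈ U i →
      T i =ᶠ[𝓝 ζ] fun w => w ^ e * O.coef n Ω i (z w) := fun i hi ζ h0 h1 h2 => by
    obtain ⟨a1, a2, -⟩ := H' ζ h0 h1
    filter_upwards [nb ζ h0 h1, ((O.Pi_cm n a1).continuousAt.comp
      (sz ζ h1).continuousAt).eventually_mem ((h i hi).1.mem_nhds (a2.symm ▸ h2 :
        O.Pi n (z ζ) ∈ U i))] with w w1 w2
    exact if_pos ⟨hi, (H' w w1.1 w1.2).2.1 ▸ w2⟩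
  have small : ∀ᶠ ζ in 𝓝[≠] (0 : ℂ), ζ ≠ 0 ∧ ‖ζ‖ < r := by
    filter_upwards [self_mem_nhdsWithin, nhdsWithin_le_nhds (ball_mem_nhds 0 hr)] with ζ a b
    exact ⟨a, mem_ball_zero_iff.1 b⟩
  have P1 : ∀ᶠ s in 𝓝[≠] p, ∀ i ∈ O.W, C.u s ∈ U i → ContDiffAt ℝ ∞ (fun s => T i (rt s)) s ∧
      T i (rt s) ≠ 0 ∧ ∀ k ∈ O.W, C.u s ∈ U k → T i (rt s) = g i k (C.u s) * T k (rt s) := by
    filter_upwards [r2.eventually small, self_mem_nhdsWithin] with s ⟨h0, h1⟩ hs i hi yi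
    obtain ⟨a1, a2, -⟩ := H' _ h0 h1
    rw [r1] at a2
    obtain ⟨b1, b2, b3, -⟩ := h.coef n hi a1 (a2 ▸ yi)
    have l1 := loc i hi _ h0 h1 (by rwa [r1])
    refine ⟨C1s.desc hN (mon_prim hN) (inv i) r1 hs h1 (n := ⊤)
      (((contDiffAt_id.pow e).mul (b1.comp _ (sz _ h1))).congr_of_eventuallyEq l1), ?_,
      fun k hk yk => ?_⟩
    · rw [l1.self_of_nhds]
      exact mul_ne_zero (pow_ne_zero _ h0) b2
    · rw [l1.self_of_nhds, (loc k hk _ h0 h1 (by rwa [r1])).self_of_nhds]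
      beta_reduce
      rw [b3 k hk (a2 ▸ yk), a2]
      ring
  refine ⟨fun i s => T i (rt s), P1, fun φ hφ => ?_⟩
  have sz0 : ∀ᶠ ζ in 𝓝 (0 : ℂ), ContinuousAt
      (fun ζ => (t • O.lam n (z ζ)).comp (fderiv ℝ z ζ)) ζ := by
    have c0 : ∀ᶠ ζ in 𝓝 (0 : ℂ), z ζ ∈ ball (0 : E) O.R :=
      han.continuousAt.eventually_mem (z0.symm ▸ ball_mem_nhds 0 O.hR)
    filter_upwards [c0, ball_mem_nhds 0 hr] with ζ c1 c2
    have c3 := sz ζ (mem_ball_zero_iff.1 c2)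
    exact ((((O.hlam n).1.contDiffAt (isOpen_ball.mem_nhds c1)).continuousAt.comp
      c3.continuousAt).const_smul t).clm_comp (c3.continuousAt_fderiv (by simp))
  have h1 := c1_res (G := φ0 ∘ z) (small.mono fun ζ hζ =>
    (hφ0 _ (H' ζ hζ.1 hζ.2).1).1.comp ζ (sz ζ hζ.2)) sz0 (-e)
  have h2 := res_orb hN (hφ.mono fun _ h => h.1) ?_ h1
  · convert h2 using 2
    rw [he, smul_eq_mul]; push_cast; ring
  have tp := mon_tendsto hN p
  filter_upwards [small, tp.eventually hφ, tp.eventually P1, tp.eventually (C.ev_F p)]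
    with ζ ⟨h0, h1⟩ q1 q2 q3 v
  obtain ⟨a1, a2, -⟩ := H' _ h0 h1
  have hi : C.u (p + ζ ^ O.N n) ∈ O.W := C.mu q3
  have yi := (h _ hi).2.1
  generalize hx : C.u (p + ζ ^ O.N n) = x at hi
  rw [hx] at yi
  have yi' : C.u (p + ζ ^ O.N n) ∈ U x := hx ▸ yi
  have yi'' : O.Pi n (z ζ) ∈ U x := a2 ▸ yi'
  have hp := (hasDerivAt_pow (O.N n) ζ).const_add p
  have hp' : DifferentiableAt ℝ (fun w : ℂ => p + w ^ O.N n) ζ := by fun_prop
  have dz := cd_diff (sz ζ h1)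
  obtain ⟨b1, b2, -⟩ := h.coef n hi a1 yi''
  have e1 : (C.u ∘ fun w => p + w ^ O.N n) =ᶠ[𝓝 ζ] O.Pi n ∘ z :=
    (nb ζ h0 h1).mono fun w hw => (H' w hw.1 hw.2).2.1.symm
  have e2 := (pull1_comp (g := fun w : ℂ => p + w ^ O.N n) (brk_md (C.cm q3)) hp' (a x)).symm.trans
    ((pull1_congr e1 (a x)).self_of_nhds.trans (pull1_comp (brk_md (O.Pi_cm n a1)) dz (a x)))
  have e3 : (fun w => T x (rt (p + w ^ O.N n))) =ᶠ[𝓝 ζ] fun w => w ^ e * O.coef n Ω x (z w) := by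
    filter_upwards [nb ζ h0 h1, loc x hi ζ h0 h1 yi'] with w w1 w2
    rw [← w2]
    exact C1s.eq_of_pow hN (mon_prim hN) (inv x) w1.1 w1.2 (add_left_cancel (r1 _))
  have e4 := (darg_comp (f := fun s => T x (rt s)) (u := fun w : ℂ => p + w ^ O.N n)
    (cd_diff (q2 x hi yi').1) hp').symm.trans
    ((darg_congr e3).trans (darg_mul (f := fun w => w ^ e) (by fun_prop) ((cd_diff b1).comp ζ dz)
      (pow_ne_zero _ h0) b2))
  rw [darg_pow (f := fun w => w) differentiableAt_id h0,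
    darg_comp (f := O.coef n Ω x) (u := z) (cd_diff b1) dz] at e4
  have e5 := congrArg (fun L : E →L[ℝ] ℝ => L (fderiv ℝ z ζ v)) ((hφ0 _ a1).2 x hi yi'')
  have e6 := congrArg (fun L : ℂ →L[ℝ] ℝ => L v) e2
  have e7 := congrArg (fun L : ℂ →L[ℝ] ℝ => L v) e4
  rw [q1.2 x hi yi', ← brk_fderiv hp, fderiv_comp ζ (cd_diff (hφ0 _ a1).1) dz]
  simp only [ContinuousLinearMap.comp_apply, add_apply, sub_apply, smul_apply, smul_eq_mul]
    at e5 e6 e7 ⊢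
  linarith

theorem OC.c1_int (C : OC O) {ι j} (h : C.Mon ι j) :
    ∃ z : ℤ, C.c1 = z + ∑ a, ((1 + O.a (ι a)) * j a : ℝ) / O.N (ι a) := by
  classical
  have hW : IsOpen O.W := (isClosed_iUnion_of_finite O.closed).isOpen_compl
  obtain ⟨U, Ω, a, g, H⟩ : ∃ U Ω a g, ChD O.W O.J ((2 * Real.pi * c.κ) • c.om) U Ω a g :=
    chern_of_tame hW O.tame
  have op : ∀ i : O.W, IsOpen ((C.F : Set ℂ)ᶜ ∩ C.u ⁻¹' U i) := fun i =>
    C.hu.1.continuousOn.isOpen_inter_preimage C.isOpen_F (H i i.2).1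
  obtain ⟨r, hr, hv⟩ := C.hv
  have v0 : SmAt ∞ C.v 0 := hv.1.contMDiffAt (ball_mem_nhds 0 hr)
  obtain ⟨K, R, hK⟩ := C.pull1_decay
    ((H _ C.v0).2.2.2.2.1.sm1.smooth (H _ C.v0).1 v0 (H _ C.v0).2.1).continuousAt
  have co : Bornology.cobounded ℂ = cocompact ℂ := Metric.cobounded_eq_cocompact
  have nt : Tendsto (fun z : ℂ => ‖z‖) (Bornology.cobounded ℂ) atTop :=
    tendsto_norm_cobounded_atTop (E := ℂ)
  obtain ⟨k, hk⟩ := C1.conn_int C.F op (g := fun i k => g i k ∘ C.u)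
    (a := fun i => pull1 C.u (a i))
    (κ := fun s => (2 * Real.pi * c.κ) * pull2 C.u c.om s 1 .I)
    (ρ := fun p => if hp : p ∈ C.F then -(2 * Real.pi *
      (((1 + O.a (ι ⟨p, hp⟩)) * j ⟨p, hp⟩ : ℝ) / O.N (ι ⟨p, hp⟩))) else 0)
    (fun z hz => ⟨⟨_, C.mu hz⟩, hz, (H _ (C.mu hz)).2.1⟩) (fun _ _ hz => hz.1)
    (fun i k z hz => (H.pull i.2 k.2 (C.cm hz.1.1) hz.1.2 hz.2.2).1.contDiffWithinAt)
    (fun i z hz => H.one i.2 hz.2) (fun i j k z a b c => H.coc i.2 j.2 k.2 a.2 b.2 c.2)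
    ((C.integrable c.hom.1 (.inr rfl)).const_mul _)
    (fun i z hz => ⟨((H i i.2).2.2.2.2.1.sm1.smooth (H i i.2).1 (C.cm hz.1) hz.2).of_le (by simp),
      by
        have := (H i i.2).2.2.2.2.1.pull (H i i.2).1 ((C.cm hz.1).of_le two_le) hz.2
        rw [pull2_smul] at this
        exact (congrArg (fun B : Bil ℂ ℝ => B 1 .I) this).symm⟩)
    (fun i k z a b => (H.pull i.2 k.2 (C.cm a.1) a.2 b.2).2) (fun p hp => by
      obtain ⟨z, hz⟩ := (h ⟨p, hp⟩).2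
      obtain ⟨f, f1, f2⟩ := H.punct hz
      refine ⟨fun i => f i, f1.mono fun s hs i yi => ⟨(hs i i.2 yi.2).1, (hs i i.2 yi.2).2.1,
        fun k yk => (hs i i.2 yi.2).2.2 k k.2 yk.2⟩, fun φ hφ => ?_⟩
      simp only [dif_pos hp]
      refine f2 φ ?_
      filter_upwards [hφ, C.ev_F p] with s hs hs'
      exact ⟨hs.1, fun i hi yi => hs.2 ⟨i, hi⟩ ⟨hs', yi⟩⟩) (i0 := ⟨_, C.v0⟩) (by
      rw [co]
      filter_upwards [C.F.finite_toSet.isCompact.compl_mem_cocompact, oci_inv.eventually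
        (nhdsWithin_le_nhds (v0.continuousAt.eventually_mem ((H _ C.v0).1.mem_nhds
          (H _ C.v0).2.1))), oci_inv.eventually self_mem_nhdsWithin] with s s1 s2 s3
      rw [C.uv _ s3, inv_inv] at s2
      exact ⟨s1, s2⟩) (by
      refine squeeze_zero' (.of_forall fun _ => by positivity) ?_ (nt.const_div_atTop K)
      filter_upwards [nt.eventually_ge_atTop R, nt.eventually_gt_atTop 0] with s s1 s2
      refine (mul_le_mul_of_nonneg_left (hK s s1) s2.le).trans (le_of_eq ?_)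
      field_simp)
  refine ⟨k, mul_left_cancel₀ Real.two_pi_pos.ne' ?_⟩
  rw [integral_const_mul, ← Finset.sum_coe_sort] at hk
  simp only [Finset.coe_mem, dif_pos, Subtype.coe_eta, Finset.sum_neg_distrib,
    ← Finset.mul_sum] at hk
  rw [OC.c1, per, ← mul_assoc, hk]
  ring

end Pool.Agent.Lib.MP_1c0d65_gt.PW
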