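import Pool.Agent.Lib.MP_1c0d65_gt.E.C1s

/-! The integral of the curvature of a unitary connection on a punctured sphere. -/

set_option autoImplicit false

open Set Filter Topology Complex Metric Bornology MeasureTheory
open scoped Real ContDiff

namespace Pool.Agent.Lib.MP_1c0d65_gt.C1

open W

theorem conn_int {ι : Type} (F : Finset ℂ) {U : ι → Set ℂ} (hU : ∀ i, IsOpen (U i))
    (cov : ∀ z ∉ F, ∃ i, z ∈ U i) (UF : ∀ i, ∀ z ∈ U i, z ∉ F) {g : ι → ι → ℂ → ℂ}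
    (hg : ∀ i j, ContDiffOn ℝ ∞ (g i j) (U i ∩ U j)) (h1 : ∀ i, ∀ z ∈ U i, g i i z = 1)
    (hc : ∀ i j k, ∀ z ∈ U i, z ∈ U j → z ∈ U k → g i j z * g j k z = g i k z)
    {a : ι → ℂ → ℂ →L[ℝ] ℝ} {κ : ℂ → ℝ} (hκ : Integrable κ)
    (ha : ∀ i, ∀ z ∈ U i, ContDiffAt ℝ 1 (a i) z ∧ dd (a i) z = κ z)
    (hag : ∀ i k, ∀ z ∈ U i, z ∈ U k → a i z - a k z = darg (g i k) z) {ρ : ℂ → ℝ}
    (pun : ∀ p ∈ F, ∃ f : ι → ℂ → ℂ, (∀ᶠ z in 𝓝[≠] p, ∀ i, z ∈ U i →
      ContDiffAt ℝ ∞ (f i) z ∧ f i z ≠ 0 ∧ ∀ k, z ∈ U k → f i z = g i k z * f k z) ∧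
        ∀ φ : ℂ → ℂ →L[ℝ] ℝ, (∀ᶠ z in 𝓝[≠] p, ContinuousAt φ z ∧
          ∀ i, z ∈ U i → φ z = a i z - darg (f i) z) → Tendsto (cp φ p) (𝓝[>] 0) (𝓝 (ρ p)))
    {i0 : ι} (hi : ∀ᶠ z in cobounded ℂ, z ∈ U i0)
    (hi' : Tendsto (fun z => ‖z‖ * ‖a i0 z‖) (cobounded ℂ) (𝓝 0)) :
    ∃ k : ℤ, ∫ z, κ z = 2 * π * k - ∑ p ∈ F, ρ p := by
  classical
  choose! f hf hφ using pun
  obtain ⟨D, hD, hD'⟩ := F.finite_toSet.t2_separation
  have hB := fun p (hp : p ∈ F) => _root_.eventually_nhds_iff.1 (eventually_nhdsWithin_iff.1 (hf p hp))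
  choose! B hB oB pB using hB
  let U' : ι ⊕ F → Set ℂ := Sum.elim U fun p => B p ∩ D p
  let g' : ι ⊕ F → ι ⊕ F → ℂ → ℂ := Sum.elim (fun i => Sum.elim (g i) fun p => f p i)
    fun p => Sum.elim (fun i z => (f p i z)⁻¹) fun _ _ => 1
  have key : ∀ (p : F) i, ∀ z ∈ U i, z ∈ B p → _ := fun p i z hz hz' =>
    hB p p.2 z hz' (fun e => UF i z hz (mem_singleton_iff.1 e ▸ p.2)) i hz
  have dj : ∀ (p q : F) z, z ∈ D p → z ∈ D q → p = q := fun p q z h h' =>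
    Subtype.ext (hD'.elim_set p.2 q.2 z h h')
  have oU : ∀ x, IsOpen (U' x) := by
    rintro (i | p)
    exacts [hU i, (oB p p.2).inter (hD p).2]
  obtain ⟨s, s1, s2, s3⟩ := C1s.exists_section_plane' (n := ⊤) (g := g') oU (by
    rintro (i | p) (k | q)
    · exact hg i k
    · exact fun z hz => (key q i z hz.1 hz.2.1).1.contDiffWithinAt
    · exact fun z hz => ((key p k z hz.2 hz.1.1).1.inv (key p k z hz.2 hz.1.1).2.1).contDiffWithinAt
    · exact contDiffOn_const) (by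
    rintro (i | p)
    exacts [h1 i, fun _ _ => rfl]) (by
    rintro (i | p) (j | q) (k | r) z hx hy hz
    · exact hc i j k z hx hy hz
    · exact ((key r i z hx hz.1).2.2 j hy).symm
    · exact (mul_inv_eq_iff_eq_mul₀ (key q k z hz hy.1).2.1).2 ((key q i z hx hy.1).2.2 k hz)
    · obtain rfl := dj q r z hy.2 hz.2
      exact mul_one _
    · have e1 := (key p j z hy hx.1).2.2 k hz
      have e2 := (key p j z hy hx.1).2.1
      have e3 := (key p k z hz hx.1).2.1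
      change (f p j z)⁻¹ * g j k z = (f p k z)⁻¹
      field_simp
      rw [e1, mul_comm]
    · obtain rfl := dj p r z hx.2 hz.2
      exact inv_mul_cancel₀ (key p j z hy hx.1).2.1
    · obtain rfl := dj p q z hx.2 hy.2
      exact one_mul _
    · exact one_mul _) (fun z => by
    by_cases hz : z ∈ F
    · exact ⟨.inr ⟨z, hz⟩, pB z hz, (hD z).1⟩
    · exact (cov z hz).elim fun i h => ⟨.inl i, h⟩) (i0 := .inl i0) hi
  have sm : ∀ x, ∀ z ∈ U' x, ContDiffAt ℝ ∞ (s x) z := fun x z hz =>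
    (s1 x).contDiffAt ((oU x).mem_nhds hz)
  have g0 : ∀ x y, ∀ z ∈ U' x, z ∈ U' y → g' x y z ≠ 0 := fun x y z h h' e =>
    s2 x z h (by rw [s3 x y z h h', e, zero_mul])
  have ds : ∀ x y, ∀ z ∈ U' x, z ∈ U' y → ContDiffAt ℝ ∞ (g' x y) z →
      darg (s x) z = darg (g' x y) z + darg (s y) z := fun x y z h h' hs => by
    rw [← darg_mul (hs.differentiableAt (by simp)) ((sm y z h').differentiableAt (by simp))
      (g0 x y z h h') (s2 y z h')]
    refine darg_congr ?_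
    filter_upwards [(oU x).mem_nhds h, (oU y).mem_nhds h'] with w a b using s3 x y w a b
  let ψ : ℂ → ℂ →L[ℝ] ℝ := fun z =>
    if h : ∃ i, z ∈ U i then a h.choose z - darg (s (.inl h.choose)) z else 0
  have e1 : ∀ i, ∀ z ∈ U i, ψ z = a i z - darg (s (.inl i)) z := fun i z hz => by
    have h : ∃ i, z ∈ U i := ⟨i, hz⟩
    have h2 := ds (.inl h.choose) (.inl i) z h.choose_spec hz
      ((hg _ _).contDiffAt (((hU _).inter (hU _)).mem_nhds ⟨h.choose_spec, hz⟩))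
    have h3 := hag _ i z h.choose_spec hz
    simp only [ψ, dif_pos h]
    rw [h2, show g' (.inl h.choose) (.inl i) = g h.choose i from rfl, ← h3]
    abel
  have sd : ∀ x, ∀ z ∈ U' x, ContDiffAt ℝ 1 (darg (s x)) z := fun x z hz =>
    contDiffAt_darg (n := 2) ((sm x z hz).of_le (WithTop.coe_le_coe.2 (le_top (a := (2 : ℕ∞)))))
      (s2 x z hz) (by norm_num)
  have e2 : ∀ z ∉ F, ContDiffAt ℝ 1 ψ z ∧ dd ψ z = κ z := fun z hz => by
    obtain ⟨i, h⟩ := cov z hz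
    have h2 : ContDiffAt ℝ 1 ψ z := ((ha i z h).1.sub (sd (.inl i) z h)).congr_of_eventuallyEq
      (by filter_upwards [(hU i).mem_nhds h] with w hw using e1 i w hw)
    have h3 := dd_add (h2.differentiableAt one_ne_zero)
      ((sd (.inl i) z h).differentiableAt one_ne_zero)
    rw [dd_darg ((sm (.inl i) z h).of_le (WithTop.coe_le_coe.2 (le_top (a := (2 : ℕ∞)))))
      (s2 (.inl i) z h), add_zero] at h3
    refine ⟨h2, ?_⟩
    rw [← h3, ← (ha i z h).2]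
    refine dd_congr ?_
    filter_upwards [(hU i).mem_nhds h] with w hw
    rw [e1 i w hw, sub_add_cancel]
  have e3 : dd ψ =ᵐ[volume] κ := by
    filter_upwards [F.finite_toSet.countable.ae_notMem volume] with z hz using (e2 z hz).2
  obtain ⟨k, hk⟩ := (end_inf 0).exists_idx (f := s (.inl i0))
    (hi.mono fun z hz => ⟨(sm (.inl i0) z hz).continuousAt, s2 (.inl i0) z hz⟩)
  have e4 := HasInf.res (ψ := ψ) (lam := -1) hk (hi.mono fun z hz =>
    ⟨(sm (.inl i0) z hz).of_le (by simp), (e2 z (UF i0 z hz)).1.continuousAt⟩)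
    (hi'.congr' (hi.mono fun z hz => by
      beta_reduce
      rw [e1 i0 z hz]; congr 2; ext v; simp))
  refine ⟨-k, ?_⟩
  rw [← integral_congr_ae e3, green F (c := ρ) (fun z hz => (e2 z hz).1) (hκ.congr e3.symm)
    (fun p hp => ?_) e4]
  · push_cast; ring
  have hp' : p ∈ U' (.inr ⟨p, hp⟩) := ⟨pB p hp, (hD p).1⟩
  have ev : ∀ᶠ z in 𝓝[≠] p, ContinuousAt ψ z ∧ ContinuousAt (darg (s (.inr ⟨p, hp⟩))) z ∧
      ∀ i, z ∈ U i → ψ z + darg (s (.inr ⟨p, hp⟩)) z = a i z - darg (f p i) z := by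
    filter_upwards [nhdsWithin_le_nhds ((oU _).mem_nhds hp'), self_mem_nhdsWithin] with z hz hne
    have hz' : z ∉ F := fun h =>
      hne (congrArg Subtype.val (dj ⟨z, h⟩ ⟨p, hp⟩ z (hD z).1 hz.2))
    refine ⟨(e2 z hz').1.continuousAt, (sd _ z hz).continuousAt, fun i h => ?_⟩
    rw [e1 i z h, ds (.inl i) (.inr ⟨p, hp⟩) z h hz (key ⟨p, hp⟩ i z h hz.1).1]
    change _ - (darg (f p i) z + _) + _ = _
    abel
  have := (hφ p hp (fun z => ψ z + darg (s (.inr ⟨p, hp⟩)) z)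
    (ev.mono fun z hz => ⟨hz.1.add hz.2.1, hz.2.2⟩)).sub (cp_cont (sd _ p hp').continuousAt)
  rw [sub_zero] at this
  refine this.congr' ?_
  filter_upwards [rad_pn ev] with r hr
  rw [cp_add (fun θ => (hr.2 θ).1) fun θ => (hr.2 θ).2.1, add_sub_cancel_right]

end Pool.Agent.Lib.MP_1c0d65_gt.C1
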