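import Pool.Agent.Lib.MP_1c0d65_gt.Top.Frame
import Pool.Agent.Lib.MP_1c0d65_gt.W.Arg

/-! Sections of cocycles on the plane, periods under powers, descent along roots. -/

set_option autoImplicit false

open Set Filter Topology Metric Complex
open scoped ContDiff Real

namespace Pool.Agent.Lib.MP_1c0d65_gt.C1s

theorem exists_squeeze {ρ : ℝ} (hρ : 0 < ρ) : ∃ φ : ℂ → ℂ, (∀ z, z ≠ 0 → ContDiffAt ℝ ∞ φ z) ∧
    (∀ z, ‖z‖ ≤ 2 * ρ → φ z = z) ∧ ∀ z, 2 * ρ ≤ ‖z‖ → 2 * ρ ≤ ‖φ z‖ ∧ ‖φ z‖ ≤ 3 * ρ := by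
  let b : ContDiffBump (0 : ℂ) := ⟨2 * ρ, 3 * ρ, by positivity, by linarith⟩
  refine ⟨fun z => (b z + (1 - b z) * (2 * ρ / ‖z‖)) • z, fun z hz => ?_, fun z hz => ?_,
    fun z hz => ?_⟩
  · have hb : ContDiffAt ℝ ∞ b z := b.contDiff.contDiffAt
    exact (hb.add ((contDiffAt_const.sub hb).mul (contDiffAt_const.div
      (contDiffAt_norm ℝ hz) (norm_ne_zero_iff.2 hz)))).smul contDiffAt_id
  · have : b z = 1 := b.one_of_mem_closedBall (mem_closedBall_zero_iff.2 hz)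
    simp [this]
  · have h0 : 0 < ‖z‖ := lt_of_lt_of_le (by positivity) hz
    have h1 := b.nonneg (x := z)
    have h2 := b.le_one (x := z)
    have h3 : 0 ≤ (1 - b z) * (2 * ρ / ‖z‖) := mul_nonneg (by linarith) (by positivity)
    have e : ‖(b z + (1 - b z) * (2 * ρ / ‖z‖)) • z‖ = b z * ‖z‖ + (1 - b z) * (2 * ρ) := by
      rw [norm_smul, Real.norm_of_nonneg (by linarith)]
      field_simp
    rw [e]
    refine ⟨by nlinarith, ?_⟩
    rcases le_total ‖z‖ (3 * ρ) with h | h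
    · nlinarith
    · have : b z = 0 := b.zero_of_le_dist (by simpa using h)
      rw [this]; linarith

/-- A smooth cocycle on the plane, with one chart at infinity, is a coboundary. -/
theorem exists_section_plane {n : ℕ∞} {ι : Type*} {U : ι → Set ℂ} (hU : ∀ i, IsOpen (U i))
    {g : ι → ι → ℂ → ℂ} (hg : ∀ i j, ContDiffOn ℝ n (g i j) (U i ∩ U j))
    (h1 : ∀ i, ∀ z ∈ U i, g i i z = 1)
    (hc : ∀ i j k, ∀ z ∈ U i, z ∈ U j → z ∈ U k → g i j z * g j k z = g i k z)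
    (cov : ∀ z, ∃ i, z ∈ U i) {i0 : ι} {R : ℝ} (hR : ∀ z, R ≤ ‖z‖ → z ∈ U i0) :
    ∃ s : ι → ℂ → ℂ, (∀ i, ContDiffOn ℝ n (s i) (U i)) ∧ (∀ i, ∀ z ∈ U i, s i z ≠ 0) ∧
      ∀ i j, ∀ z ∈ U i, z ∈ U j → s i z = g i j z * s j z := by
  classical
  obtain ⟨ρ, hρ, hR'⟩ : ∃ ρ > 0, ∀ z, ρ ≤ ‖z‖ → z ∈ U i0 :=
    ⟨max R 1, by positivity, fun z hz => hR z ((le_max_left _ _).trans hz)⟩
  obtain ⟨φ, p1, p2, p3⟩ := exists_squeeze hρ
  obtain ⟨V, s, hV, hK, s1, s2, s3⟩ := Top.exists_section hU hg h1 hc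
    (isCompact_closedBall (0 : ℂ) (3 * ρ)) (convex_closedBall _ _) fun z _ => mem_iUnion.2 (cov z)
  have hV' : ∀ z, ‖z‖ ≤ 3 * ρ → z ∈ V := fun z hz => hK (mem_closedBall_zero_iff.2 hz)
  have hφ : ∀ z, 2 * ρ ≤ ‖z‖ → φ z ∈ V ∩ U i0 := fun z hz =>
    ⟨hV' _ (p3 z hz).2, hR' _ (le_trans (by linarith) (p3 z hz).1)⟩
  refine ⟨fun i z => if ‖z‖ < 2 * ρ then s i z else g i i0 z * s i0 (φ z), fun i z hz => ?_,
    fun i z hz => ?_, fun i j z hi hj => ?_⟩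
  · refine ContDiffAt.contDiffWithinAt ?_
    by_cases h : ‖z‖ < 2 * ρ
    · refine ((s1 i).contDiffAt ((hV.inter (hU i)).mem_nhds
        ⟨hV' z (by linarith), hz⟩)).congr_of_eventuallyEq ?_
      filter_upwards [(isOpen_lt continuous_norm continuous_const).mem_nhds h] with y hy
      exact if_pos hy
    · have h' := not_lt.1 h
      have h2 : ρ < ‖z‖ := by linarith
      have h3 := ((s1 i0).contDiffAt ((hV.inter (hU i0)).mem_nhds (hφ z h'))).comp z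
        ((p1 z (norm_pos_iff.1 (hρ.trans h2))).of_le (by exact_mod_cast le_top))
      refine (((hg i i0).contDiffAt (((hU i).inter (hU i0)).mem_nhds
        ⟨hz, hR' z h2.le⟩)).mul h3).congr_of_eventuallyEq ?_
      filter_upwards [(isOpen_lt continuous_const continuous_norm).mem_nhds h2,
        (hU i).mem_nhds hz] with y hy hy'
      split_ifs with h4
      · rw [Function.comp_apply, p2 y h4.le]
        exact s3 i i0 y hy' (hR' y (le_of_lt hy))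
      · rfl
  · dsimp only
    split_ifs with h
    · exact s2 i z (hV' z (by linarith)) hz
    · have h' := not_lt.1 h
      have h0 := hR' z (by linarith)
      refine mul_ne_zero (left_ne_zero_of_mul_eq_one (b := g i0 i z) ?_)
        (s2 i0 _ (hφ z h').1 (hφ z h').2)
      rw [hc i i0 i z hz h0 hz, h1 i z hz]
  · dsimp only
    split_ifs with h
    · exact s3 i j z hi hj
    · rw [← mul_assoc, hc i j i0 z hi hj (hR' z (by linarith [not_lt.1 h]))]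

/-- The period of a form that is pulled back by a power. -/
theorem cp_pow {G : Type*} [NormedAddCommGroup G] [NormedSpace ℝ G] {ψ φ : ℂ → ℂ →L[ℝ] G} {a : ℂ}
    {r : ℝ} {N : ℕ} (hN : N ≠ 0) (hψ : ∀ θ, ContinuousAt ψ (circleMap a (r ^ N) θ))
    (h : ∀ θ v, φ (circleMap 0 r θ) v =
      ψ (a + circleMap 0 r θ ^ N) (N * circleMap 0 r θ ^ (N - 1) * v)) :
    W.cp φ 0 r = (N : ℝ) • W.cp ψ a (r ^ N) := by
  set F : ℝ → G := fun θ => ψ (circleMap a (r ^ N) θ) (circleMap 0 (r ^ N) θ * I) with hF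
  have hp : Function.Periodic F (2 * π) := fun θ => by
    simp only [hF, periodic_circleMap _ _ θ]
  have hc : Continuous F := by
    have h1 : Continuous fun θ => ψ (circleMap a (r ^ N) θ) :=
      continuous_iff_continuousAt.2 fun θ => (hψ θ).comp (continuous_circleMap _ _).continuousAt
    exact h1.clm_apply ((continuous_circleMap 0 _).mul continuous_const)
  have e : ∀ θ, φ (circleMap 0 r θ) (circleMap 0 r θ * I) = (N : ℝ) • F (N * θ) := fun θ => by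
    have h1 : circleMap 0 r θ ^ N = circleMap 0 (r ^ N) (N * θ) := circleMap_zero_pow _ _ _
    have h2 : circleMap a (r ^ N) (N * θ) = a + circleMap 0 (r ^ N) (N * θ) := by
      simp [circleMap]
    rw [h, hF]
    simp only
    rw [h2, ← h1, ← map_smul, ← mul_assoc, mul_assoc (N : ℂ), pow_sub_one_mul hN]
    simp [mul_assoc]
  have h3 := hp.intervalIntegral_add_zsmul_eq (N : ℤ) (N * -π)
    fun t1 t2 => hc.intervalIntegrable t1 t2
  rw [hp.intervalIntegral_add_eq _ (-π), show -π + 2 * π = π by ring,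
    show N * -π + (N : ℤ) • (2 * π) = N * π by simp; ring] at h3
  simp only [W.cp, e]
  rw [intervalIntegral.integral_smul, intervalIntegral.smul_integral_comp_mul_left, h3,
    natCast_zsmul, Nat.cast_smul_eq_nsmul]

theorem exists_section_plane' {n : ℕ∞} {ι : Type*} {U : ι → Set ℂ} (hU : ∀ i, IsOpen (U i))
    {g : ι → ι → ℂ → ℂ} (hg : ∀ i j, ContDiffOn ℝ n (g i j) (U i ∩ U j))
    (h1 : ∀ i, ∀ z ∈ U i, g i i z = 1)
    (hc : ∀ i j k, ∀ z ∈ U i, z ∈ U j → z ∈ U k → g i j z * g j k z = g i k z)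
    (cov : ∀ z, ∃ i, z ∈ U i) {i0 : ι} (hi : ∀ᶠ z in Bornology.cobounded ℂ, z ∈ U i0) :
    ∃ s : ι → ℂ → ℂ, (∀ i, ContDiffOn ℝ n (s i) (U i)) ∧ (∀ i, ∀ z ∈ U i, s i z ≠ 0) ∧
      ∀ i j, ∀ z ∈ U i, z ∈ U j → s i z = g i j z * s j z := by
  obtain ⟨r, -, h⟩ := (W.inf_iff 0).1 hi
  exact exists_section_plane hU hg h1 hc cov (R := r + 1) fun z hz =>
    h z (by rw [sub_zero]; linarith)

/-- The residue of a form from the residue of its pull-back by a power. -/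
theorem tendsto_cp_pow {ψ : ℂ → ℂ →L[ℝ] ℝ} {a : ℂ} {N : ℕ} (hN : N ≠ 0) {ρ : ℝ}
    (hψ : ∀ᶠ z in 𝓝[≠] a, ContinuousAt ψ z)
    (h : Tendsto (W.cp (fun ζ => (ψ (a + ζ ^ N)).comp (fderiv ℝ (fun t => a + t ^ N) ζ)) 0)
      (𝓝[>] 0) (𝓝 (N * ρ))) : Tendsto (W.cp ψ a) (𝓝[>] 0) (𝓝 ρ) := by
  have hN' : (N : ℝ) ≠ 0 := Nat.cast_ne_zero.2 hN
  have h1 : Tendsto (fun r : ℝ => r ^ (N : ℝ)⁻¹) (𝓝[>] 0) (𝓝[>] 0) := by
    refine tendsto_nhdsWithin_iff.2 ⟨?_, eventually_mem_nhdsWithin.mono fun r hr =>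
      Real.rpow_pos_of_pos hr _⟩
    have := (Real.continuousAt_rpow_const 0 (N : ℝ)⁻¹ (Or.inr (by positivity))).tendsto
    rw [Real.zero_rpow (inv_ne_zero hN')] at this
    exact this.mono_left nhdsWithin_le_nhds
  have h2 := (h.comp h1).const_mul (N : ℝ)⁻¹
  rw [inv_mul_cancel_left₀ hN'] at h2
  refine h2.congr' ?_
  filter_upwards [W.rad_pn hψ] with r hr
  have e : (r ^ (N : ℝ)⁻¹) ^ N = r := Real.rpow_inv_natCast_pow hr.1.le hN
  rw [Function.comp_apply, cp_pow (ψ := ψ) (a := a) hN (by rw [e]; exact hr.2) fun θ v => ?_, e,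
    smul_eq_mul, inv_mul_cancel_left₀ hN']
  rw [ContinuousLinearMap.comp_apply, (((hasDerivAt_pow N _).const_add a).hasFDerivAt.restrictScalars
    ℝ).fderiv]
  simp [mul_comm]

theorem inv_pow_root {G : Type*} {T : ℂ → G} {ε : ℂ} (hε : ‖ε‖ = 1) {r : ℝ}
    (hT : ∀ ζ, ζ ≠ 0 → ‖ζ‖ < r → T (ε * ζ) = T ζ) (m : ℕ) {ζ : ℂ} (h0 : ζ ≠ 0) (h1 : ‖ζ‖ < r) :
    T (ε ^ m * ζ) = T ζ := by
  induction m with
  | zero => simp
  | succ m ih =>
    rw [pow_succ', mul_assoc, hT _ ?_ (by simpa [hε] using h1), ih]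
    exact norm_pos_iff.1 (by simpa [hε] using h0)

/-- An invariant function takes the same value at all roots. -/
theorem eq_of_pow {G : Type*} {T : ℂ → G} {ε : ℂ} {N : ℕ} (hN : N ≠ 0) (hε : IsPrimitiveRoot ε N)
    {r : ℝ} (hT : ∀ ζ, ζ ≠ 0 → ‖ζ‖ < r → T (ε * ζ) = T ζ) {ζ ζ' : ℂ} (h0 : ζ ≠ 0) (h1 : ‖ζ‖ < r)
    (h : ζ' ^ N = ζ ^ N) : T ζ' = T ζ := by
  have : NeZero N := ⟨hN⟩
  obtain ⟨m, -, hm⟩ := hε.eq_pow_of_pow_eq_one (ξ := ζ' / ζ) (by
    rw [div_pow, h, div_self (pow_ne_zero _ h0)])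
  rw [← inv_pow_root (hε.norm'_eq_one hN) hT m h0 h1, hm, div_mul_cancel₀ _ h0]

/-- A smooth local root. -/
theorem exists_root {N : ℕ} (hN : N ≠ 0) {a s0 ζ0 : ℂ} (hs : s0 ≠ a) (h : a + ζ0 ^ N = s0) :
    ∃ σ : ℂ → ℂ, σ s0 = ζ0 ∧ ContDiffAt ℂ ∞ σ s0 ∧ ∀ s, s ≠ a → a + σ s ^ N = s := by
  have h0 : s0 - a ≠ 0 := sub_ne_zero.2 hs
  refine ⟨fun s => ζ0 * exp (log ((s - a) / (s0 - a)) / N), by simp [h0], ?_, fun s hs' => ?_⟩
  · have h1 : ContDiffAt ℂ ∞ (fun s => log ((s - a) / (s0 - a))) s0 :=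
      ContDiffAt.comp (g := log) s0 (contDiffAt_log (by simp [h0])) (by fun_prop)
    exact contDiffAt_const.mul (h1.div_const _).cexp
  · have h2 : ζ0 ^ N = s0 - a := by rw [← h]; ring
    rw [mul_pow, ← exp_nat_mul, mul_div_cancel₀ _ (Nat.cast_ne_zero.2 hN),
      exp_log (div_ne_zero (sub_ne_zero.2 hs') h0), h2]
    field_simp
    ring

/-- Descent of an invariant smooth function along any choice of roots. -/
theorem desc {G : Type*} [NormedAddCommGroup G] [NormedSpace ℝ G] {T : ℂ → G} {ε : ℂ} {N : ℕ}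
    (hN : N ≠ 0) (hε : IsPrimitiveRoot ε N) {r : ℝ}
    (hT : ∀ ζ, ζ ≠ 0 → ‖ζ‖ < r → T (ε * ζ) = T ζ) {a s0 : ℂ} {rt : ℂ → ℂ}
    (hrt : ∀ s, a + rt s ^ N = s) (hs : s0 ≠ a) (hr : ‖rt s0‖ < r) {n : ℕ∞}
    (h : ContDiffAt ℝ n T (rt s0)) : ContDiffAt ℝ n (fun s => T (rt s)) s0 := by
  obtain ⟨σ, s1, s2, s3⟩ := exists_root hN hs (hrt s0)
  have s4 : ContDiffAt ℝ n σ s0 := (s2.restrict_scalars ℝ).of_le (by exact_mod_cast le_top)
  refine ((s1 ▸ h : ContDiffAt ℝ n T (σ s0)).comp s0 s4).congr_of_eventuallyEq ?_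
  filter_upwards [isOpen_ne.mem_nhds hs, s4.continuousAt.norm.eventually
    (gt_mem_nhds (s1 ▸ hr : ‖σ s0‖ < r))] with s h1 h2
  refine eq_of_pow hN hε hT (fun h3 => h1 ?_) h2 (add_left_cancel ((hrt s).trans (s3 s h1).symm))
  rw [← s3 s h1, h3, zero_pow hN, add_zero]

end Pool.Agent.Lib.MP_1c0d65_gt.C1s
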