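import Pool.Agent.Lib.MP_1c0d65_gt.E.DA
import Pool.Agent.Lib.MP_1c0d65_gt.PW.StD

/-! From local equations with smooth ratios to the connection and its curvature. -/

set_option autoImplicit false
set_option linter.unusedSectionVars false

open scoped Manifold ContDiff Topology ComplexConjugate
open Set Filter

noncomputable section

namespace Pool.Agent.Lib.MP_1c0d65_gt.PW

variable {X : Type} [TopologicalSpace X] [ChartedSpace E X] [IsManifold 𝓘(ℝ, E) ∞ X]
  [MeasurableSpace X] {c : Ctx X} {O : Orb c} {C : OC O} {D : Bad C} {S : Site D}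

/-- Local equations everywhere off the bad set, with smooth ratios. -/
structure Car (S : Site D) where
  U : X → Set X
  P : X → X → ℂ
  isOpen : ∀ x, IsOpen (U x)
  mem : ∀ x ∉ D.B, x ∈ U x
  sub : ∀ x, U x ⊆ D.Bᶜ
  eqn : ∀ x, ∀ y ∈ U x, Eqn C (P x) y
  rat : ∀ x x', ∀ y ∈ U x ∩ U x', ∃ g, Rat (P x) (P x') y g
  V : Set X
  isOpenV : IsOpen V
  subV : D.B ⊆ V
  VV : V ⊆ S.V
  near : ∀ x ∈ V, P x = S.P x ∧ ∀ y ∈ U x, y ∈ V → ∃ k, Rat (P x) (P y) y fun _ => k

namespace Car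

variable (K : Car S)

theorem rr_eq {P g : X → ℂ} {x y : X} (hy : y ∈ K.U x) (h : Rat P (K.P x) y g) :
    rr P (K.P x) y = dA g y :=
  h.rr_eq (Filter.mem_of_superset ((K.isOpen x).mem_nhds hy) fun w hw => (K.eqn x w hw).freq)

/-- The open cover. -/
def cov (i : Option X) : Set X := i.elim K.V K.U

theorem mem_nn {i : Option X} {y : X} (h : y ∈ K.cov i) (hy : y ∉ D.B) : y ∈ K.U (i.getD y) := by
  cases i with
  | none => exact K.mem y hy
  | some x => exact h

theorem key {i : Option X} {x y : X} (h : y ∈ K.cov i) (hy : y ∈ K.U x) :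
    ∃ N, IsOpen N ∧ y ∈ N ∧ Sm1 N fun w => rr (K.P x) (K.P (i.getD w)) w := by
  have hm := K.mem_nn h (K.sub x hy)
  obtain ⟨g, hg⟩ := K.rat x (i.getD y) y ⟨hy, hm⟩
  obtain ⟨N, h1, h2, h3⟩ := hg.isD
  have h4 : ∀ᶠ w in 𝓝 y, rr (K.P x) (K.P (i.getD w)) w = dA g w := by
    filter_upwards [hg.ev, (K.isOpen _).mem_nhds hm, show ∀ᶠ w in 𝓝 y, w ∈ K.cov i from
      (by cases i; exacts [K.isOpenV, K.isOpen _] : IsOpen (K.cov i)).mem_nhds h] with w e1 e2 e3
    cases i with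
    | some z => exact K.rr_eq e2 e1
    | none =>
      obtain ⟨k, hk⟩ := (K.near y h).2 w e2 e3
      refine (K.rr_eq (K.mem w (K.sub _ e2)) (e1.trans hk)).trans ?_
      rw [dA_mul e1.fn hk.fn e1.1 hk.1, dA_const, add_zero]
  obtain ⟨N', e1, e2, e3⟩ := mem_nhds_iff.1 h4
  exact ⟨N ∩ N', h1.inter e2, ⟨h2, e3⟩,
    (h3.sm1.mono inter_subset_left).congr fun w hw => e1 hw.2⟩

variable {s : Finset (Option X)} (ρ : s → X → ℝ)

/-- The connection form in the frame at `x`. -/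
def con (x y : X) : E →L[ℝ] ℝ := ∑ i, ρ i y • rr (K.P x) (K.P (i.1.getD y)) y

variable {ρ} (h1 : ∀ i, ContMDiff 𝓘(ℝ, E) 𝓘(ℝ, ℝ) ∞ (ρ i))
  (h2 : ∀ i, tsupport (ρ i) ⊆ K.cov i) (h3 : ∀ x, ∑ i, ρ i x = 1)

include h1 h2 in
theorem con_sm (x : X) : Sm1 (K.U x) (K.con ρ x) := by
  have : Sm1 (K.U x) (∑ i, fun y => ρ i y • rr (K.P x) (K.P (i.1.getD y)) y) := by
    refine Sm1.sum fun i _ => Sm1.glue fun y hy => ?_
    by_cases h : y ∈ tsupport (ρ i)
    · obtain ⟨N, e1, e2, e3⟩ := K.key (h2 i h) hy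
      exact ⟨N, e1, e2, e3.fsmul e1 (h1 i).contMDiffOn⟩
    · exact ⟨_, (isClosed_tsupport _).isOpen_compl, h, sm1_zero.congr fun w hw => by
        rw [image_eq_zero_of_notMem_tsupport hw, zero_smul]; rfl⟩
  exact this.congr fun y _ => by rw [Finset.sum_apply]; rfl

include h2 h3 in
theorem con_sub {x x' y : X} (hy : y ∈ K.U x') {g : X → ℂ}
    (hg : Rat (K.P x) (K.P x') y g) : K.con ρ x y - K.con ρ x' y = dA g y := by
  rw [con, con, ← Finset.sum_sub_distrib, ← one_smul ℝ (dA g y), ← h3 y, Finset.sum_smul]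
  refine Finset.sum_congr rfl fun i _ => ?_
  by_cases h : y ∈ tsupport (ρ i)
  · have hm := K.mem_nn (h2 i h) (K.sub _ hy)
    obtain ⟨g', hg'⟩ := K.rat x' _ y ⟨hy, hm⟩
    rw [K.rr_eq hm hg', K.rr_eq hm (hg.trans hg'), dA_mul hg.fn hg'.fn hg.1 hg'.1, smul_add,
      add_sub_cancel_right]
  · simp [image_eq_zero_of_notMem_tsupport h]

include h2 h3 in
theorem con_ev {x x' y : X} (hy : y ∈ K.U x') {g : X → ℂ} (hg : Rat (K.P x) (K.P x') y g) :
    ∀ᶠ w in 𝓝 y, K.con ρ x w - K.con ρ x' w = dA g w := by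
  filter_upwards [hg.ev, (K.isOpen _).mem_nhds hy] with w e1 e2
  exact K.con_sub h2 h3 e2 e1

include h1 h2 h3 in
theorem con_d {x y : X} (hy : y ∈ K.U x) : dform (K.con ρ x) y = dform (K.con ρ y) y := by
  have hm := K.mem y (K.sub x hy)
  obtain ⟨g, hg⟩ := K.rat x y y ⟨hy, hm⟩
  obtain ⟨N, e1, e2, e3⟩ := hg.isD
  have hN := e1.inter (K.isOpen y)
  have e4 := (((K.con_sm h1 h2 y).isD (K.isOpen y)).mono inter_subset_right).add
    (e3.mono inter_subset_left) hN
  have e5 := e4.eq_dform ⟨e2, hm⟩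
  rw [add_zero] at e5
  rw [e5]
  refine dform_congr ((K.con_ev h2 h3 hm hg).mono fun w hw => ?_)
  rw [Pi.add_apply, ← hw, add_sub_cancel]

/-- The set near the bad set on which only the site is seen. -/
def inn (ρ : s → X → ℝ) : Set X := K.V ∩ ⋂ i : s, {x | i.1 ≠ none → x ∉ tsupport (ρ i)}

theorem isOpen_inn : IsOpen (K.inn ρ) := K.isOpenV.inter (isOpen_iInter_of_finite fun i => by
  by_cases h : i.1 = none
  · simp [h]
  · simp only [ne_eq, h, not_false_eq_true, forall_true_left]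
    exact (isClosed_tsupport (ρ i)).isOpen_compl)

include h2 in
theorem sub_inn : D.B ⊆ K.inn ρ := fun x hx => ⟨K.subV hx, mem_iInter.2 fun ⟨i, hi⟩ h hs => by
  cases i with
  | none => exact h rfl
  | some z => exact K.sub z (h2 _ hs) hx⟩

theorem con_zero {x y : X} (hx : x ∈ K.V) (hy : y ∈ K.U x) (hy' : y ∈ K.inn ρ) :
    K.con ρ x y = 0 := Finset.sum_eq_zero fun ⟨i, hi⟩ _ => by
  cases i with
  | some z =>
    rw [image_eq_zero_of_notMem_tsupport (mem_iInter.1 hy'.2 ⟨_, hi⟩ (by simp)), zero_smul]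
  | none =>
    obtain ⟨k, hk⟩ := (K.near x hx).2 y hy hy'.1
    rw [Option.getD_none, K.rr_eq (K.mem y (K.sub _ hy)) hk, dA_const, smul_zero]

include K in
theorem exists_cur [T2Space X] [CompactSpace X] (hcl : IsClosed (C.img ∪ D.B)) :
    Nonempty (Cur S) := by
  classical
  obtain ⟨s, ρ, h1, h2, -, h3, -⟩ := St.exists_partition K.cov
    (fun i => by cases i; exacts [K.isOpenV, K.isOpen _]) fun x => by
      by_cases h : x ∈ D.B
      exacts [⟨none, K.subV h⟩, ⟨some x, K.mem x h⟩]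
  have hp : (2 * Real.pi) ≠ 0 := by positivity
  let η (y : X) : Bil E ℝ := if y ∈ D.B then 0 else (2 * Real.pi)⁻¹ • dform (K.con ρ y) y
  let U (x : X) : Set X := K.U x ∩ {y | x ∈ K.inn ρ → y ∈ K.inn ρ}
  have hU (x) : IsOpen (U x) := (K.isOpen x).inter (by
    by_cases h : x ∈ K.inn ρ
    · simpa [h] using K.isOpen_inn (ρ := ρ)
    · simp [h])
  have hD (x) : IsD (K.U x) (K.con ρ x) ((2 * Real.pi) • η) :=
    isD_of_eq (K.con_sm h1 h2 x) (K.isOpen x) fun y hy => by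
      rw [K.con_d h1 h2 h3 hy, Pi.smul_apply]
      simp only [η, if_neg (K.sub x hy), smul_inv_smul₀ hp]
  have h0 (x) (hx : x ∈ K.inn ρ) : η x = 0 := by
    by_cases h : x ∈ D.B
    · exact if_pos h
    · have : K.con ρ x =ᶠ[𝓝 x] 0 := by
        filter_upwards [(K.isOpen x).mem_nhds (K.mem x h), K.isOpen_inn.mem_nhds hx] with y e1 e2
        exact K.con_zero hx.1 e1 e2
      simp only [η, if_neg h, dform_congr this, ← (isD_zero (U := univ)).eq_dform (mem_univ x)]
      exact bil_ext fun v w => by simp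
  have hpot (x) (y) (hy : y ∈ K.U x) (h : y ∉ C.img) :
      dA (K.P y) y - K.con ρ y y = dA (K.P x) y - K.con ρ x y := by
    have hm := K.mem y (K.sub x hy)
    obtain ⟨g, hg⟩ := K.rat x y y ⟨hy, hm⟩
    rw [hg.dA_eq (K.eqn y y hm).fn ((K.eqn y y hm).ne h), ← K.con_sub h2 h3 hm hg]
    abel
  refine ⟨{ η := η, ψ := fun y => dA (K.P y) y - K.con ρ y y, U := U, P := K.P, a := K.con ρ
            closed := closed_of_isD fun p => ?_
            isOpen := hU
            mem := fun x hx => ⟨K.mem x hx, id⟩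
            sub := fun x y hy => K.sub x hy.1
            eqn := fun x y hy => K.eqn x y hy.1
            isD := fun x => (hD x).mono inter_subset_left
            pot := fun x y hy => hpot x y hy.1
            dpot := IsD.glue hcl.isOpen_compl fun p hp => ?_
            ratio := fun x x' y hy => ?_
            V := K.inn ρ, isOpenV := K.isOpen_inn, subV := K.sub_inn h2
            VV := fun x hx => K.VV hx.1
            η0 := h0
            near := fun x hx => ⟨fun y hy => hy.2 hx, (K.near x hx.1).1,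
              fun y hy => K.con_zero hx.1 hy.1 (hy.2 hx)⟩ }⟩
  · by_cases h : p ∈ D.B
    · exact ⟨_, 0, K.isOpen_inn, K.sub_inn h2 h, isD_zero.congr K.isOpen_inn (fun _ _ => rfl) h0⟩
    · exact ⟨_, _, K.isOpen p, K.mem p h, ((hD p).smul (K.isOpen p) (2 * Real.pi)⁻¹).congr' rfl
        (inv_smul_smul₀ hp η).symm⟩
  · have hN := (K.isOpen p).inter hcl.isOpen_compl
    refine ⟨_, hN, ⟨K.mem p fun h => hp (Or.inr h), hp⟩,
      ((isD_dA hN (fun y hy => (K.eqn p y hy.1).fn) fun y hy =>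
        (K.eqn p y hy.1).ne fun h => hy.2 (Or.inl h)).sub ((hD p).mono inter_subset_left)
        hN).congr hN (fun y hy => hpot p y hy.1 fun h => hy.2 (Or.inl h)) fun y _ => ?_⟩
    exact bil_ext fun v w => by simp
  · obtain ⟨g, hg⟩ := K.rat x x' y ⟨hy.1.1, hy.2.1⟩
    exact ⟨g, hg.1, (hg.2.and (K.con_ev h2 h3 hy.2.1 hg)).mono fun w hw =>
      ⟨hw.1.1, hw.1.2, hw.2⟩⟩

end Car

end Pool.Agent.Lib.MP_1c0d65_gt.PW
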