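import Pool.Agent.Lib.MP_1c0d65_gt.E.CuspA

/-! Existence of the local equation of a branch. -/

open Filter Topology Asymptotics Complex
open scoped ContDiff

namespace Pool.Agent.Lib.MP_1c0d65_gt.B

open W

variable {J : ℂ × ℂ → ℂ × ℂ →L[ℝ] ℂ × ℂ} {Ω : ℂ × ℂ → ℂ × ℂ →L[ℝ] ℂ × ℂ →L[ℝ] ℂ}
  {u z : ℂ → ℂ × ℂ} {a : ℂ × ℂ} {σ ξ : ℂ → ℂ} {c : ℂ} {l : ℕ}

theorem cusp_anti {B : ℂ × ℂ →L[ℝ] ℂ × ℂ →L[ℝ] ℂ} (h : ∀ v, B v v = 0) (v w : ℂ × ℂ) :
    B v w = -B w v := by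
  have := h (v + w)
  simp only [map_add, ContinuousLinearMap.add_apply, h, zero_add, add_zero] at this
  linear_combination this

theorem cusp_smul {f : ℂ × ℂ →L[ℝ] ℂ} (h : ∀ v, f (I • v) = I * f v) (k : ℂ) (v : ℂ × ℂ) :
    f (k • v) = k * f v := by
  conv_lhs => rw [← re_add_im k, add_smul, mul_smul, map_add, coe_smul, coe_smul, map_smul,
    map_smul, h]
  conv_rhs => rw [← re_add_im k]
  simp only [real_smul]; ring

theorem Can.det (hJ : Acs J) (h : Can J Ω) :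
    ∃ κ, κ ≠ 0 ∧ ∀ v w : ℂ × ℂ, Ω 0 v w = κ * (v.1 * w.2 - v.2 * w.1) := by
  have alt := h.alt.self_of_nhds
  have l1 : ∀ (k : ℂ) v w, Ω 0 (k • v) w = k * Ω 0 v w := fun k v w =>
    cusp_smul (f := (Ω 0).flip w) (fun v => by simpa [hJ.zero] using h.lin.self_of_nhds v w) k v
  have l2 : ∀ (k : ℂ) v w, Ω 0 v (k • w) = k * Ω 0 v w := fun k v w => by
    rw [cusp_anti alt, l1, cusp_anti alt w]; ring
  have key : ∀ v w : ℂ × ℂ, Ω 0 v w = Ω 0 (1, 0) (0, 1) * (v.1 * w.2 - v.2 * w.1) := fun v w => by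
    have e : ∀ v : ℂ × ℂ, v = v.1 • ((1 : ℂ), (0 : ℂ)) + v.2 • ((0 : ℂ), (1 : ℂ)) := fun v => by simp
    conv_lhs => rw [e v, e w]
    simp only [map_add, ContinuousLinearMap.add_apply, l1, l2, alt,
      cusp_anti alt ((0 : ℂ), (1 : ℂ)) (1, 0)]
    ring
  refine ⟨_, fun c => h.ne (ContinuousLinearMap.ext fun v => ContinuousLinearMap.ext fun w => ?_),
    key⟩
  rw [key, c, zero_mul]; rfl

/-- The normal covector is asymptotically complex linear. -/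
theorem Can.lead (hJ : Acs J) (h : Can J Ω) (ho : Ord 2 u l a) (a1 : a.1 ≠ 0) :
    ∃ m : ℂ, m ≠ 0 ∧ ∀ ε > 0, ∀ᶠ s in 𝓝[≠] (0 : ℂ), ∀ y : ℂ,
      ‖Ω (u s) (fderiv ℝ u s 1) (0, y) - m * s ^ l * y‖ ≤ ε * (‖s ^ l‖ * ‖y‖) := by
  obtain ⟨κ, κ0, hκ⟩ := h.det hJ
  refine ⟨κ * ((l + 1) * a.1), mul_ne_zero κ0 (mul_ne_zero (Nat.cast_add_one_ne_zero l) a1),
    fun ε hε => ?_⟩
  have o1 : (fun s => ‖Ω (u s) - Ω 0‖) =o[𝓝[≠] 0] fun _ : ℂ => (1 : ℝ) := by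
    rw [isLittleO_one_iff]
    exact (tendsto_iff_norm_sub_tendsto_zero.1 (h.cd.self_of_nhds.continuousAt.tendsto.comp
      ho.tendsto_zero)).mono_left nhdsWithin_le_nhds
  have o2 : (fun s => fderiv ℝ u s 1) =O[𝓝[≠] 0] fun s : ℂ => s ^ l :=
    (IsBigO.of_bound 1 (Eventually.of_forall fun s => by
      simpa using (fderiv ℝ u s).le_opNorm 1)).trans ho.d_bigO
  have o3 : (fun s => (Ω (u s) - Ω 0) (fderiv ℝ u s 1)) =o[𝓝[≠] 0] fun s : ℂ => s ^ l := by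
    have := o1.mul_isBigO o2.norm_norm
    simp only [one_mul, isLittleO_norm_right] at this
    exact (IsBigO.of_bound 1 (Eventually.of_forall fun s => by
      rw [one_mul, Real.norm_of_nonneg (by positivity)]
      exact (Ω (u s) - Ω 0).le_opNorm _)).trans_isLittleO this
  have o4 : (fun s => Ω 0 ((fderiv ℝ u s - sm (((l + 1 : ℂ) * s ^ l) • a)) 1)) =o[𝓝[≠] 0]
      fun s : ℂ => s ^ l := (((Ω 0).isBigO_comp _ _).trans (IsBigO.of_bound 1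
    (Eventually.of_forall fun s => by
      simpa using (fderiv ℝ u s - sm (((l + 1 : ℂ) * s ^ l) • a)).le_opNorm 1))).trans_isLittleO ho.d
  filter_upwards [isLittleO_iff.1 (o3.add o4) hε] with s hs y
  have := (((Ω (u s) - Ω 0) (fderiv ℝ u s 1) +
    Ω 0 ((fderiv ℝ u s - sm (((l + 1 : ℂ) * s ^ l) • a)) 1)).le_opNorm (0, y)).trans
    (mul_le_mul_of_nonneg_right hs (norm_nonneg _))
  rw [show ‖((0 : ℂ), y)‖ = ‖y‖ by simp, mul_assoc] at this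
  refine (congrArg norm ?_).trans_le this
  simp only [ContinuousLinearMap.add_apply, ContinuousLinearMap.sub_apply, map_sub, sm_apply,
    one_smul, hκ, Prod.smul_fst, Prod.smul_snd, smul_eq_mul]
  ring

theorem Ord.deriv_iff (ho : Ord 2 u l a) (ha : a ≠ 0) (hu : ContDiffAt ℝ 2 u 0) :
    l = 0 ↔ fderiv ℝ u 0 1 ≠ 0 := by
  refine ⟨?_, fun h => by_contra fun hl => h ?_⟩
  · rintro rfl
    rw [(ho.strict two_ne_zero).hasFDerivAt.fderiv]
    simpa using ha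
  · have t1 : Tendsto (fderiv ℝ u) (𝓝[≠] 0) (𝓝 (fderiv ℝ u 0)) :=
      (hu.fderiv_right (m := 1) (by norm_num)).continuousAt.tendsto.mono_left nhdsWithin_le_nhds
    have t2 : Tendsto (fderiv ℝ u) (𝓝[≠] 0) (𝓝 0) := ho.d_bigO.trans_tendsto (by
      simpa [zero_pow hl] using ((continuous_pow l).tendsto (0 : ℂ)).mono_left nhdsWithin_le_nhds)
    rw [tendsto_nhds_unique t1 t2]; rfl

theorem eqn_norm (hJ : Acs J) (hΩ : Can J Ω) (hu : Grm J u) (ho : Ord ∞ u l a) (a1 : a.1 ≠ 0)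
    (a2 : a.2 = 0) {S : Set ℂ} (hS : S ∈ 𝓝[≠] (0 : ℂ)) (inj : Set.InjOn u S) :
    ∃ P, Eqn J Ω u P := by
  classical
  have n0 : (∞ : WithTop ℕ∞) ≠ 0 := by simp
  obtain ⟨σ, ξ, c, hc, f⟩ := exists_nf ho n0 a1
  have hW : Ord ∞ (fun τ => (u (σ τ)).2) l 0 := by simpa [a2] using f.snd ho n0 hc
  set W : ℂ → ℂ := fun τ => (u (σ τ)).2 with hWd
  have ho2 := ho.mono two_le_inf
  have f2 := f.mono two_le_inf
  have a0 : a ≠ 0 := fun e => a1 (by rw [e]; rfl)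
  have tu : Tendsto u (𝓝[≠] 0) (𝓝[≠] 0) := tendsto_nhdsWithin_iff.2
    ⟨ho.tendsto_zero.mono_left nhdsWithin_le_nhds, ho.ne_zero n0 a0⟩
  have uW : ∀ᶠ s in 𝓝 (0 : ℂ), (u s).2 = W (ξ s) := f.σξ.mono fun s hs => by simp only [hWd, hs]
  have van : ∀ᶠ s in 𝓝 (0 : ℂ), wq cut l W (u s) = 0 := by
    filter_upwards [f.fst, uW, eventually_nhdsWithin_iff.1 (ho.cone n0 a1 a2)] with s h1 h2 h3
    rw [wq_eq h1]
    refine Finset.prod_eq_zero one_mem_rts ?_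
    by_cases s0 : s = 0
    · simp [s0, ho.zero, f.oξ.zero, hW.zero]
    · rw [cut_one _ (h3 s0), one_mul, one_mul, h2, sub_self]
  refine ⟨wq cut l W, wq_cd hW, van, fun T hT => ?_, fun z hz fr => ?_, ?_⟩
  · filter_upwards [wq_zero hW n0 cut_le cut_one,
      ev_root' l (f.pow.and (f.oσ.tendsto_zero.eventually hT))] with p h1 h2 h0
    obtain ⟨τ, e1, e2⟩ := h1 h0
    exact ⟨σ τ, (h2 τ e1).2, Prod.ext (e1.symm.trans (h2 τ e1).1.symm) e2⟩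
  · refine wq_pos hJ hu ho2 a1 f2 (hW.mono two_le_inf) cut_le cut_one hz fr ?_
    have tz : Tendsto z (𝓝 0) (𝓝 0) := by
      simpa [hz.zero] using hz.hol.self_of_nhds.1.continuousAt.tendsto
    filter_upwards [mem_nhdsWithin_of_mem_nhds (hz.hol.and
      (tz.eventually (eventually_nhdsWithin_iff.1 (wq_cd hW))))] with s hs s0
    exact ContinuousAt.comp (g := wq cut l W) (hs.2 s0).continuousAt hs.1.1.continuousAt
  have tζ : ∀ ζ ∈ rts l, Tendsto (fun τ : ℂ => ζ * τ) (𝓝[≠] 0) (𝓝[≠] 0) := fun ζ hζ => by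
    simpa [mul_comm] using (ord_pow 2 0 ζ).tendsto_pn two_ne_zero (rts_ne hζ)
  have tσ := f.oσ.tendsto_pn n0 (inv_ne_zero f.c0)
  have tξ := f.oξ.tendsto_pn n0 f.c0
  have nz : ∀ ζ ∈ (rts l).erase 1, ∃ (m : ℕ) (β : ℂ), β ≠ 0 ∧
      Tendsto (fun τ : ℂ => (τ ^ m)⁻¹ • (W τ - W (ζ * τ))) (𝓝[≠] 0) (𝓝 β) := fun ζ hζ => by
    obtain ⟨h1, h2⟩ := Finset.mem_erase.1 hζ
    have := dich hJ hu.cu_two ho2 f2 hu.cu_two ho2 a1 f2 (m₁ := 0) (m₂ := 0) rfl (mem_rts.1 h2)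
    simp only [zero_add, pow_one] at this
    refine this.resolve_left fun e => ?_
    have k1 : ∀ᶠ τ in 𝓝[≠] (0 : ℂ), σ τ ∈ S ∧ ξ (σ τ) = τ ∧ (u (σ τ)).1 = τ ^ (l + 1) :=
      (tσ.eventually hS).and (mem_nhdsWithin_of_mem_nhds (f.ξσ.and f.pow))
    obtain ⟨τ, ⟨⟨e1, k2⟩, k3⟩, τ0⟩ :=
      (((e.and k1).and ((tζ ζ h2).eventually k1)).and self_mem_nhdsWithin).exists
    have e2 := inj k2.1 k3.1 (Prod.ext (by rw [k2.2.2, k3.2.2, rts_pow h2]) (sub_eq_zero.1 e1))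
    have e3 : 1 * τ = ζ * τ := by rw [one_mul, ← k3.2.1, ← e2, k2.2.1]
    exact h1 (mul_right_cancel₀ τ0 e3).symm
  choose! m β β0 hβ using nz
  have mlt : ∀ ζ ∈ (rts l).erase 1, l + 2 ≤ m ζ := fun ζ hζ => by
    have h2 := Finset.mem_of_mem_erase hζ
    have o := (hW.small n0).mono (nhdsWithin_le_nhds (s := {0}ᶜ))
    exact lead_lt (β0 ζ hζ) (hβ ζ hζ) (o.sub ((o.comp_tendsto (tζ ζ h2)).congr_right
      fun τ => rts_pow h2))
  have cW : ∀ ζ ∈ rts l, ∀ᶠ τ in 𝓝[≠] (0 : ℂ), ContDiffAt ℝ ∞ (fun τ => W τ - W (ζ * τ)) τ :=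
    fun ζ hζ => (hW.cd.and ((tζ ζ hζ).eventually hW.cd)).mono fun τ h =>
      h.1.sub (ContDiffAt.comp (g := W) τ h.2 (contDiffAt_const.mul contDiffAt_id))
  set G : ℂ → ℂ := fun s => ∏ ζ ∈ (rts l).erase 1, (W (ξ s) - W (ζ * ξ s)) with hG
  have iG : HasIdx G 0 (∑ ζ ∈ (rts l).erase 1, m ζ : ℕ) := by
    refine ((end_pn 0).prod ((rts l).erase 1) (k := fun ζ => m ζ) fun ζ hζ => ?_).cast (by simp)
    have := (end_pn 0).comp (lead_idx (β0 ζ hζ) ((cW ζ (Finset.mem_of_mem_erase hζ)).mono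
      fun _ h => h.continuousAt) (hβ ζ hζ)) tξ (m := 1) (by simpa using f.oξ.idx n0 f.c0)
    simpa using this
  have cG : ∀ᶠ s in 𝓝[≠] (0 : ℂ), ContDiffAt ℝ ∞ G s := by
    filter_upwards [(eventually_all_finset _).2 fun ζ (hζ : ζ ∈ rts l) => tξ.eventually (cW ζ hζ),
      f.oξ.cd] with s h1 h2
    exact contDiffAt_prod fun ζ hζ => ContDiffAt.comp (g := fun τ => W τ - W (ζ * τ)) s
      (h1 ζ (Finset.mem_of_mem_erase hζ)) h2
  obtain ⟨μ, μ0, hμ⟩ := hΩ.lead hJ ho2 a1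
  set N : ℂ → ℂ := fun s => Ω (u s) (fderiv ℝ u s 1) (0, 1) with hN
  have cN : ∀ᶠ s in 𝓝 (0 : ℂ), ContDiffAt ℝ ∞ N s := by
    filter_upwards [hu.hol, ho.tendsto_zero.eventually hΩ.cd] with s h1 h2
    exact (((ContDiffAt.comp (g := Ω) s h2 h1.1).clm_apply ((h1.1.fderiv_right
      (m := ∞) le_rfl).clm_apply contDiffAt_const)).clm_apply contDiffAt_const)
  have μ1 : 0 < ‖μ‖ / 10 := by have := norm_pos_iff.2 μ0; positivity
  have iN : HasIdx N 0 l := by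
    have i1 : HasIdx (fun s : ℂ => μ * s ^ l) 0 l :=
      (end_pn 0).const_mul (by simpa using idx_pow (𝓝[≠] 0) 0 l) μ0
    refine (end_pn 0).close i1 ?_
    filter_upwards [hμ _ μ1, mem_nhdsWithin_of_mem_nhds cN, self_mem_nhdsWithin] with s h1 h2 s0
    have h3 := h1 1
    have h4 : 0 < ‖s ^ l‖ := norm_pos_iff.2 (pow_ne_zero _ s0)
    rw [mul_one, norm_one, mul_one] at h3
    refine ⟨h2.continuousAt, h3.trans_lt ?_⟩
    rw [norm_mul]; nlinarith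
  have hs : l * (l + 2) ≤ ∑ ζ ∈ (rts l).erase 1, m ζ := by
    simpa [Finset.card_erase_of_mem one_mem_rts, card_rts] using
      Finset.card_nsmul_le_sum _ _ _ mlt
  have hs0 : l = 0 → ∑ ζ ∈ (rts l).erase 1, m ζ = 0 := fun h => by
    rw [Finset.card_eq_zero.1 (show ((rts l).erase 1).card = 0 by
      rw [Finset.card_erase_of_mem one_mem_rts, card_rts, h]), Finset.sum_empty]
  have hl : l ≠ 0 → l + 2 ≤ ∑ ζ ∈ (rts l).erase 1, m ζ - l ∨ (l = 1 ∧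
      2 ≤ ∑ ζ ∈ (rts l).erase 1, m ζ - l) := fun h => by
    rcases (Nat.one_le_iff_ne_zero.2 h).eq_or_lt with e | e
    · exact Or.inr ⟨e.symm, by rw [← e] at hs ⊢; omega⟩
    · exact Or.inl (Nat.le_sub_of_add_le (by nlinarith))
  refine ⟨fun s => G s / N s, ∑ ζ ∈ (rts l).erase 1, m ζ - l,
    ((end_pn 0).div iG iN).cast (by rw [Nat.cast_sub (by nlinarith)]), ?_, ?_, ?_⟩
  · by_cases h : l = 0
    · rw [hs0 h]; omega
    · have := hl h; omega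
  · rw [← ho2.deriv_iff a0 hu.cu_two.self_of_nhds.1]
    exact ⟨fun e => by_contra fun h => by have := hl h; omega, fun h => by rw [hs0 h]; omega⟩
  filter_upwards [cG, mem_nhdsWithin_of_mem_nhds (cN.and (f.fst.and (uW.and (hu.hol.and
      ((eventually_eventually_nhds.2 van).and (ho.tendsto_zero.eventually
        (hΩ.alt.and hΩ.lin))))))), (end_pn 0).ne_zero iG, (end_pn 0).ne_zero iN, hμ _ μ1,
    ho.cone n0 a1 a2, tξ.eventually self_mem_nhdsWithin, tu.eventually (wq_cd hW),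
    (eventually_all_finset _).2 fun ζ (hζ : ζ ∈ rts l) =>
      tξ.eventually ((tζ ζ hζ).eventually hW.cd),
    (slope_spec hu.cu_two.self_of_nhds.1 ho2 a1).choose_spec.2]
    with s c1 ⟨c2, e1, e2, h1, h2, alt, lin⟩ G0 N0 h3 h4 ξ0 c3 c4 h5
  refine ⟨c1.mul (c2.inv N0), fun v => ?_⟩
  obtain ⟨r, r1, r2, r3⟩ := exists_root l (τ := ξ s) ξ0
  rw [e1] at r1 r2 r3
  have dW : ∀ ζ ∈ rts l, DifferentiableAt ℝ (fun x => W (ζ * r x)) (u s).1 := fun ζ hζ =>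
    DifferentiableAt.comp (g := W) _ (by rw [r2]; exact (c4 ζ hζ).differentiableAt n0)
      ((r1.differentiableAt n0).const_mul ζ)
  have dφ : HasFDerivAt (fun q : ℂ × ℂ => q.2 - W (1 * r q.1)) (ContinuousLinearMap.snd ℝ ℂ ℂ -
      (fderiv ℝ (fun x => W (1 * r x)) (u s).1).comp (ContinuousLinearMap.fst ℝ ℂ ℂ)) (u s) :=
    hasFDerivAt_snd.sub ((dW 1 one_mem_rts).hasFDerivAt.comp (u s) hasFDerivAt_fst)
  have dH : DifferentiableAt ℝ (fun q : ℂ × ℂ => ∏ ζ ∈ (rts l).erase 1, (q.2 - W (ζ * r q.1)))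
      (u s) := (HasFDerivAt.finsetProd fun ζ hζ => (differentiableAt_snd.fun_sub
    ((dW ζ (Finset.mem_of_mem_erase hζ)).comp (u s) differentiableAt_fst)).hasFDerivAt).differentiableAt
  have e3 : wq cut l W =ᶠ[𝓝 (u s)] fun q => (q.2 - W (1 * r q.1)) *
      ∏ ζ ∈ (rts l).erase 1, (q.2 - W (ζ * r q.1)) := by
    filter_upwards [(continuous_fst.tendsto (u s)).eventually r3, (isOpen_lt
      (continuous_const.mul continuous_snd.norm) continuous_fst.norm).mem_nhds h4] with q k1 k2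
    rw [wq_eq k1, cut_one q k2]
    simp only [one_mul (W _)]
    exact (Finset.mul_prod_erase _ (fun ζ => q.2 - W (ζ * r q.1)) one_mem_rts).symm
  have e4 : ∀ y : ℂ, fderiv ℝ (wq cut l W) (u s) (0, y) = G s * y := fun y => by
    rw [e3.fderiv_eq, (dφ.fun_mul dH.hasFDerivAt).fderiv]
    simp [r2, e2, hG]
  have du := h1.1.differentiableAt n0
  have e5 : ∀ t, fderiv ℝ (wq cut l W) (u s) (fderiv ℝ u s t) = 0 := fun t => by
    have k1 := ((c3.differentiableAt n0).hasFDerivAt.comp s du.hasFDerivAt).fderiv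
    have k2 : (wq cut l W ∘ u) =ᶠ[𝓝 s] fun _ => 0 := h2
    rw [k2.fderiv_eq, fderiv_fun_const] at k1
    exact (congrArg (fun T : ℂ →L[ℝ] ℂ => T t) k1).symm
  have e6 : ∀ t, Ω (u s) (fderiv ℝ u s 1) (fderiv ℝ u s t) = 0 := fun t => by
    rw [clm_eq _ t, map_add, map_smul, map_smul, alt, h1.2, cusp_anti alt, lin, alt]; simp
  obtain ⟨t, ht⟩ := h5.2.2.2.2 v.1
  obtain ⟨y, rfl⟩ : ∃ y, v = fderiv ℝ u s t + (0, y) :=
    ⟨v.2 - (fderiv ℝ u s t).2, Prod.ext (by simp [ht]) (by simp)⟩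
  rw [map_add, map_add, e5, e6, zero_add, zero_add, e4]
  set L := Ω (u s) (fderiv ℝ u s 1) (0, y) with hL
  have k1 := h3 1
  have k2 := h3 y
  rw [mul_one, norm_one, mul_one] at k1
  have k3 : ‖N s * y - L‖ ≤ 1 / 2 * ‖L‖ := by
    have i1 : N s * y - L = (N s - μ * s ^ l) * y - (L - μ * s ^ l * y) := by ring
    have i2 := norm_sub_le ((N s - μ * s ^ l) * y) (L - μ * s ^ l * y)
    have i3 := norm_sub_norm_le (μ * s ^ l * y) L
    rw [norm_sub_rev, norm_mul, norm_mul] at i3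
    rw [norm_mul] at i2
    have i4 := mul_le_mul_of_nonneg_right k1 (norm_nonneg y)
    have i5 : 0 ≤ ‖μ‖ * (‖s ^ l‖ * ‖y‖) := by positivity
    rw [i1]
    nlinarith
  rw [show G s * y - G s / N s * L = G s / N s * (N s * y - L) by field_simp, norm_mul, norm_mul,
    mul_left_comm]
  exact mul_le_mul_of_nonneg_left k3 (norm_nonneg _)

theorem exists_straight (ha : a ≠ 0) : ∃ A : (ℂ × ℂ) ≃L[ℂ] ℂ × ℂ, (A a).1 ≠ 0 ∧ (A a).2 = 0 := by
  by_cases h : a.2 = 0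
  · exact ⟨.refl _ _, fun c => ha (Prod.ext c h), h⟩
  · refine ⟨(shear (-a.1 / a.2)).trans (.prodComm ℂ ℂ ℂ), by simpa using h, ?_⟩
    simp; field_simp; ring

/-- A complex linear equivalence as a real linear map. -/
noncomputable abbrev rl (A : (ℂ × ℂ) ≃L[ℂ] ℂ × ℂ) : ℂ × ℂ →L[ℝ] ℂ × ℂ :=
  (A : ℂ × ℂ →L[ℂ] ℂ × ℂ).restrictScalars ℝ

theorem Grm.cu_conj (h : Grm J z) (A : (ℂ × ℂ) ≃L[ℂ] ℂ × ℂ) : Grm (conj A J) fun s => A (z s) :=
  ⟨h.hol.mono fun s hs => ⟨(rl A).contDiff.contDiffAt.comp s hs.1,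
    hs.2.conj _ (hs.1.differentiableAt (by simp))⟩, by simp [h.zero]⟩

theorem Can.conj (h : Can J Ω) (A : (ℂ × ℂ) ≃L[ℂ] ℂ × ℂ) :
    Can (conj A J) fun p => (Ω (A.symm p)).bilinearComp (rl A.symm) (rl A.symm) := by
  have t : Tendsto A.symm (𝓝 0) (𝓝 0) := by simpa using A.symm.continuous.tendsto 0
  refine ⟨(t.eventually h.cd).mono fun p hp => ?_, fun c => h.ne ?_,
    (t.eventually h.alt).mono fun p hp v => hp _, (t.eventually h.lin).mono fun p hp v w => ?_⟩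
  · have h1 : ContDiffAt ℝ ∞ (fun p => Ω (A.symm p)) p :=
      ContDiffAt.comp (g := Ω) p hp (rl A.symm).contDiff.contDiffAt
    exact ((contDiffAt_const (c := (ContinuousLinearMap.compL ℝ (ℂ × ℂ) (ℂ × ℂ) ℂ).flip
      (rl A.symm))).clm_comp h1).clm_comp (contDiffAt_const (c := rl A.symm))
  · refine ContinuousLinearMap.ext fun v => ContinuousLinearMap.ext fun w => ?_
    simpa using congrArg (fun T : ℂ × ℂ →L[ℝ] ℂ × ℂ →L[ℝ] ℂ => T (A v) (A w)) c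
  · simpa [B.conj] using hp (A.symm v) (A.symm w)

theorem Grm.exists_eqn {J Ω z} (hJ : Acs J) (hΩ : Can J Ω) (hz : Grm J z) {S : Set ℂ}
    (hS : S ∈ 𝓝[≠] (0 : ℂ)) (inj : Set.InjOn z S) : ∃ P, Eqn J Ω z P := by
  have n0 : (∞ : WithTop ℕ∞) ≠ 0 := by simp
  obtain ⟨l, a, a0, ho⟩ := hz.cu_ord hJ fun c => by
    have h1 : S ∩ {s | z s = 0} ∈ 𝓝[≠] (0 : ℂ) := inter_mem hS (mem_nhdsWithin_of_mem_nhds c)
    obtain ⟨s, hs, s0⟩ := Filter.nonempty_of_mem (inter_mem h1 self_mem_nhdsWithin)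
    obtain ⟨t, ht, hst⟩ := Filter.nonempty_of_mem (inter_mem h1
      (mem_nhdsWithin_of_mem_nhds (isOpen_ne.mem_nhds (Ne.symm s0))))
    exact hst (inj ht.1 hs.1 (ht.2.trans hs.2.symm))
  obtain ⟨A, a1, a2⟩ := exists_straight a0
  obtain ⟨P, hP⟩ := eqn_norm (hJ.conj A) (hΩ.conj A) (hz.cu_conj A)
    (ho.clm n0 (rl A) fun k v => A.map_smul k v) a1 a2 hS fun s hs t ht e => inj hs ht (A.injective e)
  have t : Tendsto A (𝓝 0) (𝓝 0) := by simpa using A.continuous.tendsto 0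
  have t' : Tendsto A (𝓝[≠] 0) (𝓝[≠] 0) := tendsto_nhdsWithin_iff.2
    ⟨t.mono_left nhdsWithin_le_nhds, eventually_nhdsWithin_of_forall fun p hp c =>
      hp (A.map_eq_zero_iff.1 c)⟩
  have tz : Tendsto (fun s => A (z s)) (𝓝[≠] 0) (𝓝[≠] 0) := t'.comp (tendsto_nhdsWithin_iff.2
    ⟨ho.tendsto_zero.mono_left nhdsWithin_le_nhds, ho.ne_zero n0 a0⟩)
  have dz : ∀ᶠ s in 𝓝 (0 : ℂ), fderiv ℝ (fun s => A (z s)) s 1 = A (fderiv ℝ z s 1) :=
    hz.hol.mono fun s hs => congrArg (fun T : ℂ →L[ℝ] ℂ × ℂ => T 1)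
      ((rl A).hasFDerivAt.comp s (hs.1.differentiableAt n0).hasFDerivAt).fderiv
  refine ⟨fun p => P (A p), (t'.eventually hP.cd).mono fun p hp =>
    ContDiffAt.comp (g := P) p hp (rl A).contDiff.contDiffAt, hP.van, fun T hT => ?_,
    fun z' hz' fr => hP.pos _ (hz'.cu_conj A) fr, ?_⟩
  · filter_upwards [t.eventually (hP.zeros T hT)] with p hp h0
    obtain ⟨s, hs, e⟩ := hp h0
    exact ⟨s, hs, A.injective e⟩
  · obtain ⟨h, e, h1, h2, h3, h4⟩ := hP.adj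
    refine ⟨h, e, h1, h2, by rw [h3, dz.self_of_nhds]; simp, ?_⟩
    filter_upwards [h4, tz.eventually hP.cd, mem_nhdsWithin_of_mem_nhds dz] with s k1 k2 k3
    refine ⟨k1.1, fun v => ?_⟩
    have k4 : fderiv ℝ (fun p => P (A p)) (z s) v = fderiv ℝ P (A (z s)) (A v) :=
      congrArg (fun T : ℂ × ℂ →L[ℝ] ℂ => T v)
        ((k2.differentiableAt n0).hasFDerivAt.comp (z s) (rl A).hasFDerivAt).fderiv
    have := k1.2 (A v)
    rw [k3] at this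
    rw [k4]
    simpa using this

end Pool.Agent.Lib.MP_1c0d65_gt.B
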