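import Pool.Agent.Lib.MP_1c0d65_gt.E.CuspD

/-! The product over the sheets of a branch. -/

open Filter Topology Asymptotics Complex
open scoped ContDiff

namespace Pool.Agent.Lib.MP_1c0d65_gt.B

open W

/-- A function that is `1` near the first axis and `0` near the second. -/
noncomputable def cut (p : ℂ × ℂ) : ℂ :=
  Real.smoothTransition (3 * (‖p.1‖ ^ 2 - ‖p.2‖ ^ 2) / (‖p.1‖ ^ 2 + ‖p.2‖ ^ 2))

theorem cut_cd {p : ℂ × ℂ} (hp : p ≠ 0) : ContDiffAt ℝ ∞ cut p := by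
  have h1 : ContDiff ℝ ∞ fun q : ℂ × ℂ => ‖q.1‖ ^ 2 := (contDiff_norm_sq ℝ).comp contDiff_fst
  have h2 : ContDiff ℝ ∞ fun q : ℂ × ℂ => ‖q.2‖ ^ 2 := (contDiff_norm_sq ℝ).comp contDiff_snd
  have h3 : ‖p.1‖ ^ 2 + ‖p.2‖ ^ 2 ≠ 0 := fun h => hp (Prod.ext
    (norm_eq_zero.1 (by nlinarith [sq_nonneg ‖p.2‖, norm_nonneg p.1]))
    (norm_eq_zero.1 (by nlinarith [sq_nonneg ‖p.1‖, norm_nonneg p.2])))
  exact ofRealCLM.contDiff.contDiffAt.comp p (Real.smoothTransition.contDiff.contDiffAt.comp p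
    ((contDiffAt_const.mul (h1.sub h2).contDiffAt).div (h1.add h2).contDiffAt h3))

theorem cut_le (p : ℂ × ℂ) : ‖cut p‖ ≤ 1 := by
  rw [cut, norm_real, Real.norm_of_nonneg (Real.smoothTransition.nonneg _)]
  exact Real.smoothTransition.le_one _

theorem cut_one (p : ℂ × ℂ) (h : 2 * ‖p.2‖ < ‖p.1‖) : cut p = 1 := by
  have := norm_nonneg p.2
  rw [cut, Real.smoothTransition.one_of_one_le, ofReal_one]
  rw [le_div_iff₀ (by nlinarith)]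
  nlinarith

theorem cut_zero {p : ℂ × ℂ} (h : ‖p.1‖ < ‖p.2‖) : cut p = 0 := by
  have := norm_nonneg p.1
  rw [cut, Real.smoothTransition.zero_of_nonpos, ofReal_zero]
  exact div_nonpos_of_nonpos_of_nonneg (by nlinarith) (by positivity)

/-- The roots of unity. -/
noncomputable def rts (l : ℕ) : Finset ℂ := Polynomial.nthRootsFinset (l + 1) 1

variable {l : ℕ} {W : ℂ → ℂ} {χ : ℂ × ℂ → ℂ}

theorem mem_rts {ζ : ℂ} : ζ ∈ rts l ↔ ζ ^ (l + 1) = 1 :=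
  Polynomial.mem_nthRootsFinset (Nat.succ_pos _) _

theorem one_mem_rts : (1 : ℂ) ∈ rts l := mem_rts.2 (one_pow _)

theorem card_rts : (rts l).card = l + 1 :=
  (isPrimitiveRoot_exp (l + 1) (Nat.succ_ne_zero l)).card_nthRootsFinset

theorem rts_ne {ζ : ℂ} (h : ζ ∈ rts l) : ζ ≠ 0 := by
  rintro rfl; simpa using mem_rts.1 h

theorem rts_pow {ζ τ : ℂ} (h : ζ ∈ rts l) : (ζ * τ) ^ (l + 1) = τ ^ (l + 1) := by
  rw [mul_pow, mem_rts.1 h, one_mul]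

theorem prod_rts (F : ℂ → ℂ) {τ τ' : ℂ} (h : τ ^ (l + 1) = τ' ^ (l + 1)) :
    ∏ ζ ∈ rts l, F (ζ * τ) = ∏ ζ ∈ rts l, F (ζ * τ') := by
  by_cases h0 : τ' = 0
  · subst h0
    rw [pow_eq_zero_iff (Nat.succ_ne_zero l) |>.1 (h.trans (zero_pow (Nat.succ_ne_zero l)))]
  have h1 : τ ≠ 0 := fun c => pow_ne_zero (l + 1) h0 (by rw [← h, c, zero_pow (Nat.succ_ne_zero l)])
  refine Finset.prod_nbij' (fun ζ => ζ * (τ / τ')) (fun ζ => ζ * (τ' / τ)) (fun ζ hζ => ?_)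
    (fun ζ hζ => ?_) (fun ζ _ => by field_simp) (fun ζ _ => by field_simp)
    fun ζ _ => congrArg F (by field_simp)
  · rw [mem_rts, rts_pow hζ, div_pow, h, div_self (pow_ne_zero _ h0)]
  · rw [mem_rts, rts_pow hζ, div_pow, ← h, div_self (pow_ne_zero _ h1)]

/-- A root. -/
noncomputable def rt (l : ℕ) (x : ℂ) : ℂ := x ^ (((l + 1 : ℕ) : ℂ)⁻¹)

theorem rt_pow (l : ℕ) (x : ℂ) : rt l x ^ (l + 1) = x := cpow_nat_inv_pow x (Nat.succ_ne_zero l)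

/-- The product over the sheets. -/
noncomputable def wq (χ : ℂ × ℂ → ℂ) (l : ℕ) (W : ℂ → ℂ) (p : ℂ × ℂ) : ℂ :=
  ∏ ζ ∈ rts l, (p.2 - χ p * W (ζ * rt l p.1))

theorem wq_eq {p : ℂ × ℂ} {τ : ℂ} (h : τ ^ (l + 1) = p.1) :
    wq χ l W p = ∏ ζ ∈ rts l, (p.2 - χ p * W (ζ * τ)) :=
  prod_rts (fun t => p.2 - χ p * W t) ((rt_pow l _).trans h.symm)

theorem ev_root {Q : ℂ → Prop} (l : ℕ) (h : ∀ᶠ τ in 𝓝 (0 : ℂ), Q τ) :
    ∀ᶠ x in 𝓝 (0 : ℂ), ∀ τ, τ ^ (l + 1) = x → Q τ := by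
  obtain ⟨δ, hδ, h1⟩ := Metric.eventually_nhds_iff.1 h
  filter_upwards [Metric.ball_mem_nhds (0 : ℂ) (pow_pos hδ (l + 1))] with x hx τ e
  refine h1 (lt_of_pow_lt_pow_left₀ (l + 1) hδ.le ?_)
  rw [dist_zero_right, ← norm_pow, e]
  simpa using hx

theorem ev_root' {Q : ℂ → Prop} (l : ℕ) (h : ∀ᶠ τ in 𝓝 (0 : ℂ), Q τ) :
    ∀ᶠ p in 𝓝 (0 : ℂ × ℂ), ∀ τ, τ ^ (l + 1) = p.1 → Q τ :=
  (continuous_fst.tendsto (0 : ℂ × ℂ)).eventually (ev_root l h)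

theorem exists_root (l : ℕ) {τ : ℂ} (h : τ ≠ 0) : ∃ r : ℂ → ℂ, ContDiffAt ℝ ∞ r (τ ^ (l + 1)) ∧
    r (τ ^ (l + 1)) = τ ∧ ∀ᶠ x in 𝓝 (τ ^ (l + 1)), r x ^ (l + 1) = x := by
  have h0 := pow_ne_zero (l + 1) h
  have n0 : ((l + 1 : ℕ) : ℂ) ≠ 0 := Nat.cast_ne_zero.2 (Nat.succ_ne_zero l)
  refine ⟨fun x => τ * exp (log (x / τ ^ (l + 1)) / (l + 1 : ℕ)), ?_, by simp [div_self h0], ?_⟩
  · have h1 : ContDiffAt ℂ ∞ log (τ ^ (l + 1) / τ ^ (l + 1)) :=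
      contDiffAt_log (by rw [div_self h0]; exact one_mem_slitPlane)
    have h2 : ContDiffAt ℂ ∞ (fun x => log (x / τ ^ (l + 1))) (τ ^ (l + 1)) :=
      h1.comp (τ ^ (l + 1)) (f := fun x => x / τ ^ (l + 1)) (contDiffAt_id.div_const _)
    exact (contDiffAt_const.mul (h2.div_const _).cexp).restrict_scalars ℝ
  · filter_upwards [isOpen_ne.mem_nhds h0] with x hx
    rw [mul_pow, ← exp_nat_mul, mul_div_cancel₀ _ n0, exp_log (div_ne_zero hx h0),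
      mul_div_cancel₀ _ h0]

theorem Ord.small {n : WithTop ℕ∞} (h : Ord n W l 0) (hn : n ≠ 0) :
    W =o[𝓝 0] fun z : ℂ => z ^ (l + 1) := by simpa using h.val hn

theorem wq_cd (h : Ord ∞ W l 0) : ∀ᶠ p in 𝓝[≠] (0 : ℂ × ℂ), ContDiffAt ℝ ∞ (wq cut l W) p := by
  filter_upwards [mem_nhdsWithin_of_mem_nhds (ev_root' l (eventually_nhdsWithin_iff.1 h.cd)),
    self_mem_nhdsWithin] with p hp p0
  by_cases h1 : p.1 = 0
  · have h2 : ‖p.1‖ < ‖p.2‖ := by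
      rw [h1, norm_zero, norm_pos_iff]
      exact fun c => p0 (Prod.ext h1 c)
    have : wq cut l W =ᶠ[𝓝 p] fun q => q.2 ^ (l + 1) := by
      filter_upwards [(isOpen_lt (continuous_fst.norm) (continuous_snd.norm)).mem_nhds h2] with q hq
      simp [wq, cut_zero hq, card_rts]
    exact (contDiffAt_snd.pow _).congr_of_eventuallyEq this
  have t0 : rt l p.1 ≠ 0 := fun c => h1 (by rw [← rt_pow l p.1, c, zero_pow (Nat.succ_ne_zero l)])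
  obtain ⟨r, r1, r2, r3⟩ := exists_root l t0
  rw [rt_pow] at r1 r2 r3
  have : wq cut l W =ᶠ[𝓝 p] fun q => ∏ ζ ∈ rts l, (q.2 - cut q * W (ζ * r q.1)) :=
    ((continuous_fst.tendsto p).eventually r3).mono fun q hq => wq_eq hq
  refine ContDiffAt.congr_of_eventuallyEq (contDiffAt_prod fun ζ hζ =>
    contDiffAt_snd.sub ((cut_cd p0).mul ?_)) this
  refine ContDiffAt.comp (g := W) p ?_ (contDiffAt_const.mul (r1.comp p contDiffAt_fst))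
  rw [r2]
  exact hp _ ((rts_pow hζ).trans (rt_pow l _)) (mul_ne_zero (rts_ne hζ) t0)

theorem wq_zero {n : WithTop ℕ∞} (h : Ord n W l 0) (hn : n ≠ 0) (h1 : ∀ p, ‖χ p‖ ≤ 1)
    (h2 : ∀ p, 2 * ‖p.2‖ < ‖p.1‖ → χ p = 1) :
    ∀ᶠ p in 𝓝 (0 : ℂ × ℂ), wq χ l W p = 0 → ∃ τ, τ ^ (l + 1) = p.1 ∧ p.2 = W τ := by
  filter_upwards [ev_root' l (isLittleO_iff.1 (h.small hn) (by norm_num : (0 : ℝ) < 1 / 3))]
    with p hp h0
  obtain ⟨ζ, hζ, e⟩ := Finset.prod_eq_zero_iff.1 h0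
  have e1 := (rts_pow (τ := rt l p.1) hζ).trans (rt_pow l _)
  have h3 := hp _ e1
  rw [e1] at h3
  have h4 : ‖p.2‖ ≤ ‖W (ζ * rt l p.1)‖ := by
    rw [sub_eq_zero.1 e, norm_mul]; exact mul_le_of_le_one_left (norm_nonneg _) (h1 p)
  refine ⟨_, e1, ?_⟩
  rcases (norm_nonneg p.1).eq_or_lt with h5 | h5
  · rw [norm_eq_zero.1 (le_antisymm (by linarith) (norm_nonneg p.2)),
      norm_eq_zero.1 (le_antisymm (by linarith) (norm_nonneg (W _)))]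
  · rw [sub_eq_zero.1 e, h2 p (by linarith), one_mul]

theorem lead_idx {f : ℂ → ℂ} {k : ℕ} {b : ℂ} (b0 : b ≠ 0) (hc : ∀ᶠ z in 𝓝[≠] 0, ContinuousAt f z)
    (h : Tendsto (fun z : ℂ => (z ^ k)⁻¹ • f z) (𝓝[≠] 0) (𝓝 b)) : HasIdx f 0 k :=
  (end_pn 0).of_lim b0 hc (by simpa using h)

theorem Ord.idx {n : WithTop ℕ∞} {a : ℂ} (h : Ord n W l a) (hn : n ≠ 0) (ha : a ≠ 0) :
    HasIdx W 0 (l + 1 : ℕ) :=
  lead_idx ha (h.cd.mono fun _ hz => hz.continuousAt) (h.tendsto hn)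

theorem Nf.mono {m n : WithTop ℕ∞} {u : ℂ → ℂ × ℂ} {σ ξ : ℂ → ℂ} {c : ℂ} (h : Nf n u l σ ξ c)
    (hm : m ≤ n) : Nf m u l σ ξ c := ⟨h.c0, h.oξ.mono hm, h.oσ.mono hm, h.σξ, h.ξσ, h.fst⟩

theorem Ord.cone {n : WithTop ℕ∞} {u : ℂ → ℂ × ℂ} {a : ℂ × ℂ} (h : Ord n u l a) (hn : n ≠ 0)
    (h1 : a.1 ≠ 0) (h2 : a.2 = 0) : ∀ᶠ s in 𝓝[≠] (0 : ℂ), 2 * ‖(u s).2‖ < ‖(u s).1‖ := by
  have t1 := ((ord_fst h hn).tendsto hn).norm
  have t2 := ((ord_snd h hn).tendsto hn).norm.const_mul 2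
  filter_upwards [t2.eventually_lt t1 (by simpa [h2] using h1), self_mem_nhdsWithin] with s hs s0
  have : 0 < ‖(s ^ (l + 1))⁻¹‖ := norm_pos_iff.2 (inv_ne_zero (pow_ne_zero _ s0))
  rw [norm_smul, norm_smul, mul_left_comm] at hs
  exact lt_of_mul_lt_mul_left hs this.le

theorem two_le_inf : (2 : WithTop ℕ∞) ≤ ∞ := WithTop.coe_le_coe.2 (le_top : (2 : ℕ∞) ≤ ⊤)

variable {J : ℂ × ℂ → ℂ × ℂ →L[ℝ] ℂ × ℂ} {u z : ℂ → ℂ × ℂ} {a : ℂ × ℂ} {σ ξ : ℂ → ℂ} {c : ℂ}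

theorem Grm.cu_two (h : Grm J z) : ∀ᶠ s in 𝓝 (0 : ℂ), ContDiffAt ℝ 2 z s ∧ CR J z s :=
  h.hol.mono fun _ hs => ⟨hs.1.of_le two_le_inf, hs.2⟩

theorem Grm.cu_ord (hJ : Acs J) (h : Grm J z) (nc : ¬z =ᶠ[𝓝 0] 0) : ∃ l a, a ≠ 0 ∧ Ord ∞ z l a :=
  (order (sim_holds _) hJ two_le_inf h.hol h.zero).resolve_left nc

/-- The index along another curve is positive. -/
theorem wq_pos (hJ : Acs J) (hu : Grm J u) (ho : Ord 2 u l a) (a1 : a.1 ≠ 0)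
    (f : Nf 2 u l σ ξ c) (hW : Ord 2 (fun τ => (u (σ τ)).2) l 0) (h1 : ∀ p, ‖χ p‖ ≤ 1)
    (h2 : ∀ p, 2 * ‖p.2‖ < ‖p.1‖ → χ p = 1) (hz : Grm J z)
    (fr : ∃ᶠ s in 𝓝 (0 : ℂ), wq χ l (fun τ => (u (σ τ)).2) (z s) ≠ 0)
    (hc : ∀ᶠ s in 𝓝[≠] (0 : ℂ), z s ≠ 0 →
      ContinuousAt (fun s => wq χ l (fun τ => (u (σ τ)).2) (z s)) s) :
    ∃ n : ℕ, 0 < n ∧ HasIdx (fun s => wq χ l (fun τ => (u (σ τ)).2) (z s)) 0 n := by
  set W : ℂ → ℂ := fun τ => (u (σ τ)).2 with hWd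
  have w0 : wq χ l W 0 = 0 := by
    rw [wq_eq (τ := 0) (by simp)]
    exact Finset.prod_eq_zero one_mem_rts (by simp [hW.zero])
  obtain ⟨k, b, b0, ob⟩ := hz.cu_ord hJ fun c => fr (c.mono fun s hs => by simp [hs, w0])
  have ob2 := ob.mono two_le_inf
  replace hc : ∀ᶠ s in 𝓝[≠] (0 : ℂ), ContinuousAt (fun s => wq χ l W (z s)) s :=
    (hc.and (ob2.ne_zero two_ne_zero b0)).mono fun s hs => hs.1 hs.2
  by_cases b2 : b.2 = 0
  swap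
  · refine ⟨(k + 1) * (l + 1), by positivity, lead_idx (pow_ne_zero (l + 1) b2) hc ?_⟩
    have : ∀ ζ ∈ rts l, Tendsto (fun s : ℂ => (s ^ (k + 1))⁻¹ •
        ((z s).2 - χ (z s) * W (ζ * rt l (z s).1))) (𝓝[≠] 0) (𝓝 b.2) := fun ζ hζ => by
      have e1 : ∀ s, (ζ * rt l (z s).1) ^ (l + 1) = (z s).1 := fun s =>
        (rts_pow hζ).trans (rt_pow l _)
      have t1 : Tendsto (fun s => ζ * rt l (z s).1) (𝓝 0) (𝓝 0) := fun S hS =>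
        (ob2.tendsto_zero.eventually (ev_root' l hS)).mono fun s hs => hs _ (e1 s)
      have o1 := (hW.small two_ne_zero).comp_tendsto t1
      have o2 : (fun s => χ (z s) * W (ζ * rt l (z s).1)) =o[𝓝 0] fun s : ℂ => s ^ (k + 1) := by
        refine IsBigO.trans_isLittleO (IsBigO.of_bound 1 (Eventually.of_forall fun s => ?_))
          (o1.trans_isBigO (((ord_fst ob2 two_ne_zero).bigO two_ne_zero).congr_left
            fun s => (e1 s).symm))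
        rw [norm_mul]
        exact mul_le_mul_of_nonneg_right (h1 _) (norm_nonneg _)
      have t2 := tendsto_of_littleO (f := fun s => χ (z s) * W (ζ * rt l (z s).1)) (b := 0)
        (k := k + 1) (by simpa using o2.mono nhdsWithin_le_nhds)
      simpa [mul_sub] using ((ord_snd ob2 two_ne_zero).tendsto two_ne_zero).sub t2
    have h3 := tendsto_finset_prod _ this
    rw [Finset.prod_const, card_rts] at h3
    refine h3.congr fun s => ?_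
    simp only [smul_eq_mul, Finset.prod_mul_distrib, Finset.prod_const, card_rts, wq, inv_pow,
      ← pow_mul]
  have b1 : b.1 ≠ 0 := fun c => b0 (Prod.ext c b2)
  obtain ⟨σ', ξ', c', -, f'⟩ := exists_nf ob2 two_ne_zero b1
  obtain ⟨ρ, d, d0, oρ, -, h⟩ := dich_aux hJ hz.cu_two ob2 f' hu.cu_two ho a1 f (mul_comm (l + 1) (k + 1))
  have op : Ord 2 (fun s : ℂ => s ^ (l + 1)) l 1 := by simpa using ord_pow 2 l 1
  have tp := op.tendsto_pn two_ne_zero one_ne_zero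
  have o3 := oρ.pow two_ne_zero d0 k 1
  have e1 : (fun s => wq χ l W (z (s ^ (l + 1)))) =ᶠ[𝓝[≠] 0] fun s =>
      ∏ ζ ∈ rts l, ((z (s ^ (l + 1))).2 - W (ζ * ρ s ^ (k + 1))) := by
    filter_upwards [tp.eventually (ob2.cone two_ne_zero b1 b2),
      mem_nhdsWithin_of_mem_nhds (h 1 (one_pow _)).2.1,
      mem_nhdsWithin_of_mem_nhds (o3.tendsto_zero.eventually f.pow)] with s k1 k2 k3
    rw [wq_eq (τ := ρ s ^ (k + 1)) (by rw [k2, k3, one_mul]), h2 _ k1]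
    simp only [one_mul]
  have nz : ∀ ζ ∈ rts l, ∃ (m : ℕ) (β : ℂ), β ≠ 0 ∧ Tendsto (fun s : ℂ => (s ^ m)⁻¹ •
      ((z (s ^ (l + 1))).2 - W (ζ * ρ s ^ (k + 1)))) (𝓝[≠] 0) (𝓝 β) := fun ζ hζ => by
    refine ((h ζ (mem_rts.1 hζ)).2.2).resolve_left fun c => fr ?_
    have : ∀ᶠ s in 𝓝[≠] (0 : ℂ), wq χ l W (z s) = 0 := by
      rw [← tendsto_pow_pn l, eventually_map]
      filter_upwards [c, e1] with s k1 k2
      rw [k2]; exact Finset.prod_eq_zero hζ k1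
    filter_upwards [eventually_nhdsWithin_iff.1 this] with s hs
    by_cases s0 : s = 0
    · simp [s0, hz.zero, w0]
    · simp [hs s0]
  choose! m β β0 hβ using nz
  have mpos : ∀ ζ ∈ rts l, 0 < m ζ := fun ζ hζ => by
    refine lead_lt (β0 ζ hζ) (hβ ζ hζ) ?_
    simp only [pow_zero, isLittleO_one_iff]
    have t1 := ((ord_snd ob2 two_ne_zero).tendsto_zero.comp op.tendsto_zero).sub
      (hW.tendsto_zero.comp (oρ.pow two_ne_zero d0 k ζ).tendsto_zero)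
    simpa using t1.mono_left nhdsWithin_le_nhds
  have h3 := tendsto_finset_prod _ hβ
  have h4 : Tendsto (fun s : ℂ => (s ^ (∑ ζ ∈ rts l, m ζ))⁻¹ • wq χ l W (z (s ^ (l + 1))))
      (𝓝[≠] 0) (𝓝 (∏ ζ ∈ rts l, β ζ)) := h3.congr' (e1.mono fun s hs => by
    simp only [hs, smul_eq_mul, Finset.prod_mul_distrib, Finset.prod_inv_distrib,
      Finset.prod_pow_eq_pow_sum])
  have p0 := Finset.prod_ne_zero_iff.2 β0
  have h5 : ∀ᶠ s in 𝓝[≠] (0 : ℂ), wq χ l W (z s) ≠ 0 := by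
    rw [← tendsto_pow_pn l, eventually_map]; exact lead_ne p0 h4
  obtain ⟨n, hn⟩ := (end_pn 0).exists_idx (hc.and h5)
  have h6 := (end_pn 0).comp hn tp (m := (l + 1 : ℕ)) (by simpa using idx_pow (𝓝[≠] 0) 0 (l + 1))
  have h7 := (end_pn 0).unique h6 (lead_idx p0 ((end_pn 0).cont h6) h4)
  have h8 : 0 < ∑ ζ ∈ rts l, m ζ := Finset.sum_pos mpos ⟨1, one_mem_rts⟩
  have h9 : 0 < n := by
    by_contra hh
    have : ((l + 1 : ℕ) : ℤ) * n ≤ 0 := mul_nonpos_of_nonneg_of_nonpos (by positivity) (by omega)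
    omega
  exact ⟨n.toNat, by omega, hn.cast (by omega)⟩

end Pool.Agent.Lib.MP_1c0d65_gt.B
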