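import Pool.Agent.Lib.MP_1c0d65_gt.B.Loc
import Pool.Agent.Lib.MP_1c0d65_gt.W.Idx

/-! The local equation of a pseudoholomorphic branch: definitions. -/

open Filter Topology
open scoped ContDiff

namespace Pool.Agent.Lib.MP_1c0d65_gt.B

open W

/-- A germ of a smooth `J`-holomorphic curve through the origin. -/
structure Grm (J : ℂ × ℂ → ℂ × ℂ →L[ℝ] ℂ × ℂ) (z : ℂ → ℂ × ℂ) : Prop where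
  hol : ∀ᶠ s in 𝓝 (0 : ℂ), ContDiffAt ℝ ∞ z s ∧ CR J z s
  zero : z 0 = 0

/-- A nowhere zero form of type `(2,0)` near the origin. -/
structure Can (J : ℂ × ℂ → ℂ × ℂ →L[ℝ] ℂ × ℂ) (Ω : ℂ × ℂ → ℂ × ℂ →L[ℝ] ℂ × ℂ →L[ℝ] ℂ) : Prop where
  cd : ∀ᶠ p in 𝓝 (0 : ℂ × ℂ), ContDiffAt ℝ ∞ Ω p
  ne : Ω 0 ≠ 0
  alt : ∀ᶠ p in 𝓝 (0 : ℂ × ℂ), ∀ v, Ω p v v = 0
  lin : ∀ᶠ p in 𝓝 (0 : ℂ × ℂ), ∀ v w, Ω p (J p v) w = Complex.I * Ω p v w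

/-- `P` is an equation of the branch `z`. -/
structure Eqn (J : ℂ × ℂ → ℂ × ℂ →L[ℝ] ℂ × ℂ) (Ω : ℂ × ℂ → ℂ × ℂ →L[ℝ] ℂ × ℂ →L[ℝ] ℂ)
    (z : ℂ → ℂ × ℂ) (P : ℂ × ℂ → ℂ) : Prop where
  cd : ∀ᶠ p in 𝓝[≠] (0 : ℂ × ℂ), ContDiffAt ℝ ∞ P p
  van : ∀ᶠ s in 𝓝 (0 : ℂ), P (z s) = 0
  zeros : ∀ S ∈ 𝓝 (0 : ℂ), ∀ᶠ p in 𝓝 (0 : ℂ × ℂ), P p = 0 → ∃ s ∈ S, p = z s
  pos : ∀ z', Grm J z' → (∃ᶠ s in 𝓝 (0 : ℂ), P (z' s) ≠ 0) →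
    ∃ n : ℕ, 0 < n ∧ HasIdx (fun s => P (z' s)) 0 n
  adj : ∃ (h : ℂ → ℂ) (e : ℕ), HasIdx h 0 e ∧ e ≠ 1 ∧ (e = 0 ↔ fderiv ℝ z 0 1 ≠ 0) ∧
    ∀ᶠ s in 𝓝[≠] (0 : ℂ), ContDiffAt ℝ ∞ h s ∧ ∀ v,
      ‖fderiv ℝ P (z s) v - h s * Ω (z s) (fderiv ℝ z s 1) v‖ ≤
        1 / 2 * ‖h s * Ω (z s) (fderiv ℝ z s 1) v‖

end Pool.Agent.Lib.MP_1c0d65_gt.B
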