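import Pool.Agent.Lib.MP_1c0d65_gt.E.CuspD

/-! A smooth equation of an immersed branch with prescribed differential. -/

open Filter Topology
open scoped ContDiff

namespace Pool.Agent.Lib.MP_1c0d65_gt.B

open W

/-- a local inverse that is smooth near the point -/
theorem cuspL_inv {V : Type*} [NormedAddCommGroup V] [NormedSpace ℝ V] [CompleteSpace V]
    {φ : V → V} {a : V} (h : ∀ᶠ s in 𝓝 a, ContDiffAt ℝ ∞ φ s) {D : V ≃L[ℝ] V}
    (hD : HasFDerivAt φ (D : V →L[ℝ] V) a) : ∃ ψ : V → V, (∀ᶠ y in 𝓝 (φ a), ContDiffAt ℝ ∞ ψ y) ∧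
      (∀ᶠ s in 𝓝 a, ψ (φ s) = s) ∧ ∀ᶠ y in 𝓝 (φ a), φ (ψ y) = y := by
  have h0 := h.self_of_nhds
  let e := h0.toOpenPartialHomeomorph φ hD (by simp)
  have hs : a ∈ e.source := h0.mem_toOpenPartialHomeomorph_source hD (by simp)
  have ht : φ a ∈ e.target := e.map_source hs
  have hc : Tendsto e.symm (𝓝 (φ a)) (𝓝 a) := e.tendsto_symm hs
  have hi : ∀ᶠ s in 𝓝 a, fderiv ℝ φ s ∈ Set.range ((↑) : (V ≃L[ℝ] V) → V →L[ℝ] V) :=
    (h0.continuousAt_fderiv (by simp)).eventually (by rw [hD.fderiv]; exact D.nhds)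
  refine ⟨e.symm, ?_, e.eventually_left_inverse hs, e.eventually_right_inverse' hs⟩
  filter_upwards [e.open_target.mem_nhds ht, hc.eventually (h.and hi)] with y hy ⟨h1, D', h2⟩
  exact e.contDiffAt_symm hy (f₀' := D') (h2 ▸ (h1.differentiableAt (by simp)).hasFDerivAt) h1

theorem cuspL_lin {V : Type*} [NormedAddCommGroup V] [NormedSpace ℝ V] (L : ℂ →L[ℝ] V) (c : ℂ) :
    L c = c.re • L 1 + c.im • L .I := by
  conv_lhs => rw [show c = c.re • (1 : ℂ) + c.im • Complex.I by simp, map_add, map_smul, map_smul]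

/-- a smooth retraction onto an immersed branch -/
theorem Grm.exists_retr {J z} (hJ : Acs J) (hz : Grm J z) (imm : fderiv ℝ z 0 1 ≠ 0) :
    ∃ R : ℂ × ℂ → ℂ, (∀ᶠ p in 𝓝 (0 : ℂ × ℂ), ContDiffAt ℝ ∞ R p) ∧
      ∀ᶠ s in 𝓝 (0 : ℂ), R (z s) = s := by
  obtain ⟨l, hl⟩ := SeparatingDual.exists_eq_one (R := ℂ) imm
  obtain ⟨h0, hc⟩ := hz.hol.self_of_nhds
  have hd := (l.restrictScalars ℝ).hasFDerivAt.comp 0
    (h0.differentiableAt (by simp)).hasFDerivAt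
  have e : (l.restrictScalars ℝ).comp (fderiv ℝ z 0) = ContinuousLinearEquiv.refl ℝ ℂ := by
    ext c
    rw [CR, hz.zero, hJ.zero, mI_apply] at hc
    rw [ContinuousLinearMap.comp_apply, cuspL_lin (fderiv ℝ z 0), hc]
    simp [hl]
  rw [e] at hd
  obtain ⟨ψ, h1, h2, -⟩ := cuspL_inv (hz.hol.mono fun s hs =>
    (l.restrictScalars ℝ).contDiff.contDiffAt.comp s hs.1) hd
  refine ⟨fun p => ψ (l p), ?_, h2⟩
  have : Tendsto l (𝓝 0) (𝓝 ((l.restrictScalars ℝ ∘ z) 0)) := by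
    simpa [hz.zero] using l.continuous.tendsto 0
  filter_upwards [this.eventually h1] with p hp
  exact hp.comp p (l.restrictScalars ℝ).contDiff.contDiffAt

/-- At an immersed point: a smooth equation with prescribed differential along the branch. -/
theorem Grm.exists_loc {J Ω z} (hJ : Acs J) (hΩ : Can J Ω) (hz : Grm J z)
    (imm : fderiv ℝ z 0 1 ≠ 0) : ∃ (P R : ℂ × ℂ → ℂ),
      (∀ᶠ p in 𝓝 (0 : ℂ × ℂ), ContDiffAt ℝ ∞ P p ∧ ContDiffAt ℝ ∞ R p) ∧
      ∀ᶠ s in 𝓝 (0 : ℂ), P (z s) = 0 ∧ R (z s) = s ∧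
        ∀ v, fderiv ℝ P (z s) v = Ω (z s) (fderiv ℝ z s 1) v := by
  obtain ⟨R, hR, hR'⟩ := hz.exists_retr hJ imm
  have hz0 : Tendsto z (𝓝 0) (𝓝 0) := by
    simpa [hz.zero] using hz.hol.self_of_nhds.1.continuousAt.tendsto
  have hR0 : Tendsto R (𝓝 0) (𝓝 0) := by
    have := hR'.self_of_nhds
    rw [hz.zero] at this
    simpa [this] using hR.self_of_nhds.continuousAt.tendsto
  set Λ : ℂ → ℂ × ℂ →L[ℝ] ℂ := fun s => Ω (z s) (fderiv ℝ z s 1) with hΛ
  have hΛc : ∀ᶠ s in 𝓝 (0 : ℂ), ContDiffAt ℝ ∞ Λ s := by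
    filter_upwards [hz.hol, hz0.eventually hΩ.cd] with s h1 h2
    exact (h2.comp s h1.1).clm_apply
      ((h1.1.fderiv_right (m := ∞) (by simp)).clm_apply contDiffAt_const)
  refine ⟨fun p => Λ (R p) (p - z (R p)), R, ?_, ?_⟩
  · filter_upwards [hR, hR0.eventually (hΛc.and hz.hol)] with p h1 h2
    exact ⟨(h2.1.comp p h1).clm_apply (contDiffAt_id.sub (h2.2.1.comp p h1)), h1⟩
  · filter_upwards [hR', hz0.eventually hR, hΛc, hz.hol, hz0.eventually hΩ.alt,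
      hz0.eventually hΩ.lin] with s h1 h2 h3 h4 h5 h6
    refine ⟨by simp [h1], h1, fun v => ?_⟩
    have d1 := (h2.differentiableAt (by simp)).hasFDerivAt
    have d2 : HasFDerivAt Λ (fderiv ℝ Λ s) (R (z s)) :=
      h1.symm ▸ (h3.differentiableAt (by simp)).hasFDerivAt
    have d3 : HasFDerivAt z (fderiv ℝ z s) (R (z s)) :=
      h1.symm ▸ (h4.1.differentiableAt (by simp)).hasFDerivAt
    have d := (d2.comp _ d1).clm_apply ((hasFDerivAt_id (z s)).sub (d3.comp _ d1))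
    have e1 : Λ s (fderiv ℝ z s 1) = 0 := h5 _
    have e2 : Λ s (fderiv ℝ z s .I) = 0 := by
      have a1 := h5 (fderiv ℝ z s 1 + fderiv ℝ z s .I)
      have a2 := h6 (fderiv ℝ z s 1) (fderiv ℝ z s 1)
      rw [← h4.2, h5, mul_zero] at a2
      simpa [h5, a2] using a1
    have := d.fderiv
    simp only [Function.comp_def, Pi.sub_apply, id] at this
    rw [show fderiv ℝ (fun p => Λ (R p) (p - z (R p))) (z s) = _ from this]
    change _ = Λ s v
    simp [h1, cuspL_lin (fderiv ℝ z s) (fderiv ℝ R (z s) v), e1, e2]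

end Pool.Agent.Lib.MP_1c0d65_gt.B
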