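import Pool.Agent.Lib.MP_1c0d65_gt.E.CuspD

/-! The equation of a branch at an immersed point. -/

open Filter Topology Asymptotics ContinuousLinearMap
open scoped ContDiff

namespace Pool.Agent.Lib.MP_1c0d65_gt.B

open W

theorem Ord.fderiv_zero {E : Type*} [NormedAddCommGroup E] [NormedSpace ℝ E] [NormedSpace ℂ E]
    [IsScalarTower ℝ ℂ E] {n : WithTop ℕ∞} {u : ℂ → E} {l : ℕ} {a : E} (h : Ord n u l a)
    (hn : n ≠ 0) : fderiv ℝ u 0 = sm (((l + 1 : ℂ) * 0 ^ l) • a) := by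
  have o : (fun z : ℂ => z ^ (l + 1)) =O[𝓝 0] fun z : ℂ => z := by
    have : (fun z : ℂ => z ^ l) =O[𝓝 0] fun _ => (1 : ℂ) :=
      ((continuous_pow l).tendsto 0).isBigO_one ℂ
    simpa [pow_succ] using this.mul (isBigO_refl (fun z : ℂ => z) _)
  have h1 : HasFDerivAt (fun z => u z - z ^ (l + 1) • a) (0 : ℂ →L[ℝ] E) 0 := by
    rw [hasFDerivAt_iff_isLittleO]
    simpa [h.zero] using (h.val hn).trans_isBigO o
  have h2 := h1.add (hasFDerivAt_pow_smul l a 0)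
  have e : (fun z => u z - z ^ (l + 1) • a) + (fun w : ℂ => w ^ (l + 1) • a) = u := by
    funext z; simp
  rw [e, zero_add] at h2
  exact h2.fderiv

variable {J : ℂ × ℂ → ℂ × ℂ →L[ℝ] ℂ × ℂ} {z : ℂ → ℂ × ℂ}

theorem Grm.twoR (hz : Grm J z) : ∀ᶠ s in 𝓝 (0 : ℂ), ContDiffAt ℝ 2 z s ∧ CR J z s :=
  hz.hol.mono fun _ h => ⟨h.1.of_le (by norm_cast), h.2⟩

theorem Grm.ordR (hJ : Acs J) (hz : Grm J z) : z =ᶠ[𝓝 0] 0 ∨ ∃ l a, a ≠ 0 ∧ Ord ∞ z l a :=
  order (sim_holds _) hJ (by norm_cast) hz.hol hz.zero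

theorem Grm.ord_imm (hJ : Acs J) (hz : Grm J z) (imm : fderiv ℝ z 0 1 ≠ 0) :
    Ord ∞ z 0 (fderiv ℝ z 0 1) := by
  rcases hz.ordR hJ with h | ⟨l, a, -, h⟩
  · exact absurd (by rw [h.fderiv_eq]; simp) imm
  have h1 := h.fderiv_zero (by simp)
  rcases l with _ | l
  · rw [h1]; simpa using h
  · exact absurd (by rw [h1]; simp) imm

theorem Grm.conj (hz : Grm J z) (A : (ℂ × ℂ) ≃L[ℂ] ℂ × ℂ) : Grm (conj A J) fun s => A (z s) :=
  ⟨hz.hol.mono fun s h => ⟨((A : ℂ × ℂ →L[ℂ] ℂ × ℂ).restrictScalars ℝ).contDiff.contDiffAt.comp s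
    h.1, h.2.conj A (h.1.differentiableAt (by simp))⟩, by simp [hz.zero]⟩

theorem lin_of_I {lam : ℂ × ℂ →L[ℝ] ℂ} (l1 : ∀ v, lam (Complex.I • v) = Complex.I * lam v)
    (k : ℂ) (v : ℂ × ℂ) : lam (k • v) = k * lam v := by
  have e : k • v = k.re • v + k.im • Complex.I • v := by
    conv_lhs => rw [← Complex.re_add_im k]
    rw [add_smul, mul_smul, Complex.coe_smul, Complex.coe_smul]
  rw [e, map_add, map_smul, map_smul, l1]
  conv_rhs => rw [← Complex.re_add_im k]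
  simp only [Complex.real_smul]
  ring

theorem reg_aux (hJ : Acs J) (hz : Grm J z) {a : ℂ × ℂ} (ho : Ord ∞ z 0 a) (ha : a.1 ≠ 0)
    {P : ℂ × ℂ → ℂ} (hP : ContDiffAt ℝ 1 P 0) (van : ∀ᶠ s in 𝓝 (0 : ℂ), P (z s) = 0)
    {lam : ℂ × ℂ →L[ℝ] ℂ} (l0 : lam ≠ 0) (l1 : ∀ v, lam (Complex.I • v) = Complex.I * lam v)
    {θ : ℝ} (hθ : θ < 1) (near : ∀ v, ‖fderiv ℝ P 0 v - lam v‖ ≤ θ * ‖lam v‖) :
    (∀ S ∈ 𝓝 (0 : ℂ), ∀ᶠ p in 𝓝 (0 : ℂ × ℂ), P p = 0 → ∃ s ∈ S, p = z s) ∧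
      ∀ z' l' a', Grm J z' → Ord ∞ z' l' a' → a'.1 ≠ 0 → (∃ᶠ s in 𝓝 (0 : ℂ), P (z' s) ≠ 0) →
        ∃ n : ℕ, 0 < n ∧ HasIdx (fun s => P (z' s)) 0 n := by
  have n0 : (∞ : WithTop ℕ∞) ≠ 0 := by simp
  obtain ⟨σ, oσ, -, h2⟩ := (ord_fst ho n0).inverse n0 ha
  have sP := hP.hasStrictFDerivAt one_ne_zero
  have la : lam a = 0 := by
    have d1 : HasFDerivAt (fun s => P (z s)) ((fderiv ℝ P 0).comp (sm a)) 0 :=
      HasFDerivAt.comp (g := P) 0 (hz.zero.symm ▸ sP.hasFDerivAt) (ho.strict n0).hasFDerivAt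
    have d2 : HasFDerivAt (fun s => P (z s)) (0 : ℂ →L[ℝ] ℂ) 0 :=
      (hasFDerivAt_const (0 : ℂ) (0 : ℂ)).congr_of_eventuallyEq van
    have d3 : fderiv ℝ P 0 a = 0 := by
      simpa using congrArg (fun T : ℂ →L[ℝ] ℂ => T 1) (d1.unique d2)
    have := near a
    rw [d3, zero_sub, norm_neg] at this
    exact norm_le_zero_iff.1 (by nlinarith [norm_nonneg (lam a)])
  set c := lam (0, 1) with hc
  have lw : ∀ w : ℂ, lam (0, w) = c * w := fun w => by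
    rw [mul_comm, hc, ← lin_of_I l1]; simp
  have c0 : c ≠ 0 := fun h => l0 (by
    refine ContinuousLinearMap.ext fun v => ?_
    have e : v = (v.1 / a.1) • a + (0, v.2 - v.1 / a.1 * a.2) := by
      ext <;> simp [ha]
    rw [e, map_add, lin_of_I l1, la, lw, h]; simp)
  have cp := norm_pos_iff.2 c0
  have t1 : Tendsto (fun p : ℂ × ℂ => σ p.1) (𝓝 0) (𝓝 0) :=
    oσ.tendsto_zero.comp (continuous_fst.tendsto 0)
  have t2 : Tendsto (fun p : ℂ × ℂ => (p, z (σ p.1))) (𝓝 0) (𝓝 (0, 0)) :=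
    tendsto_id.prodMk_nhds (ho.tendsto_zero.comp t1)
  have est : ∀ᶠ p in 𝓝 (0 : ℂ × ℂ), (z (σ p.1)).1 = p.1 ∧
      ‖P p - c * (p.2 - (z (σ p.1)).2)‖ ≤ (1 + θ) / 2 * ‖c * (p.2 - (z (σ p.1)).2)‖ := by
    filter_upwards [t2.eventually (sP.isLittleO.def (c := (1 - θ) / 2 * ‖c‖) (by
      have := sub_pos.2 hθ; positivity)), t1.eventually van,
      (continuous_fst.tendsto (0 : ℂ × ℂ)).eventually h2] with p h3 h4 h5
    refine ⟨h5, ?_⟩
    set w := p.2 - (z (σ p.1)).2 with hw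
    have e : p - z (σ p.1) = (0, w) := Prod.ext (sub_eq_zero.2 h5.symm) rfl
    simp only [h4, e, sub_zero, Prod.norm_mk, norm_zero] at h3
    rw [max_eq_right (norm_nonneg _)] at h3
    have h6 := near (0, w)
    rw [lw] at h6
    have h7 := norm_sub_le_norm_sub_add_norm_sub (P p) (fderiv ℝ P 0 (0, w)) (c * w)
    rw [norm_mul] at h6 ⊢
    nlinarith
  have lt : ∀ w : ℂ, w ≠ 0 → (1 + θ) / 2 * ‖c * w‖ < ‖c * w‖ := fun w hw =>
    mul_lt_of_lt_one_left (norm_pos_iff.2 (mul_ne_zero c0 hw)) (by linarith)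
  refine ⟨fun S hS => ?_, fun z' l' a' hz' o' ha' fr => ?_⟩
  · filter_upwards [est, t1.eventually hS] with p h3 h4 h5
    refine ⟨_, h4, Prod.ext h3.1.symm (sub_eq_zero.1 (by_contra fun hw => ?_))⟩
    have := h3.2.trans_lt (lt _ hw)
    rw [h5, zero_sub, norm_neg] at this
    exact lt_irrefl _ this
  have oφ : Ord ∞ (fun s => σ (z' s).1) l' (a'.1 * a.1⁻¹) := by
    simpa using oσ.comp (ord_fst o' n0) n0 ha'
  have e0 := mul_ne_zero ha' (inv_ne_zero ha)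
  have es := o'.tendsto_zero.eventually est
  have hd : Dich fun s => (z' s).2 - (z (σ (z' s).1)).2 :=
    diff_dich (sim_holds ℂ) hJ (o'.mono (by norm_cast))
      ((hz'.hol.mono fun _ h => h.2).filter_mono nhdsWithin_le_nhds) hz.twoR (ho.mono (by norm_cast))
      ha (oφ.mono (by norm_cast)) e0 ((es.mono fun _ h => h.1.symm).filter_mono nhdsWithin_le_nhds)
  have o2 := ord_snd (ho.comp oφ n0 e0) n0
  have o3 := ord_snd o' n0
  rcases hd with hd | ⟨n, b, b0, hd⟩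
  · refine absurd fr (not_frequently.2 ?_)
    filter_upwards [es, eventually_nhdsWithin_iff.1 hd] with s h3 h4 h5
    have h6 : (z' s).2 - (z (σ (z' s).1)).2 = 0 := by
      by_cases s0 : s = 0
      · rw [s0, o2.zero, o3.zero, sub_zero]
      · exact h4 s0
    rw [h6] at h3
    exact h5 (by simpa using h3.2)
  refine ⟨n, lead_lt b0 hd ?_, ?_⟩
  · simp only [pow_zero, isLittleO_one_iff]
    simpa using (o3.tendsto_zero.sub o2.tendsto_zero).mono_left nhdsWithin_le_nhds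
  have i1 : HasIdx (fun s => (z' s).2 - (z (σ (z' s).1)).2) 0 n :=
    (end_pn 0).of_lim b0 ((o3.cd.and o2.cd).mono fun s h => h.1.continuousAt.sub h.2.continuousAt)
      (by simpa using hd)
  refine (end_pn 0).close ((end_pn 0).const_mul i1 c0) ?_
  filter_upwards [lead_ne b0 hd, mem_nhdsWithin_of_mem_nhds es, o'.cd, mem_nhdsWithin_of_mem_nhds
    (o'.tendsto_zero.eventually (hP.eventually (by simp)))] with s h3 h4 h5 h6
  exact ⟨h6.continuousAt.comp h5.continuousAt, h4.2.trans_lt (lt _ h3)⟩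

/-- At an immersed point: any `C^1` function that vanishes on the branch and whose differential is
close to a complex linear form cuts out the branch and has positive index on other curves. -/
theorem Grm.reg {J z} (hJ : Acs J) (hz : Grm J z) (imm : fderiv ℝ z 0 1 ≠ 0) {P : ℂ × ℂ → ℂ}
    (hP : ContDiffAt ℝ 1 P 0) (van : ∀ᶠ s in 𝓝 (0 : ℂ), P (z s) = 0) {lam : ℂ × ℂ →L[ℝ] ℂ}
    (l0 : lam ≠ 0) (l1 : ∀ v, lam (Complex.I • v) = Complex.I * lam v) {θ : ℝ} (hθ : θ < 1)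
    (near : ∀ v, ‖fderiv ℝ P 0 v - lam v‖ ≤ θ * ‖lam v‖) :
    (∀ S ∈ 𝓝 (0 : ℂ), ∀ᶠ p in 𝓝 (0 : ℂ × ℂ), P p = 0 → ∃ s ∈ S, p = z s) ∧
      ∀ z', Grm J z' → (∃ᶠ s in 𝓝 (0 : ℂ), P (z' s) ≠ 0) →
        ∃ n : ℕ, 0 < n ∧ HasIdx (fun s => P (z' s)) 0 n := by
  have n0 : (∞ : WithTop ℕ∞) ≠ 0 := by simp
  have ho := hz.ord_imm hJ imm
  have key := fun (c : ℂ) (hc : (fderiv ℝ z 0 1).1 + c * (fderiv ℝ z 0 1).2 ≠ 0) => by
    let A : ℂ × ℂ →L[ℝ] ℂ × ℂ := (shear c : ℂ × ℂ →L[ℂ] ℂ × ℂ).restrictScalars ℝ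
    let B : ℂ × ℂ →L[ℝ] ℂ × ℂ := ((shear c).symm : ℂ × ℂ →L[ℂ] ℂ × ℂ).restrictScalars ℝ
    have BA : ∀ v, B (shear c v) = v := (shear c).symm_apply_apply
    have hP' : ContDiffAt ℝ 1 P (B 0) := by rwa [map_zero]
    have d : fderiv ℝ (P ∘ B) 0 = (fderiv ℝ P 0).comp B := by
      rw [((hP'.differentiableAt one_ne_zero).hasFDerivAt.comp 0 B.hasFDerivAt).fderiv, map_zero]
    exact reg_aux (hJ.conj (shear c)) (hz.conj (shear c))
      (ho.clm n0 A fun k v => (shear c).map_smul k v) (by simpa [A] using hc) (P := P ∘ B)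
      (hP'.comp 0 B.contDiff.contDiffAt) (van.mono fun s hs => by rwa [Function.comp, BA])
      (lam := lam.comp B) (fun h => l0 (by
        refine ContinuousLinearMap.ext fun v => ?_
        rw [← BA v]
        exact congrArg (fun T : ℂ × ℂ →L[ℝ] ℂ => T (shear c v)) h))
      (fun v => (congrArg lam ((shear c).symm.map_smul Complex.I v)).trans (l1 _)) hθ
      (fun v => by rw [d]; exact near _)
  refine ⟨fun S hS => ?_, fun z' hz' fr => ?_⟩
  · obtain ⟨c, hc⟩ := exists_shear (S := {fderiv ℝ z 0 1}) (Set.toFinite _) (by simpa using imm.symm)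
    have t : Tendsto (shear c) (𝓝 0) (𝓝 0) := (shear c).continuous.tendsto' _ _ (map_zero _)
    filter_upwards [t.eventually ((key c (hc _ rfl)).1 S hS)] with p hp h0
    obtain ⟨s, h1, h2⟩ := hp (by simpa [-shear_apply] using h0)
    exact ⟨s, h1, (shear c).injective h2⟩
  · rcases hz'.ordR hJ with h | ⟨l', a', b', o'⟩
    · refine absurd fr (not_frequently.2 (h.mono fun s hs h1 => h1 ?_))
      rw [hs, Pi.zero_apply, ← hz.zero]
      exact van.self_of_nhds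
    obtain ⟨c, hc⟩ := exists_shear (S := {fderiv ℝ z 0 1, a'}) (Set.toFinite _)
      (by simp [imm.symm, b'.symm])
    have := (key c (hc _ (by simp))).2 _ l' _ (hz'.conj (shear c))
      (o'.clm n0 ((shear c : ℂ × ℂ →L[ℂ] ℂ × ℂ).restrictScalars ℝ) fun k v => (shear c).map_smul k v)
      (by simpa using hc a' (by simp)) (by simpa [-shear_apply] using fr)
    simpa [-shear_apply] using this

end Pool.Agent.Lib.MP_1c0d65_gt.B
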