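import Pool.Agent.Lib.MP_1c0d65_gt.PW.PlotA
import Pool.Agent.Lib.MP_1c0d65_gt.PW.Int
import Pool.Agent.Lib.MP_1c0d65_gt.Top.Prim

/-! A closed two-form vanishes near a finite set after subtracting an exact form. -/

set_option autoImplicit false
set_option linter.unusedSectionVars false

open scoped Manifold ContDiff Topology
open Set Filter Metric

noncomputable section

namespace Pool.Agent.Lib.MP_1c0d65_gt.PW

variable {X : Type} [TopologicalSpace X] [ChartedSpace E X] [IsManifold 𝓘(ℝ, E) ∞ X]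
  [T2Space X] [CompactSpace X] {α : X → Bil E ℝ}

theorem Closed.loc_prim (h : Closed α) {U : Set X} (hU : IsOpen U) {x : X} (hx : x ∈ U) :
    ∃ (V : Set X) (a : X → E →L[ℝ] ℝ), IsOpen V ∧ x ∈ V ∧ V ⊆ U ∧ IsD V a α := by
  have hs := mem_chart_source E x
  obtain ⟨r, hr, hb⟩ := Metric.isOpen_iff.1 (isOpen_dom x hU) _ (mem_dom hs hx)
  have hb' := hb.trans (dom_mono x (subset_univ U))
  obtain ⟨b, b1, b2⟩ := Top.exists_prim2 isOpen_ball
    ((convex_ball _ r).starConvex (mem_ball_self hr)) ((h.1.2 x).mono hb')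
    (fun y _ v => by rw [pull2_apply]; exact h.1.1 _ trivial _) fun y hy => h.2 x y (hb' hy)
  have he := isChart_chartAt x
  have hV := (chartAt E x).isOpen_inter_preimage (isOpen_ball (x := chartAt E x x) (ε := r))
  refine ⟨_, IsChart.push1 (chartAt E x) b, hV, ⟨hs, mem_ball_self hr⟩, fun y hy => ?_,
    isD_of_local (he.sm1_push1 inter_subset_left fun p hp =>
      b1.contDiffAt (isOpen_ball.mem_nhds hp.2)) hV fun p hp => ⟨_, he, hp.1, ?_⟩⟩
  · have := (hb hy.2).2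
    rwa [mem_preimage, par_cht hy.1] at this
  · rw [ext1_congr (b := b) (by
      filter_upwards [(chartAt E x).open_target.mem_nhds ((chartAt E x).map_source hp.1)] with y hy
      exact he.pull1_push1 b hy)]
    exact (b2 _ hp.2).symm

theorem Closed.cut_pt (h : Closed α) {K : Set X} (hK : IsClosed K) {x : X} (hx : x ∉ K) :
    ∃ (a : X → E →L[ℝ] ℝ) (β : X → Bil E ℝ), IsD univ a β ∧ (∀ᶠ y in 𝓝ˢ K, a y = 0 ∧ β y = 0) ∧
      ∀ᶠ y in 𝓝 x, β y = α y := by
  obtain ⟨V, b, h1, h2, h3, h4⟩ := h.loc_prim hK.isOpen_compl hx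
  obtain ⟨χ, c0, c1, -⟩ := exists_contMDiffMap_zero_one_nhds_of_isClosed (n := ⊤) 𝓘(ℝ, E)
    h1.isClosed_compl (isClosed_singleton (x := x))
    (disjoint_compl_left_iff_subset.2 (singleton_subset_iff.2 h2))
  obtain ⟨A, a1, a2, a3⟩ := eventually_nhdsSet_iff_exists.1 c0
  obtain ⟨B, b1, b2, b3⟩ := eventually_nhdsSet_iff_exists.1 c1
  have d : ∀ {S : Set X} {k : ℝ}, IsOpen S → (∀ x ∈ S, χ x = k) → ∀ x ∈ S, dfn χ x = 0 :=
    fun {S k} hS h x hx => by
      rw [dfn_congr (g' := fun _ => k) (by filter_upwards [hS.mem_nhds hx] with y hy using h y hy)]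
      exact mfderiv_const
  have g : ∀ y ∈ A, χ y • b y = 0 ∧ w11 (dfn χ y) (b y) + χ y • α y = 0 := fun y hy =>
    ⟨by simp [a3 y hy], bil_ext fun v w => by simp [d a1 a3 y hy, a3 y hy]⟩
  refine ⟨_, _, (h4.fsmul h1 χ.contMDiff.contMDiffOn).extend h1 a1.isClosed_compl
    (compl_subset_comm.1 a2) (fun y hy => (g y (not_not.1 hy)).1) fun y hy => (g y (not_not.1 hy)).2,
    eventually_nhdsSet_iff_exists.2 ⟨A, a1, (subset_compl_comm.1 h3).trans a2, g⟩, ?_⟩
  filter_upwards [b1.mem_nhds (b2 rfl)] with y hy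
  exact bil_ext fun v w => by simp [d b1 b3 y hy, b3 y hy]

theorem Closed.cut_fin (h : Closed α) {K : Set X} (hK : IsClosed K) (h0 : ∀ᶠ y in 𝓝ˢ K, α y = 0)
    {T : Set X} (hT : T.Finite) : ∃ (a : X → E →L[ℝ] ℝ) (β : X → Bil E ℝ), IsD univ a β ∧
      (∀ᶠ y in 𝓝ˢ K, a y = 0) ∧ ∀ᶠ y in 𝓝ˢ (K ∪ T), (α - β) y = 0 := by
  induction T, hT using Finite.induction_on with
  | empty => exact ⟨0, 0, isD_zero, .of_forall fun _ => rfl, by simpa using h0⟩
  | @insert x T _ hT ih =>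
    obtain ⟨a, β, h1, h2, h3⟩ := ih
    by_cases hx : x ∈ K ∪ T
    · exact ⟨a, β, h1, h2, by rwa [union_insert, insert_eq_of_mem hx]⟩
    obtain ⟨a', β', g1, g2, g3⟩ := (h.sub h1.closed).cut_pt (hK.union hT.isClosed) hx
    refine ⟨a + a', β + β', h1.add g1 isOpen_univ, ?_, ?_⟩
    · filter_upwards [h2, nhdsSet_mono subset_union_left g2] with y e1 e2
      rw [Pi.add_apply, e1, e2.1, add_zero]
    · rw [union_insert, nhdsSet_insert, eventually_sup, ← sub_sub]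
      constructor
      · filter_upwards [g3] with y e
        rw [Pi.sub_apply, e, sub_self]
      · filter_upwards [h3, g2] with y e1 e2
        rw [Pi.sub_apply, e1, e2.2, sub_zero]

theorem Orb.cut_fin [MeasurableSpace X] {c : Ctx X} (O : Orb c) (h : Closed α) (ht : O.Test α)
    {T : Set X} (hT : T.Finite) : ∃ (a : X → E →L[ℝ] ℝ) (β : X → Bil E ℝ) (N N' : Set X),
      IsD univ a β ∧ IsOpen N ∧ (⋃ i, O.L i) ⊆ N ∧ (∀ y ∈ N, a y = 0) ∧
        IsOpen N' ∧ (⋃ i, O.L i) ∪ T ⊆ N' ∧ ∀ y ∈ N', (α - β) y = 0 := by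
  obtain ⟨a, β, h1, h2, h3⟩ := h.cut_fin (isClosed_iUnion_of_finite O.closed)
    (eventually_nhdsSet_iff_exists.2 ht) hT
  obtain ⟨N, n⟩ := eventually_nhdsSet_iff_exists.1 h2
  obtain ⟨N', n'⟩ := eventually_nhdsSet_iff_exists.1 h3
  exact ⟨a, β, N, N', h1, n.1, n.2.1, n.2.2, n'⟩

end Pool.Agent.Lib.MP_1c0d65_gt.PW
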