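import Pool.Agent.Lib.MP_1c0d65_gt.E.Cur
import Pool.Agent.Lib.MP_1c0d65_gt.PW.PlotA
import Pool.Agent.Lib.MP_1c0d65_gt.W.Arg

/-! The calculus of `d arg` on `X`, and smooth ratios of local equations. -/

set_option autoImplicit false
set_option linter.unusedSectionVars false

open scoped Manifold ContDiff Topology ComplexConjugate
open Set Filter

noncomputable section

namespace Pool.Agent.Lib.MP_1c0d65_gt.PW

variable {X : Type} [TopologicalSpace X] [ChartedSpace E X] {P Q R g g' : X → ℂ} {x y : X}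
  {U : Set X} {V : Type} [NormedAddCommGroup V] [NormedSpace ℝ V]

theorem dA_congr (h : P =ᶠ[𝓝 x] Q) : dA P x = dA Q x := by
  rw [dA, dA, dfn_congr h, h.eq_of_nhds]

theorem FnAt.md {W : Type} [NormedAddCommGroup W] [NormedSpace ℝ W] {g : X → W}
    (h : FnAt ∞ g x) : MDifferentiableAt 𝓘(ℝ, E) 𝓘(ℝ, W) g x := h.mdifferentiableAt (by simp)

theorem dA_pull {f : V → X} {y : V} (hP : FnAt ∞ P (f y)) (hf : DfAt f y) :
    pull1 f (dA P) y = W.darg (P ∘ f) y := by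
  ext v
  rw [pull1_apply, dA_apply, W.darg_apply, fderiv_fn_comp hP.md hf]
  rfl

theorem dA_const (k : ℂ) (x : X) : dA (fun _ => k) x = 0 := by
  have : dfn (fun _ : X => k) x = 0 := mfderiv_const
  ext v <;> simp [dA_apply, this]

theorem FnAt.cmul (hP : FnAt ∞ P x) (hQ : FnAt ∞ Q x) : FnAt ∞ (fun y => P y * Q y) x :=
  (contDiff_mul (𝕜 := ℝ) (𝔸 := ℂ)).contDiffAt.comp_contMDiffAt (hP.prodMk_space hQ)

theorem FnAt.cinv (hP : FnAt ∞ P x) (h : P x ≠ 0) : FnAt ∞ (fun y => (P y)⁻¹) x :=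
  (contDiffAt_inv ℝ h).comp_contMDiffAt hP

theorem FnAt.ofReal {ρ : X → ℝ} (h : FnAt ∞ ρ x) : FnAt ∞ (fun y => (ρ y : ℂ)) x :=
  Complex.ofRealCLM.contDiff.contDiffAt.comp_contMDiffAt h

theorem dfn_mul (hP : FnAt ∞ P x) (hQ : FnAt ∞ Q x) (v : E) :
    dfn (fun y => P y * Q y) x v = dfn P x v * Q x + P x * dfn Q x v := by
  have h2 := hP.md.hasMFDerivAt.mul' hQ.md.hasMFDerivAt
  have h3 := congrArg (fun L : E →L[ℝ] ℂ => L v) h2.mfderiv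
  refine h3.trans ?_
  change P x * dfn Q x v + dfn P x v * Q x = _
  ring

theorem dA_mul (hP : FnAt ∞ P x) (hQ : FnAt ∞ Q x) (h : P x ≠ 0) (h' : Q x ≠ 0) :
    dA (fun y => P y * Q y) x = dA P x + dA Q x := by
  refine ContinuousLinearMap.ext fun v => ?_
  rw [add_apply, dA_apply, dA_apply, dA_apply, dfn_mul hP hQ, ← Complex.add_im]
  congr 1
  field_simp

variable [IsManifold 𝓘(ℝ, E) ∞ X]

theorem isD_dA (hU : IsOpen U) (hP : ∀ x ∈ U, FnAt ∞ P x) (h0 : ∀ x ∈ U, P x ≠ 0) :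
    IsD U (dA P) 0 := fun x => by
  have h1 (y) (hy : y ∈ dom x U) : pull1 (par x) (dA P) =ᶠ[𝓝 y] W.darg (P ∘ par x) := by
    filter_upwards [(isOpen_dom x hU).mem_nhds hy] with z hz
    exact dA_pull (hP _ hz.2) ((par_smAt hz).dfAt (by simp))
  have h2 (y) (hy : y ∈ dom x U) : ContDiffAt ℝ ∞ (P ∘ par x) y :=
    (hP _ hy.2).comp_plot (par_smAt hy)
  refine ⟨fun y hy => ((W.contDiffAt_darg (h2 y hy) (h0 _ hy.2) top_le).congr_of_eventuallyEq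
    (h1 y hy)).contDiffWithinAt, fun y hy => ?_⟩
  rw [ext1_congr (h1 y hy), pull2_zero]
  refine bil_ext fun v w => ?_
  rw [ext1_apply, W.darg_closed ((h2 y hy).of_le two_le) (h0 _ hy.2), sub_self]
  rfl

/-- `P = g Q` near `y` with `g` smooth and `g y ≠ 0`. -/
def Rat (P Q : X → ℂ) (y : X) (g : X → ℂ) : Prop :=
  g y ≠ 0 ∧ ∀ᶠ w in 𝓝 y, FnAt ∞ g w ∧ P w = g w * Q w

theorem Rat.fn (h : Rat P Q y g) : FnAt ∞ g y := h.2.self_of_nhds.1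

theorem Rat.ev (h : Rat P Q y g) : ∀ᶠ w in 𝓝 y, Rat P Q w g := by
  filter_upwards [h.fn.continuousAt.eventually_ne h.1, h.2.eventually_nhds] with w h1 h2
  exact ⟨h1, h2⟩

theorem Rat.trans (h : Rat P Q y g) (h' : Rat Q R y g') : Rat P R y fun w => g w * g' w :=
  ⟨mul_ne_zero h.1 h'.1, (h.2.and h'.2).mono fun _ hw =>
    ⟨hw.1.1.cmul hw.2.1, by rw [hw.1.2, hw.2.2, mul_assoc]⟩⟩

theorem Rat.symm (h : Rat P Q y g) : Rat Q P y fun w => (g w)⁻¹ :=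
  ⟨inv_ne_zero h.1, h.ev.mono fun w hw => ⟨hw.fn.cinv hw.1, by
    rw [hw.2.self_of_nhds.2, inv_mul_cancel_left₀ hw.1]⟩⟩

theorem rat_const {k : ℂ} (hk : k ≠ 0) (h : ∀ᶠ w in 𝓝 y, P w = k * Q w) : Rat P Q y fun _ => k :=
  ⟨hk, h.mono fun _ hw => ⟨contMDiffAt_const, hw⟩⟩

theorem rat_of_ne (hP : ∀ᶠ w in 𝓝 y, FnAt ∞ P w) (hQ : ∀ᶠ w in 𝓝 y, FnAt ∞ Q w) (h : P y ≠ 0)
    (h' : Q y ≠ 0) : Rat P Q y fun w => P w * (Q w)⁻¹ := by
  refine ⟨mul_ne_zero h (inv_ne_zero h'), ?_⟩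
  filter_upwards [hP, hQ, hQ.self_of_nhds.continuousAt.eventually_ne h'] with w h1 h2 h3
  exact ⟨h1.cmul (h2.cinv h3), by rw [inv_mul_cancel_right₀ h3]⟩

theorem Rat.isD (h : Rat P Q y g) : ∃ N, IsOpen N ∧ y ∈ N ∧ IsD N (dA g) 0 := by
  obtain ⟨N, h1, h2, h3⟩ := mem_nhds_iff.1 h.ev
  exact ⟨N, h2, h3, isD_dA h2 (fun x hx => (h1 hx).fn) fun x hx => (h1 hx).1⟩

theorem Rat.dA_eq (h : Rat P Q y g) (hQ : FnAt ∞ Q y) (h0 : Q y ≠ 0) :
    dA P y = dA g y + dA Q y := by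
  rw [← dA_mul h.fn hQ h.1 h0]
  exact dA_congr (h.2.mono fun _ hw => hw.2)

theorem Rat.dfn_eq (h : Rat P Q y g) (hQ : FnAt ∞ Q y) (h0 : Q y = 0) (v : E) :
    dfn P y v = g y * dfn Q y v := by
  rw [dfn_congr (h.2.mono fun _ hw => hw.2 : P =ᶠ[𝓝 y] fun w => g w * Q w), dfn_mul h.fn hQ, h0,
    mul_zero, zero_add]

theorem Rat.unique (h : Rat P Q y g) (h' : Rat P Q y g')
    (hQ : ∀ᶠ w in 𝓝 y, ∃ᶠ z in 𝓝 w, Q z ≠ 0) : g =ᶠ[𝓝 y] g' := by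
  filter_upwards [h.ev, h'.ev, hQ] with w h1 h2 h3
  refine tendsto_nhds_unique_of_frequently_eq h1.fn.continuousAt h2.fn.continuousAt ?_
  refine (h3.and_eventually (h1.2.and h2.2)).mono fun z hz => ?_
  exact mul_right_cancel₀ hz.1 (hz.2.1.2.symm.trans hz.2.2.2)

open Classical in
/-- `d arg (P / Q)`, also at the common zeros. -/
def rr (P Q : X → ℂ) (y : X) : E →L[ℝ] ℝ := if h : ∃ g, Rat P Q y g then dA h.choose y else 0

theorem Rat.rr_eq (h : Rat P Q y g) (hQ : ∀ᶠ w in 𝓝 y, ∃ᶠ z in 𝓝 w, Q z ≠ 0) :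
    rr P Q y = dA g y := by
  have h1 : ∃ g, Rat P Q y g := ⟨g, h⟩
  rw [rr, dif_pos h1]
  exact dA_congr (h1.choose_spec.unique h hQ)

variable [MeasurableSpace X] {c : Ctx X} {O : Orb c} {C : OC O}

theorem Eqn.fn (h : Eqn C P x) : FnAt ∞ P x := h.sm.self_of_nhds

theorem Eqn.ne (h : Eqn C P x) (hx : x ∉ C.img) : P x ≠ 0 := fun e => hx (h.zero.self_of_nhds.1 e)

theorem Eqn.eq (h : Eqn C P x) (hx : x ∈ C.img) : P x = 0 := h.zero.self_of_nhds.2 hx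

theorem Eqn.freq (h : Eqn C P x) : ∃ᶠ z in 𝓝 x, P z ≠ 0 := fun h1 => by
  have h2 : P =ᶠ[𝓝 x] fun _ => 0 := h1.mono fun _ hz => not_not.1 hz
  obtain ⟨v, hv⟩ := h.pos (h.zero.self_of_nhds.1 h2.eq_of_nhds)
  have : dfn (fun _ : X => (0 : ℂ)) x = 0 := mfderiv_const
  rw [dfn_congr h2, this] at hv
  simp at hv

theorem Rat.eqn (h : Rat P Q x g) (hQ : Eqn C Q x) : Eqn C P x := by
  refine ⟨?_, ?_, fun hx => ?_⟩
  · filter_upwards [h.ev, hQ.sm] with w h1 h2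
    exact (h1.fn.cmul h2).congr_of_eventuallyEq (h1.2.mono fun _ hw => hw.2)
  · filter_upwards [h.ev, hQ.zero] with w h1 h2
    rw [h1.2.self_of_nhds.2, mul_eq_zero, or_iff_right h1.1, h2]
  · obtain ⟨v, hv⟩ := hQ.pos hx
    refine ⟨v, ?_⟩
    rw [h.dfn_eq hQ.fn (hQ.eq hx), h.dfn_eq hQ.fn (hQ.eq hx), map_mul, mul_mul_mul_comm,
      ← Complex.normSq_eq_conj_mul_self, Complex.im_ofReal_mul]
    exact mul_pos (Complex.normSq_pos.2 h.1) hv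

end Pool.Agent.Lib.MP_1c0d65_gt.PW
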