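import Pool.Agent.Lib.MP_1c0d65_gt.PW.MonA
import Pool.Agent.Lib.MP_1c0d65_gt.W.Idx

/-! Germs of holomorphic functions of one variable with a rotational symmetry. -/

set_option autoImplicit false

open Filter Topology Asymptotics

namespace Pool.Agent.Lib.MP_1c0d65_gt.PW

open W

variable {f g : ℂ → ℂ}

theorem wei_root {A : ℕ} (hA : A ≠ 0) :
    ∃ ρ : ℂ → ℂ, (∀ x, ρ x ^ A = x) ∧ Tendsto ρ (𝓝 0) (𝓝 0) := by
  choose ρ hρ using fun x : ℂ => IsAlgClosed.exists_pow_nat_eq x (Nat.pos_of_ne_zero hA)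
  refine ⟨ρ, hρ, ?_⟩
  rw [NormedAddGroup.tendsto_nhds_zero]
  intro r hr
  filter_upwards [Metric.ball_mem_nhds (0 : ℂ) (pow_pos hr A)] with s hs
  rw [mem_ball_zero_iff, ← hρ s, norm_pow] at hs
  exact lt_of_pow_lt_pow_left₀ A hr.le hs

theorem wei_mul (θ : ℂ) : Tendsto (fun t : ℂ => θ * t) (𝓝 0) (𝓝 0) := by
  have : ContinuousAt (fun t : ℂ => θ * t) 0 := by fun_prop
  simpa using this.tendsto

theorem wei_pow {A : ℕ} (hA : A ≠ 0) : Tendsto (fun t : ℂ => t ^ A) (𝓝 0) (𝓝 0) := by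
  have : ContinuousAt (fun t : ℂ => t ^ A) 0 := by fun_prop
  simpa [hA] using this.tendsto

theorem wei_iter {θ c : ℂ} (h : ∀ᶠ t in 𝓝 0, f (θ * t) = c * f t) (i : ℕ) :
    ∀ᶠ t in 𝓝 0, f (θ ^ i * t) = c ^ i * f t := by
  induction i with
  | zero => simp
  | succ i ih =>
    filter_upwards [(wei_mul θ).eventually ih, h] with t h1 h2
    rw [pow_succ, mul_assoc, h1, h2, pow_succ, mul_assoc]

theorem wei_modEq {N : ℕ} (hN : N ≠ 0) {m n : ℕ} : eps N ^ m = eps N ^ n ↔ m ≡ n [MOD N] := by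
  have h := mon_prim hN
  rw [(h.isOfFinOrder hN).pow_eq_pow_iff_modEq, ← h.eq_orderOf]

/-- An invariant germ is a germ in the `A`-th power. -/
theorem wei_desc {A : ℕ} (hA : A ≠ 0) {θ : ℂ} (hθ : IsPrimitiveRoot θ A) (hf : AnalyticAt ℂ f 0)
    (h : ∀ᶠ t in 𝓝 0, f (θ * t) = f t) :
    ∃ g : ℂ → ℂ, AnalyticAt ℂ g 0 ∧ ∀ᶠ t in 𝓝 0, g (t ^ A) = f t := by
  have : NeZero A := ⟨hA⟩
  obtain ⟨ρ, h1, h2⟩ := wei_root hA
  have h0 : ρ 0 = 0 := (pow_eq_zero_iff hA).1 (h1 0)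
  have h3 : ∀ᶠ t in 𝓝 0, f (ρ (t ^ A)) = f t := by
    have h4 := (eventually_all_finset (Finset.range A)).2 fun i _ =>
      wei_iter (f := f) (θ := θ) (c := 1) (h.mono fun t ht => by rw [ht, one_mul]) i
    filter_upwards [h4] with t ht
    by_cases t0 : t = 0
    · rw [t0, zero_pow hA, h0]
    obtain ⟨i, hi, e⟩ := hθ.eq_pow_of_pow_eq_one (ξ := ρ (t ^ A) / t)
      (by rw [div_pow, h1, div_self (pow_ne_zero _ t0)])
    have := ht i (Finset.mem_range.2 hi)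
    rwa [e, div_mul_cancel₀ _ t0, one_pow, one_mul] at this
  refine ⟨fun x => f (ρ x), ?_, h3⟩
  refine Complex.analyticAt_of_differentiable_on_punctured_nhds_of_continuousAt ?_ ?_
  · obtain ⟨r, hr, H⟩ := Metric.eventually_nhds_iff_ball.1 (h3.and hf.eventually_analyticAt)
    filter_upwards [self_mem_nhdsWithin,
      nhdsWithin_le_nhds (Metric.ball_mem_nhds (0 : ℂ) (pow_pos hr A))] with x x0 hx
    obtain ⟨τ, t1, -, t2⟩ := mon_root hA (h := fun s => s) analyticAt_id x0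
    have t3 : τ x ∈ Metric.ball (0 : ℂ) r := by
      rw [mem_ball_zero_iff] at hx ⊢
      rw [← t2.self_of_nhds, norm_pow] at hx
      exact lt_of_pow_lt_pow_left₀ A hr.le hx
    refine ((H _ t3).2.comp t1).differentiableAt.congr_of_eventuallyEq ?_
    filter_upwards [t2, t1.continuousAt.eventually (Metric.isOpen_ball.mem_nhds t3)] with s s1 s2
    have := (H _ s2).1
    rwa [s1] at this
  · have h5 : ContinuousAt ρ 0 := by rwa [ContinuousAt, h0]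
    exact ContinuousAt.comp (g := f) (by rw [h0]; exact hf.continuousAt) h5

theorem wei_mono {A : ℕ} {θ c : ℂ} (hg : ContinuousAt g 0) (g0 : g 0 ≠ 0)
    (hf : ∀ᶠ t in 𝓝 0, f t = t ^ A * g t) (h : ∀ᶠ t in 𝓝 0, f (θ * t) = c * f t) (hθ : θ ≠ 0) :
    θ ^ A = c ∧ ∀ᶠ t in 𝓝 0, g (θ * t) = g t := by
  have h1 : ∀ᶠ t in 𝓝[≠] 0, θ ^ A * g (θ * t) = c * g t := by
    filter_upwards [self_mem_nhdsWithin,
      nhdsWithin_le_nhds ((hf.and h).and ((wei_mul θ).eventually hf))] with t t0 ⟨⟨a1, a2⟩, a3⟩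
    rw [a3, a1, mul_pow] at a2
    refine mul_left_cancel₀ (pow_ne_zero A t0) ?_
    linear_combination a2
  have h2 : θ ^ A = c := by
    have a1 := ((hg.tendsto.comp (wei_mul θ)).const_mul (θ ^ A)).mono_left
      (nhdsWithin_le_nhds (s := {0}ᶜ))
    have a2 := (hg.tendsto.const_mul c).mono_left (nhdsWithin_le_nhds (s := {0}ᶜ))
    exact mul_right_cancel₀ g0 (tendsto_nhds_unique_of_eventuallyEq a1 a2 h1)
  refine ⟨h2, ?_⟩
  filter_upwards [eventually_nhdsWithin_iff.1 h1] with t ht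
  by_cases t0 : t = 0
  · rw [t0, mul_zero]
  · have := ht t0
    rw [← h2] at this
    exact mul_left_cancel₀ (pow_ne_zero A hθ) this

theorem wei_ord (hf : AnalyticAt ℂ f 0) (h : ¬ ∀ᶠ t in 𝓝 0, f t = 0) :
    ∃ (n : ℕ) (g : ℂ → ℂ), AnalyticAt ℂ g 0 ∧ g 0 ≠ 0 ∧ ∀ᶠ t in 𝓝 0, f t = t ^ n * g t := by
  simpa using hf.exists_eventuallyEq_pow_smul_nonzero_iff.2 h

theorem wei_ord_pos {n : ℕ} (g0 : g 0 ≠ 0) (hf : ∀ᶠ t in 𝓝 0, f t = t ^ n * g t) (f0 : f 0 = 0) :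
    n ≠ 0 := by
  rintro rfl
  have := hf.self_of_nhds
  rw [f0, pow_zero, one_mul] at this
  exact g0 this.symm

theorem wei_fac {N c : ℕ} (hN : N ≠ 0) (hf : AnalyticAt ℂ f 0) (f0 : f 0 = 0)
    (h : ∀ᶠ t in 𝓝 0, f (eps N * t) = eps N ^ c * f t) : ∃ (B : ℕ) (b : ℂ → ℂ), 0 < B ∧
      B ≡ c [MOD N] ∧ AnalyticAt ℂ b 0 ∧ ∀ᶠ t in 𝓝 0, f t = t ^ B * b t := by
  by_cases h0 : ∀ᶠ t in 𝓝 0, f t = 0
  · exact ⟨c + N, fun _ => 0, by omega, by simp [Nat.ModEq], analyticAt_const, by simpa using h0⟩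
  · obtain ⟨n, g, h1, h2, h3⟩ := wei_ord hf h0
    exact ⟨n, g, Nat.pos_of_ne_zero (wei_ord_pos h2 h3 f0), (wei_modEq hN).1
      (wei_mono h1.continuousAt h2 h3 h ((mon_prim hN).ne_zero hN)).1, h1, h3⟩

theorem wei_pow_bigO {m n : ℕ} (h : m ≤ n) :
    (fun t : ℂ => t ^ n) =O[𝓝 0] fun t : ℂ => t ^ m := by
  rcases h.eq_or_lt with rfl | h
  · exact isBigO_refl _ _
  · exact (isLittleO_pow_pow h).isBigO

theorem wei_fac_bigO {B : ℕ} (hg : ContinuousAt g 0) (hf : ∀ᶠ t in 𝓝 0, f t = t ^ B * g t) :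
    f =O[𝓝 0] fun t : ℂ => t ^ B := by
  have := (isBigO_refl (fun t : ℂ => t ^ B) (𝓝 0)).mul (hg.tendsto.isBigO_one ℂ)
  simp only [mul_one] at this
  exact EventuallyEq.trans_isBigO hf this

theorem wei_bigO {N c : ℕ} (hN : N ≠ 0) (hf : AnalyticAt ℂ f 0) (f0 : f 0 = 0)
    (h : ∀ᶠ t in 𝓝 0, f (eps N * t) = eps N ^ c * f t) :
    f =O[𝓝 0] fun t : ℂ => t ^ (c % N) := by
  obtain ⟨B, b, -, h1, h2, h3⟩ := wei_fac hN hf f0 h
  exact (wei_fac_bigO h2.continuousAt h3).trans (wei_pow_bigO (h1 ▸ Nat.mod_le B N))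

theorem wei_ord_le {m n : ℕ} (hg : ContinuousAt g 0) (g0 : g 0 ≠ 0)
    (hf : ∀ᶠ t in 𝓝 0, f t = t ^ n * g t) (h : f =O[𝓝 0] fun t : ℂ => t ^ m) : m ≤ n := by
  by_contra hlt
  obtain ⟨k, rfl⟩ := Nat.exists_eq_add_of_lt (not_le.1 hlt)
  obtain ⟨C, hC⟩ := h.bound
  have h1 : ∀ᶠ t in 𝓝[≠] (0 : ℂ), ‖g t‖ ≤ C * ‖t ^ (k + 1)‖ := by
    filter_upwards [self_mem_nhdsWithin, nhdsWithin_le_nhds (hf.and hC)] with t t0 ⟨a1, a2⟩
    rw [a1, add_assoc, pow_add, norm_mul, norm_mul, mul_left_comm] at a2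
    exact le_of_mul_le_mul_left a2 (norm_pos_iff.2 (pow_ne_zero n t0))
  have h2 := le_of_tendsto_of_tendsto (hg.norm.tendsto.mono_left nhdsWithin_le_nhds)
    (((wei_pow (Nat.succ_ne_zero k)).norm.const_mul C).mono_left nhdsWithin_le_nhds) h1
  rw [norm_zero, mul_zero] at h2
  exact g0 (norm_le_zero_iff.1 h2)

theorem wei_idx {n : ℕ} (hg : AnalyticAt ℂ g 0) (g0 : g 0 ≠ 0)
    (hf : ∀ᶠ t in 𝓝 0, f t = t ^ n * g t) : HasIdx f 0 n := by
  have h1 := (end_pn 0).unit g0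
    ((hg.eventually_analyticAt.mono fun _ h => h.continuousAt).filter_mono nhdsWithin_le_nhds)
    (hg.continuousAt.tendsto.mono_left nhdsWithin_le_nhds)
  refine (((end_pn 0).mul (idx_pow _ 0 n) h1).cast (add_zero _)).congr ?_
  filter_upwards [nhdsWithin_le_nhds hf] with t ht
  rw [ht, sub_zero]

theorem wei_deriv {n : ℕ} (hn : n ≠ 0) (hg : AnalyticAt ℂ g 0) (g0 : g 0 ≠ 0)
    (hf : ∀ᶠ t in 𝓝 0, f t = t ^ n * g t) : HasIdx (deriv f) 0 ((n : ℤ) - 1) := by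
  obtain ⟨k, rfl⟩ := Nat.exists_eq_succ_of_ne_zero hn
  have h1 : AnalyticAt ℂ (fun t => ((k + 1 : ℕ) : ℂ) * g t + t * deriv g t) 0 :=
    (analyticAt_const.mul hg).add (analyticAt_id.mul hg.deriv)
  refine (wei_idx (n := k) h1 ?_ ?_).cast (by simp)
  · rw [zero_mul, add_zero]
    exact mul_ne_zero (Nat.cast_ne_zero.2 hn) g0
  · filter_upwards [hf.eventually_nhds, hg.eventually_analyticAt] with t h2 h3
    rw [EventuallyEq.deriv_eq h2,
      ((hasDerivAt_pow (k + 1) t).fun_mul h3.differentiableAt.hasDerivAt).deriv]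
    simp only [Nat.add_sub_cancel]
    ring

/-- A coordinate `ξ` with `ξ ^ A = f`, compatible with the rotations, and its inverse. -/
structure WPar (N A : ℕ) (f ξ σ : ℂ → ℂ) : Prop where
  an : AnalyticAt ℂ ξ 0
  an' : AnalyticAt ℂ σ 0
  idx : HasIdx ξ 0 1
  z : ξ 0 = 0
  z' : σ 0 = 0
  pw : ∀ᶠ t in 𝓝 0, ξ t ^ A = f t
  left : ∀ᶠ t in 𝓝 0, σ (ξ t) = t
  right : ∀ᶠ t in 𝓝 0, ξ (σ t) = t
  rot : ∀ᶠ t in 𝓝 0, ξ (eps N * t) = eps N * ξ t
  rot' : ∀ᶠ t in 𝓝 0, σ (eps N * t) = eps N * σ t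

theorem wei_param {N A : ℕ} (hA : A ≠ 0) (hg : AnalyticAt ℂ g 0) (g0 : g 0 ≠ 0)
    (hf : ∀ᶠ t in 𝓝 0, f t = t ^ A * g t) (h : ∀ᶠ t in 𝓝 0, g (eps N * t) = g t) :
    ∃ ξ σ, WPar N A f ξ σ := by
  obtain ⟨ρ, r1, r0, r2⟩ := mon_root hA hg g0
  have a1 : AnalyticAt ℂ (fun t => t * ρ t) 0 := analyticAt_id.mul r1
  have a2 : deriv (fun t => t * ρ t) 0 ≠ 0 := by
    rw [((hasDerivAt_id' (0 : ℂ)).fun_mul r1.differentiableAt.hasDerivAt).deriv]
    simpa using r0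
  have a3 := a1.analyticAt_localInverse a2
  have a4 := a1.hasStrictDerivAt.eventually_left_inverse a2
  have a5 := a1.hasStrictDerivAt.eventually_right_inverse a2
  set σ := a1.hasStrictDerivAt.localInverse _ _ _ a2
  simp only [zero_mul] at a3 a5
  have a6 : σ 0 = 0 := by simpa using a4.self_of_nhds
  have a7 : Tendsto σ (𝓝 0) (𝓝 0) := by simpa [a6] using a3.continuousAt.tendsto
  have a8 : ∀ᶠ t in 𝓝 0, eps N * t * ρ (eps N * t) = eps N * (t * ρ t) := by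
    have := mon_eq_of_pow hA (p := fun t => ρ (eps N * t)) (y := ρ) (s := 0)
      (ContinuousAt.comp (g := ρ) (by simpa using r1.continuousAt) (by fun_prop))
      r1.continuousAt (by simp) r0 (by
        filter_upwards [r2, (wei_mul (eps N)).eventually r2, h] with t t1 t2 t3
        rw [t1, t2, t3])
    filter_upwards [this] with t ht
    rw [ht, mul_assoc]
  refine ⟨fun t => t * ρ t, σ, a1, a3, ?_, zero_mul _, a6, ?_, a4, a5, a8, ?_⟩
  · exact wei_idx (n := 1) r1 r0 (Eventually.of_forall fun t => by simp)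
  · filter_upwards [hf, r2] with t t1 t2
    rw [mul_pow, t1, t2]
  · filter_upwards [a5, a7.eventually a8, a7.eventually ((wei_mul (eps N)).eventually a4)]
      with t t1 t2 t3
    rw [t2, t1] at t3
    exact t3

variable {N A : ℕ} {ξ σ : ℂ → ℂ}

theorem WPar.t (h : WPar N A f ξ σ) : Tendsto ξ (𝓝 0) (𝓝 0) := by
  simpa [h.z] using h.an.continuousAt.tendsto

theorem WPar.t' (h : WPar N A f ξ σ) : Tendsto σ (𝓝 0) (𝓝 0) := by
  simpa [h.z'] using h.an'.continuousAt.tendsto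

theorem WPar.tn (h : WPar N A f ξ σ) : Tendsto ξ (𝓝[≠] 0) (𝓝[≠] 0) :=
  tendsto_nhdsWithin_iff.2 ⟨h.t.mono_left nhdsWithin_le_nhds, (end_pn 0).ne_zero h.idx⟩

theorem WPar.tn' (h : WPar N A f ξ σ) : Tendsto σ (𝓝[≠] 0) (𝓝[≠] 0) := by
  refine tendsto_nhdsWithin_iff.2 ⟨h.t'.mono_left nhdsWithin_le_nhds, ?_⟩
  filter_upwards [self_mem_nhdsWithin, nhdsWithin_le_nhds h.right] with t t0 t1 t2
  rw [Set.mem_singleton_iff.1 t2, h.z] at t1
  exact t0 t1.symm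

theorem WPar.pw' (h : WPar N A f ξ σ) : ∀ᶠ t in 𝓝 0, f (σ t) = t ^ A := by
  filter_upwards [h.t'.eventually h.pw, h.right] with t t1 t2
  rw [← t1, t2]

/-- If `σ (θ t)` and `σ t` have the same `N`-th power, then `θ` is an `N`-th root of unity. -/
theorem WPar.root (h : WPar N A f ξ σ) (hN : N ≠ 0) {θ : ℂ}
    (e : ∀ᶠ t in 𝓝[≠] 0, σ (θ * t) ^ N = σ t ^ N) : θ ^ N = 1 := by
  have : NeZero N := ⟨hN⟩
  have h1 := (eventually_all_finset (Finset.range N)).2 fun i _ => wei_iter h.rot i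
  obtain ⟨t, ⟨⟨t0, t1⟩, t2⟩, ⟨t3, t4⟩, t5⟩ :=
    (((e.and self_mem_nhdsWithin).and (h.tn'.eventually self_mem_nhdsWithin)).and
      (((h.t'.eventually h1).and h.right).and ((wei_mul θ).eventually h.right)
        |>.filter_mono nhdsWithin_le_nhds)).exists
  obtain ⟨i, hi, e1⟩ := (mon_prim hN).eq_pow_of_pow_eq_one (ξ := σ (θ * t) / σ t)
    (by rw [div_pow, t0, div_self (pow_ne_zero _ t2)])
  have e2 := t3 i (Finset.mem_range.2 hi)
  rw [t4, e1, div_mul_cancel₀ _ t2, t5, ← e1] at e2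
  rw [mul_right_cancel₀ t1 e2, ← pow_mul, mul_comm, pow_mul, (mon_prim hN).pow_eq_one, one_pow]

end Pool.Agent.Lib.MP_1c0d65_gt.PW
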