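import Pool.Agent.Lib.MP_1c0d65_gt.E.DualOm
import Pool.Agent.Lib.MP_1c0d65_gt.PW.Stokes
import Pool.Agent.Lib.MP_1c0d65_gt.B.Glb

/-! Duality can be tested on closed forms that vanish near finitely many given points. -/

set_option autoImplicit false
set_option linter.unusedSectionVars false

open scoped Manifold ContDiff Topology
open Set MeasureTheory Filter Metric

noncomputable section

namespace Pool.Agent.Lib.MP_1c0d65_gt.PW

variable {X : Type} [TopologicalSpace X] [ChartedSpace E X] [IsManifold 𝓘(ℝ, E) ∞ X]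
  [T2Space X] [CompactSpace X] [MeasurableSpace X] [BorelSpace X] {c : Ctx X} {O : Orb c}

/-- A closed form is locally exact. -/
theorem Closed.exists_isD {α : X → Bil E ℝ} (h : Closed α) {U : Set X} (hU : IsOpen U) {x : X}
    (hx : x ∈ U) : ∃ V a, IsOpen V ∧ x ∈ V ∧ V ⊆ U ∧ IsD V a α := by
  have hs := mem_chart_source E x
  have he := isChart_chartAt x
  obtain ⟨r, hr, hb⟩ := Metric.isOpen_iff.1 (isOpen_dom x hU) _ (mem_dom hs hx)
  have hb' := hb.trans (dom_mono x (subset_univ U))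
  obtain ⟨a, h1, h2⟩ := Top.exists_prim2 isOpen_ball
    ((convex_ball _ r).starConvex (mem_ball_self hr)) ((h.1.2 x).mono hb')
    (fun y _ v => h.1.1 _ trivial _) fun y hy => h.2 x y (hb' hy)
  have o : IsOpen ((chartAt E x).source ∩ chartAt E x ⁻¹' ball (chartAt E x x) r) :=
    (chartAt E x).isOpen_inter_preimage isOpen_ball
  refine ⟨_, IsChart.push1 (chartAt E x) a, o, ⟨hs, mem_ball_self hr⟩,
    fun y hy => par_cht hy.1 ▸ (hb hy.2).2, isD_of_local (he.sm1_push1 inter_subset_left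
      fun p hp => h1.contDiffAt (isOpen_ball.mem_nhds hp.2)) o fun p hp => ⟨_, he, hp.1, ?_⟩⟩
  rw [ext1_congr (b := a) (by
    filter_upwards [(chartAt E x).open_target.mem_nhds ((chartAt E x).map_source hp.1)] with y hy
    exact he.pull1_push1 a hy)]
  exact (h2 _ hp.2).symm

theorem dfn_locconst {χ : X → ℝ} {S : Set X} {k : ℝ} (hS : IsOpen S) (h : ∀ x ∈ S, χ x = k)
    {x : X} (hx : x ∈ S) : dfn χ x = 0 := by
  rw [dfn_congr (g' := fun _ => k) (by filter_upwards [hS.mem_nhds hx] with y hy using h y hy)]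
  exact mfderiv_const

theorem exists_sep {s t : Set X} (hs : IsClosed s) (ht : IsClosed t) (h : Disjoint s t) :
    ∃ (χ : X → ℝ) (A B : Set X), ContMDiff 𝓘(ℝ, E) 𝓘(ℝ, ℝ) ∞ χ ∧ IsOpen A ∧ IsOpen B ∧ s ⊆ A ∧
      t ⊆ B ∧ (∀ x ∈ A, χ x = 0) ∧ ∀ x ∈ B, χ x = 1 := by
  obtain ⟨χ, c0, c1, -⟩ := exists_contMDiffMap_zero_one_nhds_of_isClosed (n := ⊤) 𝓘(ℝ, E) hs ht h
  obtain ⟨A, a1, a2, a3⟩ := eventually_nhdsSet_iff_exists.1 c0
  obtain ⟨B, b1, b2, b3⟩ := eventually_nhdsSet_iff_exists.1 c1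
  exact ⟨χ, A, B, χ.contMDiff, a1, b1, a2, b2, a3, b3⟩

/-- An exact form with support in `U` that agrees with `α` near `x`. -/
theorem Closed.exists_cut {α : X → Bil E ℝ} (h : Closed α) {U : Set X} (hU : IsOpen U) {x : X}
    (hx : x ∈ U) : ∃ a β A B, IsD univ a β ∧ IsOpen A ∧ IsOpen B ∧ Uᶜ ⊆ A ∧ x ∈ B ∧
      (∀ y ∈ A, a y = 0 ∧ β y = 0) ∧ ∀ y ∈ B, β y = α y := by
  obtain ⟨V, a, h1, h2, h3, h4⟩ := h.exists_isD hU hx
  obtain ⟨χ, A, B, c0, a1, b1, a2, b2, a3, b3⟩ := exists_sep h1.isClosed_compl isClosed_singleton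
    (disjoint_singleton_right.2 fun h => h h2)
  have g : ∀ y ∈ A, χ y • a y = 0 ∧ w11 (dfn χ y) (a y) + χ y • α y = 0 := fun y hy =>
    ⟨by simp [a3 y hy], bil_ext fun v w => by simp [dfn_locconst a1 a3 hy, a3 y hy]⟩
  exact ⟨_, _, A, B, (h4.fsmul h1 c0.contMDiffOn).extend h1 a1.isClosed_compl
    (compl_subset_comm.1 a2) (fun y hy => (g y (not_not.1 hy)).1)
    (fun y hy => (g y (not_not.1 hy)).2), a1, b1, (compl_subset_compl.2 h3).trans a2, b2 rfl, g,
    fun y hy => bil_ext fun v w => by simp [dfn_locconst b1 b3 hy, b3 y hy]⟩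

theorem OC.per_exact0 (C : OC O) {a : X → E →L[ℝ] ℝ} {β : X → Bil E ℝ} (h : IsD univ a β)
    {A : Set X} (hA : IsOpen A) (hL : (⋃ i, O.L i) ⊆ A) (h0 : ∀ y ∈ A, a y = 0 ∧ β y = 0) :
    per C.u β = 0 := by
  have := C.per_res (h.form isOpen_univ) (Or.inl ⟨A, hA, hL, fun y hy => (h0 y hy).2⟩) isOpen_univ
    (lam := 1) (h.congr' rfl (one_smul _ _)) C.F (fun s hs => ⟨hs, trivial⟩) (r := fun _ => 0)
    (fun p hp => ?_) (res_zero C.smv.self_of_nhds isOpen_univ trivial h.sm1)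
  · simpa using this
  · obtain ⟨i, hi⟩ := C.pu p hp
    refine (W.cp_cont (ψ := fun _ => 0) continuousAt_const).congr' (W.cp_pn ?_)
    filter_upwards [hi.eventually (hA.mem_nhdsSet.2 ((subset_iUnion O.L i).trans hL))] with s hs
    rw [pull1, (h0 _ hs).1, ContinuousLinearMap.zero_comp]

theorem OC.dual_of_off (C : OC O) {η : X → Bil E ℝ} (hη : Closed η) (ht : O.Test η) (T : Finset X)
    (hT : ∀ x ∈ T, x ∈ O.W) (h : ∀ α, Closed α → ∀ N, IsOpen N → (⋃ i, O.L i) ∪ T ⊆ N →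
      (∀ x ∈ N, α x = 0) → c.Q η α = per C.u α) : C.Dual η := by
  classical
  induction T using Finset.induction_on with
  | empty => exact C.dual_of hη ht fun α hα ⟨N, h1, h2, h3⟩ => h α hα N h1 (by simpa using h2) h3
  | insert b T hb ih =>
    refine ih (fun x hx => hT x (Finset.mem_insert_of_mem hx)) fun α hα N h1 h2 h3 => ?_
    obtain ⟨a, β, A, B, g1, g2, g3, g4, g5, g6, g7⟩ := hα.exists_cut
      ((isClosed_iUnion_of_finite O.closed).union T.finite_toSet.isClosed).isOpen_compl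
      (x := b) fun h => h.elim (hT b (Finset.mem_insert_self _ _)) hb
    rw [compl_compl] at g4
    have e := h _ (hα.sub g1.closed) (N ∩ A ∪ B) ((h1.inter g2).union g3) (by
      rw [Finset.coe_insert, union_insert]
      exact insert_subset (Or.inr g5) ((subset_inter h2 g4).trans subset_union_left)) (by
      rintro x (hx | hx)
      · rw [Pi.sub_apply, h3 x hx.1, (g6 x hx.2).2, sub_self]
      · rw [Pi.sub_apply, g7 x hx, sub_self])
    have hL := subset_union_left.trans g4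
    have e2 : per C.u (α - β) = per C.u α - per C.u β := by
      rw [per, per, per, ← integral_sub
        (C.integrable hα.1 (Or.inl ⟨N, h1, subset_union_left.trans h2, h3⟩))
        (C.integrable g1.closed.1 (Or.inl ⟨A, g2, hL, fun y hy => (g6 y hy).2⟩))]
      simp
    rwa [e2, C.per_exact0 g1 g2 hL g6, Q_sub_right hη.1 hα.1 g1.closed.1, Q_symm η β, Q_exact g1 hη,
      sub_zero, sub_zero] at e

/-- Duality from the formula of Poincare and Lelong with a cut-off. -/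
theorem OC.dual_of_pl (C : OC O) {η : X → Bil E ℝ} (hη : Closed η) (ht : O.Test η) (T : Finset X)
    (hT : ∀ x ∈ T, x ∈ O.W) {ψ : X → E →L[ℝ] ℝ}
    (h : ∀ (θ : X → ℝ) (α : X → Bil E ℝ), ContMDiff 𝓘(ℝ, E) 𝓘(ℝ, ℝ) ∞ θ →
      tsupport θ ⊆ ((⋃ i, O.L i) ∪ T)ᶜ → Closed α →
      2 * Real.pi * c.Q (fun x => θ x • η x) α =
        c.Q (fun x => w11 (dfn θ x) (ψ x)) α + 2 * Real.pi * per C.u fun x => θ x • α x) :
    C.Dual η := C.dual_of_off hη ht T hT fun α hα N h1 h2 h3 => by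
  obtain ⟨θ, A, B, c0, a1, b1, a2, b2, a3, b3⟩ := exists_sep
    ((isClosed_iUnion_of_finite O.closed).union T.finite_toSet.isClosed) h1.isClosed_compl
    (disjoint_compl_right_iff_subset.2 h2)
  have e := h θ α c0 ((closure_minimal (fun x (hx : θ x ≠ 0) hA => hx (a3 x hA)) a1.isClosed_compl).trans
    (compl_subset_compl.2 a2)) hα
  have e1 : c.Q (fun x => θ x • η x) α = c.Q η α :=
    integral_congr_ae (ae_of_all _ fun x => by
      by_cases hx : x ∈ N
      · simp [h3 x hx]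
      · simp [b3 x (b2 hx)])
  have e2 : c.Q (fun x => w11 (dfn θ x) (ψ x)) α = 0 := by
    refine (integral_congr_ae (ae_of_all _ fun x => ?_)).trans (integral_zero _ _)
    by_cases hx : x ∈ N
    · simp [h3 x hx]
    · simp [wedge, dfn_locconst b1 b3 (b2 hx)]
  have e3 : (fun x => θ x • α x) = α := funext fun x => by
    by_cases hx : x ∈ N
    · exact bil_ext fun v w => by simp [h3 x hx]
    · exact bil_ext fun v w => by simp [b3 x (b2 hx)]
  rw [e1, e2, e3, zero_add] at e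
  exact mul_left_cancel₀ (by positivity) e

end Pool.Agent.Lib.MP_1c0d65_gt.PW
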