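import Pool.Agent.Lib.MP_1c0d65_gt.E.Cur
import Pool.Agent.Lib.MP_1c0d65_gt.PW.PlotH
import Pool.Agent.Lib.MP_1c0d65_gt.B.SphereA

/-! Local equations along the good part of a curve. -/

set_option autoImplicit false
set_option linter.unusedSectionVars false

open scoped Manifold ContDiff Topology ComplexConjugate
open Set Filter

noncomputable section

namespace Pool.Agent.Lib.MP_1c0d65_gt.PW

variable {X : Type} [TopologicalSpace X] [ChartedSpace E X] [IsManifold 𝓘(ℝ, E) ∞ X]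
  [T2Space X] [CompactSpace X] [MeasurableSpace X] [BorelSpace X] {c : Ctx X} {O : Orb c}
  {C : OC O}

theorem Bad.notF (D : Bad C) {s : ℂ} (hs : s ∉ D.Z) : s ∉ C.F := fun h => hs (D.hF h)

theorem Bad.notB (D : Bad C) {s : ℂ} (hs : s ∉ D.Z) : C.u s ∉ D.B :=
  fun h => hs ((D.hZ s (D.notF hs)).1 h)

theorem Bad.evZ (D : Bad C) {s : ℂ} (hs : s ∉ D.Z) : ∀ᶠ t in 𝓝 s, t ∉ D.Z :=
  D.Z.finite_toSet.isClosed.isOpen_compl.mem_nhds hs

theorem Bad.isClosed (D : Bad C) : IsClosed (C.img ∪ D.B) := by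
  refine isClosed_of_closure_subset fun p hp => ?_
  rw [closure_union, D.closed.closure_eq] at hp
  by_cases h : p ∈ D.B
  · exact Or.inr h
  · exact Or.inl (C.img_closed (fun h' => h (D.hL h')) (hp.resolve_right h))

theorem Bad.emb (D : Bad C) {s : ℂ} (hs : s ∉ D.Z) {S : Set ℂ} (hS : S ∈ 𝓝 s) :
    ∀ᶠ x in 𝓝 (C.u s), x ∈ C.img → x ∈ C.u '' S := by
  have h : ((↑) : ℂ → OnePoint ℂ) '' S ∈ 𝓝ˢ {x ∈ C.D | C.U x = C.u s} := by
    refine mem_nhdsSet_iff_forall.2 fun x hx => ?_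
    induction x using OnePoint.rec with
    | infty => exact absurd (hx.2 ▸ D.v0) (D.notB hs)
    | coe t =>
      have h1 : t ∉ D.Z := fun h =>
        D.notB hs (hx.2 ▸ (D.hZ t ((C.coe_mem_D t).1 hx.1)).2 h)
      rw [D.inj h1 hs hx.2, OnePoint.nhds_coe_eq]
      exact image_mem_map hS
  filter_upwards [C.nbhd (C.mu (D.notF hs)) h] with x hx h1
  rw [C.img_eq] at h1
  obtain ⟨y, hy, e⟩ := h1
  obtain ⟨t, ht, rfl⟩ := hx y hy e
  exact ⟨t, ht, e⟩

/-- A chart in which an immersed curve is the first axis and `J` is standard at the point. -/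
theorem OC.exists_tube (C : OC O) {s₀ : ℂ} (hs : s₀ ∉ C.F) (hd : dif C.u s₀ 1 ≠ 0) :
    ∃ e : OpenPartialHomeomorph X E, IsChart e ∧ (s₀, 0) ∈ e.target ∧
      (∀ᶠ s in 𝓝 s₀, e.symm (s, 0) = C.u s ∧ (s, 0) ∈ e.target) ∧
      ∀ y, dif e.symm (s₀, 0) (Complex.I • y) = O.J (C.u s₀) (dif e.symm (s₀, 0) y) := by
  set x := C.u s₀ with hx
  have hJ := O.JJ (C.mu hs)
  have cr := brk_cr hJ (C.hu.2 s₀ hs)
  obtain ⟨n, hn⟩ : ∃ n, n ∉ LinearMap.range (dif C.u s₀).toLinearMap := by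
    by_contra h
    have h1 := LinearMap.finrank_range_le (dif C.u s₀).toLinearMap
    rw [show LinearMap.range (dif C.u s₀).toLinearMap = ⊤ from
      eq_top_iff.2 fun n _ => not_not.1 (not_exists.1 h n)] at h1
    simp [Module.finrank_prod] at h1
  set N : ℂ →L[ℝ] E := Complex.reCLM.smulRight n + Complex.imCLM.smulRight (O.J x n) with hN
  have crN : ∀ b, N (b * .I) = O.J x (N b) := brk_cr hJ (by simp [hN])
  set g : E → E := fun y => (chartAt E x ∘ C.u) y.1 + N y.2 with hg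
  have hsrc : ∀ᶠ s in 𝓝 s₀, s ∉ C.F ∧ C.u s ∈ (chartAt E x).source :=
    (C.isOpen_F.eventually_mem hs).and ((C.cm hs).continuousAt.eventually
      ((chartAt E x).open_source.mem_nhds (mem_chart_source E x)))
  have t1 : Tendsto (fun y : E => y.1) (𝓝 (s₀, 0)) (𝓝 s₀) := continuous_fst.tendsto _
  have hgs : ∀ᶠ y in 𝓝 ((s₀, 0) : E), ContDiffAt ℝ ∞ g y := (t1.eventually hsrc).mono fun y hy =>
    ((brk_chart (C.cm hy.1) hy.2).comp y contDiffAt_fst).add
      (N.contDiff.contDiffAt.comp y contDiffAt_snd)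
  have g0 : g (s₀, 0) = chartAt E x x := by simp [hg, hx]
  have htg : ∀ᶠ y in 𝓝 ((s₀, 0) : E), g y ∈ (chartAt E x).target :=
    hgs.self_of_nhds.continuousAt.eventually ((chartAt E x).open_target.mem_nhds
      (g0 ▸ (chartAt E x).map_source (mem_chart_source E x)))
  have hA : ∀ y, dif (par x ∘ g) (s₀, 0) y = dif C.u s₀ y.1 + N y.2 := fun y => by
    have h1 : HasFDerivAt (chartAt E x ∘ C.u) (dif C.u s₀) ((s₀, 0) : E).1 := by
      rw [brk_dif_chart (C.cm hs)]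
      exact ((brk_chart (C.cm hs) hsrc.self_of_nhds.2).differentiableAt (by simp)).hasFDerivAt
    have h2 : HasFDerivAt g _ (s₀, 0) := (h1.comp _ hasFDerivAt_fst).add
      (N.hasFDerivAt.comp ((s₀, 0) : E) hasFDerivAt_snd)
    rw [brk_dif_comp (brk_md (brk_par htg.self_of_nhds)) h2.differentiableAt, g0, dif_par_self,
      h2.fderiv]
    simp
  have hinj : Function.Injective (dif (par x ∘ g) (s₀, 0)) := by
    refine (injective_iff_map_eq_zero _).2 fun y hy => ?_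
    rw [hA] at hy
    have h2 : y.2 = 0 := by
      by_contra h2
      apply hn
      have h3 : ∀ b : ℂ, N (y.2 * b) = -dif C.u s₀ (y.1 * b) := fun b => by
        have e1 : ∀ a : ℂ, a * b = b.re • a + b.im • (a * .I) := fun a => by
          conv_lhs => rw [← Complex.re_add_im b]
          simp only [Complex.real_smul]
          ring
        rw [e1, e1, map_add, map_add, map_smul, map_smul, map_smul, map_smul, crN, cr,
          eq_neg_of_add_eq_zero_right hy, map_neg, smul_neg, smul_neg, neg_add]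
      have h4 := h3 y.2⁻¹
      rw [mul_inv_cancel₀ h2, ← map_neg] at h4
      exact ⟨_, h4.symm.trans (by simp [hN])⟩
    rw [h2, map_zero, add_zero] at hy
    exact Prod.ext (by_contra fun h => brk_ne hJ (C.hu.2 s₀ hs) hd h hy) h2
  have hinv : (dif (par x ∘ g) (s₀, 0)).IsInvertible :=
    ⟨ContinuousLinearEquiv.ofBijective _ (LinearMap.ker_eq_bot.2 hinj) (LinearMap.range_eq_top.2
      ((LinearMap.injective_iff_surjective (f := (dif (par x ∘ g) (s₀, 0) : E →ₗ[ℝ] E))).1 hinj)),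
      rfl⟩
  obtain ⟨e, he, h1, -, h2⟩ := exists_chart_of_plot (hgs.and htg)
    (fun y hy => SmAt.comp (brk_par hy.2) hy.1) hinv
  refine ⟨e, he, h1, ?_, fun y => ?_⟩
  · have t2 : Tendsto (fun s : ℂ => ((s, 0) : E)) (𝓝 s₀) (𝓝 (s₀, 0)) :=
      (Continuous.prodMk_left 0).tendsto _
    filter_upwards [hsrc, t2.eventually (e.open_target.mem_nhds h1)] with s h3 h4
    exact ⟨by simpa [h2, hg] using par_cht h3.2, h4⟩
  · rw [h2, hA, hA, map_add, ← cr, ← crN]
    simp [mul_comm]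

theorem Bad.exists_retr (D : Bad C) {s₀ : ℂ} (hs : s₀ ∉ D.Z) : ∃ R : X → ℂ,
    (∀ᶠ x in 𝓝 (C.u s₀), FnAt ∞ R x) ∧ ∀ᶠ s in 𝓝 s₀, R (C.u s) = s := by
  obtain ⟨e, he, h1, h2, -⟩ := C.exists_tube (D.notF hs) (D.imm _ hs)
  refine ⟨Prod.fst ∘ e, ?_, h2.mono fun s h => ?_⟩
  · filter_upwards [e.open_source.mem_nhds (h2.self_of_nhds.1 ▸ e.map_target h1)] with x hx
    exact (contDiff_fst (𝕜 := ℝ)).contMDiff.contMDiffAt.comp x (he.fnAt hx)
  · rw [← h.1, Function.comp_apply, e.right_inv h.2]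

theorem glueA_det (L : ℂ →L[ℝ] ℂ) (b : ℂ) :
    (conj (L b) * L (.I * b)).im = Complex.normSq b * (conj (L 1) * L .I).im := by
  rw [brk_lin L b, brk_lin L (.I * b), Complex.normSq_apply]
  simp
  ring

theorem Bad.eqn_of_pos (D : Bad C) {s₀ : ℂ} (hs : s₀ ∉ D.Z) {P : X → ℂ}
    (sm : ∀ᶠ y in 𝓝 (C.u s₀), FnAt ∞ P y) (van : ∀ᶠ s in 𝓝 s₀, P (C.u s) = 0)
    (pos : ∃ v, 0 < (conj (dfn P (C.u s₀) v) * dfn P (C.u s₀) (O.J (C.u s₀) v)).im) :
    Eqn C P (C.u s₀) := by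
  refine ⟨sm, ?_, fun _ => pos⟩
  obtain ⟨e, he, h1, h2, h3⟩ := C.exists_tube (D.notF hs) (D.imm _ hs)
  have x0 := h2.self_of_nhds.1
  have hP : FnAt ∞ P (e.symm (s₀, 0)) := x0 ▸ sm.self_of_nhds
  have hh : ContDiffAt ℝ ∞ (P ∘ e.symm) (s₀, 0) := hP.comp_plot (he.smAt h1)
  have hd := (hh.differentiableAt (by simp)).hasFDerivAt
  set A := fderiv ℝ (P ∘ e.symm) (s₀, 0) with hA
  have a1 : ∀ y, A y = dfn P (C.u s₀) (dif e.symm (s₀, 0) y) := fun y => by
    rw [hA, fderiv_fn_comp (hP.mdifferentiableAt (by simp)) ((he.smAt h1).dfAt (by simp)), x0]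
    rfl
  have a2 : A.comp (ContinuousLinearMap.inl ℝ ℂ ℂ) = 0 :=
    (hd.comp s₀ (hasFDerivAt_prodMk_left s₀ (0 : ℂ))).unique
      ((hasFDerivAt_const (0 : ℂ) s₀).congr_of_eventuallyEq
        ((h2.and van).mono fun s h => by simpa [h.1.1] using h.2))
  set L := A.comp (ContinuousLinearMap.inr ℝ ℂ ℂ) with hL
  have a3 : ∀ y : E, A y = L y.2 := fun y => by
    have e1 : A (y.1, 0) = 0 := DFunLike.congr_fun a2 y.1
    have e2 : y = (y.1, 0) + (0, y.2) := by simp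
    conv_lhs => rw [e2, map_add, e1, zero_add]
    rfl
  have a4 : ∀ b, L b = 0 → b = 0 := fun b hb => by
    obtain ⟨v, hv⟩ := pos
    obtain ⟨B, hB⟩ := he.exists_equiv h1
    obtain ⟨y, rfl⟩ : ∃ y, dif e.symm (s₀, 0) y = v := hB ▸ B.surjective v
    rw [← h3, ← a1, ← a1, a3, a3, Prod.smul_snd, smul_eq_mul, glueA_det] at hv
    have h4 := glueA_det L b
    rw [hb, map_zero, zero_mul, Complex.zero_im] at h4
    exact Complex.normSq_eq_zero.1 ((mul_eq_zero.1 h4.symm).resolve_right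
      fun h5 => by simp [h5] at hv)
  set G : E →L[ℝ] E := (ContinuousLinearMap.fst ℝ ℂ ℂ).prod A with hG
  have hinj : Function.Injective G := (injective_iff_map_eq_zero _).2 fun y hy =>
    Prod.ext (Prod.ext_iff.1 hy).1 (a4 _ ((a3 y).symm.trans (Prod.ext_iff.1 hy).2))
  have hst := (contDiffAt_fst.prodMk hh).hasStrictFDerivAt'
    (f' := (ContinuousLinearEquiv.ofBijective G (LinearMap.ker_eq_bot.2 hinj)
      (LinearMap.range_eq_top.2 ((LinearMap.injective_iff_surjective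
        (f := (G : E →ₗ[ℝ] E))).1 hinj)) : E →L[ℝ] E)) (hasFDerivAt_fst.prodMk hd) (by simp)
  have hl := hst.eventually_left_inverse
  have hm : C.u s₀ ∈ e.source := x0 ▸ e.map_target h1
  have t1 : Tendsto e (𝓝 (C.u s₀)) (𝓝 (s₀, 0)) := by
    have := (e.continuousAt hm).tendsto
    rwa [← x0, e.right_inv h1, x0] at this
  have t2 : Tendsto (fun y => (e y).1) (𝓝 (C.u s₀)) (𝓝 s₀) := (continuous_fst.tendsto _).comp t1
  have t3 : Tendsto (fun s : ℂ => ((s, 0) : E)) (𝓝 s₀) (𝓝 (s₀, 0)) :=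
    (Continuous.prodMk_left 0).tendsto _
  filter_upwards [D.emb hs van, e.open_source.mem_nhds hm, t1.eventually hl,
    t2.eventually (((h2.and van).and (D.evZ hs)).and (t3.eventually hl))]
    with y y1 y2 y3 ⟨⟨⟨y4, y5⟩, y6⟩, y7⟩
  refine ⟨fun h => Or.inl ⟨_, D.notF y6, ?_⟩, fun h => ?_⟩
  · simp only [Function.comp_apply, e.left_inv y2, h] at y3
    simp only [Function.comp_apply, y4.1, y5] at y7
    rw [← y4.1, ← y7, y3, e.left_inv y2]
  · obtain ⟨s, h5, rfl⟩ := y1 h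
    exact h5

theorem Bad.exists_eqn (D : Bad C) {s₀ : ℂ} (hs : s₀ ∉ D.Z) : ∃ P, Eqn C P (C.u s₀) := by
  obtain ⟨e, he, h1, h2, h3⟩ := C.exists_tube (D.notF hs) (D.imm _ hs)
  have x0 := h2.self_of_nhds.1
  have sm : ∀ x ∈ e.source, FnAt ∞ (Prod.snd ∘ e) x := fun x hx =>
    (contDiff_snd (𝕜 := ℝ)).contMDiff.contMDiffAt.comp x (he.fnAt hx)
  have a1 : ∀ y, dfn (Prod.snd ∘ e) (C.u s₀) (dif e.symm (s₀, 0) y) = y.2 := fun y => by
    have e1 := fderiv_fn_comp ((sm _ (e.map_target h1)).mdifferentiableAt (by simp))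
      ((he.smAt h1).dfAt (by simp))
    have e2 : (Prod.snd ∘ e) ∘ e.symm =ᶠ[𝓝 (s₀, 0)] Prod.snd :=
      (e.eventually_right_inverse h1).mono fun z hz => congrArg Prod.snd hz
    rw [e2.fderiv_eq, fderiv_snd, x0] at e1
    exact (DFunLike.congr_fun e1 y).symm
  refine ⟨Prod.snd ∘ e, D.eqn_of_pos hs ?_ (h2.mono fun s h => ?_)
    ⟨dif e.symm (s₀, 0) (0, 1), ?_⟩⟩
  · exact (e.open_source.eventually_mem (x0 ▸ e.map_target h1)).mono sm
  · rw [← h.1, Function.comp_apply, e.right_inv h.2]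
  · rw [← h3, a1, a1]
    simp

end Pool.Agent.Lib.MP_1c0d65_gt.PW
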