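import Pool.Agent.Lib.MP_1c0d65_gt.E.Cur
import Pool.Agent.Lib.MP_1c0d65_gt.PW.BrK
import Pool.Agent.Lib.MP_1c0d65_gt.B.Coord

/-! The coefficient of the differential of a local equation along the curve. -/

set_option autoImplicit false
set_option linter.unusedSectionVars false

open scoped Manifold ContDiff Topology ComplexConjugate
open Set Filter

noncomputable section

namespace Pool.Agent.Lib.MP_1c0d65_gt.PW

section lin

variable {J : E →L[ℝ] E} {Ω : Bil E ℂ} {t : E}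

theorem can_anti (alt : ∀ v, Ω v v = 0) (v w : E) : Ω v w = -Ω w v := by
  have := alt (v + w)
  simp only [map_add, add_apply, alt] at this
  linear_combination this

theorem can_right (alt : ∀ v, Ω v v = 0) (h2 : ∀ v w, Ω (J v) w = .I * Ω v w) (v w : E) :
    Ω v (J w) = .I * Ω v w := by
  rw [can_anti alt, h2, can_anti alt w]; ring

/-- A form of type `(2,0)` is a multiple of the determinant. -/
theorem can_det (hJ : ∀ v, J (J v) = -v) (alt : ∀ v, Ω v v = 0)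
    (h2 : ∀ v w, Ω (J v) w = .I * Ω v w) : ∃ (A : E ≃L[ℝ] E) (k : ℂ),
      (∀ v, A (J v) = Complex.I • A v) ∧
        ∀ v w, Ω v w = k * ((A v).1 * (A w).2 - (A v).2 * (A w).1) := by
  obtain ⟨A, hA⟩ := B.exists_coord (V := E) (by simp) J hJ
  have hs : ∀ (z : ℂ) (a : E), A.symm (z • a) = z.re • A.symm a + z.im • J (A.symm a) := by
    intro z a
    apply A.injective
    simp only [map_add, map_smul, hA, A.apply_symm_apply]
    conv_lhs => rw [← Complex.re_add_im z]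
    rw [add_smul, mul_smul, Complex.coe_smul, Complex.coe_smul]
  have h1 : ∀ (z : ℂ) (a w : E), Ω (A.symm (z • a)) w = z * Ω (A.symm a) w := by
    intro z a w
    rw [hs]
    simp only [map_add, map_smul, add_apply, smul_apply, h2, Complex.real_smul]
    conv_rhs => rw [← Complex.re_add_im z]
    ring
  have h3 : ∀ v w, Ω v w = (A v).1 * Ω (A.symm (1, 0)) w + (A v).2 * Ω (A.symm (0, 1)) w := by
    intro v w
    rw [← h1, ← h1, ← add_apply, ← map_add, ← map_add]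
    congr 2
    apply A.injective
    simp
  refine ⟨A, Ω (A.symm (1, 0)) (A.symm (0, 1)), hA, fun v w => ?_⟩
  rw [h3 v w, can_anti alt _ w, can_anti alt (A.symm (0, 1)) w, h3 w, h3 w (A.symm (0, 1)), alt,
    alt, can_anti alt (A.symm (0, 1))]
  ring

theorem lam_ne (hJ : ∀ v, J (J v) = -v) (h0 : Ω ≠ 0) (alt : ∀ v, Ω v v = 0)
    (h2 : ∀ v w, Ω (J v) w = .I * Ω v w) (ht : t ≠ 0) : ∃ v, Ω t v ≠ 0 := by
  obtain ⟨A, k, -, h⟩ := can_det hJ alt h2
  have hk : k ≠ 0 := fun e => h0 (ContinuousLinearMap.ext fun v => ContinuousLinearMap.ext fun w =>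
    by simp [h, e])
  by_contra! hc
  have e1 := hc (A.symm (0, 1))
  have e2 := hc (A.symm (1, 0))
  simp only [h, A.apply_symm_apply, mul_one, mul_zero, sub_zero, zero_sub, mul_eq_zero, hk,
    false_or, neg_eq_zero] at e1 e2
  exact ht (A.injective (by rw [map_zero]; exact Prod.ext e1 e2))

/-- The kernel of `Ω (t, ·)` is the complex line through `t`. -/
theorem lam_ker (hJ : ∀ v, J (J v) = -v) (h0 : Ω ≠ 0) (alt : ∀ v, Ω v v = 0)
    (h2 : ∀ v w, Ω (J v) w = .I * Ω v w) (ht : t ≠ 0) {v : E} (hv : Ω t v = 0) :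
    ∃ a b : ℝ, v = a • t + b • J t := by
  obtain ⟨A, k, hA, h⟩ := can_det hJ alt h2
  have hk : k ≠ 0 := fun e => h0 (ContinuousLinearMap.ext fun v => ContinuousLinearMap.ext fun w =>
    by simp [h, e])
  rw [h, mul_eq_zero, or_iff_right hk] at hv
  obtain ⟨z, hz⟩ : ∃ z : ℂ, A v = z • A t := by
    by_cases h1 : (A t).1 = 0
    · have h3 : (A t).2 ≠ 0 := fun e => ht (A.injective (by rw [map_zero]; exact Prod.ext h1 e))
      refine ⟨(A v).2 / (A t).2, Prod.ext ?_ (by simp [h3])⟩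
      simp only [h1, zero_mul, zero_sub, neg_eq_zero, mul_eq_zero, h3, false_or] at hv
      simp [hv, h1]
    · refine ⟨(A v).1 / (A t).1, Prod.ext (by simp [h1]) ?_⟩
      simp only [Prod.smul_snd, smul_eq_mul]
      field_simp
      linear_combination hv
  refine ⟨z.re, z.im, A.injective ?_⟩
  simp only [map_add, map_smul, hA, hz]
  conv_lhs => rw [← Complex.re_add_im z]
  rw [add_smul, mul_smul, Complex.coe_smul, Complex.coe_smul]

/-- uniqueness of the coefficient -/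
theorem coef_unique {J : E →L[ℝ] E} (hJ : ∀ v, J (J v) = -v) {Ω : Bil E ℂ} (h0 : Ω ≠ 0)
    (alt : ∀ v, Ω v v = 0) (h2 : ∀ v w, Ω (J v) w = .I * Ω v w) {t : E} (ht : t ≠ 0)
    {h h' k k' : ℂ} (e : ∀ v, h * Ω t v + h' * conj (Ω t v) = k * Ω t v + k' * conj (Ω t v)) :
    h = k ∧ h' = k' := by
  obtain ⟨v, hv⟩ := lam_ne hJ h0 alt h2 ht
  have e1 := e v
  have e2 := e (J v)
  rw [can_right alt h2, map_mul, Complex.conj_I] at e2
  have hc : conj (Ω t v) ≠ 0 := by simpa using hv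
  constructor
  · apply mul_right_cancel₀ (mul_ne_zero hv (mul_ne_zero two_ne_zero Complex.I_ne_zero))
    linear_combination Complex.I * e1 + e2
  · apply mul_right_cancel₀ (mul_ne_zero hc (mul_ne_zero two_ne_zero Complex.I_ne_zero))
    linear_combination Complex.I * e1 - e2

/-- A linear form that kills the line through `t`. -/
theorem coef_eq (hJ : ∀ v, J (J v) = -v) (h0 : Ω ≠ 0) (alt : ∀ v, Ω v v = 0)
    (h2 : ∀ v w, Ω (J v) w = .I * Ω v w) (ht : t ≠ 0) {L : E →L[ℝ] ℂ} (l1 : L t = 0)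
    (l2 : L (J t) = 0) {n : E} (hn : Ω t n ≠ 0) (v : E) :
    L v = (L n - .I * L (J n)) / (2 * Ω t n) * Ω t v +
      (L n + .I * L (J n)) / (2 * conj (Ω t n)) * conj (Ω t v) := by
  obtain ⟨z, hz⟩ : ∃ z : ℂ, Ω t v = z * Ω t n := ⟨Ω t v / Ω t n, by field_simp⟩
  have hc : conj (Ω t n) ≠ 0 := by simpa using hn
  obtain ⟨a, b, h⟩ := lam_ker hJ h0 alt h2 ht (v := v - z.re • n - z.im • J n) (by
    simp only [map_sub, map_smul, can_right alt h2, hz, Complex.real_smul]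
    conv_lhs => rw [← Complex.re_add_im z]
    simp only [Complex.add_re, Complex.add_im, Complex.ofReal_re, Complex.mul_re, Complex.I_re,
      Complex.ofReal_im, Complex.I_im, Complex.mul_im, mul_zero, mul_one, sub_self, add_zero,
      zero_add]
    ring)
  have h3 := congrArg L h
  simp only [map_sub, map_add, map_smul, l1, l2, smul_zero, add_zero, Complex.real_smul] at h3
  have h4 : conj z = z.re - z.im * Complex.I := by
    apply Complex.ext <;> simp
  rw [hz, map_mul, h4]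
  conv_rhs => rw [← Complex.re_add_im z]
  simp only [Complex.add_re, Complex.add_im, Complex.ofReal_re, Complex.mul_re, Complex.I_re,
    Complex.ofReal_im, Complex.I_im, Complex.mul_im, mul_zero, mul_one, sub_self, add_zero,
    zero_add]
  field_simp
  linear_combination 2 * h3 + 2 * (z.im : ℂ) * L (J n) * Complex.I_mul_I

theorem coef_pos {h h' l : ℂ}
    (p : 0 < (conj (h * l + h' * conj l) * (h * (.I * l) + h' * conj (.I * l))).im) :
    ‖h'‖ < ‖h‖ := by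
  have e : (conj (h * l + h' * conj l) * (h * (.I * l) + h' * conj (.I * l))).im =
      (Complex.normSq h - Complex.normSq h') * Complex.normSq l := by
    simp [Complex.normSq_apply]; ring
  rw [e] at p
  have := (pos_iff_pos_of_mul_pos p).2 ((Complex.normSq_nonneg l).lt_of_ne' fun e => by
    simp [e] at p)
  rw [Complex.normSq_eq_norm_sq, Complex.normSq_eq_norm_sq] at this
  exact lt_of_pow_lt_pow_left₀ 2 (norm_nonneg _) (by linarith)

end lin

variable {X : Type} [TopologicalSpace X] [ChartedSpace E X] [IsManifold 𝓘(ℝ, E) ∞ X]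
  [T2Space X] [CompactSpace X] [MeasurableSpace X] [BorelSpace X] {c : Ctx X} {O : Orb c}
  {C : OC O}

/-- The differential of an equation kills the tangent line. -/
theorem OC.dfn_tan (C : OC O) {s : ℂ} (hs : s ∉ C.F) {P : X → ℂ} (sm : FnAt ∞ P (C.u s))
    (zero : ∀ᶠ y in 𝓝 (C.u s), P y = 0 ↔ y ∈ C.img) (z : ℂ) :
    dfn P (C.u s) (dif C.u s z) = 0 := by
  have h : P ∘ C.u =ᶠ[𝓝 s] fun _ => 0 := by
    filter_upwards [(C.cm hs).continuousAt.eventually zero, C.isOpen_F.mem_nhds hs] with y h1 h2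
    exact h1.2 (Or.inl ⟨y, h2, rfl⟩)
  have := fderiv_fn_comp (sm.mdifferentiableAt (by simp)) (brk_md (C.cm hs))
  rw [h.fderiv_eq, fderiv_fun_const] at this
  exact (congrArg (fun L : ℂ →L[ℝ] ℂ => L z) this).symm

/-- the coefficient of the linear part of `dP` along the curve, both coefficients smooth -/
theorem Eqn.exists_coef' (D : Bad C) {s₀ : ℂ} (hs : s₀ ∉ D.Z) {P : X → ℂ} (hP : Eqn C P (C.u s₀))
    {U : Set X} (hU : IsOpen U) (hm : C.u s₀ ∈ U) {Ω : X → Bil E ℂ} (hΩ : Form U Ω)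
    (h2 : ∀ y ∈ U, Ω y ≠ 0 ∧ ∀ v w, Ω y (O.J y v) w = .I * Ω y v w) :
    ∃ h h' : ℂ → ℂ, ∀ᶠ s in 𝓝 s₀, ContDiffAt ℝ ∞ h s ∧ ContDiffAt ℝ ∞ h' s ∧ ‖h' s‖ < ‖h s‖ ∧ ∀ v,
      dfn P (C.u s) v =
        h s * Ω (C.u s) (dif C.u s 1) v + h' s * conj (Ω (C.u s) (dif C.u s 1) v) := by
  have hF : ∀ {s}, s ∉ D.Z → s ∉ C.F := fun h h' => h (D.hF h')
  set e := chartAt E (C.u s₀)
  have he : IsChart e := isChart_chartAt _
  have oW : IsOpen O.W := (isClosed_iUnion_of_finite O.closed).isOpen_compl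
  obtain ⟨n, hn⟩ := lam_ne (O.JJ (C.mu (hF hs))) (h2 _ hm).1 (hΩ.1 _ hm) (h2 _ hm).2 (D.imm _ hs)
  set w : ℂ → E := e ∘ C.u
  set a : ℂ → ℂ := fun s => fderiv ℝ (P ∘ e.symm) (w s) n
  set b : ℂ → ℂ := fun s => fderiv ℝ (P ∘ e.symm) (w s) (pullJ e.symm O.J (w s) n)
  set l : ℂ → ℂ := fun s => pull2 e.symm Ω (w s) (fderiv ℝ w s 1) n
  have key : ∀ s, s ∉ D.Z → C.u s ∈ e.source → C.u s ∈ U → FnAt ∞ P (C.u s) →
      ContDiffAt ℝ ∞ a s ∧ ContDiffAt ℝ ∞ b s ∧ ContDiffAt ℝ ∞ l s ∧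
      a s = dfn P (C.u s) (dif e.symm (w s) n) ∧
      b s = dfn P (C.u s) (O.J (C.u s) (dif e.symm (w s) n)) ∧
      l s = Ω (C.u s) (dif C.u s 1) (dif e.symm (w s) n) := by
    intro s h1 h3 h4 h5
    have ht : w s ∈ e.target := e.map_source h3
    have e1 : e.symm (w s) = C.u s := e.left_inv h3
    have hw : ContDiffAt ℝ ∞ w s := he.loc le_rfl (C.cm (hF h1)) h3
    have hp : ContDiffAt ℝ ∞ (fun s => fderiv ℝ (P ∘ e.symm) (w s)) s :=
      ((FnAt.comp_plot (e1 ▸ h5) (he.smAt ht)).fderiv_right top_le).comp s hw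
    have hj : ContDiffAt ℝ ∞ (fun s => pullJ e.symm O.J (w s)) s :=
      (O.tame.smooth oW (he.smAt ht) (e1 ▸ C.mu (hF h1)) (he.inv ht)).comp s hw
    have ho : ContDiffAt ℝ ∞ (fun s => pull2 e.symm Ω (w s)) s :=
      (hΩ.smooth hU (he.smAt ht) (e1 ▸ h4)).comp s hw
    have hd := fderiv_fn_comp (g := P) (f := e.symm) (y := w s)
      (by rw [e1]; exact h5.mdifferentiableAt (by simp)) ((he.smAt ht).dfAt (by simp))
    refine ⟨hp.clm_apply contDiffAt_const, hp.clm_apply (hj.clm_apply contDiffAt_const),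
      (ho.clm_apply ((hw.fderiv_right top_le).clm_apply contDiffAt_const)).clm_apply
        contDiffAt_const, ?_, ?_, ?_⟩
    · simp only [a, hd, e1, ContinuousLinearMap.comp_apply]
    · simp only [b, hd, e1, ContinuousLinearMap.comp_apply, dif_pullJ (he.inv ht)]
    · rw [he.dif_loc (brk_md (C.cm (hF h1))) h3]
      simp only [l, brk_pull2_apply, e1, ContinuousLinearMap.comp_apply]
      rfl
  have form : ∀ s, s ∉ D.Z → C.u s ∈ e.source → C.u s ∈ U → FnAt ∞ P (C.u s) →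
      (∀ᶠ y in 𝓝 (C.u s), P y = 0 ↔ y ∈ C.img) → l s ≠ 0 → ∀ v, dfn P (C.u s) v =
        (a s - .I * b s) / (2 * l s) * Ω (C.u s) (dif C.u s 1) v +
          (a s + .I * b s) / (2 * conj (l s)) * conj (Ω (C.u s) (dif C.u s 1) v) := by
    intro s h1 h3 h4 h5 h6 h7 v
    obtain ⟨-, -, -, k1, k2, k3⟩ := key s h1 h3 h4 h5
    rw [k3] at h7
    rw [k1, k2, k3]
    refine coef_eq (O.JJ (C.mu (hF h1))) (h2 _ h4).1 (hΩ.1 _ h4) (h2 _ h4).2 (D.imm _ h1)
      (C.dfn_tan (hF h1) h5 h6 1) ?_ h7 v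
    rw [← C.hu.2 s (hF h1)]
    exact C.dfn_tan (hF h1) h5 h6 _
  have sm : ∀ s, s ∉ D.Z → C.u s ∈ e.source → C.u s ∈ U → FnAt ∞ P (C.u s) → l s ≠ 0 →
      ContDiffAt ℝ ∞ (fun s => (a s - .I * b s) / (2 * l s)) s ∧
        ContDiffAt ℝ ∞ (fun s => (a s + .I * b s) / (2 * conj (l s))) s := by
    intro s h1 h3 h4 h5 h7
    obtain ⟨k1, k2, k3, -⟩ := key s h1 h3 h4 h5
    have k4 : ContDiffAt ℝ ∞ (fun s => conj (l s)) s :=
      Complex.conjCLE.contDiff.contDiffAt.comp s k3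
    simp only [div_eq_mul_inv]
    exact ⟨(k1.sub (contDiffAt_const.mul k2)).mul
        ((contDiffAt_const.mul k3).inv (mul_ne_zero two_ne_zero h7)),
      (k1.add (contDiffAt_const.mul k2)).mul
        ((contDiffAt_const.mul k4).inv (mul_ne_zero two_ne_zero (by simpa using h7)))⟩
  have m0 : C.u s₀ ∈ e.source := mem_chart_source E _
  have p0 := hP.sm.self_of_nhds
  obtain ⟨-, -, k3, -, -, k6⟩ := key s₀ hs m0 hm p0
  have l0 : l s₀ ≠ 0 := by
    rw [k6, show dif e.symm (w s₀) = ContinuousLinearMap.id ℝ E from dif_par_self _]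
    exact hn
  obtain ⟨s1, s2⟩ := sm s₀ hs m0 hm p0 l0
  obtain ⟨v, hv⟩ := hP.pos (Or.inl ⟨s₀, hF hs, rfl⟩)
  rw [form s₀ hs m0 hm p0 hP.zero l0 v, form s₀ hs m0 hm p0 hP.zero l0 (O.J _ v),
    can_right (hΩ.1 _ hm) (h2 _ hm).2] at hv
  have cu := (C.cm (hF hs)).continuousAt
  refine ⟨fun s => (a s - .I * b s) / (2 * l s), fun s => (a s + .I * b s) / (2 * conj (l s)), ?_⟩
  filter_upwards [s2.continuousAt.norm.eventually_lt s1.continuousAt.norm (coef_pos hv),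
    D.Z.finite_toSet.isClosed.isOpen_compl.mem_nhds hs, cu.eventually (e.open_source.mem_nhds m0),
    cu.eventually (hU.mem_nhds hm), cu.eventually hP.sm, cu.eventually hP.zero.eventually_nhds,
    k3.continuousAt.eventually_ne l0] with s a0 a1 a2 a3 a4 a5 a6
  exact ⟨(sm s a1 a2 a3 a4 a6).1, (sm s a1 a2 a3 a4 a6).2, a0, form s a1 a2 a3 a4 a5 a6⟩

/-- the coefficient of the linear part of `dP` along the curve -/
theorem Eqn.exists_coef (D : Bad C) {s₀ : ℂ} (hs : s₀ ∉ D.Z) {P : X → ℂ} (hP : Eqn C P (C.u s₀))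
    {U : Set X} (hU : IsOpen U) (hm : C.u s₀ ∈ U) {Ω : X → Bil E ℂ} (hΩ : Form U Ω)
    (h2 : ∀ y ∈ U, Ω y ≠ 0 ∧ ∀ v w, Ω y (O.J y v) w = .I * Ω y v w) :
    ∃ h h' : ℂ → ℂ, ∀ᶠ s in 𝓝 s₀, ContDiffAt ℝ ∞ h s ∧ ‖h' s‖ < ‖h s‖ ∧ ∀ v,
      dfn P (C.u s) v = h s * Ω (C.u s) (dif C.u s 1) v + h' s * conj (Ω (C.u s) (dif C.u s 1) v) :=
  let ⟨h, h', H⟩ := hP.exists_coef' D hs hU hm hΩ h2
  ⟨h, h', H.mono fun _ a => ⟨a.1, a.2.2⟩⟩

end Pool.Agent.Lib.MP_1c0d65_gt.PW
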