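import Pool.Agent.Lib.MP_1c0d65_gt.E.Conn
import Pool.Agent.Lib.MP_1c0d65_gt.E.GlueA
import Pool.Agent.Lib.MP_1c0d65_gt.E.GlueB
import Pool.Agent.Lib.MP_1c0d65_gt.E.AdjL
import Pool.Agent.Lib.MP_1c0d65_gt.PW.Cay

/-! A section of the anticanonical bundle along the good part of a curve; the current. -/

set_option autoImplicit false
set_option linter.unusedSectionVars false

open scoped Manifold ContDiff Topology ComplexConjugate
open Set Filter

noncomputable section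

namespace Pool.Agent.Lib.MP_1c0d65_gt.PW

variable {X : Type} [TopologicalSpace X] [ChartedSpace E X] [IsManifold 𝓘(ℝ, E) ∞ X]
  [T2Space X] [CompactSpace X] [MeasurableSpace X] [BorelSpace X] {c : Ctx X} {O : Orb c}
  {C : OC O} {D : Bad C} {cc : X → Bil E ℝ}

theorem Bad.not_W (D : Bad C) {x : X} (hx : x ∉ D.B) : x ∈ O.W := fun h => hx (D.hL h)

theorem Bad.exists_par (D : Bad C) {x : X} (hx : x ∈ C.img) (hB : x ∉ D.B) :
    ∃ s ∉ D.Z, C.u s = x := by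
  rcases hx with ⟨s, hs, rfl⟩ | rfl
  · exact ⟨s, fun h => hB ((D.hZ s hs).2 h), rfl⟩
  · exact (hB D.v0).elim

theorem glue_pos {r : ℝ} {m l : ℂ} (hl : l ≠ 0) (h : ‖m‖ < r) :
    0 < (conj (r * l + m * conj l) * (r * (.I * l) + m * conj (.I * l))).im := by
  have h1 : (conj (r * l + m * conj l) * (r * (.I * l) + m * conj (.I * l))).im =
      (r ^ 2 - Complex.normSq m) * Complex.normSq l := by
    simp [Complex.normSq_apply]
    ring
  rw [h1, Complex.normSq_eq_norm_sq]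
  exact mul_pos (sub_pos.2 (pow_lt_pow_left₀ h (norm_nonneg _) two_ne_zero))
    (Complex.normSq_pos.2 hl)

theorem Eqn.rat_of_mul {P Q H : X → ℂ} {y : X} (hP : Eqn C P y) (hQ : Eqn C Q y) (hy : y ∈ C.img)
    (h : ∀ᶠ w in 𝓝 y, FnAt ∞ H w ∧ P w = H w * Q w) : Rat P Q y H := by
  refine ⟨fun h0 => ?_, h⟩
  obtain ⟨v, hv⟩ := hP.pos hy
  rw [dfn_congr (h.mono fun _ hw => hw.2 : P =ᶠ[𝓝 y] fun w => H w * Q w),
    dfn_mul h.self_of_nhds.1 hQ.fn, h0, hQ.eq hy] at hv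
  simp at hv

/-- The differential of `Q` at `y` is `r Ω (u_s, .)` plus an antilinear term of size `< r`. -/
def Nrm (D : Bad C) (Ω : X → Bil E ℂ) (r : ℝ) (Q : X → ℂ) (y : X) : Prop :=
  ∀ s ∉ D.Z, C.u s = y → ∃ m : ℂ, ‖m‖ ≤ r ∧ (0 < r → ‖m‖ < r) ∧
    ∀ v, dfn Q y v = r * Ω y (dif C.u s 1) v + m * conj (Ω y (dif C.u s 1) v)

variable (K : Adj.Chern O.W O.J cc)

theorem glue_loc {k : X} (hk : k ∈ C.img) (hB : k ∉ D.B) {P : X → ℂ} (hP : Eqn C P k) :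
    ∃ H, ∀ᶠ y in 𝓝 k, Rat (fun w => H w * P w) P y H ∧
      Nrm D (K.Ω k) 1 (fun w => H w * P w) y := by
  obtain ⟨s₀, hs, rfl⟩ := D.exists_par hk hB
  have hW := D.not_W hB
  obtain ⟨h, h', hh⟩ := hP.exists_coef D hs (K.op _ hW) (K.mem _ hW) (K.form _ hW)
    fun y hy => ⟨K.ne _ hW y hy, K.tz _ hW y hy⟩
  obtain ⟨R, hR, hR'⟩ := D.exists_retr hs
  have h0 : ∀ᶠ s in 𝓝 s₀, h s ≠ 0 := hh.mono fun s e =>
    norm_pos_iff.1 ((norm_nonneg _).trans_lt e.2.1)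
  have hc : Tendsto R (𝓝 (C.u s₀)) (𝓝 s₀) := by
    have := hR.self_of_nhds.continuousAt.tendsto
    rwa [hR'.self_of_nhds] at this
  have hr : Rat (fun w => (h (R w))⁻¹ * P w) P (C.u s₀) fun w => (h (R w))⁻¹ := by
    refine ⟨inv_ne_zero (by rw [hR'.self_of_nhds]; exact h0.self_of_nhds), ?_⟩
    filter_upwards [hR, hc.eventually (hh.and h0)] with w e1 e2
    exact ⟨FnAt.cinv (P := fun w => h (R w)) (e2.1.1.comp_contMDiffAt e1) e2.2, rfl⟩
  refine ⟨fun w => (h (R w))⁻¹, ?_⟩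
  have hZ : ∀ᶠ s in 𝓝 s₀, s ∉ D.Z := D.Z.finite_toSet.isClosed.isOpen_compl.mem_nhds hs
  filter_upwards [hr.ev, D.emb hs (((hh.and h0).and hR').and hZ), hP.sm, hP.zero]
    with y e1 e2 e3 e4
  refine ⟨e1, fun s hs' hy => ?_⟩
  have hi : y ∈ C.img := Or.inl ⟨s, fun h => hs' (D.hF h), hy⟩
  obtain ⟨t, ⟨⟨⟨f1, f2⟩, f3⟩, f4⟩, ht⟩ := e2 hi
  obtain rfl : t = s := D.inj f4 hs' (ht.trans hy.symm)
  subst ht
  have hm : ‖h' t / h t‖ < 1 := by
    rw [norm_div]; exact (div_lt_one (norm_pos_iff.2 f2)).2 f1.2.1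
  refine ⟨h' t / h t, hm.le, fun _ => hm, fun v => ?_⟩
  rw [e1.dfn_eq e3 (e4.2 hi), f3, f1.2.2]
  push_cast
  field_simp

/-- What is asked of the local pieces. -/
structure Pc (S : Site D) (V : Set X) (k : X) (Q : X → ℂ) (y : X) : Prop where
  hW : k ∈ O.W
  mem : y ∈ K.U k
  fn : FnAt ∞ Q y
  van : y ∈ C.img → Q y = 0
  nrm : Nrm D (K.Ω k) 1 Q y
  mul : y ∈ V → ∃ H, ∀ᶠ w in 𝓝 y, FnAt ∞ H w ∧ Q w = H w * S.P y w

theorem exists_pc (S : Site D) {V : Set X} (hV : closure V ⊆ S.V) {k : X} (hk : k ∈ C.img)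
    (hB : k ∉ D.B) : ∃ Q, ∀ᶠ y in 𝓝 k, Pc K S V k Q y := by
  have hW := D.not_W hB
  have hU := (K.op k hW).mem_nhds (K.mem k hW)
  by_cases h : k ∈ S.V
  · obtain ⟨H, hH⟩ := glue_loc K hk hB (S.eqn k h hB)
    refine ⟨fun w => H w * S.P k w, ?_⟩
    filter_upwards [hH, hU, (S.eqn k h hB).sm, (S.eqn k h hB).zero, S.cst k h hB]
      with y e1 e2 e3 e4 e5
    obtain ⟨κ, h1, h2⟩ := e5
    exact ⟨hW, e2, e1.1.fn.cmul e3, fun hy => by rw [e4.2 hy, mul_zero], e1.2,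
      fun _ => ⟨_, (e1.1.trans (rat_const h1 h2).symm).2⟩⟩
  · obtain ⟨s, hs, rfl⟩ := D.exists_par hk hB
    obtain ⟨P, hP⟩ := D.exists_eqn hs
    obtain ⟨H, hH⟩ := glue_loc K hk hB hP
    refine ⟨fun w => H w * P w, ?_⟩
    filter_upwards [hH, hU, hP.sm, hP.zero,
      isClosed_closure.isOpen_compl.mem_nhds fun e => h (hV e)] with y e1 e2 e3 e4 e5
    exact ⟨hW, e2, e1.1.fn.cmul e3, fun hy => by rw [e4.2 hy, mul_zero], e1.2,
      fun hy => (e5 (subset_closure hy)).elim⟩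

theorem exists_bumps {A : Set X} (hA : IsClosed A) (N : X → Set X) (hN : ∀ i, IsOpen (N i))
    (hc : ∀ x ∈ A, x ∈ N x) : ∃ (s : Finset X) (ρ : s → X → ℝ),
      (∀ i, ContMDiff 𝓘(ℝ, E) 𝓘(ℝ, ℝ) ∞ (ρ i)) ∧ (∀ i, tsupport (ρ i) ⊆ N i) ∧
      (∀ i x, 0 ≤ ρ i x) ∧ ∀ x ∈ A, ∑ i, ρ i x = 1 := by
  obtain ⟨s, hs⟩ := hA.isCompact.elim_finite_subcover N hN fun x hx => mem_iUnion.2 ⟨x, hc x hx⟩
  obtain ⟨f, hf⟩ := SmoothPartitionOfUnity.exists_isSubordinate 𝓘(ℝ, E) hA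
    (fun i : s => N i) (fun i => hN i) (fun x hx => by
      obtain ⟨i, hi, h⟩ := mem_iUnion₂.1 (hs hx)
      exact mem_iUnion.2 ⟨⟨i, hi⟩, h⟩)
  refine ⟨s, fun i => f i, fun i => (f i).contMDiff, hf, f.nonneg, fun x hx => ?_⟩
  rw [← finsum_eq_sum_of_fintype]; exact f.sum_eq_one hx

section
variable {S : Site D} {V : Set X} {ι : Type} [Fintype ι] {k : ι → X} {Q : ι → X → ℂ}
  {ρ : ι → X → ℝ}

/-- One term of the section, in the frame at `x`. -/
def trm (k : X) (Q : X → ℂ) (ρ : X → ℝ) (x y : X) : ℂ := ρ y * K.g x k y * Q y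

variable {K} (h1 : ∀ i, ContMDiff 𝓘(ℝ, E) 𝓘(ℝ, ℝ) ∞ (ρ i))
  (h2 : ∀ i, ∀ y ∈ tsupport (ρ i), Pc K S V (k i) (Q i) y) (h3 : ∀ i x, 0 ≤ ρ i x)
  {x y : X} (hx : x ∈ O.W) (hy : y ∈ K.U x)

theorem trm_zero {k : X} {Q : X → ℂ} {ρ : X → ℝ} (h : y ∉ tsupport ρ) :
    trm K k Q ρ x =ᶠ[𝓝 y] fun _ => 0 :=
  (notMem_tsupport_iff_eventuallyEq.1 h).mono fun w hw => by simp [trm, hw]

include hx hy in
theorem trm_g {k : X} (hk : k ∈ O.W) (h : y ∈ K.U k) : FnAt ∞ (K.g x k) y :=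
  (K.sm x hx k hk).contMDiffAt (((K.op x hx).inter (K.op k hk)).mem_nhds ⟨hy, h⟩)

include h1 h2 hx hy in
theorem trm_fn (i : ι) : FnAt ∞ (trm K (k i) (Q i) (ρ i) x) y := by
  by_cases h : y ∈ tsupport (ρ i)
  · exact ((FnAt.ofReal (h1 i y)).cmul (trm_g hx hy (h2 i y h).hW (h2 i y h).mem)).cmul
      (h2 i y h).fn
  · exact contMDiffAt_const.congr_of_eventuallyEq (trm_zero h)

include h1 h2 h3 hx hy in
theorem trm_nrm (i : ι) : Nrm D (K.Ω x) (ρ i y) (trm K (k i) (Q i) (ρ i) x) y := by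
  intro s hs hu
  by_cases h : y ∈ tsupport (ρ i)
  · have e := h2 i y h
    obtain ⟨m, -, m1, m2⟩ := e.nrm s hs hu
    have hg := K.g_ne hx e.hW ⟨hy, e.mem⟩
    have hn : ‖ρ i y * m * (K.g x (k i) y / conj (K.g x (k i) y))‖ = ρ i y * ‖m‖ := by
      rw [norm_mul, norm_mul, norm_div, RCLike.norm_conj, div_self (norm_ne_zero_iff.2 hg),
        mul_one, Complex.norm_real, Real.norm_of_nonneg (h3 i y)]
    refine ⟨_, hn ▸ mul_le_of_le_one_right (h3 i y) (m1 one_pos).le,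
      fun hp => hn ▸ mul_lt_of_lt_one_right hp (m1 one_pos), fun v => ?_⟩
    have hc : conj (K.g x (k i) y) ≠ 0 := (map_ne_zero _).2 hg
    have := dfn_mul ((FnAt.ofReal (h1 i y)).cmul (trm_g hx hy e.hW e.mem)) e.fn v
    rw [e.van (Or.inl ⟨s, fun h => hs (D.hF h), hu⟩), m2] at this
    refine this.trans ?_
    rw [K.co x hx _ e.hW y ⟨hy, e.mem⟩]
    simp only [smul_apply, smul_eq_mul, map_mul]
    push_cast
    field_simp
    ring
  · have : dfn (fun _ : X => (0 : ℂ)) y = 0 := mfderiv_const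
    rw [dfn_congr (trm_zero h), this, image_eq_zero_of_notMem_tsupport h]
    exact ⟨0, by simp, fun h => (lt_irrefl _ h).elim, fun v => by simp⟩

variable (K k Q ρ) in
/-- The section, in the frame at `x`. -/
def sec (x y : X) : ℂ := ∑ i, trm K (k i) (Q i) (ρ i) x y

include h1 h2 hx hy in
theorem sec_fn : FnAt ∞ (sec K k Q ρ x) y :=
  contMDiffAt_finsetSum fun i _ => trm_fn h1 h2 hx hy i

include h2 in
theorem sec_van (hi : y ∈ C.img) : sec K k Q ρ x y = 0 := Finset.sum_eq_zero fun i _ => by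
  by_cases h : y ∈ tsupport (ρ i)
  · rw [trm, (h2 i y h).van hi, mul_zero]
  · exact (trm_zero h).eq_of_nhds

include h1 h2 h3 hx hy in
theorem sec_pos (hi : y ∈ C.img) (hB : y ∉ D.B) (hp : 0 < ∑ i, ρ i y) : ∃ v,
    0 < (conj (dfn (sec K k Q ρ x) y v) * dfn (sec K k Q ρ x) y (O.J y v)).im := by
  obtain ⟨s, hs, hu⟩ := D.exists_par hi hB
  choose m m1 m2 m3 using fun i => trm_nrm h1 h2 h3 hx hy i s hs hu
  have alt := (K.form x hx).1 y hy
  obtain ⟨v, hv⟩ := lam_ne (O.JJ (D.not_W hB)) (K.ne x hx y hy) alt (K.tz x hx y hy) (D.imm s hs)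
  have hd (v : E) : dfn (sec K k Q ρ x) y v = (∑ i, ρ i y : ℝ) * K.Ω x y (dif C.u s 1) v +
      (∑ i, m i) * conj (K.Ω x y (dif C.u s 1) v) := by
    have h := HasMFDerivAt.sum (t := Finset.univ) (z := y) fun i _ =>
      (trm_fn h1 h2 hx hy i).md.hasMFDerivAt
    have e : (∑ i, trm K (k i) (Q i) (ρ i) x) = sec K k Q ρ x := funext fun w => by
      rw [Finset.sum_apply]; rfl
    rw [e] at h
    have h' : dfn (sec K k Q ρ x) y = ∑ i, dfn (trm K (k i) (Q i) (ρ i) x) y := h.mfderiv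
    rw [h', sum_apply]
    simp only [m3, Finset.sum_add_distrib, ← Finset.sum_mul]
    push_cast
    rfl
  refine ⟨v, ?_⟩
  rw [hd, hd, can_right alt (K.tz x hx y hy)]
  refine glue_pos hv ((norm_sum_le _ _).trans_lt ?_)
  obtain ⟨i, -, hi⟩ := Finset.exists_ne_zero_of_sum_ne_zero hp.ne'
  exact Finset.sum_lt_sum (fun i _ => m1 i)
    ⟨i, Finset.mem_univ i, m2 i ((h3 i y).lt_of_ne' hi)⟩

include h2 hx hy in
theorem sec_rat {x' : X} (hx' : x' ∈ O.W) (hy' : y ∈ K.U x') :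
    Rat (sec K k Q ρ x) (sec K k Q ρ x') y (K.g x x') := by
  refine ⟨K.g_ne hx hx' ⟨hy, hy'⟩, ?_⟩
  filter_upwards [(K.op x hx).mem_nhds hy, (K.op x' hx').mem_nhds hy'] with w e1 e2
  refine ⟨trm_g hx e1 hx' e2, ?_⟩
  rw [sec, sec, Finset.mul_sum]
  refine Finset.sum_congr rfl fun i _ => ?_
  by_cases h : w ∈ tsupport (ρ i)
  · have e := h2 i w h
    have e3 := K.co x hx _ e.hW w ⟨e1, e.mem⟩
    rw [K.co x hx x' hx' w ⟨e1, e2⟩, K.co x' hx' _ e.hW w ⟨e2, e.mem⟩] at e3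
    have e4 : K.g x (k i) w = K.g x x' w * K.g x' (k i) w := by
      by_contra hne
      refine K.ne _ e.hW w e.mem (bil_ext fun a b => ?_)
      have := congrArg (fun B : Bil E ℂ => B a b) e3
      simp only [smul_apply, smul_eq_mul, ← mul_assoc] at this
      exact (mul_eq_mul_right_iff.1 this).resolve_left (Ne.symm hne)
    rw [trm, trm, e4]
    ring
  · rw [(trm_zero h).eq_of_nhds, (trm_zero h).eq_of_nhds, mul_zero]

include h1 h2 hx hy in
theorem sec_mul (hV : y ∈ V) :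
    ∃ H, ∀ᶠ w in 𝓝 y, FnAt ∞ H w ∧ sec K k Q ρ x w = H w * S.P y w := by
  have h (i : ι) : ∃ H, ∀ᶠ w in 𝓝 y, FnAt ∞ H w ∧
      trm K (k i) (Q i) (ρ i) x w = H w * S.P y w := by
    by_cases h : y ∈ tsupport (ρ i)
    · have e := h2 i y h
      obtain ⟨H, hH⟩ := e.mul hV
      refine ⟨fun w => ρ i w * K.g x (k i) w * H w, ?_⟩
      filter_upwards [hH, (K.op x hx).mem_nhds hy, (K.op _ e.hW).mem_nhds e.mem] with w e1 e2 e3
      exact ⟨((FnAt.ofReal (h1 i w)).cmul (trm_g hx e2 e.hW e3)).cmul e1.1, by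
        rw [trm, e1.2, ← mul_assoc]⟩
    · exact ⟨fun _ => 0, (trm_zero h).mono fun w hw => ⟨contMDiffAt_const, by rw [hw, zero_mul]⟩⟩
  choose H hH using h
  refine ⟨fun w => ∑ i, H i w, (eventually_all.2 hH).mono fun w hw =>
    ⟨contMDiffAt_finsetSum fun i _ => (hw i).1, ?_⟩⟩
  rw [sec, Finset.sum_mul]
  exact Finset.sum_congr rfl fun i _ => (hw i).2

end

theorem Site.exists_car (S : Site D) : Nonempty (Car S) := by
  classical
  obtain ⟨K⟩ := Adj.exists_chern (chern_of_tame (c := c) O.isOpen_W O.tame)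
  obtain ⟨V, hV, hBV, hVS⟩ := normal_exists_closure_subset D.closed S.isOpen S.sub
  have hVS' : V ⊆ S.V := subset_closure.trans hVS
  have hA : IsClosed ((C.img ∪ D.B) \ V) := D.isClosed.sdiff hV
  have hA' (x) (hx : x ∈ (C.img ∪ D.B) \ V) : x ∈ C.img ∧ x ∉ D.B :=
    ⟨hx.1.resolve_right fun h => hx.2 (hBV h), fun h => hx.2 (hBV h)⟩
  choose! Q hQ using fun x hx => exists_pc K S hVS (hA' x hx).1 (hA' x hx).2
  obtain ⟨s, ρ, h1, h2, h3, h4⟩ := exists_bumps hA (fun k => interior {y | Pc K S V k (Q k) y})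
    (fun _ => isOpen_interior) fun x hx => mem_interior_iff_mem_nhds.2 (hQ x hx)
  replace h2 : ∀ i : s, ∀ y ∈ tsupport (ρ i), Pc K S V i (Q i) y :=
    fun i y hy => interior_subset (h2 i hy)
  let σ := sec K (fun i : s => (i : X)) (fun i => Q i) ρ
  let P (x : X) : X → ℂ := if x ∈ V then S.P x else if x ∈ C.img then σ x else fun _ => 1
  let G (x y : X) : Prop := x ∉ D.B ∧ y ∉ D.B ∧ Eqn C (P x) y ∧
    (x ∈ V → y ∈ V ∧ ∃ k, Rat (S.P x) (S.P y) y fun _ => k) ∧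
    (x ∉ V → y ∈ C.img → x ∈ C.img ∧ y ∈ K.U x)
  have hG (x) (hx : x ∉ D.B) : ∀ᶠ y in 𝓝 x, G x y := by
    have hB : ∀ᶠ y in 𝓝 x, y ∉ D.B := D.closed.isOpen_compl.mem_nhds hx
    by_cases h : x ∈ V
    · filter_upwards [hB, hV.mem_nhds h, S.cst x (hVS' h) hx] with y e1 e2 e3
      obtain ⟨κ, f1, f2⟩ := e3
      have := (rat_const f1 f2).symm
      refine ⟨hx, e1, ?_, fun _ => ⟨e2, _, this⟩, fun h' => (h' h).elim⟩
      simp only [P, if_pos h]
      exact this.eqn (S.eqn y (hVS' e2) e1)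
    by_cases hi : x ∈ C.img
    · have hW := D.not_W hx
      have hU : ∀ᶠ y in 𝓝 x, y ∈ K.U x := (K.op x hW).mem_nhds (K.mem x hW)
      have hp : ∀ᶠ y in 𝓝 x, 0 < ∑ i, ρ i y :=
        (continuous_finsetSum _ fun i _ => (h1 i).continuous).continuousAt.eventually
          (lt_mem_nhds (one_pos.trans_eq (h4 x ⟨Or.inl hi, h⟩).symm))
      have hs : ∀ᶠ y in 𝓝 x, FnAt ∞ (σ x) y := hU.mono fun y hy => sec_fn h1 h2 hW hy
      have he : Eqn C (σ x) x := by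
        obtain ⟨t, ht, rfl⟩ := D.exists_par hi hx
        refine D.eqn_of_pos ht hs ?_ (sec_pos h1 h2 h3 hW hU.self_of_nhds hi hx hp.self_of_nhds)
        filter_upwards [D.Z.finite_toSet.isClosed.isOpen_compl.mem_nhds ht] with t' ht'
        exact sec_van h2 (Or.inl ⟨t', fun e => ht' (D.hF e), rfl⟩)
      filter_upwards [hB, hU, hp, hs.eventually_nhds, he.zero.eventually_nhds] with y e1 e2 e3 e4 e5
      refine ⟨hx, e1, ?_, fun h' => (h h').elim, fun _ _ => ⟨hi, e2⟩⟩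
      simp only [P, if_neg h, if_pos hi]
      exact ⟨e4, e5, fun hy => sec_pos h1 h2 h3 hW e2 hy e1 e3⟩
    · have hn : ∀ᶠ y in 𝓝 x, y ∉ C.img := Filter.mem_of_superset
        (D.isClosed.isOpen_compl.mem_nhds fun e => e.elim hi hx) fun y hy e => hy (Or.inl e)
      filter_upwards [hB, hn.eventually_nhds] with y e1 e2
      refine ⟨hx, e1, ?_, fun h' => (h h').elim, fun _ hy => (e2.self_of_nhds hy).elim⟩
      simp only [P, if_neg h, if_neg hi]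
      exact ⟨.of_forall fun _ => contMDiffAt_const, e2.mono fun w hw => by simp [hw],
        fun hy => (e2.self_of_nhds hy).elim⟩
  have hR (x y) (h : G x y) (hy : y ∈ C.img) : ∃ g, Rat (P x) (P y) y g := by
    obtain ⟨e1, e2, e3, e4, e5⟩ := h
    by_cases h : x ∈ V
    · simp only [P, if_pos h, if_pos (e4 h).1]
      exact (e4 h).2.elim fun _ hk => ⟨_, hk⟩
    obtain ⟨hi, hU⟩ := e5 h hy
    simp only [P, if_neg h, if_pos hi, if_pos hy] at e3 ⊢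
    split_ifs with hv
    · obtain ⟨H, hH⟩ := sec_mul h1 h2 (D.not_W e1) hU hv
      exact ⟨H, e3.rat_of_mul (S.eqn y (hVS' hv) e2) hy hH⟩
    · exact ⟨_, sec_rat h2 (D.not_W e1) hU (D.not_W e2) (K.mem y (D.not_W e2))⟩
  have hI {x y} (h : y ∈ interior {y | G x y}) : G x y :=
    interior_subset (s := {y | G x y}) h
  refine ⟨{ U := fun x => interior {y | G x y}, P := P, isOpen := fun _ => isOpen_interior
            mem := fun x hx => mem_interior_iff_mem_nhds.2 (hG x hx)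
            sub := fun x y hy => (hI hy).2.1
            eqn := fun x y hy => (hI hy).2.2.1
            rat := fun x x' y hy => ?_
            V := V, isOpenV := hV, subV := hBV, VV := hVS'
            near := fun x hx => ⟨if_pos hx, fun y hy hy' => ?_⟩ }⟩
  · by_cases hi : y ∈ C.img
    · obtain ⟨g, hg⟩ := hR x y (hI hy.1) hi
      obtain ⟨g', hg'⟩ := hR x' y (hI hy.2) hi
      exact ⟨_, hg.trans hg'.symm⟩
    · exact ⟨_, rat_of_ne (hI hy.1).2.2.1.sm (hI hy.2).2.2.1.sm ((hI hy.1).2.2.1.ne hi)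
        ((hI hy.2).2.2.1.ne hi)⟩
  · simp only [P, if_pos hx, if_pos hy']
    exact ((hI hy).2.2.2.1 hx).2

theorem Site.exists_cur {D : Bad C} (S : Site D) : Nonempty (Cur S) :=
  S.exists_car.elim fun K => K.exists_cur D.isClosed

end Pool.Agent.Lib.MP_1c0d65_gt.PW
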