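import Pool.Agent.Lib.MP_1c0d65_gt.E.GlueA
import Pool.Agent.Lib.MP_1c0d65_gt.PW.PlotH
import Pool.Agent.Lib.MP_1c0d65_gt.PW.PairA
import Pool.Agent.Lib.MP_1c0d65_gt.Emb.Retr

/-! The positively oriented chart with coordinates s and P along the good part of a curve. -/

set_option autoImplicit false
set_option linter.unusedSectionVars false

open scoped Manifold ContDiff Topology ComplexConjugate
open Set Filter

noncomputable section

namespace Pool.Agent.Lib.MP_1c0d65_gt.PW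

/-- The linear algebra of the chart. -/
theorem glc_lin {α : Bil E ℝ} {J : E →L[ℝ] E} (alt : ∀ v, α v v = 0) (JJ : ∀ v, J (J v) = -v)
    (tame : ∀ v ≠ 0, 0 < α v (J v)) {T : ℂ →L[ℝ] E} (hT : T .I = J (T 1)) {G : E →L[ℝ] E}
    (hG : ∀ ξ, G (T ξ) = (ξ, 0)) {v : E} (hv : 0 < (conj (G v).2 * (G (J v)).2).im) :
    ∃ D : E ≃L[ℝ] E, G = D ∧ 0 < wedge (α.bilinearComp (D.symm : E →L[ℝ] E) (D.symm : E →L[ℝ] E))
      (α.bilinearComp (D.symm : E →L[ℝ] E) (D.symm : E →L[ℝ] E)) := by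
  let A : E →L[ℝ] E := T.coprod (Complex.reCLM.smulRight v + Complex.imCLM.smulRight (J v))
  have hA : ∀ w : E, A w = T w.1 + (w.2.re • v + w.2.im • J v) := fun w => rfl
  have hd : (G.comp A).det = (conj (G v).2 * (G (J v)).2).im := by
    rw [det_E]
    simp [hA, hG, crd, Matrix.det_succ_row_zero, Fin.sum_univ_succ, Fin.succAbove]
  have hd' : G.det * A.det = (conj (G v).2 * (G (J v)).2).im :=
    (LinearMap.det_comp (G : E →ₗ[ℝ] E) (A : E →ₗ[ℝ] E)).symm.trans hd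
  have h1 : G.det ≠ 0 := left_ne_zero_of_mul (hd' ▸ hv.ne')
  have h2 : A.det ≠ 0 := right_ne_zero_of_mul (hd' ▸ hv.ne')
  have hT' : ∀ ξ, T ξ = ξ.re • T 1 + ξ.im • J (T 1) := fun ξ => by
    rw [← hT, ← map_smul, ← map_smul, ← map_add]
    congr 1
    simp
  have h3 : ∀ w, A (Complex.I • w) = J (A w) := fun w => by
    rw [hA, hA, hT' w.1, hT' (Complex.I • w).1]
    simp only [map_add, map_smul, JJ, Prod.smul_fst, Prod.smul_snd, smul_eq_mul, Complex.mul_re,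
      Complex.mul_im, Complex.I_re, Complex.I_im]
    module
  have h4 := wedge_pos (α := α.bilinearComp A A) (fun w => alt _) fun w hw => by
    rw [ContinuousLinearMap.bilinearComp_apply, h3]
    exact tame _ fun h0 => hw ((A.toContinuousLinearEquivOfDetNeZero h2).map_eq_zero_iff.1 h0)
  refine ⟨G.toContinuousLinearEquivOfDetNeZero h1, rfl, ?_⟩
  set D := G.toContinuousLinearEquivOfDetNeZero h1
  have h5 : α.bilinearComp A A = (α.bilinearComp (D.symm : E →L[ℝ] E) (D.symm : E →L[ℝ] E)).bilinearComp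
      (G.comp A) (G.comp A) := by
    refine ContinuousLinearMap.ext fun a => ContinuousLinearMap.ext fun b => ?_
    exact congrArg₂ (fun x y => α x y) (D.symm_apply_apply _).symm (D.symm_apply_apply _).symm
  have h6 : ∀ w, α.bilinearComp (D.symm : E →L[ℝ] E) (D.symm : E →L[ℝ] E) w w = 0 :=
    fun w => alt _
  rw [h5, wedge_comp h6 h6, hd] at h4
  exact (mul_pos_iff_of_pos_left hv).1 h4

variable {X : Type} [TopologicalSpace X] [ChartedSpace E X] [IsManifold 𝓘(ℝ, E) ∞ X]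
  [T2Space X] [CompactSpace X] [MeasurableSpace X] [BorelSpace X] {c : Ctx X} {O : Orb c}
  {C : OC O}

/-- A function with invertible differential is a chart. -/
theorem glc_chart {G : X → E} {x : X} (hG : ∀ᶠ y in 𝓝 x, FnAt ∞ G y) (D : E ≃L[ℝ] E)
    (hD : dfn G x = D) : ∃ f : E → X, f (G x) = x ∧ dif f (G x) = D.symm ∧
      ∀ᶠ y in 𝓝 (G x), SmAt ∞ f y ∧ G (f y) = y := by
  have ht : chartAt E x x ∈ dom x univ := mem_dom (mem_chart_source E x) (mem_univ _)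
  have hc : Tendsto (par x) (𝓝 (chartAt E x x)) (𝓝 x) := by
    simpa only [ContinuousAt, par_self] using (par_smAt ht).continuousAt
  have h1 : ∀ᶠ y in 𝓝 (chartAt E x x), ContDiffAt ℝ ∞ (G ∘ par x) y := by
    filter_upwards [hc.eventually hG, (isOpen_dom x isOpen_univ).mem_nhds ht] with y a b
    exact a.comp_plot (par_smAt b)
  have h0 : FnAt ∞ G (par x (chartAt E x x)) := by rw [par_self]; exact hG.self_of_nhds
  have h2 : HasFDerivAt (G ∘ par x) (D : E →L[ℝ] E) (chartAt E x x) := by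
    refine (h1.self_of_nhds.differentiableAt (by simp)).hasFDerivAt.congr_fderiv ?_
    rw [fderiv_fn_comp (h0.mdifferentiableAt (by simp)) ((par_smAt ht).dfAt (by simp)), par_self,
      dif_par_self, hD]
    rfl
  obtain ⟨Θ, hΘ, hs, hsm⟩ := Emb.exists_smooth_inv h1 D h2
  have e0 : Θ (chartAt E x x) = G x := by rw [hΘ, Function.comp_apply, par_self]
  have e1 : Θ.symm (G x) = chartAt E x x := by rw [← e0, Θ.left_inv hs]
  have h3 : ∀ᶠ y in 𝓝 (G x), SmAt ∞ (par x ∘ Θ.symm) y ∧ G ((par x ∘ Θ.symm) y) = y := by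
    rw [← hΘ] at hsm
    rw [← e0]
    filter_upwards [hsm, Θ.eventually_right_inverse (Θ.map_source hs),
      (Θ.tendsto_symm hs).eventually ((isOpen_dom x isOpen_univ).mem_nhds ht)] with y a b d
    exact ⟨(par_smAt d).comp a, by rwa [hΘ] at b⟩
  have e2 : (par x ∘ Θ.symm) (G x) = x := by rw [Function.comp_apply, e1, par_self]
  refine ⟨par x ∘ Θ.symm, e2, ?_, h3⟩
  have h4 := fderiv_fn_comp (g := G) (f := par x ∘ Θ.symm) (y := G x)
    (by rw [e2]; exact hG.self_of_nhds.mdifferentiableAt (by simp))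
    (h3.self_of_nhds.1.dfAt (by simp))
  have h5 : G ∘ par x ∘ Θ.symm =ᶠ[𝓝 (G x)] id := h3.mono fun y h => h.2
  rw [e2, hD, h5.fderiv_eq, fderiv_id] at h4
  exact ContinuousLinearMap.ext fun v => D.eq_symm_apply.2 (DFunLike.congr_fun h4 v).symm

/-- the chart with coordinates s and P along the good part -/
theorem Eqn.exists_chart (D : Bad C) {s₀ : ℂ} (hs : s₀ ∉ D.Z) {P : X → ℂ}
    (hP : Eqn C P (C.u s₀)) {U : Set X} (hU : U ∈ 𝓝 (C.u s₀)) :
    ∃ e : OpenPartialHomeomorph X E, IsChart e ∧ C.u s₀ ∈ e.source ∧ e.source ⊆ U ∧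
      (∀ x ∈ e.source, (e x).2 = P x ∧ (P x = 0 ↔ x ∈ C.img)) ∧
      (∀ s, (s, 0) ∈ e.target ↔ s ∉ D.Z ∧ C.u s ∈ e.source) ∧
      (∀ s, (s, 0) ∈ e.target → e.symm (s, 0) = C.u s) ∧
      ∀ y ∈ e.target, 0 < wedge (pull2 e.symm c.om y) (pull2 e.symm c.om y) := by
  obtain ⟨R, hR, hRu⟩ := D.exists_retr hs
  have hZ : (D.Z : Set ℂ)ᶜ ∈ 𝓝 s₀ := D.Z.finite_toSet.isClosed.isOpen_compl.mem_nhds hs
  have hF : ∀ s ∉ D.Z, s ∉ C.F := fun s h h' => h (D.hF h')
  have him : ∀ s ∉ D.Z, C.u s ∈ C.img := fun s h => Or.inl ⟨s, hF s h, rfl⟩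
  have hu : SmAt ∞ C.u s₀ :=
    C.hu.1.contMDiffAt (C.F.finite_toSet.isClosed.isOpen_compl.mem_nhds (hF _ hs))
  have hW := O.tame.1 _ (C.mu (hF _ hs))
  let G : X → E := fun x => (R x, P x)
  have hG : ∀ᶠ y in 𝓝 (C.u s₀), FnAt ∞ G y := (hR.and hP.sm).mono fun y h => h.1.prodMk_space h.2
  have dG := hG.self_of_nhds.mdifferentiableAt (by simp)
  have h1 : G ∘ C.u =ᶠ[𝓝 s₀] ContinuousLinearMap.inl ℝ ℂ ℂ := by
    filter_upwards [hRu, hZ, hu.continuousAt.eventually hP.zero] with s a b d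
    exact Prod.ext a (d.2 (him s b))
  have h2 := fderiv_fn_comp dG (hu.dfAt (by simp))
  rw [h1.fderiv_eq, ContinuousLinearMap.fderiv] at h2
  have h3 : ∀ v, (dfn G (C.u s₀) v).2 = dfn P (C.u s₀) v := fun v => by
    have := dfn_comp (h := Prod.snd) (g := G) differentiableAt_snd dG
    rw [fderiv_snd] at this
    exact (DFunLike.congr_fun this v).symm
  obtain ⟨v, hv⟩ := hP.pos (him _ hs)
  obtain ⟨L, hL, hw⟩ := glc_lin (c.hom.1.1 _ (mem_univ (C.u s₀))) (fun v => (hW v).1)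
    (fun v => (hW v).2) (C.hu.2 _ (hF _ hs)) (G := dfn G (C.u s₀))
    (fun ξ => (DFunLike.congr_fun h2 ξ).symm) (v := v) (by rwa [h3, h3])
  obtain ⟨f, f0, f1, f2⟩ := glc_chart hG L hL
  have fc : Tendsto f (𝓝 (G (C.u s₀))) (𝓝 (C.u s₀)) := by
    simpa only [ContinuousAt, f0] using f2.self_of_nhds.1.continuousAt
  have hp : ∀ᶠ y in 𝓝 (G (C.u s₀)), 0 < wedge (pull2 f c.om y) (pull2 f c.om y) := by
    have h := (c.hom.1.smooth isOpen_univ f2.self_of_nhds.1 (mem_univ _)).continuousAt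
    have h' : ContinuousAt (fun y => wedge (pull2 f c.om y) (pull2 f c.om y)) (G (C.u s₀)) := by
      unfold wedge; fun_prop
    exact h'.eventually_const_lt (by simp only [pull2]; rwa [f0, f1])
  obtain ⟨e, he, e1, e2, e3⟩ := exists_chart_of_plot (f := f)
    (f2.and (hp.and (fc.eventually (hP.zero.and ((D.emb hs (inter_mem hRu hZ)).and hU)))))
    (fun z hz => hz.1.1) ⟨L.symm, f1.symm⟩
  have key : ∀ x ∈ e.source, e x = G x ∧ (P x = 0 ↔ x ∈ C.img) ∧
      (x ∈ C.img → ∃ s ∉ D.Z, R (C.u s) = s ∧ C.u s = x) ∧ x ∈ U := fun x hx => by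
    obtain ⟨⟨-, a⟩, -, b, d, g⟩ := e2 (e.map_source hx)
    rw [← e3, e.left_inv hx] at a b d g
    exact ⟨a.symm, b, fun h => let ⟨s, k, l⟩ := d h; ⟨s, k.2, k.1, l⟩, g⟩
  have key2 : ∀ s, (s, 0) ∈ e.target → s ∉ D.Z ∧ C.u s = e.symm (s, 0) := fun s h => by
    obtain ⟨a, b, d, -⟩ := key _ (e.map_target h)
    rw [e.right_inv h] at a
    obtain ⟨s', k1, k2, k3⟩ := d (b.1 (congrArg Prod.snd a).symm)
    obtain rfl : s = s' := (congrArg Prod.fst a).trans (k3 ▸ k2)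
    exact ⟨k1, k3⟩
  refine ⟨e, he, by simpa only [e3, f0] using e.map_target e1, fun x hx => (key x hx).2.2.2,
    fun x hx => ⟨congrArg Prod.snd (key x hx).1, (key x hx).2.1⟩,
    fun s => ⟨fun h => ⟨(key2 s h).1, (key2 s h).2 ▸ e.map_target h⟩, fun h => ?_⟩,
    fun s h => (key2 s h).2.symm, fun y hy => e3 ▸ (e2 hy).2.1⟩
  obtain ⟨a, b, d, -⟩ := key _ h.2
  obtain ⟨s', k1, k2, k3⟩ := d (him s h.1)
  obtain rfl : s' = s := D.inj k1 h.1 k3
  have := e.map_source h.2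
  rwa [a, show G (C.u s') = (s', 0) from Prod.ext k2 (b.2 (him _ k1))] at this

end Pool.Agent.Lib.MP_1c0d65_gt.PW
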