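import Pool.Agent.Lib.MP_1c0d65_gt.PW.StE
import Pool.Agent.Lib.MP_1c0d65_gt.A.CP

/-! The local formula of Poincare and Lelong for the axis `y.2 = 0` of `E`. -/

set_option autoImplicit false

open scoped ContDiff Topology
open Set MeasureTheory Filter Metric

noncomputable section

namespace Pool.Agent.Lib.MP_1c0d65_gt.PW.PL

open St

/-- The kernel `1 / y.2` is integrable against bounded functions with compact support. -/
theorem ker_int {F : Type} [NormedAddCommGroup F] [NormedSpace ℂ F] {g : E → F}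
    (hg : Continuous g) (hc : HasCompactSupport g) : Integrable fun y : E => (y.2)⁻¹ • g y := by
  obtain ⟨R, hR⟩ := hc.isCompact.isBounded.subset_ball 0
  obtain ⟨M, hM⟩ := hc.exists_bound_of_continuous hg
  have h1 : Integrable (fun y : E => (ball (0 : ℂ) R).indicator (fun _ => M) y.1 *
      (ball (0 : ℂ) R).indicator (fun t => ‖t‖ ^ (-(1 : ℝ))) y.2) := by
    refine Integrable.mul_prod ?_ ?_
    · exact (integrable_indicator_iff measurableSet_ball).2
        (integrableOn_const measure_ball_lt_top.ne)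
    · exact (integrable_indicator_iff measurableSet_ball).2 (A.intOn_ball (by norm_num) R)
  refine h1.mono' ((measurable_snd.inv.aestronglyMeasurable).smul hg.aestronglyMeasurable)
    (ae_of_all _ fun y => ?_)
  by_cases hy : y ∈ ball (0 : E) R
  · have h2 : y.1 ∈ ball (0 : ℂ) R := mem_ball_zero_iff.2
      ((norm_fst_le y).trans_lt (mem_ball_zero_iff.1 hy))
    have h3 : y.2 ∈ ball (0 : ℂ) R := mem_ball_zero_iff.2
      ((norm_snd_le y).trans_lt (mem_ball_zero_iff.1 hy))
    rw [indicator_of_mem h2, indicator_of_mem h3, norm_smul, norm_inv, Real.rpow_neg_one, mul_comm]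
    exact mul_le_mul_of_nonneg_right (hM y) (by positivity)
  · rw [image_eq_zero_of_notMem_tsupport fun h => hy (hR h), smul_zero, norm_zero]
    exact mul_nonneg (indicator_nonneg (fun _ _ => (norm_nonneg _).trans (hM 0)) _)
      (indicator_nonneg (fun _ _ => by positivity) _)

variable {G : E → ℝ}

/-- The kernel against a derivative. -/
def K (G : E → ℝ) (u y : E) : ℂ := (y.2)⁻¹ • ((fderiv ℝ G y u : ℝ) : ℂ)

theorem K_int (hG : ContDiff ℝ 1 G) (hc : HasCompactSupport G) (u : E) : Integrable (K G u) :=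
  ker_int (Complex.continuous_ofReal.comp
    ((hG.continuous_fderiv one_ne_zero).clm_apply continuous_const))
    ((hc.fderiv_apply ℝ u).comp_left (g := fun r : ℝ => (r : ℂ)) (by simp))

theorem supp_fst (hc : HasCompactSupport G) (w : ℂ) : HasCompactSupport fun x : ℂ => G (x, w) :=
  HasCompactSupport.intro (hc.isCompact.image continuous_fst) fun _ hx =>
    image_eq_zero_of_notMem_tsupport fun h => hx ⟨_, h, rfl⟩

theorem supp_snd (hc : HasCompactSupport G) (x : ℂ) : HasCompactSupport fun w : ℂ => G (x, w) :=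
  HasCompactSupport.intro (hc.isCompact.image continuous_snd) fun _ hw =>
    image_eq_zero_of_notMem_tsupport fun h => hw ⟨_, h, rfl⟩

theorem K_fst (hG : ContDiff ℝ 1 G) (hc : HasCompactSupport G) (a : ℂ) :
    ∫ y, K G (a, 0) y = 0 := by
  rw [Measure.volume_eq_prod, integral_prod_symm _ (K_int hG hc _)]
  refine integral_eq_zero_of_ae (ae_of_all _ fun w => ?_)
  have h1 : ContDiff ℝ 1 fun x : ℂ => G (x, w) := hG.comp (contDiff_id.prodMk contDiff_const)
  have h2 (x : ℂ) : fderiv ℝ (fun x : ℂ => G (x, w)) x a = fderiv ℝ G (x, w) (a, 0) := by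
    have := ((hG.differentiable one_ne_zero (x, w)).hasFDerivAt.comp x
      (hasFDerivAt_prodMk_left (𝕜 := ℝ) x w)).fderiv
    exact congrArg (fun L => L a) this
  have hi : Integrable fun x => fderiv ℝ (fun x : ℂ => G (x, w)) x a :=
    ((h1.continuous_fderiv one_ne_zero).clm_apply
      continuous_const).integrable_of_hasCompactSupport ((supp_fst hc w).fderiv_apply ℝ a)
  have h3 := integral_mul_fderiv_eq_neg_fderiv_mul_of_integrable (μ := volume)
    (f := fun _ : ℂ => (1 : ℝ)) (g := fun x : ℂ => G (x, w)) (v := a) (by simp) (by simpa using hi)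
    (by simpa using h1.continuous.integrable_of_hasCompactSupport (supp_fst hc w))
    (fun _ _ => differentiableAt_const _) fun y _ => h1.differentiable one_ne_zero y
  simp only [K, integral_smul, integral_complex_ofReal, ← h2]
  simp at h3
  simp [h3]

theorem K_snd (hG : ContDiff ℝ 1 G) (hc : HasCompactSupport G) :
    ∫ y, (K G (0, 1) y + Complex.I * K G (0, .I) y) = ((-(2 * Real.pi) * ∫ x, G (x, 0) : ℝ) : ℂ) := by
  have hi : Integrable fun y => K G (0, 1) y + Complex.I * K G (0, .I) y :=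
    (K_int hG hc _).add ((K_int hG hc _).const_mul _)
  rw [Measure.volume_eq_prod, integral_prod _ hi, ← integral_const_mul, ← integral_complex_ofReal]
  refine integral_congr_ae (ae_of_all _ fun x => ?_)
  have h1 : ContDiff ℝ 1 fun w : ℂ => (G (x, w) : ℂ) :=
    Complex.ofRealCLM.contDiff.comp (hG.comp (contDiff_const.prodMk contDiff_id))
  have h2 (w a : ℂ) : fderiv ℝ (fun w : ℂ => (G (x, w) : ℂ)) w a = fderiv ℝ G (x, w) (0, a) := by
    have := (Complex.ofRealCLM.hasFDerivAt.comp w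
      ((hG.differentiable one_ne_zero (x, w)).hasFDerivAt.comp w
      (hasFDerivAt_prodMk_right (𝕜 := ℝ) x w))).fderiv
    exact congrArg (fun L => L a) this
  have h3 := A.cp h1 ((supp_snd hc x).comp_left (g := fun r : ℝ => (r : ℂ)) (by simp)) 0
  have hp : (Real.pi : ℂ) ≠ 0 := by exact_mod_cast Real.pi_ne_zero
  have h4 : (fun s : ℂ => (0 - s)⁻¹ • A.db (fderiv ℝ (fun w : ℂ => (G (x, w) : ℂ)) s)) =
      fun s => (-2⁻¹ : ℂ) * (K G (0, 1) (x, s) + Complex.I * K G (0, .I) (x, s)) := by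
    funext s
    simp only [A.db, h2, K, smul_eq_mul, zero_sub, inv_neg]
    ring
  rw [A.T, h4, integral_const_mul, smul_eq_mul] at h3
  push_cast
  rw [← h3]
  field_simp

/-- Extension by zero. -/
theorem ext_zero {T C : Set E} (hT : IsOpen T) (hK : IsCompact C) (hKT : C ⊆ T) {g : E → ℝ}
    (hg : ContDiffOn ℝ 1 g T) (h0 : ∀ y ∈ T, y ∉ C → g y = 0) :
    ContDiff ℝ 1 (T.indicator g) ∧ HasCompactSupport (T.indicator g) ∧
      (∀ y ∈ T, fderiv ℝ (T.indicator g) y = fderiv ℝ g y) ∧
      ∀ y ∉ T, fderiv ℝ (T.indicator g) y = 0 := by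
  have e1 : ∀ y ∈ T, T.indicator g =ᶠ[𝓝 y] g := fun y hy => by
    filter_upwards [hT.mem_nhds hy] with z hz using indicator_of_mem hz g
  have e2 : ∀ y, y ∉ C → T.indicator g y = 0 := fun y hy => by
    by_cases h : y ∈ T
    · rw [(e1 y h).eq_of_nhds, h0 y h hy]
    · exact indicator_of_notMem h g
  have e3 : ∀ y, y ∉ C → T.indicator g =ᶠ[𝓝 y] fun _ => 0 := fun y hy => by
    filter_upwards [hK.isClosed.isOpen_compl.mem_nhds hy] with z hz using e2 z hz
  refine ⟨contDiff_iff_contDiffAt.2 fun y => ?_, HasCompactSupport.intro hK e2,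
    fun y hy => (e1 y hy).fderiv_eq, fun y hy => ?_⟩
  · by_cases h : y ∈ T
    · exact (hg.contDiffAt (hT.mem_nhds h)).congr_of_eventuallyEq (e1 y h)
    · exact contDiffAt_const.congr_of_eventuallyEq (e3 y fun k => h (hKT k))
  · rw [(e3 y fun k => hy (hKT k)).fderiv_eq]; simp

theorem ae_snd : ∀ᵐ y : E, y.2 ≠ 0 := by
  have : (volume : Measure E) (univ ×ˢ ({0} : Set ℂ)) = 0 := by
    rw [Measure.volume_eq_prod, Measure.prod_prod]; simp
  refine measure_mono_null (fun y hy => ?_) this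
  exact ⟨trivial, not_not.1 hy⟩

/-- The local formula: `γ = d θ ∧ d arg y.2` off the axis, `β` closed. -/
theorem pl_loc {T C : Set E} (hT : IsOpen T) (hK : IsCompact C) (hKT : C ⊆ T) {θ : E → ℝ}
    {β γ : E → Bil E ℝ} (hθ : ContDiffOn ℝ 1 θ T) (hβ : ContDiffOn ℝ 1 β T)
    (h0 : ∀ y ∈ T, y ∉ C → θ y = 0) (ha : ∀ y ∈ T, ∀ v, β y v v = 0)
    (hc : ∀ y ∈ T, ∀ u v w, fderiv ℝ β y u v w + fderiv ℝ β y v w u + fderiv ℝ β y w u v = 0)
    (hγ : ∀ y ∈ T, y.2 ≠ 0 → ∀ v w, γ y v w =
      fderiv ℝ θ y v * (w.2 / y.2).im - fderiv ℝ θ y w * (v.2 / y.2).im) :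
    IntegrableOn (fun y => wedge (γ y) (β y)) T ∧ ∫ y in T, wedge (γ y) (β y) =
      -(2 * Real.pi) * ∫ x in {x : ℂ | (x, 0) ∈ T}, θ (x, 0) * β (x, 0) (1, 0) (.I, 0) := by
  let g (w z : E) (y : E) : ℝ := θ y * β y w z
  have hg (w z : E) := ext_zero hT hK hKT (g := g w z)
    (hθ.mul ((hβ.clm_apply contDiffOn_const).clm_apply contDiffOn_const))
    (fun y hy hk => by simp [g, h0 y hy hk])
  have hd (w z u : E) (y) (hy : y ∈ T) : fderiv ℝ (g w z) y u =
      fderiv ℝ θ y u * β y w z + θ y * fderiv ℝ β y u w z := by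
    have h1 := ((hθ.contDiffAt (hT.mem_nhds hy)).differentiableAt one_ne_zero).hasFDerivAt
    have h2 := ((hβ.contDiffAt (hT.mem_nhds hy)).differentiableAt one_ne_zero).hasFDerivAt
    have h3 : HasFDerivAt (g w z) _ y := h1.mul
      ((h2.clm_apply (hasFDerivAt_const w y)).clm_apply (hasFDerivAt_const z y))
    rw [h3.fderiv]
    simp
    ring
  let k (w z u : E) : E → ℂ := K (T.indicator (g w z)) u
  have hk (w z u : E) : Integrable (k w z u) := K_int (hg w z).1 (hg w z).2.1 u
  let s (y : E) : ℂ := (k (bs 1) (bs 2) (1, 0) y - k (bs 0) (bs 2) (.I, 0) y) +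
    Complex.I * (k (bs 1) (bs 3) (1, 0) y - k (bs 0) (bs 3) (.I, 0) y) +
    (k (bs 0) (bs 1) (0, 1) y + Complex.I * k (bs 0) (bs 1) (0, .I) y)
  have i1 := (hk (bs 1) (bs 2) (1, 0)).sub (hk (bs 0) (bs 2) (.I, 0))
  have i2 := (hk (bs 1) (bs 3) (1, 0)).sub (hk (bs 0) (bs 3) (.I, 0))
  have i3 := (hk (bs 0) (bs 1) (0, 1)).add ((hk (bs 0) (bs 1) (0, .I)).const_mul Complex.I)
  have hs : Integrable s := (i1.add (i2.const_mul _)).add i3
  have hv : ∫ y, s y = ((-(2 * Real.pi) * ∫ x, T.indicator (g (bs 0) (bs 1)) (x, 0) : ℝ) : ℂ) := by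
    rw [← K_snd (hg _ _).1 (hg _ _).2.1]
    refine (integral_add (i1.add (i2.const_mul _)) i3).trans ?_
    rw [Pi.add_def, integral_add i1 (i2.const_mul _), integral_const_mul]
    simp only [Pi.sub_def]
    rw [integral_sub (hk ..) (hk ..), integral_sub (hk ..) (hk ..)]
    simp only [k, K_fst (hg _ _).1 (hg _ _).2.1]
    simp
  have e : ∀ᵐ y ∂(volume.restrict T), (s y).re = wedge (γ y) (β y) := by
    filter_upwards [ae_restrict_of_ae ae_snd, ae_restrict_mem hT.measurableSet] with y h2 hy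
    have c1 := hc y hy (bs 0) (bs 1) (bs 2)
    have c2 := hc y hy (bs 0) (bs 1) (bs 3)
    have a1 : ∀ u v w, fderiv ℝ β y u v w = -fderiv ℝ β y u w v := fun u v w => by
      have h2 := ((hβ.contDiffAt (hT.mem_nhds hy)).differentiableAt one_ne_zero).hasFDerivAt
      have h3 := ((h2.clm_apply (hasFDerivAt_const v y)).clm_apply (hasFDerivAt_const w y)).add
        ((h2.clm_apply (hasFDerivAt_const w y)).clm_apply (hasFDerivAt_const v y))
      have h4 : (fun y => β y v w + β y w v) =ᶠ[𝓝 y] fun _ => 0 := by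
        filter_upwards [hT.mem_nhds hy] with z hz
        rw [anti (ha z hz) v w]; ring
      have h5 := congrArg (fun L => L u) (h3.fderiv.symm.trans (h4.fderiv_eq.trans (by simp)) :
        _ = (0 : E →L[ℝ] ℝ))
      simp at h5
      linarith
    rw [a1 (bs 1) (bs 2)] at c1
    rw [a1 (bs 1) (bs 3)] at c2
    simp only [s, k, K, (hg _ _).2.2.1 y hy, hd _ _ _ y hy, wedge_eq, hγ y hy h2, div_eq_mul_inv]
    simp only [bs, Matrix.cons_val] at c1 c2 ⊢
    generalize y.2⁻¹ = q
    simp
    linear_combination (θ y * q.re) * c1 - (θ y * q.im) * c2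
  refine ⟨(hs.re.integrableOn).congr e, ?_⟩
  rw [← integral_congr_ae e, setIntegral_eq_integral_of_forall_compl_eq_zero fun y hy => by
    simp [s, k, K, (hg _ _).2.2.2 y hy]]
  have := integral_re hs
  simp only [RCLike.re_to_complex] at this
  have hm : MeasurableSet {x : ℂ | (x, (0 : ℂ)) ∈ T} :=
    (hT.preimage (continuous_id.prodMk continuous_const)).measurableSet
  rw [this, hv, Complex.ofReal_re, ← integral_indicator hm]
  rfl

end Pool.Agent.Lib.MP_1c0d65_gt.PW.PL
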