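import Pool.Agent.Lib.MP_1c0d65_gt.E.GlueA
import Pool.Agent.Lib.MP_1c0d65_gt.E.GlueC
import Pool.Agent.Lib.MP_1c0d65_gt.E.DA
import Pool.Agent.Lib.MP_1c0d65_gt.E.PLoc
import Pool.Agent.Lib.MP_1c0d65_gt.PW.StD
import Pool.Agent.Lib.MP_1c0d65_gt.PW.Pair
import Pool.Agent.Lib.MP_1c0d65_gt.PW.OCi

/-! The formula of Poincare and Lelong from local equations. -/

set_option autoImplicit false

open scoped Manifold ContDiff Topology
open Set MeasureTheory Filter Metric

noncomputable section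

namespace Pool.Agent.Lib.MP_1c0d65_gt.PW

variable {X : Type} [TopologicalSpace X] [ChartedSpace E X] [IsManifold 𝓘(ℝ, E) ∞ X]
  [T2Space X] [CompactSpace X] [MeasurableSpace X] [BorelSpace X] {c : Ctx X} {O : Orb c}
  {C : OC O} {η α β : X → Bil E ℝ} {ψ a : X → E →L[ℝ] ℝ} {θ θ' : X → ℝ} {U : Set X}
  {e : OpenPartialHomeomorph X E}

/-- The formula for the cut-off `θ`. -/
structure PLf (C : OC O) (η : X → Bil E ℝ) (ψ : X → E →L[ℝ] ℝ) (α : X → Bil E ℝ) (θ : X → ℝ) :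
    Prop where
  sm : ContMDiff 𝓘(ℝ, E) 𝓘(ℝ, ℝ) ∞ θ
  sup : tsupport θ ⊆ O.W
  int : Integrable (fun x => wedge (w11 (dfn θ x) (ψ x)) (α x) / wedge (c.om x) (c.om x)) c.μ
  eq : 2 * Real.pi * c.Q (fun x => θ x • η x) α =
    c.Q (fun x => w11 (dfn θ x) (ψ x)) α + 2 * Real.pi * per C.u fun x => θ x • α x

theorem plb_w0 (b : E →L[ℝ] ℝ) : w11 (0 : E →L[ℝ] ℝ) b = 0 := bil_ext fun v w => by simp

theorem plb_s0 (b : Bil E ℝ) : (0 : ℝ) • b = 0 := bil_ext fun v w => by simp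

theorem PLf.zero : PLf C η ψ α fun _ => 0 := by
  have z : ∀ x, dfn (fun _ : X => (0 : ℝ)) x = 0 := fun x => mfderiv_const
  refine ⟨contMDiff_const, by simp [tsupport], by simp [z, plb_w0, wedge], ?_⟩
  simp [z, plb_w0, wedge, Ctx.Q, pair, per]

theorem PLf.add (hη : Form univ η) (hα : Form univ α) (h : PLf C η ψ α θ) (h' : PLf C η ψ α θ') :
    PLf C η ψ α fun x => θ x + θ' x := by
  have T : ∀ {θ}, PLf C η ψ α θ → O.Test fun x => θ x • α x := fun h =>
    ⟨_, (isClosed_tsupport _).isOpen_compl, subset_compl_comm.1 h.sup, fun x hx => by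
      simp only [image_eq_zero_of_notMem_tsupport hx, plb_s0]⟩
  have sp : ∀ β : X → Bil E ℝ, (fun x => (θ x + θ' x) • β x) =
      (fun x => θ x • β x) + fun x => θ' x • β x := fun β => funext fun x => bil_ext fun v w => by
    simp only [Pi.add_apply, add_apply, smul_apply, smul_eq_mul]
    ring
  have d : ∀ x, wedge (w11 (dfn (fun x => θ x + θ' x) x) (ψ x)) (α x) / wedge (c.om x) (c.om x) =
      wedge (w11 (dfn θ x) (ψ x)) (α x) / wedge (c.om x) (c.om x) +
        wedge (w11 (dfn θ' x) (ψ x)) (α x) / wedge (c.om x) (c.om x) := fun x => by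
    rw [show dfn (fun x => θ x + θ' x) x = dfn θ x + dfn θ' x from
      mfderiv_add (h.sm.mdifferentiableAt (by simp)) (h'.sm.mdifferentiableAt (by simp)),
      ← add_div, ← wedge_add_left]
    congr 2
    exact bil_ext fun v w => by simp only [w11_apply, add_apply, smul_eq_mul]; ring
  have F : ∀ {θ} {β : X → Bil E ℝ}, PLf C η ψ α θ → Form univ β → Form univ fun x => θ x • β x :=
    fun h hβ => hβ.fsmul isOpen_univ h.sm.contMDiffOn
  refine ⟨h.sm.add h'.sm, (tsupport_add _ _).trans (union_subset h.sup h'.sup),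
    (h.int.add h'.int).congr (.of_forall fun x => (d x).symm), ?_⟩
  have a₂ : c.Q (fun x => w11 (dfn (fun x => θ x + θ' x) x) (ψ x)) α =
      c.Q (fun x => w11 (dfn θ x) (ψ x)) α + c.Q (fun x => w11 (dfn θ' x) (ψ x)) α :=
    (integral_congr_ae (.of_forall d)).trans (integral_add h.int h'.int)
  have a₃ : (per C.u fun x => (θ x + θ' x) • α x) =
      (per C.u fun x => θ x • α x) + per C.u fun x => θ' x • α x := by
    rw [sp, per, pull2_add]
    exact integral_add (C.integrable (F h hα) (Or.inl (T h))) (C.integrable (F h' hα) (Or.inl (T h')))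
  rw [a₂, a₃, sp, Q_add_left (F h hη) (F h' hη) hα, mul_add, h.eq, h'.eq]
  ring

theorem PLf.sum (hη : Form univ η) (hα : Form univ α) {ι : Type} (s : Finset ι) {θ : ι → X → ℝ}
    (h : ∀ i ∈ s, PLf C η ψ α (θ i)) : PLf C η ψ α fun x => ∑ i ∈ s, θ i x := by
  classical
  induction s using Finset.induction_on with
  | empty => exact PLf.zero
  | insert i s hi ih =>
    simp only [Finset.sum_insert hi]
    exact (h i (Finset.mem_insert_self i s)).add hη hα
      (ih fun j hj => h j (Finset.mem_insert_of_mem hj))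

/-- A positively oriented chart. -/
structure PCh (c : Ctx X) (e : OpenPartialHomeomorph X E) : Prop where
  ch : IsChart e
  pos : ∀ y ∈ e.target, 0 < wedge (pull2 e.symm c.om y) (pull2 e.symm c.om y)

theorem exists_pch (c : Ctx X) {x : X} (hU : IsOpen U) (hx : x ∈ U) :
    ∃ e, PCh c e ∧ x ∈ e.source ∧ e.source ⊆ U := by
  obtain ⟨e, he, hs, hsU, h0, hJ⟩ := exists_chart_std (J := c.J0) (x := x)
    (fun v => (c.tame0.1 x (mem_univ _) v).1) hU hx
  have ht : (0 : E) ∈ e.target := h0 ▸ e.map_source hs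
  obtain ⟨D, hD⟩ := he.exists_equiv ht
  have p0 := c.wedge_pull_pos c.tame0 (f := e.symm) (y := 0) (mem_univ _) (hD ▸ D.injective)
    fun v => by rw [← hJ, dif_pullJ (he.inv ht)]
  have hc := (c.continuousOn_jac (f := e.symm) (A := e.target) fun y hy =>
    (he.smAt hy).of_le (by simp)).continuousAt (e.open_target.mem_nhds ht)
  have t : Tendsto e (𝓝 x) (𝓝 0) := h0 ▸ e.continuousAt hs
  obtain ⟨V, hV, oV, mV⟩ := _root_.eventually_nhds_iff.1
    (t.eventually (continuousAt_const.eventually_lt hc p0))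
  refine ⟨e.restrOpen V oV, ⟨he.restr oV, fun y hy => ?_⟩, ⟨hs, mV⟩, inter_subset_left.trans hsU⟩
  have := hV _ hy.2
  rwa [e.right_inv hy.1] at this

theorem PCh.sm1 (h : PCh c e) : ∀ y ∈ e.target, SmAt 1 e.symm y := fun _ hy =>
  (h.ch.smAt hy).of_le (by simp)

theorem PCh.Q (h : PCh c e) (hα : Form univ α) (hβ : ∀ x v, β x v v = 0)
    (h0 : ∀ x ∉ e.source, β x = 0) :
    c.Q β α = ∫ y in e.target, wedge (pull2 e.symm β y) (pull2 e.symm α y) :=
  Q_plot' h.sm1 e.open_target.measurableSet e.symm.injOn (fun y hy => (h.pos y hy).le)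
    (fun _ _ => hβ _) (fun _ _ => hα.1 _ (mem_univ _)) fun x hx => by
      rw [e.symm_image_target_eq_source] at hx
      simp [h0 x hx, wedge]

theorem PCh.int (h : PCh c e) (hα : Form univ α) (hβ : ∀ x v, β x v v = 0)
    (h0 : ∀ x ∉ e.source, β x = 0)
    (hi : IntegrableOn (fun y => wedge (pull2 e.symm β y) (pull2 e.symm α y)) e.target) :
    Integrable (fun x => wedge (β x) (α x) / wedge (c.om x) (c.om x)) c.μ := by
  have := (integrableOn_plot' (c := c) h.sm1 e.open_target.measurableSet e.symm.injOn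
    fun x => wedge (β x) (α x) / wedge (c.om x) (c.om x)).2 (hi.congr_fun (fun y hy => by
      simp only [abs_of_pos (h.pos y hy), smul_eq_mul]
      exact (c.wedge_mul_dens _ y (hβ _) (hα.1 _ (mem_univ _))).symm) e.open_target.measurableSet)
  rw [e.symm_image_target_eq_source] at this
  exact this.integrable_of_forall_notMem_eq_zero fun x hx => by simp [h0 x hx, wedge]

theorem plb_closed (hα : Form univ α)
    (hc : ∀ x, ∀ y ∈ dom x U, ∀ u v w, ext2 (pull2 (par x) α) y u v w = 0) {f : E → X} {y : E}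
    (hf : SmAt ∞ f y) (hy : f y ∈ U) (u v w : E) : ext2 (pull2 f α) y u v w = 0 := by
  have hs := mem_chart_source E (f y)
  rw [(isChart_chartAt (f y)).ext2_loc (hf.of_le two_le) hs (hα.1 _ trivial)
    ((at_of_on isOpen_univ trivial (hα.2 _)).differentiableAt (by simp))]
  exact hc _ _ (mem_dom hs hy) _ _ _

theorem plb_K (hs : tsupport θ ⊆ e.source) : IsCompact (e '' tsupport θ) ∧
    e '' tsupport θ ⊆ e.target ∧ ∀ y ∈ e.target, y ∉ e '' tsupport θ → θ (e.symm y) = 0 :=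
  ⟨(isClosed_tsupport θ).isCompact.image_of_continuousOn (e.continuousOn.mono hs),
    image_subset_iff.2 fun _ hx => e.map_source (hs hx), fun _ hy hk =>
      image_eq_zero_of_notMem_tsupport fun k => hk ⟨_, k, e.right_inv hy⟩⟩

theorem plb_form (hU : IsOpen U) (ha : Sm1 U a) (hθ : ContMDiff 𝓘(ℝ, E) 𝓘(ℝ, ℝ) ∞ θ)
    (hs : tsupport θ ⊆ U) : Form univ fun x => w11 (dfn θ x) (a x) :=
  ((FnOn.sm1 hθ.contMDiffOn hU).w11 ha hU).extend hU (isClosed_tsupport θ) hs fun x hx => by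
    rw [St.dfn_eq_zero hx, plb_w0]

/-- The theorem of Stokes in a chart. -/
theorem PCh.stokes (h : PCh c e) {r : ℝ} (hη : Form univ η) (ha : IsD e.source a (r • η))
    (hθ : ContMDiff 𝓘(ℝ, E) 𝓘(ℝ, ℝ) ∞ θ) (hs : tsupport θ ⊆ e.source) (hα : Form univ α)
    (hc : ∀ x, ∀ y ∈ dom x e.source, ∀ u v w, ext2 (pull2 (par x) α) y u v w = 0) :
    c.Q (fun x => w11 (dfn θ x) (a x)) α + r * c.Q (fun x => θ x • η x) α = 0 := by
  have f₁ := plb_form e.open_source ha.sm1 hθ hs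
  have f₂ := (hη.fsmul isOpen_univ hθ.contMDiffOn).smul r
  have hD := ha.fsmul e.open_source hθ.contMDiffOn
  obtain ⟨k₁, k₂, k₃⟩ := plb_K hs
  rw [← Q_smul_left, ← Q_add_left f₁ f₂ hα, h.Q hα (fun x => (f₁.add f₂).1 x trivial) fun x hx => ?_,
    ← St.stokes (b := pull1 e.symm fun x => θ x • a x) (β := pull2 e.symm α) e.open_target k₁ k₂
      (fun y hy => ((hD.sm1.smooth e.open_source (h.ch.smAt hy) (e.map_target hy)).of_le
        (by simp)).contDiffWithinAt)
      (fun y hy => ((hα.smooth isOpen_univ (h.ch.smAt hy) trivial).of_le (by simp)).contDiffWithinAt)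
      (fun y hy hk => by rw [pull1, k₃ y hy hk, zero_smul, ContinuousLinearMap.zero_comp])
      (fun y _ v => hα.1 _ trivial _)
      fun y hy => plb_closed hα hc (h.ch.smAt hy) (e.map_target hy)]
  · refine setIntegral_congr_fun e.open_target.measurableSet fun y hy => ?_
    simp only [← hD.pull e.open_source ((h.ch.smAt hy).of_le two_le) (e.map_target hy)]
    congr 1
    exact bil_ext fun v w => by
      simp only [pull2_apply, Pi.add_apply, Pi.smul_apply, add_apply, smul_apply, smul_eq_mul]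
      ring
  · have hx' : x ∉ tsupport θ := fun k => hx (hs k)
    exact bil_ext fun v w => by simp [St.dfn_eq_zero hx', image_eq_zero_of_notMem_tsupport hx']

/-- Away from the curve. -/
theorem PCh.pl_off (h : PCh c e) (hη : Form univ η) (ha : IsD e.source ψ (-(2 * Real.pi) • η))
    (hW : e.source ⊆ O.W) (hC : Disjoint e.source C.img)
    (hθ : ContMDiff 𝓘(ℝ, E) 𝓘(ℝ, ℝ) ∞ θ) (hs : tsupport θ ⊆ e.source) (hα : Form univ α)
    (hc : ∀ x, ∀ y ∈ dom x e.source, ∀ u v w, ext2 (pull2 (par x) α) y u v w = 0) :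
    PLf C η ψ α θ := by
  refine ⟨hθ, hs.trans hW, Q_integrable (plb_form e.open_source ha.sm1 hθ hs) hα, ?_⟩
  have p : (per C.u fun x => θ x • α x) = 0 := integral_eq_zero_of_ae (C.ae_F.mono fun s hs' => by
    have : θ (C.u s) = 0 := image_eq_zero_of_notMem_tsupport fun k =>
      hC.notMem_of_mem_left (hs k) (Or.inl ⟨s, hs', rfl⟩)
    simp [this])
  linarith [h.stokes hη ha hθ hs hα hc, congrArg (2 * Real.pi * ·) p]

/-- Along the curve. -/
theorem PCh.pl_on (h : PCh c e) (D : Bad C) (hη : Form univ η) {P : X → ℂ}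
    (ha : IsD e.source a ((2 * Real.pi) • η)) (hB : e.source ⊆ D.Bᶜ)
    (hP : ∀ x ∈ e.source, FnAt ∞ P x ∧ (e x).2 = P x ∧ (P x ≠ 0 → ψ x = dA P x - a x))
    (h₁ : ∀ s, (s, 0) ∈ e.target ↔ s ∉ D.Z ∧ C.u s ∈ e.source)
    (h₂ : ∀ s, (s, 0) ∈ e.target → e.symm (s, 0) = C.u s)
    (hθ : ContMDiff 𝓘(ℝ, E) 𝓘(ℝ, ℝ) ∞ θ) (hs : tsupport θ ⊆ e.source) (hα : Form univ α)
    (hc : ∀ x, ∀ y ∈ dom x e.source, ∀ u v w, ext2 (pull2 (par x) α) y u v w = 0) :
    PLf C η ψ α θ := by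
  obtain ⟨k₁, k₂, k₃⟩ := plb_K hs
  have mT := e.open_target.measurableSet
  have df : ∀ y ∈ e.target, DfAt e.symm y := fun y hy => (h.ch.smAt hy).dfAt (by simp)
  have sP : ∀ y ∈ e.target, P (e.symm y) = y.2 := fun y hy => by
    rw [← (hP _ (e.map_target hy)).2.1, e.right_inv hy]
  obtain ⟨i₁, e₁⟩ := PL.pl_loc (θ := θ ∘ e.symm) (β := pull2 e.symm α)
    (γ := pull2 e.symm fun x => w11 (dfn θ x) (dA P x)) e.open_target k₁ k₂
    (fun y hy => ((FnAt.comp_plot (hθ _) (h.ch.smAt hy)).of_le (by simp)).contDiffWithinAt)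
    (fun y hy => ((hα.smooth isOpen_univ (h.ch.smAt hy) trivial).of_le (by simp)).contDiffWithinAt)
    k₃ (fun y _ v => hα.1 _ trivial _)
    (fun y hy => plb_closed hα hc (h.ch.smAt hy) (e.map_target hy)) fun y hy _ v w => by
      have ev : P ∘ e.symm =ᶠ[𝓝 y] Prod.snd := eventually_of_mem (e.open_target.mem_nhds hy) sP
      simp only [pull2_w11, w11_apply, smul_eq_mul]
      rw [pull1_dfn (hθ.mdifferentiableAt (by simp)) (df y hy),
        dA_pull (hP _ (e.map_target hy)).1 (df y hy), W.darg_congr ev, W.darg_apply, W.darg_apply,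
        fderiv_snd]
      rfl
  have f₁ := plb_form e.open_source ha.sm1 hθ hs
  have i₂ := integrableOn_wedge_plot c h.sm1 mT e.symm.injOn (fun y hy => (h.pos y hy).le) f₁ hα
  have z : ∀ b : X → E →L[ℝ] ℝ, ∀ x ∉ e.source, w11 (dfn θ x) (b x) = 0 := fun b x hx => by
    rw [St.dfn_eq_zero fun k => hx (hs k), plb_w0]
  have ae : (fun y => wedge (pull2 e.symm (fun x => w11 (dfn θ x) (dA P x)) y) (pull2 e.symm α y) -
      wedge (pull2 e.symm (fun x => w11 (dfn θ x) (a x)) y) (pull2 e.symm α y)) =ᵐ[volume.restrict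
      e.target] fun y => wedge (pull2 e.symm (fun x => w11 (dfn θ x) (ψ x)) y) (pull2 e.symm α y) := by
    filter_upwards [ae_restrict_mem mT, ae_restrict_of_ae PL.ae_snd] with y hy h0
    rw [← wedge_sub_left]
    congr 1
    exact bil_ext fun v w => by
      simp only [pull2_apply, sub_apply, w11_apply, smul_eq_mul,
        (hP _ (e.map_target hy)).2.2 (sP y hy ▸ h0)]
      ring
  refine ⟨hθ, hs.trans (hB.trans (compl_subset_compl.2 D.hL)),
    h.int hα (fun x => w11_alt _ _) (z ψ) ((i₁.sub i₂).congr ae), ?_⟩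
  have oS : IsOpen {s : ℂ | ((s, 0) : E) ∈ e.target} :=
    e.open_target.preimage (Continuous.prodMk_left 0)
  have p : (per C.u fun x => θ x • α x) = ∫ s in {s : ℂ | ((s, 0) : E) ∈ e.target},
      (θ ∘ e.symm) (s, 0) * pull2 e.symm α (s, 0) (1, 0) (.I, 0) := by
    rw [per, ← setIntegral_eq_integral_of_ae_compl_eq_zero (s := {s : ℂ | ((s, 0) : E) ∈ e.target})
      (C.ae_F.mono fun s hF hn => ?_)]
    · refine setIntegral_congr_fun oS.measurableSet fun s hs' => ?_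
      have ev : C.u =ᶠ[𝓝 s] e.symm ∘ fun t : ℂ => ((t, 0) : E) :=
        eventually_of_mem (oS.mem_nhds hs') fun t ht => (h₂ t ht).symm
      have hd := hasFDerivAt_prodMk_left (𝕜 := ℝ) s (0 : ℂ)
      simp only [pull2_apply, smul_apply, smul_eq_mul, Function.comp_apply, h₂ s hs', dif_congr ev,
        dif_comp (g := fun t : ℂ => ((t, 0) : E)) (df _ hs') hd.differentiableAt, hd.fderiv]
      rfl
    · have : θ (C.u s) = 0 := image_eq_zero_of_notMem_tsupport fun k =>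
        hn ((h₁ s).2 ⟨fun hz => hB (hs k) ((D.hZ s hF).2 hz), hs k⟩)
      simp [this]
  have st := h.stokes hη ha hθ hs hα hc
  rw [h.Q hα (fun x => w11_alt _ _) (z a)] at st
  rw [h.Q hα (fun x => w11_alt _ _) (z ψ), ← integral_congr_ae ae, integral_sub i₁ i₂, e₁, p]
  linarith

/-- The formula off the bad set. -/
theorem Bad.pl (D : Bad C) (hη : Form univ η)
    (H : ∀ x ∉ D.B, ∃ (V : Set X) (P : X → ℂ) (a : X → E →L[ℝ] ℝ), IsOpen V ∧ x ∈ V ∧
      (∀ y ∈ V, Eqn C P y) ∧ IsD V a ((2 * Real.pi) • η) ∧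
      ∀ y ∈ V, y ∉ C.img → ψ y = dA P y - a y)
    (hU : IsOpen U) (hθ : ContMDiff 𝓘(ℝ, E) 𝓘(ℝ, ℝ) ∞ θ) (hs : tsupport θ ⊆ D.Bᶜ ∩ U)
    (hα : Form univ α) (hc : ∀ x, ∀ y ∈ dom x U, ∀ u v w, ext2 (pull2 (par x) α) y u v w = 0) :
    PLf C η ψ α θ := by
  have loc : ∀ x, ∃ N, IsOpen N ∧ x ∈ N ∧ ∀ ρ : X → ℝ, ContMDiff 𝓘(ℝ, E) 𝓘(ℝ, ℝ) ∞ ρ →
      tsupport ρ ⊆ N → PLf C η ψ α fun x => ρ x * θ x := fun x => by
    by_cases hx : x ∈ tsupport θ
    swap
    · refine ⟨_, (isClosed_tsupport θ).isOpen_compl, hx, fun ρ _ hρ => ?_⟩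
      rw [show (fun x => ρ x * θ x) = fun _ => 0 from funext fun y => ?_]
      · exact PLf.zero
      · by_cases hy : y ∈ tsupport θ
        · rw [image_eq_zero_of_notMem_tsupport fun k => hρ k hy, zero_mul]
        · rw [image_eq_zero_of_notMem_tsupport hy, mul_zero]
    obtain ⟨V, P, a, oV, mV, E, da, pot⟩ := H x (hs hx).1
    by_cases hi : x ∈ C.img
    · obtain ⟨s, hF, rfl⟩ := hi.resolve_right fun e => (hs hx).1 (e ▸ D.v0)
      obtain ⟨e, he, ms, sub, h0, h₁, h₂, pos⟩ := Eqn.exists_chart D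
        (fun hz => (hs hx).1 ((D.hZ s hF).2 hz)) (E _ mV)
        ((oV.inter (D.closed.isOpen_compl.inter hU)).mem_nhds ⟨mV, hs hx⟩)
      exact ⟨e.source, e.open_source, ms, fun ρ hρ sρ => PCh.pl_on ⟨he, pos⟩ D hη
        (da.mono fun y hy => (sub hy).1) (fun y hy => (sub hy).2.1) (fun y hy =>
          ⟨(E y (sub hy).1).fn, (h0 y hy).1, fun hn => pot y (sub hy).1 fun k => hn ((h0 y hy).2.2 k)⟩)
        h₁ h₂ (hρ.mul hθ) (tsupport_mul_subset_left.trans sρ) hα
        fun x y hy => hc x y (dom_mono x (fun z hz => (sub hz).2.2) hy)⟩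
    · obtain ⟨e, he, ms, sub⟩ := exists_pch c (oV.inter (D.isClosed.isOpen_compl.inter hU))
        ⟨mV, fun k => k.elim hi (hs hx).1, (hs hx).2⟩
      have ni : ∀ y ∈ e.source, y ∉ C.img := fun y hy k => (sub hy).2.1 (Or.inl k)
      refine ⟨e.source, e.open_source, ms, fun ρ hρ sρ => he.pl_off hη ?_
        (fun y hy k => (sub hy).2.1 (Or.inr (D.hL k))) (disjoint_left.2 ni) (hρ.mul hθ)
        (tsupport_mul_subset_left.trans sρ) hα
        fun x y hy => hc x y (dom_mono x (fun z hz => (sub hz).2.2) hy)⟩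
      exact ((isD_dA e.open_source (fun y hy => (E y (sub hy).1).fn) fun y hy =>
        (E y (sub hy).1).ne (ni y hy)).sub (da.mono fun y hy => (sub hy).1) e.open_source).congr
        e.open_source (fun y hy => pot y (sub hy).1 (ni y hy)) fun y _ => bil_ext fun v w => by simp
  choose N oN mN hN using loc
  obtain ⟨s, ρ, h1, h2, -, h3, -⟩ := St.exists_partition N oN fun x => ⟨x, mN x⟩
  have := PLf.sum hη hα Finset.univ fun (i : s) _ => hN i (ρ i) (h1 i) (h2 i)
  simpa only [← Finset.sum_mul, h3, one_mul] using this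

theorem Cur.plf {D : Bad C} {S : Site D} (Λ : Cur S) (hU : IsOpen U)
    (hθ : ContMDiff 𝓘(ℝ, E) 𝓘(ℝ, ℝ) ∞ θ) (hs : tsupport θ ⊆ D.Bᶜ ∩ U) (hα : Form univ α)
    (hc : ∀ x, ∀ y ∈ dom x U, ∀ u v w, ext2 (pull2 (par x) α) y u v w = 0) :
    PLf C Λ.η Λ.ψ α θ :=
  D.pl Λ.closed.1 (fun x hx => ⟨Λ.U x, Λ.P x, Λ.a x, Λ.isOpen x, Λ.mem x hx, Λ.eqn x, Λ.isD x,
    Λ.pot x⟩) hU hθ hs hα hc

end Pool.Agent.Lib.MP_1c0d65_gt.PW
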