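import Pool.Agent.Lib.MP_1c0d65_gt.E.Sites
import Pool.Agent.Lib.MP_1c0d65_gt.E.DualPt
import Pool.Agent.Lib.MP_1c0d65_gt.E.PLb
import Pool.Agent.Lib.MP_1c0d65_gt.E.Glue

/-! A simple curve has a dual form. -/

set_option autoImplicit false

open scoped Manifold ContDiff Topology
open Set

noncomputable section

namespace Pool.Agent.Lib.MP_1c0d65_gt.PW

variable {X : Type} [TopologicalSpace X] [ChartedSpace E X] [IsManifold 𝓘(ℝ, E) ∞ X]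
  [T2Space X] [CompactSpace X] [MeasurableSpace X] [BorelSpace X] {c : Ctx X} {O : Orb c}

theorem Sites.dual {C : OC O} {ι : C.F → Fin O.n} {j : C.F → ℕ} {Ω : X → X → Bil E ℂ}
    (S : Sites C ι j Ω) (Λ : Cur S.S) : C.Dual Λ.η :=
  C.dual_of_pl Λ.closed ⟨Λ.V, Λ.isOpenV, S.D.hL.trans Λ.subV, Λ.η0⟩ S.T S.hT fun _ _ hθ hs hα =>
    (Λ.plf isOpen_univ hθ (subset_inter (S.hB ▸ hs) (subset_univ _)) hα.1 hα.2).eq

theorem OC.exists_dual (C : OC O) (h : C.Simple) : ∃ η, C.Dual η := by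
  obtain ⟨ι, j, hm⟩ := C.exists_mon
  obtain ⟨Ω, hΩ⟩ := exists_canF O
  obtain ⟨S, -⟩ := exists_sites h hm hΩ ∅ (by simp)
  obtain ⟨Λ⟩ := S.S.exists_cur
  exact ⟨_, S.dual Λ⟩

end Pool.Agent.Lib.MP_1c0d65_gt.PW
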