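import Pool.Agent.Lib.MP_1c0d65_gt.E.Per
import Pool.Agent.Lib.MP_1c0d65_gt.E.OSec
import Pool.Agent.Lib.MP_1c0d65_gt.E.C1B

/-! A form that is dual to a curve on test forms is also dual to it on the symplectic form. -/

set_option autoImplicit false
set_option linter.unusedSectionVars false

open scoped Manifold ContDiff Topology
open Set MeasureTheory Filter Metric

noncomputable section

namespace Pool.Agent.Lib.MP_1c0d65_gt.PW

variable {X : Type} [TopologicalSpace X] [ChartedSpace E X] [IsManifold 𝓘(ℝ, E) ∞ X]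
  [T2Space X] [CompactSpace X] [MeasurableSpace X] [BorelSpace X] {c : Ctx X} {O : Orb c}

theorem dom_shift {A : Type} [AddCommGroup A] {N : ℕ} {f : ℕ → A} (h : ∀ m, f (m + N) = f m)
    (k : ℕ) : ∑ m ∈ Finset.range N, f (m + k) = ∑ m ∈ Finset.range N, f m := by
  induction k with
  | zero => rfl
  | succ k ih =>
    have h1 := Finset.sum_range_succ (fun m => f (m + k)) N
    have h2 := Finset.sum_range_succ' (fun m => f (m + k)) N
    rw [add_comm N k, h, ih, h2, zero_add, add_left_inj] at h1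
    rw [← h1]
    exact Finset.sum_congr rfl fun m _ => by rw [add_assoc, add_comm 1 k]

theorem genL_apply (N a m : ℕ) (z : E) : genL N a m z = gen N a m z := rfl

theorem genL_comp (N a m k : ℕ) : (genL N a m).comp (genL N a k) = genL N a (m + k) :=
  ContinuousLinearMap.ext fun z => osec_gen_gen N a m k z

theorem genL_per {N : ℕ} (hN : N ≠ 0) (a m : ℕ) : genL N a (m + N) = genL N a m :=
  ContinuousLinearMap.ext fun z => by
    rw [genL_apply, ← osec_gen_gen, mon_gen_dvd hN a dvd_rfl, genL_apply]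

theorem Orb.dif_gen (O : Orb c) (i : Fin O.n) {z : E} (hz : z ∈ pb O.R) (m : ℕ) :
    dif (O.Pi i) z =
      (dif (O.Pi i) (gen (O.N i) (O.a i) m z)).comp (genL (O.N i) (O.a i) m) := by
  have h2 : O.Pi i =ᶠ[𝓝 z] O.Pi i ∘ genL (O.N i) (O.a i) m := by
    filter_upwards [(mon_isOpen_pb _).mem_nhds hz] with w hw using (O.Pi_gen i hw m).symm
  rw [dif_congr h2, dif_comp (g := genL (O.N i) (O.a i) m)
    (brk_md (O.Pi_cm i (mon_gen_pb (O.N_ne i) _ m hz))) (genL _ _ _).differentiableAt,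
    ContinuousLinearMap.fderiv]
  rfl

/-- The average of the primitive over the group. -/
def Orb.av (O : Orb c) (i : Fin O.n) (z : E) : E →L[ℝ] ℝ := (O.N i : ℝ)⁻¹ •
  ∑ m ∈ Finset.range (O.N i), (O.lam i (genL (O.N i) (O.a i) m z)).comp (genL (O.N i) (O.a i) m)

theorem Orb.av_term (O : Orb c) (i : Fin O.n) {z : E} (hz : z ∈ ball (0 : E) O.R) (m : ℕ) :
    ContDiffAt ℝ ∞ (O.lam i) (genL (O.N i) (O.a i) m z) :=
  (O.hlam i).1.contDiffAt (isOpen_ball.mem_nhds (by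
    rwa [mem_ball_zero_iff, genL_apply, mon_norm_gen (O.N_ne i), ← mem_ball_zero_iff]))

theorem Orb.av_smooth (O : Orb c) (i : Fin O.n) {z : E} (hz : z ∈ ball (0 : E) O.R) :
    ContDiffAt ℝ ∞ (O.av i) z :=
  (ContDiffAt.sum fun m _ => ((O.av_term i hz m).comp z (genL _ _ _).contDiff.contDiffAt).clm_comp
    contDiffAt_const).const_smul _

theorem Orb.av_gen (O : Orb c) (i : Fin O.n) (z : E) (k : ℕ) :
    (O.av i (gen (O.N i) (O.a i) k z)).comp (genL (O.N i) (O.a i) k) = O.av i z := by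
  rw [Orb.av, Orb.av, ContinuousLinearMap.smul_comp, ContinuousLinearMap.finsetSum_comp,
    ← dom_shift (f := fun m => (O.lam i (genL (O.N i) (O.a i) m z)).comp (genL (O.N i) (O.a i) m))
      (fun m => by rw [genL_per (O.N_ne i)]) k]
  congr 1
  exact Finset.sum_congr rfl fun m _ => by
    rw [ContinuousLinearMap.comp_assoc, genL_comp, genL_apply, osec_gen_gen, genL_apply]

theorem Orb.av_ext (O : Orb c) (i : Fin O.n) {z : E} (hz : z ∈ pb O.R) :
    pull2 (O.Pi i) c.om z = ext1 (O.av i) z := by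
  let f : ℕ → E → E →L[ℝ] ℝ := fun m z =>
    (O.lam i (genL (O.N i) (O.a i) m z)).comp (genL (O.N i) (O.a i) m)
  have h1 : ∀ m, DifferentiableAt ℝ (f m) z := fun m => cd_diff
    (((O.av_term i hz.1 m).comp z (genL _ _ _).contDiff.contDiffAt).clm_comp contDiffAt_const)
  have h2 : ∀ m, ext1 (f m) z = pull2 (O.Pi i) c.om z := fun m => by
    have := ext1_comp (g := genL (O.N i) (O.a i) m) (y := z) (cd_diff (O.av_term i hz.1 m))
      (genL _ _ _).contDiff.contDiffAt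
    simp only [ContinuousLinearMap.fderiv] at this
    rw [this, genL_apply, ← (O.hlam i).2 _ (mon_gen_pb (O.N_ne i) _ m hz)]
    refine bil_ext fun v w => ?_
    rw [pull2_apply, O.dif_gen i hz m, ← O.Pi_gen i hz m]
    rfl
  have h3 : O.av i = (O.N i : ℝ)⁻¹ • ∑ m ∈ Finset.range (O.N i), f m := by
    funext w; simp [Orb.av, f]
  have h4 : ∀ n, DifferentiableAt ℝ (∑ m ∈ Finset.range n, f m) z ∧
      ext1 (∑ m ∈ Finset.range n, f m) z = (n : ℝ) • pull2 (O.Pi i) c.om z := fun n => by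
    induction n with
    | zero => exact ⟨by simp, bil_ext fun v w => by simp [ext1_apply]⟩
    | succ n ih =>
      rw [Finset.sum_range_succ, ext1_add ih.1 (h1 n), ih.2, h2]
      exact ⟨ih.1.add (h1 n), bil_ext fun v w => by simp [add_mul]⟩
  rw [h3, ext1_smul _ (h4 _).1, (h4 _).2]
  exact bil_ext fun v w => by simp [O.N_ne i]

/-- A primitive of the symplectic form near the singular points. -/
theorem Orb.exists_prim (O : Orb c) : ∃ β : X → E →L[ℝ] ℝ,
    IsD (⋃ i, O.Pi i '' pb O.R) β c.om ∧ ∀ i, ∀ z ∈ pb O.R, pull1 (O.Pi i) β z = O.av i z := by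
  classical
  let β : X → E →L[ℝ] ℝ := fun x =>
    if h : ∃ p : Fin O.n × E, p.2 ∈ pb O.R ∧ O.Pi p.1 p.2 = x then
      (O.av h.choose.1 h.choose.2).comp (dif (O.Pi h.choose.1) h.choose.2).inverse else 0
  have h1 : ∀ i, ∀ z ∈ pb O.R, pull1 (O.Pi i) β z = O.av i z := fun i z hz => by
    have h : ∃ p : Fin O.n × E, p.2 ∈ pb O.R ∧ O.Pi p.1 p.2 = O.Pi i z := ⟨(i, z), hz, rfl⟩
    have h2 := h.choose_spec
    simp only [pull1, β, dif_pos h]
    generalize h.choose = p at h2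
    obtain ⟨i', z'⟩ := p
    obtain ⟨rfl, m, e⟩ := (O.fibre i i' z hz z' h2.1).1 h2.2.symm
    subst e
    rw [O.dif_gen i hz m, ← O.av_gen i z m]
    refine ContinuousLinearMap.ext fun v => ?_
    simp only [ContinuousLinearMap.comp_apply, (O.Pi_inv i h2.1).inverse_apply_self]
  have h4 : ∀ p ∈ ⋃ i, O.Pi i '' pb O.R, ∃ (e : OpenPartialHomeomorph X E) (i : Fin O.n),
      IsChart e ∧ p ∈ e.source ∧ e p ∈ pb O.R ∧ (e.symm : E → X) = O.Pi i ∧
        pull1 e.symm β =ᶠ[𝓝 (e p)] O.av i := fun p hp => by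
    obtain ⟨i, w, hw, rfl⟩ := mem_iUnion.1 hp
    obtain ⟨e, he, g1, g2, g3⟩ := O.exists_chart i le_rfl hw
    have g4 : e (O.Pi i w) = w := g3 ▸ e.right_inv g1
    refine ⟨e, i, he, g3 ▸ e.map_target g1, g4.symm ▸ hw, g3, ?_⟩
    rw [g4, g3]
    filter_upwards [(mon_isOpen_pb _).mem_nhds hw] with t ht using h1 i t ht
  refine ⟨β, isD_of_local (sm1_of_local fun p hp => ?_)
    (isOpen_iUnion fun i => O.isOpen_img i le_rfl) fun p hp => ?_, h1⟩
  · obtain ⟨e, i, he, g1, g2, -, g4⟩ := h4 p hp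
    exact ⟨e, he, g1, (O.av_smooth i g2.1).congr_of_eventuallyEq g4⟩
  · obtain ⟨e, i, he, g1, g2, g3, g4⟩ := h4 p hp
    exact ⟨e, he, g1, by rw [ext1_congr g4, g3, O.av_ext i g2]⟩

/-- The symplectic form is a test form up to an exact form `γ` with support near the `L i`. -/
theorem Orb.exists_split (O : Orb c) {U : Set X} (hU : IsOpen U) (hL : (⋃ i, O.L i) ⊆ U) :
    ∃ (b : X → E →L[ℝ] ℝ) (γ : X → Bil E ℝ), IsD O.W b γ ∧ Closed γ ∧ O.Test (c.om - γ) ∧
      (∀ x ∉ U, γ x = 0) ∧ ∀ i, ∀ᶠ z in 𝓝[≠] (0 : E), pull1 (O.Pi i) b z = O.av i z := by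
  obtain ⟨β, h1, h2⟩ := O.exists_prim
  have o1 : IsOpen (⋃ i, O.Pi i '' pb O.R) := isOpen_iUnion fun i => O.isOpen_img i le_rfl
  have o2 : IsOpen (U ∩ ⋃ i, O.Pi i '' pb O.R ∪ O.L i) :=
    hU.inter (isOpen_iUnion fun i => O.isOpen i _ ⟨O.hR, le_rfl⟩)
  obtain ⟨χ, c0, c1, -⟩ := exists_contMDiffMap_zero_one_nhds_of_isClosed (n := ⊤) 𝓘(ℝ, E)
    o2.isClosed_compl (isClosed_iUnion_of_finite O.closed) (disjoint_compl_left_iff_subset.2
      (subset_inter hL (iUnion_mono fun i => subset_union_right)))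
  obtain ⟨A, a1, a2, a3⟩ := eventually_nhdsSet_iff_exists.1 c0
  obtain ⟨B, b1, b2, b3⟩ := eventually_nhdsSet_iff_exists.1 c1
  have d : ∀ {S : Set X} {k : ℝ}, IsOpen S → (∀ x ∈ S, χ x = k) → ∀ x ∈ S, dfn χ x = 0 :=
    fun {S k} hS h x hx => by
      rw [dfn_congr (g' := fun _ => k) (by filter_upwards [hS.mem_nhds hx] with y hy using h y hy)]
      exact mfderiv_const
  let γ : X → Bil E ℝ := fun x => w11 (dfn χ x) (β x) + χ x • c.om x
  have g0 : ∀ x ∈ A, γ x = 0 := fun x hx => bil_ext fun v w => by simp [γ, d a1 a3 x hx, a3 x hx]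
  have g1 : ∀ x ∈ B, γ x = c.om x := fun x hx =>
    bil_ext fun v w => by simp [γ, d b1 b3 x hx, b3 x hx]
  have hD : IsD O.W (fun x => χ x • β x) γ := IsD.glue O.isOpen_W fun p hp => by
    by_cases h : p ∈ A
    · exact ⟨A, a1, h, isD_zero.congr a1 (fun x hx => by simp [a3 x hx]) g0⟩
    · refine ⟨_, o1, ?_, h1.fsmul o1 χ.contMDiff.contMDiffOn⟩
      obtain ⟨i, hi⟩ := mem_iUnion.1 (not_not.1 (mt (a2 (a := p)) h)).2
      exact mem_iUnion.2 ⟨i, hi.resolve_right fun h' => hp (mem_iUnion.2 ⟨i, h'⟩)⟩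
  refine ⟨_, γ, hD, ⟨Form.glue fun p _ => ?_, fun x y hy => ?_⟩,
    ⟨B, b1, b2, fun x hx => by rw [Pi.sub_apply, g1 x hx, sub_self]⟩,
    fun x hx => g0 x (a2 fun h => hx h.1), fun i => ?_⟩
  · by_cases h : p ∈ O.W
    · exact ⟨_, O.isOpen_W, h, hD.form O.isOpen_W⟩
    · exact ⟨B, b1, b2 (not_not.1 h), (c.hom.1.mono (subset_univ B)).congr g1⟩
  · by_cases h : par x y ∈ O.W
    · exact hD.ext2_zero O.isOpen_W ⟨hy.1, h⟩
    · rw [ext2_congr (β := pull2 (par x) c.om) (by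
        filter_upwards [(isOpen_dom x b1).mem_nhds ⟨hy.1, b2 (not_not.1 h)⟩] with z hz
        rw [pull2, pull2, g1 _ hz.2])]
      exact c.hom.2 x y hy
  · obtain ⟨r, hr, h⟩ := O.small i B b1 fun x hx => b2 (mem_iUnion.2 ⟨i, hx⟩)
    filter_upwards [self_mem_nhdsWithin, nhdsWithin_le_nhds (ball_mem_nhds (0 : E) hr.1)]
      with z z0 z1
    rw [← h2 i z (mon_pb_mono hr.2 ⟨z1, z0⟩), pull1, pull1, b3 _ (h ⟨z, ⟨z1, z0⟩, rfl⟩), one_smul]

theorem OC.per_split (C : OC O) {b : X → E →L[ℝ] ℝ} {γ : X → Bil E ℝ} (hD : IsD O.W b γ)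
    (hγ : Form univ γ) (ht : O.Test (c.om - γ))
    (hb : ∀ i, ∀ᶠ z in 𝓝[≠] (0 : E), pull1 (O.Pi i) b z = O.av i z) :
    per C.u (c.om - γ) = per C.u c.om := by
  obtain ⟨ι, j, hm⟩ := C.exists_mon
  have i1 := C.integrable c.hom.1 (Or.inr rfl)
  have i2 := C.integrable (c.hom.1.sub hγ) (Or.inl ht)
  have sm : ∀ s ∉ C.F, ContDiffAt ℝ ∞ (pull1 C.u b) s := fun s hs =>
    hD.sm1.smooth O.isOpen_W (C.cm hs) (C.mu hs)
  have ae : (fun s => pull2 C.u c.om s 1 .I - pull2 C.u (c.om - γ) s 1 .I) =ᵐ[volume]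
      W.dd (pull1 C.u b) :=
    (C.F.finite_toSet.countable.ae_notMem volume).mono fun s hs => by
      have := congrArg (fun B : Bil ℂ ℝ => B 1 .I)
        (hD.pull O.isOpen_W ((C.cm hs).of_le two_le) (C.mu hs))
      refine Eq.trans ?_ this
      simp
  have h := W.green_sphere C.F (c := fun _ => 0) (fun s hs => (sm s hs).of_le (by simp))
    ((i1.sub i2).congr ae) (fun a ha => ?_) (C.pull1_v b)
    (res_zero C.smv.self_of_nhds O.isOpen_W C.v0 hD.sm1)
  · rw [← integral_congr_ae ae, integral_sub i1 i2] at h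
    simp only [Finset.sum_const_zero, add_zero, neg_zero] at h
    exact (sub_eq_zero.1 h).symm
  · obtain ⟨-, z, hz⟩ := hm ⟨a, ha⟩
    have h1 : ContDiffAt ℝ 1 z 0 := hz.analyticAt.contDiffAt.restrict_scalars ℝ
    have h2 : ContinuousAt (O.av (ι ⟨a, ha⟩)) (z 0) :=
      hz.z0 ▸ (O.av_smooth _ (mem_ball_self O.hR)).continuousAt
    have h3 := hz.res' (ψ := b) (r := 0) ((C.ev_F a).mono fun s hs => (sm s hs).continuousAt)
      ((W.cp_cont ((h2.comp h1.continuousAt).clm_comp (h1.continuousAt_fderiv one_ne_zero))).congr'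
        (W.cp_pn ((hz.tend.eventually (hb (ι ⟨a, ha⟩))).mono fun ζ e => by
          simp only [e, Function.comp_apply])))
    rwa [zero_div] at h3

theorem OC.dual_of (C : OC O) {η : X → Bil E ℝ} (hη : Closed η) (ht : O.Test η)
    (h : ∀ α, Closed α → O.Test α → c.Q η α = per C.u α) : C.Dual η := by
  refine ⟨hη, ht, h, ?_⟩
  obtain ⟨U, hU, hL, h0⟩ := ht
  obtain ⟨b, γ, h1, h2, h3, h4, h5⟩ := O.exists_split hU hL
  have e : c.Q η γ = 0 := by
    refine (integral_congr_ae (ae_of_all _ fun x => ?_)).trans (integral_zero _ _)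
    by_cases hx : x ∈ U
    · simp [h0 x hx]
    · simp [h4 x hx]
  rw [← C.per_split h1 h2.1 h3 h5, ← h _ (c.hom.sub h2) h3, Q_sub_right hη.1 c.hom.1 h2.1, e,
    sub_zero]

end Pool.Agent.Lib.MP_1c0d65_gt.PW
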