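import Mathlib

/-! A locally constant cocycle on a simply connected space is a coboundary, also when it is only
given outside a set that does not separate small open sets. -/

set_option autoImplicit false

open scoped Topology
open Set Filter

noncomputable section

namespace Pool.Agent.Lib.MP_1c0d65_gt.Flat

variable {X A : Type} [TopologicalSpace X]

theorem flat0 [SimplyConnectedSpace X] [LocallyPathConnectedSpace X] [Group A] (V : X → Set X)
    (hV : ∀ x, IsOpen (V x)) (hx : ∀ x, x ∈ V x) (c : X → X → X → A)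
    (hc : ∀ x y, ∀ z ∈ V x ∩ V y, ∀ᶠ w in 𝓝 z, c x y w = c x y z)
    (hco : ∀ x y w, ∀ z ∈ V x ∩ V y ∩ V w, c x y z * c y w z = c x w z) :
    ∃ b : X → X → A, (∀ x, ∀ z ∈ V x, ∀ᶠ w in 𝓝 z, b x w = b x z) ∧
      ∀ x y, ∀ z ∈ V x ∩ V y, c x y z = b x z * (b y z)⁻¹ := by
  letI : TopologicalSpace A := ⊥
  haveI : DiscreteTopology A := ⟨rfl⟩
  let Z : FiberBundleCore X X A :=
    { baseSet := V
      isOpen_baseSet := hV
      indexAt := id
      mem_baseSet_at := hx
      coordChange := fun i j x v => c j i x * v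
      coordChange_self := fun i x h v => by
        rw [mul_eq_left.1 (hco i i i x ⟨⟨h, h⟩, h⟩), one_mul]
      continuousOn_coordChange := fun i j p hp => by
        refine ContinuousAt.continuousWithinAt ?_
        have h1 : ∀ᶠ q in 𝓝 p, c j i q.1 = c j i p.1 :=
          continuousAt_fst.eventually (hc j i p.1 ⟨hp.1.2, hp.1.1⟩)
        have h2 : ∀ᶠ q : X × A in 𝓝 p, q.2 = p.2 :=
          continuousAt_snd.eventually ((isOpen_discrete {p.2}).mem_nhds rfl)
        refine (continuousAt_const (y := c j i p.1 * p.2)).congr ?_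
        filter_upwards [h1, h2] with q e1 e2
        rw [e1, e2]
      coordChange_comp := fun i j k x h v => by
        rw [← mul_assoc, hco k j i x ⟨⟨h.2, h.1.2⟩, h.1.1⟩] }
  have cov : IsCoveringMap Z.proj :=
    IsCoveringMap.mk _ (fun _ => A) Z.localTrivAt Z.mem_localTrivAt_baseSet
  obtain ⟨x0⟩ : Nonempty X := inferInstance
  obtain ⟨F, ⟨-, hF⟩, -⟩ :=
    cov.existsUnique_continuousMap_lifts (ContinuousMap.id X) x0 ⟨x0, (1 : A)⟩ rfl
  have hp (z : X) : (F z).1 = z := congrFun hF z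
  refine ⟨fun x z => (Z.localTriv x (F z)).2, fun x z hz => ?_, fun x y z hz => ?_⟩
  · have h1 : ContinuousAt (Z.localTriv x) (F z) :=
      (Z.localTriv x).continuousAt (by rw [Z.mem_localTriv_source, hp]; exact hz)
    have h2 : ContinuousAt (fun z => (Z.localTriv x (F z)).2) z :=
      continuousAt_snd.comp (h1.comp F.continuous.continuousAt)
    exact h2.eventually ((isOpen_discrete {(Z.localTriv x (F z)).2}).mem_nhds rfl)
  · obtain ⟨a, e⟩ : ∃ a : A, ∀ x, (Z.localTriv x (F z)).2 = c x z z * a := ⟨(F z).2, fun x => by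
      rw [Z.localTriv_apply]
      change c x (F z).1 (F z).1 * _ = _
      rw [hp]⟩
    simp only [e]
    rw [← hco x y z z ⟨hz, hx z⟩]
    group

/-- A function that is locally constant outside `S` extends. -/
theorem extend [LocallyConnectedSpace X] {S U : Set X} (hU : IsOpen U)
    (hS : ∀ B, IsOpen B → IsPreconnected B → IsPreconnected (B \ S)) (hd : Dense Sᶜ) {f : X → A}
    (hf : ∀ z ∈ U \ S, ∀ᶠ w in 𝓝 z, w ∉ S → f w = f z) : ∃ g : X → A, ∀ z ∈ U,
      (∀ᶠ w in 𝓝 z, g w = g z) ∧ (∀ᶠ w in 𝓝 z, w ∉ S → f w = g z) := by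
  have key : ∀ z, ∃ a, z ∈ U → ∀ᶠ w in 𝓝 z, w ∉ S → f w = a := fun z => by
    by_cases hz : z ∈ U
    swap
    · exact ⟨f z, fun h => (hz h).elim⟩
    have hB : IsOpen (connectedComponentIn U z) := hU.connectedComponentIn
    have hm := mem_connectedComponentIn hz
    obtain ⟨p, hp, hp'⟩ := hd.inter_open_nonempty _ hB ⟨z, hm⟩
    refine ⟨f p, fun _ => ?_⟩
    letI : TopologicalSpace A := ⊥
    haveI : DiscreteTopology A := ⟨rfl⟩
    have hcon : ContinuousOn f (connectedComponentIn U z \ S) := fun w hw => by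
      refine (continuousWithinAt_const (b := f w)).congr_of_eventuallyEq ?_ rfl
      filter_upwards [mem_nhdsWithin_of_mem_nhds
        (hf w ⟨connectedComponentIn_subset _ _ hw.1, hw.2⟩), self_mem_nhdsWithin] with v h1 h2
      exact h1 h2.2
    filter_upwards [hB.mem_nhds hm] with w hw hw'
    exact (hS _ hB isPreconnected_connectedComponentIn).constant hcon ⟨hw, hw'⟩ ⟨hp, hp'⟩
  choose g hg using key
  refine ⟨g, fun z hz => ⟨?_, hg z hz⟩⟩
  filter_upwards [(hg z hz).eventually_nhds, hU.mem_nhds hz] with w h1 h2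
  obtain ⟨v, hv, h3, h4⟩ := ((hd w : w ∈ closure Sᶜ) |> mem_closure_iff_frequently.1
    |>.and_eventually (h1.and (hg w h2))).exists
  rw [← h4 hv, h3 hv]

/-- The cocycle is only given outside `S`. -/
theorem flat [SimplyConnectedSpace X] [LocallyPathConnectedSpace X] [Group A] {S : Set X}
    (hS : ∀ B, IsOpen B → IsPreconnected B → IsPreconnected (B \ S)) (hd : Dense Sᶜ)
    (V : X → Set X) (hV : ∀ x, IsOpen (V x)) (hx : ∀ x, x ∈ V x) (c : X → X → X → A)
    (hc : ∀ x y, ∀ z ∈ (V x ∩ V y) \ S, ∀ᶠ w in 𝓝 z, w ∉ S → c x y w = c x y z)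
    (hco : ∀ x y w, ∀ z ∈ (V x ∩ V y ∩ V w) \ S, c x y z * c y w z = c x w z) :
    ∃ b : X → X → A, (∀ x, ∀ z ∈ V x, ∀ᶠ w in 𝓝 z, b x w = b x z) ∧
      ∀ x y, ∀ z ∈ (V x ∩ V y) \ S, c x y z = b x z * (b y z)⁻¹ := by
  choose g hg using fun x y => extend ((hV x).inter (hV y)) hS hd (hc x y)
  obtain ⟨b, h1, h2⟩ := flat0 V hV hx g (fun x y z hz => (hg x y z hz).1) fun x y w z hz => by
    obtain ⟨v, hv, ⟨e1, e2⟩, e3, e4⟩ := ((hd z : z ∈ closure Sᶜ) |> mem_closure_iff_frequently.1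
      |>.and_eventually (((hg x y z hz.1).2.and (hg y w z ⟨hz.1.2, hz.2⟩).2).and
        ((hg x w z ⟨hz.1.1, hz.2⟩).2.and ((((hV x).inter (hV y)).inter (hV w)).mem_nhds hz)))).exists
    rw [← e1 hv, ← e2 hv, ← e3 hv, hco x y w v ⟨e4, hv⟩]
  exact ⟨b, h1, fun x y z hz => by rw [← h2 x y z hz.1, (hg x y z hz.1).2.self_of_nhds hz.2]⟩

end Pool.Agent.Lib.MP_1c0d65_gt.Flat
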