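import Pool.Agent.Lib.MP_1c0d65_gt.PW.PlotD
import Pool.Agent.Lib.MP_1c0d65_gt.PW.Pair
import Pool.Agent.Lib.MP_1c0d65_gt.PW.Mon
import Pool.Agent.Lib.MP_1c0d65_gt.W.Arg

/-! Definitions for the sum of the monodromies. -/

set_option autoImplicit false

open scoped Manifold ContDiff Topology
open Set MeasureTheory Filter Metric

noncomputable section

namespace Pool.Agent.Lib.MP_1c0d65_gt.PW

variable {X : Type} [TopologicalSpace X] [ChartedSpace E X] [MeasurableSpace X]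

/-- The geometric dual of a sphere `u` with image `Z`. -/
structure MLel (c : Ctx X) (u : ℂ → X) (Z : Set X) (η : X → Bil E ℝ) (ψ : X → E →L[ℝ] ℝ) :
    Prop where
  closed : Closed η
  dual : ∀ α, Closed α → c.Q η α = per u α
  loc : ∀ x, ∃ (U : Set X) (P : X → ℂ) (b : X → E →L[ℝ] ℝ), IsOpen U ∧ x ∈ U ∧
    ContMDiffOn 𝓘(ℝ, E) 𝓘(ℝ, ℂ) ∞ P U ∧ IsD U b ((2 * Real.pi) • η) ∧
    ∀ y ∈ U \ Z, P y ≠ 0 ∧ ∀ v, ψ y v = (dfn P y v / P y).im - b y v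
  pl : ∀ (U : Set X) (θ : X → ℝ) (α : X → Bil E ℝ), IsOpen U →
    ContMDiff 𝓘(ℝ, E) 𝓘(ℝ, ℝ) ∞ θ → tsupport θ ⊆ U → Form univ α →
    (∀ x, ∀ y ∈ dom x U, ∀ a b c, ext2 (pull2 (par x) α) y a b c = 0) →
    2 * Real.pi * c.Q (fun x => θ x • η x) α =
      c.Q (fun x => w11 (dfn θ x) (ψ x)) α + 2 * Real.pi * per u fun x => θ x • α x

/-- The diagonal action. -/
def dia (e e' : ℂ) (m : ℕ) (z : E) : E := (e ^ m * z.1, e' ^ m * z.2)

/-- `f` uniformises a punctured neighbourhood of `L`; the group acts freely on the first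
coordinate. -/
structure Up (c : Ctx X) (L : Set X) (N : ℕ) (e e' : ℂ) (R : ℝ) (f : E → X) : Prop where
  hN : N ≠ 0
  prim : IsPrimitiveRoot e N
  root : e' ^ N = 1
  smooth : ∀ z ∈ pb R, SmAt ∞ f z
  inj : ∀ z ∈ pb R, Function.Injective (dif f z)
  pos : ∀ z ∈ pb R, 0 < wedge (pull2 f c.om z) (pull2 f c.om z)
  fibre : ∀ z ∈ pb R, ∀ z' ∈ pb R, f z = f z' ↔ ∃ m, z' = dia e e' m z
  closed : IsClosed L
  maps : MapsTo f (pb R) Lᶜ

/-- A cut-off in the square of the radius. -/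
structure MCut (r r' : ℝ) (k : ℝ → ℝ) : Prop where
  pos : 0 < r
  lt : r < r'
  sm : ContDiff ℝ ∞ k
  one : ∀ t, t ≤ r ^ 2 → k t = 1
  zero : ∀ t, r' ^ 2 ≤ t → k t = 0

/-- The area form of the first coordinate. -/
def area1 : Bil E ℝ :=
  w11 (Complex.reCLM.comp (ContinuousLinearMap.fst ℝ ℂ ℂ))
    (Complex.imCLM.comp (ContinuousLinearMap.fst ℝ ℂ ℂ))

/-- The density of the test form. -/
def tf (k k' : ℝ → ℝ) (z : E) : ℝ := -deriv k (‖z.1‖ ^ 2) / Real.pi * k' (‖z.2‖ ^ 2)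

/-- The closed thick torus. -/
def thick (r r' s s' : ℝ) : Set E := {z | r ≤ ‖z.1‖ ∧ ‖z.1‖ ≤ r' ∧ s ≤ ‖z.2‖ ∧ ‖z.2‖ ≤ s'}

/-- `τ` is the form on `X` dual to the discs `{z.1 = const}`. -/
structure Disc (L : Set X) (R : ℝ) (f : E → X) (k k' : ℝ → ℝ) (τ : X → Bil E ℝ) : Prop where
  form : Form univ τ
  test : ∃ U, IsOpen U ∧ L ⊆ U ∧ ∀ x ∈ U, τ x = 0
  off : ∀ x ∉ f '' pb R, τ x = 0
  up : ∀ z ∈ pb R, pull2 f τ z = tf k k' z • area1

end Pool.Agent.Lib.MP_1c0d65_gt.PW
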