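import Pool.Agent.Lib.MP_1c0d65_gt.E.MonDef
import Pool.Agent.Lib.MP_1c0d65_gt.PW.PlotA
import Pool.Agent.Lib.MP_1c0d65_gt.PW.PlotH

/-! Descent of radial functions and forms along a uniformising map. -/

set_option autoImplicit false
set_option linter.unusedSectionVars false

open scoped Manifold ContDiff Topology
open Set MeasureTheory Filter Metric

noncomputable section

namespace Pool.Agent.Lib.MP_1c0d65_gt.PW

variable {X : Type} [TopologicalSpace X] [ChartedSpace E X] [IsManifold 𝓘(ℝ, E) ∞ X]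
  [T2Space X] [CompactSpace X] [MeasurableSpace X] [BorelSpace X] {c : Ctx X}
  {L : Set X} {N : ℕ} {e e' : ℂ} {R r r' s s' : ℝ} {f : E → X} {k k' : ℝ → ℝ}

theorem md_cut {r r' : ℝ} (h0 : 0 < r) (h : r < r') : ∃ k, MCut r r' k := by
  have hd : 0 < r' ^ 2 - r ^ 2 := by nlinarith
  refine ⟨fun t => Real.smoothTransition ((r' ^ 2 - t) / (r' ^ 2 - r ^ 2)), h0, h,
    Real.smoothTransition.contDiff.comp ((contDiff_const.sub contDiff_id).div_const _),
    fun t ht => Real.smoothTransition.one_of_one_le ?_,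
    fun t ht => Real.smoothTransition.zero_of_nonpos ?_⟩
  · rw [le_div_iff₀ hd]; linarith
  · exact div_nonpos_of_nonpos_of_nonneg (by linarith) hd.le

theorem md_deriv (hk : MCut r r' k) {t : ℝ} (h : t < r ^ 2 ∨ r' ^ 2 < t) : deriv k t = 0 := by
  rcases h with h | h
  · have : k =ᶠ[𝓝 t] fun _ => 1 := (eventually_lt_nhds h).mono fun x hx => hk.one x hx.le
    rw [this.deriv_eq, deriv_const]
  · have : k =ᶠ[𝓝 t] fun _ => 0 := (eventually_gt_nhds h).mono fun x hx => hk.zero x hx.le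
    rw [this.deriv_eq, deriv_const]

theorem md_area (v w : E) : area1 v w = v.1.re * w.1.im - w.1.re * v.1.im := rfl

theorem md_closed {g : ℂ → ℝ} {z : E} (hg : DifferentiableAt ℝ g z.1) (a b d : E) :
    ext2 (fun y : E => g y.1 • area1) z a b d = 0 := by
  have h1 := hg.hasFDerivAt.comp z hasFDerivAt_fst
  have h2 : fderiv ℝ (fun y : E => g y.1) z = _ := h1.fderiv
  rw [ext2_fsmul (h := fun y : E => g y.1) (α := fun _ => area1) h1.differentiableAt (differentiableAt_const _), h2]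
  simp only [ext2, fderiv_fun_const, ContinuousLinearMap.comp_apply, md_area, smul_eq_mul,
    ContinuousLinearMap.coe_fst', Pi.zero_apply, zero_apply]
  rw [brk_lin _ a.1, brk_lin _ b.1, brk_lin _ d.1]
  simp only [smul_eq_mul]
  ring

open Classical in
/-- The descent of a radial function. -/
def dsc (R : ℝ) (f : E → X) (G : ℝ → ℝ → ℝ) (x : X) : ℝ :=
  if h : x ∈ f '' pb R then G (‖h.choose.1‖ ^ 2) (‖h.choose.2‖ ^ 2) else 0

open Classical in
/-- The descent of the area form of the first coordinate. -/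
def dar (R : ℝ) (f : E → X) (x : X) : Bil E ℝ :=
  if h : x ∈ f '' pb R then
    area1.bilinearComp (dif f h.choose).inverse (dif f h.choose).inverse else 0

theorem dsc_off {G : ℝ → ℝ → ℝ} {x : X} (h : x ∉ f '' pb R) : dsc R f G x = 0 := dif_neg h

theorem dsc_mul (G H : ℝ → ℝ → ℝ) (x : X) :
    dsc R f (fun a b => G a b * H a b) x = dsc R f G x * dsc R f H x := by
  unfold dsc
  split_ifs <;> simp

theorem dar_alt (x : X) (v : E) : dar R f x v v = 0 := by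
  unfold dar
  split_ifs
  · rw [ContinuousLinearMap.bilinearComp_apply, md_area, sub_self]
  · rfl

namespace Up

variable (h : Up c L N e e' R f)
include h

theorem md_norm (m : ℕ) (z : E) : ‖(dia e e' m z).1‖ = ‖z.1‖ ∧ ‖(dia e e' m z).2‖ = ‖z.2‖ := by
  simp [dia, h.prim.norm'_eq_one h.hN, Complex.norm_eq_one_of_pow_eq_one h.root h.hN]

theorem md_inv {z : E} (hz : z ∈ pb R) : (dif f z).IsInvertible :=
  ⟨ContinuousLinearEquiv.ofBijective (dif f z) (LinearMap.ker_eq_bot.2 (h.inj z hz))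
    (LinearMap.range_eq_top.2 ((LinearMap.injective_iff_surjective
      (f := (dif f z : E →ₗ[ℝ] E))).1 (h.inj z hz))), rfl⟩

theorem md_chart {z : E} (hz : z ∈ pb R) : ∃ φ : OpenPartialHomeomorph X E, IsChart φ ∧
    z ∈ φ.target ∧ φ.target ⊆ pb R ∧ (φ.symm : E → X) = f :=
  exists_chart_of_plot ((mon_isOpen_pb R).mem_nhds hz) h.smooth (h.md_inv hz)

theorem md_pb (m : ℕ) {z : E} (hz : z ∈ pb R) : dia e e' m z ∈ pb R := by
  have e1 : ‖dia e e' m z‖ = ‖z‖ := by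
    rw [Prod.norm_def, Prod.norm_def, (h.md_norm m z).1, (h.md_norm m z).2]
  refine ⟨?_, fun h0 => hz.2 ?_⟩
  · rw [mem_ball_zero_iff, e1]; exact mem_ball_zero_iff.1 hz.1
  · rw [mem_singleton_iff, ← norm_eq_zero] at h0 ⊢
    rwa [e1] at h0

theorem dsc_up (G : ℝ → ℝ → ℝ) {z : E} (hz : z ∈ pb R) :
    dsc R f G (f z) = G (‖z.1‖ ^ 2) (‖z.2‖ ^ 2) := by
  have h1 : f z ∈ f '' pb R := mem_image_of_mem f hz
  obtain ⟨m, hm⟩ := (h.fibre z hz _ h1.choose_spec.1).1 h1.choose_spec.2.symm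
  rw [dsc, dif_pos h1, hm, (h.md_norm m z).1, (h.md_norm m z).2]

theorem dar_up {z : E} (hz : z ∈ pb R) : pull2 f (dar R f) z = area1 := by
  have h1 : f z ∈ f '' pb R := mem_image_of_mem f hz
  obtain ⟨m, hm⟩ := (h.fibre z hz _ h1.choose_spec.1).1 h1.choose_spec.2.symm
  have h2 : ∀ y, HasFDerivAt (dia e e' m) ((e ^ m • ContinuousLinearMap.fst ℝ ℂ ℂ).prod
      (e' ^ m • ContinuousLinearMap.snd ℝ ℂ ℂ)) y := fun y =>
    (hasFDerivAt_fst.const_mul _).prodMk (hasFDerivAt_snd.const_mul _)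
  have h3 : f =ᶠ[𝓝 z] f ∘ dia e e' m := by
    filter_upwards [(mon_isOpen_pb R).mem_nhds hz] with y hy
    exact (h.fibre y hy _ (h.md_pb m hy)).2 ⟨m, rfl⟩
  have h4 := h.md_pb m hz
  have h5 : ∀ v, (dif f (dia e e' m z)).inverse (dif f z v) = (e ^ m * v.1, e' ^ m * v.2) :=
    fun v => by
      rw [dif_congr h3, dif_comp ((h.smooth _ h4).dfAt (by simp)) (h2 z).differentiableAt,
        (h2 z).fderiv, ContinuousLinearMap.comp_apply, (h.md_inv h4).inverse_apply_self]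
      rfl
  have h6 : (e ^ m).re ^ 2 + (e ^ m).im ^ 2 = 1 := by
    have : ‖e ^ m‖ ^ 2 = 1 := by simp [h.prim.norm'_eq_one h.hN]
    rwa [Complex.sq_norm, Complex.normSq_apply, ← sq, ← sq] at this
  refine bil_ext fun v w => ?_
  rw [pull2_apply, dar, dif_pos h1, hm, ContinuousLinearMap.bilinearComp_apply, h5, h5, md_area,
    md_area]
  simp only [Complex.mul_re, Complex.mul_im]
  linear_combination (v.1.re * w.1.im - w.1.re * v.1.im) * h6

theorem pull_up (G : ℝ → ℝ → ℝ) {z : E} (hz : z ∈ pb R) :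
    pull2 f (fun x => dsc R f G x • dar R f x) z = G (‖z.1‖ ^ 2) (‖z.2‖ ^ 2) • area1 := by
  rw [← h.dar_up hz, ← h.dsc_up G hz]; rfl

theorem md_cpt {K : Set E} (hK : IsCompact K) (hK' : K ⊆ pb R) : IsClosed (f '' K) :=
  (hK.image_of_continuousOn fun z hz =>
    (h.smooth z (hK' hz)).continuousAt.continuousWithinAt).isClosed

theorem dsc_zero {G : ℝ → ℝ → ℝ} {K : Set E}
    (h0 : ∀ z ∈ pb R, z ∉ K → G (‖z.1‖ ^ 2) (‖z.2‖ ^ 2) = 0) {x : X} (hx : x ∉ f '' K) :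
    dsc R f G x = 0 := by
  by_cases h1 : x ∈ f '' pb R
  · obtain ⟨z, hz, rfl⟩ := h1
    rw [h.dsc_up G hz, h0 z hz fun h2 => hx (mem_image_of_mem f h2)]
  · exact dsc_off h1

theorem dsc_smooth {G : ℝ → ℝ → ℝ} (hG : ContDiff ℝ ∞ fun z : E => G (‖z.1‖ ^ 2) (‖z.2‖ ^ 2))
    {K : Set E} (hK : IsCompact K) (hK' : K ⊆ pb R)
    (h0 : ∀ z ∈ pb R, z ∉ K → G (‖z.1‖ ^ 2) (‖z.2‖ ^ 2) = 0) :
    ContMDiff 𝓘(ℝ, E) 𝓘(ℝ, ℝ) ∞ (dsc R f G) ∧ Form univ fun x => dsc R f G x • dar R f x := by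
  have hO := (h.md_cpt hK hK').isOpen_compl
  refine ⟨fun x => ?_, form_of_local (fun x _ v => by rw [smul_apply, smul_apply, dar_alt,
    smul_zero]) fun x _ => ?_⟩
  · by_cases hx : x ∈ f '' K
    · obtain ⟨z, hz, rfl⟩ := hx
      obtain ⟨φ, h1, h2, h3, h4⟩ := h.md_chart (hK' hz)
      have h5 : f z ∈ φ.source := h4 ▸ φ.map_target h2
      refine (hG.contDiffAt.contMDiffAt.comp (f z) (h1.fnAt h5)).congr_of_eventuallyEq ?_
      filter_upwards [φ.open_source.mem_nhds h5] with y hy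
      have h6 : f (φ y) = y := h4 ▸ φ.left_inv hy
      rw [Function.comp_apply, ← h.dsc_up G (h3 (φ.map_source hy)), h6]
    · refine (contMDiffAt_const (c := (0 : ℝ))).congr_of_eventuallyEq ?_
      filter_upwards [hO.mem_nhds hx] with y hy
      exact h.dsc_zero h0 hy
  · by_cases hx : x ∈ f '' K
    · obtain ⟨z, hz, rfl⟩ := hx
      obtain ⟨φ, h1, h2, h3, h4⟩ := h.md_chart (hK' hz)
      have h5 : φ (f z) = z := h4 ▸ φ.right_inv h2
      refine ⟨φ, h1, h4 ▸ φ.map_target h2, ?_⟩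
      rw [h5, h4]
      refine (cd_fsmul (G := Bil E ℝ) hG.contDiffAt (contDiffAt_const (c := area1))
        ).congr_of_eventuallyEq ?_
      filter_upwards [(mon_isOpen_pb R).mem_nhds (hK' hz)] with y hy
      exact h.pull_up G hy
    · refine ⟨chartAt E x, isChart_chartAt x, mem_chart_source E x,
        (contDiffAt_const (c := (0 : Bil E ℝ))).congr_of_eventuallyEq ?_⟩
      filter_upwards [(isOpen_dom x hO).mem_nhds (mem_dom (mem_chart_source E x) hx)] with y hy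
      refine bil_ext fun v w => ?_
      have := h.dsc_zero h0 hy.2
      rw [pull2_apply]
      exact (congrArg (fun t : ℝ => (t • dar R f (par x y)) _ _) this).trans (by simp)

omit h in
theorem md_box {a b d : ℝ} (ha : 0 < a) (hb : b < R) (hd : d < R) :
    IsCompact {z : E | a ≤ ‖z.1‖ ∧ ‖z.1‖ ≤ b ∧ ‖z.2‖ ≤ d} ∧
      {z : E | a ≤ ‖z.1‖ ∧ ‖z.1‖ ≤ b ∧ ‖z.2‖ ≤ d} ⊆ pb R := by
  constructor
  · refine (isCompact_closedBall (0 : E) R).of_isClosed_subset
      ((isClosed_le continuous_const continuous_fst.norm).inter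
        ((isClosed_le continuous_fst.norm continuous_const).inter
          (isClosed_le continuous_snd.norm continuous_const))) fun z hz => ?_
    exact mem_closedBall_zero_iff.2 (max_le (hz.2.1.trans hb.le) (hz.2.2.trans hd.le))
  · refine fun z hz => ⟨mem_ball_zero_iff.2 (max_lt (hz.2.1.trans_lt hb) (hz.2.2.trans_lt hd)), ?_⟩
    rintro rfl
    exact absurd hz.1 (by simpa using ha)

theorem desc (hk : MCut r r' k) (hk' : MCut s s' k') (hr : r' < R)
    (hs : s' < R) : ∃ (U : Set X) (θ : X → ℝ) (α : X → Bil E ℝ), IsOpen U ∧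
      ContMDiff 𝓘(ℝ, E) 𝓘(ℝ, ℝ) ∞ θ ∧ tsupport θ ⊆ U ∧ Form univ α ∧
      (∀ x, ∀ y ∈ dom x U, ∀ a b c, ext2 (pull2 (par x) α) y a b c = 0) ∧
      Disc L R f k k' (fun x => θ x • α x) ∧ (∀ x ∉ f '' pb R, α x = 0) ∧
      (∀ z ∈ pb R, ∃ t : ℝ, pull2 f α z = (t * (-deriv k (‖z.1‖ ^ 2) / Real.pi)) • area1 ∧
        (‖z.2‖ ≤ s' → t = 1)) ∧
      ∀ z ∈ pb R, r ≤ ‖z.1‖ → ‖z.1‖ ≤ r' → ∀ᶠ y in 𝓝 z, θ (f y) = k' (‖y.2‖ ^ 2) := by
  have r0 := hk.pos
  have r1 := hk.lt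
  have s0 := hk'.pos
  have s1 := hk'.lt
  obtain ⟨b1, hb1, hb⟩ := exists_between hr
  obtain ⟨b2, hb2, hb3⟩ := exists_between hb
  obtain ⟨d1, hd1, hd⟩ := exists_between hs
  obtain ⟨d2, hd2, hd3⟩ := exists_between hd
  obtain ⟨p, hp⟩ := md_cut (r := r / 3) (r' := r / 2) (by positivity) (by linarith)
  obtain ⟨q, hq⟩ := md_cut (r := b1) (by linarith) hb2
  obtain ⟨u, hu⟩ := md_cut (r := d1) (by linarith) hd2
  have n1 : ContDiff ℝ ∞ fun z : E => ‖z.1‖ ^ 2 := (contDiff_norm_sq ℝ).comp contDiff_fst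
  have n2 : ContDiff ℝ ∞ fun z : E => ‖z.2‖ ^ 2 := (contDiff_norm_sq ℝ).comp contDiff_snd
  have dk : ContDiff ℝ ∞ fun t => -deriv k t / Real.pi :=
    (contDiff_infty_iff_deriv.1 hk.sm).2.neg.div_const _
  have lt2 : ∀ {x y : ℝ}, 0 ≤ x → x < y → x ^ 2 < y ^ 2 := fun h1 h2 => by nlinarith
  have le2 : ∀ {x y : ℝ}, 0 ≤ x → x ≤ y → x ^ 2 ≤ y ^ 2 := fun h1 h2 => by nlinarith
  set G : ℝ → ℝ → ℝ := fun a b => k' b * (q a * (1 - p a)) with hG
  set H : ℝ → ℝ → ℝ := fun a b => u b * (-deriv k a / Real.pi) with hH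
  have sG : ContDiff ℝ ∞ fun z : E => G (‖z.1‖ ^ 2) (‖z.2‖ ^ 2) :=
    (hk'.sm.comp n2).mul ((hq.sm.comp n1).mul (contDiff_const.sub (hp.sm.comp n1)))
  have sH : ContDiff ℝ ∞ fun z : E => H (‖z.1‖ ^ 2) (‖z.2‖ ^ 2) := (hu.sm.comp n2).mul (dk.comp n1)
  obtain ⟨k1, k2⟩ := md_box (R := R) (a := r / 3) (by positivity) hb3 hs
  obtain ⟨k3, k4⟩ := md_box (R := R) r0 hr hd3
  have zG : ∀ z ∈ pb R, z ∉ {z : E | r / 3 ≤ ‖z.1‖ ∧ ‖z.1‖ ≤ b2 ∧ ‖z.2‖ ≤ s'} →
      G (‖z.1‖ ^ 2) (‖z.2‖ ^ 2) = 0 := fun z _ hz => by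
    simp only [mem_ofPred_eq, not_and_or, not_le] at hz
    rcases hz with hz | hz | hz
    · simp [hG, hp.one _ (le2 (norm_nonneg _) hz.le)]
    · simp [hG, hq.zero _ (le2 (by linarith) hz.le)]
    · simp [hG, hk'.zero _ (le2 (by linarith) hz.le)]
  have zH : ∀ z ∈ pb R, z ∉ {z : E | r ≤ ‖z.1‖ ∧ ‖z.1‖ ≤ r' ∧ ‖z.2‖ ≤ d2} →
      H (‖z.1‖ ^ 2) (‖z.2‖ ^ 2) = 0 := fun z _ hz => by
    simp only [mem_ofPred_eq, not_and_or, not_le] at hz
    rcases hz with hz | hz | hz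
    · simp [hH, md_deriv hk (Or.inl (lt2 (norm_nonneg _) hz))]
    · simp [hH, md_deriv hk (Or.inr (lt2 (by linarith) hz))]
    · simp [hH, hu.zero _ (le2 (by linarith) hz.le)]
  have one : ∀ x : ℝ, r / 2 < x → x < b1 → q (x ^ 2) * (1 - p (x ^ 2)) = 1 := fun x h1 h2 => by
    rw [hq.one _ (le2 (by linarith) h2.le), hp.zero _ (le2 (by linarith) h1.le)]; ring
  have oD : IsOpen (pb R ∩ {z : E | ‖z.2‖ < d1}) :=
    (mon_isOpen_pb R).inter (isOpen_lt continuous_snd.norm continuous_const)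
  have fH := (h.dsc_smooth sH k3 k4 zH).2
  refine ⟨f '' (pb R ∩ {z : E | ‖z.2‖ < d1}), dsc R f G, fun x => dsc R f H x • dar R f x,
    isOpen_image_etale oD fun y hy => ⟨(h.smooth y hy.1).of_le (by simp), h.md_inv hy.1⟩,
    (h.dsc_smooth sG k1 k2 zG).1, ?_, fH, ?_, ⟨?_, ⟨_, (h.md_cpt k3 k4).isOpen_compl, ?_, ?_⟩, ?_,
    fun z hz => ?_⟩, fun x hx => bil_ext fun v w => by simp [dsc_off hx],
    fun z hz => ⟨u (‖z.2‖ ^ 2), h.pull_up H hz, fun h1 => hu.one _ (le2 (norm_nonneg _)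
      (by linarith))⟩, fun z hz h1 h2 => ?_⟩
  · refine (closure_minimal (fun x hx => ?_) (h.md_cpt k1 k2)).trans
      (image_mono fun z hz => ⟨k2 hz, hz.2.2.trans_lt hd1⟩)
    by_contra h1
    exact hx (h.dsc_zero zG h1)
  · intro x y hy a b d
    obtain ⟨z, hz, h1⟩ := hy.2
    obtain ⟨φ, h2, h3, -, h4⟩ := h.md_chart hz.1
    have h5 : φ (par x y) = z := by rw [← h1]; exact h4 ▸ φ.right_inv h3
    have h6 : pull2 f (fun x => dsc R f H x • dar R f x) =ᶠ[𝓝 z]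
        fun w : E => (-deriv k (‖w.1‖ ^ 2) / Real.pi) • area1 := by
      filter_upwards [oD.mem_nhds hz] with w hw
      rw [h.pull_up H hw.1, hH]
      simp only [hu.one _ (le2 (norm_nonneg _) (le_of_lt hw.2)), one_mul]
    rw [h2.ext2_loc ((par_smAt hy).of_le two_le) (by rw [← h1]; exact h4 ▸ φ.map_target h3)
      (fH.1 _ (mem_univ _)) (by
        rw [h5, h4]
        exact cd_diff (G := Bil E ℝ) (fH.smooth isOpen_univ (h.smooth z hz.1) (mem_univ _))),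
      h5, h4, ext2_congr h6]
    exact md_closed (g := fun w : ℂ => -deriv k (‖w‖ ^ 2) / Real.pi)
      ((dk.comp (contDiff_norm_sq ℝ)).differentiable (by simp) _) _ _ _
  · exact fH.fsmul isOpen_univ (h.dsc_smooth sG k1 k2 zG).1.contMDiffOn
  · rintro x hx ⟨z, hz, rfl⟩
    exact h.maps (k4 hz) hx
  · exact fun x hx => bil_ext fun v w => by simp [h.dsc_zero zH hx]
  · exact fun x hx => bil_ext fun v w => by simp [dsc_off hx]
  · simp only [smul_smul, ← dsc_mul]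
    rw [h.pull_up _ hz, tf]
    congr 1
    simp only [hG, hH]
    by_cases h1 : ‖z.1‖ < r ∨ r' < ‖z.1‖
    · rw [md_deriv hk (h1.imp (lt2 (norm_nonneg _)) (lt2 (by linarith)))]; simp
    · rw [not_or, not_lt, not_lt] at h1
      rw [one _ (by linarith) (by linarith)]
      rcases le_total ‖z.2‖ s' with h2 | h2
      · rw [hu.one _ (le2 (norm_nonneg _) (by linarith))]; ring
      · rw [hk'.zero _ (le2 (by linarith) h2)]; ring
  · filter_upwards [(mon_isOpen_pb R).mem_nhds hz,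
      (isOpen_lt continuous_const continuous_fst.norm).mem_nhds (show r / 2 < ‖z.1‖ by linarith),
      (isOpen_lt continuous_fst.norm continuous_const).mem_nhds (show ‖z.1‖ < b1 by linarith)]
      with y h3 h4 h5
    rw [h.dsc_up G h3, hG]
    simp only [one _ h4 h5, mul_one]

end Up

end Pool.Agent.Lib.MP_1c0d65_gt.PW
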