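import Pool.Agent.Lib.MP_1c0d65_gt.E.PLb
import Pool.Agent.Lib.MP_1c0d65_gt.E.Glue
import Pool.Agent.Lib.MP_1c0d65_gt.E.MonDef
import Pool.Agent.Lib.MP_1c0d65_gt.PW.Reparam

/-! The geometric dual of an embedded sphere. -/

set_option autoImplicit false

open scoped Manifold ContDiff Topology ComplexConjugate
open Set MeasureTheory Filter Metric

noncomputable section

namespace Pool.Agent.Lib.MP_1c0d65_gt.PW

variable {X : Type} [TopologicalSpace X] [ChartedSpace E X] [IsManifold 𝓘(ℝ, E) ∞ X]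
  [T2Space X] [CompactSpace X] [MeasurableSpace X] [BorelSpace X] {c : Ctx X} {O : Orb c}

theorem Eqn.ml_ev {C : OC O} {P : X → ℂ} {x : X} (h : Eqn C P x) (hx : x ∈ C.img) (hW : x ∈ O.W) :
    ∀ᶠ y in 𝓝 x, Eqn C P y := by
  obtain ⟨v, hv⟩ := h.pos hx
  set e := chartAt E x
  have he : IsChart e := isChart_chartAt _
  have m0 : x ∈ e.source := mem_chart_source E _
  have key : ∀ y ∈ e.source, FnAt ∞ P y → ∀ n,
      fderiv ℝ (P ∘ e.symm) (e y) n = dfn P y (dif e.symm (e y) n) := fun y hy py n => by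
    have e1 : e.symm (e y) = y := e.left_inv hy
    rw [fderiv_fn_comp (g := P) (f := e.symm) (y := e y) (by rw [e1]; exact py.md)
      ((he.smAt (e.map_source hy)).dfAt (by simp)), e1]
    rfl
  have key' : ∀ y ∈ e.source, dif e.symm (e y) (pullJ e.symm O.J (e y) v) =
      O.J y (dif e.symm (e y) v) := fun y hy => by
    rw [dif_pullJ (he.inv (e.map_source hy)), e.left_inv hy]
  have ht := e.map_source m0
  have e0 : e.symm (e x) = x := e.left_inv m0
  have hp : ContinuousAt (fun y => fderiv ℝ (P ∘ e.symm) (e y)) x :=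
    ((FnAt.comp_plot (e0.symm ▸ h.fn) (he.smAt ht)).fderiv_right top_le).continuousAt.comp
      (e.continuousAt m0)
  have hj : ContinuousAt (fun y => pullJ e.symm O.J (e y)) x :=
    (O.tame.smooth O.isOpen_W (he.smAt ht) (e0.symm ▸ hW) (he.inv ht)).continuousAt.comp
      (e.continuousAt m0)
  have hc : ContinuousAt (fun y => (conj (fderiv ℝ (P ∘ e.symm) (e y) v) *
      fderiv ℝ (P ∘ e.symm) (e y) (pullJ e.symm O.J (e y) v)).im) x :=
    Complex.continuous_im.continuousAt.comp ((Complex.continuous_conj.continuousAt.comp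
      (hp.clm_apply continuousAt_const)).mul (hp.clm_apply (hj.clm_apply continuousAt_const)))
  have h0 : 0 < (conj (fderiv ℝ (P ∘ e.symm) (e x) v) *
      fderiv ℝ (P ∘ e.symm) (e x) (pullJ e.symm O.J (e x) v)).im := by
    rw [key x m0 h.fn, key x m0 h.fn, key' x m0,
      show dif e.symm (e x) = ContinuousLinearMap.id ℝ E from dif_par_self _]
    exact hv
  filter_upwards [h.sm.eventually_nhds, h.zero.eventually_nhds, e.open_source.mem_nhds m0,
    continuousAt_const.eventually_lt hc h0] with y y1 y2 y3 y4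
  refine ⟨y1, y2, fun _ => ⟨dif e.symm (e y) v, ?_⟩⟩
  rwa [key y y3 y1.self_of_nhds, key y y3 y1.self_of_nhds, key' y y3] at y4

theorem Eqn.ml_img {C C' : OC O} {P : X → ℂ} {x : X} (h : Eqn C P x) (e : C'.img = C.img) :
    Eqn C' P x := ⟨h.sm, e ▸ h.zero, e ▸ h.pos⟩

variable {J : X → E →L[ℝ] E} {hJ : Tame univ c.om J}

theorem ml_mem (x : X) : x ∈ (Orb.triv c J hJ).W := fun h =>
  (mem_iUnion.1 h).elim fun i _ => i.elim0

theorem OC.ml_F (C : OC (Orb.triv c J hJ)) (a : ℂ) : a ∉ C.F := fun h =>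
  (C.pu a h).elim fun i _ => i.elim0

/-- The point at infinity is the only bad point. -/
def OC.mlBad (C : OC (Orb.triv c J hJ)) (h : C.Emb) : Bad C where
  Z := ∅
  B := {C.v 0}
  closed := isClosed_singleton
  hL := iUnion_subset fun i => i.elim0
  v0 := rfl
  hF := fun a ha => (C.ml_F a ha).elim
  hZ := fun s hs => iff_of_false (fun e => h.2.1 ⟨s, hs, e⟩) (Finset.notMem_empty s)
  inj := fun a _ b _ => h.1 (C.ml_F a) (C.ml_F b)
  imm := fun s _ => h.2.2.1 s (C.ml_F s)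

theorem OC.ml_loc (C : OC (Orb.triv c J hJ)) (h : C.Emb) :
    ∃ (η : X → Bil E ℝ) (ψ : X → E →L[ℝ] ℝ), Closed η ∧ ∀ x, ∃ (V : Set X) (P : X → ℂ)
      (a : X → E →L[ℝ] ℝ), IsOpen V ∧ x ∈ V ∧ (∀ y ∈ V, Eqn C P y) ∧ IsD V a ((2 * Real.pi) • η) ∧
      ∀ y ∈ V, y ∉ C.img → ψ y = dA P y - a y := by
  obtain ⟨P, hP⟩ := ((C.mob (C.ml_F 0)).mlBad (C.mob_emb _ h)).exists_eqn (Finset.notMem_empty 0)
  rw [show (C.mob (C.ml_F 0)).u 0 = C.v 0 from C.mu0_zero 0] at hP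
  have hv := (hP.ml_img (C.mob_img _).symm).ml_ev (Or.inr rfl) (ml_mem _)
  obtain ⟨V, hV, oV, mV⟩ := _root_.eventually_nhds_iff.1 hv
  obtain ⟨Λ⟩ := Site.exists_cur (D := C.mlBad h) ⟨V, oV, singleton_subset_iff.2 mV, fun _ => P,
    fun x hx _ => hV x hx, fun x _ _ => .of_forall fun y =>
      ⟨1, one_ne_zero, .of_forall fun w => (one_mul _).symm⟩⟩
  refine ⟨Λ.η, Λ.ψ, Λ.closed, fun x => ?_⟩
  by_cases hx : x = C.v 0
  · refine ⟨Λ.V, P, 0, Λ.isOpenV, Λ.subV hx, fun y hy => hV y (Λ.VV hy),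
      isD_zero.congr Λ.isOpenV (fun _ _ => rfl) fun y hy => ?_, fun y hy hn => ?_⟩
    · rw [Pi.smul_apply, Λ.η0 y hy]
      exact bil_ext fun v w => by simp
    · have m := Λ.mem y fun e => hn (Or.inr e)
      rw [Λ.pot y y m hn, (Λ.near y hy).2.1, (Λ.near y hy).2.2 y m]
      rfl
  · exact ⟨Λ.U x, Λ.P x, Λ.a x, Λ.isOpen x, Λ.mem x hx, Λ.eqn x, Λ.isD x, Λ.pot x⟩

theorem exists_mlel {J hJ} (S : OC (Orb.triv c J hJ)) (h : S.Emb) :
    ∃ η ψ, MLel c S.u S.img η ψ := by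
  obtain ⟨η, ψ, hη, H⟩ := S.ml_loc h
  obtain ⟨χ, χ0, χ1, -⟩ := exists_contMDiffMap_zero_one_nhds_of_isClosed (n := ⊤) 𝓘(ℝ, E)
    (isClosed_singleton (x := S.u 0)) (isClosed_singleton (x := S.v 0))
    (disjoint_singleton.2 fun e => h.2.1 ⟨0, S.ml_F 0, e⟩)
  rw [nhdsSet_singleton] at χ0 χ1
  have pl : ∀ (U : Set X) (θ : X → ℝ) (α : X → Bil E ℝ), IsOpen U →
      ContMDiff 𝓘(ℝ, E) 𝓘(ℝ, ℝ) ∞ θ → tsupport θ ⊆ U → Form univ α →
      (∀ x, ∀ y ∈ dom x U, ∀ a b c, ext2 (pull2 (par x) α) y a b c = 0) →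
      2 * Real.pi * c.Q (fun x => θ x • η x) α =
        c.Q (fun x => w11 (dfn θ x) (ψ x)) α + 2 * Real.pi * per S.u fun x => θ x • α x := by
    intro U θ α hU hθ sθ hα cα
    have s₁ : ContMDiff 𝓘(ℝ, E) 𝓘(ℝ, ℝ) ∞ fun x => χ x * θ x := χ.contMDiff.mul hθ
    have s₂ : ContMDiff 𝓘(ℝ, E) 𝓘(ℝ, ℝ) ∞ fun x => (1 - χ x) * θ x :=
      (contMDiff_const.sub χ.contMDiff).mul hθ
    have p₁ := ((S.mob (S.ml_F 0)).mlBad (S.mob_emb _ h)).pl (ψ := ψ) hη.1 (fun x _ =>
      let ⟨V, P, a, h1, h2, h3, h4, h5⟩ := H x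
      ⟨V, P, a, h1, h2, fun y hy => (h3 y hy).ml_img (S.mob_img _), h4, fun y hy hn =>
        h5 y hy (S.mob_img (S.ml_F 0) ▸ hn)⟩) hU s₁ (subset_inter (subset_compl_singleton_iff.2
      (S.mob_v0 (S.ml_F 0) ▸ notMem_tsupport_iff_eventuallyEq.2 (χ0.mono fun x hx => by simp [hx])))
      (tsupport_mul_subset_right.trans sθ)) hα cα
    have p₂ := (S.mlBad h).pl hη.1 (fun x _ => H x) hU s₂ (subset_inter
      (subset_compl_singleton_iff.2 (notMem_tsupport_iff_eventuallyEq.2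
        (χ1.mono fun x hx => by simp [hx]))) (tsupport_mul_subset_right.trans sθ)) hα cα
    have p₃ : PLf S η ψ α fun x => χ x * θ x := ⟨s₁, p₁.sup, p₁.int, by
      rw [← S.mob_per (S.ml_F 0) (hα.fsmul isOpen_univ s₁.contMDiffOn)]
      exact p₁.eq⟩
    have := (p₃.add hη.1 hα p₂).eq
    rwa [show (fun x => χ x * θ x + (1 - χ x) * θ x) = θ from funext fun x => by ring,
      show (fun x => (χ x * θ x + (1 - χ x) * θ x) • η x) = fun x => θ x • η x from
        funext fun x => by congr 1; ring,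
      show (fun x => (χ x * θ x + (1 - χ x) * θ x) • α x) = fun x => θ x • α x from
        funext fun x => by congr 1; ring] at this
  refine ⟨η, ψ, hη, fun α hα => ?_, fun x => ?_, pl⟩
  · have := pl univ (fun _ => 1) α isOpen_univ contMDiff_const (subset_univ _) hα.1 hα.2
    have z : (fun x => w11 (dfn (fun _ : X => (1 : ℝ)) x) (ψ x)) = 0 := funext fun x => by
      rw [show dfn (fun _ : X => (1 : ℝ)) x = 0 from mfderiv_const]
      exact bil_ext fun v w => by simp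
    have o : ∀ β : X → Bil E ℝ, (fun x => (1 : ℝ) • β x) = β := fun β => funext fun x =>
      one_smul ℝ (β x)
    rw [o, o, z, Q_zero_left, zero_add] at this
    exact mul_left_cancel₀ (by positivity) this
  · obtain ⟨U, P, a, h1, h2, h3, h4, h5⟩ := H x
    exact ⟨U, P, a, h1, h2, fun y hy => (h3 y hy).fn.contMDiffWithinAt, h4, fun y hy =>
      ⟨(h3 y hy.1).ne hy.2, fun v => by rw [h5 y hy.1 hy.2, sub_apply, dA_apply]⟩⟩

end Pool.Agent.Lib.MP_1c0d65_gt.PW
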