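import Pool.Agent.Lib.MP_1c0d65_gt.E.MonDef

/-! The uniformising maps in both orders of the coordinates, and cut-offs. -/

set_option autoImplicit false

open scoped Manifold ContDiff Topology
open Set Filter Metric

noncomputable section

namespace Pool.Agent.Lib.MP_1c0d65_gt.PW

variable {X : Type} [TopologicalSpace X] [ChartedSpace E X] [IsManifold 𝓘(ℝ, E) ∞ X]
  [T2Space X] [CompactSpace X] [MeasurableSpace X] [BorelSpace X] {c : Ctx X} {O : Orb c}

theorem up_swap_pb {R : ℝ} {z : E} (hz : z ∈ pb R) : z.swap ∈ pb R :=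
  ⟨by simpa [Prod.norm_def, and_comm] using hz.1, fun h => hz.2 (by
    rw [← Prod.swap_swap z, mem_singleton_iff.1 h]; rfl)⟩

theorem Orb.up_tame (O : Orb c) (i : Fin O.n) {z : E} (hz : z ∈ pb O.R) {v : E} (hv : v ≠ 0) :
    0 < pull2 (O.Pi i) c.om z v (Complex.I • v) := by
  rw [pull2_apply, O.hol i z hz]
  exact (O.tame.1 _ (O.maps i hz) _).2 fun h => hv (O.inj i z hz (h.trans (map_zero _).symm))

theorem Orb.up (O : Orb c) (i : Fin O.n) :
    Up c (⋃ i, O.L i) (O.N i) (eps (O.N i)) (eps (O.N i) ^ O.a i) O.R (O.Pi i) where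
  hN := O.N_ne i
  prim := mon_prim (O.N_ne i)
  root := by rw [← pow_mul, mul_comm, pow_mul, (mon_prim (O.N_ne i)).pow_eq_one, one_pow]
  smooth z hz := O.Pi_cm i hz
  inj := O.inj i
  pos z hz := wedge_pos (fun v => c.om_alt _ _) fun v hv => O.up_tame i hz hv
  fibre z hz z' hz' := by simpa [gen, dia, pow_mul] using O.fibre i i z hz z' hz'
  closed := isClosed_iUnion_of_finite O.closed
  maps := O.maps i

theorem Orb.up' (O : Orb c) (i : Fin O.n) :
    Up c (⋃ i, O.L i) (O.N i) (eps (O.N i) ^ O.a i) (eps (O.N i)) O.R (O.Pi i ∘ Prod.swap) := by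
  have hs (z : E) : HasFDerivAt Prod.swap
      (ContinuousLinearEquiv.prodComm ℝ ℂ ℂ : E →L[ℝ] E) z :=
    (ContinuousLinearEquiv.prodComm ℝ ℂ ℂ).hasFDerivAt
  have hd (z : E) (hz : z ∈ pb O.R) (v : E) :
      dif (O.Pi i ∘ Prod.swap) z v = dif (O.Pi i) z.swap v.swap := by
    rw [brk_dif_comp (brk_md (O.Pi_cm i (up_swap_pb hz))) (hs z).differentiableAt, (hs z).fderiv]
    rfl
  refine ⟨O.N_ne i, (mon_prim (O.N_ne i)).pow_of_coprime _ (O.a_coprime i),
    (mon_prim (O.N_ne i)).pow_eq_one, fun z hz => SmAt.comp (O.Pi_cm i (up_swap_pb hz))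
      (ContinuousLinearEquiv.prodComm ℝ ℂ ℂ).contDiff.contDiffAt, fun z hz v w h => ?_,
    fun z hz => wedge_pos (fun v => c.om_alt _ _) fun v hv => ?_, fun z hz z' hz' => ?_,
    isClosed_iUnion_of_finite O.closed, fun z hz => O.maps i (up_swap_pb hz)⟩
  · rw [hd z hz, hd z hz] at h
    exact Prod.swap_injective (O.inj i _ (up_swap_pb hz) h)
  · rw [pull2_apply, hd z hz, hd z hz]
    exact O.up_tame i (up_swap_pb hz) fun h => hv (by rw [← Prod.swap_swap v, h]; rfl)
  · simpa [gen, dia, pow_mul, Prod.ext_iff, and_comm] using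
      O.fibre i i _ (up_swap_pb hz) _ (up_swap_pb hz')

theorem exists_mcut {r r' : ℝ} (h0 : 0 < r) (h : r < r') : ∃ k, MCut r r' k := by
  have h1 : 0 < r' ^ 2 - r ^ 2 := by nlinarith
  refine ⟨fun t => Real.smoothTransition ((r' ^ 2 - t) / (r' ^ 2 - r ^ 2)), h0, h,
    Real.smoothTransition.contDiff.comp ((contDiff_const.sub contDiff_id).div_const _),
    fun t ht => Real.smoothTransition.one_of_one_le ((one_le_div h1).2 (by linarith)),
    fun t ht => Real.smoothTransition.zero_of_nonpos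
      (div_nonpos_of_nonpos_of_nonneg (by linarith) h1.le)⟩

end Pool.Agent.Lib.MP_1c0d65_gt.PW
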