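import Pool.Agent.Lib.MP_1c0d65_gt.E.MonLimA
import Pool.Agent.Lib.MP_1c0d65_gt.E.MonUp
import Pool.Agent.Lib.MP_1c0d65_gt.E.OSec

/-! The periods of the two test forms over the limit curves. -/

set_option autoImplicit false
set_option linter.unusedSectionVars false

open scoped Manifold ContDiff Topology
open Set MeasureTheory Filter Metric Complex

noncomputable section

namespace Pool.Agent.Lib.MP_1c0d65_gt.PW

open W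

variable {X : Type} [TopologicalSpace X] [ChartedSpace E X] [IsManifold 𝓘(ℝ, E) ∞ X]
  [T2Space X] [CompactSpace X] [MeasurableSpace X] [BorelSpace X] {c : Ctx X} {O : Orb c}
  {r r' s s' : ℝ} {k k' : ℝ → ℝ}

/-- The test form vanishes off a small polydisc. -/
theorem Disc.lim_zero {L : Set X} {N : ℕ} {e e' : ℂ} {R R1 : ℝ} {f : E → X} {τ : X → Bil E ℝ}
    (hτ : Disc L R f k k' τ) (hU : Up c L N e e' R f) (hk : MCut r r' k) (hk' : MCut s s' k')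
    (h1 : r' < R1) (h2 : s' < R1) {x : X} (hx : x ∉ f '' pb R1) : τ x = 0 := by
  by_cases h : x ∈ f '' pb R
  swap
  · exact hτ.off x h
  obtain ⟨z, hz, rfl⟩ := h
  have h3 : R1 ≤ ‖z‖ := not_lt.1 fun h => hx ⟨z, ⟨mem_ball_zero_iff.2 h, hz.2⟩, rfl⟩
  have h4 : tf k k' z = 0 := by
    rcases le_max_iff.1 h3 with h | h
    · rw [tf, hk.deriv_gt (pow_lt_pow_left₀ (h1.trans_le h) (hk.pos.trans hk.lt).le two_ne_zero)]
      simp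
    · rw [tf, hk'.zero _ (pow_le_pow_left₀ (hk'.pos.trans hk'.lt).le (h2.le.trans h) 2), mul_zero]
  have h5 := (LinearMap.injective_iff_surjective (f := (dif f z : E →ₗ[ℝ] E))).1 (hU.inj z hz)
  refine bil_ext fun v w => ?_
  obtain ⟨v, rfl⟩ := h5 v
  obtain ⟨w, rfl⟩ := h5 w
  have h6 := congrArg (fun B : Bil E ℝ => B v w) (hτ.up z hz)
  simpa [h4] using h6

theorem OC.lim_sum (C : OC O) {τ : X → Bil E ℝ} (h1 : Form univ τ) (h2 : O.Test τ)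
    {B : C.F → Set ℂ} (hB : ∀ a, MeasurableSet (B a)) (hd : Pairwise (Function.onFun Disjoint B))
    (out : ∀ t ∉ C.F, (∀ a, t ∉ B a) → τ (C.u t) = 0) :
    per C.u τ = ∑ a, ∫ t in B a, pull2 C.u τ t 1 I := by
  rw [← integral_iUnion_fintype hB hd fun a => (C.integrable h1 (Or.inl h2)).integrableOn,
    setIntegral_eq_integral_of_ae_compl_eq_zero (C.ae_F.mono fun t ht h => ?_), per]
  rw [pull2_apply, out t ht fun a ha => h (mem_iUnion.2 ⟨a, ha⟩)]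
  rfl

theorem lim_root {N : ℕ} (hN : N ≠ 0) {a t : ℂ} {ρ : ℝ} (h : 0 < ρ) (h0 : t ≠ a)
    (h1 : ‖t - a‖ < ρ ^ N) : ∃ ζ : ℂ, ζ ≠ 0 ∧ ‖ζ‖ < ρ ∧ t = a + ζ ^ N := by
  obtain ⟨ζ, hζ⟩ := IsAlgClosed.exists_pow_nat_eq (t - a) (Nat.pos_of_ne_zero hN)
  refine ⟨ζ, fun e => h0 ?_, ?_, by rw [hζ, add_sub_cancel]⟩
  · rw [e, zero_pow hN] at hζ
    exact sub_eq_zero.1 hζ.symm
  · rw [← hζ, norm_pow] at h1
    exact lt_of_pow_lt_pow_left₀ N h.le h1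

/-- One branch `w`, read through `f`. -/
theorem OC.lim_one (C : OC O) {L : Set X} {N : ℕ} {e e' a : ℂ} {R ρ : ℝ} {f : E → X}
    {τ : X → Bil E ℝ} (hτ : Disc L R f k k' τ) (hU : Up c L N e e' R f) (hk : MCut r r' k)
    (hρ : 0 < ρ) {w : ℂ → E} (w0 : w 0 = 0) (an : ∀ ζ, ‖ζ‖ < 2 * ρ → AnalyticAt ℂ w ζ) {b : ℕ}
    (hw : ∀ ζ, ζ ≠ 0 → ‖ζ‖ < 2 * ρ → w ζ ∈ pb R ∧ f (w ζ) = C.u (a + ζ ^ N) ∧ a + ζ ^ N ∉ C.F ∧
      (w (eps N * ζ)).1 = eps N ^ b * (w ζ).1) :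
    ((∀ ζ, ζ ≠ 0 → ‖ζ‖ < 2 * ρ → tf k k' (w ζ) = 0) →
      ∫ t in {t | 0 < ‖t - a‖ ∧ ‖t - a‖ < ρ ^ N}, pull2 C.u τ t 1 I = 0) ∧
    ((∀ ζ, ζ ≠ 0 → ‖ζ‖ < 2 * ρ → (w ζ).1 ≠ 0 ∧ (‖(w ζ).1‖ ≤ r' → k' (‖(w ζ).2‖ ^ 2) = 1)) →
      (∀ ζ, ‖ζ‖ = ρ → r' ≤ ‖(w ζ).1‖) → ∃ n : ℕ, n ≡ b [MOD N] ∧
      (N : ℝ) * ∫ t in {t | 0 < ‖t - a‖ ∧ ‖t - a‖ < ρ ^ N}, pull2 C.u τ t 1 I = n) := by
  have hN := hU.hN
  have cd : ∀ ζ, ‖ζ‖ < 2 * ρ → ContDiffAt ℝ 2 w ζ := fun ζ h =>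
    ((an ζ h).contDiffAt (n := 2)).restrict_scalars ℝ
  have key : ∀ ζ : ℂ, ζ ≠ 0 → ‖ζ‖ < 2 * ρ → ‖(N : ℂ) * ζ ^ (N - 1)‖ ^ 2 *
      pull2 C.u τ (a + ζ ^ N) 1 I = tf k k' (w ζ) *
        ((fderiv ℝ (fun t => (w t).1) ζ 1).re * (fderiv ℝ (fun t => (w t).1) ζ I).im -
        (fderiv ℝ (fun t => (w t).1) ζ I).re * (fderiv ℝ (fun t => (w t).1) ζ 1).im) := by
    intro ζ z0 z1
    obtain ⟨a1, -, a3, -⟩ := hw ζ z0 z1
    have d := (cd ζ z1).differentiableAt (by simp)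
    have e1 : (C.u ∘ fun t => a + t ^ N) =ᶠ[𝓝 ζ] f ∘ w := by
      filter_upwards [isOpen_compl_singleton.mem_nhds z0,
        isOpen_ball.mem_nhds (mem_ball_zero_iff.2 z1)] with t t0 t1
      exact (hw t t0 (mem_ball_zero_iff.1 t1)).2.1.symm
    rw [← brk_dens (φ := fun t => a + t ^ N) (C.cm a3) ((hasDerivAt_pow N ζ).const_add a) hτ.form,
      brk_pull2_congr e1, brk_pull2_comp (brk_md (hU.smooth _ a1)) d, hτ.up _ a1,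
      d.hasFDerivAt.fst.fderiv]
    rfl
  refine ⟨fun h => setIntegral_eq_zero_of_forall_eq_zero fun t ht => ?_, fun h h' => ?_⟩
  · obtain ⟨ζ, z0, z1, rfl⟩ := lim_root hN hρ (sub_ne_zero.1 (norm_pos_iff.1 ht.1)) ht.2
    have := key ζ z0 (by linarith)
    rw [h ζ z0 (by linarith), zero_mul] at this
    simpa [hN, z0] using this
  have a0 : AnalyticAt ℂ (fun t => (w t).1) 0 := analyticAt_fst.comp (an 0 (by simpa using hρ))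
  have ev : ∀ᶠ ζ in 𝓝 (0 : ℂ), ‖ζ‖ < 2 * ρ :=
    continuous_norm.continuousAt.eventually (gt_mem_nhds (by simpa using hρ))
  obtain ⟨n, g, g1, g0, g2⟩ := wei_ord a0 fun e => by
    obtain ⟨ζ, b1, b2⟩ := (((e.and ev).filter_mono nhdsWithin_le_nhds).and
      (self_mem_nhdsWithin (s := {0}ᶜ))).exists
    exact (h ζ b2 b1.2).1 b1.1
  have m1 := wei_mono (θ := eps N) (c := eps N ^ b) g1.continuousAt g0 g2 (ev.mono fun ζ z1 => by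
    by_cases z0 : ζ = 0
    · simp [z0, w0]
    · exact (hw ζ z0 z1).2.2.2) (exp_ne_zero _)
  refine ⟨n, (wei_modEq hN).1 m1.1, ?_⟩
  have := lim_plane hN hk (x := fun t => (w t).1) (D := fun t => pull2 C.u τ t 1 I) (a := a) hρ
    (show ρ < 2 * ρ by linarith) (by
      simpa [w0] using a0.continuousAt.tendsto.mono_left nhdsWithin_le_nhds) (c := eps N ^ b)
    (by rw [norm_pow, mon_norm_eps hN, one_pow])
    (fun ζ z0 z1 => ⟨(cd ζ z1).fst, (h ζ z0 z1).1, (hw ζ z0 z1).2.2.2⟩) h' (wei_idx g1 g0 g2)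
    fun ζ z0 z1 => by
      rw [key ζ z0 z1, tf]
      by_cases b1 : ‖(w ζ).1‖ ≤ r'
      · rw [(h ζ z0 z1).2 b1, mul_one]
      · rw [hk.deriv_gt (pow_lt_pow_left₀ (not_le.1 b1) (hk.pos.trans hk.lt).le two_ne_zero)]
        simp
  exact_mod_cast this

/-- A branch on a disc of definite size. -/
structure LimBr (C : OC O) (a : ℂ) (i : Fin O.n) (j : ℕ) (z : ℂ → E) (ρ : ℝ) : Prop where
  z0 : z 0 = 0
  an : ∀ ζ, ‖ζ‖ < 3 * ρ → AnalyticAt ℂ z ζ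
  br : ∀ ζ, ζ ≠ 0 → ‖ζ‖ < 3 * ρ → z ζ ∈ pb O.R ∧ O.Pi i (z ζ) = C.u (a + ζ ^ O.N i) ∧
    a + ζ ^ O.N i ∉ C.F ∧ z (eps (O.N i) * ζ) = gen (O.N i) (O.a i) j (z ζ)
  dich : (∀ ζ, ‖ζ‖ < 3 * ρ → (z ζ).2 = 0) ∨ ∀ ζ, ζ ≠ 0 → ‖ζ‖ < 3 * ρ → (z ζ).2 ≠ 0

variable {C : OC O} {a : ℂ} {i : Fin O.n} {j : ℕ} {z : ℂ → E} {ρ : ℝ}

theorem lim_ev {P : ℂ → Prop} (h : ∀ᶠ ζ in 𝓝[≠] (0 : ℂ), P ζ) :
    ∀ᶠ ρ in 𝓝[>] (0 : ℝ), ∀ ζ, ζ ≠ 0 → ‖ζ‖ < 3 * ρ → P ζ := by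
  obtain ⟨δ, hδ, h⟩ := pn_iff.1 h
  filter_upwards [Ioo_mem_nhdsGT (show 0 < δ / 3 by linarith)] with ρ hρ ζ z0 z1
  exact h ζ (by simpa using z0) (by rw [sub_zero]; linarith [hρ.2])

theorem OC.Br.limBr (h : C.Br a i j z) : ∀ᶠ ρ in 𝓝[>] (0 : ℝ), LimBr C a i j z ρ := by
  have h1 := h.analyticAt
  have h0 := h.zero
  obtain ⟨δ, hδ, -, -, H⟩ := h
  have h2 : ∀ᶠ ρ in 𝓝[>] (0 : ℝ), (∀ ζ, ‖ζ‖ < 3 * ρ → (z ζ).2 = 0) ∨
      ∀ ζ, ζ ≠ 0 → ‖ζ‖ < 3 * ρ → (z ζ).2 ≠ 0 := by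
    rcases (analyticAt_snd.comp h1).eventually_eq_zero_or_eventually_ne_zero with e | e
    · refine (lim_ev (e.filter_mono nhdsWithin_le_nhds)).mono fun ρ b => Or.inl fun ζ z1 => ?_
      by_cases z0 : ζ = 0
      · simp [z0, h0]
      · exact b ζ z0 z1
    · exact (lim_ev e).mono fun ρ b => Or.inr b
  filter_upwards [h2, lim_ev (h1.eventually_analyticAt.filter_mono nhdsWithin_le_nhds),
    lim_ev (nhdsWithin_le_nhds (ball_mem_nhds (0 : ℂ) hδ)),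
    lim_ev ((mon_tendsto (O.N_ne i) a).eventually (C.ev_F a))] with ρ b1 b2 b3 b4
  refine ⟨h0, fun ζ z1 => ?_, fun ζ z0 z1 => ?_, b1⟩
  · by_cases z0 : ζ = 0
    · exact z0 ▸ h1
    · exact b2 ζ z0 z1
  · obtain ⟨c1, c2, c3⟩ := H ζ (b3 ζ z0 z1) z0
    exact ⟨c1, c2, b4 ζ z0 z1, c3⟩

theorem LimBr.small (h : LimBr C a i j z ρ) (hρ : 0 < ρ) (hr : 0 < r) : ∀ᶠ s in 𝓝[>] (0 : ℝ),
    ∀ ζ, ‖ζ‖ ≤ 2 * ρ → (z ζ).2 ≠ 0 → ‖(z ζ).2‖ ≤ s → ‖(z ζ).1‖ < r ∧ ‖ζ‖ < ρ := by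
  rcases h.dich with d | d
  · exact .of_forall fun s ζ z1 z2 => (z2 (d ζ (by linarith))).elim
  have h1 : ContinuousAt (fun ζ => ‖(z ζ).1‖) 0 :=
    (h.an 0 (by simpa using hρ)).continuousAt.fst.norm
  obtain ⟨δ, hδ, h2⟩ := Metric.eventually_nhds_iff_ball.1 ((h1.eventually
    (gt_mem_nhds (by simpa [h.z0] using hr))).and (ball_mem_nhds (0 : ℂ) hρ))
  obtain ⟨m, hm, h3⟩ := ((isCompact_closedBall (0 : ℂ) (2 * ρ)).diff (isOpen_ball (x := 0)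
    (ε := δ))).exists_forall_le' (f := fun ζ => ‖(z ζ).2‖) (a := 0)
    (fun ζ b => (h.an ζ (by linarith [mem_closedBall_zero_iff.1 b.1])).continuousAt.snd.norm
      |>.continuousWithinAt) fun ζ b => norm_pos_iff.2 (d ζ (fun e => b.2 (e ▸ mem_ball_self hδ))
        (by linarith [mem_closedBall_zero_iff.1 b.1]))
  filter_upwards [Ioo_mem_nhdsGT hm] with s hs ζ z1 _ z3
  have h4 : ζ ∈ ball (0 : ℂ) δ := by_contra fun e =>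
    (z3.trans_lt hs.2).not_ge (h3 ζ ⟨mem_closedBall_zero_iff.2 z1, e⟩)
  exact ⟨(h2 ζ h4).1, mem_ball_zero_iff.1 (h2 ζ h4).2⟩

theorem LimBr.count (h : LimBr C a i j z ρ) (hρ : 0 < ρ) (hk : MCut r r' k) (hk' : MCut s s' k')
    {τ τ' : X → Bil E ℝ} (hτ : Disc (⋃ i, O.L i) O.R (O.Pi i) k k' τ)
    (hτ' : Disc (⋃ i, O.L i) O.R (O.Pi i ∘ Prod.swap) k' k τ')
    (hout : ∀ ζ, ‖ζ‖ = ρ → r' ≤ ‖z ζ‖)
    (hs : ∀ ζ, ‖ζ‖ ≤ 2 * ρ → (z ζ).2 ≠ 0 → ‖(z ζ).2‖ ≤ s' → ‖(z ζ).1‖ < r ∧ ‖ζ‖ < ρ) :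
    ∃ n n' : ℕ, (O.N i : ℝ) * ∫ t in {t | 0 < ‖t - a‖ ∧ ‖t - a‖ < ρ ^ O.N i},
      pull2 C.u τ t 1 I = n ∧ (O.N i : ℝ) * ∫ t in {t | 0 < ‖t - a‖ ∧ ‖t - a‖ < ρ ^ O.N i},
      pull2 C.u τ' t 1 I = n' ∧ n' + O.a i * n ≡ O.a i * j [MOD O.N i] := by
  have l : ∀ {ζ : ℂ}, ‖ζ‖ < 2 * ρ → ‖ζ‖ < 3 * ρ := fun h => by linarith
  obtain ⟨p1, p2⟩ := C.lim_one hτ (O.up i) hk hρ h.z0 (fun ζ b => h.an ζ (l b)) (a := a) (b := j)
    fun ζ z0 z1 => by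
      obtain ⟨b1, b2, b3, b4⟩ := h.br ζ z0 (l z1)
      exact ⟨b1, b2, b3, congrArg Prod.fst b4⟩
  obtain ⟨q1, q2⟩ := C.lim_one hτ' (O.up' i) hk' hρ (w := fun ζ => (z ζ).swap) (by simp [h.z0])
    (fun ζ b => (analyticAt_snd.comp (h.an ζ (l b))).prod (analyticAt_fst.comp (h.an ζ (l b))))
    (a := a) (b := O.a i * j) fun ζ z0 z1 => by
      obtain ⟨b1, b2, b3, b4⟩ := h.br ζ z0 (l z1)
      exact ⟨up_swap_pb b1, b2, b3, congrArg Prod.snd b4⟩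
  rcases h.dich with d | d
  · obtain ⟨n, n1, n2⟩ := p2 (fun ζ z0 z1 => ⟨fun e => (h.br ζ z0 (l z1)).1.2
      (Prod.ext e (d ζ (l z1))), fun _ => hk'.one _ (by rw [d ζ (l z1)]; simp [sq_nonneg])⟩)
      fun ζ b => by simpa [Prod.norm_def, d ζ (by linarith)] using hout ζ b
    refine ⟨n, 0, n2, ?_, by simpa using n1.mul_left _⟩
    rw [q1 fun ζ _ z1 => ?_]
    · simp
    · rw [tf, hk'.deriv_lt (by simpa [d ζ (l z1)] using pow_pos hk'.pos 2)]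
      simp
  · obtain ⟨n, n1, n2⟩ := q2 (fun ζ z0 z1 => ⟨d ζ z0 (l z1), fun b => hk.one _
      (pow_le_pow_left₀ (norm_nonneg _) (hs ζ z1.le (d ζ z0 (l z1)) b).1.le 2)⟩)
      fun ζ b => (not_le.1 fun e => (hs ζ (by linarith) (d ζ (norm_pos_iff.1 (b ▸ hρ))
        (by linarith)) e).2.ne b).le
    refine ⟨0, n, ?_, n2, by simpa using n1⟩
    rw [p1 fun ζ z0 z1 => ?_]
    · simp
    · by_cases b : ‖(z ζ).2‖ ≤ s'
      · rw [tf, hk.deriv_lt (pow_lt_pow_left₀ (hs ζ z1.le (d ζ z0 (l z1)) b).1 (norm_nonneg _)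
          two_ne_zero)]
        simp
      · rw [tf, hk'.zero _ (pow_le_pow_left₀ (hk'.pos.trans hk'.lt).le (not_le.1 b).le 2), mul_zero]

theorem OC.lim_sep (C : OC O) : ∀ᶠ ρ in 𝓝[>] (0 : ℝ), ∀ (a b : C.F) (t : ℂ) (m n : ℕ), m ≠ 0 →
    n ≠ 0 → ‖t - a‖ ≤ ρ ^ m → ‖t - b‖ < ρ ^ n → a = b := by
  have h : ∀ᶠ ρ in 𝓝[>] (0 : ℝ), ∀ a b : C.F, a ≠ b → 2 * ρ < ‖(a : ℂ) - b‖ := by
    refine eventually_all.2 fun a => eventually_all.2 fun b => ?_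
    by_cases e : a = b
    · exact .of_forall fun _ h => (h e).elim
    have : 0 < ‖(a : ℂ) - b‖ := norm_pos_iff.2 (sub_ne_zero.2 fun h => e (Subtype.ext h))
    filter_upwards [Ioo_mem_nhdsGT (half_pos this)] with ρ hρ _
    linarith [hρ.2]
  filter_upwards [h, Ioo_mem_nhdsGT one_pos] with ρ h1 h2 a b t m n hm hn b1 b2
  by_contra e
  have b3 := norm_sub_le_norm_sub_add_norm_sub (a : ℂ) t b
  rw [norm_sub_rev (a : ℂ) t] at b3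
  linarith [h1 a b e, pow_le_of_le_one h2.1.le h2.2.le hm, pow_le_of_le_one h2.1.le h2.2.le hn]

theorem mon_lim {ι : Type} [Fintype ι] (C : ι → OC O) (id : ∀ m, (C m).F → Fin O.n)
    (j : ∀ m, (C m).F → ℕ) (hm : ∀ m, (C m).Mon (id m) (j m)) (i : Fin O.n) :
    ∃ r r' s s' : ℝ, 0 < r ∧ r < r' ∧ r' < O.R ∧ 0 < s ∧ s < s' ∧ s' < O.R ∧
      (∀ z ∈ thick r r' s s', ∀ m, O.Pi i z ∉ (C m).img) ∧
      ∀ k k' τ τ', MCut r r' k → MCut s s' k' → Disc (⋃ i, O.L i) O.R (O.Pi i) k k' τ →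
        Disc (⋃ i, O.L i) O.R (O.Pi i ∘ Prod.swap) k' k τ' → ∀ m, ∃ n n' : ℕ,
          (O.N i : ℝ) * per (C m).u τ = n ∧ (O.N i : ℝ) * per (C m).u τ' = n' ∧
          n' + O.a i * n ≡ ∑ a, (if id m a = i then O.a i * j m a else 0) [MOD O.N i] := by
  choose z hz using fun m a => (hm m a).2
  obtain ⟨ρ, ⟨hB, sep⟩, hρ⟩ := (((eventually_all.2 fun m => eventually_all.2 fun a =>
    (hz m a).limBr).and (eventually_all.2 fun m => (C m).lim_sep)).and self_mem_nhdsWithin).exists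
  have hρ : 0 < ρ := hρ
  have h1 : ∀ m, ∀ᶠ R1 in 𝓝[>] (0 : ℝ), (C m).v 0 ∉ O.Pi i '' pb R1 ∧ ∀ t ∉ (C m).F,
      (C m).u t ∈ O.Pi i '' pb R1 → ∃ a : (C m).F, ‖t - a‖ < ρ ^ O.N (id m a) := fun m => by
    obtain ⟨R1, b0, b1, b2⟩ := (C m).near_L i
      (V := ⋃ a : (C m).F, ball (a : ℂ) (ρ ^ O.N (id m a)))
      ((isOpen_iUnion fun _ => isOpen_ball).mem_nhdsSet.2 fun a ha =>
        mem_iUnion.2 ⟨⟨a, ha⟩, mem_ball_self (pow_pos hρ _)⟩)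
    filter_upwards [Ioo_mem_nhdsGT b0.1] with R hR
    have b3 := image_mono (f := O.Pi i) (mon_pb_mono hR.2.le)
    exact ⟨fun e => b1 (b3 e), fun t ht e => by
      simpa [dist_eq_norm] using mem_iUnion.1 (b2 t ht (b3 e))⟩
  obtain ⟨R1, h2, R0, RR⟩ := ((eventually_all.2 h1).and (Ioo_mem_nhdsGT O.hR)).exists
  obtain ⟨s', h3, s0, s1⟩ := ((eventually_all.2 fun m => eventually_all.2 fun a =>
    (hB m a).small hρ (r := R1 / 4) (by linarith)).and (Ioo_mem_nhdsGT R0)).exists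
  have h4 : ∀ m t, t ∉ (C m).F → ∀ a : (C m).F, ‖t - a‖ < ρ ^ O.N (id m a) →
      ∃ ζ, ‖ζ‖ < ρ ∧ z m a ζ ∈ pb O.R ∧ O.Pi (id m a) (z m a ζ) = (C m).u t := fun m t ht a ha => by
    obtain ⟨ζ, z0, z1, rfl⟩ := lim_root (O.N_ne _) hρ (fun e : t = a => ht (e ▸ a.2)) ha
    obtain ⟨b1, b2, -⟩ := (hB m a).br ζ z0 (by linarith)
    exact ⟨ζ, z1, b1, b2⟩
  refine ⟨R1 / 4, R1 / 2, s' / 2, s', by linarith, by linarith, by linarith, by linarith,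
    by linarith, by linarith, fun w hw m e => ?_, fun k k' τ τ' hk hk' hτ hτ' m => ?_⟩
  · have w1 : w ∈ pb R1 := ⟨mem_ball_zero_iff.2 (max_lt (by linarith [hw.2.1])
      (hw.2.2.2.trans_lt s1)), fun e => by
        have := hw.1
        rw [mem_singleton_iff.1 e, Prod.fst_zero, norm_zero] at this
        linarith⟩
    rcases e with ⟨t, ht, e⟩ | e
    · obtain ⟨a, ha⟩ := (h2 m).2 t ht ⟨w, w1, e.symm⟩
      obtain ⟨ζ, z1, b1, b2⟩ := h4 m t ht a ha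
      obtain ⟨-, n, hn⟩ := (O.fibre i _ w (mon_pb_mono RR.le w1) _ b1).1 (e.symm.trans b2.symm)
      have b3 : ‖(z m a ζ).1‖ = ‖w.1‖ := by simp [hn, gen, mon_norm_eps (O.N_ne i)]
      have b4 : ‖(z m a ζ).2‖ = ‖w.2‖ := by simp [hn, gen, mon_norm_eps (O.N_ne i)]
      have b5 := h3 m a ζ (by linarith) (norm_pos_iff.1 (by linarith [hw.2.2.1]))
        (b4 ▸ hw.2.2.2)
      linarith [hw.1, b5.1]
    · exact (h2 m).1 ⟨w, w1, e⟩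
  let B : (C m).F → Set ℂ := fun a => {t | 0 < ‖t - a‖ ∧ ‖t - a‖ < ρ ^ O.N (id m a)}
  have dB : Pairwise (Function.onFun Disjoint B) := fun a b e => disjoint_left.2 fun t ta tb =>
    e (sep m a b t _ _ (O.N_ne _) (O.N_ne _) ta.2.le tb.2)
  have z1 : ∀ x ∉ O.Pi i '' pb R1, τ x = 0 ∧ τ' x = 0 := fun x hx =>
    ⟨hτ.lim_zero (O.up i) hk hk' (by linarith) s1 hx, hτ'.lim_zero (O.up' i) hk' hk s1
      (by linarith) fun ⟨w, w1, e⟩ => hx ⟨_, up_swap_pb w1, e⟩⟩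
  have z2 : ∀ t ∉ (C m).F, (∀ a, t ∉ B a) → (C m).u t ∉ O.Pi i '' pb R1 := fun t ht h e => by
    obtain ⟨a, ha⟩ := (h2 m).2 t ht e
    exact h a ⟨norm_pos_iff.2 (sub_ne_zero.2 fun e => ht (e ▸ a.2)), ha⟩
  have key : ∀ a, ∃ n n' : ℕ, (O.N i : ℝ) * ∫ t in B a, pull2 (C m).u τ t 1 I = n ∧
      (O.N i : ℝ) * ∫ t in B a, pull2 (C m).u τ' t 1 I = n' ∧
      n' + O.a i * n ≡ (if id m a = i then O.a i * j m a else 0) [MOD O.N i] := fun a => by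
    by_cases e : id m a = i
    · rw [if_pos e]
      subst e
      refine (hB m a).count hρ hk hk' hτ hτ' (fun ζ b => not_lt.1 fun b' => ?_) (h3 m a)
      obtain ⟨b1, b2, b3, -⟩ := (hB m a).br ζ (norm_pos_iff.1 (b ▸ hρ)) (by linarith)
      obtain ⟨a', ha⟩ := (h2 m).2 _ b3 ⟨_, ⟨mem_ball_zero_iff.2 (by linarith), b1.2⟩, b2⟩
      have b4 : ‖(a : ℂ) + ζ ^ O.N (id m a) - a‖ = ρ ^ O.N (id m a) := by simp [b]
      obtain rfl := sep m a a' _ _ _ (O.N_ne _) (O.N_ne _) b4.le ha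
      exact ha.ne b4
    · have z3 : ∀ t ∈ B a, τ ((C m).u t) = 0 ∧ τ' ((C m).u t) = 0 := fun t ht => z1 _ <| by
        rintro ⟨w, w1, e'⟩
        obtain ⟨ζ, z0, z1, rfl⟩ := lim_root (O.N_ne _) hρ (sub_ne_zero.1 (norm_pos_iff.1 ht.1)) ht.2
        obtain ⟨b1, b2, -⟩ := (hB m a).br ζ z0 (by linarith)
        exact e ((O.fibre _ _ _ b1 w (mon_pb_mono RR.le w1)).1 (b2.trans e'.symm)).1
      refine ⟨0, 0, ?_, ?_, by simp [e, Nat.ModEq]⟩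
      · rw [setIntegral_eq_zero_of_forall_eq_zero fun t ht => by simp [(z3 t ht).1]]
        simp
      · rw [setIntegral_eq_zero_of_forall_eq_zero fun t ht => by simp [(z3 t ht).2]]
        simp
  choose n n' k1 k2 k3 using key
  refine ⟨∑ a, n a, ∑ a, n' a, ?_, ?_, ?_⟩
  · rw [(C m).lim_sum hτ.form hτ.test (fun a => meas_ann _ _ _) dB
      fun t ht h => (z1 _ (z2 t ht h)).1, Finset.mul_sum, Nat.cast_sum]
    exact Finset.sum_congr rfl fun a _ => k1 a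
  · rw [(C m).lim_sum hτ'.form hτ'.test (fun a => meas_ann _ _ _) dB
      fun t ht h => (z1 _ (z2 t ht h)).2, Finset.mul_sum, Nat.cast_sum]
    exact Finset.sum_congr rfl fun a _ => k2 a
  · rw [Finset.mul_sum, ← Finset.sum_add_distrib]
    exact Nat.ModEq.sum fun a _ => k3 a

end Pool.Agent.Lib.MP_1c0d65_gt.PW
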