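import Pool.Agent.Lib.MP_1c0d65_gt.E.MonDef
import Pool.Agent.Lib.MP_1c0d65_gt.E.C1s
import Pool.Agent.Lib.MP_1c0d65_gt.E.Desc
import Pool.Agent.Lib.MP_1c0d65_gt.W.Pow

/-! The integral of the pull-back of a radial area form over an orbifold disc. -/

set_option autoImplicit false

open scoped ContDiff Topology Real
open Set MeasureTheory Filter Metric Complex

noncomputable section

namespace Pool.Agent.Lib.MP_1c0d65_gt.PW

open W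

theorem lim_skew (β : Bil ℂ ℝ) (h : ∀ v, β v v = 0) (p q : ℂ) :
    β p q = (p.re * q.im - q.re * p.im) * β 1 I := by
  rw [brk_lin β p, add_apply, smul_apply, smul_apply, brk_lin (β 1) q, brk_lin (β I) q, h, h,
    bil_skew h I 1]
  simp only [smul_eq_mul]
  ring

/-- The formula of Green on an orbifold annulus. -/
theorem orb_green {N : ℕ} (hN : N ≠ 0) {φ : ℂ → ℂ →L[ℝ] ℝ} {ρ' ε ρ : ℝ} (h0 : 0 < ε) (h1 : ε ≤ ρ)
    (h2 : ρ < ρ') (hφ : ∀ ζ, ζ ≠ 0 → ‖ζ‖ < ρ' → ContDiffAt ℝ 1 φ ζ ∧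
      ∀ v, φ (eps N * ζ) (eps N * v) = φ ζ v) {a : ℂ} {D : ℂ → ℝ}
    (hD : ∀ ζ : ℂ, ζ ≠ 0 → ‖ζ‖ < ρ' → ‖(N : ℂ) * ζ ^ (N - 1)‖ ^ 2 * D (a + ζ ^ N) = dd φ ζ) :
    (N : ℝ) * ∫ t in {t | ε ^ N < ‖t - a‖ ∧ ‖t - a‖ < ρ ^ N}, D t = cp φ 0 ρ - cp φ 0 ε := by
  choose rt hrt using fun s : ℂ => IsAlgClosed.exists_pow_nat_eq (s - a) (Nat.pos_of_ne_zero hN)
  have hrt' : ∀ s, a + rt s ^ N = s := fun s => by rw [hrt, add_sub_cancel]
  have he : ∀ ζ : ℂ, ζ ≠ 0 → (N : ℂ) * ζ ^ (N - 1) ≠ 0 := fun ζ h =>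
    mul_ne_zero (Nat.cast_ne_zero.2 hN) (pow_ne_zero _ h)
  let T : ℂ → ℂ →L[ℝ] ℝ := fun ζ => (φ ζ).comp (((N : ℂ) * ζ ^ (N - 1))⁻¹ • (1 : ℂ →L[ℝ] ℂ))
  have Ta : ∀ ζ v, T ζ v = φ ζ (((N : ℂ) * ζ ^ (N - 1))⁻¹ * v) := fun _ _ => rfl
  have hT : ∀ ζ, ζ ≠ 0 → ‖ζ‖ < ρ' → T (eps N * ζ) = T ζ := fun ζ z0 z1 => by
    ext1 v
    rw [Ta, Ta, ← (hφ ζ z0 z1).2]
    congr 1
    have e1 : eps N * eps N ^ (N - 1) = 1 := by
      rw [← pow_succ', Nat.sub_add_cancel (Nat.pos_of_ne_zero hN), (mon_prim hN).pow_eq_one]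
    rw [mul_pow, eq_inv_of_mul_eq_one_right e1, mul_inv, mul_inv, mul_inv, inv_inv]
    ring
  have cT : ∀ ζ, ζ ≠ 0 → ‖ζ‖ < ρ' → ContDiffAt ℝ 1 T ζ := fun ζ z0 z1 =>
    (hφ ζ z0 z1).1.clm_comp ((ContDiffAt.inv (f := fun ζ : ℂ => (N : ℂ) * ζ ^ (N - 1))
      (contDiffAt_const.mul (contDiffAt_id.pow _)) (he ζ z0)).smul contDiffAt_const)
  let θ : ℂ → ℂ →L[ℝ] ℝ := fun s => T (rt s)
  have n1 : ∀ s, ‖s - a‖ = ‖rt s‖ ^ N := fun s => by rw [← hrt, norm_pow]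
  have n2 : ∀ s, ε ^ N ≤ ‖s - a‖ → ‖s - a‖ ≤ ρ ^ N → rt s ≠ 0 ∧ ‖rt s‖ < ρ' := fun s a1 a2 => by
    rw [n1] at a1 a2
    exact ⟨norm_pos_iff.1 (h0.trans_le (le_of_pow_le_pow_left₀ hN (norm_nonneg _) a1)),
      (le_of_pow_le_pow_left₀ hN (h0.le.trans h1) a2).trans_lt h2⟩
  have cθ : ∀ s, rt s ≠ 0 → ‖rt s‖ < ρ' → ContDiffAt ℝ 1 θ s := fun s a1 a2 =>
    C1s.desc (n := 1) hN (mon_prim hN) hT hrt'
      (fun e => pow_ne_zero N a1 (by rw [hrt, e, sub_self])) a2 (cT _ a1 a2)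
  have eθ : ∀ ζ, ζ ≠ 0 → ‖ζ‖ < ρ' → ∀ v, φ ζ v = θ (a + ζ ^ N) (N * ζ ^ (N - 1) * v) :=
    fun ζ z0 z1 v => by
      change _ = T _ _
      rw [C1s.eq_of_pow hN (mon_prim hN) hT z0 z1 (by rw [hrt, add_sub_cancel_left]), Ta,
        inv_mul_cancel_left₀ (he ζ z0)]
  have dg : ∀ ζ v : ℂ, fderiv ℝ (fun t : ℂ => a + t ^ N) ζ v = N * ζ ^ (N - 1) * v := fun ζ v =>
    brk_fderiv ((hasDerivAt_pow N ζ).const_add a) v
  have dθ : ∀ s, rt s ≠ 0 → ‖rt s‖ < ρ' → D s = dd θ s := fun s a1 a2 => by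
    have e1 : φ =ᶠ[𝓝 (rt s)] fun ζ => (θ (a + ζ ^ N)).comp (fderiv ℝ (fun t => a + t ^ N) ζ) := by
      filter_upwards [isOpen_compl_singleton.mem_nhds a1,
        isOpen_ball.mem_nhds (mem_ball_zero_iff.2 a2)] with ζ z0 z1
      ext1 v
      change _ = θ _ (fderiv ℝ (fun t => a + t ^ N) ζ v)
      rw [dg, eθ ζ z0 (mem_ball_zero_iff.1 z1)]
    have e2 := ext1_comp (a := θ) (g := fun t : ℂ => a + t ^ N) (y := rt s)
      (by rw [hrt']; exact (cθ s a1 a2).differentiableAt one_ne_zero) (by fun_prop)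
    have e3 := hD _ a1 a2
    rw [dd_congr e1] at e3
    change _ = ext1 _ _ 1 I at e3
    rw [e2, ContinuousLinearMap.bilinearComp_apply, dg, dg, mul_one, brk_alt _ (ext1_alt _ _),
      hrt'] at e3
    exact mul_left_cancel₀ (pow_ne_zero 2 (norm_ne_zero_iff.2 (he _ a1))) e3
  have c1 : ∀ r, ε ≤ r → r ≤ ρ → cp φ 0 r = (N : ℝ) • cp θ a (r ^ N) := fun r a1 a2 => by
    have r0 := h0.trans_le a1
    refine W.cp_pow hN (fun t => ?_) fun t v => eθ _ (circleMap_ne_center r0.ne') ?_ v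
    · obtain ⟨b1, b2⟩ := n2 (circleMap a (r ^ N) t)
        (by rw [norm_cm a (pow_nonneg r0.le N)]; exact pow_le_pow_left₀ h0.le a1 N)
        (by rw [norm_cm a (pow_nonneg r0.le N)]; exact pow_le_pow_left₀ r0.le a2 N)
      exact (cθ _ b1 b2).continuousAt
    · simpa [abs_of_pos r0] using a2.trans_lt h2
  rw [setIntegral_congr_fun (meas_ann _ _ _) fun s hs => dθ s (n2 s hs.1.le hs.2.le).1
    (n2 s hs.1.le hs.2.le).2, green_ann (pow_nonneg h0.le N) (pow_le_pow_left₀ h0.le h1 N)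
    fun s a1 a2 => cθ s (n2 s a1 a2).1 (n2 s a1 a2).2, c1 ρ h1 le_rfl, c1 ε le_rfl h1, mul_sub,
    smul_eq_mul, smul_eq_mul]

variable {r r' : ℝ} {k : ℝ → ℝ}

theorem MCut.deriv_lt (hk : MCut r r' k) {t : ℝ} (ht : t < r ^ 2) : deriv k t = 0 := by
  have : k =ᶠ[𝓝 t] fun _ => 1 := (gt_mem_nhds ht).mono fun s hs => hk.one s hs.le
  rw [this.deriv_eq, deriv_const]

theorem MCut.deriv_gt (hk : MCut r r' k) {t : ℝ} (ht : r' ^ 2 < t) : deriv k t = 0 := by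
  have : k =ᶠ[𝓝 t] fun _ => 0 := (lt_mem_nhds ht).mono fun s hs => hk.zero s hs.le
  rw [this.deriv_eq, deriv_const]

/-- The singular primitive of the radial area form. -/
def limForm (k : ℝ → ℝ) (w : ℂ) : ℂ →L[ℝ] ℝ := (-(2 * π)⁻¹ * k (‖w‖ ^ 2)) • darg id w

theorem limForm_sm (hk : ContDiff ℝ ∞ k) {w : ℂ} (hw : w ≠ 0) : ContDiffAt ℝ 1 (limForm k) w :=
  (contDiffAt_const.mul ((hk.of_le (by simp)).contDiffAt.comp w (contDiff_norm_sq ℝ).contDiffAt)).smul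
    (contDiffAt_darg (n := 2) contDiffAt_id hw (by norm_num))

theorem limForm_dd (hk : ContDiff ℝ ∞ k) {w : ℂ} (hw : w ≠ 0) :
    ext1 (limForm k) w 1 I = -deriv k (‖w‖ ^ 2) / π := by
  have h1 := (((hk.differentiable (by simp) (‖w‖ ^ 2)).hasDerivAt.comp_hasFDerivAt w
    (hasStrictFDerivAt_norm_sq w).hasFDerivAt)).const_mul (-(2 * π)⁻¹)
  have h2 : ext1 (darg id) w 1 I = 0 := dd_darg (f := id) contDiffAt_id hw
  have h3 := ext1_fsmul (a := darg id) h1.differentiableAt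
    ((contDiffAt_darg (n := 2) (m := 1) contDiffAt_id hw (by norm_num)).differentiableAt one_ne_zero)
  have h4 : normSq w ≠ 0 := (normSq_pos.2 hw).ne'
  refine (congrArg (fun B : Bil ℂ ℝ => B 1 I) h3).trans ?_
  simp only [add_apply, smul_apply, h2, w11_apply, h1.fderiv, darg_apply, fderiv_id]
  simp [div_im, Complex.inner]
  have := Real.pi_ne_zero
  field_simp
  rw [normSq_apply]
  ring

theorem lim_plane {N : ℕ} (hN : N ≠ 0) (hk : MCut r r' k) {x : ℂ → ℂ} {ρ ρ' : ℝ} (h0 : 0 < ρ)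
    (h2 : ρ < ρ') (x0 : Tendsto x (𝓝[≠] 0) (𝓝 0)) {c : ℂ} (hc : ‖c‖ = 1)
    (hx : ∀ ζ, ζ ≠ 0 → ‖ζ‖ < ρ' → ContDiffAt ℝ 2 x ζ ∧ x ζ ≠ 0 ∧ x (eps N * ζ) = c * x ζ)
    (hout : ∀ ζ, ‖ζ‖ = ρ → r' ≤ ‖x ζ‖) {A : ℤ} (hA : HasIdx x 0 A) {a : ℂ} {D : ℂ → ℝ}
    (hD : ∀ ζ : ℂ, ζ ≠ 0 → ‖ζ‖ < ρ' → ‖(N : ℂ) * ζ ^ (N - 1)‖ ^ 2 * D (a + ζ ^ N) =
      -deriv k (‖x ζ‖ ^ 2) / π * ((fderiv ℝ x ζ 1).re * (fderiv ℝ x ζ I).im -
        (fderiv ℝ x ζ I).re * (fderiv ℝ x ζ 1).im)) :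
    (N : ℝ) * ∫ t in {t | 0 < ‖t - a‖ ∧ ‖t - a‖ < ρ ^ N}, D t = A := by
  let φ : ℂ → ℂ →L[ℝ] ℝ := fun ζ => (limForm k (x ζ)).comp (fderiv ℝ x ζ)
  have φa : ∀ ζ v, φ ζ v = -(2 * π)⁻¹ * k (‖x ζ‖ ^ 2) * darg x ζ v := fun ζ v => by
    simp [φ, limForm, darg_apply]
  obtain ⟨δ, hδ, hs⟩ := pn_iff.1 (x0.eventually (ball_mem_nhds 0 hk.pos))
  simp only [sub_zero, dist_zero_right] at hs
  obtain ⟨ε, hw, ε0, ε1⟩ := (hA.wind.and (Ioo_mem_nhdsGT (lt_min hδ h0))).exists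
  rw [lt_min_iff] at ε1
  have e0 := mon_norm_eps hN
  have c0 : c ≠ 0 := norm_ne_zero_iff.1 (by rw [hc]; exact one_ne_zero)
  have key := orb_green hN (φ := φ) (a := a) (D := D) ε0 ε1.2.le h2 (fun ζ z0 z1 => ⟨?_, fun v => ?_⟩)
    fun ζ z0 z1 => ?_
  · rw [setIntegral_eq_of_subset_of_forall_diff_eq_zero (meas_ann _ _ _)
      (s := {t | ε ^ N < ‖t - a‖ ∧ ‖t - a‖ < ρ ^ N})
      (fun t ht => ⟨(pow_pos ε0 N).trans ht.1, ht.2⟩) fun t ht => ?_, key,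
      cp_congr (φ := fun _ => 0) fun t => ?_, cp_zero,
      cp_congr (φ := fun ζ => (-(2 * π)⁻¹) • darg x ζ) fun t => ?_, cp_smul, cp_darg hw fun t => ?_]
    · have := Real.pi_ne_zero
      simp only [smul_eq_mul]
      field_simp
      ring
    · exact (hx _ (circleMap_ne_center ε0.ne')
        (by simpa [abs_of_pos ε0] using ε1.2.trans h2)).1.of_le (by norm_num)
    · ext1 v
      rw [φa, hk.one _ (pow_le_pow_left₀ (norm_nonneg _) (hs (circleMap 0 ε t) (by simpa using ε0.ne')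
        (by simpa [abs_of_pos ε0] using ε1.1)).le 2), mul_one]
      rfl
    · ext1 v
      rw [φa, hk.zero _ (pow_le_pow_left₀ (hk.pos.trans hk.lt).le
        (hout _ (by simp [abs_of_pos h0])) 2)]
      simp
    · obtain ⟨ζ, hζ⟩ := IsAlgClosed.exists_pow_nat_eq (t - a) (Nat.pos_of_ne_zero hN)
      have a1 : ‖t - a‖ ≤ ε ^ N := not_lt.1 fun h => ht.2 ⟨h, ht.1.2⟩
      have a2 := ht.1.1
      rw [← hζ, norm_pow] at a1 a2
      have a3 : ζ ≠ 0 := fun e => by simp [e, hN] at a2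
      have a4 := le_of_pow_le_pow_left₀ hN ε0.le a1
      have a5 := hD ζ a3 (a4.trans_lt (ε1.2.trans h2))
      rw [hk.deriv_lt (pow_lt_pow_left₀ (hs ζ (norm_pos_iff.2 a3) (a4.trans_lt ε1.1))
        (norm_nonneg _) two_ne_zero), hζ, add_sub_cancel] at a5
      simpa [hN, a3] using a5
  · obtain ⟨a1, a2, -⟩ := hx ζ z0 z1
    exact ((limForm_sm hk.sm a2).comp ζ (a1.of_le (by norm_num))).clm_comp
      (a1.fderiv_right (by norm_num))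
  · obtain ⟨a1, a2, a3⟩ := hx ζ z0 z1
    have z2 : eps N * ζ ≠ 0 := mul_ne_zero (norm_ne_zero_iff.1 (by rw [e0]; exact one_ne_zero)) z0
    have z3 : ‖eps N * ζ‖ < ρ' := by rwa [norm_mul, e0, one_mul]
    have e1 : (fun t => x (eps N * t)) =ᶠ[𝓝 ζ] fun t => c * x t := by
      filter_upwards [isOpen_compl_singleton.mem_nhds z0,
        isOpen_ball.mem_nhds (mem_ball_zero_iff.2 z1)] with t t0 t1
      exact (hx t t0 (mem_ball_zero_iff.1 t1)).2.2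
    have e2 := darg_congr e1
    rw [darg_comp (u := fun t => eps N * t) ((hx _ z2 z3).1.differentiableAt (by simp))
      (by fun_prop), darg_mul (differentiableAt_const c) (a1.differentiableAt (by simp)) c0 a2,
      darg_const, zero_add] at e2
    rw [φa, φa, a3, norm_mul, hc, one_mul, ← e2, ContinuousLinearMap.comp_apply,
      brk_fderiv ((hasDerivAt_id' ζ).const_mul (eps N)), mul_one]
  · obtain ⟨a1, a2, -⟩ := hx ζ z0 z1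
    rw [hD ζ z0 z1, ← limForm_dd hk.sm a2, mul_comm, ← lim_skew _ (ext1_alt _ _)]
    exact (congrArg (fun B : Bil ℂ ℝ => B 1 I)
      (ext1_comp ((limForm_sm hk.sm a2).differentiableAt one_ne_zero) a1)).symm

end Pool.Agent.Lib.MP_1c0d65_gt.PW
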