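import Pool.Agent.Lib.MP_1c0d65_gt.E.MonDef

/-! The winding number as an integral over a disc. -/

set_option autoImplicit false

open scoped Manifold ContDiff Topology
open Set MeasureTheory Filter Metric

noncomputable section

namespace Pool.Agent.Lib.MP_1c0d65_gt.PW

variable {R s s' : ℝ} {k' : ℝ → ℝ}

theorem plane_wind (hk' : MCut s s' k') (hs : s' < R) {b : ℂ → ℂ →L[ℝ] ℝ}
    (hb : ContDiffOn ℝ 1 b (ball 0 R)) {g l : ℂ → ℂ} {w : ℤ} {a : ℂ} (ha : a ≠ 0)
    (hl : ContinuousOn l {y | s ≤ ‖y‖ ∧ ‖y‖ ≤ s'})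
    (hg : ∀ y, s ≤ ‖y‖ → ‖y‖ ≤ s' → ContDiffAt ℝ 2 g y ∧ g y = a * y ^ w * Complex.exp (l y)) :
    ∫ y in ball (0 : ℂ) R, (k' (‖y‖ ^ 2) * ext1 b y 1 .I +
      w11 (fderiv ℝ (fun y : ℂ => k' (‖y‖ ^ 2)) y) (b y - W.darg g y) 1 .I) = 2 * Real.pi * w := by
  have h0 := hk'.pos
  have h1 := hk'.lt
  set κ : ℂ → ℝ := fun y => k' (‖y‖ ^ 2) with hκ
  have sκ : ContDiff ℝ 1 κ := (hk'.sm.of_le (by simp)).comp (contDiff_norm_sq ℝ)
  have dd : ∀ (ψ : ℂ → ℂ →L[ℝ] ℝ) y, DifferentiableAt ℝ ψ y → W.dd (fun y => κ y • ψ y) y =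
      κ y * W.dd ψ y + w11 (fderiv ℝ κ y) (ψ y) 1 .I := fun ψ y h => by
    simp only [W.dd, fderiv_fun_smul (sκ.differentiable one_ne_zero y) h, add_apply, smul_apply,
      w11_apply, ContinuousLinearMap.smulRight_apply, smul_eq_mul]
    ring
  have g0 : ∀ y, s ≤ ‖y‖ → ‖y‖ ≤ s' → g y ≠ 0 := fun y p q => by
    rw [(hg y p q).2]
    exact mul_ne_zero (mul_ne_zero ha (zpow_ne_zero _ (norm_pos_iff.1 (h0.trans_le p))))
      (Complex.exp_ne_zero _)
  have sb : ∀ y : ℂ, ‖y‖ ≤ s' → ContDiffAt ℝ 1 b y := fun y q =>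
    hb.contDiffAt (isOpen_ball.mem_nhds (mem_ball_zero_iff.2 (q.trans_lt hs)))
  have sg : ∀ y : ℂ, s ≤ ‖y‖ → ‖y‖ ≤ s' → ContDiffAt ℝ 1 (W.darg g) y := fun y p q =>
    W.contDiffAt_darg (hg y p q).1 (g0 y p q) (by norm_num)
  have out : ∀ (ψ : ℂ → ℂ →L[ℝ] ℝ), W.cp (fun y => κ y • ψ y) 0 s' = 0 := fun ψ => by
    rw [W.cp_congr (φ := fun _ => 0) fun θ => by
      simp only [hκ, hk'.zero _ (by simp : s' ^ 2 ≤ ‖circleMap 0 s' θ‖ ^ 2), zero_smul], W.cp_zero]
  have G1 := W.green_ann (a := 0) (ψ := fun y => κ y • b y) le_rfl (h0.trans h1).le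
    fun y _ q => sκ.contDiffAt.smul (sb y (by simpa using q))
  have G2 := W.green_ann (a := 0) (ψ := fun y => κ y • W.darg g y) h0.le h1.le
    fun y p q => sκ.contDiffAt.smul (sg y (by simpa using p) (by simpa using q))
  have nc : ∀ θ, ‖W.cir 0 s θ‖ = s := fun θ => by simpa using W.norm_cir 0 h0.le θ
  have nm : ∀ θ, ‖circleMap 0 s θ‖ = s := fun θ => by simp [abs_of_pos h0]
  have hw : MP_1e9af3_an.HasWind (fun θ => g (W.cir 0 s θ)) w := by
    have c : Continuous fun θ => Complex.log a + l (W.cir 0 s θ) := continuous_const.add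
      (hl.comp_continuous (W.continuous_cir 0 s) fun θ => ⟨(nc θ).ge, (nc θ).trans_le h1.le⟩)
    have h2 := (W.hasWind_zpow (W.hasWind_cir 0 h0) w).mul
      (W.hasWind_exp c fun θ => by rw [W.cir_per])
    rw [mul_one, add_zero] at h2
    refine h2.congr fun θ => ?_
    rw [(hg _ (nc θ).ge ((nc θ).trans_le h1.le)).2, Complex.exp_add, Complex.exp_log ha, sub_zero]
    ring
  rw [out, W.cp_congr (φ := W.darg g) (fun θ => by
    simp only [hκ, hk'.one _ (by rw [nm] : ‖circleMap 0 s θ‖ ^ 2 ≤ s ^ 2), one_smul]),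
    W.cp_darg hw fun θ => (hg _ (nm θ).ge ((nm θ).trans_le h1.le)).1.of_le (by norm_num)] at G2
  rw [out, show W.cp (fun y => κ y • b y) 0 0 = 0 by simp [W.cp]] at G1
  have int : ∀ {ψ : ℂ → ℂ →L[ℝ] ℝ} {r : ℝ}, (∀ y : ℂ, r ≤ ‖y‖ → ‖y‖ ≤ s' → ContDiffAt ℝ 1 ψ y) →
      Integrable (indicator {z : ℂ | r < ‖z - 0‖ ∧ ‖z - 0‖ < s'} (W.dd fun y => κ y • ψ y)) := by
    intro ψ r h
    have c : IsCompact (closedBall (0 : ℂ) s' ∩ {y | r ≤ ‖y‖}) :=
      (isCompact_closedBall 0 s').inter_right (isClosed_le continuous_const continuous_norm)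
    refine (integrable_indicator_iff (W.meas_ann 0 r s')).2 (IntegrableOn.mono_set
      (ContinuousOn.integrableOn_compact c fun y hy => (W.continuousAt_dd (sκ.contDiffAt.smul
        (h y hy.2 (mem_closedBall_zero_iff.1 hy.1)))).continuousWithinAt) fun y hy => ?_)
    exact ⟨mem_closedBall_zero_iff.2 (by simpa using hy.2.le), by simpa using hy.1.le⟩
  have ae : ∀ r : ℝ, ∀ᵐ y : ℂ, ‖y‖ ≠ r := fun r => by
    have := Measure.addHaar_sphere (volume : Measure ℂ) 0 r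
    rw [← compl_mem_ae_iff] at this
    filter_upwards [this] with y hy using by simpa using hy
  rw [← integral_indicator (W.meas_ann 0 _ _)] at G1 G2
  rw [← integral_indicator measurableSet_ball, integral_congr_ae (g := fun y =>
    indicator {z : ℂ | 0 < ‖z - 0‖ ∧ ‖z - 0‖ < s'} (W.dd fun y => κ y • b y) y -
      indicator {z : ℂ | s < ‖z - 0‖ ∧ ‖z - 0‖ < s'} (W.dd fun y => κ y • W.darg g y) y),
    integral_sub (int fun y _ q => sb y q) (int sg), G1, G2]
  · ring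
  filter_upwards [ae 0, ae s, ae s'] with y e0 e1 e2
  have p0 := lt_of_le_of_ne (norm_nonneg y) e0.symm
  have loc : ∀ {c : ℝ} {P : ℂ → Prop}, (∀ᶠ x in 𝓝 y, P x) → (∀ x, P x → κ x = c) →
      fderiv ℝ κ y = 0 := fun h h' => by
    rw [Filter.EventuallyEq.fderiv_eq (h.mono h'), fderiv_fun_const, Pi.zero_apply]
  rcases e2.lt_or_gt with q | q
  · rw [indicator_of_mem (mem_ball_zero_iff.2 (q.trans hs)),
      indicator_of_mem (by simpa using ⟨norm_pos_iff.1 p0, q⟩),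
      dd _ y ((sb y q.le).differentiableAt one_ne_zero)]
    rcases e1.lt_or_gt with p | p
    · rw [indicator_of_notMem (fun h => by simpa [p.not_gt] using h.1),
        loc (continuous_norm.continuousAt.eventually_lt continuousAt_const p) fun x hx =>
          hk'.one _ (pow_le_pow_left₀ (norm_nonneg _) hx.le 2)]
      simp [W.dd, ext1_apply, hκ]
    · rw [indicator_of_mem (by simpa using ⟨p, q⟩),
        dd _ y ((sg y p.le q.le).differentiableAt one_ne_zero),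
        W.dd_darg (hg y p.le q.le).1 (g0 y p.le q.le)]
      simp only [W.dd, ext1_apply, w11_apply, sub_apply, smul_eq_mul, hκ]
      ring
  · have z : ∀ x : ℂ, s' < ‖x‖ → κ x = 0 := fun x hx =>
      hk'.zero _ (pow_le_pow_left₀ (h0.trans h1).le hx.le 2)
    rw [indicator_of_notMem (s := {z : ℂ | 0 < _ ∧ _}) (fun h => by simpa [q.not_gt] using h.2),
      indicator_of_notMem (s := {z : ℂ | s < _ ∧ _}) (fun h => by simpa [q.not_gt] using h.2),
      sub_zero]
    refine indicator_apply_eq_zero.2 fun _ => ?_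
    rw [loc (continuousAt_const.eventually_lt continuous_norm.continuousAt q) z,
      show k' (‖y‖ ^ 2) = 0 from z y q]
    simp

end Pool.Agent.Lib.MP_1c0d65_gt.PW
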