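import Pool.Agent.Lib.MP_1c0d65_gt.E.MonSecA
import Pool.Agent.Lib.MP_1c0d65_gt.E.MonDef
import Pool.Agent.Lib.MP_1c0d65_gt.E.OSec
import Pool.Agent.Lib.MP_1c0d65_gt.PW.Cay
import Pool.Agent.Lib.MP_1c0d65_gt.PW.Conn
import Pool.Agent.Lib.MP_1c0d65_gt.PW.Stokes
import Pool.Agent.Lib.MP_1c0d65_gt.B.SphereA

/-! The equivariant equation of an anticanonical divisor in a uniformising chart. -/

set_option autoImplicit false
set_option linter.unusedSectionVars false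

open scoped Manifold ContDiff Topology
open Set Filter Metric

noncomputable section

namespace Pool.Agent.Lib.MP_1c0d65_gt.PW

open W

variable {X : Type} [TopologicalSpace X] [ChartedSpace E X] [IsManifold 𝓘(ℝ, E) ∞ X]

namespace MS

theorem form_inter {U : Set X} {om : X → Bil E ℝ} {K J : X → E →L[ℝ] E} (hK : Tame U om K)
    (hJ : Tame U om J) {Ω : X → Bil E ℂ} (h : Form U Ω) :
    Form U fun y => (Ω y).bilinearComp (1 - K y * J y) (1 - K y * J y) := by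
  refine ⟨fun x hx v => h.1 x hx _, fun x => (Cay.contDiffOn_bil (h.2 x)
    (Q := fun y => 1 - pullJ (par x) K y * pullJ (par x) J y)
    (contDiffOn_const.sub ((hK.2 x).mul (hJ.2 x)))).congr fun y hy => ?_⟩
  obtain ⟨D, hD⟩ := par_equiv hy
  refine bil_ext fun v w => ?_
  simp [pull2, Cay.pullJ_eq hD, hD, Cay.cnj_apply]

variable [T2Space X] [CompactSpace X] [MeasurableSpace X] [BorelSpace X] {c : Ctx X}

/-- The coefficient of the volume form upstairs. -/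
def cof (O : Orb c) (i : Fin O.n) (Ω : X → Bil E ℂ) (z : E) : ℂ :=
  pull2 (O.Pi i) (fun y => (Ω y).bilinearComp (1 - c.J0 y * O.J y) (1 - c.J0 y * O.J y)) z
    (1, 0) (0, 1)

theorem cof_spec (O : Orb c) (i : Fin O.n) {U : Set X} (hU : IsOpen U) {Ω : X → Bil E ℂ}
    (h : Form U Ω) (h0 : ∀ y ∈ U, Ω y ≠ 0) (tz : ∀ y ∈ U, ∀ v w, Ω y (c.J0 y v) w = .I * Ω y v w)
    {z : E} (hz : z ∈ pb O.R) (hy : O.Pi i z ∈ U) : ContDiffAt ℝ ∞ (cof O i Ω) z ∧
      cof O i Ω z ≠ 0 ∧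
        cof O i Ω z = eps (O.N i) ^ (1 + O.a i) * cof O i Ω (gen (O.N i) (O.a i) 1 z) := by
  set Ω' : X → Bil E ℂ := fun y => (Ω y).bilinearComp (1 - c.J0 y * O.J y) (1 - c.J0 y * O.J y)
  have hW : IsOpen O.W := (isClosed_iUnion_of_finite O.closed).isOpen_compl
  have det : ∀ z ∈ pb O.R, O.Pi i z ∈ U → ∀ v w, pull2 (O.Pi i) Ω' z v w =
      cof O i Ω z * (v.1 * w.2 - v.2 * w.1) := fun z hz hy =>
    Adj.two_zero_det (fun v => h.1 _ hy _) fun v w => by
      simp only [pull2_apply, Ω', ContinuousLinearMap.bilinearComp_apply]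
      rw [O.hol i z hz, Cay.inter (fun v => (c.tame0.1 _ trivial v).1)
        (fun v => (O.tame.1 _ (O.maps i hz) v).1), tz _ hy]
  refine ⟨?_, fun e => h0 _ hy (bil_ext fun v w => ?_), ?_⟩
  · have := (form_inter (U := U ∩ O.W) (Cay.tame_mono c.tame0 (subset_univ _))
      (Cay.tame_mono O.tame inter_subset_right) (h.mono inter_subset_left)).smooth (hU.inter hW)
      (O.Pi_cm i hz) ⟨hy, O.maps i hz⟩
    exact (this.clm_apply contDiffAt_const).clm_apply contDiffAt_const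
  · have hs := (Cay.inter_surj (fun v => (c.tame0.1 _ trivial v).1)
      (fun v => (c.tame0.1 _ trivial v).2) fun v => (O.tame.1 _ (O.maps i hz) v).2).comp
      (O.Pi_inv i hz).surjective
    obtain ⟨v, rfl⟩ := hs v
    obtain ⟨w, rfl⟩ := hs w
    have := det z hz hy v w
    rw [e, zero_mul] at this
    exact this
  · have hg := mon_gen_pb (O.N_ne i) (O.a i) 1 hz
    let L : E →L[ℝ] E := ((eps (O.N i) ^ 1 • ContinuousLinearMap.fst ℝ ℂ ℂ).prod
      (eps (O.N i) ^ (O.a i * 1) • ContinuousLinearMap.snd ℝ ℂ ℂ))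
    have hL : HasFDerivAt (gen (O.N i) (O.a i) 1) L z := L.hasFDerivAt
    have e : O.Pi i ∘ gen (O.N i) (O.a i) 1 =ᶠ[𝓝 z] O.Pi i := by
      filter_upwards [(mon_isOpen_pb _).mem_nhds hz] with w hw using O.Pi_gen i hw 1
    rw [cof, ← (pull2_congr e Ω').eq_of_nhds, pull2_comp ((O.Pi_cm i hg).mdifferentiableAt
      (by simp)) hL.differentiableAt, hL.fderiv, ContinuousLinearMap.bilinearComp_apply,
      det _ hg ((O.Pi_gen i hz 1).symm ▸ hy)]
    simp [L, pow_add, mul_comm]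

theorem loc_sec {r : ℕ} {u : Fin r → ℂ → X} {Z : Fin r → Set X} {η : Fin r → X → Bil E ℝ}
    {ψ : Fin r → X → E →L[ℝ] ℝ} (hL : ∀ i, MLel c (u i) (Z i) (η i) (ψ i)) {cc : X → Bil E ℝ}
    {β a : X → E →L[ℝ] ℝ} (hβ : IsD univ β (∑ i, (2 * Real.pi) • η i - cc)) {U : Set X}
    (hU : IsOpen U) (ha : IsD U a cc) {x : X} (hx : x ∈ U) : ∃ (V : Set X) (s : X → ℂ),
      IsOpen V ∧ x ∈ V ∧ V ⊆ U ∧ ∀ y ∈ V \ ⋃ i, Z i, Lg s y (∑ i, ψ i y + β y + a y) := by
  choose T P b h1 h2 h3 h4 h5 using fun i => (hL i).loc x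
  have hT : IsOpen (U ∩ ⋂ i, T i) := hU.inter (isOpen_iInter_of_finite h1)
  have sub : ∀ i, U ∩ ⋂ i, T i ⊆ T i := fun i => inter_subset_right.trans (iInter_subset _ i)
  obtain ⟨V, g, v1, v2, v3, v4⟩ := exists_prim hT ⟨hx, mem_iInter.2 h2⟩ (ϑ := β + a - ∑ i, b i)
    ((((hβ.mono (subset_univ _)).add (ha.mono inter_subset_left) hT).sub
      (IsD.sum (fun i _ => (h4 i).mono (sub i)) hT) hT).congr' rfl (by abel))
  refine ⟨V, fun y => (∏ i, P i y) * Complex.exp (g y * .I), v1, v2,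
    v3.trans inter_subset_left, fun y hy => ?_⟩
  refine ((lg_prod Finset.univ (A := fun i => ψ i y + b i y) fun i _ => ?_).mul
    (lg_exp (v4 y hy.1).1)).congr EventuallyEq.rfl ?_
  · have hy' := h5 i y ⟨sub i (v3 hy.1), fun h => hy.2 (mem_iUnion.2 ⟨i, h⟩)⟩
    exact ⟨(h3 i).contMDiffAt ((h1 i).mem_nhds (sub i (v3 hy.1))), hy'.1, fun v => by
      rw [add_apply, hy'.2, sub_add_cancel]⟩
  · rw [(v4 y hy.1).2, Finset.sum_add_distrib, Pi.sub_apply, Pi.add_apply, Finset.sum_apply]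
    abel

end MS

open MS

variable [T2Space X] [CompactSpace X] [MeasurableSpace X] [BorelSpace X] {c : Ctx X}

theorem mon_sec [SimplyConnectedSpace X] {J hJ} {r : ℕ} (S : Fin r → OC (Orb.triv c J hJ))
    (hd : ∀ α, Closed α → ∑ i, per (S i).u α = c.κ * c.Q c.om α)
    {η : Fin r → X → Bil E ℝ} {ψ : Fin r → X → E →L[ℝ] ℝ}
    (hL : ∀ i, MLel c (S i).u (S i).img (η i) (ψ i)) (O : Orb c) (i : Fin O.n) :
    ∃ (F : E → ℂ) (b : E → E →L[ℝ] ℝ), ContDiffOn ℝ ∞ b (pb O.R) ∧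
      (∀ z ∈ pb O.R, ext1 b z = (2 * Real.pi) • ∑ m, pull2 (O.Pi i) (η m) z) ∧
      ∀ z ∈ pb O.R, (∀ m, O.Pi i z ∉ (S m).img) → ContDiffAt ℝ ∞ F z ∧ F z ≠ 0 ∧
        W.darg F z = ∑ m, pull1 (O.Pi i) (ψ m) z + b z ∧
        F (gen (O.N i) (O.a i) 1 z) = eps (O.N i) ^ (1 + O.a i) * F z := by
  obtain ⟨K⟩ := Adj.exists_chern c.chern0
  have c1 : ∀ m ∈ Finset.univ, Closed ((2 * Real.pi) • η m) := fun m _ => (hL m).closed.smul _
  obtain ⟨β, hβ⟩ := exact_of_Q (c := c) ((Closed.sum c1).sub (c.hom.smul (2 * Real.pi * c.κ)))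
    fun α hα => by
      rw [Q_sub_left (Closed.sum c1).1 (c.hom.smul _).1 hα.1,
        Q_sum_left _ (fun m hm => (c1 m hm).1) hα.1, Q_smul_left, mul_assoc, ← hd α hα,
        Finset.mul_sum, sub_eq_zero]
      exact Finset.sum_congr rfl fun m _ => by rw [Q_smul_left, (hL m).dual α hα]
  have cZ : IsClosed (⋃ m, (S m).img) := isClosed_iUnion_of_finite fun m =>
    isClosed_of_closure_subset fun p hp => (S m).img_closed (by simp [Orb.W, Orb.triv]) hp
  have con := fun B => conn_compl (T := range S) (countable_range S) (P := ∅) countable_empty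
    (B := B)
  simp only [empty_union, biUnion_range] at con
  obtain ⟨V, s, h⟩ := flat_sec cZ (fun B h1 h2 => (con B h1 h2).1)
    (con ∅ isOpen_empty isPreconnected_empty).2 K (Θ := fun y => ∑ m, ψ m y + β y)
    fun x => loc_sec hL hβ (K.op x trivial) (K.isD x trivial) (K.mem x trivial)
  have hP := fun {z} (hz : z ∈ pb O.R) => O.Pi_cm i hz
  have hH := fun x {z} (hz : z ∈ pb O.R) (hy : O.Pi i z ∈ V x) => cof_spec O i (K.op x trivial)
    (K.form x trivial) (K.ne x trivial) (K.tz x trivial) hz ((h x).2.2.1 hy)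
  have ev : ∀ x {z}, z ∈ pb O.R → O.Pi i z ∈ V x → ∀ᶠ w in 𝓝 z, w ∈ pb O.R ∧ O.Pi i w ∈ V x :=
    fun x z hz hy => ((mon_isOpen_pb _).eventually_mem hz).and
      ((hP hz).continuousAt.eventually ((h x).1.mem_nhds hy))
  have mu := fun {x x' y} (hy : y ∈ V x ∩ V x') =>
    (⟨(h x).2.2.1 hy.1, (h x').2.2.1 hy.2⟩ : y ∈ K.U x ∩ K.U x')
  have co : ∀ x x' z, O.Pi i z ∈ V x ∩ V x' →
      cof O i (K.Ω x) z = K.g x x' (O.Pi i z) * cof O i (K.Ω x') z := fun x x' z hy => by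
    simp only [cof, pull2_apply, ContinuousLinearMap.bilinearComp_apply]
    rw [K.co x trivial x' trivial _ (mu hy)]
    rfl
  let B : X → E → E →L[ℝ] ℝ := fun x z => pull1 (O.Pi i) (β + K.a x) z - darg (cof O i (K.Ω x)) z
  let T : X → E → ℂ := fun x z => cu (s x (O.Pi i z) / cof O i (K.Ω x) z)
  have hB : ∀ x {z}, z ∈ pb O.R → O.Pi i z ∈ V x →
      (fun w => B (O.Pi i w) w) =ᶠ[𝓝 z] B x := fun x z hz hy => by
    filter_upwards [ev x hz hy] with w ⟨h1, h2⟩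
    have h3 : O.Pi i w ∈ V (O.Pi i w) ∩ V x := ⟨(h _).2.1, h2⟩
    have a : Lg (K.g (O.Pi i w) x) (O.Pi i w) (K.a (O.Pi i w) (O.Pi i w) - K.a x (O.Pi i w)) :=
      ⟨(K.sm _ trivial x trivial).contMDiffAt
        (((K.op _ trivial).inter (K.op x trivial)).mem_nhds (mu h3)),
        K.g_ne trivial trivial (mu h3), K.da _ trivial x trivial _ (mu h3)⟩
    have e : cof O i (K.Ω (O.Pi i w)) =ᶠ[𝓝 w]
        fun v => K.g (O.Pi i w) x (O.Pi i v) * cof O i (K.Ω x) v := by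
      filter_upwards [ev _ h1 h3.1, ev _ h1 h2] with v h4 h5 using co _ _ v ⟨h4.2, h5.2⟩
    simp only [B]
    rw [darg_congr e, darg_mul (cd_diff (a.plot (hP h1)).1) (cd_diff (hH x h1 h2).1) a.2.1
      (hH x h1 h2).2.1, (a.plot (hP h1)).2]
    refine ContinuousLinearMap.ext fun v => ?_
    simp only [sub_apply, add_apply, pull1_apply, Pi.add_apply, ContinuousLinearMap.comp_apply]
    ring
  have hD : ∀ x, IsD (V x) (β + K.a x) (∑ m, (2 * Real.pi) • η m) := fun x =>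
    ((hβ.mono (subset_univ _)).add ((K.isD x trivial).mono (h x).2.2.1) (h x).1).congr' rfl
      (by abel)
  refine ⟨fun z => T (O.Pi i z) z, fun z => B (O.Pi i z) z, fun z hz => ?_, fun z hz => ?_,
    fun z hz hn => ?_⟩
  all_goals have hy := (h (O.Pi i z)).2.1
  · exact ((((hD _).sm1.smooth (h _).1 (hP hz) hy).sub (contDiffAt_darg (hH _ hz hy).1
      (hH _ hz hy).2.1 top_le)).congr_of_eventuallyEq (hB _ hz hy)).contDiffWithinAt
  · have d1 := cd_diff ((hD _).sm1.smooth (h _).1 (hP hz) hy)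
    have d2 := cd_diff (contDiffAt_darg (hH _ hz hy).1 (hH _ hz hy).2.1 top_le)
    have e := (hD _).pull (h _).1 ((hP hz).of_le two_le) hy
    rw [ext1_congr (hB _ hz hy)]
    refine bil_ext fun v w => ?_
    have e' := DFunLike.congr_fun (DFunLike.congr_fun e v) w
    have e2 := darg_closed ((hH _ hz hy).1.of_le two_le) (hH _ hz hy).2.1 v w
    simp only [ext1_apply, B, fderiv_fun_sub d1 d2, sub_apply, pull2_apply, smul_apply, sum_apply,
      Finset.sum_apply, Pi.smul_apply, smul_eq_mul, Finset.mul_sum] at e' ⊢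
    rw [e', e2]
    ring
  · have hn' : O.Pi i z ∉ ⋃ m, (S m).img := fun e => by
      obtain ⟨m, hm⟩ := mem_iUnion.1 e
      exact hn m hm
    have l := (h _).2.2.2.1 _ ⟨hy, hn'⟩
    have e : (fun w => T (O.Pi i w) w) =ᶠ[𝓝 z] T (O.Pi i z) := by
      filter_upwards [ev _ hz hy, (hP hz).continuousAt.eventually (cZ.isOpen_compl.mem_nhds hn')]
        with w ⟨h1, h2⟩ h3
      have h4 : O.Pi i w ∈ V (O.Pi i w) ∩ V (O.Pi i z) := ⟨(h _).2.1, h2⟩
      simp only [T]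
      rw [cu_div ((h _).2.2.2.1 _ ⟨h4.1, h3⟩).2.1 (hH _ h1 h4.1).2.1,
        cu_div ((h _).2.2.2.1 _ ⟨h2, h3⟩).2.1 (hH _ h1 h2).2.1, (h _).2.2.2.2 _ _ ⟨h4, h3⟩,
        co _ _ w h4, cu_mul (K.g_ne trivial trivial (mu h4)) (hH _ h1 h2).2.1,
        mul_div_mul_left_eq_div]
    have q := hH _ hz hy
    have p := l.plot (hP hz)
    have sm := cu_smooth (f := fun w => s (O.Pi i z) (O.Pi i w) / cof O i (K.Ω (O.Pi i z)) w)
      (by simp only [div_eq_mul_inv]; exact p.1.mul (q.1.inv q.2.1)) (div_ne_zero l.2.1 q.2.1)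
    refine ⟨sm.1.congr_of_eventuallyEq e, Circle.coe_ne_zero _, ?_, ?_⟩
    · rw [darg_congr e, sm.2, darg_div (cd_diff p.1) (cd_diff q.1) l.2.1 q.2.1, p.2]
      refine ContinuousLinearMap.ext fun v => ?_
      simp only [B, sub_apply, add_apply, sum_apply, pull1_apply, Pi.add_apply,
        ContinuousLinearMap.comp_apply]
      ring
    · have e0 : eps (O.N i) ^ (1 + O.a i) ≠ 0 := pow_ne_zero _ (Complex.exp_ne_zero _)
      have q2 : cof O i (K.Ω (O.Pi i z)) (gen (O.N i) (O.a i) 1 z) ≠ 0 := fun e =>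
        q.2.1 (by rw [q.2.2, e, mul_zero])
      have e1 : (cu (eps (O.N i) ^ (1 + O.a i)) : ℂ) = eps (O.N i) ^ (1 + O.a i) := by
        rw [cu_coe e0, norm_pow, mon_norm_eps (O.N_ne i)]; simp
      simp only [T]
      rw [O.Pi_gen i hz, ← e1, ← Circle.coe_mul, ← cu_mul e0 (div_ne_zero l.2.1 q.2.1), q.2.2]
      congr 2
      field_simp

end Pool.Agent.Lib.MP_1c0d65_gt.PW
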