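import Pool.Agent.Lib.MP_1c0d65_gt.PW.PlotA
import Pool.Agent.Lib.MP_1c0d65_gt.E.AdjL
import Pool.Agent.Lib.MP_1c0d65_gt.E.Flat
import Pool.Agent.Lib.MP_1c0d65_gt.Top.Prim

/-! Sections of the anticanonical bundle with a given differential of the argument. -/

set_option autoImplicit false
set_option linter.unusedSectionVars false

open scoped Manifold ContDiff Topology
open Set Filter Metric

noncomputable section

namespace Pool.Agent.Lib.MP_1c0d65_gt.PW.MS

open W

/-- The direction of a complex number. -/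
def cu (w : ℂ) : Circle := Circle.exp w.arg

theorem cu_coe {w : ℂ} (h : w ≠ 0) : (cu w : ℂ) = w / (‖w‖ : ℝ) := by
  have h1 : ((‖w‖ : ℝ) : ℂ) ≠ 0 := by simpa using h
  rw [cu, Circle.coe_exp, eq_div_iff h1, mul_comm, Complex.norm_mul_exp_arg_mul_I]

theorem cu_mul {v w : ℂ} (hv : v ≠ 0) (hw : w ≠ 0) : cu (v * w) = cu v * cu w := by
  refine Circle.ext ?_
  rw [Circle.coe_mul, cu_coe hv, cu_coe hw, cu_coe (mul_ne_zero hv hw), norm_mul]
  push_cast
  rw [div_mul_div_comm]

theorem cu_div {v w : ℂ} (hv : v ≠ 0) (hw : w ≠ 0) : cu (v / w) = cu v / cu w := by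
  rw [eq_div_iff_mul_eq', ← cu_mul (div_ne_zero hv hw) hw, div_mul_cancel₀ _ hw]

theorem cu_circ (w : Circle) : cu w = w := Circle.exp_arg w

theorem cu_exp (l : ℂ) : cu (Complex.exp l) = Circle.exp l.im := by
  have h : ((Real.exp l.re : ℝ) : ℂ) ≠ 0 := by simp
  refine Circle.ext ?_
  rw [cu_coe (Complex.exp_ne_zero l), Complex.norm_exp, div_eq_iff h, Circle.coe_exp,
    Complex.ofReal_exp, ← Complex.exp_add, add_comm, Complex.re_add_im]

section
variable {V : Type} [NormedAddCommGroup V] [NormedSpace ℝ V] {f : V → ℂ} {x : V}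

theorem cu_const (h : ∀ᶠ y in 𝓝 x, DifferentiableAt ℝ f y ∧ f y ≠ 0 ∧ darg f y = 0) :
    ∀ᶠ y in 𝓝 x, cu (f y) = cu (f x) := by
  have f0 := h.self_of_nhds.2.1
  have h1 : ∀ᶠ y in 𝓝 x, f y / f x ∈ Complex.slitPlane :=
    (h.self_of_nhds.1.continuousAt.div_const _).eventually
      (Complex.isOpen_slitPlane.mem_nhds (by simp [f0]))
  obtain ⟨r, hr, h2⟩ := Metric.eventually_nhds_iff_ball.1 (h.eventually_nhds.and h1)
  have h3 : ∀ y ∈ ball x r, HasFDerivAt (fun y => (Complex.log (f y / f x)).im) (0 : V →L[ℝ] ℝ) y :=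
    fun y hy => by
      have d : DifferentiableAt ℝ (fun y => Complex.log (f y / f x)) y :=
        DifferentiableAt.comp (g := Complex.log) y
          ((Complex.differentiableAt_log (h2 y hy).2).restrictScalars ℝ)
          ((h2 y hy).1.self_of_nhds.1.mul_const _)
      have e : darg (fun y => f x * Complex.exp (Complex.log (f y / f x))) y = darg f y := by
        refine darg_congr ?_
        filter_upwards [(h2 y hy).1] with z hz
        rw [Complex.exp_log (div_ne_zero hz.2.1 f0), mul_div_cancel₀ _ f0]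
      rw [darg_mul (differentiableAt_const _) d.cexp f0 (Complex.exp_ne_zero _), darg_const,
        zero_add, darg_exp d, (h2 y hy).1.self_of_nhds.2.2] at e
      exact e ▸ Complex.imCLM.hasFDerivAt.comp y d.hasFDerivAt
  filter_upwards [ball_mem_nhds x hr] with y hy
  have h4 := Top.eqOn_of_prim isOpen_ball (convex_ball x r).isPreconnected h3
    (fun y _ => hasFDerivAt_const (0 : ℝ) y) (mem_ball_self hr) (by simp [f0]) hy
  have h5 := (h2 y hy).1.self_of_nhds.2.1
  rw [← div_eq_one, ← cu_div h5 f0, ← Complex.exp_log (div_ne_zero h5 f0), cu_exp]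
  exact (congrArg Circle.exp h4).trans Circle.exp_zero

theorem cu_smooth (h : ContDiffAt ℝ ∞ f x) (f0 : f x ≠ 0) :
    ContDiffAt ℝ ∞ (fun y => (cu (f y) : ℂ)) x ∧ darg (fun y => (cu (f y) : ℂ)) x = darg f x := by
  have e : (fun y => (cu (f y) : ℂ)) =ᶠ[𝓝 x] fun y => f y / (‖f y‖ : ℝ) := by
    filter_upwards [h.continuousAt.eventually_ne f0] with y hy using cu_coe hy
  have h1 : ContDiffAt ℝ ∞ (fun y => ‖f y‖) x := h.norm ℝ f0
  have h2 : ContDiffAt ℝ ∞ (fun y => ((‖f y‖ : ℝ) : ℂ)) x := cd_clm Complex.ofRealCLM h1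
  have h3 : ((‖f x‖ : ℝ) : ℂ) ≠ 0 := by simpa using f0
  refine ⟨ContDiffAt.congr_of_eventuallyEq ?_ e, ?_⟩
  · simp only [div_eq_mul_inv]
    exact h.mul (h2.inv h3)
  · rw [darg_congr e, darg_div (cd_diff h) (cd_diff h2) f0 h3, darg_real (cd_diff h1), sub_zero]

end

variable {X : Type} [TopologicalSpace X] [ChartedSpace E X] [IsManifold 𝓘(ℝ, E) ∞ X]

/-- `s` is smooth and not zero at `y`, and `d arg s = A` there. -/
def Lg (s : X → ℂ) (y : X) (A : E →L[ℝ] ℝ) : Prop :=
  FnAt ∞ s y ∧ s y ≠ 0 ∧ ∀ v, A v = (dfn s y v / s y).im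

variable {s t : X → ℂ} {y : X} {A B : E →L[ℝ] ℝ}

theorem Lg.plot {V : Type} [NormedAddCommGroup V] [NormedSpace ℝ V] {f : V → X} {z : V}
    (h : Lg s (f z) A) (hf : SmAt ∞ f z) : ContDiffAt ℝ ∞ (fun w => s (f w)) z ∧
      darg (fun w => s (f w)) z = A.comp (dif f z) :=
  ⟨h.1.comp_plot hf, ContinuousLinearMap.ext fun v => (Adj.darg_plot h.1 hf v).trans (h.2.2 _).symm⟩

theorem par_at (y : X) : SmAt ∞ (par y) (chartAt E y y) :=
  par_smAt (mem_dom (U := univ) (mem_chart_source E y) trivial)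

theorem Lg.par (h : Lg s y A) : DifferentiableAt ℝ (fun w => s (par y w)) (chartAt E y y) ∧
    s (par y (chartAt E y y)) ≠ 0 ∧ darg (fun w => s (par y w)) (chartAt E y y) = A := by
  have := Lg.plot (f := PW.par y) (by rwa [par_self]) (par_at y)
  rw [dif_par_self] at this
  exact ⟨cd_diff this.1, by rw [par_self]; exact h.2.1, this.2⟩

theorem lg_of (h : FnAt ∞ s y) (h0 : s y ≠ 0)
    (e : darg (fun w => s (par y w)) (chartAt E y y) = A) : Lg s y A := by
  refine ⟨h, h0, fun v => ?_⟩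
  rw [← e, Adj.darg_plot (by rwa [par_self]) (par_at y), dif_par_self, par_self]
  rfl

theorem Lg.mul (h : Lg s y A) (h' : Lg t y B) : Lg (fun w => s w * t w) y (A + B) :=
  lg_of (contDiff_mul.contDiffAt.comp_contMDiffAt (h.1.prodMk_space h'.1))
    (mul_ne_zero h.2.1 h'.2.1)
    (by rw [darg_mul h.par.1 h'.par.1 h.par.2.1 h'.par.2.1, h.par.2.2, h'.par.2.2])

theorem Lg.div (h : Lg s y A) (h' : Lg t y B) : Lg (fun w => s w / t w) y (A - B) := by
  refine lg_of ?_ (div_ne_zero h.2.1 h'.2.1)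
    (by rw [darg_div h.par.1 h'.par.1 h.par.2.1 h'.par.2.1, h.par.2.2, h'.par.2.2])
  simp only [div_eq_mul_inv]
  exact contDiff_mul.contDiffAt.comp_contMDiffAt
    (h.1.prodMk_space ((contDiffAt_id.inv h'.2.1).comp_contMDiffAt h'.1))

theorem lg_const {a : ℂ} (ha : a ≠ 0) (y : X) : Lg (fun _ => a) y 0 :=
  lg_of contMDiffAt_const ha (darg_const _ _)

theorem Lg.congr (h : Lg s y A) (e : t =ᶠ[𝓝 y] s) (e' : B = A) : Lg t y B :=
  ⟨h.1.congr_of_eventuallyEq e, e.eq_of_nhds ▸ h.2.1, fun v => by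
    rw [dfn_congr e, e.eq_of_nhds, e', h.2.2]⟩

theorem lg_prod {ι : Type} (T : Finset ι) {s : ι → X → ℂ} {A : ι → E →L[ℝ] ℝ}
    (h : ∀ i ∈ T, Lg (s i) y (A i)) : Lg (fun w => ∏ i ∈ T, s i w) y (∑ i ∈ T, A i) := by
  classical
  induction T using Finset.induction_on with
  | empty => simpa using lg_const one_ne_zero y
  | insert i T hi ih =>
    simp only [Finset.prod_insert hi, Finset.sum_insert hi]
    exact (h i (by simp)).mul (ih fun j hj => h j (by simp [hj]))

theorem lg_exp {g : X → ℝ} (h : FnAt ∞ g y) :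
    Lg (fun w => Complex.exp (g w * .I)) y (dfn g y) := by
  have c : ContDiff ℝ ∞ fun r : ℝ => (r * .I : ℂ) := Complex.ofRealCLM.contDiff.mul contDiff_const
  have d : ContDiffAt ℝ ∞ (g ∘ par y) (chartAt E y y) :=
    FnAt.comp_plot (by rwa [par_self]) (par_at y)
  refine lg_of (c.cexp.contDiffAt.comp_contMDiffAt h) (Complex.exp_ne_zero _) ?_
  have e := ((Complex.ofRealCLM.hasFDerivAt.comp _ (cd_diff d).hasFDerivAt).mul_const .I)
  refine (darg_exp e.differentiableAt).trans ?_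
  rw [e.fderiv, fderiv_fn_comp
    (by rw [par_self]; exact h.mdifferentiableAt (by simp)) ((par_at y).dfAt (by simp)),
    dif_par_self, par_self]
  ext v <;> simp

theorem lg_loc (h : ∀ᶠ w in 𝓝 y, Lg s w 0) : ∀ᶠ w in 𝓝 y, cu (s w) = cu (s y) := by
  have hc : Tendsto (par y) (𝓝 (chartAt E y y)) (𝓝 y) := by
    simpa only [ContinuousAt, par_self] using (par_at y).continuousAt
  have hs := mem_chart_source E y
  have h1 := cu_const (f := fun w => s (par y w)) (x := chartAt E y y) (by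
    filter_upwards [hc.eventually h, (isOpen_dom y isOpen_univ).mem_nhds (mem_dom hs trivial)]
      with z h1 h2
    have := h1.plot (par_smAt h2)
    exact ⟨cd_diff this.1, h1.2.1, this.2.trans (ContinuousLinearMap.zero_comp _)⟩)
  filter_upwards [((chartAt E y).continuousAt hs).eventually h1,
    (chartAt E y).open_source.mem_nhds hs] with w h2 h3
  rwa [par_cht h3, par_self] at h2

/-- The Poincare lemma. -/
theorem exists_prim {U : Set X} (hU : IsOpen U) {x : X} (hx : x ∈ U) {ϑ : X → E →L[ℝ] ℝ}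
    (h : IsD U ϑ 0) : ∃ (V : Set X) (g : X → ℝ), IsOpen V ∧ x ∈ V ∧ V ⊆ U ∧
      ∀ y ∈ V, FnAt ∞ g y ∧ dfn g y = ϑ y := by
  have hs := mem_chart_source E x
  obtain ⟨r, hr, hb⟩ := Metric.isOpen_iff.1 (isOpen_dom x hU) _ (mem_dom hs hx)
  have h1 := (h x).1.mono hb
  obtain ⟨φ, hφ⟩ := Top.hasPrim_of_starConvex
    ((convex_ball _ r).starConvex (mem_ball_self hr)) isOpen_ball (h1.differentiableOn (by simp))
    fun z hz v w => by
      have := DFunLike.congr_fun (DFunLike.congr_fun ((h x).2 z (hb hz)) v) w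
      rw [ext1_apply] at this
      exact (sub_eq_zero.1 this.symm)
  have h2 := Top.contDiffOn_of_prim (n := ⊤) isOpen_ball hφ h1
  have he := isChart_chartAt x
  refine ⟨(chartAt E x).source ∩ chartAt E x ⁻¹' ball (chartAt E x x) r, φ ∘ chartAt E x,
    (chartAt E x).isOpen_inter_preimage isOpen_ball, ⟨hs, mem_ball_self hr⟩, fun y hy => ?_,
    fun y hy => ⟨(h2.contDiffAt (isOpen_ball.mem_nhds hy.2)).comp_contMDiffAt (he.fnAt hy.1), ?_⟩⟩
  · have := (hb hy.2).2
    rwa [mem_preimage, par_cht hy.1] at this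
  · rw [dfn_comp (hφ _ hy.2).differentiableAt ((he.fnAt hy.1).mdifferentiableAt (by simp)),
      (hφ _ hy.2).fderiv]
    refine ContinuousLinearMap.ext fun v => ?_
    rw [ContinuousLinearMap.comp_apply, pull1_apply, par_cht hy.1]
    exact congrArg (ϑ y) (he.dif_dfn hy.1 v)

/-- Local sections glue on a simply connected manifold. -/
theorem flat_sec [SimplyConnectedSpace X] {Z : Set X} (cZ : IsClosed Z)
    (hS : ∀ B, IsOpen B → IsPreconnected B → IsPreconnected (B \ Z)) (hd : Dense Zᶜ)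
    {J : X → E →L[ℝ] E} {cc : X → Bil E ℝ} (K : Adj.Chern univ J cc) {Θ : X → E →L[ℝ] ℝ}
    (hl : ∀ x, ∃ (V : Set X) (s : X → ℂ), IsOpen V ∧ x ∈ V ∧ V ⊆ K.U x ∧
      ∀ y ∈ V \ Z, Lg s y (Θ y + K.a x y)) :
    ∃ (V : X → Set X) (s : X → X → ℂ), ∀ x, IsOpen (V x) ∧ x ∈ V x ∧ V x ⊆ K.U x ∧
      (∀ y ∈ V x \ Z, Lg (s x) y (Θ y + K.a x y)) ∧
      ∀ x', ∀ y ∈ (V x ∩ V x') \ Z, cu (s x y) = cu (K.g x x' y) * cu (s x' y) := by
  have := ChartedSpace.locallyPathConnectedSpace E X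
  choose V s h1 h2 h3 h4 using hl
  have g0 : ∀ {x x' y}, y ∈ V x ∩ V x' → K.g x x' y ≠ 0 := fun hy =>
    K.g_ne trivial trivial ⟨h3 _ hy.1, h3 _ hy.2⟩
  obtain ⟨b, b1, b2⟩ := Flat.flat hS hd V h1 h2
    (fun x x' y => cu (s x y) / cu (s x' y) / cu (K.g x x' y)) (fun x x' y hy => by
      have hn := (((h1 x).inter (h1 x')).sdiff cZ).mem_nhds hy
      have key : ∀ w ∈ (V x ∩ V x') \ Z, cu (s x w / s x' w / K.g x x' w) =
          cu (s x w) / cu (s x' w) / cu (K.g x x' w) := fun w hw => by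
        have a := (h4 x w ⟨hw.1.1, hw.2⟩).2.1
        have a' := (h4 x' w ⟨hw.1.2, hw.2⟩).2.1
        rw [cu_div (div_ne_zero a a') (g0 hw.1), cu_div a a']
      have := lg_loc (s := fun w => s x w / s x' w / K.g x x' w) (y := y) (by
        filter_upwards [hn] with w hw
        have hw' : w ∈ K.U x ∩ K.U x' := ⟨h3 _ hw.1.1, h3 _ hw.1.2⟩
        have a : Lg (K.g x x') w (K.a x w - K.a x' w) :=
          ⟨(K.sm x trivial x' trivial).contMDiffAt
            (((K.op x trivial).inter (K.op x' trivial)).mem_nhds hw'), g0 hw.1,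
            K.da x trivial x' trivial w hw'⟩
        exact (((h4 x w ⟨hw.1.1, hw.2⟩).div (h4 x' w ⟨hw.1.2, hw.2⟩)).div a).congr
          EventuallyEq.rfl (by abel))
      filter_upwards [this, hn] with w e hw _
      rw [← key w hw, e, key y hy])
    fun x x' x'' y hy => by
      have m := fun {x} (h : y ∈ V x) => h3 x h
      have e : K.g x x'' y = K.g x x' y * K.g x' x'' y := by
        by_contra hne
        refine K.ne x'' trivial y (m hy.1.2) (bil_ext fun v w => ?_)
        have a := K.co x trivial x'' trivial y ⟨m hy.1.1.1, m hy.1.2⟩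
        rw [K.co x trivial x' trivial y ⟨m hy.1.1.1, m hy.1.1.2⟩,
          K.co x' trivial x'' trivial y ⟨m hy.1.1.2, m hy.1.2⟩] at a
        have a' := DFunLike.congr_fun (DFunLike.congr_fun a v) w
        simp only [smul_apply, smul_eq_mul, ← mul_assoc] at a'
        exact (mul_eq_mul_right_iff.1 a').resolve_left (Ne.symm hne)
      rw [e, cu_mul (g0 hy.1.1) (g0 ⟨hy.1.1.2, hy.1.2⟩)]
      simp only [div_eq_mul_inv, mul_inv]
      rw [mul_mul_mul_comm, mul_assoc (cu (s x y)), inv_mul_cancel_left]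
  refine ⟨V, fun x y => s x y / b x y, fun x => ⟨h1 x, h2 x, h3 x, fun y hy => ?_,
    fun x' y hy => ?_⟩⟩
  · refine ((h4 x y hy).div (lg_const (b x y).coe_ne_zero y)).congr ?_ (sub_zero _).symm
    filter_upwards [b1 x y hy.1] with w hw
    rw [hw]
  · have := b2 x x' y hy
    rw [cu_div (h4 x y ⟨hy.1.1, hy.2⟩).2.1 (b x y).coe_ne_zero,
      cu_div (h4 x' y ⟨hy.1.2, hy.2⟩).2.1 (b x' y).coe_ne_zero, cu_circ, cu_circ]
    rw [div_eq_iff_eq_mul, div_eq_iff_eq_mul] at this
    rw [this, mul_assoc, mul_assoc, mul_div_cancel_left, div_eq_inv_mul, mul_left_comm]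

end Pool.Agent.Lib.MP_1c0d65_gt.PW.MS
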