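import Pool.Agent.Lib.MP_1c0d65_gt.E.MonDef

/-! A fundamental domain for the roots of unity acting on the plane. -/

set_option autoImplicit false

open scoped Manifold ContDiff Topology
open Set MeasureTheory Filter Metric

noncomputable section

namespace Pool.Agent.Lib.MP_1c0d65_gt.PW

theorem sect_arg {ρ θ : ℝ} (hρ : 0 < ρ) (hθ : θ ∈ Ioc (-Real.pi) Real.pi) :
    Complex.arg (ρ * Complex.exp (θ * Complex.I)) = θ := by
  rw [Complex.exp_mul_I]
  exact Complex.arg_mul_cos_add_sin_mul_I hρ hθ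

theorem sect_deriv_zero {r r' : ℝ} {k : ℝ → ℝ} (hk : MCut r r' k) {t : ℝ} (ht : r' ^ 2 < t) :
    deriv k t = 0 := by
  have : k =ᶠ[𝓝 t] fun _ => 0 := by
    filter_upwards [Ioi_mem_nhds ht] with s hs
    exact hk.zero s (le_of_lt hs)
  rw [this.deriv_eq]
  simp

theorem sect_radial {r r' : ℝ} {k : ℝ → ℝ} (hk : MCut r r' k) :
    ∫ x in Ioi (0 : ℝ), x * (-deriv k (x ^ 2) / Real.pi) = 1 / (2 * Real.pi) := by
  have hr' : 0 < r' := hk.pos.trans hk.lt
  have hd : Differentiable ℝ k := hk.sm.differentiable (by simp)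
  have hc : Continuous (deriv k) := hk.sm.continuous_deriv (by simp)
  have hpi := Real.pi_pos
  have h1 : ∀ x ∈ Ici (0 : ℝ), HasDerivAt (fun x : ℝ => -k (x ^ 2) / (2 * Real.pi))
      (x * (-deriv k (x ^ 2) / Real.pi)) x := by
    intro x _
    have h2 : HasDerivAt (fun x : ℝ => x ^ 2) (2 * x) x := by
      simpa using hasDerivAt_pow 2 x
    have h3 := ((hd (x ^ 2)).hasDerivAt.comp x h2).neg.div_const (2 * Real.pi)
    refine HasDerivAt.congr_deriv h3 ?_
    field_simp
  have h2 : Integrable fun x : ℝ => x * (-deriv k (x ^ 2) / Real.pi) := by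
    refine Continuous.integrable_of_hasCompactSupport (by fun_prop) ?_
    refine HasCompactSupport.intro (isCompact_Icc (a := -r') (b := r')) fun x hx => ?_
    have : r' ^ 2 < x ^ 2 := by
      by_contra h
      exact hx (abs_le.1 (abs_le_of_sq_le_sq (not_lt.1 h) hr'.le))
    rw [sect_deriv_zero hk this]
    simp
  have h3 : Tendsto (fun x : ℝ => -k (x ^ 2) / (2 * Real.pi)) atTop (𝓝 0) := by
    refine tendsto_const_nhds.congr' ?_
    filter_upwards [eventually_ge_atTop r'] with x hx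
    rw [hk.zero _ (by nlinarith)]
    simp
  rw [integral_Ioi_of_hasDerivAt_of_tendsto' h1 h2.integrableOn h3, hk.one _ (by
    simpa using sq_nonneg r)]
  ring

theorem exists_sector {N : ℕ} {e : ℂ} {r r' : ℝ} {k : ℝ → ℝ} (hN : N ≠ 0)
    (he : IsPrimitiveRoot e N) (hk : MCut r r' k) :
    ∃ S : Set ℂ, MeasurableSet S ∧ (∀ x : ℂ, x ≠ 0 → ∃ m : ℕ, e ^ m * x ∈ S) ∧
      (∀ x ∈ S, x ≠ 0 → ∀ m : ℕ, e ^ m * x ∈ S → e ^ m = 1) ∧
      ∫ x in S, -deriv k (‖x‖ ^ 2) / Real.pi = 1 / N := by
  have hpi := Real.pi_pos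
  have hN0 : (0 : ℝ) < N := by positivity
  have hN1 : (1 : ℝ) ≤ N := by exact_mod_cast Nat.one_le_iff_ne_zero.2 hN
  set d : ℝ := 2 * Real.pi / N with hd
  have hd0 : 0 < d := by positivity
  have hdN : d * N = 2 * Real.pi := by rw [hd]; field_simp
  have hd1 : d ≤ 2 * Real.pi := by nlinarith
  have hsub : Ioc (-Real.pi) (-Real.pi + d) ⊆ Ioc (-Real.pi) Real.pi :=
    Ioc_subset_Ioc_right (by linarith)
  have hS : MeasurableSet (Complex.arg ⁻¹' Ioc (-Real.pi) (-Real.pi + d)) :=
    Complex.measurable_arg measurableSet_Ioc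
  refine ⟨Complex.arg ⁻¹' Ioc (-Real.pi) (-Real.pi + d), hS, fun x hx => ?_,
    fun x hx h0 m hm => ?_, ?_⟩
  · obtain ⟨j, hj⟩ : ∃ j : ℤ, x.arg - j * d ∈ Ioc (-Real.pi) (-Real.pi + d) := by
      refine ⟨toIocDiv hd0 (-Real.pi) x.arg, ?_⟩
      simpa using sub_toIocDiv_zsmul_mem_Ioc hd0 (-Real.pi) x.arg
    have hw : Complex.exp ((-(j * d) : ℝ) * Complex.I) ^ N = 1 := by
      rw [← Complex.exp_nat_mul, Complex.exp_eq_one_iff]
      refine ⟨-j, ?_⟩
      have : (d : ℂ) * N = 2 * Real.pi := by exact_mod_cast hdN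
      push_cast
      linear_combination (-(j : ℂ) * Complex.I) * this
    have : NeZero N := ⟨hN⟩
    obtain ⟨m, -, hm⟩ := he.eq_pow_of_pow_eq_one hw
    refine ⟨m, ?_⟩
    have : e ^ m * x = (‖x‖ : ℝ) * Complex.exp ((x.arg - j * d : ℝ) * Complex.I) := by
      rw [hm]
      conv_lhs => rw [← Complex.norm_mul_exp_arg_mul_I x]
      rw [mul_left_comm, ← Complex.exp_add]
      congr 2
      push_cast
      ring
    rw [mem_preimage, this, sect_arg (norm_pos_iff.2 hx) (hsub hj)]
    exact hj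
  · have hw : (e ^ m) ^ N = 1 := by rw [← pow_mul, mul_comm, pow_mul, he.pow_eq_one, one_pow]
    have hn : ‖e ^ m‖ = 1 := Complex.norm_eq_one_of_pow_eq_one hw hN
    have hx0 : ((‖x‖ : ℝ) : ℂ) ≠ 0 := by exact_mod_cast norm_ne_zero_iff.2 h0
    have h1 : e ^ m = Complex.exp ((((e ^ m * x).arg - x.arg : ℝ)) * Complex.I) := by
      have a := Complex.norm_mul_exp_arg_mul_I (e ^ m * x)
      have b := Complex.norm_mul_exp_arg_mul_I x
      rw [norm_mul, hn, one_mul] at a
      push_cast
      rw [sub_mul, Complex.exp_sub, eq_div_iff (Complex.exp_ne_zero _)]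
      apply mul_left_cancel₀ hx0
      rw [a, mul_left_comm, b]
    have h2 := hw
    rw [h1, ← Complex.exp_nat_mul, Complex.exp_eq_one_iff] at h2
    obtain ⟨n, h2⟩ := h2
    have h3 : (N : ℝ) * ((e ^ m * x).arg - x.arg) = n * (2 * Real.pi) := by
      have : ((N : ℝ) * ((e ^ m * x).arg - x.arg) : ℝ) = ((n * (2 * Real.pi) : ℝ) : ℂ) := by
        apply mul_right_cancel₀ Complex.I_ne_zero
        push_cast at h2 ⊢
        linear_combination h2
      exact_mod_cast this
    have h4 : (e ^ m * x).arg - x.arg = n * d := by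
      apply mul_left_cancel₀ hN0.ne'
      rw [h3, ← hdN]
      ring
    have h5 : n = 0 := by
      obtain ⟨a1, a2⟩ := hx
      obtain ⟨b1, b2⟩ := hm
      have c1 : (n : ℝ) < 1 := by
        by_contra h
        nlinarith [not_lt.1 h]
      have c2 : (-1 : ℝ) < n := by
        by_contra h
        nlinarith [not_lt.1 h]
      have c1' : n < 1 := by exact_mod_cast c1
      have c2' : -1 < n := by exact_mod_cast c2
      omega
    rw [h1, h4, h5]
    simp
  · rw [← integral_indicator hS, ← Complex.integral_comp_polarCoord_symm]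
    have h1 : ∫ p in polarCoord.target, p.1 • (Complex.arg ⁻¹' Ioc (-Real.pi)
        (-Real.pi + d)).indicator (fun x : ℂ => -deriv k (‖x‖ ^ 2) / Real.pi)
          (Complex.polarCoord.symm p) = ∫ p in Ioi (0 : ℝ) ×ˢ Ioo (-Real.pi) Real.pi,
        (p.1 * (-deriv k (p.1 ^ 2) / Real.pi)) *
          (Ioc (-Real.pi) (-Real.pi + d)).indicator (fun _ => (1 : ℝ)) p.2 := by
      refine setIntegral_congr_fun (measurableSet_Ioi.prod measurableSet_Ioo) fun p hp => ?_
      have ha : (Complex.polarCoord.symm p).arg = p.2 := by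
        rw [Complex.polarCoord_symm_apply, Complex.ofReal_cos, Complex.ofReal_sin]
        exact Complex.arg_mul_cos_add_sin_mul_I hp.1 (Ioo_subset_Ioc_self hp.2)
      have hn : ‖Complex.polarCoord.symm p‖ = p.1 := by
        rw [Complex.norm_polarCoord_symm, abs_of_pos hp.1]
      by_cases h : p.2 ∈ Ioc (-Real.pi) (-Real.pi + d)
      · simp only [indicator_of_mem h, indicator_of_mem (show Complex.polarCoord.symm p ∈
          Complex.arg ⁻¹' Ioc (-Real.pi) (-Real.pi + d) by rw [mem_preimage, ha]; exact h), hn,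
          smul_eq_mul, mul_one]
      · simp only [indicator_of_notMem h, indicator_of_notMem (show Complex.polarCoord.symm p ∉
          Complex.arg ⁻¹' Ioc (-Real.pi) (-Real.pi + d) by rw [mem_preimage, ha]; exact h),
          smul_zero, mul_zero]
    rw [h1, Measure.volume_eq_prod, setIntegral_prod_mul
      (fun x : ℝ => x * (-deriv k (x ^ 2) / Real.pi))
      ((Ioc (-Real.pi) (-Real.pi + d)).indicator fun _ => (1 : ℝ)), sect_radial hk,
      setIntegral_congr_set Ioo_ae_eq_Ioc, setIntegral_indicator measurableSet_Ioc,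
      inter_eq_right.2 hsub]
    simp only [integral_const, MeasurableSet.univ, measureReal_restrict_apply, univ_inter,
      Real.volume_real_Ioc, smul_eq_mul, mul_one]
    rw [max_eq_left (by linarith), hd]
    field_simp
    ring

end Pool.Agent.Lib.MP_1c0d65_gt.PW
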