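import Pool.Agent.Lib.MP_1c0d65_gt.PW.Int
import Pool.Agent.Lib.MP_1c0d65_gt.W.Arg

/-! The two winding numbers of a semi-invariant function on a thick torus. -/

set_option autoImplicit false

open scoped Topology Real
open Set Filter Complex

noncomputable section

namespace Pool.Agent.Lib.MP_1c0d65_gt.Flat

open Pool.Agent.Lib.MP_1e9af3_an W PW

theorem torus0 {V : Type} [NormedAddCommGroup V] [NormedSpace ℝ V] {N a e : ℕ} (hN : N ≠ 0)
    {F : V → ℂ} (hc : Continuous F) (h0 : ∀ p, F p ≠ 0) {v1 v2 v3 : V} (hv : N • v3 = v1 + a • v2)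
    (hg : ∀ p, F (p + v3) = ee (e / N) * F p) (p1 : ∀ p, F (p + v1) = F p)
    (p2 : ∀ p, F (p + v2) = F p) : ∃ w1 w2 : ℤ, w1 + a * w2 ≡ e [ZMOD N] ∧
      (∀ p, HasWind (fun s : ℝ => F (p + s • v1)) w1) ∧
      ∀ p, HasWind (fun s : ℝ => F (p + s • v2)) w2 := by
  obtain ⟨l, hl, he⟩ := exists_lift (U := (univ : Set V)) convex_univ isOpen_univ
    univ_nonempty hc.continuousOn fun x _ => h0 x
  have hl' : Continuous l := continuousOn_univ.1 hl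
  have step : ∀ (v : V) (c : ℂ), (∀ p, F (p + v) = ee c * F p) →
      ∃ k : ℤ, ∀ (n : ℕ) p, l (p + n • v) = l p + n * (c + k) := fun v c h => by
    have hi : ∀ p, ∃ k : ℤ, l (p + v) - l p - c = k := fun p => by
      obtain ⟨k, hk⟩ := ee_eq_iff.1 (show ee (l (p + v)) = ee (c + l p) by
        rw [ee_add, he _ trivial, he _ trivial, h])
      exact ⟨k, by rw [hk]; ring⟩
    obtain ⟨k, hk⟩ := hi 0
    have h1 : ∀ p, l (p + v) = l p + (c + k) := fun p => by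
      have := int_const (S := univ) isPreconnected_univ (g := fun p => l (p + v) - l p - c)
        (by fun_prop) (fun x _ => hi x) (mem_univ p) (mem_univ 0)
      rw [hk] at this
      linear_combination this
    refine ⟨k, fun n p => ?_⟩
    induction n with
    | zero => simp
    | succ n ih => rw [succ_nsmul, ← add_assoc, h1, ih]; push_cast; ring
  obtain ⟨k1, e1⟩ := step v1 0 fun p => by rw [ee_zero, one_mul, p1]
  obtain ⟨k2, e2⟩ := step v2 0 fun p => by rw [ee_zero, one_mul, p2]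
  obtain ⟨k, e3⟩ := step v3 (e / N) hg
  have a1 : ∀ {v : V} {k : ℤ}, (∀ (n : ℕ) p, l (p + n • v) = l p + n * (0 + k)) → ∀ p,
      HasWind (fun s : ℝ => F (p + s • v)) k := fun {v k} h p =>
    ⟨fun s => l (p + s • v), by fun_prop, fun s => he _ trivial, fun s => by
      simpa [add_smul, add_assoc] using h 1 (p + s • v)⟩
  refine ⟨k1, k2, ?_, a1 e1, a1 e2⟩
  have hN2 : (N : ℂ) ≠ 0 := by exact_mod_cast hN
  have b2 := e2 a (0 + 1 • v1)
  rw [e1 1 0, one_smul, add_assoc, ← hv, e3 N 0] at b2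
  have b4 : ((k1 + a * k2 : ℤ) : ℂ) = (e + N * k : ℤ) := by
    have : (N : ℂ) * (e / N) = e := by field_simp
    push_cast at b2 ⊢
    linear_combination this - b2
  rw [Int.cast_injective b4]
  simp [Int.ModEq]

theorem eps_eq (N m : ℕ) : eps N ^ m = ee (m / N) := by
  rw [eps, ← exp_nat_mul, ee, tpi]
  congr 1
  ring

theorem cir_add (r s : ℝ) (N m : ℕ) : cir 0 r (s + m / N) = eps N ^ m * cir 0 r s := by
  simp only [cir, zero_add, eps_eq]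
  push_cast
  rw [ee_add]
  ring

theorem cir_surj (x : ℂ) : cir 0 ‖x‖ (arg x / (2 * π)) = x := by
  rw [cir_div, circleMap, zero_add, norm_mul_exp_arg_mul_I]

/-- The winding numbers on the two families of circles of an invariant thick torus. -/
theorem torus {N a e : ℕ} (hN : N ≠ 0) {f : E → ℂ} {r1 r2 s1 s2 : ℝ} (hr : 0 ≤ r1) (hs : 0 ≤ s1)
    (hr' : r1 ≤ r2) (hs' : s1 ≤ s2) (hf : ∀ z : E, ‖z.1‖ ∈ Icc r1 r2 → ‖z.2‖ ∈ Icc s1 s2 →
      ContinuousAt f z ∧ f z ≠ 0 ∧ f (gen N a 1 z) = eps N ^ e * f z) :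
    ∃ w1 w2 : ℤ, w1 + a * w2 ≡ e [ZMOD N] ∧
      (∀ r ∈ Icc r1 r2, ∀ y, ‖y‖ ∈ Icc s1 s2 → HasWind (fun t => f (cir 0 r t, y)) w1) ∧
      ∀ s ∈ Icc s1 s2, ∀ x, ‖x‖ ∈ Icc r1 r2 → HasWind (fun t => f (x, cir 0 s t)) w2 := by
  have n1 : ∀ {r1 r2 : ℝ}, 0 ≤ r1 → r1 ≤ r2 → ∀ r t, ‖cir 0 (max r1 (min r r2)) t‖ ∈ Icc r1 r2 :=
    fun {r1 r2} h h' r t => by
      have := norm_cir 0 (h.trans (le_max_left r1 (min r r2))) t
      rw [sub_zero] at this
      rw [this]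
      exact ⟨le_max_left _ _, max_le h' (min_le_right _ _)⟩
  have n2 : ∀ {r1 r2 r : ℝ}, r ∈ Icc r1 r2 → max r1 (min r r2) = r := fun h => by
    rw [min_eq_left h.2, max_eq_right h.1]
  let g : (ℝ × ℝ) × ℝ × ℝ → E := fun p =>
    (cir 0 (max r1 (min p.1.1 r2)) p.2.1, cir 0 (max s1 (min p.1.2 s2)) p.2.2)
  have hg : Continuous g := by
    simp only [g, cir]
    fun_prop
  have hN' : (N : ℝ) ≠ 0 := by exact_mod_cast hN
  obtain ⟨w1, w2, h1, h2, h3⟩ := torus0 (a := a) (e := e) (F := fun p => f (g p)) hN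
    (continuous_iff_continuousAt.2 fun p => ContinuousAt.comp (f := g)
      (hf _ (n1 hr hr' _ _) (n1 hs hs' _ _)).1 hg.continuousAt)
    (fun p => (hf _ (n1 hr hr' _ _) (n1 hs hs' _ _)).2.1)
    (v1 := (0, 1, 0)) (v2 := (0, 0, 1)) (v3 := (0, ((1 : ℕ) : ℝ) / N, (a : ℝ) / N))
    (by refine Prod.ext (by simp) (Prod.ext ?_ ?_) <;> simp <;> field_simp)
    (fun p => by
      rw [← eps_eq, ← (hf (g p) (n1 hr hr' _ _) (n1 hs hs' _ _)).2.2]
      simp only [g, gen, Prod.fst_add, Prod.snd_add, add_zero, cir_add, mul_one])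
    (fun p => by simp only [g, Prod.fst_add, Prod.snd_add, add_zero, cir_per])
    (fun p => by simp only [g, Prod.fst_add, Prod.snd_add, add_zero, cir_per])
  refine ⟨w1, w2, h1, fun r h y hy => ?_, fun s h x hx => ?_⟩
  · simpa [g, n2 h, n2 hy, cir_surj] using h2 ((r, ‖y‖), 0, arg y / (2 * π))
  · simpa [g, n2 h, n2 hx, cir_surj] using h3 ((‖x‖, s), arg x / (2 * π), 0)

/-- The same with periods of `d arg f`. -/
theorem torus_cp {N a e : ℕ} (hN : N ≠ 0) {f : E → ℂ} {r1 r2 s1 s2 : ℝ} (hr : 0 ≤ r1) (hs : 0 ≤ s1)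
    (hr' : r1 ≤ r2) (hs' : s1 ≤ s2) (hf : ∀ z : E, ‖z.1‖ ∈ Icc r1 r2 → ‖z.2‖ ∈ Icc s1 s2 →
      ContDiffAt ℝ 1 f z ∧ f z ≠ 0 ∧ f (gen N a 1 z) = eps N ^ e * f z) :
    ∃ w1 w2 : ℤ, w1 + a * w2 ≡ e [ZMOD N] ∧
      (∀ r ∈ Icc r1 r2, ∀ y, ‖y‖ ∈ Icc s1 s2 → cp (darg fun x => f (x, y)) 0 r = 2 * π * w1) ∧
      ∀ s ∈ Icc s1 s2, ∀ x, ‖x‖ ∈ Icc r1 r2 → cp (darg fun y => f (x, y)) 0 s = 2 * π * w2 := by
  obtain ⟨w1, w2, h1, h2, h3⟩ := torus hN hr hs hr' hs'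
    fun z a b => ⟨(hf z a b).1.continuousAt, (hf z a b).2⟩
  have n2 : ∀ {r1 r2 r : ℝ}, 0 ≤ r1 → r ∈ Icc r1 r2 → ∀ t, ‖circleMap 0 r t‖ ∈ Icc r1 r2 :=
    fun h h' t => by simpa [abs_of_nonneg (h.trans h'.1)] using h'
  exact ⟨w1, w2, h1, fun r h y hy => cp_darg (h2 r h y hy) fun t =>
    ContDiffAt.comp (f := fun x => (x, y)) _ (hf _ (n2 hr h t) hy).1 (by fun_prop),
    fun s h x hx => cp_darg (h3 s h x hx) fun t =>
    ContDiffAt.comp (f := fun y => (x, y)) _ (hf _ hx (n2 hs h t)).1 (by fun_prop)⟩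

end Pool.Agent.Lib.MP_1c0d65_gt.Flat
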