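import Pool.Agent.Lib.MP_1c0d65_gt.E.MonDef
import Pool.Agent.Lib.MP_1c0d65_gt.E.Torus

/-! The factorisation of a semi-invariant function on a thick torus. -/

set_option autoImplicit false

open scoped Topology Real
open Set Filter Complex

noncomputable section

namespace Pool.Agent.Lib.MP_1c0d65_gt.PW

open Pool.Agent.Lib.MP_1e9af3_an W Flat

theorem torus_fac {N a b : ℕ} (hN : N ≠ 0) {r r' s s' : ℝ} (h0 : 0 < r) (h : r < r') (k0 : 0 < s)
    (k : s < s') {F : E → ℂ} (hF : ContinuousOn F (thick r r' s s'))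
    (hne : ∀ z ∈ thick r r' s s', F z ≠ 0)
    (hs : ∀ z ∈ thick r r' s s', F (gen N a 1 z) = eps N ^ b * F z) :
    ∃ (w w' : ℤ) (l : E → ℂ), ContinuousOn l (thick r r' s s') ∧
      (∀ z ∈ thick r r' s s', F z = z.1 ^ w * z.2 ^ w' * Complex.exp (l z)) ∧
      w + a * w' ≡ b [ZMOD N] := by
  have n0 : ∀ {r : ℝ}, 0 ≤ r → ∀ t, ‖cir 0 r t‖ = r := fun h t => by simpa using norm_cir 0 h t
  have n1 : ∀ {r1 r2 : ℝ}, 0 < r1 → r1 < r2 → ∀ r t, r1 ≤ ‖cir 0 (max r1 (min r r2)) t‖ ∧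
      ‖cir 0 (max r1 (min r r2)) t‖ ≤ r2 := fun {r1 r2} h h' r t => by
    rw [n0 (h.le.trans (le_max_left r1 (min r r2)))]
    exact ⟨le_max_left _ _, max_le h'.le (min_le_right _ _)⟩
  have n2 : ∀ {r1 r2 r : ℝ}, r ∈ Icc r1 r2 → max r1 (min r r2) = r := fun h => by
    rw [min_eq_left h.2, max_eq_right h.1]
  let g : (ℝ × ℝ) × ℝ × ℝ → E := fun p =>
    (cir 0 (max r (min p.1.1 r')) p.2.1, cir 0 (max s (min p.1.2 s')) p.2.2)
  have hg : Continuous g := by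
    simp only [g, cir]
    fun_prop
  have hm : ∀ p, g p ∈ thick r r' s s' := fun p =>
    ⟨(n1 h0 h _ _).1, (n1 h0 h _ _).2, (n1 k0 k _ _).1, (n1 k0 k _ _).2⟩
  have hN' : (N : ℝ) ≠ 0 := by exact_mod_cast hN
  have hc : Continuous fun p => F (g p) := hF.comp_continuous hg hm
  have p1 : ∀ p, g (p + (0, 1, 0)) = g p := fun p => by
    simp only [g, Prod.fst_add, Prod.snd_add, add_zero, cir_per]
  have p2 : ∀ p, g (p + (0, 0, 1)) = g p := fun p => by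
    simp only [g, Prod.fst_add, Prod.snd_add, add_zero, cir_per]
  obtain ⟨w1, w2, h1, h2, h3⟩ := torus0 (a := a) (e := b) hN hc (fun p => hne _ (hm p))
    (v1 := (0, 1, 0)) (v2 := (0, 0, 1)) (v3 := (0, ((1 : ℕ) : ℝ) / N, (a : ℝ) / N))
    (by refine Prod.ext (by simp) (Prod.ext ?_ ?_) <;> simp <;> field_simp)
    (fun p => by
      rw [← eps_eq, ← hs _ (hm p)]
      simp only [g, gen, Prod.fst_add, Prod.snd_add, add_zero, cir_add, mul_one])
    (fun p => by rw [p1]) (fun p => by rw [p2])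
  obtain ⟨l, hl, he⟩ := exists_lift (U := univ) convex_univ isOpen_univ univ_nonempty
    hc.continuousOn fun p _ => hne _ (hm p)
  have hl' : Continuous l := continuousOn_univ.1 hl
  have st : ∀ {v : (ℝ × ℝ) × ℝ × ℝ} {w : ℤ}, (∀ p, g (p + v) = g p) →
      (∀ p, HasWind (fun t : ℝ => F (g (p + t • v))) w) → ∀ p, l (p + v) = l p + w :=
    fun {v w} hv hw p => by
      obtain ⟨n, hn⟩ := lift_step (l := fun t : ℝ => l (p + t • v)) (by fun_prop) fun t => by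
        rw [he _ trivial, he _ trivial, add_smul, one_smul, ← add_assoc, hv]
      rw [(hw p).unique ⟨_, by fun_prop, fun t => he _ trivial, hn⟩]
      simpa using hn 0
  let L : (ℝ × ℝ) × ℝ × ℝ → ℂ := fun p => tpi * (l p - w1 * p.2.1 - w2 * p.2.2) -
    w1 * (Real.log (max r (min p.1.1 r')) : ℝ) - w2 * (Real.log (max s (min p.1.2 s')) : ℝ)
  have q0 : ∀ x y : ℝ, 0 < max r (min x y) ∧ 0 < max s (min x y) := fun x y =>
    ⟨h0.trans_le (le_max_left _ _), k0.trans_le (le_max_left _ _)⟩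
  have hL : Continuous L := by
    have c1 : Continuous fun p : (ℝ × ℝ) × ℝ × ℝ => Real.log (max r (min p.1.1 r')) :=
      Continuous.log (by fun_prop) fun p => (q0 _ _).1.ne'
    have c2 : Continuous fun p : (ℝ × ℝ) × ℝ × ℝ => Real.log (max s (min p.1.2 s')) :=
      Continuous.log (by fun_prop) fun p => (q0 _ _).2.ne'
    simp only [L]
    fun_prop
  have q1 : Function.Periodic L (0, 1, 0) := fun p => by
    simp only [L, st p1 h2, Prod.fst_add, Prod.snd_add, add_zero]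
    push_cast
    ring
  have q2 : Function.Periodic L (0, 0, 1) := fun p => by
    simp only [L, st p2 h3, Prod.fst_add, Prod.snd_add, add_zero]
    push_cast
    ring
  have ce : ∀ {ρ : ℝ}, 0 < ρ → ∀ (t : ℝ) (w : ℤ),
      cir 0 ρ t ^ w = exp (w * ((Real.log ρ : ℝ) + tpi * t)) := fun {ρ} hρ t w => by
    rw [exp_int_mul, exp_add, ← ofReal_exp, Real.exp_log hρ, cir, zero_add, ee]
  have q3 : ∀ p, F (g p) = (g p).1 ^ w1 * (g p).2 ^ w2 * exp (L p) := fun p => by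
    simp only [g, ce (q0 _ _).1, ce (q0 _ _).2, ← exp_add, L]
    rw [← he p trivial, ee]
    congr 1
    ring
  let σ : E → (ℝ × ℝ) × ℝ × ℝ := fun z => ((‖z.1‖, ‖z.2‖), arg z.1 / (2 * π), arg z.2 / (2 * π))
  have s1 : ∀ z ∈ thick r r' s s', g (σ z) = z := fun z hz => by
    simp only [g, σ, n2 ⟨hz.1, hz.2.1⟩, n2 ⟨hz.2.2.1, hz.2.2.2⟩, cir_surj]
  let K : Set ((ℝ × ℝ) × ℝ × ℝ) := (Icc r r' ×ˢ Icc s s') ×ˢ Icc (-1) 1 ×ˢ Icc (-1) 1
  have hK : IsCompact K := (isCompact_Icc.prod isCompact_Icc).prod (isCompact_Icc.prod isCompact_Icc)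
  have a1 : ∀ x : ℂ, arg x / (2 * π) ∈ Icc (-1 : ℝ) 1 := fun x => by
    have := Real.pi_pos
    rw [mem_Icc, ← abs_le, abs_div, div_le_one (by positivity), abs_of_pos Real.two_pi_pos]
    linarith [abs_arg_le_pi x]
  have s2 : ∀ z ∈ thick r r' s s', σ z ∈ K := fun z hz =>
    ⟨⟨⟨hz.1, hz.2.1⟩, hz.2.2.1, hz.2.2.2⟩, a1 _, a1 _⟩
  have ci : ∀ {ρ : ℝ}, 0 < ρ → ∀ t : ℝ, ∃ n : ℤ, arg (cir 0 ρ t) / (2 * π) = t + n :=
    fun {ρ} hρ t => by
      have e := cir_surj (cir 0 ρ t)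
      rw [n0 hρ.le, cir, zero_add] at e
      conv_rhs at e => rw [cir, zero_add]
      obtain ⟨n, hn⟩ := ee_eq_iff.1 (mul_left_cancel₀ (by exact_mod_cast hρ.ne') e)
      exact ⟨n, by exact_mod_cast hn⟩
  have s3 : ∀ p ∈ K, L (σ (g p)) = L p := fun p hp => by
    obtain ⟨n, hn⟩ := ci (h0.trans_le hp.1.1.1) p.2.1
    obtain ⟨m, hm⟩ := ci (k0.trans_le hp.1.2.1) p.2.2
    rw [← q1.zsmul n p, ← q2.zsmul m (p + _)]
    congr 1
    simp only [σ, g, n2 hp.1.1, n2 hp.1.2, hn, hm, n0 (h0.le.trans hp.1.1.1),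
      n0 (k0.le.trans hp.1.2.1)]
    refine Prod.ext (by simp) (Prod.ext ?_ ?_) <;> simp
  refine ⟨w1, w2, fun z => L (σ z), continuousOn_iff_isClosed.2 fun t ht =>
    ⟨g '' (K ∩ L ⁻¹' t), ((hK.inter_right (ht.preimage hL)).image hg).isClosed, ?_⟩,
    fun z hz => by simpa only [s1 z hz] using q3 (σ z), h1⟩
  ext z
  refine ⟨fun hz => ⟨⟨σ z, ⟨s2 z hz.2, hz.1⟩, s1 z hz.2⟩, hz.2⟩, ?_⟩
  rintro ⟨⟨p, hp, rfl⟩, hz⟩
  exact ⟨show L (σ (g p)) ∈ t by rw [s3 p hp.1]; exact hp.2, hz⟩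

end Pool.Agent.Lib.MP_1c0d65_gt.PW
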