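import Pool.Agent.Lib.MP_1c0d65_gt.E.MonDesc
import Pool.Agent.Lib.MP_1c0d65_gt.E.MonSect
import Pool.Agent.Lib.MP_1c0d65_gt.E.MonPlane
import Pool.Agent.Lib.MP_1c0d65_gt.PW.PlotA

/-! The periods of the disc form are winding numbers. -/

set_option autoImplicit false

open scoped Manifold ContDiff Topology
open Set MeasureTheory Filter Metric

noncomputable section

namespace Pool.Agent.Lib.MP_1c0d65_gt.PW

variable {X : Type} [TopologicalSpace X] [ChartedSpace E X] [IsManifold 𝓘(ℝ, E) ∞ X]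
  [T2Space X] [CompactSpace X] [MeasurableSpace X] [BorelSpace X] {c : Ctx X}
  {L : Set X} {N : ℕ} {e e' : ℂ} {R r r' s s' : ℝ} {f : E → X} {k k' : ℝ → ℝ}

theorem mw_area (ξ : Bil E ℝ) (ρ : ℝ) : wedge ξ (ρ • area1) = ρ * ξ (0, 1) (0, .I) := by
  rw [wedge_smul_right]
  simp [wedge, area1]

theorem mw_ext {α β : X → Bil E ℝ} {z : E} (hi : Function.Injective (dif f z))
    (h : pull2 f α z = pull2 f β z) : α (f z) = β (f z) := by
  have hs : Function.Surjective (dif f z) :=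
    (LinearMap.injective_iff_surjective (f := (dif f z : E →ₗ[ℝ] E))).1 hi
  refine ContinuousLinearMap.ext fun v => ContinuousLinearMap.ext fun w => ?_
  obtain ⟨v, rfl⟩ := hs v
  obtain ⟨w, rfl⟩ := hs w
  exact congrArg (fun B : Bil E ℝ => B v w) h

theorem MCut.mw_ne (hk : MCut r r' k) {x : ℂ} (h : deriv k (‖x‖ ^ 2) ≠ 0) :
    r ≤ ‖x‖ ∧ ‖x‖ ≤ r' := by
  have h0 := hk.pos
  have h1 := hk.lt
  have h2 := norm_nonneg x
  refine ⟨not_lt.1 fun hx => h ?_, not_lt.1 fun hx => h ?_⟩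
  · have : k =ᶠ[𝓝 (‖x‖ ^ 2)] fun _ => 1 :=
      (eventually_lt_nhds (show ‖x‖ ^ 2 < r ^ 2 by nlinarith)).mono fun t ht => hk.one t ht.le
    rw [this.deriv_eq, deriv_const]
  · have : k =ᶠ[𝓝 (‖x‖ ^ 2)] fun _ => 0 :=
      (eventually_gt_nhds (show r' ^ 2 < ‖x‖ ^ 2 by nlinarith)).mono fun t ht => hk.zero t ht.le
    rw [this.deriv_eq, deriv_const]

theorem MCut.mw_sm (hk : MCut r r' k) : ContDiff ℝ ∞ fun y : ℂ => k (‖y‖ ^ 2) :=
  hk.sm.comp (contDiff_norm_sq ℝ)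

theorem MCut.mw_fd (hk : MCut r r' k) {y : ℂ} (h : fderiv ℝ (fun y : ℂ => k (‖y‖ ^ 2)) y ≠ 0) :
    r ≤ ‖y‖ ∧ ‖y‖ ≤ r' := hk.mw_ne fun h0 => h <| by
  have h1 := (hk.sm.differentiable (by simp) (‖y‖ ^ 2)).hasDerivAt
  have h2 : DifferentiableAt ℝ (fun y : ℂ => ‖y‖ ^ 2) y :=
    (contDiff_norm_sq ℝ (n := 1)).differentiable (by simp) y
  have h3 := (h1.comp_hasFDerivAt y h2.hasFDerivAt).fderiv
  rw [h0, zero_smul] at h3
  exact h3

theorem mw_compact : IsCompact (thick r r' s s') := by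
  refine ((isCompact_closedBall (0 : ℂ) r').prod (isCompact_closedBall (0 : ℂ) s')).of_isClosed_subset
    ?_ fun z hz => ⟨mem_closedBall_zero_iff.2 hz.2.1, mem_closedBall_zero_iff.2 hz.2.2.2⟩
  exact (isClosed_le continuous_const continuous_fst.norm).inter ((isClosed_le continuous_fst.norm
    continuous_const).inter ((isClosed_le continuous_const continuous_snd.norm).inter
      (isClosed_le continuous_snd.norm continuous_const)))

theorem mw_pb {x y : ℂ} (h0 : x ≠ 0) (hx : ‖x‖ < R) (hy : ‖y‖ < R) : ((x, y) : E) ∈ pb R :=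
  ⟨mem_ball_zero_iff.2 (max_lt hx hy), fun h => h0 (congrArg Prod.fst h)⟩

theorem MLel.mw_cont {u : ℂ → X} {Z : Set X} {η : X → Bil E ℝ} {ψ : X → E →L[ℝ] ℝ}
    (h : MLel c u Z η ψ) (cZ : IsClosed Z) {z : E} (hf : ∀ᶠ y in 𝓝 z, SmAt ∞ f y)
    (hz : f z ∉ Z) : ContinuousAt (pull1 f ψ) z := by
  obtain ⟨U, P, b, hU, hx, hP, hb, H⟩ := h.loc (f z)
  have f0 := hf.self_of_nhds
  have h1 : ContDiffAt ℝ ∞ (P ∘ f) z := FnAt.comp_plot (hP.contMDiffAt (hU.mem_nhds hx)) f0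
  have h2 := (W.contDiffAt_darg (m := 0) h1 (H _ ⟨hx, hz⟩).1 (by simp)).continuousAt
  have h3 := (hb.sm1.contDiffAt (n := 0) (m := ∞) hU (by simp) le_rfl f0 hx).continuousAt
  refine (h2.sub h3).congr ?_
  filter_upwards [hf, f0.continuousAt.eventually ((hU.sdiff cZ).mem_nhds ⟨hx, hz⟩)] with y fy hy
  refine ContinuousLinearMap.ext fun v => ?_
  rw [pull1_apply, (H _ hy).2, Pi.sub_apply, sub_apply, W.darg_apply, fderiv_fn_comp
    ((hP.contMDiffAt (hU.mem_nhds hy.1)).mdifferentiableAt (by simp)) (fy.dfAt (by simp))]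
  rfl

theorem Up.mw_norm (h : Up c L N e e' R f) (m : ℕ) : ‖e ^ m‖ = 1 ∧ ‖e' ^ m‖ = 1 := by
  rw [norm_pow, norm_pow, Complex.norm_eq_one_of_pow_eq_one h.prim.pow_eq_one h.hN,
    Complex.norm_eq_one_of_pow_eq_one h.root h.hN, one_pow]
  exact ⟨rfl, rfl⟩

theorem Up.wind (h : Up c L N e e' R f) (hk : MCut r r' k) (hk' : MCut s s' k') (hr : r' < R)
    (hs : s' < R) {τ : X → Bil E ℝ} (hτ : Disc L R f k k' τ) {ι : Type} [Fintype ι]
    {u : ι → ℂ → X} {Z : ι → Set X} {η : ι → X → Bil E ℝ} {ψ : ι → X → E →L[ℝ] ℝ}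
    (hL : ∀ i, MLel c (u i) (Z i) (η i) (ψ i)) (hZ : ∀ z ∈ thick r r' s s', ∀ i, f z ∉ Z i)
    (cZ : ∀ i, IsClosed (Z i)) {F l : E → ℂ} {b : E → E →L[ℝ] ℝ} (hb : ContDiffOn ℝ ∞ b (pb R))
    (db : ∀ z ∈ pb R, ext1 b z = (2 * Real.pi) • ∑ i, pull2 f (η i) z)
    (hF : ∀ z ∈ pb R, (∀ i, f z ∉ Z i) → ContDiffAt ℝ ∞ F z ∧ F z ≠ 0 ∧
      W.darg F z = ∑ i, pull1 f (ψ i) z + b z) {w w' : ℤ} (hl : ContinuousOn l (thick r r' s s'))
    (e : ∀ z ∈ thick r r' s s', F z = z.1 ^ w * z.2 ^ w' * Complex.exp (l z)) :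
    (N : ℝ) * ∑ i, per (u i) τ = w' := by
  obtain ⟨U, θ, α, hU, hθ, sθ, hα, cα, hD, α0, αup, θup⟩ := h.desc hk hk' hr hs
  obtain ⟨S, mS, S1, S2, S3⟩ := exists_sector h.hN h.prim hk
  have two : (2 : WithTop ℕ∞) ≤ ∞ := ENat.LEInfty.out
  have op : IsOpen (pb R) := isOpen_ball.sdiff isClosed_singleton
  have eτ : τ = fun x => θ x • α x := funext fun x => by
    by_cases hx : x ∈ f '' pb R
    · obtain ⟨z, hz, rfl⟩ := hx
      exact mw_ext (h.inj z hz) ((hτ.up z hz).trans (hD.up z hz).symm)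
    · exact (hτ.off x hx).trans (hD.off x hx).symm
  set κ : ℂ → ℝ := fun x => -deriv k (‖x‖ ^ 2) / Real.pi with hκ
  set φ : ℂ → ℝ := fun y => k' (‖y‖ ^ 2) with hφ
  have κne : ∀ x, κ x ≠ 0 → r ≤ ‖x‖ ∧ ‖x‖ ≤ r' := fun x hx => hk.mw_ne fun h0 => hx (by
    simp only [hκ, h0, neg_zero, zero_div])
  have r0 : ∀ x : ℂ, r ≤ ‖x‖ → x ≠ 0 := fun x hx => norm_pos_iff.1 (hk.pos.trans_le hx)
  set S' : Set ℂ := S ∩ ({0}ᶜ ∩ ball 0 R) with hS'
  have mS' : MeasurableSet S' := mS.inter ((measurableSet_singleton 0).compl.inter measurableSet_ball)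
  set A : Set E := S' ×ˢ ball (0 : ℂ) R with hA
  have mA : MeasurableSet A := mS'.prod measurableSet_ball
  have Apb : A ⊆ pb R := fun z hz =>
    mw_pb hz.1.2.1 (mem_ball_zero_iff.1 hz.1.2.2) (mem_ball_zero_iff.1 hz.2)
  have Tpb : thick r r' s s' ⊆ pb R := fun z hz =>
    mw_pb (r0 _ hz.1) (hz.2.1.trans_lt hr) (hz.2.2.2.trans_lt hs)
  have fA : ∀ y ∈ A, SmAt 1 f y := fun y hy => (h.smooth y (Apb hy)).of_le (by simp)
  have iA : InjOn f A := fun z hz z' hz' e₀ => by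
    obtain ⟨m, rfl⟩ := (h.fibre z (Apb hz) z' (Apb hz')).1 e₀
    have h1 := S2 _ hz.1.1 hz.1.2.1 m hz'.1.1
    obtain ⟨n, rfl⟩ := h.prim.dvd_of_pow_eq_one m h1
    rw [dia, h1, pow_mul, h.root, one_pow, one_mul, one_mul]
  have pA : ∀ y ∈ A, 0 ≤ wedge (pull2 f c.om y) (pull2 f c.om y) := fun y hy =>
    (h.pos y (Apb hy)).le
  have αA : ∀ x ∉ f '' A, α x = 0 := fun x hx => by
    by_cases hx' : x ∈ f '' pb R
    · obtain ⟨z, hz, rfl⟩ := hx'
      have hz' := max_lt_iff.1 (mem_ball_zero_iff.1 hz.1)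
      by_cases h0 : z.1 = 0
      · obtain ⟨t, ht, -⟩ := αup z hz
        have : κ z.1 = 0 := not_not.1 fun h1 => r0 _ (κne _ h1).1 h0
        refine mw_ext (β := 0) (h.inj z hz) ?_
        rw [ht, pull2_zero]
        change (t * κ z.1) • area1 = 0
        rw [this, mul_zero]
        exact zero_smul ℝ area1
      · obtain ⟨m, hm⟩ := S1 _ h0
        obtain ⟨n1, n2⟩ := h.mw_norm m
        have hd : ((_ * z.1, e' ^ m * z.2) : E) ∈ A :=
          ⟨⟨hm, mul_ne_zero (norm_pos_iff.1 (n1 ▸ one_pos)) h0,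
            mem_ball_zero_iff.2 (by rw [norm_mul, n1, one_mul]; exact hz'.1)⟩,
            mem_ball_zero_iff.2 (by rw [norm_mul, n2, one_mul]; exact hz'.2)⟩
        exact (hx ⟨_, hd, ((h.fibre z hz _ (Apb hd)).2 ⟨m, rfl⟩).symm⟩).elim
    · exact α0 x hx'
  have QA : ∀ β : X → Bil E ℝ, (∀ x v, β x v v = 0) →
      c.Q β α = ∫ y in A, wedge (pull2 f β y) (pull2 f α y) := fun β hβ =>
    Q_plot' fA mA iA pA (fun _ _ => hβ _) (fun _ _ => hα.1 _ (mem_univ _)) fun x hx => by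
      simp [αA x hx, wedge]
  have φ0 : ∀ y : ℂ, ¬‖y‖ ≤ s' → φ y = 0 := fun y hy => hk'.zero _ (by
    nlinarith [not_le.1 hy, hk'.pos, hk'.lt])
  set G₁ : ι → E → ℝ := fun i y => κ y.1 * (φ y.2 * pull2 f (η i) y (0, 1) (0, .I)) with hG₁
  set G₂ : ι → E → ℝ := fun i y => κ y.1 * (fderiv ℝ φ y.2 1 * pull1 f (ψ i) y (0, .I) -
    fderiv ℝ φ y.2 .I * pull1 f (ψ i) y (0, 1)) with hG₂
  have e₁ : ∀ i, ∀ y ∈ A, wedge (pull2 f (fun x => θ x • η i x) y) (pull2 f α y) = G₁ i y :=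
    fun i y hy => by
      obtain ⟨t, ht, t1⟩ := αup y (Apb hy)
      rw [ht, mw_area, pull2_fsmul]
      change t * κ y.1 * (θ (f y) * pull2 f (η i) y (0, 1) (0, .I)) = κ y.1 * (φ y.2 * _)
      by_cases h0 : κ y.1 = 0
      · rw [h0, mul_zero, zero_mul, zero_mul]
      rw [show θ (f y) = φ y.2 from (θup y (Apb hy) (κne _ h0).1 (κne _ h0).2).self_of_nhds]
      by_cases h1 : ‖y.2‖ ≤ s'
      · rw [t1 h1, one_mul]
      · rw [φ0 _ h1, zero_mul, mul_zero, mul_zero]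
  have e₂ : ∀ i, ∀ y ∈ A,
      wedge (pull2 f (fun x => w11 (dfn θ x) (ψ i x)) y) (pull2 f α y) = G₂ i y := fun i y hy => by
    obtain ⟨t, ht, t1⟩ := αup y (Apb hy)
    rw [ht, mw_area, pull2_w11]
    change t * κ y.1 * w11 (pull1 f (dfn θ) y) (pull1 f (ψ i) y) (0, 1) (0, .I) = κ y.1 * _
    by_cases h0 : κ y.1 = 0
    · rw [h0, mul_zero, zero_mul, zero_mul]
    have h2 : θ ∘ f =ᶠ[𝓝 y] φ ∘ Prod.snd := θup y (Apb hy) (κne _ h0).1 (κne _ h0).2
    have h3 := ((hk'.mw_sm.differentiable (by simp) y.2).hasFDerivAt.comp y hasFDerivAt_snd).fderiv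
    rw [pull1_dfn (hθ.mdifferentiableAt (by simp)) ((fA y hy).dfAt (by simp)), h2.fderiv_eq, h3]
    change t * κ y.1 * (fderiv ℝ φ y.2 1 * pull1 f (ψ i) y (0, .I) -
      fderiv ℝ φ y.2 .I * pull1 f (ψ i) y (0, 1)) = _
    by_cases h1 : fderiv ℝ φ y.2 = 0
    · simp [h1]
    · rw [t1 (hk'.mw_fd h1).2, one_mul]
  have i₁ : ∀ i, IntegrableOn (G₁ i) A := fun i =>
    (integrableOn_wedge_plot c fA mA iA pA ((hL i).closed.1.fsmul isOpen_univ hθ.contMDiffOn)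
      hα).congr_fun (e₁ i) mA
  have out : ∀ y : E, y ∉ thick r r' s s' → κ y.1 = 0 ∨ fderiv ℝ φ y.2 = 0 := fun y hy => by
    by_contra hn
    rw [not_or] at hn
    exact hy ⟨(κne _ hn.1).1, (κne _ hn.1).2, hk'.mw_fd hn.2⟩
  have i₂ : ∀ i, IntegrableOn (G₂ i) A := fun i => by
    have cκ : Continuous fun y : E => κ y.1 :=
      (((hk.sm.continuous_deriv (by simp)).comp (by fun_prop)).neg).div_const _
    have cφ : ∀ v, Continuous fun y : E => fderiv ℝ φ y.2 v := fun v =>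
      ((hk'.mw_sm.continuous_fderiv (by simp)).comp continuous_snd).clm_apply continuous_const
    have cψ : ∀ v, ContinuousOn (fun y => pull1 f (ψ i) y v) (thick r r' s s') := fun v y hy =>
      (((hL i).mw_cont (cZ i) (eventually_of_mem (op.mem_nhds (Tpb hy)) h.smooth)
        (hZ y hy i)).clm_apply continuousAt_const).continuousWithinAt
    have c₂ : ContinuousOn (G₂ i) (thick r r' s s') := cκ.continuousOn.mul
      (((cφ _).continuousOn.mul (cψ _)).sub ((cφ _).continuousOn.mul (cψ _)))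
    refine (c₂.integrableOn_compact mw_compact).of_forall_sdiff_eq_zero mA fun y hy => ?_
    rcases out y hy.2 with h0 | h0 <;> simp [hG₂, h0]
  have pl : ∀ i, 2 * Real.pi * per (u i) τ = ∫ y in A, (2 * Real.pi * G₁ i y - G₂ i y) := fun i => by
    have H := (hL i).pl U θ α hU hθ sθ hα cα
    rw [QA _ fun x v => by simp [(hL i).closed.1.1 x (mem_univ _)], QA _ fun x v => w11_alt _ _ _,
      setIntegral_congr_fun mA (e₁ i), setIntegral_congr_fun mA (e₂ i), ← eτ] at H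
    rw [integral_sub ((i₁ i).const_mul _) (i₂ i), integral_const_mul, H, add_sub_cancel_left]
  have iG : ∀ i, IntegrableOn (fun y => 2 * Real.pi * G₁ i y - G₂ i y) A := fun i =>
    ((i₁ i).const_mul _).sub (i₂ i)
  have inner : ∀ x ∈ S', ∫ y in ball (0 : ℂ) R, ∑ i, (2 * Real.pi * G₁ i (x, y) - G₂ i (x, y)) =
      κ x * (2 * Real.pi * w') := fun x hx => by
    by_cases h0 : κ x = 0
    · simp [hG₁, hG₂, h0]
    have hx' := κne x h0
    have mem : ∀ y ∈ ball (0 : ℂ) R, ((x, y) : E) ∈ pb R := fun y hy =>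
      Apb (show ((x, y) : E) ∈ A from ⟨hx, hy⟩)
    have dj : ∀ y : ℂ, fderiv ℝ (fun y : ℂ => ((x, y) : E)) y = ContinuousLinearMap.inr ℝ ℂ ℂ :=
      fun y => (hasFDerivAt_prodMk_right x y).fderiv
    have sj : ContDiff ℝ ∞ fun y : ℂ => ((x, y) : E) := by fun_prop
    have th : ∀ y : ℂ, s ≤ ‖y‖ → ‖y‖ ≤ s' → ((x, y) : E) ∈ thick r r' s s' := fun y h1 h2 =>
      ⟨hx'.1, hx'.2, h1, h2⟩
    rw [← plane_wind hk' hs (b := fun y => (b (x, y)).comp (ContinuousLinearMap.inr ℝ ℂ ℂ))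
      (g := fun y => F (x, y)) (l := fun y => l (x, y)) (w := w') (a := x ^ w)
      (((hb.comp sj.contDiffOn mem).clm_comp contDiffOn_const).of_le (by simp))
      (zpow_ne_zero _ hx.2.1) (hl.comp sj.continuous.continuousOn fun y hy => th y hy.1 hy.2)
      (fun y h1 h2 => ⟨((hF _ (Tpb (th y h1 h2)) (hZ _ (th y h1 h2))).1.comp y
        sj.contDiffAt).of_le two, e _ (th y h1 h2)⟩), ← integral_const_mul]
    refine setIntegral_congr_fun measurableSet_ball fun y hy => ?_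
    have d1 := ext1_comp (a := b) (g := fun y : ℂ => ((x, y) : E)) (y := y)
      ((hb.contDiffAt (op.mem_nhds (mem y hy))).differentiableAt (by simp))
      (sj.contDiffAt.of_le two)
    simp only [dj] at d1
    have d2 : ext1 (fun y : ℂ => (b (x, y)).comp (ContinuousLinearMap.inr ℝ ℂ ℂ)) y 1 .I =
        2 * Real.pi * ∑ i, pull2 f (η i) (x, y) (0, 1) (0, .I) := by
      rw [d1, db _ (mem y hy)]
      simp
    simp only [d2, w11_apply, smul_eq_mul, hG₁, hG₂]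
    by_cases h1 : fderiv ℝ φ y = 0
    · simp only [show fderiv ℝ (fun y : ℂ => k' (‖y‖ ^ 2)) y = 0 from h1, h1, zero_apply, zero_mul,
        sub_zero, mul_zero, add_zero, Finset.mul_sum]
      exact Finset.sum_congr rfl fun i _ => by ring
    · have ty := th y (hk'.mw_fd h1).1 (hk'.mw_fd h1).2
      obtain ⟨F1, -, F3⟩ := hF _ (Tpb ty) (hZ _ ty)
      have d3 := W.darg_comp (f := F) (u := fun y : ℂ => ((x, y) : E)) (y := y)
        (F1.differentiableAt (by simp)) (sj.differentiable (by simp) y)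
      rw [d3, dj, F3]
      simp only [sub_apply, ContinuousLinearMap.comp_apply, ContinuousLinearMap.inr_apply, add_apply,
        sum_apply, Finset.sum_sub_distrib, ← Finset.mul_sum]
      ring
  have tot : 2 * Real.pi * ∑ i, per (u i) τ = 1 / N * (2 * Real.pi * w') := by
    rw [Finset.mul_sum, Finset.sum_congr rfl fun i _ => pl i,
      ← integral_finsetSum _ fun i _ => iG i, hA, Measure.volume_eq_prod,
      setIntegral_prod _ (integrable_finsetSum _ fun i _ => iG i),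
      setIntegral_congr_fun mS' inner, integral_mul_const, ← S3]
    congr 1
    refine (setIntegral_eq_of_subset_of_forall_sdiff_eq_zero (s := S') mS inter_subset_left
      fun x hx => not_not.1 fun h0 => hx.2 ⟨hx.1, r0 _ (κne x h0).1, ?_⟩).symm
    exact mem_ball_zero_iff.2 ((κne x h0).2.trans_lt hr)
  have hN : (N : ℝ) ≠ 0 := Nat.cast_ne_zero.2 h.hN
  have hπ := Real.pi_pos
  field_simp at tot
  linarith

end Pool.Agent.Lib.MP_1c0d65_gt.PW
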