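import Pool.Agent.Lib.MP_1c0d65_gt.E.MonSec
import Pool.Agent.Lib.MP_1c0d65_gt.E.MonUp
import Pool.Agent.Lib.MP_1c0d65_gt.E.MonWind
import Pool.Agent.Lib.MP_1c0d65_gt.E.MonTor
import Pool.Agent.Lib.MP_1c0d65_gt.E.MonLim
import Pool.Agent.Lib.MP_1c0d65_gt.E.MonLel

/-! The sum of the monodromies of a limit of anticanonical cycles. -/

set_option autoImplicit false

open scoped Manifold ContDiff Topology
open Set MeasureTheory Filter Metric

noncomputable section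

namespace Pool.Agent.Lib.MP_1c0d65_gt.PW

variable {X : Type} [TopologicalSpace X] [ChartedSpace E X] [IsManifold 𝓘(ℝ, E) ∞ X]
  [T2Space X] [CompactSpace X] [MeasurableSpace X] [BorelSpace X] {c : Ctx X} {O : Orb c}

theorem Up.wind' {L : Set X} {N : ℕ} {e e' : ℂ} {R r r' s s' : ℝ} {f : E → X} {k k' : ℝ → ℝ}
    (h : Up c L N e e' R (f ∘ Prod.swap)) (hf : ∀ z ∈ pb R, SmAt ∞ f z) (hk : MCut r r' k)
    (hk' : MCut s s' k') (hr : r' < R) (hs : s' < R) {τ : X → Bil E ℝ}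
    (hτ : Disc L R (f ∘ Prod.swap) k' k τ) {ι : Type} [Fintype ι]
    {u : ι → ℂ → X} {Z : ι → Set X} {η : ι → X → Bil E ℝ} {ψ : ι → X → E →L[ℝ] ℝ}
    (hL : ∀ i, MLel c (u i) (Z i) (η i) (ψ i)) (hZ : ∀ z ∈ thick r r' s s', ∀ i, f z ∉ Z i)
    (cZ : ∀ i, IsClosed (Z i)) {F l : E → ℂ} {b : E → E →L[ℝ] ℝ} (hb : ContDiffOn ℝ ∞ b (pb R))
    (db : ∀ z ∈ pb R, ext1 b z = (2 * Real.pi) • ∑ i, pull2 f (η i) z)
    (hF : ∀ z ∈ pb R, (∀ i, f z ∉ Z i) → ContDiffAt ℝ ∞ F z ∧ F z ≠ 0 ∧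
      W.darg F z = ∑ i, pull1 f (ψ i) z + b z) {w w' : ℤ} (hl : ContinuousOn l (thick r r' s s'))
    (he : ∀ z ∈ thick r r' s s', F z = z.1 ^ w * z.2 ^ w' * Complex.exp (l z)) :
    (N : ℝ) * ∑ i, per (u i) τ = w := by
  let A : E →L[ℝ] E := (ContinuousLinearMap.snd ℝ ℂ ℂ).prod (ContinuousLinearMap.fst ℝ ℂ ℂ)
  have hA : ∀ z : E, HasFDerivAt (Prod.swap : E → E) A z := fun z => A.hasFDerivAt
  have cA : ContDiff ℝ ∞ (Prod.swap : E → E) := A.contDiff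
  have ht : ∀ z ∈ thick s s' r r', z.swap ∈ thick r r' s s' := fun z hz =>
    ⟨hz.2.2.1, hz.2.2.2, hz.1, hz.2.1⟩
  have hb' := fun z hz => hb.contDiffAt ((mon_isOpen_pb R).mem_nhds (x := z) hz)
  refine h.wind hk' hk hs hr hτ hL (fun z hz => hZ _ (ht z hz)) cZ (F := fun z => F z.swap)
    (l := fun z => l z.swap) (b := fun z => (b z.swap).comp A) (w := w')
    (fun z hz => (((hb' _ (up_swap_pb hz)).comp z cA.contDiffAt).clm_comp
      contDiffAt_const).contDiffWithinAt) (fun z hz => ?_) (fun z hz hn => ?_)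
    (hl.comp continuous_swap.continuousOn ht) fun z hz => ?_
  · have := ext1_comp (g := Prod.swap) (cd_diff (hb' _ (up_swap_pb hz)))
      (cA.contDiffAt.of_le two_le)
    simp only [fun z => (hA z).fderiv] at this
    rw [this, db _ (up_swap_pb hz)]
    simp only [pull2_comp ((hf _ (up_swap_pb hz)).dfAt (by simp)) (hA z).differentiableAt,
      (hA z).fderiv]
    exact bil_ext fun v v' => by simp
  · obtain ⟨h1, h2, h3⟩ := hF _ (up_swap_pb hz) hn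
    refine ⟨h1.comp z cA.contDiffAt, h2, ?_⟩
    rw [W.darg_comp (cd_diff h1) (hA z).differentiableAt, h3]
    simp only [pull1_comp ((hf _ (up_swap_pb hz)).dfAt (by simp)) (hA z).differentiableAt,
      (hA z).fderiv]
    exact ContinuousLinearMap.ext fun v => by simp
  · rw [he _ (ht z hz), Prod.fst_swap, Prod.snd_swap, mul_comm (z.2 ^ w)]

theorem mon_int {l : Filter ℕ} {g : ℕ → ℝ} {A : ℕ} (h : Tendsto g l (𝓝 A)) :
    ∀ᶠ n in l, ∀ w : ℤ, g n = w → w = A := by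
  filter_upwards [h.eventually (ball_mem_nhds _ one_pos)] with n hn w hw
  rw [hw, Real.dist_eq] at hn
  have : |w - A| < 1 := by exact_mod_cast hn
  exact sub_eq_zero.1 (Int.abs_lt_one_iff.1 this)

theorem mon_sum [SimplyConnectedSpace X] {J : ℕ → X → E →L[ℝ] E} (hJ : ∀ n, Tame univ c.om (J n))
    {r : ℕ} (S : ∀ n, Fin r → OC (Orb.triv c (J n) (hJ n))) (hS : ∀ n i, (S n i).Emb)
    (hd : ∀ n α, Closed α → ∑ i, per (S n i).u α = c.κ * c.Q c.om α)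
    {ι : Type} [Fintype ι] (C : ι → OC O) (_hC : ∀ m, (C m).Simple) (μ : ι → ℕ)
    (l : Filter ℕ) [l.NeBot] (lim : ∀ α, Form univ α → O.Test α →
      Tendsto (fun n => ∑ i, per (S n i).u α) l (𝓝 (∑ m, μ m * per (C m).u α)))
    (haus : ∀ K, IsCompact K → K ⊆ O.W → (∀ m, Disjoint K (C m).img) →
      ∀ᶠ n in l, ∀ i, Disjoint K (S n i).img)
    (id : ∀ m, (C m).F → Fin O.n) (j : ∀ m, (C m).F → ℕ) (hm : ∀ m, (C m).Mon (id m) (j m))
    (i : Fin O.n) : ∑ m, μ m * ∑ a, (if id m a = i then O.a i * j m a else 0) ≡ 1 + O.a i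
      [MOD O.N i] := by
  obtain ⟨ρ, ρ', s, s', h1, h2, h3, h4, h5, h6, h7, h8⟩ := mon_lim C id j hm i
  obtain ⟨k, hk⟩ := exists_mcut h1 h2
  obtain ⟨k', hk'⟩ := exists_mcut h4 h5
  obtain ⟨-, θ, α, -, -, -, -, -, hτ, -⟩ := (O.up i).desc hk hk' h3 h6
  obtain ⟨-, θ', α', -, -, -, -, -, hτ', -⟩ := (O.up' i).desc hk' hk h6 h3
  choose n n' e1 e2 e3 using h8 k k' _ _ hk hk' hτ hτ'
  have key : ∀ {τ} {n : ι → ℕ}, Form univ τ → O.Test τ → (∀ m, O.N i * per (C m).u τ = n m) →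
      Tendsto (fun p => (O.N i : ℝ) * ∑ m, per (S p m).u τ) l (𝓝 (∑ m, μ m * n m : ℕ)) :=
    fun {τ n} a b e => by
      convert (lim τ a b).const_mul (O.N i : ℝ) using 2
      push_cast
      rw [Finset.mul_sum]
      exact Finset.sum_congr rfl fun m _ => by rw [← e m, mul_left_comm]
  have pbT : thick ρ ρ' s s' ⊆ pb O.R := fun z hz =>
    mw_pb (norm_pos_iff.1 (h1.trans_le hz.1)) (hz.2.1.trans_lt h3) (hz.2.2.2.trans_lt h6)
  obtain ⟨p, p1, p2, p3⟩ := ((mon_int (key hτ.form hτ.test e1)).and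
    ((mon_int (key hτ'.form hτ'.test e2)).and (haus (O.Pi i '' thick ρ ρ' s s')
      (mw_compact.image_of_continuousOn ((O.smooth i).continuousOn.mono pbT))
      (image_subset_iff.2 fun z hz => O.maps i (pbT hz))
      fun m => disjoint_left.2 (forall_mem_image.2 fun z hz => h7 z hz m)))).exists
  choose η ψ hL using fun m => exists_mlel (S p m) (hS p m)
  obtain ⟨F, b, b1, b2, b3⟩ := mon_sec (S p) (hd p) hL O i
  have hZ : ∀ z ∈ thick ρ ρ' s s', ∀ m, O.Pi i z ∉ (S p m).img := fun z hz m =>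
    disjoint_left.1 (p3 m) (mem_image_of_mem _ hz)
  have cZ : ∀ m, IsClosed (S p m).img := fun m => isClosed_of_closure_subset fun _ hp =>
    (S p m).img_closed (by simp [Orb.W, Orb.triv]) hp
  have b4 := fun z hz => b3 z (pbT hz) (hZ z hz)
  have b5 := fun z hz hn => (⟨(b3 z hz hn).1, (b3 z hz hn).2.1, (b3 z hz hn).2.2.1⟩ : _ ∧ _ ∧ _)
  obtain ⟨w, w', g, g1, g2, g3⟩ := torus_fac (O.N_ne i) h1 h2 h4 h5
    (fun z hz => (b4 z hz).1.continuousAt.continuousWithinAt) (fun z hz => (b4 z hz).2.1)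
    fun z hz => (b4 z hz).2.2.2
  rw [p1 _ ((O.up i).wind hk hk' h3 h6 hτ hL hZ cZ b1 b2 b5 g1 g2),
    p2 _ ((O.up' i).wind' (fun _ => O.Pi_cm i) hk hk' h3 h6 hτ' hL hZ cZ b1 b2 b5 g1 g2)] at g3
  refine Nat.ModEq.trans ?_ (Int.natCast_modEq_iff.1 (by exact_mod_cast g3) :
    ∑ m, μ m * n' m + O.a i * ∑ m, μ m * n m ≡ _ [MOD _])
  rw [Finset.mul_sum, ← Finset.sum_add_distrib]
  refine Nat.ModEq.sum fun m _ => ?_
  rw [mul_left_comm, ← mul_add]
  exact ((e3 m).mul_left _).symm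

end Pool.Agent.Lib.MP_1c0d65_gt.PW
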