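import Pool.Agent.Lib.MP_1c0d65_gt.E.WeiD

/-! Weierstrass function of a branch at a cyclic quotient singularity: existence. -/

set_option autoImplicit false

open Filter Topology Asymptotics Finset Polynomial

noncomputable section

namespace Pool.Agent.Lib.MP_1c0d65_gt.PW

open W

theorem wei_coeff {ι : Type} (s : Finset ι) {Y : ι → ℂ → ℂ} (h : ∀ k, AnalyticAt ℂ (Y k) 0)
    (i : ℕ) : AnalyticAt ℂ (fun t => (∏ k ∈ s, (X - C (Y k t))).coeff i) 0 := by
  classical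
  induction s using Finset.induction_on generalizing i with
  | empty => simpa using analyticAt_const
  | insert k s hk ih =>
    simp only [prod_insert hk]
    cases i with
    | zero =>
      simp only [mul_coeff_zero, coeff_sub, coeff_X_zero, coeff_C_zero]
      exact (analyticAt_const.sub (h k)).mul (ih 0)
    | succ i =>
      simp only [coeff_X_sub_C_mul]
      exact (ih i).sub ((h k).mul (ih _))

/-- A symmetric family of sheets is the zero set of a holomorphic function. -/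
theorem wei_poly {A : ℕ} (hA : A ≠ 0) {θ : ℂ} (hθ : IsPrimitiveRoot θ A) {Y : ℕ → ℂ → ℂ}
    (h : ∀ k, AnalyticAt ℂ (Y k) 0) (e : ∀ᶠ t in 𝓝 0, ∀ y,
      ∏ k ∈ range A, (y - Y k (θ * t)) = ∏ k ∈ range A, (y - Y k t)) :
    ∃ P : E → ℂ, AnalyticAt ℂ P 0 ∧
      ∀ᶠ t in 𝓝 0, ∀ y, P (t ^ A, y) = ∏ k ∈ range A, (y - Y k t) := by
  have ev : ∀ t y, (∏ k ∈ range A, (X - C (Y k t))).eval y = ∏ k ∈ range A, (y - Y k t) := by
    intro t y
    simp [eval_prod]
  choose c hc hc' using fun i => wei_desc hA hθ (wei_coeff (range A) h i) (by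
    filter_upwards [e] with t ht
    rw [Polynomial.funext fun y => (ev _ y).trans ((ht y).trans (ev _ y).symm)])
  refine ⟨fun w => ∑ i ∈ range (A + 1), c i w.1 * w.2 ^ i, ?_, ?_⟩
  · exact Finset.analyticAt_fun_sum _ fun i _ =>
      (AnalyticAt.comp (g := c i) (f := fun w : E => w.1) (x := 0) (hc i) analyticAt_fst).mul (analyticAt_snd.pow i)
  · filter_upwards [(eventually_all_finset (range (A + 1))).2 fun i _ => hc' i] with t ht y
    rw [← ev, eval_eq_sum_range' (n := A + 1)]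
    · exact sum_congr rfl fun i hi => by rw [ht i hi]
    · refine Nat.lt_succ_of_le ((natDegree_prod_le _ _).trans ?_)
      simp

/-- The sheets of the orbit of the branch `(t ^ A, Y t)`. -/
def wsh (N a A : ℕ) (Y : ℂ → ℂ) (k : ℕ) (t : ℂ) : ℂ :=
  (eps N ^ (a * (N - 1))) ^ k * Y (eps (N * A) ^ k * t)

variable {N a j A : ℕ} {Y : ℂ → ℂ} {z : ℂ → E}

theorem wsh_zero (t : ℂ) : wsh N a A Y 0 t = Y t := by simp [wsh]

theorem wsh_an (h : AnalyticAt ℂ Y 0) (k : ℕ) : AnalyticAt ℂ (wsh N a A Y k) 0 :=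
  analyticAt_const.mul (AnalyticAt.comp (g := Y) (by simpa using h) (by fun_prop))

theorem wei_eta (hN : N ≠ 0) (a : ℕ) : eps N ^ a * eps N ^ (a * (N - 1)) = 1 := by
  rw [← pow_add, ← mul_one_add, show 1 + (N - 1) = N by omega, mul_comm, pow_mul,
    (mon_prim hN).pow_eq_one, one_pow]

theorem wsh_step (hN : N ≠ 0) (hA : A ≠ 0) (h1 : A ≡ j [MOD N])
    (hY : ∀ᶠ t in 𝓝 0, Y (eps N * t) = eps N ^ (a * j) * Y t) (m : ℕ) : ∀ᶠ t in 𝓝 0, ∀ y,
      ∏ k ∈ range A, (eps N ^ (a * m) * y - wsh N a A Y k (eps (N * A) ^ m * t)) =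
        eps N ^ (a * j * m) * ∏ k ∈ range A, (y - wsh N a A Y k t) := by
  have e1 : eps N ^ (a * j) = (eps N ^ a) ^ A := by
    rw [← pow_mul]
    exact (wei_modEq hN).2 (h1.symm.mul_left a)
  have one : ∀ᶠ t in 𝓝 0, ∀ y,
      ∏ k ∈ range A, (eps N ^ a * y - wsh N a A Y k (eps (N * A) * t)) =
        eps N ^ (a * j) * ∏ k ∈ range A, (y - wsh N a A Y k t) := by
    filter_upwards [hY] with t ht y
    have e2 : ∀ k, eps N ^ a * y - wsh N a A Y k (eps (N * A) * t) =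
        eps N ^ a * (y - wsh N a A Y (k + 1) t) := fun k => by
      rw [mul_sub, wsh, wsh, pow_succ', pow_succ _ k, mul_assoc (eps (N * A) ^ k),
        ← mul_assoc (eps N ^ a), ← mul_assoc (eps N ^ a), wei_eta hN, one_mul]
    have e3 : wsh N a A Y A t = wsh N a A Y 0 t := by
      rw [wsh_zero, wsh, wei_eps_pow hN hA, ht, e1, ← mul_assoc, ← mul_pow, mul_comm _ (eps N ^ a),
        wei_eta hN, one_pow, one_mul]
    simp only [e2, prod_mul_distrib, prod_const, card_range, e1]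
    congr 1
    generalize wsh N a A Y = φ at e3
    obtain ⟨A', rfl⟩ := Nat.exists_eq_succ_of_ne_zero hA
    rw [prod_range_succ, prod_range_succ', e3]
  induction m with
  | zero => simp
  | succ m ih =>
    filter_upwards [ih, (wei_mul (eps (N * A) ^ m)).eventually one] with t t1 t2 y
    have := t2 (eps N ^ (a * m) * y)
    rw [t1, ← mul_assoc, ← mul_assoc, ← mul_assoc, ← pow_add, ← pow_add, ← pow_succ'] at this
    rw [mul_add_one, mul_add_one, add_comm (a * m), add_comm (a * j * m)]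
    exact this

theorem wsh_bigO {B : ℕ} (hY : Y =O[𝓝 0] fun t : ℂ => t ^ B) (k : ℕ) :
    wsh N a A Y k =O[𝓝 0] fun t : ℂ => t ^ B := by
  refine ((hY.comp_tendsto (wei_mul (eps (N * A) ^ k))).const_mul_left _).trans ?_
  simp only [Function.comp_def, mul_pow]
  exact (isBigO_refl _ _).const_mul_left _

/-- The order of the difference of two sheets. -/
theorem wsh_diff (hN : N ≠ 0) {B : ℕ} {b : ℂ → ℂ} (hB : B ≡ a * j [MOD N]) (an : AnalyticAt ℂ Y 0)
    (hb : AnalyticAt ℂ b 0) (hYb : ∀ᶠ t in 𝓝 0, Y t = t ^ B * b t)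
    (hY : ∀ᶠ t in 𝓝 0, Y (eps N * t) = eps N ^ (a * j) * Y t) (k : ℕ)
    (hne : ¬ ∀ᶠ t in 𝓝 0, Y t - wsh N a A Y k t = 0) : ∃ q : ℕ,
      HasIdx (fun t => Y t - wsh N a A Y k t) 0 (B + N * q : ℕ) ∧
        (N * A ∣ k * (A * (a * (N - 1)) + B) → A ≠ 0 → 1 ≤ q) := by
  obtain ⟨n, g, g1, g0, g2⟩ := wei_ord (an.sub (wsh_an an k)) hne
  have h1 : n ≡ a * j [MOD N] := (wei_modEq hN).1 (wei_mono g1.continuousAt g0 g2 (by
    filter_upwards [hY, (wei_mul (eps (N * A) ^ k)).eventually hY] with t t1 t2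
    simp only [Pi.sub_apply, wsh]
    rw [t1, mul_left_comm _ (eps N) t, t2]
    ring) ((mon_prim hN).ne_zero hN)).1
  have hO := wei_fac_bigO hb.continuousAt hYb
  have h2 : B ≤ n := wei_ord_le g1.continuousAt g0 g2 (hO.sub (wsh_bigO hO k))
  obtain ⟨q, hq⟩ := (Nat.modEq_iff_dvd' h2).1 (hB.trans h1.symm)
  have h3 : n = B + N * q := by omega
  refine ⟨q, h3 ▸ wei_idx g1 g0 g2, fun hd hA => ?_⟩
  have h4 : (eps N ^ (a * (N - 1))) ^ k * (eps (N * A) ^ k) ^ B = 1 := by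
    rw [← wei_eps_pow hN hA, ← pow_mul, ← pow_mul, ← pow_mul, ← pow_add,
      (mon_prim (mul_ne_zero hN hA)).pow_eq_one_iff_dvd]
    convert hd using 1
    ring
  have h5 : AnalyticAt ℂ (fun t => b t - b (eps (N * A) ^ k * t)) 0 :=
    hb.sub (AnalyticAt.comp (g := b) (by simpa using hb) (by fun_prop))
  have h6 := (isBigO_refl (fun t : ℂ => t ^ B) (𝓝 0)).mul h5.differentiableAt.isBigO_sub
  have h7 : B + 1 ≤ n := by
    refine wei_ord_le g1.continuousAt g0 g2 (h6.congr' ?_ (Eventually.of_forall fun t => ?_))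
    · filter_upwards [hYb, (wei_mul (eps (N * A) ^ k)).eventually hYb] with t t1 t2
      simp only [Pi.sub_apply, wsh, mul_zero, sub_self, sub_zero]
      rw [t1, t2, mul_pow]
      linear_combination (t ^ B * b (eps (N * A) ^ k * t)) * h4
    · simp [pow_succ]
  rcases q with _ | q
  · omega
  · omega

theorem wei_count {A' B g A1 B1 : ℕ} (hN : N ≠ 0) {q : ℕ → ℕ}
    (hq : ∀ k, N * (A' + 1) ∣ (k + 1) * ((A' + 1) * (a * (N - 1)) + B) → k < A' → 1 ≤ q k)
    (e1 : A' + 1 = g * A1) (e2 : B = g * B1) (e3 : B1 ≡ a * A1 [MOD N]) :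
    g ≤ ∑ k ∈ range A', q k + 1 := by
  have h0 : 0 < A1 := Nat.pos_of_mul_pos_left (a := g) (by omega)
  have h1 : N ∣ A1 * (a * (N - 1)) + B1 := by
    refine (Nat.modEq_zero_iff_dvd).1 ((e3.add_left _).trans ?_)
    obtain ⟨M, rfl⟩ := Nat.exists_eq_succ_of_ne_zero hN
    exact (Nat.modEq_zero_iff_dvd).2 ⟨a * A1, by simp only [Nat.succ_sub_one, Nat.succ_eq_add_one]; ring⟩
  obtain ⟨c, hc⟩ := h1
  have h2 : A' / A1 ≤ ∑ k ∈ range A', q k := by
    rw [← Nat.card_multiples, card_eq_sum_ones]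
    refine (sum_le_sum fun k hk => ?_).trans (sum_le_sum_of_subset (filter_subset _ _))
    obtain ⟨hk1, i, hi⟩ := mem_filter.1 hk
    refine hq k ⟨i * c, ?_⟩ (mem_range.1 hk1)
    rw [hi, e1, e2, mul_assoc g, ← mul_add, hc]
    ring
  have h3 : g * A1 ≤ (A' / A1 + 1) * A1 := by
    rw [← e1, mul_comm]
    exact Nat.lt_mul_div_succ A' h0
  have := Nat.le_of_mul_le_mul_right h3 h0
  omega

theorem Bra.exists_wei {N a j : ℕ} {z : ℂ → E} (hz : Bra N a j z) (ha : a.Coprime N) (hj : j < N)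
    {S : Set ℂ} (hS : S ∈ 𝓝[≠] (0 : ℂ))
    (simple : ∀ ζ ∈ S, ∀ ζ' ∈ S, ∀ m, z ζ' = gen N a m (z ζ) → ζ' ^ N = ζ ^ N) :
    ∃ P, Wei N a j z P := by
  by_cases h0 : ∀ᶠ ζ in 𝓝 0, (z ζ).1 = 0
  · exact ⟨_, wei_axis hz ha hj hS simple h0⟩
  have hN : N ≠ 0 := by omega
  have he := mon_prim hN
  obtain ⟨A, g, g1, g0, g2⟩ := wei_ord hz.an1 h0
  have hA := wei_ord_pos g0 g2 (by rw [hz.zero]; rfl)
  have hd := mon_prim (mul_ne_zero hN hA)
  obtain ⟨m1, m2⟩ := wei_mono g1.continuousAt g0 g2 hz.mon1 (he.ne_zero hN)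
  have hAj : A ≡ j [MOD N] := (wei_modEq hN).1 m1
  obtain ⟨ξ, σ, hw⟩ := wei_param hA g1 g0 g2 m2
  set Y : ℂ → ℂ := fun t => (z (σ t)).2 with hYd
  have hσ : ∀ᶠ t in 𝓝 0, z (σ t) = (t ^ A, Y t) := hw.pw'.mono fun t h => Prod.ext h rfl
  have hξ : ∀ᶠ ζ in 𝓝 0, z ζ = (ξ ζ ^ A, Y (ξ ζ)) := by
    filter_upwards [hw.t.eventually hσ, hw.left] with ζ t1 t2
    rw [← t1, t2]
  have an : AnalyticAt ℂ Y 0 :=
    AnalyticAt.comp (g := fun ζ => (z ζ).2) (by rw [hw.z']; exact hz.an2) hw.an'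
  have hY : ∀ᶠ t in 𝓝 0, Y (eps N * t) = eps N ^ (a * j) * Y t := by
    filter_upwards [hw.rot', hw.t'.eventually hz.mon2] with t t1 t2
    simp only [hYd, t1, t2]
  obtain ⟨B, b, hB, hBj, hb, hYb⟩ := wei_fac hN an (by simp [hYd, hw.z', hz.zero]) hY
  have step := wsh_step hN hA hAj hY
  obtain ⟨P, hP, hF⟩ := wei_poly hA (hd.pow (Nat.pos_of_ne_zero (mul_ne_zero hN hA)) rfl)
    (wsh_an (N := N) (a := a) (A := A) an) (by
      filter_upwards [step N] with t ht y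
      simpa [pow_mul', he.pow_eq_one] using ht y)
  obtain ⟨ρ, r1, r2⟩ := wei_root hA
  have t1 : Tendsto (fun w : E => w.1) (𝓝 0) (𝓝 0) := continuous_fst.tendsto (0 : E)
  have t2 : Tendsto (fun w : E => w.2) (𝓝 0) (𝓝 0) := continuous_snd.tendsto (0 : E)
  have t3 : Tendsto (fun w : E => ρ w.1) (𝓝 0) (𝓝 0) := r2.comp t1
  have hPw : ∀ᶠ w in 𝓝 (0 : E), P w = ∏ k ∈ range A, (w.2 - wsh N a A Y k (ρ w.1)) := by
    filter_upwards [t3.eventually hF] with w hw
    rw [← hw, r1]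
  have sheet : ∀ k, ∀ᶠ t in 𝓝 0,
      (t ^ A, wsh N a A Y k t) = gen N a ((N - 1) * k) (z (σ (eps (N * A) ^ k * t))) := fun k => by
    filter_upwards [(wei_mul (eps (N * A) ^ k)).eventually hσ] with t ht
    have e := wei_eta hN 1
    rw [pow_one, one_mul] at e
    rw [ht, gen, wsh, mul_pow, ← pow_mul _ k A, mul_comm k A, pow_mul _ A k, wei_eps_pow hN hA,
      pow_mul _ (N - 1) k, ← mul_assoc, ← mul_pow, mul_comm _ (eps N), e, one_pow, one_mul,
      ← mul_assoc a, pow_mul _ _ k]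
  have semi : ∀ m, ∀ᶠ w in 𝓝 (0 : E), P (gen N a m w) = eps N ^ (a * j * m) * P w := fun m => by
    filter_upwards [hPw, t3.eventually (step m),
      t3.eventually ((wei_mul (eps (N * A) ^ m)).eventually hF)] with w w1 w2 w3
    rw [w1, ← w2, ← w3, mul_pow, r1, ← pow_mul, mul_comm m A, pow_mul, wei_eps_pow hN hA, gen]
  have van : ∀ᶠ ζ in 𝓝 (0 : ℂ), P (z ζ) = 0 := by
    filter_upwards [hξ, hw.t.eventually hF] with ζ z1 z2
    rw [z1, z2]
    exact prod_eq_zero (mem_range.2 (Nat.pos_of_ne_zero hA)) (by rw [wsh_zero, sub_self])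
  refine ⟨P, hP, semi, van, fun T hT => ?_,
    fun j' hj' z' h1 h2 => wei_pos hN hP semi ?_ hj' h1 h2, ?_⟩
  · filter_upwards [hPw, t3.eventually ((eventually_all_finset (range A)).2 fun k _ =>
      (sheet k).and ((hw.t'.comp (wei_mul (eps (N * A) ^ k))).eventually hT))] with w w1 w2 w3
    obtain ⟨k, hk, e⟩ := prod_eq_zero_iff.1 (w1 ▸ w3)
    refine ⟨_, _, (w2 k hk).2, Eq.trans ?_ (w2 k hk).1⟩
    rw [r1, ← sub_eq_zero.1 e]
  · have hO := wei_fac_bigO hb.continuousAt hYb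
    have b1 : ∀ k ∈ range A, (fun w : E => w.2 - wsh N a A Y k (ρ w.1)) =O[𝓝 0]
        fun w => ((‖w.2‖ + ‖ρ w.1 ^ B‖ : ℝ) : ℂ) := fun k _ => by
      refine IsBigO.sub (IsBigO.of_bound' (Eventually.of_forall fun w => ?_))
        (((wsh_bigO hO k).comp_tendsto t3).trans (IsBigO.of_bound' (Eventually.of_forall fun w => ?_)))
      · rw [Complex.norm_real, Real.norm_of_nonneg (by positivity)]
        exact le_add_of_nonneg_right (norm_nonneg _)
      · rw [Complex.norm_real, Real.norm_of_nonneg (by positivity)]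
        exact le_add_of_nonneg_left (norm_nonneg _)
    refine (EventuallyEq.trans_isBigO hPw (IsBigO.finsetProd b1)).trans
      (IsBigO.of_bound (2 ^ (A - 1)) ?_)
    filter_upwards [t1.eventually (Metric.closedBall_mem_nhds 0 one_pos),
      t2.eventually (Metric.closedBall_mem_nhds 0 one_pos)] with w w1 w2
    rw [prod_const, card_range, norm_pow, Complex.norm_real, Real.norm_of_nonneg (by positivity),
      Real.norm_of_nonneg (by positivity)]
    refine (add_pow_le (norm_nonneg _) (norm_nonneg _) A).trans ?_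
    rw [← norm_pow (ρ w.1 ^ B), ← pow_mul, mul_comm B A, pow_mul, r1, norm_pow]
    refine mul_le_mul_of_nonneg_left (add_le_add ?_ ?_) (by positivity)
    · exact pow_le_pow_of_le_one (norm_nonneg _) (mem_closedBall_zero_iff.1 w2)
        (Nat.mod_eq_of_lt hj ▸ hAj ▸ Nat.mod_le A N)
    · exact pow_le_pow_of_le_one (norm_nonneg _) (mem_closedBall_zero_iff.1 w1)
        (hBj ▸ Nat.mod_le B N)
  obtain ⟨A', rfl⟩ := Nat.exists_eq_succ_of_ne_zero hA
  have hD : ∀ k, ∃ q : ℕ, k < A' → HasIdx (fun t => Y t - wsh N a (A' + 1) Y (k + 1) t) 0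
      (B + N * q : ℕ) ∧ (N * (A' + 1) ∣ (k + 1) * ((A' + 1) * (a * (N - 1)) + B) → 1 ≤ q) := by
    intro k
    by_cases hk : k < A'
    swap
    · exact ⟨0, fun h => absurd h hk⟩
    obtain ⟨q, q1, q2⟩ := wsh_diff (A := A' + 1) hN hBj an hb hYb hY (k + 1) fun h => by
      have h4 := hw.simple hN hS simple (pow_ne_zero (k + 1) (hd.ne_zero (mul_ne_zero hN hA)))
        (m := (N - 1) * (k + 1)) (by
          filter_upwards [h, hσ, sheet (k + 1)] with t s1 s2 s3
          rw [s2, ← s3, sub_eq_zero.1 s1])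
      rw [← pow_mul, hd.pow_eq_one_iff_dvd, mul_comm (k + 1)] at h4
      have := Nat.le_of_dvd (Nat.succ_pos k) (Nat.dvd_of_mul_dvd_mul_left (Nat.pos_of_ne_zero hN) h4)
      omega
    exact ⟨q, fun _ => ⟨q1, fun h => q2 h hA⟩⟩
  choose q hq using hD
  have i1 := (end_pn 0).prod (range A') fun k hk =>
    (end_pn 0).comp (hq k (mem_range.1 hk)).1 hw.tn (by simpa using hw.idx)
  have d1 := wei_deriv hA g1 g0 g2
  refine ⟨_, _, (end_pn 0).div i1 d1, wei_self hN (A := A' + 1) (B := B) (q := ∑ k ∈ range A', q k)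
    (Nat.succ_pos _) hB hAj hBj (fun g A1 B1 => wei_count hN fun k h hk => (hq k hk).2 h) ?_, ?_⟩
  · simp only [one_mul, Nat.succ_eq_add_one]
    push_cast
    rw [sum_add_distrib, ← mul_sum, sum_const, card_range]
    simp only [nsmul_eq_mul]
    ring
  filter_upwards [(end_pn 0).ne_zero d1, nhdsWithin_le_nhds (wei_tangent hP hz van),
    nhdsWithin_le_nhds ((hξ.and (hw.t.eventually hF)).and
      (hz.t.eventually hP.eventually_analyticAt))] with ζ z1 ⟨z2, z3, _⟩ ⟨⟨z4, z5⟩, z6⟩ v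
  have e1 : fderiv ℂ P (z ζ) (0, 1) =
      ∏ k ∈ range A', (Y (ξ ζ) - wsh N a (A' + 1) Y (k + 1) (ξ ζ)) := by
    have a1 : HasDerivAt (fun y => P (ξ ζ ^ (A' + 1), y)) (fderiv ℂ P (z ζ) (0, 1)) (Y (ξ ζ)) := by
      have := z6.differentiableAt.hasFDerivAt
      rw [z4] at this ⊢
      exact this.comp_hasDerivAt (Y (ξ ζ)) ((hasDerivAt_const _ _).prodMk (hasDerivAt_id _))
    have a2 : DifferentiableAt ℂ
        (fun y => ∏ k ∈ range A', (y - wsh N a (A' + 1) Y (k + 1) (ξ ζ))) (Y (ξ ζ)) := by fun_prop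
    have a3 := a2.hasDerivAt.fun_mul ((hasDerivAt_id' (Y (ξ ζ))).sub_const (Y (ξ ζ)))
    rw [sub_self, mul_zero, zero_add, mul_one] at a3
    refine a1.unique (a3.congr_of_eventuallyEq (Eventually.of_forall fun y => ?_))
    have := z5 y
    rw [prod_range_succ', wsh_zero] at this
    exact this
  rw [wei_lin] at z2
  rw [wei_lin, ← e1, z3]
  rw [z3] at z1
  field_simp
  linear_combination v.1 * z2

end Pool.Agent.Lib.MP_1c0d65_gt.PW
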