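import Pool.Agent.Lib.MP_1c0d65_gt.E.OEqD
import Pool.Agent.Lib.MP_1c0d65_gt.E.Wei
import Pool.Agent.Lib.MP_1c0d65_gt.B.PunctA

/-! The local equation of an orbifold curve at a singular point: existence. -/

set_option autoImplicit false
set_option linter.unusedSectionVars false

open scoped Manifold ContDiff Topology
open Set Filter Metric

noncomputable section

namespace Pool.Agent.Lib.MP_1c0d65_gt.PW

open W

variable {X : Type} [TopologicalSpace X] [ChartedSpace E X] [IsManifold 𝓘(ℝ, E) ∞ X]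
  [T2Space X] [CompactSpace X] [MeasurableSpace X] [BorelSpace X] {c : Ctx X} {O : Orb c}

theorem oeq_mn (N a j j' : ℕ) : mn N a j j' = mn N a j' j := by rw [mn, mn, min_comm]

theorem oeq_semi {N a : ℕ} (hN : N ≠ 0) {P : E → ℂ} {e : ℂ} {r : ℝ}
    (h : ∀ w ∈ ball (0 : E) r, P (gen N a 1 w) = e * P w) (m : ℕ) :
    ∀ w ∈ ball (0 : E) r, P (gen N a m w) = e ^ m * P w := by
  intro w hw
  induction m with
  | zero => rw [mon_gen_dvd hN a (dvd_zero N), pow_zero, one_mul]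
  | succ m ih =>
    have e1 : gen N a (m + 1) w = gen N a 1 (gen N a m w) := by
      simp only [gen, mul_add, pow_add, Prod.mk.injEq]
      constructor <;> ring
    rw [e1, h _ (by rw [mem_ball_zero_iff, mon_norm_gen hN]; exact mem_ball_zero_iff.1 hw), ih,
      pow_succ', mul_assoc]

/-- Every point of the curve near `L i` lies on one of the branches. -/
theorem OC.oeq_near (C : OC O) {ι : C.F → Fin O.n} {j : C.F → ℕ} {z : C.F → ℂ → E}
    (hz : ∀ s : C.F, C.Br s (ι s) (j s) (z s)) (i : Fin O.n) {G : C.F → ℂ → Prop}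
    (hG : ∀ s, ι s = i → ∀ᶠ ζ in 𝓝[≠] (0 : ℂ), G s ζ) : ∃ r ∈ Ioc 0 O.R, ∀ w ∈ pb r,
      O.Pi i w ≠ C.v 0 ∧ ∀ t ∉ C.F, C.u t = O.Pi i w → ∃ s, ι s = i ∧ ∃ ζ m, G s ζ ∧
        t = s + ζ ^ O.N i ∧ w = gen (O.N i) (O.a i) m (z s ζ) := by
  have hV : {t | t ∉ C.F → ∃ (s : C.F) (ζ : ℂ), s + ζ ^ O.N (ι s) = t ∧ z s ζ ∈ pb O.R ∧
      O.Pi (ι s) (z s ζ) = C.u t ∧ (ι s = i → G s ζ)} ∈ 𝓝ˢ (C.F : Set ℂ) := by
    refine mem_nhdsSet_iff_forall.2 fun a ha => ?_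
    obtain ⟨ρ, r1, r2⟩ := oci_root (O.N_ne (ι ⟨a, ha⟩)) a
    have h1 : ∀ᶠ ζ in 𝓝[≠] (0 : ℂ), ι ⟨a, ha⟩ = i → G ⟨a, ha⟩ ζ := eventually_imp_distrib_left.2 (hG _)
    filter_upwards [eventually_nhdsWithin_iff.1 (r2.eventually ((hz ⟨a, ha⟩).ev.and h1))]
      with t ht htF
    have h2 := ht fun e => htF (e ▸ ha)
    exact ⟨⟨a, ha⟩, ρ t, r1 t, h2.1.self_of_nhds.1, h2.1.self_of_nhds.2.trans (by rw [r1]), h2.2⟩
  obtain ⟨r, hr, h1, h2⟩ := C.near_L i hV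
  refine ⟨r, hr, fun w hw => ⟨fun e => h1 ⟨w, hw, e⟩, fun t ht e => ?_⟩⟩
  obtain ⟨s, ζ, a1, a2, a3, a4⟩ := h2 t ht ⟨w, hw, e.symm⟩ ht
  obtain ⟨rfl, m, hm⟩ := (O.fibre _ i _ a2 w (mon_pb_mono hr.2 hw)).1 (a3.trans e)
  exact ⟨s, rfl, ζ, m, a4 rfl, a1.symm, hm⟩

/-- A point in the orbit of a branch lies on the curve. -/
theorem OC.Br.oeq_zero {C : OC O} {a : ℂ} {i : Fin O.n} {j : ℕ} {z : ℂ → E} {P : E → ℂ}
    (h : C.Br a i j z) (hP : Wei (O.N i) (O.a i) j z P) {V : Set ℂ} (hV : V ∈ 𝓝[≠] a) :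
    ∀ᶠ w in 𝓝 (0 : E), w ≠ 0 → P w = 0 → ∃ t ∈ V, C.u t = O.Pi i w := by
  filter_upwards [hP.zeros _ (eventually_nhdsWithin_iff.1
    (h.ev.and ((mon_tendsto (O.N_ne i) a).eventually hV)))] with w hw w0 e
  obtain ⟨m, ζ, h1, rfl⟩ := hw e
  have h2 := h1 fun e0 => w0 (by rw [mem_singleton_iff.1 e0, h.zero]; simp [gen])
  exact ⟨_, h2.2, by rw [O.Pi_gen i h2.1.self_of_nhds.1, h2.1.self_of_nhds.2]⟩

theorem OC.exists_oeq (C : OC O) (h : C.Simple) {ι j} (hm : C.Mon ι j) (i : Fin O.n) :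
    ∃ r P, OEq C ι j i r P := by
  obtain ⟨B, hFB, hB⟩ := h
  have hN := O.N_ne i
  choose z hz using fun s => (hm s).2
  have hz' : ∀ s : C.F, ι s = i → C.Br s i (j s) (z s) := fun s e => e ▸ hz s
  have hj : ∀ s : C.F, ι s = i → j s < O.N i := fun s e => e ▸ (hm s).1
  have evB : ∀ a : ℂ, ∀ᶠ t in 𝓝[≠] a, t ∉ B := fun a => by
    have h : IsClosed ((B : Set ℂ) \ {a}) := (B.finite_toSet.subset sdiff_subset).isClosed
    filter_upwards [self_mem_nhdsWithin, nhdsWithin_le_nhds (h.isOpen_compl.mem_nhds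
      (show a ∈ ((B : Set ℂ) \ {a})ᶜ from fun h => h.2 rfl))] with s hs hs' hF
    exact hs' ⟨hF, hs⟩
  have hw : ∀ s : C.F, ∃ P, ι s = i → Wei (O.N i) (O.a i) (j s) (z s) P := fun s => by
    by_cases e : ι s = i
    swap
    · exact ⟨0, fun h => absurd h e⟩
    obtain ⟨P, hP⟩ := (hz' s e).bra.exists_wei (O.a_coprime i) (hj s e)
      ((hz' s e).ev.and ((mon_tendsto hN s).eventually (evB s))) fun ζ h1 ζ' h2 m h3 => by
        have := h2.1.self_of_nhds.2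
        rw [h3, O.Pi_gen i h1.1.self_of_nhds.1, h1.1.self_of_nhds.2] at this
        exact (add_left_cancel (hB h1.2 h2.2 this)).symm
    exact ⟨P, fun _ => hP⟩
  choose Ps hPs using hw
  set T : Finset C.F := Finset.univ.filter fun s => ι s = i with hT
  have mT : ∀ s, s ∈ T ↔ ι s = i := fun s => by simp [hT]
  set P : E → ℂ := fun w => ∏ s ∈ T, Ps s w with hP
  have an : AnalyticAt ℂ P 0 := Finset.analyticAt_fun_prod _ fun s hs => (hPs s ((mT s).1 hs)).an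
  have adj : ∀ s, ι s = i → ∃ (h : ℂ → ℂ) (e : ℤ) (l : ℝ) (k : ℕ),
      HasIdx h 0 e ∧ SelfIdx (O.N i) (O.a i) (j s) l ∧ ((e : ℝ) - 1) / O.N i + 1 = l + k +
        (∑ s', if s ≠ s' ∧ ι s' = i then mn (O.N i) (O.a i) (j s) (j s') else 0) ∧
      ∀ᶠ ζ in 𝓝[≠] (0 : ℂ), ∀ v : E,
        fderiv ℂ P (z s ζ) v = h ζ * ((deriv (z s) ζ).1 * v.2 - (deriv (z s) ζ).2 * v.1) := by
    intro s hs
    obtain ⟨h, e, h1, h2, h3⟩ := (hPs s hs).adj
    set T' : Finset C.F := Finset.univ.filter fun s' => s ≠ s' ∧ ι s' = i with hT'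
    have mT' : ∀ s', s' ∈ T' ↔ s ≠ s' ∧ ι s' = i := fun s => by simp [hT']
    have hb := (hz' s hs).bra
    have hpos : ∀ s', ∃ n k : ℕ, s' ∈ T' → HasIdx (fun ζ => Ps s' (z s ζ)) 0 n ∧
        (n : ℝ) = O.N i * (k + mn (O.N i) (O.a i) (j s') (j s)) := fun s' => by
      by_cases e' : s' ∈ T'
      swap
      · exact ⟨0, 0, fun h => absurd h e'⟩
      obtain ⟨a1, a2⟩ := (mT' s').1 e'
      obtain ⟨U, U', hU, hU', hd⟩ := t2_separation_nhds (Subtype.coe_ne_coe.2 a1)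
      obtain ⟨n, k, hn⟩ := (hPs s' a2).pos _ (hj s hs) _ hb (by
        refine Frequently.filter_mono (Eventually.frequently ?_) (nhdsWithin_le_nhds (s := {0}ᶜ))
        filter_upwards [(hz' s hs).ev, (mon_tendsto hN s).eventually
          ((evB s).and (nhdsWithin_le_nhds hU)), nhdsWithin_le_nhds (hb.t.eventually
            ((hz' s' a2).oeq_zero (hPs s' a2) ((evB s').and (nhdsWithin_le_nhds hU'))))]
          with ζ b1 b2 b3 b4
        obtain ⟨t, b5, b6⟩ := b3 b1.self_of_nhds.1.2 b4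
        have b7 := hB b5.1 b2.1 (b6.trans b1.self_of_nhds.2)
        exact Set.disjoint_left.1 hd b2.2 (b7 ▸ b5.2))
      exact ⟨n, k, fun _ => hn⟩
    choose n k hn using hpos
    refine ⟨_, _, _, ∑ s' ∈ T', k s', (end_pn 0).mul h1
      ((end_pn 0).prod T' fun s' hs' => (hn s' hs').1), h2, ?_, ?_⟩
    · have h6 : (O.N i : ℝ) ≠ 0 := Nat.cast_ne_zero.2 hN
      push_cast
      rw [← Finset.sum_filter, ← hT', Finset.sum_congr rfl fun s' hs' => (hn s' hs').2,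
        ← Finset.mul_sum, Finset.sum_add_distrib,
        Finset.sum_congr rfl fun s' _ => oeq_mn (O.N i) (O.a i) (j s') (j s)]
      field_simp
      ring
    have e1 : T = insert s T' := by
      ext s'
      rw [Finset.mem_insert, mT, mT']
      exact ⟨fun h => (eq_or_ne s s').imp Eq.symm fun h' => ⟨h', h⟩,
        fun h => h.elim (fun h => h ▸ hs) And.right⟩
    have e2 : P = fun w => Ps s w * ∏ s' ∈ T', Ps s' w := by
      ext w
      rw [hP, e1]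
      exact Finset.prod_insert fun h => ((mT' s).1 h).1 rfl
    have an' : AnalyticAt ℂ (fun w => ∏ s' ∈ T', Ps s' w) 0 :=
      Finset.analyticAt_fun_prod _ fun s' hs' => (hPs s' ((mT' s').1 hs').2).an
    filter_upwards [h3, nhdsWithin_le_nhds ((hPs s hs).van.and (hb.t.eventually
      ((hPs s hs).an.eventually_analyticAt.and an'.eventually_analyticAt)))]
      with ζ b1 ⟨b2, b3, b4⟩ v
    rw [e2, fderiv_fun_mul b3.differentiableAt b4.differentiableAt, b2, add_apply, smul_apply,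
      smul_apply, b1, smul_eq_mul, smul_eq_mul]
    ring
  obtain ⟨r1, hr1, H1⟩ := C.oeq_near hz i (G := fun s ζ => P (z s ζ) = 0 ∧
    fderiv ℂ P (z s ζ) ≠ 0 ∧ (s : ℂ) + ζ ^ O.N i ∉ B ∧ dif C.u (s + ζ ^ O.N i) 1 ≠ 0) fun s hs => by
    obtain ⟨h, e, -, -, h1, -, -, h2⟩ := adj s hs
    filter_upwards [nhdsWithin_le_nhds (hPs s hs).van, h2, (end_pn 0).ne_zero h1,
      (hz' s hs).deriv_ne, (mon_tendsto hN s).eventually ((evB s).and (hz' s hs).dif_ne)]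
      with ζ b1 b2 b3 b4 b5
    refine ⟨Finset.prod_eq_zero ((mT s).2 hs) b1, fun e0 => b4 (Prod.ext ?_ ?_), b5⟩
    · simpa [e0, b3] using b2 (0, 1)
    · simpa [e0, b3] using b2 (1, 0)
  obtain ⟨r2, hr2, H2⟩ := Metric.eventually_nhds_iff_ball.1 (an.eventually_analyticAt.and
    ((eventually_all_finset T).2 fun s hs => ((hPs s ((mT s).1 hs)).semi 1).and
      ((hz' s ((mT s).1 hs)).oeq_zero (hPs s ((mT s).1 hs)) (C.ev_F s))))
  have l1 : pb (min r1 r2) ⊆ pb r1 := mon_pb_mono (min_le_left _ _)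
  have l2 : ball (0 : E) (min r1 r2) ⊆ ball 0 r2 := ball_subset_ball (min_le_right _ _)
  have semi : ∀ m, ∀ w ∈ ball (0 : E) (min r1 r2), P (gen (O.N i) (O.a i) m w) =
      eps (O.N i) ^ ((∑ s, if ι s = i then O.a i * j s else 0) * m) * P w := fun m => by
    rw [pow_mul]
    refine oeq_semi hN (fun w hw => ?_) m
    rw [← Finset.sum_filter, ← hT, ← Finset.prod_pow_eq_pow_sum, hP, ← Finset.prod_mul_distrib]
    exact Finset.prod_congr rfl fun s hs => by rw [((H2 w (l2 hw)).2 s hs).1, mul_one]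
  have back : ∀ m w, gen (O.N i) (O.a i) m w ∈ pb (min r1 r2) → w ∈ ball (0 : E) (min r1 r2) :=
    fun m w hw => by
      rw [mem_ball_zero_iff, ← mon_norm_gen hN (O.a i) m]
      exact mem_ball_zero_iff.1 hw.1
  have zero : ∀ w ∈ pb (min r1 r2), P w = 0 → ∃ t ∉ C.F, C.u t = O.Pi i w := fun w hw e => by
    obtain ⟨s, hs, e'⟩ := Finset.prod_eq_zero_iff.1 e
    exact ((H2 w (l2 hw.1)).2 s hs).2 hw.2 e'
  refine ⟨min r1 r2, P, ⟨lt_min hr1.1 hr2, (min_le_left _ _).trans hr1.2⟩,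
    fun w hw => (H2 w (l2 hw)).1, semi, fun w hw => ⟨fun e => Or.inl (zero w hw e), ?_⟩,
    fun w hw e => ?_, fun w hw => ⟨(H1 w (l1 hw)).1, fun t ht e => ?_⟩,
    fun j' hj' z' h1 h2 => ?_, fun s hs => ?_⟩
  · rintro (⟨t, ht, e⟩ | e)
    · obtain ⟨s, -, ζ, m, b1, -, rfl⟩ := (H1 w (l1 hw)).2 t ht e
      rw [semi m _ (back m _ hw), b1.1, mul_zero]
    · exact absurd e (H1 w (l1 hw)).1
  · obtain ⟨t, ht, e⟩ := zero w hw e
    obtain ⟨s, -, ζ, m, b1, -, rfl⟩ := (H1 w (l1 hw)).2 t ht e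
    intro e0
    have b2 := (H2 _ (l2 hw.1)).1.differentiableAt.hasFDerivAt.comp (z s ζ)
      (mon_gen_diff (O.N i) (O.a i) m (z s ζ)).hasFDerivAt
    rw [e0, ContinuousLinearMap.zero_comp] at b2
    have b3 := ((H2 _ (l2 (back m _ hw))).1.differentiableAt.hasFDerivAt.const_mul
      (eps (O.N i) ^ ((∑ s, if ι s = i then O.a i * j s else 0) * m))).congr_of_eventuallyEq
        ((isOpen_ball.eventually_mem (back m _ hw)).mono (semi m))
    exact b1.2.1 ((smul_eq_zero.1 (b3.unique b2)).resolve_left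
      (pow_ne_zero _ ((mon_prim hN).ne_zero hN)))
  · obtain ⟨s, -, ζ, m, b1, rfl, -⟩ := (H1 w (l1 hw)).2 t ht e
    refine ⟨b1.2.2.2, fun t' ht' e' => ?_⟩
    obtain ⟨s', -, ζ', m', b2, rfl, -⟩ := (H1 w (l1 hw)).2 t' ht' e'
    exact hB b2.2.2.1 b1.2.2.1 (e'.trans e.symm)
  · have hpos : ∀ s, ∃ n k : ℕ, s ∈ T → HasIdx (fun ζ => Ps s (z' ζ)) 0 n ∧
        (n : ℝ) = O.N i * (k + mn (O.N i) (O.a i) (j s) j') := fun s => by
      by_cases e' : s ∈ T
      swap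
      · exact ⟨0, 0, fun h => absurd h e'⟩
      obtain ⟨n, k, hn⟩ := (hPs s ((mT s).1 e')).pos _ hj' _ h1
        (h2.mono fun ζ b1 b2 => b1 (Finset.prod_eq_zero e' b2))
      exact ⟨n, k, fun _ => hn⟩
    choose n k hn using hpos
    refine ⟨∑ s ∈ T, n s, ∑ s ∈ T, k s,
      ((end_pn 0).prod T fun s hs => (hn s hs).1).cast (by simp), ?_⟩
    push_cast
    rw [← Finset.sum_filter, ← hT, Finset.sum_congr rfl fun s hs => (hn s hs).2,
      ← Finset.mul_sum, Finset.sum_add_distrib]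
  · obtain ⟨h, e, l, k, h1⟩ := adj s hs
    exact ⟨z s, h, e, l, k, hz' s hs, h1⟩

end Pool.Agent.Lib.MP_1c0d65_gt.PW
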