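import Pool.Agent.Lib.MP_1c0d65_gt.E.OEq

/-! The orbifold sites: one radius and one family of equations for all singular points. -/

set_option autoImplicit false
set_option linter.unusedSectionVars false

open scoped Manifold ContDiff Topology
open Set Filter Metric

noncomputable section

namespace Pool.Agent.Lib.MP_1c0d65_gt.PW

variable {X : Type} [TopologicalSpace X] [ChartedSpace E X] [IsManifold 𝓘(ℝ, E) ∞ X]
  [T2Space X] [CompactSpace X] [MeasurableSpace X] [BorelSpace X] {c : Ctx X} {O : Orb c}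
  {C : OC O} {ι : C.F → Fin O.n} {j : C.F → ℕ}

/-- One radius for all singular points; the neighbourhoods miss a given finite set. -/
theorem exists_oeq_all (h : C.Simple) (hm : C.Mon ι j) {T : Set X} (hT : IsClosed T)
    (hW : T ⊆ O.W) : ∃ (r : ℝ) (P : Fin O.n → E → ℂ), r ∈ Ioc 0 O.R ∧
      ∀ i, OEq C ι j i r (P i) ∧ ∀ z ∈ pb r, O.Pi i z ∉ T := by
  choose r P H using C.exists_oeq h hm
  choose s hs hs' using fun i => O.small i Tᶜ hT.isOpen_compl fun x hx hx' =>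
    hW hx' (mem_iUnion.2 ⟨i, hx⟩)
  have h1 : ∀ᶠ t in 𝓝[>] (0 : ℝ), t ∈ Ioc 0 O.R ∧ ∀ i, t ≤ r i ∧ t ≤ s i :=
    Eventually.and (Ioc_mem_nhdsGT O.hR) (eventually_all.2 fun i =>
      mem_of_superset (Ioc_mem_nhdsGT (lt_min (H i).hr.1 (hs i).1)) fun _ ht => le_min_iff.1 ht.2)
  obtain ⟨t, h2, h3⟩ := h1.exists
  exact ⟨t, P, h2, fun i => ⟨(H i).mono h2.1 (h3 i).1, fun z hz =>
    hs' i ⟨z, mon_pb_mono (h3 i).2 hz, rfl⟩⟩⟩

/-- The equations downstairs, near all singular points at once. -/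
theorem exists_site_all {r : ℝ} {P : Fin O.n → E → ℂ} (H : ∀ i, OEq C ι j i r (P i)) :
    ∃ Q : X → X → ℂ, ∀ i,
      (∀ x ∈ O.Pi i '' pb r, Eqn C (Q x) x ∧ (∀ v, dfn (Q x) x (O.J x v) = .I * dfn (Q x) x v) ∧
        ∀ᶠ y in 𝓝 x, ∃ k : ℂ, k ≠ 0 ∧ ∀ᶠ w in 𝓝 y, Q y w = k * Q x w) ∧
      ∀ w ∈ pb r, (∃ k : ℂ, k ≠ 0 ∧ ∀ᶠ w' in 𝓝 w, Q (O.Pi i w) (O.Pi i w') = k * P i w') ∧
        pull1 (O.Pi i) (dA (Q (O.Pi i w))) w = W.darg (P i) w := by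
  classical
  choose Q h1 h2 using fun i => (H i).exists_site
  have h3 : ∀ i, ∀ x ∈ O.Pi i '' pb r,
      (if h : ∃ i, x ∈ O.Pi i '' pb r then Q h.choose x else 0) = Q i x := fun i x hx => by
    have h : ∃ i, x ∈ O.Pi i '' pb r := ⟨i, hx⟩
    obtain ⟨z, hz, e⟩ := h.choose_spec
    obtain ⟨z', hz', e'⟩ := hx
    rw [dif_pos h, ((O.fibre _ _ z (mon_pb_mono (H i).hr.2 hz) z'
      (mon_pb_mono (H i).hr.2 hz')).1 (e.trans e'.symm)).1]
  refine ⟨fun x => if h : ∃ i, x ∈ O.Pi i '' pb r then Q h.choose x else 0, fun i =>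
    ⟨fun x hx => ?_, fun w hw => ?_⟩⟩
  · simp only [h3 i x hx]
    refine ⟨(h1 i x hx).1, (h1 i x hx).2.1, ?_⟩
    filter_upwards [(h1 i x hx).2.2, (O.isOpen_img i (H i).hr.2).mem_nhds hx] with y y1 y2
    rwa [h3 i y y2]
  · simp only [h3 i _ ⟨w, hw, rfl⟩]
    exact h2 i w hw

/-- A form that is `d arg` of the equation downstairs pulls back to `d arg` upstairs. -/
theorem OEq.pull_eq {i : Fin O.n} {r : ℝ} {P : E → ℂ} (h : OEq C ι j i r P) {z : E}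
    (hz : z ∈ pb r) {Q : X → ℂ} (hQ : FnAt ∞ Q (O.Pi i z)) {k : ℂ} (hk : k ≠ 0)
    (e : ∀ᶠ w in 𝓝 z, Q (O.Pi i w) = k * P w) {ψ : X → E →L[ℝ] ℝ}
    (hψ : ψ (O.Pi i z) = dA Q (O.Pi i z)) : pull1 (O.Pi i) ψ z = W.darg P z := by
  rw [pull1, hψ]
  exact (oeq_pull_dA (hQ.mdifferentiableAt (by simp))
    (brk_md (O.Pi_cm i (mon_pb_mono h.hr.2 hz)))).trans (darg_cmul hk (cd_diff (h.cd hz)) e)

end Pool.Agent.Lib.MP_1c0d65_gt.PW
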