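import Pool.Agent.Lib.MP_1c0d65_gt.E.PLoc
import Pool.Agent.Lib.MP_1c0d65_gt.E.GlueC
import Pool.Agent.Lib.MP_1c0d65_gt.E.Per
import Pool.Agent.Lib.MP_1c0d65_gt.PW.PlotA
import Pool.Agent.Lib.MP_1c0d65_gt.PW.PlotH
import Pool.Agent.Lib.MP_1c0d65_gt.PW.StD

/-! The global formula of Poincare and Lelong. -/

set_option autoImplicit false
set_option linter.unusedSectionVars false

open scoped Manifold ContDiff Topology Real
open Set MeasureTheory Filter Metric

noncomputable section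

namespace Pool.Agent.Lib.MP_1c0d65_gt.PW

variable {X : Type} [TopologicalSpace X] [ChartedSpace E X] [IsManifold 𝓘(ℝ, E) ∞ X]
  [T2Space X] [CompactSpace X] [MeasurableSpace X] [BorelSpace X] {c : Ctx X} {O : Orb c}
  {C : OC O} {η α : X → Bil E ℝ} {ψ a : X → E →L[ℝ] ℝ} {θ : X → ℝ} {U : Set X}
  {e : OpenPartialHomeomorph X E}

/-- The formula for the cut-off `θ`; `r` is the integral of `θ α` over the curve. -/
def PLF (c : Ctx X) (η : X → Bil E ℝ) (ψ : X → E →L[ℝ] ℝ) (α : X → Bil E ℝ) (θ : X → ℝ) (r : ℝ) :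
    Prop :=
  Integrable (fun x => wedge (w11 (dfn θ x) (ψ x)) (α x) / wedge (c.om x) (c.om x)) c.μ ∧
    2 * π * c.Q (fun x => θ x • η x) α = c.Q (fun x => w11 (dfn θ x) (ψ x)) α + 2 * π * r

/-- The formula holds for cut-off functions with support near `x`. -/
def PLAt (c : Ctx X) (u : ℂ → X) (η : X → Bil E ℝ) (ψ : X → E →L[ℝ] ℝ) (α : X → Bil E ℝ)
    (x : X) : Prop := ∃ V, IsOpen V ∧ x ∈ V ∧ ∀ θ : X → ℝ, ContMDiff 𝓘(ℝ, E) 𝓘(ℝ, ℝ) ∞ θ →
      tsupport θ ⊆ V → PLF c η ψ α θ (per u fun x => θ x • α x)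

theorem w11_zero (b : E →L[ℝ] ℝ) : w11 0 b = 0 := bil_ext fun v w => by simp

theorem bz (β : Bil E ℝ) : (0 : ℝ) • β = 0 := bil_ext fun v w => by simp
theorem bz' (r : ℝ) : r • (0 : Bil E ℝ) = 0 := bil_ext fun v w => by simp
theorem bone (β : Bil E ℝ) : (1 : ℝ) • β = β := bil_ext fun v w => by simp
theorem bmul (r t : ℝ) (β : Bil E ℝ) : (r * t) • β = r • t • β :=
  bil_ext fun v w => by simp [mul_assoc]

theorem Form.pull_closed (hα : Form univ α)
    (hc : ∀ x, ∀ y ∈ dom x U, ∀ u v w, ext2 (pull2 (par x) α) y u v w = 0) {f : E → X} {y : E}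
    (hf : SmAt ∞ f y) (hy : f y ∈ U) (u v w : E) : ext2 (pull2 f α) y u v w = 0 := by
  have hs := mem_chart_source E (f y)
  rw [(isChart_chartAt (f y)).ext2_loc (hf.of_le two_le) hs (hα.1 _ trivial)
    ((at_of_on isOpen_univ trivial (hα.2 _)).differentiableAt (by simp))]
  exact hc _ _ (mem_dom hs hy) _ _ _

theorem IsChart.cut (he : IsChart e) (hθ : ContMDiff 𝓘(ℝ, E) 𝓘(ℝ, ℝ) ∞ θ)
    (hs : tsupport θ ⊆ e.source) : IsCompact (e '' tsupport θ) ∧ e '' tsupport θ ⊆ e.target ∧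
      ContDiffOn ℝ 1 (θ ∘ e.symm) e.target ∧
      (∀ y ∈ e.target, y ∉ e '' tsupport θ → (θ ∘ e.symm) y = 0) ∧
      ∀ y ∈ e.target, pull1 e.symm (dfn θ) y = fderiv ℝ (θ ∘ e.symm) y :=
  ⟨(isClosed_tsupport θ).isCompact.image_of_continuousOn (e.continuousOn.mono hs),
    image_subset_iff.2 fun _ hx => e.map_source (hs hx),
    fun _ hy => ((FnAt.comp_plot (hθ _) (he.smAt hy)).of_le (by simp)).contDiffWithinAt,
    fun _ hy hk => image_eq_zero_of_notMem_tsupport (f := θ) fun k => hk ⟨_, k, e.right_inv hy⟩,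
    fun _ hy => pull1_dfn ((hθ _).mdifferentiableAt (by simp)) ((he.smAt hy).dfAt (by simp))⟩

theorem pl_chart (he : IsChart e)
    (pos : ∀ y ∈ e.target, 0 < wedge (pull2 e.symm c.om y) (pull2 e.symm c.om y))
    (hθ : ContMDiff 𝓘(ℝ, E) 𝓘(ℝ, ℝ) ∞ θ) (hs : tsupport θ ⊆ e.source)
    (ha : IsD e.source a ((2 * π) • η)) (hη : Form univ η) (hα : Form univ α)
    (hc : ∀ x, ∀ y ∈ dom x e.source, ∀ u v w, ext2 (pull2 (par x) α) y u v w = 0) {r : ℝ}
    (H : IntegrableOn (fun y => wedge (pull2 e.symm (fun x => w11 (dfn θ x) (ψ x + a x)) y)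
      (pull2 e.symm α y)) e.target ∧ ∫ y in e.target, wedge (pull2 e.symm
        (fun x => w11 (dfn θ x) (ψ x + a x)) y) (pull2 e.symm α y) = -(2 * π) * r) :
    PLF c η ψ α θ r := by
  obtain ⟨hK, hKT, t1, t0, td⟩ := he.cut hθ hs
  have hT := e.open_target
  have sm : ∀ y ∈ e.target, SmAt 1 e.symm y := fun y hy => (he.smAt hy).of_le (by simp)
  have hi : InjOn e.symm e.target := e.symm.injOn
  have im : e.symm '' e.target = e.source := e.symm_image_target_eq_source
  have ps := fun y hy => (pos y hy).le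
  have z1 (b : X → E →L[ℝ] ℝ) (x) (hx : x ∉ tsupport θ) : w11 (dfn θ x) (b x) = 0 := by
    rw [St.dfn_eq_zero hx, w11_zero]
  have fa : Form univ fun x => w11 (dfn θ x) (a x) :=
    (Sm1.w11 (FnOn.sm1 hθ.contMDiffOn e.open_source) ha.sm1 e.open_source).extend e.open_source
      (isClosed_tsupport θ) hs (z1 a)
  have fb : Form univ fun x => θ x • η x := hη.fsmul isOpen_univ hθ.contMDiffOn
  have a1 : ContDiffOn ℝ 1 (pull1 e.symm a) e.target := fun y hy =>
    ((ha.sm1.smooth e.open_source (he.smAt hy) (e.map_target hy)).of_le (by simp)).contDiffWithinAt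
  have st := St.stokes hT hK hKT (b := fun y => (θ ∘ e.symm) y • pull1 e.symm a y)
    (β := pull2 e.symm α) (t1.smul a1) (fun y hy =>
      ((hα.smooth isOpen_univ (he.smAt hy) trivial).of_le (by simp)).contDiffWithinAt)
    (fun y hy hk => by rw [t0 y hy hk, zero_smul]) (fun y _ v => hα.1 _ trivial _)
    fun y hy => hα.pull_closed hc (he.smAt hy) (e.map_target hy)
  have ia := integrableOn_wedge_plot c sm hT.measurableSet hi ps fa hα
  have ib := integrableOn_wedge_plot c sm hT.measurableSet hi ps fb hα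
  rw [setIntegral_congr_fun hT.measurableSet (g := fun y =>
    wedge (pull2 e.symm (fun x => w11 (dfn θ x) (a x)) y) (pull2 e.symm α y) +
      2 * π * wedge (pull2 e.symm (fun x => θ x • η x) y) (pull2 e.symm α y)) fun y hy => by
    simp only
    rw [ext1_fsmul ((t1.contDiffAt (hT.mem_nhds hy)).differentiableAt one_ne_zero)
      ((a1.contDiffAt (hT.mem_nhds hy)).differentiableAt one_ne_zero), wedge_add_left,
      ← ha.pull e.open_source ((he.smAt hy).of_le two_le) (e.map_target hy), pull2_w11, pull2_smul,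
      pull2_fsmul]
    simp only [td y hy, Pi.smul_apply, wedge_smul_left, Function.comp_apply]
    ring, integral_add ia (ib.const_mul _), integral_const_mul] at st
  have e1 (y : E) : wedge (pull2 e.symm (fun x => w11 (dfn θ x) (ψ x)) y) (pull2 e.symm α y) =
      wedge (pull2 e.symm (fun x => w11 (dfn θ x) (ψ x + a x)) y) (pull2 e.symm α y) -
        wedge (pull2 e.symm (fun x => w11 (dfn θ x) (a x)) y) (pull2 e.symm α y) := by
    rw [← wedge_sub_left]
    congr 1
    exact bil_ext fun v w => by simp; ring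
  have z2 (x) (hx : x ∉ e.symm '' e.target) : wedge (w11 (dfn θ x) (ψ x)) (α x) = 0 := by
    rw [z1 ψ x fun k => hx (im ▸ hs k), wedge_zero_left]
  refine ⟨IntegrableOn.integrable_of_forall_notMem_eq_zero
    ((integrableOn_plot' sm hT.measurableSet hi _).2 ((H.1.sub ia).congr_fun (fun y hy => ?_)
      hT.measurableSet)) fun x hx => by rw [z2 x hx, zero_div], ?_⟩
  · simp only [Pi.sub_apply, ← e1, abs_of_pos (pos y hy), smul_eq_mul]
    exact (c.wedge_mul_dens e.symm y (α := fun x => w11 (dfn θ x) (ψ x)) (w11_alt _ _)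
      (hα.1 _ trivial)).symm
  · rw [Q_plot' sm hT.measurableSet hi ps (fun _ _ => fb.1 _ trivial) (fun _ _ => hα.1 _ trivial)
      fun x hx => by
        rw [image_eq_zero_of_notMem_tsupport fun k => hx (im ▸ hs k), bz, wedge_zero_left],
      Q_plot' sm hT.measurableSet hi ps (α := fun x => w11 (dfn θ x) (ψ x))
        (fun _ _ => w11_alt _ _) (fun _ _ => hα.1 _ trivial) z2]
    simp only [e1]
    rw [integral_sub H.1 ia, H.2]
    linarith

/-- A positively oriented chart. -/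
theorem Ctx.exists_pos (c : Ctx X) {x : X} (hU : IsOpen U) (hx : x ∈ U) :
    ∃ e : OpenPartialHomeomorph X E, IsChart e ∧ x ∈ e.source ∧ e.source ⊆ U ∧
      ∀ y ∈ e.target, 0 < wedge (pull2 e.symm c.om y) (pull2 e.symm c.om y) := by
  obtain ⟨e, he, e1, e2, e3, e4⟩ := exists_chart_std (fun v => (c.tame0.1 x trivial v).1) hU hx
  have h0 : (0 : E) ∈ e.target := e3 ▸ e.map_source e1
  have hc := c.continuousOn_jac (f := e.symm) (A := e.target)
    fun y hy => (he.smAt hy).of_le (by simp)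
  have op := hc.isOpen_inter_preimage e.open_target (isOpen_Ioi (a := (0 : ℝ)))
  refine ⟨e.restrOpen _ (e.isOpen_inter_preimage op), he.restr _, ⟨e1, e1, ?_⟩,
    inter_subset_left.trans e2, fun y hy => ?_⟩
  · rw [mem_preimage, e3]
    exact ⟨h0, c.wedge_pull_pos c.tame0 trivial (he.inv h0).injective fun v => by
      rw [← e4, dif_pullJ (he.inv h0)]⟩
  · have := hy.2.2
    rw [mem_preimage, e.right_inv hy.1] at this
    exact this.2

/-- Off the curve. -/
theorem pl_off {x : X} (hU : IsOpen U) (hx : x ∈ U) (hC : Disjoint U C.img)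
    (hψ : IsD U ψ (-(2 * π) • η)) (hη : Form univ η) (hα : Form univ α)
    (hc : ∀ x, ∀ y ∈ dom x U, ∀ u v w, ext2 (pull2 (par x) α) y u v w = 0) :
    PLAt c C.u η ψ α x := by
  obtain ⟨e, he, e1, e2, pos⟩ := c.exists_pos hU hx
  refine ⟨_, e.open_source, e1, fun θ hθ hs => ?_⟩
  have h0 : per C.u (fun x => θ x • α x) = 0 := by
    refine integral_eq_zero_of_ae ((C.F.finite_toSet.countable.ae_notMem volume).mono
      fun s hs' => ?_)
    have : θ (C.u s) = 0 := image_eq_zero_of_notMem_tsupport fun k =>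
      disjoint_left.1 hC (e2 (hs k)) (.inl ⟨s, hs', rfl⟩)
    simp [this]
  refine pl_chart (a := -ψ) he pos hθ hs (((hψ.neg hU).mono e2).congr' rfl ?_) hη hα
    (fun x y hy => hc x y (dom_mono x e2 hy)) ?_
  · funext x; exact bil_ext fun v w => by simp
  · have e0 (y : E) : pull2 e.symm (fun x => w11 (dfn θ x) (ψ x + (-ψ) x)) y = 0 :=
      bil_ext fun v w => by simp
    simp only [e0, wedge_zero_left, h0, integral_zero, mul_zero, and_true]
    exact integrableOn_zero

/-- On the good part of the curve. -/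
theorem pl_on (D : Bad C) {s₀ : ℂ} (hs₀ : s₀ ∉ D.Z) (hU : IsOpen U) (hx : C.u s₀ ∈ U) {P : X → ℂ}
    (hP : Eqn C P (C.u s₀)) (ha : IsD U a ((2 * π) • η))
    (pot : ∀ y ∈ U, y ∉ C.img → ψ y = dA P y - a y) (hη : Form univ η) (hα : Form univ α)
    (hc : ∀ x, ∀ y ∈ dom x U, ∀ u v w, ext2 (pull2 (par x) α) y u v w = 0) :
    PLAt c C.u η ψ α (C.u s₀) := by
  obtain ⟨e, he, h1, h2, h3, h4, h5, pos⟩ := hP.exists_chart D hs₀
    (inter_mem (hU.mem_nhds hx) hP.sm)
  refine ⟨_, e.open_source, h1, fun θ hθ hs => ?_⟩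
  obtain ⟨hK, hKT, t1, t0, td⟩ := he.cut hθ hs
  have hT := e.open_target
  have hc' : ∀ x, ∀ y ∈ dom x e.source, ∀ u v w, ext2 (pull2 (par x) α) y u v w = 0 :=
    fun x y hy => hc x y (dom_mono x (fun z hz => (h2 hz).1) hy)
  refine pl_chart he pos hθ hs (ha.mono fun z hz => (h2 hz).1) hη hα hc' ?_
  have H := PL.pl_loc hT hK hKT (β := pull2 e.symm α)
    (γ := pull2 e.symm fun x => w11 (dfn θ x) (ψ x + a x)) t1 (fun y hy =>
      ((hα.smooth isOpen_univ (he.smAt hy) trivial).of_le (by simp)).contDiffWithinAt) t0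
    (fun y _ v => hα.1 _ trivial _) (fun y hy => hα.pull_closed hc' (he.smAt hy) (e.map_target hy))
    fun y hy h0 v w => by
      have m := e.map_target hy
      have e2 : P ∘ e.symm =ᶠ[𝓝 y] Prod.snd := by
        filter_upwards [hT.mem_nhds hy] with z hz
        rw [Function.comp_apply, ← (h3 _ (e.map_target hz)).1, e.right_inv hz]
      have e3 := pull1_dA (((h2 m).2 : FnAt ∞ P _).mdifferentiableAt (by simp))
        ((he.smAt hy).dfAt (by simp))
      have e4 (v : E) : dA P (e.symm y) (dif e.symm y v) = (v.2 / y.2).im := by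
        rw [← pull1_apply, e3, W.darg_congr e2, W.darg_apply, fderiv_snd]; rfl
      rw [← td y hy]
      simp only [pull2_apply, w11_apply, pull1_apply, smul_eq_mul,
        pot _ (h2 m).1 fun k => h0 (e2.eq_of_nhds.symm.trans ((h3 _ m).2.2 k)), sub_add_cancel, e4]
  refine ⟨H.1, H.2.trans ?_⟩
  have op : IsOpen {s : ℂ | (s, 0) ∈ e.target} := hT.preimage (by fun_prop)
  rw [per, ← setIntegral_eq_integral_of_ae_compl_eq_zero (s := {s : ℂ | (s, 0) ∈ e.target})
    ((D.Z.finite_toSet.countable.ae_notMem volume).mono fun s h h' => by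
      have : θ (C.u s) = 0 := image_eq_zero_of_notMem_tsupport fun k => h' ((h4 s).2 ⟨h, hs k⟩)
      simp [this])]
  congr 1
  refine setIntegral_congr_fun op.measurableSet fun s hs => ?_
  have e1 : C.u =ᶠ[𝓝 s] e.symm ∘ ContinuousLinearMap.inl ℝ ℂ ℂ := by
    filter_upwards [op.mem_nhds hs] with t ht using (h5 t ht).symm
  rw [(pull2_congr e1 _).eq_of_nhds, pull2_comp (g := ContinuousLinearMap.inl ℝ ℂ ℂ) (y := s)
    ((he.smAt hs).dfAt (by simp)) (ContinuousLinearMap.differentiableAt _),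
    ContinuousLinearMap.fderiv]
  rfl

theorem PLAt.of_zero {u : ℂ → X} {x : X} (hU : IsOpen U) (hx : x ∈ U) (h0 : ∀ y ∈ U, α y = 0) :
    PLAt c u η ψ α x := ⟨U, hU, hx, fun θ _ hs => by
  have h1 (y : X) : wedge (w11 (dfn θ y) (ψ y)) (α y) = 0 := by
    by_cases h : y ∈ U
    · rw [h0 y h, wedge_zero_right]
    · rw [St.dfn_eq_zero fun k => h (hs k), w11_zero, wedge_zero_left]
  have h2 (y : X) : θ y • α y = 0 := by
    by_cases h : y ∈ U
    · rw [h0 y h, bz']
    · rw [image_eq_zero_of_notMem_tsupport fun k => h (hs k), bz]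
  have h3 (y : X) : wedge (θ y • η y) (α y) = 0 := by
    rw [wedge_smul_left, ← wedge_smul_right, h2, wedge_zero_right]
  simp [PLF, Ctx.Q, pair, per, h1, h2, h3]⟩

/-- From the local to the global formula. -/
theorem pl_glue (hη : Form univ η) (hα : Form univ α) (hθ : ContMDiff 𝓘(ℝ, E) 𝓘(ℝ, ℝ) ∞ θ)
    (hT : O.Test fun x => θ x • α x) (h : ∀ x ∈ tsupport θ, PLAt c C.u η ψ α x) :
    PLF c η ψ α θ (per C.u fun x => θ x • α x) := by
  classical
  choose! V V1 V2 V3 using h
  obtain ⟨s, ρ, h1, h2, -, h3, -⟩ := St.exists_partition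
    (fun x => if x ∈ tsupport θ then V x else (tsupport θ)ᶜ)
    (fun x => by split_ifs with h; exacts [V1 x h, (isClosed_tsupport θ).isOpen_compl])
    fun x => ⟨x, by split_ifs with h; exacts [V2 x h, h]⟩
  have sm (i : s) : ContMDiff 𝓘(ℝ, E) 𝓘(ℝ, ℝ) ∞ fun x => ρ i x * θ x := (h1 i).mul hθ
  have H (i : s) : PLF c η ψ α (fun x => ρ i x * θ x) (per C.u fun x => (ρ i x * θ x) • α x) := by
    have := h2 i
    split_ifs at this with h
    · exact V3 i h _ (sm i) (tsupport_mul_subset_left.trans this)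
    · have e : (fun x => ρ i x * θ x) = fun _ => 0 := funext fun x => by
        by_cases k : x ∈ tsupport θ
        · rw [image_eq_zero_of_notMem_tsupport fun k' => this k' k, zero_mul]
        · rw [image_eq_zero_of_notMem_tsupport k, mul_zero]
      have e0 (x : X) : dfn (fun _ : X => (0 : ℝ)) x = 0 := mfderiv_const
      have e1 (x : X) : ρ i x * θ x = 0 := congrFun e x
      simp [PLF, Ctx.Q, pair, per, e1, e0, w11_zero, bz]
  have e1 (x : X) : ∑ i, ρ i x * θ x = θ x := by rw [← Finset.sum_mul, h3, one_mul]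
  have e2 (x : X) : dfn θ x = ∑ i, dfn (fun x => ρ i x * θ x) x := by
    have := HasMFDerivAt.sum (t := Finset.univ) (z := x) fun i _ =>
      ((sm i).mdifferentiableAt (by simp) (x := x)).hasMFDerivAt
    rw [show (∑ i, fun x => ρ i x * θ x) = θ from funext fun x => by
      rw [Finset.sum_apply, e1]] at this
    exact this.mfderiv
  have e3 (x : X) : wedge (w11 (dfn θ x) (ψ x)) (α x) / wedge (c.om x) (c.om x) =
      ∑ i, wedge (w11 (dfn (fun x => ρ i x * θ x) x) (ψ x)) (α x) / wedge (c.om x) (c.om x) := by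
    rw [← Finset.sum_div, ← wedge_sum_left, e2]
    congr 2
    exact bil_ext fun v w => by simp [sum_apply, Finset.sum_mul]
  have e4 (β : X → Bil E ℝ) : (fun x => θ x • β x) = ∑ i, fun x => (ρ i x * θ x) • β x :=
    funext fun x => bil_ext fun v w => by
      simp only [Finset.sum_apply, sum_apply, smul_apply, smul_eq_mul, ← Finset.sum_mul, e1]
  obtain ⟨N, N1, N2, N3⟩ := hT
  refine ⟨(integrable_finsetSum _ fun i _ => (H i).1).congr
    (Eventually.of_forall fun x => (e3 x).symm), ?_⟩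
  rw [e4 η, e4 α, Q_sum_left _ (fun i _ => hη.fsmul isOpen_univ (sm i).contMDiffOn) hα, per,
    pull2_sum, Ctx.Q, pair]
  simp only [e3, Finset.sum_apply, sum_apply]
  rw [integral_finsetSum _ fun i _ => (H i).1, integral_finsetSum _ fun i _ => C.integrable
    (hα.fsmul isOpen_univ (sm i).contMDiffOn) (.inl ⟨N, N1, N2, fun x hx => by
      simp only [bmul, show θ x • α x = 0 from N3 x hx, bz']⟩), Finset.mul_sum, Finset.mul_sum, ← Finset.sum_add_distrib]
  exact Finset.sum_congr rfl fun i _ => (H i).2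

variable {D : Bad C} {S : Site D}

theorem Cur.plAt (Λ : Cur S) (hU : IsOpen U) (hα : Form univ α)
    (hc : ∀ x, ∀ y ∈ dom x U, ∀ u v w, ext2 (pull2 (par x) α) y u v w = 0) {x : X}
    (hx : x ∉ D.B) (hx' : x ∈ U) : PLAt c C.u Λ.η Λ.ψ α x := by
  by_cases h : x ∈ C.img
  · rcases h with ⟨s, hs, rfl⟩ | rfl
    · exact pl_on D (fun k => hx ((D.hZ s hs).2 k)) ((Λ.isOpen _).inter hU) ⟨Λ.mem _ hx, hx'⟩
        (Λ.eqn _ _ (Λ.mem _ hx)) ((Λ.isD _).mono inter_subset_left)
        (fun y hy => Λ.pot _ y hy.1) Λ.closed.1 hα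
        fun x y hy => hc x y (dom_mono x inter_subset_right hy)
    · exact (hx D.v0).elim
  · exact pl_off (D.isClosed.isOpen_compl.inter hU) ⟨fun k => k.elim h hx, hx'⟩
      (disjoint_left.2 fun y hy k => hy.1 (.inl k)) (Λ.dpot.mono inter_subset_left) Λ.closed.1 hα
      fun x y hy => hc x y (dom_mono x inter_subset_right hy)

/-- The formula with a cut-off. -/
theorem Cur.pl (Λ : Cur S) (hU : IsOpen U) (hθ : ContMDiff 𝓘(ℝ, E) 𝓘(ℝ, ℝ) ∞ θ)
    (hs : tsupport θ ⊆ D.Bᶜ ∩ U) (hα : Form univ α)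
    (hc : ∀ x, ∀ y ∈ dom x U, ∀ u v w, ext2 (pull2 (par x) α) y u v w = 0) :
    PLF c Λ.η Λ.ψ α θ (per C.u fun x => θ x • α x) :=
  pl_glue Λ.closed.1 hα hθ ⟨_, (isClosed_tsupport θ).isOpen_compl, fun _ hx k =>
    (hs k).1 (D.hL hx), fun x hx => by simp only [image_eq_zero_of_notMem_tsupport hx, bz]⟩
    fun _ hx => Λ.plAt hU hα hc (hs hx).1 (hs hx).2

theorem pl_one (hη : Form univ η) (hα : Form univ α) (hT : O.Test α)
    (h : ∀ x, PLAt c C.u η ψ α x) : c.Q η α = per C.u α := by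
  have H := (pl_glue (θ := fun _ => 1) hη hα contMDiff_const (by simpa only [bone] using hT) fun x _ => h x).2
  have e0 (x : X) : dfn (fun _ : X => (1 : ℝ)) x = 0 := mfderiv_const
  simp only [bone, e0, w11_zero] at H
  rw [show (fun _ : X => (0 : Bil E ℝ)) = 0 from rfl, Q_zero_left, zero_add] at H
  exact mul_left_cancel₀ Real.two_pi_pos.ne' H

/-- Closed forms that vanish near the bad set. -/
theorem Cur.pl_closed (Λ : Cur S) (hα : Closed α) {N : Set X} (hN : IsOpen N) (hB : D.B ⊆ N)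
    (h0 : ∀ x ∈ N, α x = 0) : c.Q Λ.η α = per C.u α :=
  pl_one (ψ := Λ.ψ) Λ.closed.1 hα.1 ⟨N, hN, D.hL.trans hB, h0⟩ fun x => by
    by_cases h : x ∈ N
    · exact .of_zero hN h h0
    · exact Λ.plAt isOpen_univ hα.1 hα.2 (fun k => h (hB k)) trivial

end Pool.Agent.Lib.MP_1c0d65_gt.PW
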