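import Pool.Agent.Lib.MP_1c0d65_gt.E.PL
import Pool.Agent.Lib.MP_1c0d65_gt.E.Cut45
import Pool.Agent.Lib.MP_1c0d65_gt.PW.NotSub
import Pool.Agent.Lib.MP_1c0d65_gt.PW.Stokes

/-! The formula of Poincare and Lelong for closed test forms. -/

set_option autoImplicit false

open scoped Manifold ContDiff Topology
open Set

noncomputable section

namespace Pool.Agent.Lib.MP_1c0d65_gt.PW

variable {X : Type} [TopologicalSpace X] [ChartedSpace E X] [IsManifold 𝓘(ℝ, E) ∞ X]
  [T2Space X] [CompactSpace X] [MeasurableSpace X] [BorelSpace X] {c : Ctx X} {O : Orb c}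
  {C : OC O} {D : Bad C} {S : Site D}

theorem Cur.pl_test (Λ : Cur S) {T : Set X} (hT : T.Finite) (hB : D.B = (⋃ i, O.L i) ∪ T)
    {α : X → Bil E ℝ} (hα : Closed α) (ht : O.Test α) : c.Q Λ.η α = per C.u α := by
  obtain ⟨a, β, N, N', h1, n1, n2, n3, m1, m2, m3⟩ := O.cut_fin hα ht hT
  have hβ : Closed β := h1.closed
  have H := Λ.pl_closed (hα.sub hβ) m1 (hB ▸ m2) m3
  have i1 := C.integrable hα.1 (.inl ht)
  have i2 := C.integrable (hα.sub hβ).1 (.inl ⟨N', m1, subset_union_left.trans m2, m3⟩)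
  have i3 : MeasureTheory.Integrable fun s => pull2 C.u β s 1 .I :=
    (i1.sub i2).congr (Filter.Eventually.of_forall fun s => by simp)
  have h2 := C.per_exact isOpen_univ (subset_univ _) h1 n1 n2 n3 i3
  rw [Q_sub_right Λ.closed.1 hα.1 hβ.1, Q_symm Λ.η β, Q_exact h1 Λ.closed, sub_zero, per,
    pull2_sub] at H
  simp only [Pi.sub_apply, sub_apply] at H
  rw [MeasureTheory.integral_sub i1 i3] at H
  rw [H, show ∫ s, pull2 C.u β s 1 .I = 0 from h2, sub_zero, per]

end Pool.Agent.Lib.MP_1c0d65_gt.PW
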