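import Pool.Agent.Lib.MP_1c0d65_gt.E.SiteB
import Pool.Agent.Lib.MP_1c0d65_gt.E.Cusp
import Pool.Agent.Lib.MP_1c0d65_gt.E.DA
import Pool.Agent.Lib.MP_1c0d65_gt.W.Sum

/-! The equation of a simple curve at a smooth point, from the equations of its branches. -/

set_option autoImplicit false
set_option linter.unusedSectionVars false

open scoped Manifold ContDiff Topology ComplexConjugate
open Set Filter Metric Pool.Agent.Lib.MP_1c0d65_gt.B Pool.Agent.Lib.MP_1c0d65_gt.W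

noncomputable section

namespace Pool.Agent.Lib.MP_1c0d65_gt.PW

theorem om_lin {L : ℂ →L[ℝ] E} {J : E →L[ℝ] E} (h : L .I = J (L 1)) {Ω : Bil E ℂ}
    (hl : ∀ v w, Ω (J v) w = .I * Ω v w) (c : ℂ) (v : E) : Ω (L c) v = c * Ω (L 1) v := by
  rw [brk_lin L c, h]
  simp only [map_add, map_smul, add_apply, smul_apply, hl, Complex.real_smul]
  conv_rhs => rw [← Complex.re_add_im c]
  ring

/-- A coefficient along the branch at `x`, read in the coordinate of the plane. -/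
def cu (x : OnePoint ℂ) (H : ℂ → ℂ) (s : ℂ) : ℂ := x.elim (-s ^ 2 * H s⁻¹) fun a => H (s - a)

variable {X : Type} [TopologicalSpace X] [ChartedSpace E X] [IsManifold 𝓘(ℝ, E) ∞ X]
  [T2Space X] [CompactSpace X] [MeasurableSpace X] [BorelSpace X] {c : Ctx X} {O : Orb c}
  {C : OC O} {b : X} {g : ℂ → X}

theorem FnAt.cprod {ι : Type} {A : Finset ι} {P : ι → X → ℂ} {y : X} (h : ∀ x ∈ A, FnAt ∞ (P x) y) :
    FnAt ∞ (fun y => ∏ x ∈ A, P x y) y := by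
  classical
  induction A using Finset.induction_on with
  | empty => simpa using contMDiffAt_const
  | insert i s hi ih =>
    simp only [Finset.prod_insert hi]
    exact (h i (Finset.mem_insert_self _ _)).cmul (ih fun j hj => h j (Finset.mem_insert_of_mem hj))

theorem dfn_prod {ι : Type} [DecidableEq ι] {A : Finset ι} {P : ι → X → ℂ} {y : X}
    (h : ∀ x ∈ A, FnAt ∞ (P x) y) {x : ι} (hx : x ∈ A) (h0 : P x y = 0) (v : E) :
    dfn (fun y => ∏ x ∈ A, P x y) y v = dfn (P x) y v * ∏ x' ∈ A.erase x, P x' y := by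
  simp only [← Finset.mul_prod_erase A _ hx]
  rw [dfn_mul (h x hx) (FnAt.cprod fun x' hx' => h x' (Finset.mem_of_mem_erase hx')), h0, zero_mul,
    add_zero]

/-- `P` is an equation of the branch `g` through `b`. -/
structure XEq (O : Orb c) (Ω : X → Bil E ℂ) (b : X) (g : ℂ → X) (P : X → ℂ) : Prop where
  cd : ∀ᶠ y in 𝓝[≠] b, FnAt ∞ P y
  van : ∀ᶠ s in 𝓝 (0 : ℂ), P (g s) = 0
  zeros : ∀ S ∈ 𝓝 (0 : ℂ), ∀ᶠ y in 𝓝 b, P y = 0 → ∃ s ∈ S, y = g s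
  pos : ∀ g', HolG O.J g' 0 → g' 0 = b → (∃ᶠ s in 𝓝 (0 : ℂ), P (g' s) ≠ 0) →
    ∃ n : ℕ, 0 < n ∧ HasIdx (fun s => P (g' s)) 0 n
  adj : ∃ (h : ℂ → ℂ) (e : ℕ), HasIdx h 0 e ∧ e ≠ 1 ∧ (e = 0 ↔ dif g 0 1 ≠ 0) ∧
    ∀ᶠ s in 𝓝[≠] (0 : ℂ), ContDiffAt ℝ ∞ h s ∧ ∀ v,
      ‖dfn P (g s) v - h s * Ω (g s) (dif g s 1) v‖ ≤ 1 / 2 * ‖h s * Ω (g s) (dif g s 1) v‖

theorem Cht.grm (K : Cht O b) (h : HolG O.J g 0) (h0 : g 0 = b) : Grm K.Jt (K.ψ ∘ g) :=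
  ⟨(K.holG_iff (h0 ▸ K.mem) h.cont).1 h, by rw [Function.comp_apply, h0, K.zero]⟩

theorem Cht.tendsto (K : Cht O b) : Tendsto K.ψ (𝓝 b) (𝓝 0) :=
  K.zero ▸ (K.ψ.continuousAt K.mem).tendsto

theorem Cht.symm_zero (K : Cht O b) : K.ψ.symm 0 = b := K.zero ▸ K.ψ.left_inv K.mem

theorem Cht.can (K : Cht O b) {Ω : X → Bil E ℂ} {U : Set X} (hU : IsOpen U) (hb : b ∈ U)
    (hΩ : Form U Ω) (h : ∀ y ∈ U, Ω y ≠ 0 ∧ ∀ v w, Ω y (O.J y v) w = .I * Ω y v w) :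
    Can K.Jt (pull2 K.ψ.symm Ω) := by
  have h1 : ∀ᶠ p in 𝓝 (0 : E), p ∈ K.ψ.target ∧ K.ψ.symm p ∈ U :=
    (K.ψ.open_target.eventually_mem K.zero_mem).and
      ((K.ψ.continuousAt_symm K.zero_mem).eventually (hU.mem_nhds (K.symm_zero.symm ▸ hb)))
  refine ⟨h1.mono fun p hp => hΩ.smooth hU (K.isChart.smAt hp.1) hp.2, fun e => ?_,
    h1.mono fun p hp v => hΩ.1 _ hp.2 _, h1.mono fun p hp v w => ?_⟩
  · refine (h b hb).1 (bil_ext fun v w => ?_)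
    have := congrArg (fun α : Bil E ℂ => α (dfn K.ψ b v) (dfn K.ψ b w)) e
    rwa [pull2_apply, ← K.zero, K.isChart.dif_dfn K.mem, K.isChart.dif_dfn K.mem,
      K.ψ.left_inv K.mem] at this
  · rw [pull2_apply, pull2_apply, K.pull p hp.1, (h _ hp.2).2]

theorem exists_xeq (hb : b ∈ O.W) {Ω : X → Bil E ℂ} {U : Set X} (hU : IsOpen U)
    (hbU : b ∈ U) (hΩ : Form U Ω) (h : ∀ y ∈ U, Ω y ≠ 0 ∧ ∀ v w, Ω y (O.J y v) w = .I * Ω y v w)
    (hg : HolG O.J g 0) (g0 : g 0 = b) (ne : ∀ᶠ s in 𝓝[≠] (0 : ℂ), g s ≠ b) {S : Set ℂ}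
    (hS : S ∈ 𝓝[≠] (0 : ℂ)) (inj : InjOn g S) : ∃ P, XEq O Ω b g P := by
  obtain ⟨K⟩ := O.exists_cht hb
  have hs : ∀ᶠ y in 𝓝 b, y ∈ K.ψ.source := K.ψ.open_source.mem_nhds K.mem
  have tg : Tendsto g (𝓝 0) (𝓝 b) := g0 ▸ hg.cont.tendsto
  have tK : Tendsto K.ψ (𝓝[≠] b) (𝓝[≠] 0) := by
    refine tendsto_nhdsWithin_iff.2 ⟨K.tendsto.mono_left nhdsWithin_le_nhds, ?_⟩
    filter_upwards [nhdsWithin_le_nhds hs, self_mem_nhdsWithin] with y h1 h2 h3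
    exact h2 (K.ψ.injOn h1 K.mem (K.zero.symm ▸ h3))
  have tg' : Tendsto g (𝓝[≠] 0) (𝓝[≠] b) :=
    tendsto_nhdsWithin_iff.2 ⟨tg.mono_left nhdsWithin_le_nhds, ne⟩
  obtain ⟨P, hP⟩ := Grm.exists_eqn K.acs (K.can hU hbU hΩ h) (K.grm hg g0)
    (inter_mem hS (nhdsWithin_le_nhds (tg.eventually hs)))
    fun s hs t ht e => inj hs.1 ht.1 (K.ψ.injOn hs.2 ht.2 e)
  refine ⟨P ∘ K.ψ, ?_, hP.van, fun T hT => ?_, fun g' h1 h2 h3 => hP.pos _ (K.grm h1 h2) h3, ?_⟩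
  · filter_upwards [tK.eventually hP.cd, nhdsWithin_le_nhds hs] with y h1 h2
    exact h1.comp_contMDiffAt (K.isChart.fnAt h2)
  · filter_upwards [K.tendsto.eventually (hP.zeros _ (inter_mem hT (tg.eventually hs))), hs]
      with y h1 h2 h3
    obtain ⟨s, h4, h5⟩ := h1 h3
    exact ⟨s, h4.1, K.ψ.injOn h2 h4.2 h5⟩
  · obtain ⟨k, e, h1, h2, h3, h4⟩ := hP.adj
    refine ⟨k, e, h1, h2, h3.trans (K.dif_ne_iff (g0 ▸ K.mem) hg.cm).symm, ?_⟩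
    filter_upwards [h4, (tK.comp tg').eventually hP.cd, nhdsWithin_le_nhds (tg.eventually hs),
      nhdsWithin_le_nhds hg] with s a1 a2 a3 a4
    refine ⟨a1.1, fun v => ?_⟩
    have a5 := a1.2 (dfn K.ψ (g s) v)
    rw [pull2_apply, Function.comp_apply, K.isChart.dif_dfn a3, K.ψ.left_inv a3] at a5
    rw [dfn_comp (g := K.ψ) (p := g s) (cd_diff a2) (K.isChart.fnAt a3).md, (K.dif_eq a3 a4.1).2]
    exact a5

/-- The branch of `C` at the point `x` of the sphere. -/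
def OC.br (C : OC O) (x : OnePoint ℂ) (s : ℂ) : X := C.U (ch x s)

theorem OC.near (C : OC O) (hb : b ∈ O.W) {p : OnePoint ℂ → ℂ → Prop}
    (h : ∀ x ∈ C.D, C.U x = b → ∀ᶠ s in 𝓝 (0 : ℂ), p x s) : ∀ᶠ y in 𝓝 b, ∀ x' ∈ C.D, C.U x' = y →
      ∃ x ∈ C.D, C.U x = b ∧ ∃ s, p x s ∧ ch x s = x' := by
  refine C.nbhd hb (mem_nhdsSet_iff_forall.2 fun x hx => ?_)
  rw [← map_ch x]
  exact (h x hx.1 hx.2).mono fun s hs => ⟨x, hx.1, hx.2, s, hs, rfl⟩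

theorem OC.cu_spec (C : OC O) {x : OnePoint ℂ} {t s : ℂ} (t0 : t ≠ 0) (e : ch x t = s)
    (hs : s ∉ C.F) {H : ℂ → ℂ} (hH : ContDiffAt ℝ ∞ H t) (H0 : H t ≠ 0) {Ω : Bil E ℂ}
    (hl : ∀ v w, Ω (O.J (C.u s) v) w = .I * Ω v w) : ContDiffAt ℝ ∞ (cu x H) s ∧ cu x H s ≠ 0 ∧
      ∀ v, H t * Ω (dif (C.br x) t 1) v = cu x H s * Ω (dif C.u s 1) v := by
  induction x using OnePoint.rec with
  | coe a =>
    obtain rfl : a + t = s := OnePoint.coe_injective e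
    have e1 : a + t - a = t := add_sub_cancel_left a t
    refine ⟨ContDiffAt.comp (g := H) (f := fun s => s - a) _ (e1.symm ▸ hH)
      (contDiffAt_id.sub contDiffAt_const), ?_, fun v => ?_⟩
    · change H (a + t - a) ≠ 0
      rwa [e1]
    · change H t * Ω (dif (fun s => C.U (ch a s)) t 1) v = H (a + t - a) * _
      rw [e1, C.dif_ch hs]
  | infty =>
    rw [ch_infty_of_ne t0] at e
    obtain rfl : t⁻¹ = s := OnePoint.coe_injective e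
    refine ⟨(contDiffAt_id.pow 2).neg.mul (ContDiffAt.comp (g := H) (f := fun s => s⁻¹) _
      ((inv_inv t).symm ▸ hH) (contDiffAt_inv ℝ (inv_ne_zero t0))), ?_, fun v => ?_⟩
    · change -t⁻¹ ^ 2 * H t⁻¹⁻¹ ≠ 0
      rw [inv_inv]
      exact mul_ne_zero (neg_ne_zero.2 (pow_ne_zero 2 (inv_ne_zero t0))) H0
    · have e1 : C.br OnePoint.infty =ᶠ[𝓝 t] C.u ∘ fun s => s⁻¹ := by
        filter_upwards [isOpen_ne.mem_nhds t0] with s hs
        rw [OC.br, ch_infty_of_ne hs]; rfl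
      change _ = -t⁻¹ ^ 2 * H t⁻¹⁻¹ * _
      rw [dif_congr e1, brk_dif_hol (C.holG_u hs).cm (hasDerivAt_inv t0),
        om_lin (C.holG_u hs).self_of_nhds.2 hl, inv_inv]
      ring

theorem OC.Simple.good (h : C.Simple) :
    ∃ G, InjOn C.U G ∧ ∀ x, ∀ᶠ s in 𝓝[≠] (0 : ℂ), ch x s ∈ G := by
  obtain ⟨B, -, h⟩ := h
  refine ⟨(↑) '' (B : Set ℂ)ᶜ, ?_, fun x => ?_⟩
  · rintro _ ⟨s, hs, rfl⟩ _ ⟨t, ht, rfl⟩ e
    rw [h hs ht e]
  · have h1 : (insert OnePoint.infty (((↑) : ℂ → OnePoint ℂ) '' B) \ {x}).Finite :=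
      ((B.finite_toSet.image _).insert _).subset sdiff_subset
    have h2 : ∀ᶠ y in 𝓝[≠] x, y ∈ ((↑) : ℂ → OnePoint ℂ) '' (B : Set ℂ)ᶜ := by
      filter_upwards [nhdsWithin_le_nhds (h1.isClosed.isOpen_compl.mem_nhds fun h => h.2 rfl),
        self_mem_nhdsWithin] with y h3 h4
      induction y using OnePoint.rec with
      | infty => exact absurd ⟨mem_insert _ _, h4⟩ h3
      | coe s => exact ⟨s, fun h5 => h3 ⟨Or.inr ⟨s, h5, rfl⟩, h4⟩, rfl⟩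
    rwa [← map_ch_ne] at h2

theorem OC.br_zero (C : OC O) (x : OnePoint ℂ) : C.br x 0 = C.U x := by rw [OC.br, ch_zero]

theorem OC.br_mem (C : OC O) {x : OnePoint ℂ} (hx : x ∈ C.D) :
    ∀ᶠ s in 𝓝 (0 : ℂ), C.br x s ∈ C.img := by
  have h : ∀ᶠ y in 𝓝 x, y ∈ C.D := C.isOpen_D.mem_nhds hx
  rw [← map_ch x] at h
  exact h.mono fun s hs => C.img_eq ▸ mem_image_of_mem _ hs

theorem OC.exists_site (C : OC O) (h : C.Simple) {b : X} (hb : b ∈ O.W) {U : Set X} (hU : IsOpen U)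
    (hbU : b ∈ U) {Ω : X → Bil E ℂ} (hΩ : Form U Ω)
    (hΩ' : ∀ y ∈ U, Ω y ≠ 0 ∧ ∀ v w, Ω y (O.J y v) w = .I * Ω y v w) :
    Nonempty (SEq C Ω b) := by
  classical
  obtain ⟨B, -, hB, hB'⟩ := C.exists_bad h
  obtain ⟨G, inj, hG⟩ := h.good
  obtain ⟨A, hA⟩ : ∃ A : Finset (OnePoint ℂ), ∀ x, x ∈ A ↔ x ∈ C.D ∧ C.U x = b :=
    ⟨(C.fibre_finite hb).toFinset, fun x => Finite.mem_toFinset _⟩
  have hol (x) (hx : x ∈ A) : HolG O.J (C.br x) 0 := C.holG ((hA x).1 hx).1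
  have b0 (x) (hx : x ∈ A) : C.br x 0 = b := (C.br_zero x).trans ((hA x).1 hx).2
  have iso (x) (hx : x ∈ A) : ∀ᶠ s in 𝓝[≠] (0 : ℂ), C.br x s ≠ b ∧ dif (C.br x) s 1 ≠ 0 :=
    b0 x hx ▸ C.isolated ((hA x).1 hx).1
  have t0 (x) (hx : x ∈ A) : Tendsto (C.br x) (𝓝 0) (𝓝 b) := b0 x hx ▸ (hol x hx).cont.tendsto
  have t1 (x) (hx : x ∈ A) : Tendsto (C.br x) (𝓝[≠] 0) (𝓝[≠] b) := tendsto_nhdsWithin_iff.2
    ⟨(t0 x hx).mono_left nhdsWithin_le_nhds, (iso x hx).mono fun _ h => h.1⟩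
  have ex (x) (hx : x ∈ A) : ∃ P, XEq O Ω b (C.br x) P :=
    exists_xeq hb hU hbU hΩ hΩ' (hol x hx) (b0 x hx) ((iso x hx).mono fun _ h => h.1) (hG x)
      fun s hs t ht e => (ch_isOpenEmbedding x).injective (inj hs ht e)
  choose! P hP using ex
  have cd : ∀ᶠ y in 𝓝[≠] b, ∀ x ∈ A, FnAt ∞ (P x) y :=
    (eventually_all_finset A).2 fun x hx => (hP x hx).cd
  have z1 : ∀ᶠ y in 𝓝 b, ∀ x ∈ A, P x y = 0 → y ∈ C.img :=
    (eventually_all_finset A).2 fun x hx => ((hP x hx).zeros _ (C.br_mem ((hA x).1 hx).1)).mono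
      fun y hy h0 => by
        obtain ⟨s, hs, rfl⟩ := hy h0
        exact hs
  have sep (x) (hx : x ∈ A) (x') (hx' : x' ∈ A.erase x) :
      ∃ n : ℕ, 0 < n ∧ HasIdx (fun s => P x' (C.br x s)) 0 n := by
    obtain ⟨ne, hx'⟩ := Finset.mem_erase.1 hx'
    obtain ⟨N', N, o', o, m', m, d⟩ := t2_separation ne
    have h1 : ∀ᶠ s in 𝓝 (0 : ℂ), ch x s ∈ N := (map_ch x).le (o.mem_nhds m)
    have h2 : ∀ᶠ s in 𝓝 (0 : ℂ), ch x' s ∈ N' := (map_ch x').le (o'.mem_nhds m')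
    have h3 := (hP x' hx').zeros _ (h2.and (eventually_nhdsWithin_iff.1 (hG x')))
    refine (hP x' hx').pos _ (hol x hx) (b0 x hx) (Frequently.filter_mono (f := 𝓝[≠] 0)
      (Eventually.frequently ?_) nhdsWithin_le_nhds)
    filter_upwards [nhdsWithin_le_nhds h1, nhdsWithin_le_nhds ((t0 x hx).eventually h3), hG x,
      iso x hx] with s a1 a2 a3 a4 a5
    obtain ⟨t, ht, e⟩ := a2 a5
    have a6 : t ≠ 0 := fun t0 => a4.1 (by rw [e, t0, b0 x' hx'])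
    exact disjoint_left.1 d ht.1 (inj a3 (ht.2 a6) e ▸ a1)
  choose! n hn hn' using sep
  choose! k e hk he he' cl using fun x hx => (hP x hx).adj
  have idx (x) (hx : x ∈ A) : HasIdx (fun s => k x s * ∏ x' ∈ A.erase x, P x' (C.br x s)) 0
      (e x + ∑ x' ∈ A.erase x, n x x' : ℕ) :=
    ((end_pn 0).mul (hk x hx) ((end_pn 0).prod _ (hn' x hx))).cast (by push_cast; rfl)
  obtain ⟨H, hH⟩ : ∃ H : OnePoint ℂ → ℂ → ℂ,
      ∀ x, (fun s => k x s * ∏ x' ∈ A.erase x, P x' (C.br x s)) = H x := ⟨_, fun _ => rfl⟩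
  simp only [hH] at idx
  have cl' (x) (hx : x ∈ A) : ∀ᶠ s in 𝓝[≠] (0 : ℂ), ContDiffAt ℝ ∞ (H x) s ∧ H x s ≠ 0 ∧ ∀ v,
      ‖dfn (fun y => ∏ x ∈ A, P x y) (C.br x s) v - H x s * Ω (C.br x s) (dif (C.br x) s 1) v‖ ≤
        1 / 2 * ‖H x s * Ω (C.br x s) (dif (C.br x) s 1) v‖ := by
    filter_upwards [cl x hx, (t1 x hx).eventually cd, nhdsWithin_le_nhds (hP x hx).van,
      (end_pn 0).ne_zero (idx x hx), nhdsWithin_le_nhds (hol x hx)] with s a1 a2 a3 a4 a5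
    refine ⟨hH x ▸ a1.1.mul (contDiffAt_prod fun x' hx' =>
      (a2 x' (Finset.mem_of_mem_erase hx')).comp_plot a5.1), a4, fun v => ?_⟩
    rw [← hH x, dfn_prod a2 hx a3, mul_right_comm, ← sub_mul, norm_mul, norm_mul, ← mul_assoc]
    exact mul_le_mul_of_nonneg_right (a1.2 v) (norm_nonneg _)
  obtain ⟨N, hN, hN'⟩ := A.finite_toSet.t2_separation
  have loc (x) (hx : x ∈ A) (s : ℂ) (hs : (s : OnePoint ℂ) ∈ N x) :
      (fun s : ℂ => ∑ x ∈ A, if (s : OnePoint ℂ) ∈ N x then cu x (H x) s else 0) =ᶠ[𝓝 s]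
        cu x (H x) := by
    filter_upwards [OnePoint.continuous_coe.continuousAt.eventually ((hN x).2.mem_nhds hs)]
      with t ht
    rw [Finset.sum_eq_single_of_mem x hx fun x' hx' ne =>
      if_neg fun m => disjoint_left.1 (hN' hx' hx ne) m ht]
    exact if_pos ht
  have cN (x) : ∀ᶠ s in 𝓝 (0 : ℂ), ch x s ∈ N x := (map_ch x).le ((hN x).2.mem_nhds (hN x).1)
  refine ⟨⟨fun y => ∏ x ∈ A, P x y,
    fun s => ∑ x ∈ A, if (s : OnePoint ℂ) ∈ N x then cu x (H x) s else 0,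
    fun x => e x + ∑ x' ∈ A.erase x, n x x', cd.mono fun _ h => FnAt.cprod h,
    nhdsWithin_le_nhds ?_, ?_, ?_, fun g z h4 h5 h6 => ?_, fun a ha e1 => ?_, fun e1 => ?_,
    fun x hx e1 => ?_, fun x hx e1 e2 => ?_⟩⟩
  · filter_upwards [z1, C.near hb fun x h1 h2 => (hP x ((hA x).2 ⟨h1, h2⟩)).van] with y a1 a2
    rw [Finset.prod_eq_zero_iff]
    refine ⟨fun ⟨x, hx, h0⟩ => a1 x hx h0, fun hy => ?_⟩
    obtain ⟨x', h1, rfl⟩ := C.img_eq ▸ hy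
    obtain ⟨x, h0, h2, s, h3, rfl⟩ := a2 x' h1 rfl
    exact ⟨x, (hA x).2 ⟨h0, h2⟩, h3⟩
  · have h1 : ((B : Set X) \ {b}).Finite := B.finite_toSet.subset sdiff_subset
    filter_upwards [nhdsWithin_le_nhds (h1.isClosed.isOpen_compl.mem_nhds fun h => h.2 rfl),
      self_mem_nhdsWithin] with y a1 a2
    have a3 : y ∉ B := fun m => a1 ⟨m, a2⟩
    refine ⟨fun e => a3 (e ▸ hB), fun s hs e => ?_⟩
    subst e
    exact hB' s hs a3
  · filter_upwards [self_mem_nhdsWithin, nhdsWithin_le_nhds (hU.mem_nhds hbU),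
      nhdsWithin_le_nhds (C.near hb fun x h1 h2 => (cN x).and
        (eventually_nhdsWithin_iff.1 (cl' x ((hA x).2 ⟨h1, h2⟩))))] with y a1 a2 a3 s hs e1
    obtain ⟨x, h1, h2, t, ⟨h3, h4⟩, h5⟩ := a3 s ((C.coe_mem_D s).2 hs) e1
    have e2 : C.br x t = y := by rw [OC.br, h5]; exact e1
    have t0 : t ≠ 0 := fun t0 => a1 (by rw [← e2, t0, C.br_zero]; exact h2)
    obtain ⟨b1, b2, b3⟩ := h4 t0
    obtain ⟨c1, c2, c3⟩ := C.cu_spec t0 h5 hs b1 b2 (Ω := Ω y) (e1.symm ▸ (hΩ' y a2).2)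
    have e3 := loc x ((hA x).2 ⟨h1, h2⟩) s (h5 ▸ h3)
    refine ⟨c1.congr_of_eventuallyEq e3, e3.eq_of_nhds.trans_ne c2, fun v => ?_⟩
    rw [e3.eq_of_nhds, ← c3]
    exact e2 ▸ b3 v
  · have tz : Tendsto (fun s : ℂ => z + s) (𝓝 0) (𝓝 z) := by
      simpa using (continuous_const_add z).tendsto 0
    have tz' : Tendsto (fun s : ℂ => s - z) (𝓝 z) (𝓝 0) := by
      simpa using (continuous_sub_right z).tendsto z
    have g4 : HolG O.J (g ∘ fun s => z + s) 0 :=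
      HolG.comp (by rwa [add_zero]) (by rw [add_zero]; exact h4.ev_W (h5.symm ▸ hb)) (by fun_prop)
    have tg : Tendsto g (𝓝 z) (𝓝 b) := h5 ▸ h4.cont.tendsto
    have h7 (x) (hx : x ∈ A) := (hP x hx).pos _ g4 (by simpa using h5) (tz'.frequently
      ((h6.and_eventually (tg.eventually z1)).mono fun s a a3 => a.1 (a.2 x hx (by simpa using a3))))
    choose! m hm hm' using h7
    refine ⟨∑ x ∈ A, m x, hasIdx_shift.1 (((end_pn 0).prod A hm').cast (by push_cast; rfl)),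
      fun hi => Finset.sum_pos hm ?_⟩
    obtain ⟨x, hx, e⟩ := C.img_eq ▸ hi
    exact ⟨x, (hA x).2 ⟨hx, e⟩⟩
  · have hx := (hA a).2 ⟨(C.coe_mem_D a).2 ha, e1⟩
    refine Idx.congr (hasIdx_shift.1 ((idx _ hx).congr (Eventually.of_forall fun s => ?_)))
      (nhdsWithin_le_nhds (loc _ hx a (hN _).1).symm)
    exact congrArg (H a) (add_sub_cancel_left a s).symm
  · have hx := (hA _).2 ⟨C.infty_mem_D, e1⟩
    refine (((end_pn 0).neg ((end_pn 0).mul ((idx_id _).zpow (-2)) (idx _ hx))).cast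
      (by ring)).congr ?_
    filter_upwards [nhdsWithin_le_nhds (cN OnePoint.infty), self_mem_nhdsWithin] with s a1 a2
    rw [ch_infty_of_ne a2] at a1
    rw [(loc _ hx _ a1).eq_of_nhds]
    change _ = -s⁻¹ ^ 2 * H OnePoint.infty s⁻¹⁻¹
    rw [inv_inv, zpow_neg, inv_pow, neg_mul]
    rfl
  · have hx' := (hA x).2 ⟨hx, e1⟩
    rw [Nat.add_eq_zero_iff, he' x hx', Finset.sum_eq_zero_iff]
    refine and_congr_right fun _ => ⟨fun h x' h1 h2 => ?_, fun h x' h1 => ?_⟩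
    · by_contra ne
      have m := Finset.mem_erase.2 ⟨ne, (hA x').2 ⟨h1, h2.trans e1⟩⟩
      exact (hn x hx' x' m).ne' (h x' m)
    · obtain ⟨ne, m⟩ := Finset.mem_erase.1 h1
      exact absurd (h x' ((hA x').1 m).1 (((hA x').1 m).2.trans e1.symm)) ne
  · rcases (A.erase x).eq_empty_or_nonempty with h0 | ⟨x', m⟩
    · exact absurd (by simpa [h0] using e2) (he x ((hA x).2 ⟨hx, e1⟩))
    · obtain ⟨ne, m⟩ := Finset.mem_erase.1 m
      exact ⟨x', ((hA x').1 m).1, ((hA x').1 m).2, ne⟩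

end Pool.Agent.Lib.MP_1c0d65_gt.PW
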