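import Pool.Agent.Lib.MP_1c0d65_gt.E.SitesA
import Pool.Agent.Lib.MP_1c0d65_gt.E.Site
import Pool.Agent.Lib.MP_1c0d65_gt.E.SiteB

/-! The sites of a simple curve exist. -/

set_option autoImplicit false

open scoped Manifold ContDiff Topology
open Set

noncomputable section

namespace Pool.Agent.Lib.MP_1c0d65_gt.PW

variable {X : Type} [TopologicalSpace X] [ChartedSpace E X] [IsManifold 𝓘(ℝ, E) ∞ X]
  [T2Space X] [CompactSpace X] [MeasurableSpace X] [BorelSpace X] {c : Ctx X} {O : Orb c}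
  {C : OC O} {ι : C.F → Fin O.n} {j : C.F → ℕ} {Ω : X → X → Bil E ℂ}

theorem exists_sites (h : C.Simple) (hm : C.Mon ι j) (hΩ : CanF O Ω) (T : Finset X)
    (hT : ∀ x ∈ T, x ∈ O.W) : ∃ S : Sites C ι j Ω, T ⊆ S.T := by
  classical
  obtain ⟨B, h1, h2, h3⟩ := C.exists_bad h
  have hW : ∀ x ∈ T ∪ B, x ∈ O.W := fun x hx =>
    (Finset.mem_union.1 hx).elim (hT x) fun hx => C.img_subset_W (h1 hx)
  obtain ⟨S, hS⟩ := exists_sites_of h hm hΩ hW (Finset.mem_union_right _ h2)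
    (fun s hs hB => h3 s hs fun e => hB (Finset.mem_union_right _ e)) fun b => Classical.choice (by
      obtain ⟨U, u1, u2, -, u3, u4⟩ := hΩ b (hW b b.2)
      exact C.exists_site h (hW b b.2) u1 u2 u3 u4)
  exact ⟨S, hS ▸ Finset.subset_union_left⟩

end Pool.Agent.Lib.MP_1c0d65_gt.PW
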