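import Pool.Agent.Lib.MP_1c0d65_gt.E.PosA
import Pool.Agent.Lib.MP_1c0d65_gt.E.Lel
import Pool.Agent.Lib.MP_1c0d65_gt.E.Glue
import Pool.Agent.Lib.MP_1c0d65_gt.E.Sites
import Pool.Agent.Lib.MP_1c0d65_gt.E.Dual

/-! Positivity of intersections. -/

set_option autoImplicit false
set_option linter.unusedSectionVars false

open scoped Manifold ContDiff Topology
open Set MeasureTheory Filter Metric

noncomputable section

namespace Pool.Agent.Lib.MP_1c0d65_gt.PW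

open W

variable {X : Type} [TopologicalSpace X] [ChartedSpace E X] [IsManifold 𝓘(ℝ, E) ∞ X]
  [T2Space X] [CompactSpace X] [MeasurableSpace X] [BorelSpace X] {c : Ctx X} {O : Orb c}

theorem OC.pos (C C' : OC O) (h : C.Simple) (h' : C'.Simple) (hne : ¬ C'.img ⊆ C.img) {η}
    (hη : C.Dual η) {ι j ι' j'} (hm : C.Mon ι j) (hm' : C'.Mon ι' j') (T : Finset X)
    (hT : ∀ x ∈ T, x ∈ C.img ∧ x ∈ C'.img) : ∃ k : ℕ, T.card ≤ k ∧ per C'.u η =
      k + ∑ a, ∑ a', if ι a = ι' a' then mn (O.N (ι a)) (O.a (ι a)) (j a) (j' a') else 0 := by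
  obtain ⟨Ω, hΩ⟩ := exists_canF O
  have fin := (C.inter_finite C' hne).image C'.U
  obtain ⟨S, hS⟩ := exists_sites h hm hΩ fin.toFinset fun x hx => by
    obtain ⟨y, hy, rfl⟩ := fin.mem_toFinset.1 hx
    exact C'.U_mem hy.1
  obtain ⟨K⟩ := S.S.exists_cur
  obtain ⟨S', -⟩ := exists_sites h' hm' hΩ ∅ (by simp)
  obtain ⟨K'⟩ := S'.S.exists_cur
  have hd := S.dual K
  have hB : ∀ b ∈ S.D.B ∩ O.W, b ∈ S.T := fun b hb => by rwa [S.finite] at hb
  obtain ⟨k, h1, h2⟩ := pos_core C C' hd.1.1 hd.2.1 S.D.isClosed.isOpen_compl K.dpot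
    (S.T.finite_toSet.subset hB) (fun x hx hx' => by
      rw [C'.img_eq] at hx'
      obtain ⟨y, hy, rfl⟩ := hx'
      rw [S.hB]
      exact Or.inr (hS (fin.mem_toFinset.2 ⟨y, ⟨hy, hx⟩, rfl⟩)))
    (fun b hb => ⟨(S.q ⟨b, hB b hb⟩).P, ((S.q ⟨b, hB b hb⟩).sm.and (S.ψ_atB K ⟨b, hB b hb⟩)).mono
      fun y hy => ⟨hy.1.of_le (by simp), hy.2⟩, (S.q ⟨b, hB b hb⟩).pos⟩) hm'
    (fun a' => ∑ a, if ι a = ι' a' then mn (O.N (ι' a')) (O.a (ι' a')) (j a) (j' a') else 0)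
    (fun a z hz ha => by
      obtain ⟨n, k, h3, h4⟩ := (S.orb (ι' a)).pos_br (hm' a).1 hz ha.frequently
      refine ⟨S.R (ι' a), n, k, ?_, h3, h4⟩
      filter_upwards [S.ψ_atL K (ι' a),
        nhdsWithin_le_nhds (ball_mem_nhds (0 : E) (S.orb (ι' a)).hr.1)] with w h5 h6
      exact ⟨((S.orb (ι' a)).an w h6).contDiffAt.restrict_scalars ℝ, h5⟩) T hT
  refine ⟨k, h1, ?_⟩
  rw [OC.dual_indep hη hd (S'.dual K'), h2, Finset.sum_comm]
  congr 1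
  refine Finset.sum_congr rfl fun a _ => Finset.sum_congr rfl fun a' _ => ?_
  split_ifs with e
  · rw [e]
  · rfl

end Pool.Agent.Lib.MP_1c0d65_gt.PW
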