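import Pool.Agent.Lib.MP_1c0d65_gt.E.Per
import Pool.Agent.Lib.MP_1c0d65_gt.B.Zfin
import Pool.Agent.Lib.MP_1c0d65_gt.B.Sphere

/-! Positivity of intersections: the count of the residues. -/

set_option autoImplicit false
set_option linter.unusedSectionVars false

open scoped Manifold ContDiff Topology
open Set MeasureTheory Filter Metric
open scoped Real

noncomputable section

namespace Pool.Agent.Lib.MP_1c0d65_gt.PW

open W

variable {X : Type} [TopologicalSpace X] [ChartedSpace E X] [IsManifold 𝓘(ℝ, E) ∞ X]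
  [T2Space X] [CompactSpace X] [MeasurableSpace X] [BorelSpace X] {c : Ctx X} {O : Orb c}

theorem ev_notMem {Z : Set ℂ} (hZ : Z.Finite) (a : ℂ) : ∀ᶠ s in 𝓝[≠] a, s ∉ Z := by
  have h : IsClosed (Z \ {a}) := (hZ.subset sdiff_subset).isClosed
  filter_upwards [self_mem_nhdsWithin, nhdsWithin_le_nhds (h.isOpen_compl.mem_nhds
    (show a ∈ (Z \ {a})ᶜ from fun h => h.2 rfl))] with s hs hs' hF
  exact hs' ⟨hF, hs⟩

theorem OC.pre_finite (C : OC O) {B : Set X} (hB : (B ∩ O.W).Finite) :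
    {s | s ∉ C.F ∧ C.u s ∈ B}.Finite := by
  refine ((hB.biUnion fun b hb => C.fibre_finite hb.2).preimage
    OnePoint.coe_injective.injOn).subset fun s hs => ?_
  exact mem_iUnion₂.2 ⟨C.u s, ⟨hs.2, C.mu hs.1⟩, (C.coe_mem_D s).2 hs.1, rfl⟩

theorem pos_sm1_zero (U : Set X) : Sm1 U (fun _ => (0 : E →L[ℝ] ℝ)) := fun x =>
  (contDiffOn_const (c := 0)).congr fun _ _ => ContinuousLinearMap.zero_comp _

/-- The local data at a smooth bad point. -/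
def PosAt (C : OC O) (ψ : X → E →L[ℝ] ℝ) (b : X) : Prop :=
  ∃ P : X → ℂ, (∀ᶠ y in 𝓝[≠] b, FnAt 1 P y ∧ (y ∉ C.img → ψ y = dA P y)) ∧
    ∀ g z, HolG O.J g z → g z = b → (∃ᶠ s in 𝓝 z, g s ∉ C.img) →
      ∃ n : ℕ, HasIdx (fun s => P (g s)) z n ∧ (b ∈ C.img → 0 < n)

theorem PosAt.res {C : OC O} {ψ : X → E →L[ℝ] ℝ} {g : ℂ → X} {z : ℂ} (h : PosAt C ψ (g z))
    (hg : HolG O.J g z) (h1 : ∀ᶠ s in 𝓝[≠] z, g s ∉ C.img ∧ g s ≠ g z) :
    ∃ n : ℕ, Tendsto (cp (pull1 g ψ) z) (𝓝[>] 0) (𝓝 (2 * π * n)) ∧ (g z ∈ C.img → 0 < n) := by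
  obtain ⟨P, h2, h3⟩ := h
  obtain ⟨n, h4, h5⟩ := h3 g z hg rfl
    ((h1.mono fun _ h => h.1).frequently.filter_mono nhdsWithin_le_nhds)
  have t : Tendsto g (𝓝[≠] z) (𝓝[≠] (g z)) := tendsto_nhdsWithin_iff.2
    ⟨hg.cont.tendsto.mono_left nhdsWithin_le_nhds, h1.mono fun _ h => h.2⟩
  have := res_sm (ψ := ψ) (lam := 1) hg.cm isOpen_univ (mem_univ _) (pos_sm1_zero univ) (by
    filter_upwards [t.eventually h2, h1] with s h6 h7
    exact ⟨h6.1, fun v => by rw [h6.2 h7.1, dA_apply]; simp⟩) h4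
  exact ⟨n, by simpa using this, h5⟩

theorem pos_core (C C' : OC O) {η : X → Bil E ℝ} {ψ : X → E →L[ℝ] ℝ} (hη : Form univ η)
    (ht : O.Test η) {B : Set X} (hU : IsOpen (C.img ∪ B)ᶜ)
    (hd : IsD (C.img ∪ B)ᶜ ψ (-(2 * π) • η)) (hB : (B ∩ O.W).Finite)
    (hI : ∀ x ∈ C.img, x ∈ C'.img → x ∈ B) (sm : ∀ b ∈ B ∩ O.W, PosAt C ψ b)
    {ι' : C'.F → Fin O.n} {j' : C'.F → ℕ} (hm' : C'.Mon ι' j') (m : C'.F → ℝ)
    (orb : ∀ (a : C'.F) z, C'.Br a (ι' a) (j' a) z → (∀ᶠ s in 𝓝[≠] (a : ℂ), C'.u s ∉ C.img) →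
      ∃ (P : E → ℂ) (n k : ℕ), (∀ᶠ w in 𝓝[≠] (0 : E), ContDiffAt ℝ 1 P w ∧
        (P w ≠ 0 → pull1 (O.Pi (ι' a)) ψ w = darg P w)) ∧ HasIdx (fun ζ => P (z ζ)) 0 n ∧
        (n : ℝ) = O.N (ι' a) * (k + m a))
    (T : Finset X) (hT : ∀ x ∈ T, x ∈ C.img ∧ x ∈ C'.img) :
    ∃ k : ℕ, T.card ≤ k ∧ per C'.u η = k + ∑ a, m a := by
  classical
  have fin := C'.pre_finite hB
  set Y := fin.toFinset with hY
  have mY : ∀ s, s ∈ Y ↔ s ∉ C'.F ∧ C'.u s ∈ B := fun s => fin.mem_toFinset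
  have off : ∀ s ∉ C'.F ∪ Y, s ∉ C'.F ∧ C'.u s ∈ (C.img ∪ B)ᶜ := fun s hs => by
    rw [Finset.mem_union, not_or, mY, not_and] at hs
    exact ⟨hs.1, fun h => hs.2 hs.1 (h.elim (fun h => hI _ h (Or.inl ⟨s, hs.1, rfl⟩)) id)⟩
  have ev : ∀ a, ∀ᶠ s in 𝓝[≠] a, s ∉ C'.F ∧ C'.u s ∈ (C.img ∪ B)ᶜ := fun a =>
    (ev_notMem (C'.F ∪ Y).finite_toSet a).mono off
  have h1 : ∀ a, ∃ n : ℕ, a ∈ Y → Tendsto (cp (pull1 C'.u ψ) a) (𝓝[>] 0) (𝓝 (2 * π * n)) ∧
      (C'.u a ∈ C.img → 0 < n) := fun a => by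
    by_cases ha : a ∈ Y
    · have hb := (mY a).1 ha
      obtain ⟨n, hn⟩ := (sm _ ⟨hb.2, C'.mu hb.1⟩).res (C'.holG_u hb.1)
        ((ev a).mono fun s hs => ⟨fun h => hs.2 (Or.inl h), fun h => hs.2 (Or.inr (h ▸ hb.2))⟩)
      exact ⟨n, fun _ => hn⟩
    · exact ⟨0, fun h => absurd h ha⟩
  choose n hn using h1
  have h2 : ∀ a : C'.F, ∃ k : ℕ,
      Tendsto (cp (pull1 C'.u ψ) a) (𝓝[>] 0) (𝓝 (2 * π * (k + m a))) := fun a => by
    obtain ⟨z, hz⟩ := (hm' a).2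
    obtain ⟨P, n, k, h3, h4, h5⟩ := orb a z hz
      ((ev a).mono fun s hs h => hs.2 (Or.inl h))
    have := hz.res (ψ := ψ) (b := fun _ => 0) (lam := 1) ((ev a).mono fun s hs =>
      (hd.sm1.smooth hU (C'.cm hs.1) hs.2).continuousAt) (.of_forall fun _ => continuousAt_const)
      (by filter_upwards [hz.tend.eventually h3, (end_pn 0).ne_zero h4] with ζ h6 h7
          exact ⟨h6.1, by rw [h6.2 h7]; simp⟩) h4
    have hN : (O.N (ι' a) : ℝ) ≠ 0 := Nat.cast_ne_zero.2 (O.N_ne _)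
    refine ⟨k, ?_⟩
    convert this using 2
    rw [Int.cast_natCast, h5]; field_simp
  choose k hk using h2
  obtain ⟨n', h3, h4⟩ : ∃ n' : ℕ, Tendsto (cp (pull1 C'.v ψ) 0) (𝓝[>] 0) (𝓝 (2 * π * n')) ∧
      (C'.v 0 ∈ C.img → 0 < n') := by
    by_cases hb : C'.v 0 ∈ B
    · refine (sm _ ⟨hb, C'.v0⟩).res C'.holG_v ?_
      have h0 : ∀ᶠ z in Bornology.cobounded ℂ, z ∉ C'.F ∪ Y := (C'.F ∪ Y).finite_toSet.isBounded
      filter_upwards [tendsto_inv₀_nhdsNE_zero.eventually h0, self_mem_nhdsWithin] with s h5 h6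
      have h7 := (off _ h5).2
      rw [← C'.uv s h6] at h7
      exact ⟨fun h => h7 (Or.inl h), fun h => h7 (Or.inr (h ▸ hb))⟩
    · have h5 : C'.v 0 ∉ C.img := fun h => hb (hI _ h (Or.inr rfl))
      exact ⟨0, by simpa using res_zero C'.smv.self_of_nhds hU (fun h => h.elim h5 hb) hd.sm1,
        fun h => absurd h h5⟩
  have dis : Disjoint C'.F Y := Finset.disjoint_left.2 fun s hs h => ((mY s).1 h).1 hs
  have key := C'.per_res hη (Or.inl ht) hU hd (C'.F ∪ Y) off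
    (r := fun a => if h : a ∈ C'.F then 2 * π * (k ⟨a, h⟩ + m ⟨a, h⟩) else 2 * π * n a)
    (fun a ha => by
      by_cases h : a ∈ C'.F
      · simpa only [dif_pos h] using hk ⟨a, h⟩
      · simpa only [dif_neg h] using (hn a ((Finset.mem_union.1 ha).resolve_left h)).1) h3
  rw [Finset.sum_union dis, ← Finset.sum_coe_sort C'.F,
    Finset.sum_congr rfl fun (a : C'.F) _ => dif_pos a.2,
    Finset.sum_congr rfl fun a ha => dif_neg ((mY a).1 ha).1] at key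
  refine ⟨n' + ∑ a ∈ Y, n a + ∑ a, k a, ?_, ?_⟩
  · have h5 : T ⊆ (T.filter (· = C'.v 0)) ∪ (Y.filter fun s => C'.u s ∈ C.img).image C'.u := by
      intro x hx
      rcases (hT x hx).2 with ⟨s, hs, rfl⟩ | h
      · exact Finset.mem_union_right _ (Finset.mem_image_of_mem _ (Finset.mem_filter.2
          ⟨(mY s).2 ⟨hs, hI _ (hT _ hx).1 (hT _ hx).2⟩, (hT _ hx).1⟩))
      · exact Finset.mem_union_left _ (Finset.mem_filter.2 ⟨hx, h⟩)
    have h6 : (T.filter (· = C'.v 0)).card ≤ n' := by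
      by_cases h : C'.v 0 ∈ T
      · exact (Finset.card_le_one.2 fun x hx y hy => (Finset.mem_filter.1 hx).2.trans
          (Finset.mem_filter.1 hy).2.symm).trans (h4 (hT _ h).1)
      · rw [Finset.filter_eq_empty_iff.2 fun x hx (e : x = C'.v 0) => h (e ▸ hx)]
        exact Nat.zero_le _
    have h7 : (Y.filter fun s => C'.u s ∈ C.img).card ≤ ∑ a ∈ Y, n a := by
      rw [Finset.card_filter]
      refine Finset.sum_le_sum fun a ha => ?_
      split_ifs with h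
      · exact (hn a ha).2 h
      · exact Nat.zero_le _
    have h8 := (Finset.card_le_card h5).trans (Finset.card_union_le _ _)
    have h9 := Finset.card_image_le (s := Y.filter fun s => C'.u s ∈ C.img) (f := C'.u)
    omega
  · rw [← Finset.mul_sum, ← Finset.mul_sum, Finset.sum_add_distrib] at key
    push_cast
    refine mul_left_cancel₀ Real.two_pi_pos.ne' ?_
    linear_combination -key

end Pool.Agent.Lib.MP_1c0d65_gt.PW
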