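import Pool.Agent.Lib.MP_1c0d65_gt.E.Lel
import Pool.Agent.Lib.MP_1c0d65_gt.E.OSite
import Pool.Agent.Lib.MP_1c0d65_gt.E.GlueB
import Pool.Agent.Lib.MP_1c0d65_gt.E.PosA
import Pool.Agent.Lib.MP_1c0d65_gt.PW.Cay

/-! The sites of a simple curve: construction from the local equations, and the potential near
the sites. -/

set_option autoImplicit false
set_option linter.unusedSectionVars false

open scoped Manifold ContDiff Topology ComplexConjugate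
open Set Filter Metric

noncomputable section

namespace Pool.Agent.Lib.MP_1c0d65_gt.PW

variable {X : Type} [TopologicalSpace X] [ChartedSpace E X] [IsManifold 𝓘(ℝ, E) ∞ X]
  [T2Space X] [CompactSpace X] [MeasurableSpace X] [BorelSpace X] {c : Ctx X} {O : Orb c}
  {C : OC O} {ι : C.F → Fin O.n} {j : C.F → ℕ} {Ω : X → X → Bil E ℂ}

theorem exists_canF (O : Orb c) : ∃ Ω, CanF O Ω := by
  obtain ⟨U, Ω, a, g, H⟩ := chern_of_tame O.isOpen_W O.tame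
  exact ⟨Ω, fun b hb => ⟨U b, (H b hb).1, (H b hb).2.1, (H b hb).2.2.1, (H b hb).2.2.2.1,
    (H b hb).2.2.2.2.2.1⟩⟩

theorem Sites.finite (S : Sites C ι j Ω) : S.D.B ∩ O.W = S.T := by
  rw [S.hB]
  exact Subset.antisymm (fun x hx => hx.1.resolve_left hx.2) fun x hx => ⟨Or.inr hx, S.hT x hx⟩

theorem Cur.ψ_near {D : Bad C} {S : Site D} (Λ : Cur S) {x : X} (hx : x ∈ Λ.V) (hB : x ∉ D.B)
    (hi : x ∉ C.img) : Λ.ψ x = dA (S.P x) x := by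
  rw [Λ.pot x x (Λ.mem x hB) hi, (Λ.near x hx).2.2 x (Λ.mem x hB), (Λ.near x hx).2.1, sub_zero]

theorem Sites.ψ_atB (S : Sites C ι j Ω) (Λ : Cur S.S) (b : S.T) :
    ∀ᶠ x in 𝓝[≠] (b : X), x ∉ C.img → Λ.ψ x = dA (S.q b).P x := by
  filter_upwards [S.atB b, nhdsWithin_le_nhds (Λ.isOpenV.mem_nhds
    (Λ.subV (S.hB ▸ Or.inr b.2)))] with x h1 h2 hi
  rw [Λ.ψ_near h2 h1.1 hi, h1.2]

theorem Sites.ev_V (S : Sites C ι j Ω) (Λ : Cur S.S) (i : Fin O.n) :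
    ∀ᶠ z in 𝓝[≠] (0 : E), z ∈ pb S.r ∧ O.Pi i z ∈ Λ.V := by
  obtain ⟨r, hr, h⟩ := O.small i Λ.V Λ.isOpenV fun x hx =>
    Λ.subV (S.D.hL (mem_iUnion.2 ⟨i, hx⟩))
  filter_upwards [self_mem_nhdsWithin, nhdsWithin_le_nhds (ball_mem_nhds (0 : E) hr.1),
    nhdsWithin_le_nhds (ball_mem_nhds (0 : E) (S.orb i).hr.1)] with z h0 h1 h2
  exact ⟨⟨h2, h0⟩, h ⟨z, ⟨h1, h0⟩, rfl⟩⟩

theorem Sites.ψ_atL (S : Sites C ι j Ω) (Λ : Cur S.S) (i : Fin O.n) :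
    ∀ᶠ z in 𝓝[≠] (0 : E), S.R i z ≠ 0 → pull1 (O.Pi i) Λ.ψ z = W.darg (S.R i) z := by
  filter_upwards [S.ev_V Λ i] with z ⟨h1, h2⟩ h3
  obtain ⟨g1, k, hk, g2⟩ := S.atL i z h1
  exact (S.orb i).pull_eq h1 (S.S.eqn _ (Λ.VV h2) g1).sm.self_of_nhds hk g2
    (Λ.ψ_near h2 g1 (mt ((S.orb i).zero z h1).2 h3))

theorem sites_pos {a b w : ℂ} (hw : w ≠ 0) (ha : ‖a - w‖ ≤ 1 / 2 * ‖w‖)
    (hb : ‖b - .I * w‖ ≤ 1 / 2 * ‖Complex.I * w‖) : 0 < (conj a * b).im := by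
  obtain ⟨x, rfl⟩ : ∃ x, a = (1 + x) * w := ⟨a / w - 1, by field_simp; ring⟩
  obtain ⟨y, rfl⟩ : ∃ y, b = (.I + y) * w := ⟨b / w - .I, by field_simp; ring⟩
  have h0 := norm_pos_iff.2 hw
  rw [show (1 + x) * w - w = x * w by ring, norm_mul] at ha
  rw [show (.I + y) * w - .I * w = y * w by ring, norm_mul, norm_mul, Complex.norm_I, one_mul] at hb
  have hx : x.re ^ 2 + x.im ^ 2 ≤ 1 / 4 := by
    have := le_of_mul_le_mul_right ha h0
    have h2 := Complex.sq_norm x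
    rw [Complex.normSq_apply] at h2
    nlinarith [norm_nonneg x]
  have hy : y.re ^ 2 + y.im ^ 2 ≤ 1 / 4 := by
    have := le_of_mul_le_mul_right hb h0
    have h2 := Complex.sq_norm y
    rw [Complex.normSq_apply] at h2
    nlinarith [norm_nonneg y]
  have e : conj ((1 + x) * w) * ((.I + y) * w) = conj (1 + x) * (.I + y) * (conj w * w) := by
    rw [map_mul]; ring
  rw [e, ← Complex.normSq_eq_conj_mul_self, Complex.mul_im, Complex.ofReal_im, Complex.ofReal_re,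
    mul_zero, zero_add]
  refine mul_pos ?_ (Complex.normSq_pos.2 hw)
  simp only [Complex.mul_im, Complex.conj_re, Complex.conj_im, Complex.add_re, Complex.add_im,
    Complex.one_re, Complex.one_im, Complex.I_re, Complex.I_im]
  nlinarith [sq_nonneg (x.re + y.im + 1), sq_nonneg (x.im - y.re), sq_nonneg (x.im + y.re)]

/-- The equation at a point is an equation in the sense of `Cur` at the points nearby. -/
theorem SEq.eqn (hΩ : CanF O Ω) {b : X} (hb : b ∈ O.W) (q : SEq C (Ω b) b) :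
    ∀ᶠ y in 𝓝[≠] b, Eqn C q.P y := by
  obtain ⟨U, hU, hbU, hW, hF, h2⟩ := hΩ b hb
  have h1 : ∀ {p : X → Prop}, (∀ᶠ y in 𝓝[≠] b, p y) → ∀ᶠ y in 𝓝[≠] b, ∀ᶠ z in 𝓝 y, p z :=
    fun h => by
      filter_upwards [eventually_eventually_nhdsWithin.2 h, self_mem_nhdsWithin] with y y1 y2
      rwa [isOpen_compl_singleton.nhdsWithin_eq y2] at y1
  filter_upwards [h1 q.sm, h1 q.zero, q.good, q.coef, nhdsWithin_le_nhds (hU.mem_nhds hbU)]
    with y y1 y2 y3 y4 y5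
  refine ⟨y1, y2, fun hi => ?_⟩
  obtain ⟨s, hs, e⟩ := hi.resolve_right y3.1
  obtain ⟨-, g1, g2⟩ := y4 s hs e
  obtain ⟨v, hv⟩ := lam_ne (fun v => (O.tame.1 y (hW y5) v).1) (h2 y y5).1 (hF.1 y y5)
    (h2 y y5).2 (y3.2 s hs e).1
  refine ⟨v, sites_pos (mul_ne_zero g1 hv) (g2 v) ?_⟩
  have := g2 (O.J y v)
  rwa [can_right (hF.1 y y5) (h2 y y5).2, mul_left_comm] at this

/-- The bad set. -/
theorem exists_bad_of {T : Finset X} (h0 : C.v 0 ∈ T)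
    (h1 : ∀ s ∉ C.F, C.u s ∉ T → dif C.u s 1 ≠ 0 ∧ ∀ s' ∉ C.F, C.u s' = C.u s → s' = s) :
    ∃ D : Bad C, D.B = (⋃ i, O.L i) ∪ T := by
  classical
  have hf := C.pre_finite (B := (T : Set X)) (T.finite_toSet.subset inter_subset_left)
  have hz : ∀ s, s ∉ C.F ∪ hf.toFinset ↔ s ∉ C.F ∧ C.u s ∉ T := fun s => by
    simp only [Finset.mem_union, Finite.mem_toFinset, mem_ofPred_eq, Finset.mem_coe]
    tauto
  refine ⟨⟨C.F ∪ hf.toFinset, (⋃ i, O.L i) ∪ T,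
    (isClosed_iUnion_of_finite O.closed).union T.finite_toSet.isClosed, subset_union_left,
    Or.inr h0, Finset.subset_union_left, fun s hs => ?_, fun s hs s' hs' e => ?_,
    fun s hs => (h1 s ((hz s).1 hs).1 ((hz s).1 hs).2).1⟩, rfl⟩
  · rw [← not_iff_not, hz]
    exact ⟨fun h => ⟨hs, fun h' => h (Or.inr h')⟩, fun h h' => h'.elim (C.mu hs) h.2⟩
  · exact (h1 s' ((hz s').1 hs').1 ((hz s').1 hs').2).2 s ((hz s).1 hs).1 e

theorem exists_sites_of (h : C.Simple) (hm : C.Mon ι j) (hΩ : CanF O Ω) {T : Finset X}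
    (hT : ∀ x ∈ T, x ∈ O.W) (h0 : C.v 0 ∈ T)
    (h1 : ∀ s ∉ C.F, C.u s ∉ T → dif C.u s 1 ≠ 0 ∧ ∀ s' ∉ C.F, C.u s' = C.u s → s' = s)
    (q : ∀ b : T, SEq C (Ω b) b) : ∃ S : Sites C ι j Ω, S.T = T := by
  classical
  obtain ⟨D, hD⟩ := exists_bad_of h0 h1
  obtain ⟨U, hU, hd⟩ := T.finite_toSet.t2_separation
  have H : ∀ b : T, ∃ N : Set X, IsOpen N ∧ (b : X) ∈ N ∧ closure N ⊆ O.W ∧ N ⊆ U b ∧
      ∀ y ∈ N, y ≠ b → Eqn C (q b).P y := fun b => by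
    obtain ⟨K, k1, k2, k3⟩ := exists_mem_nhds_isClosed_subset (inter_mem (inter_mem
      (O.isOpen_W.mem_nhds (hT b b.2)) ((hU b).2.mem_nhds (hU b).1))
      (eventually_nhdsWithin_iff.1 ((q b).eqn hΩ (hT b b.2))))
    exact ⟨interior K, isOpen_interior, mem_interior_iff_mem_nhds.2 k1,
      (closure_minimal interior_subset k2).trans fun x hx => (k3 hx).1.1,
      fun x hx => (k3 (interior_subset hx)).1.2, fun x hx => (k3 (interior_subset hx)).2⟩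
  choose N n1 n2 n3 n4 n5 using H
  have n6 : ∀ b b' : T, ∀ x ∈ N b, x ∈ N b' → b = b' := fun b b' x hx hx' => by
    by_contra e
    exact disjoint_left.1 (hd b.2 b'.2 fun e' => e (Subtype.ext e')) (n4 b hx) (n4 b' hx')
  obtain ⟨r, R, hr, hR⟩ := exists_oeq_all h hm (T := ⋃ b, closure (N b))
    (isClosed_iUnion_of_finite fun b => isClosed_closure) (iUnion_subset n3)
  obtain ⟨Q, hQ⟩ := exists_site_all fun i => (hR i).1
  let P : X → X → ℂ := fun x => if h : ∃ b, x ∈ N b then (q h.choose).P else Q x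
  have p1 : ∀ b, ∀ x ∈ N b, P x = (q b).P := fun b x hx => by
    have h : ∃ b, x ∈ N b := ⟨b, hx⟩
    simp only [P, dif_pos h]
    rw [n6 _ _ x h.choose_spec hx]
  have p2 : ∀ i, ∀ x ∈ O.Pi i '' pb r, P x = Q x := by
    rintro i _ ⟨z, hz, rfl⟩
    exact dif_neg fun ⟨b, hb⟩ => (hR i).2 z hz (mem_iUnion.2 ⟨b, subset_closure hb⟩)
  have hV : ∀ x ∈ (⋃ i, O.Pi i '' pb r ∪ O.L i) ∪ ⋃ b, N b, x ∉ D.B →
      (∃ i, x ∈ O.Pi i '' pb r) ∨ ∃ b, x ∈ N b ∧ x ≠ b := fun x hx hB => by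
    rw [hD] at hB
    refine hx.imp (fun h => ?_) fun h => ?_
    · obtain ⟨i, hi⟩ := mem_iUnion.1 h
      exact ⟨i, hi.resolve_right fun h' => hB (Or.inl (mem_iUnion.2 ⟨i, h'⟩))⟩
    · obtain ⟨b, hb⟩ := mem_iUnion.1 h
      exact ⟨b, hb, fun e => hB (Or.inr (e ▸ b.2))⟩
  refine ⟨⟨T, hT, D, hD, ⟨(⋃ i, O.Pi i '' pb r ∪ O.L i) ∪ ⋃ b, N b,
    (isOpen_iUnion fun i => O.isOpen i r hr).union (isOpen_iUnion n1), ?_, P, fun x hx hB => ?_,
    fun x hx hB => ?_⟩, q, fun b => ?_, r, R, fun i => (hR i).1, fun i z hz => ⟨?_, ?_⟩⟩, rfl⟩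
  · rw [hD]
    exact union_subset_union (iUnion_mono fun i => subset_union_right)
      fun x hx => mem_iUnion.2 ⟨⟨x, hx⟩, n2 ⟨x, hx⟩⟩
  · rcases hV x hx hB with ⟨i, hi⟩ | ⟨b, hb, e⟩
    · rw [p2 i x hi]; exact ((hQ i).1 x hi).1
    · rw [p1 b x hb]; exact n5 b x hb e
  · rcases hV x hx hB with ⟨i, hi⟩ | ⟨b, hb, -⟩
    · filter_upwards [((hQ i).1 x hi).2.2, (O.isOpen_img i hr.2).mem_nhds hi] with y y1 y2
      rwa [p2 i x hi, p2 i y y2]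
    · filter_upwards [(n1 b).mem_nhds hb] with y y1
      exact ⟨1, one_ne_zero, by simp [p1 b x hb, p1 b y y1]⟩
  · filter_upwards [self_mem_nhdsWithin, nhdsWithin_le_nhds ((n1 b).mem_nhds (n2 b))] with x x1 x2
    refine ⟨?_, p1 b x x2⟩
    rw [hD]
    rintro (h | h)
    · exact n3 b (subset_closure x2) h
    · exact x1 (congrArg Subtype.val (n6 ⟨x, h⟩ b x (n2 ⟨x, h⟩) x2))
  · rw [hD]
    rintro (h | h)
    · exact O.maps i (mon_pb_mono hr.2 hz) h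
    · exact (hR i).2 z hz (mem_iUnion.2 ⟨⟨_, h⟩, subset_closure (n2 ⟨_, h⟩)⟩)
  · show ∃ k : ℂ, k ≠ 0 ∧ ∀ᶠ w in 𝓝 z, P (O.Pi i z) (O.Pi i w) = k * R i w
    rw [p2 i _ ⟨z, hz, rfl⟩]
    exact ((hQ i).2 z hz).1

end Pool.Agent.Lib.MP_1c0d65_gt.PW
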